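import Mathlib

/-! Chevalley groups over Q_p: definitions. -/

set_option autoImplicit false
set_option linter.unusedSectionVars false

noncomputable section

open Matrix Topology

namespace Pool.Agent.Chev

/-- A representation with a weight basis of a split semisimple Lie algebra over `Q_p`, given by the
matrices `E k`, `F k` of the Chevalley generators (`k` runs over the simple roots). `A k l` is the
value of the root `α_k` on the coroot `α_l^∨`; `wt i k` is the value of the weight of the basis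
vector `i` on the coroot `α_k^∨`. The weights generate the weight lattice. -/
structure ChevData (p : ℕ) [Fact p.Prime] (I ι : Type) [Fintype I] [DecidableEq I] [Fintype ι]
    [DecidableEq ι] where
  A : Matrix I I ℤ
  wt : ι → I → ℤ
  E : I → Matrix ι ι ℚ_[p]
  F : I → Matrix ι ι ℚ_[p]
  A_diag : ∀ k, A k k = 2
  A_det : A.det ≠ 0
  E_wt : ∀ k i j, E k i j ≠ 0 → wt i = wt j + A k
  F_wt : ∀ k i j, F k i j ≠ 0 → wt i = wt j - A k
  EF_same : ∀ k, E k * F k - F k * E k = Matrix.diagonal (fun i => (wt i k : ℚ_[p]))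
  EF_ne : ∀ k l, k ≠ l → E k * F l = F l * E k
  span : AddSubgroup.closure (Set.range wt) = ⊤

/-- Invertible matrices. -/
abbrev GLm (p : ℕ) [Fact p.Prime] (ι : Type) [Fintype ι] [DecidableEq ι] := (Matrix ι ι ℚ_[p])ˣ

/-- The exponential of a nilpotent matrix as an invertible matrix (`1` if not nilpotent). -/
def exU {p : ℕ} [Fact p.Prime] {ι : Type} [Fintype ι] [DecidableEq ι] (X : Matrix ι ι ℚ_[p]) :
    GLm p ι := by
  classical
  exact if h : IsNilpotent X then
    ⟨IsNilpotent.exp X, IsNilpotent.exp (-X), IsNilpotent.exp_mul_exp_neg_self h,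
      IsNilpotent.exp_neg_mul_exp_self h⟩ else 1

variable {p : ℕ} [Fact p.Prime] {I ι : Type} [Fintype I] [DecidableEq I] [Fintype ι]
  [DecidableEq ι]

namespace ChevData

variable (D : ChevData p I ι)

/-- Exchanging the roles of `E` and `F`. -/
def dual : ChevData p I ι where
  A := D.A
  wt := fun i => - D.wt i
  E := D.F
  F := D.E
  A_diag := D.A_diag
  A_det := D.A_det
  E_wt := by
    intro k i j h
    rw [D.F_wt k i j h]; abel
  F_wt := by
    intro k i j h
    rw [D.E_wt k i j h]; abel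
  EF_same := by
    intro k
    have h := congrArg (fun M => -M) (D.EF_same k)
    simp only [neg_sub] at h
    rw [h]
    ext i j
    by_cases hij : i = j
    · subst hij; simp
    · simp [hij]
  EF_ne := fun k l h => (D.EF_ne l k (Ne.symm h)).symm
  span := by
    rw [← D.span]
    apply le_antisymm
    · rw [AddSubgroup.closure_le]
      rintro _ ⟨i, rfl⟩
      exact neg_mem (AddSubgroup.subset_closure ⟨i, rfl⟩)
    · rw [AddSubgroup.closure_le]
      rintro _ ⟨i, rfl⟩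
      have : D.wt i = -(- D.wt i) := by abel
      rw [this]
      exact neg_mem (AddSubgroup.subset_closure ⟨i, rfl⟩)

/-- The combination `∑ c_k α_k` of the simple roots, as a weight. -/
def rt (c : I → ℤ) : I → ℤ := Matrix.vecMul c D.A

theorem rt_add (c d : I → ℤ) : D.rt (c + d) = D.rt c + D.rt d := Matrix.add_vecMul _ _ _

theorem rt_zero : D.rt 0 = 0 := Matrix.zero_vecMul _

theorem rt_neg (c : I → ℤ) : D.rt (-c) = - D.rt c := Matrix.neg_vecMul _ _

theorem rt_single (k : I) : D.rt (Pi.single k 1) = D.A k := by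
  unfold rt; rw [Matrix.single_one_vecMul]; rfl

theorem rt_inj {c : I → ℤ} (h : D.rt c = 0) : c = 0 :=
  Matrix.eq_zero_of_vecMul_eq_zero D.A_det h

/-- `μ` is a nonzero combination of simple roots with nonnegative coefficients. -/
def Pos (μ : I → ℤ) : Prop := ∃ c : I → ℤ, (∀ k, 0 ≤ c k) ∧ c ≠ 0 ∧ μ = D.rt c

/-- `μ` is a combination of simple roots, with nonnegative coefficients of the `α_l`, `l ≠ k`, not
all of them zero. -/
def PosOff (k : I) (μ : I → ℤ) : Prop :=
  ∃ c : I → ℤ, (∀ l, l ≠ k → 0 ≤ c l) ∧ (∃ l, l ≠ k ∧ c l ≠ 0) ∧ μ = D.rt c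

/-- Weights of the entries of a matrix. -/
def Supp (S : Set (I → ℤ)) (X : Matrix ι ι ℚ_[p]) : Prop :=
  ∀ i j, X i j ≠ 0 → D.wt i - D.wt j ∈ S

/-- A set of weights closed under addition and not containing zero. -/
structure Conic (S : Set (I → ℤ)) : Prop where
  add : ∀ a ∈ S, ∀ b ∈ S, a + b ∈ S
  zero : (0 : I → ℤ) ∉ S

theorem Supp.mul {S T U : Set (I → ℤ)} {X Y : Matrix ι ι ℚ_[p]} (hX : D.Supp S X)
    (hY : D.Supp T Y) (h : ∀ a ∈ S, ∀ b ∈ T, a + b ∈ U) : D.Supp U (X * Y) := by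
  intro i j hij
  rw [Matrix.mul_apply] at hij
  obtain ⟨k, -, hk⟩ := Finset.exists_ne_zero_of_sum_ne_zero hij
  have h1 := hX i k (left_ne_zero_of_mul hk)
  have h2 := hY k j (right_ne_zero_of_mul hk)
  have := h _ h1 _ h2
  rwa [sub_add_sub_cancel] at this

theorem Supp.add {S : Set (I → ℤ)} {X Y : Matrix ι ι ℚ_[p]} (hX : D.Supp S X)
    (hY : D.Supp S Y) : D.Supp S (X + Y) := by
  intro i j hij
  by_cases h : X i j = 0
  · apply hY i j
    intro h'
    apply hij
    rw [Matrix.add_apply, h, h', add_zero]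
  · exact hX i j h

theorem Supp.one_sub {S : Set (I → ℤ)} (hS : ∀ a ∈ S, ∀ b ∈ S, a + b ∈ S) {X Y : Matrix ι ι ℚ_[p]}
    (hX : D.Supp S (X - 1)) (hY : D.Supp S (Y - 1)) : D.Supp S (X * Y - 1) := by
  have : X * Y - 1 = (X - 1) * (Y - 1) + ((X - 1) + (Y - 1)) := by noncomm_ring
  rw [this]
  exact Supp.add D (Supp.mul D hX hY hS) (Supp.add D hX hY)

/-- The matrices `g` with `g - 1` supported in `S`. -/
def US (S : Set (I → ℤ)) (hS : Conic S) : Subgroup (GLm p ι) where
  carrier := {g | D.Supp S ((g : Matrix ι ι ℚ_[p]) - 1) ∧ D.Supp S (((g⁻¹ : GLm p ι) : Matrix ι ι ℚ_[p]) - 1)}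
  mul_mem' := by
    rintro g h ⟨hg, hg'⟩ ⟨hh, hh'⟩
    refine ⟨?_, ?_⟩
    · rw [Units.val_mul]; exact Supp.one_sub D hS.add hg hh
    · rw [_root_.mul_inv_rev, Units.val_mul]; exact Supp.one_sub D hS.add hh' hg'
  one_mem' := by
    refine ⟨?_, ?_⟩
    · intro i j h; simp at h
    · intro i j h; simp at h
  inv_mem' := by
    rintro g ⟨hg, hg'⟩
    exact ⟨hg', by rw [inv_inv]; exact hg⟩

theorem pos_conic : Conic {μ | D.Pos μ} where
  add := by
    rintro _ ⟨c, hc, hc0, rfl⟩ _ ⟨d, hd, hd0, rfl⟩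
    refine ⟨c + d, fun k => add_nonneg (hc k) (hd k), ?_, (D.rt_add c d).symm⟩
    intro h
    apply hc0
    funext k
    have h1 := congrFun h k
    have h2 := hc k
    have h3 := hd k
    simp only [Pi.add_apply, Pi.zero_apply] at h1 ⊢
    omega
  zero := by
    rintro ⟨c, hc, hc0, h⟩
    exact hc0 (D.rt_inj h.symm)

theorem conic_neg {S : Set (I → ℤ)} (hS : Conic S) : Conic {μ | -μ ∈ S} where
  add := by
    intro a ha b hb
    show -(a + b) ∈ S
    rw [neg_add]
    exact hS.add _ ha _ hb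
  zero := by
    show ¬ (-(0 : I → ℤ) ∈ S)
    rw [neg_zero]; exact hS.zero

theorem posOff_conic (k : I) : Conic {μ | D.PosOff k μ} where
  add := by
    rintro _ ⟨c, hc, ⟨l, hl, hc0⟩, rfl⟩ _ ⟨d, hd, -, rfl⟩
    refine ⟨c + d, fun k hk => add_nonneg (hc k hk) (hd k hk), ⟨l, hl, ?_⟩, (D.rt_add c d).symm⟩
    have h2 := hc l hl
    have h3 := hd l hl
    simp only [Pi.add_apply]
    omega
  zero := by
    rintro ⟨c, hc, ⟨l, -, hl⟩, h⟩
    exact hl (congrFun (D.rt_inj h.symm) l)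

/-- Upper unipotent matrices. -/
def UP : Subgroup (GLm p ι) := D.US {μ | D.Pos μ} D.pos_conic

/-- Lower unipotent matrices. -/
def UM : Subgroup (GLm p ι) := D.US {μ | -μ ∈ {μ | D.Pos μ}} (conic_neg D.pos_conic)

/-- Matrices in the unipotent radical of the parabolic of `k`. -/
def UPk (k : I) : Subgroup (GLm p ι) := D.US {μ | D.PosOff k μ} (D.posOff_conic k)

/-- Matrices in the unipotent radical of the opposite parabolic of `k`. -/
def UMk (k : I) : Subgroup (GLm p ι) :=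
  D.US {μ | -μ ∈ {μ | D.PosOff k μ}} (conic_neg (D.posOff_conic k))

/-- Block diagonal matrices (for the weight spaces). -/
def Diag : Subgroup (GLm p ι) where
  carrier := {g | D.Supp {0} (g : Matrix ι ι ℚ_[p]) ∧ D.Supp {0} ((g⁻¹ : GLm p ι) : Matrix ι ι ℚ_[p])}
  mul_mem' := by
    rintro g h ⟨hg, hg'⟩ ⟨hh, hh'⟩
    refine ⟨?_, ?_⟩
    · rw [Units.val_mul]
      exact Supp.mul D hg hh (by rintro a rfl b rfl; simp)
    · rw [_root_.mul_inv_rev, Units.val_mul]
      exact Supp.mul D hh' hg' (by rintro a rfl b rfl; simp)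
  one_mem' := by
    have : D.Supp {0} (1 : Matrix ι ι ℚ_[p]) := by
      intro i j h
      rw [Matrix.one_apply] at h
      have : i = j := by by_contra hne; simp [hne] at h
      rw [this]; simp
    exact ⟨this, by rw [inv_one]; exact this⟩
  inv_mem' := by
    rintro g ⟨hg, hg'⟩
    exact ⟨hg', by rw [inv_inv]; exact hg⟩

/-- `x_k(t) = exp(t E_k)`. -/
def x (k : I) (t : ℚ_[p]) : GLm p ι := exU (t • D.E k)

/-- `y_k(t) = exp(t F_k)`. -/
def y (k : I) (t : ℚ_[p]) : GLm p ι := exU (t • D.F k)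

/-- The torus element with parameters `t_k` (the product of the `α_k^∨(t_k)`): it acts on the weight
space of `μ` by `∏ t_k ^ μ_k`. -/
def h : (I → ℚ_[p]ˣ) →* GLm p ι where
  toFun t := ⟨Matrix.diagonal (fun i => ((∏ k, t k ^ D.wt i k : ℚ_[p]ˣ) : ℚ_[p])),
    Matrix.diagonal (fun i => (((∏ k, t k ^ D.wt i k)⁻¹ : ℚ_[p]ˣ) : ℚ_[p])), by
      rw [Matrix.diagonal_mul_diagonal, ← Matrix.diagonal_one]
      congr 1; funext i; rw [← Units.val_mul, mul_inv_cancel, Units.val_one], by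
      rw [Matrix.diagonal_mul_diagonal, ← Matrix.diagonal_one]
      congr 1; funext i; rw [← Units.val_mul, inv_mul_cancel, Units.val_one]⟩
  map_one' := by
    apply Units.ext
    show Matrix.diagonal _ = (1 : Matrix ι ι ℚ_[p])
    rw [← Matrix.diagonal_one]
    congr 1; funext i; simp
  map_mul' s t := by
    apply Units.ext
    show Matrix.diagonal _ = Matrix.diagonal _ * Matrix.diagonal _
    rw [Matrix.diagonal_mul_diagonal]
    congr 1; funext i
    rw [← Units.val_mul, ← Finset.prod_mul_distrib]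
    congr 1
    refine Finset.prod_congr rfl fun k _ => ?_
    rw [Pi.mul_apply, mul_zpow]

/-- The value of the cocharacter `∑ c_k α_k^∨` at `a`. -/
def hc (c : I → ℤ) (a : ℚ_[p]ˣ) : GLm p ι := D.h (fun k => a ^ c k)

/-- The coroot `α_k^∨(a)`. -/
def hk (k : I) (a : ℚ_[p]ˣ) : GLm p ι := D.hc (Pi.single k 1) a

/-- The representative of the simple reflection. -/
def n (k : I) : GLm p ι := D.x k 1 * D.y k (-1) * D.x k 1

/-- `n_k(t)`. -/
def nt (k : I) (t : ℚ_[p]ˣ) : GLm p ι := D.x k t * D.y k (-(((t⁻¹ : ℚ_[p]ˣ)) : ℚ_[p])) * D.x k t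

/-- The group generated by the `x_k(t)`, `y_k(t)`. -/
def G : Subgroup (GLm p ι) := Subgroup.closure {g | ∃ k t, g = D.x k t ∨ g = D.y k t}

/-- The group generated by `x_k(t)`, `y_k(t)` for one `k`. -/
def Hk (k : I) : Subgroup (GLm p ι) := Subgroup.closure {g | ∃ t, g = D.x k t ∨ g = D.y k t}

/-- The torus. -/
def T : Subgroup (GLm p ι) := D.h.range

/-- The upper unipotent group. -/
def N : Subgroup (GLm p ι) := (Subgroup.closure {g | ∃ k t, g = D.x k t}).topologicalClosure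

/-- The lower unipotent group. -/
def Nb : Subgroup (GLm p ι) := (Subgroup.closure {g | ∃ k t, g = D.y k t}).topologicalClosure

/-- The Borel subgroup. -/
def B : Subgroup (GLm p ι) := D.T ⊔ D.N

/-- The group generated by the torus and the representatives of the simple reflections. -/
def NN : Subgroup (GLm p ι) := Subgroup.closure (D.T ∪ Set.range D.n)

/-- The simple reflection on weights. -/
def s (k : I) : (I → ℤ) ≃ₗ[ℤ] (I → ℤ) where
  toFun μ := μ - μ k • D.A k
  invFun μ := μ - μ k • D.A k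
  left_inv μ := by
    funext l
    simp only [Pi.sub_apply, Pi.smul_apply, smul_eq_mul, D.A_diag]
    ring
  right_inv μ := by
    funext l
    simp only [Pi.sub_apply, Pi.smul_apply, smul_eq_mul, D.A_diag]
    ring
  map_add' μ ν := by
    funext l
    simp only [Pi.sub_apply, Pi.add_apply, Pi.smul_apply, smul_eq_mul]
    ring
  map_smul' a μ := by
    funext l
    simp only [Pi.sub_apply, Pi.smul_apply, smul_eq_mul, RingHom.id_apply]
    ring

theorem s_apply (k : I) (μ : I → ℤ) : D.s k μ = μ - μ k • D.A k := rfl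

/-- The Weyl group, acting on the weights. -/
def W : Subgroup ((I → ℤ) ≃ₗ[ℤ] (I → ℤ)) := Subgroup.closure (Set.range D.s)

/-- `g` maps the weight space of `μ` to that of `w μ`. -/
def Rep (g : GLm p ι) (w : (I → ℤ) ≃ₗ[ℤ] (I → ℤ)) : Prop :=
  ∀ i j, (g : Matrix ι ι ℚ_[p]) i j ≠ 0 → D.wt i = w (D.wt j)

/-- The divided powers of the `E_k`, `F_k` are integral. -/
structure Integral : Prop where
  E_int : ∀ k (m : ℕ) i j, ‖(((m.factorial : ℚ_[p])⁻¹ • D.E k ^ m : Matrix ι ι ℚ_[p]) i j)‖ ≤ 1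
  F_int : ∀ k (m : ℕ) i j, ‖(((m.factorial : ℚ_[p])⁻¹ • D.F k ^ m : Matrix ι ι ℚ_[p]) i j)‖ ≤ 1

end ChevData

theorem pw_pos (p : ℕ) [Fact p.Prime] (m : ℤ) : 0 < (p : ℝ) ^ m := by
  have : (0 : ℝ) < p := by exact_mod_cast (Fact.out : p.Prime).pos
  positivity

theorem pw_le_one (p : ℕ) [Fact p.Prime] (m : ℕ) : (p : ℝ) ^ (-(m : ℤ)) ≤ 1 := by
  have h1 : (1 : ℝ) ≤ p := by exact_mod_cast (Fact.out : p.Prime).one_lt.le
  exact zpow_le_one_of_nonpos₀ h1 (by omega)

theorem sub_one_small {m : ℕ} {X Y : Matrix ι ι ℚ_[p]}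
    (hX : ∀ i j, ‖(X - 1) i j‖ ≤ (p : ℝ) ^ (-(m : ℤ)))
    (hY : ∀ i j, ‖(Y - 1) i j‖ ≤ (p : ℝ) ^ (-(m : ℤ))) :
    ∀ i j, ‖(X * Y - 1) i j‖ ≤ (p : ℝ) ^ (-(m : ℤ)) := by
  intro i j
  have h : X * Y - 1 = (X - 1) * (Y - 1) + ((X - 1) + (Y - 1)) := by noncomm_ring
  rw [h, Matrix.add_apply, Matrix.add_apply]
  refine (IsUltrametricDist.norm_add_le_max _ _).trans (max_le ?_
    ((IsUltrametricDist.norm_add_le_max _ _).trans (max_le (hX i j) (hY i j))))
  rw [Matrix.mul_apply]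
  refine IsUltrametricDist.norm_sum_le_of_forall_le_of_nonneg (pw_pos p _).le fun k _ => ?_
  rw [norm_mul]
  calc ‖(X - 1) i k‖ * ‖(Y - 1) k j‖ ≤ (p : ℝ) ^ (-(m : ℤ)) * 1 :=
        mul_le_mul (hX i k) ((hY k j).trans (pw_le_one p m)) (norm_nonneg _) (pw_pos p _).le
    _ = _ := mul_one _

/-- The congruence subgroups of `GL(Z_p)`: `m = 0` gives `GL(Z_p)`. -/
def Cg (p : ℕ) [Fact p.Prime] (ι : Type) [Fintype ι] [DecidableEq ι] (m : ℕ) :
    Subgroup (GLm p ι) where
  carrier := {g | (∀ i j, ‖((g : Matrix ι ι ℚ_[p]) - 1) i j‖ ≤ (p : ℝ) ^ (-(m : ℤ))) ∧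
    ∀ i j, ‖(((g⁻¹ : GLm p ι) : Matrix ι ι ℚ_[p]) - 1) i j‖ ≤ (p : ℝ) ^ (-(m : ℤ))}
  mul_mem' := by
    rintro g h ⟨hg, hg'⟩ ⟨hh, hh'⟩
    refine ⟨?_, ?_⟩
    · rw [Units.val_mul]; exact sub_one_small hg hh
    · rw [_root_.mul_inv_rev, Units.val_mul]; exact sub_one_small hh' hg'
  one_mem' := by
    have h : ∀ i j : ι, ‖((1 : Matrix ι ι ℚ_[p]) - 1) i j‖ ≤ (p : ℝ) ^ (-(m : ℤ)) := by
      intro i j
      simpa using (pw_pos p _).le
    exact ⟨h, by rw [inv_one]; exact h⟩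
  inv_mem' := by
    rintro g ⟨hg, hg'⟩
    exact ⟨hg', by rw [inv_inv]; exact hg⟩

end Pool.Agent.Chev
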