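import Mathlib
import Pool.Agent.Helper911_Chev.Defs

/-! Chevalley groups: further definitions. -/

set_option autoImplicit false
set_option linter.unusedSectionVars false

noncomputable section

open Matrix Topology

namespace Pool.Agent.Chev

open ChevData

variable {p : ℕ} [Fact p.Prime] {I ι : Type} [Fintype I] [DecidableEq I] [Fintype ι]
  [DecidableEq ι] (D : ChevData p I ι)

/-- Conjugation of a matrix by an invertible matrix. -/
def cj (g : GLm p ι) (X : Matrix ι ι ℚ_[p]) : Matrix ι ι ℚ_[p] :=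
  (g : Matrix ι ι ℚ_[p]) * X * ((g⁻¹ : GLm p ι) : Matrix ι ι ℚ_[p])

theorem cj_mul (g h : GLm p ι) (X : Matrix ι ι ℚ_[p]) : cj (g * h) X = cj g (cj h X) := by
  unfold cj
  rw [_root_.mul_inv_rev, Units.val_mul, Units.val_mul]
  noncomm_ring

theorem cj_one (X : Matrix ι ι ℚ_[p]) : cj (1 : GLm p ι) X = X := by
  unfold cj; simp

theorem cj_add (g : GLm p ι) (X Y : Matrix ι ι ℚ_[p]) : cj g (X + Y) = cj g X + cj g Y := by
  unfold cj; noncomm_ring

theorem cj_smul (g : GLm p ι) (a : ℚ_[p]) (X : Matrix ι ι ℚ_[p]) : cj g (a • X) = a • cj g X := by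
  unfold cj; simp

/-- The matrix of the coroot `α_l^∨` in the Lie algebra. -/
def Hm (l : I) : Matrix ι ι ℚ_[p] := Matrix.diagonal (fun i => (D.wt i l : ℚ_[p]))

/-- The value of the simple root `α_k` at the torus element with parameters `τ`. -/
def al (k : I) (τ : I → ℚ_[p]ˣ) : ℚ_[p]ˣ := ∏ l, τ l ^ D.A k l

/-- The action of a linear automorphism of the weight lattice on the torus. -/
def act (w : (I → ℤ) ≃ₗ[ℤ] (I → ℤ)) (τ : I → ℚ_[p]ˣ) : I → ℚ_[p]ˣ :=
  fun l => ∏ m, τ m ^ (w⁻¹ (Pi.single l 1)) m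

/-- The Lie algebra generated by the `E k`, `F k` (the smallest subspace containing them and closed
under commutators). -/
def Lg : Submodule ℚ_[p] (Matrix ι ι ℚ_[p]) :=
  sInf {L | (∀ k, D.E k ∈ L) ∧ (∀ k, D.F k ∈ L) ∧ ∀ X ∈ L, ∀ Y ∈ L, X * Y - Y * X ∈ L}

end Pool.Agent.Chev
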