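import Mathlib
import Pool.Agent.Helper911_Chev.Defs2

/-! Chevalley groups: further definitions. -/

set_option autoImplicit false
set_option linter.unusedSectionVars false

noncomputable section

open Matrix Topology

namespace Pool.Agent.Chev

open ChevData

variable {p : ℕ} [Fact p.Prime] {I ι : Type} [Fintype I] [DecidableEq I] [Fintype ι]
  [DecidableEq ι] (D : ChevData p I ι)

/-- Product of the representatives of the simple reflections of a word. -/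
def nL (L : List I) : GLm p ι := (L.map D.n).prod

/-- Product of the simple reflections of a word. -/
def sL (L : List I) : (I → ℤ) ≃ₗ[ℤ] (I → ℤ) := (L.map D.s).prod

/-- A cocharacter that is positive on the simple roots. -/
def lam : I → ℤ := D.A.adjugate.mulVec (fun _ => D.A.det)

/-- The height of a weight. -/
def ht (μ : I → ℤ) : ℤ := ∑ k, μ k * lam D k

/-- `X` is upper triangular for the order `ord`. -/
def IsUp (ord : ι → ℕ) (X : Matrix ι ι ℚ_[p]) : Prop := ∀ i j, X i j ≠ 0 → ord i ≤ ord j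

/-- `X` is lower unitriangular for the order `ord`. -/
def IsLo (ord : ι → ℕ) (X : Matrix ι ι ℚ_[p]) : Prop := ∀ i j, (X - 1) i j ≠ 0 → ord j < ord i

/-- An order compatible with the heights. -/
structure GoodOrd (ord : ι → ℕ) : Prop where
  inj : Function.Injective ord
  mono : ∀ i j, ht D (D.wt j) < ht D (D.wt i) → ord i < ord j

/-- The slope of the cell `w` in direction `l`. -/
def Lf (ν : I → ℝ) (w : (I → ℤ) ≃ₗ[ℤ] (I → ℤ)) (l : I → ℤ) : ℝ :=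
  ∑ m, ν m * ((∑ j, (w⁻¹ (Pi.single m 1)) j * l j : ℤ) : ℝ)

/-- `r - 1` is supported in the positive rational multiples of `-ν`, and `-ν` occurs. -/
def Ray (r : GLm p ι) (ν : I → ℤ) : Prop :=
  (∃ i j, ((r : Matrix ι ι ℚ_[p]) - 1) i j ≠ 0 ∧ D.wt j - D.wt i = ν) ∧
    ∀ i j, ((r : Matrix ι ι ℚ_[p]) - 1) i j ≠ 0 →
      ∃ a b : ℕ, 0 < a ∧ 0 < b ∧ a • (D.wt j - D.wt i) = b • ν

/-- `p` as a unit. -/
def pu (p : ℕ) [Fact p.Prime] : ℚ_[p]ˣ :=
  Units.mk0 (p : ℚ_[p]) (by exact_mod_cast (Fact.out : p.Prime).ne_zero)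

/-- `e H e⁻¹`. -/
def cs (e : GLm p ι) (H : Subgroup (GLm p ι)) : Subgroup (GLm p ι) where
  carrier := {g | e⁻¹ * g * e ∈ H}
  mul_mem' := by
    intro a b ha hb
    show e⁻¹ * (a * b) * e ∈ H
    have : e⁻¹ * (a * b) * e = (e⁻¹ * a * e) * (e⁻¹ * b * e) := by group
    rw [this]; exact mul_mem ha hb
  one_mem' := by
    show e⁻¹ * 1 * e ∈ H
    simp
  inv_mem' := by
    intro a ha
    show e⁻¹ * a⁻¹ * e ∈ H
    have : e⁻¹ * a⁻¹ * e = (e⁻¹ * a * e)⁻¹ := by group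
    rw [this]; exact inv_mem ha

/-- `Nb ∩ e N e⁻¹`. -/
def Pm (e : GLm p ι) : Subgroup (GLm p ι) := D.Nb ⊓ cs e D.N

/-- `Nb ∩ e Nb e⁻¹`. -/
def Qm (e : GLm p ι) : Subgroup (GLm p ι) := D.Nb ⊓ cs e D.Nb

/-- `N ∩ e Nb e⁻¹`. -/
def Sp (e : GLm p ι) : Subgroup (GLm p ι) := D.N ⊓ cs e D.Nb

/-- Test sets of the tie argument. -/
structure GoodSet (e : GLm p ι) (Xs : Subgroup (GLm p ι)) (R : Set (GLm p ι)) : Prop where
  sub : ∀ r ∈ R, r ∈ Pm D e
  one : (1 : GLm p ι) ∉ R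
  test : ∀ r ∈ R, ∀ s ∈ Sp D e, ∀ b ∈ D.B, ∀ a ∈ Pm D e, ∀ q ∈ Qm D e, r * s = b * a * q →
    q = 1 ∧ a ∈ R ∧ b ∈ Xs

/-- The union of all the test sets. -/
def Rmax (e : GLm p ι) (Xs : Subgroup (GLm p ι)) : Set (GLm p ι) :=
  {r | ∃ R, GoodSet D e Xs R ∧ r ∈ R}

/-- Conditions on the subgroup `Xs` of `B`. -/
structure XsOK (Xs : Subgroup (GLm p ι)) : Prop where
  N_le : D.N ≤ Xs
  le_B : Xs ≤ D.B
  closed : IsClosed (Xs : Set (GLm p ι))
  conj : ∀ τ : I → ℚ_[p]ˣ, ∀ b ∈ Xs, D.h τ * b * (D.h τ)⁻¹ ∈ Xs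

/-- The torus part of an element of `B`. -/
def tauB (g : GLm p ι) : I → ℚ_[p]ˣ := by
  classical
  exact if h : ∃ τ : I → ℚ_[p]ˣ, ∃ n ∈ D.N, g = D.h τ * n then h.choose else 1

end Pool.Agent.Chev
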