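import Mathlib
import Pool.Agent.Helper911_Chev.Defs3

set_option autoImplicit false
set_option linter.unusedSectionVars false
set_option maxHeartbeats 1000000

noncomputable section

open Matrix Topology

namespace Pool.Agent.Chev

open ChevData

variable {p : ℕ} [Fact p.Prime] {I ι : Type} [Fintype I] [DecidableEq I] [Fintype ι]
  [DecidableEq ι] (D : ChevData p I ι)

/-! ======= TARGETS ======= -/

/-- TARGET.
Proof. If `(X ^ m) i j ≠ 0` there is a chain `i = i_0, i_1, ..., i_m = j` with `X i_t i_{t+1} ≠ 0`, so `wt i_t - wt i_{t+1} ∈ S`. For `s < t` the difference `wt i_s - wt i_t` is a sum of elements of `S`, hence in `S` (`Conic.add`), hence nonzero (`Conic.zero`), so the `i_t` are distinct and `m < card ι`. Hence `X ^ card ι = 0`. -/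
theorem nil_of_supp (S : Set (I → ℤ)) (hS : Conic S) (X : Matrix ι ι ℚ_[p])
    (hX : D.Supp S X) : IsNilpotent X := by
  have key : ∀ (m : ℕ) (i j : ι), (X ^ m) i j ≠ 0 →
      ∃ C : Finset ι, C.card = m ∧ ∀ c ∈ C, c = i ∨ D.wt i - D.wt c ∈ S := by
    intro m
    induction m with
    | zero => intro i j _; exact ⟨∅, rfl, by simp⟩
    | succ m ih =>
      intro i j hij
      rw [pow_succ', Matrix.mul_apply] at hij
      obtain ⟨k, -, hk⟩ := Finset.exists_ne_zero_of_sum_ne_zero hij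
      have h1 := hX i k (left_ne_zero_of_mul hk)
      obtain ⟨C, hC, hC'⟩ := ih k j (right_ne_zero_of_mul hk)
      have h2 : ∀ c ∈ C, D.wt i - D.wt c ∈ S := by
        intro c hc
        rcases hC' c hc with rfl | h
        · exact h1
        · have := hS.add _ h1 _ h
          rwa [sub_add_sub_cancel] at this
      have h3 : i ∉ C := by
        intro hi
        have := h2 i hi
        rw [sub_self] at this
        exact hS.zero this
      refine ⟨insert i C, by rw [Finset.card_insert_of_notMem h3, hC], ?_⟩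
      intro c hc
      rcases Finset.mem_insert.1 hc with rfl | hc
      · exact Or.inl rfl
      · exact Or.inr (h2 c hc)
  refine ⟨Fintype.card ι + 1, ?_⟩
  ext i j
  by_contra hne
  obtain ⟨C, hC, -⟩ := key _ i j hne
  have := Finset.card_le_univ C
  omega

/-- TARGET.
Use `nil_of_supp` with `pos_conic`: `wt i - wt j = A k = rt (Pi.single k 1)`. -/
theorem E_nil (k : I) : IsNilpotent (D.E k) := by
  refine nil_of_supp D _ D.pos_conic _ ?_
  intro i j hij
  refine ⟨Pi.single k 1, ?_, ?_, ?_⟩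
  · intro l
    by_cases h : l = k
    · subst h; simp
    · simp [Pi.single_eq_of_ne h]
  · intro h
    have := congrFun h k
    simp at this
  · rw [D.rt_single, D.E_wt k i j hij]
    abel

/-- TARGET.
Use `E_nil` for `D.dual`, or `nil_of_supp` with `conic_neg pos_conic`. -/
theorem F_nil (k : I) : IsNilpotent (D.F k) := E_nil D.dual k

/-- TARGET.
See the hints above. -/
theorem tE_nil (k : I) (t : ℚ_[p]) : IsNilpotent (t • D.E k) := (E_nil D k).smul t

/-- TARGET.
See the hints above. -/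
theorem tF_nil (k : I) (t : ℚ_[p]) : IsNilpotent (t • D.F k) := (F_nil D k).smul t

/-- TARGET.
See the hints above. -/
theorem exU_val {X : Matrix ι ι ℚ_[p]} (h : IsNilpotent X) :
    ((exU X : GLm p ι) : Matrix ι ι ℚ_[p]) = IsNilpotent.exp X := by
  unfold exU
  rw [dif_pos h]

/-- TARGET.
`IsNilpotent.exp_eq_sum` (the scalars there are rational numbers). -/
theorem exU_sum {X : Matrix ι ι ℚ_[p]} {M : ℕ} (h : X ^ M = 0) :
    ((exU X : GLm p ι) : Matrix ι ι ℚ_[p])
      = ∑ m ∈ Finset.range M, ((m.factorial : ℚ_[p])⁻¹) • X ^ m := by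
  rw [exU_val ⟨M, h⟩, IsNilpotent.exp_eq_sum h]
  refine Finset.sum_congr rfl fun m _ => ?_
  ext i j
  rw [Matrix.smul_apply, Matrix.smul_apply, Rat.smul_def, smul_eq_mul]
  push_cast
  rfl

/-- TARGET.
See the hints above. -/
theorem exU_zero : (exU (0 : Matrix ι ι ℚ_[p]) : GLm p ι) = 1 := by
  apply Units.ext
  rw [exU_val IsNilpotent.zero, IsNilpotent.exp_zero, Units.val_one]

/-- TARGET.
`IsNilpotent.exp_add_of_commute`. -/
theorem exU_add {X Y : Matrix ι ι ℚ_[p]} (hX : IsNilpotent X) (hY : IsNilpotent Y)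
    (h : Commute X Y) : (exU (X + Y) : GLm p ι) = exU X * exU Y := by
  apply Units.ext
  rw [Units.val_mul, exU_val hX, exU_val hY, exU_val (h.isNilpotent_add hX hY),
    IsNilpotent.exp_add_of_commute h hX hY]

/-- TARGET.
See the hints above. -/
theorem exU_neg {X : Matrix ι ι ℚ_[p]} (hX : IsNilpotent X) :
    (exU (-X) : GLm p ι) = (exU X)⁻¹ := by
  rw [eq_inv_iff_mul_eq_one, ← exU_add hX.neg hX (Commute.neg_left (Commute.refl X)),
    neg_add_cancel, exU_zero]

/-- TARGET.
See the hints above. -/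
theorem exU_conj (g : GLm p ι) {X : Matrix ι ι ℚ_[p]} (hX : IsNilpotent X) :
    g * exU X * g⁻¹ = exU ((g : Matrix ι ι ℚ_[p]) * X * ((g⁻¹ : GLm p ι) : Matrix ι ι ℚ_[p])) := by
  obtain ⟨M, hM⟩ := hX
  have hpow : ∀ m : ℕ, ((g : Matrix ι ι ℚ_[p]) * X * ((g⁻¹ : GLm p ι) : Matrix ι ι ℚ_[p])) ^ m
      = (g : Matrix ι ι ℚ_[p]) * X ^ m * ((g⁻¹ : GLm p ι) : Matrix ι ι ℚ_[p]) := by
    intro m
    induction m with
    | zero => rw [pow_zero, pow_zero, mul_one, Units.mul_inv]
    | succ m ih =>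
      rw [pow_succ, ih, pow_succ]
      have h1 : ((g⁻¹ : GLm p ι) : Matrix ι ι ℚ_[p]) * (g : Matrix ι ι ℚ_[p]) = 1 :=
        Units.inv_mul g
      calc (g : Matrix ι ι ℚ_[p]) * X ^ m * ((g⁻¹ : GLm p ι) : Matrix ι ι ℚ_[p]) *
            ((g : Matrix ι ι ℚ_[p]) * X * ((g⁻¹ : GLm p ι) : Matrix ι ι ℚ_[p]))
          = (g : Matrix ι ι ℚ_[p]) * X ^ m * (((g⁻¹ : GLm p ι) : Matrix ι ι ℚ_[p]) *
            (g : Matrix ι ι ℚ_[p])) * X * ((g⁻¹ : GLm p ι) : Matrix ι ι ℚ_[p]) := by
              simp only [mul_assoc]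
        _ = _ := by rw [h1, mul_one]; simp only [mul_assoc]
  apply Units.ext
  have hM' : ((g : Matrix ι ι ℚ_[p]) * X * ((g⁻¹ : GLm p ι) : Matrix ι ι ℚ_[p])) ^ M = 0 := by
    rw [hpow, hM, mul_zero, zero_mul]
  rw [Units.val_mul, Units.val_mul, exU_sum hM, exU_sum hM', Finset.mul_sum, Finset.sum_mul]
  refine Finset.sum_congr rfl fun m _ => ?_
  rw [hpow, Matrix.mul_smul, Matrix.smul_mul]

/-- TARGET.
See the hints above. -/
theorem exU_commute {X Y : Matrix ι ι ℚ_[p]} (hX : IsNilpotent X) (hY : IsNilpotent Y)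
    (h : Commute X Y) : (exU X : GLm p ι) * exU Y = exU Y * exU X := by
  rw [← exU_add hX hY h, ← exU_add hY hX h.symm, add_comm]

end Pool.Agent.Chev
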