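import Mathlib

/-! The continuous principal series of a split, semisimple, simply connected group over Q_p:
definitions used in the statements.

The group is given as a Chevalley group: `L` is a split semisimple Lie algebra over `Q_p` with
generators `b` (`LieAlgebra.Basis` of Mathlib: a Cartan matrix, simple coroots `h k`, generators
`e k`, `f k`), `V` a representation of `L` on the space `Q_p^ι`, written in a basis of weight
vectors, whose weights generate the weight lattice, and `G` is the subgroup of `GL(Q_p^ι)` generated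
by the one-parameter groups `exp (t e_k)`, `exp (t f_k)`. -/

set_option autoImplicit false

noncomputable section

open Matrix Topology

namespace Pool.Agent.SplitGroup

/-- A representation on `Q_p^ι` of a split semisimple Lie algebra `L` with generators `b`, in a
basis of weight vectors; `wt i k` is the value of the weight of the `i`-th basis vector on the
simple coroot `h k`. The weights generate the weight lattice, which is the lattice of all functions
`I → ℤ` on the set of the simple coroots. -/
structure WeightRep {p : ℕ} [Fact p.Prime] {I : Type} [Fintype I] {L : Type} [LieRing L]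
    [LieAlgebra ℚ_[p] L] {H : LieSubalgebra ℚ_[p] L} (b : LieAlgebra.Basis I H) (ι : Type)
    [Fintype ι] [DecidableEq ι] where
  /-- the representation -/
  ρ : L →ₗ[ℚ_[p]] Matrix ι ι ℚ_[p]
  lie : ∀ x y, ρ ⁅x, y⁆ = ρ x * ρ y - ρ y * ρ x
  /-- the weights -/
  wt : ι → I → ℤ
  h_eq : ∀ k, ρ (b.h k) = Matrix.diagonal fun i => (wt i k : ℚ_[p])
  span : AddSubgroup.closure (Set.range wt) = ⊤

variable {p : ℕ} [Fact p.Prime] {I : Type} [Fintype I] {L : Type} [LieRing L]
  [LieAlgebra ℚ_[p] L] {H : LieSubalgebra ℚ_[p] L} {b : LieAlgebra.Basis I H} {ι : Type}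
  [Fintype ι] [DecidableEq ι]

/-- The group `G`, generated by the `exp (t e_k)` and `exp (t f_k)`, `t ∈ Q_p`. -/
def Grp (V : WeightRep b ι) : Subgroup (Matrix ι ι ℚ_[p])ˣ :=
  Subgroup.closure {g | ∃ (k : I) (t : ℚ_[p]),
    (g : Matrix ι ι ℚ_[p]) = IsNilpotent.exp (t • V.ρ (b.e k)) ∨
    (g : Matrix ι ι ℚ_[p]) = IsNilpotent.exp (t • V.ρ (b.f k))}

/-- `g` is the element `∏ α_k^∨ (t_k)` of the torus `Z`; it acts on the weight space of `μ` by
`∏ t_k ^ μ_k`. -/
def IsTorus (V : WeightRep b ι) (t : I → ℚ_[p]ˣ) (g : (Matrix ι ι ℚ_[p])ˣ) : Prop :=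
  (g : Matrix ι ι ℚ_[p]) = Matrix.diagonal fun i => ∏ k, (t k : ℚ_[p]) ^ V.wt i k

/-- `μ` is a nonzero combination of the simple roots `α_k` (the rows of the Cartan matrix) with
nonnegative coefficients. -/
def PosWeight (A : Matrix I I ℤ) (μ : I → ℤ) : Prop :=
  ∃ c : I → ℤ, (∀ k, 0 ≤ c k) ∧ c ≠ 0 ∧ μ = ∑ k, c k • A k

/-- `g - 1` only has entries of positive weight: for elements of `G` this describes the unipotent
radical of the Borel subgroup `B`. -/
def IsUnipotent (V : WeightRep b ι) (g : (Matrix ι ι ℚ_[p])ˣ) : Prop :=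
  ∀ i j, ((g : Matrix ι ι ℚ_[p]) - 1) i j ≠ 0 → PosWeight b.A (V.wt i - V.wt j)

variable {C : Type*} [NormedField C]

/-- `f` is a continuous function `G → C` with `f (z n g) = χ(z) f(g)` for `z` in the torus and `n`
in the unipotent radical. The torus is identified with `(Q_p^×)^I` by the simple coroots. -/
def IsSection (V : WeightRep b ι) (χ : (I → ℚ_[p]ˣ) →* Cˣ) (f : Grp V → C) : Prop :=
  Continuous f ∧ ∀ (t : I → ℚ_[p]ˣ) (z n g : Grp V), IsTorus V t z → IsUnipotent V n →
    f (z * n * g) = (χ t : Cˣ) * f g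

theorem IsSection.add {V : WeightRep b ι} {χ : (I → ℚ_[p]ˣ) →* Cˣ} {f g : Grp V → C}
    (hf : IsSection V χ f) (hg : IsSection V χ g) : IsSection V χ (f + g) :=
  ⟨hf.1.add hg.1, fun t z n x hz hn => by simp [hf.2 t z n x hz hn, hg.2 t z n x hz hn, mul_add]⟩

theorem IsSection.zero {V : WeightRep b ι} {χ : (I → ℚ_[p]ˣ) →* Cˣ} :
    IsSection V χ (0 : Grp V → C) :=
  ⟨continuous_const, fun t z n x hz hn => by simp⟩

theorem IsSection.smul {V : WeightRep b ι} {χ : (I → ℚ_[p]ˣ) →* Cˣ} (a : C) {f : Grp V → C}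
    (hf : IsSection V χ f) : IsSection V χ (a • f) :=
  ⟨hf.1.const_smul a, fun t z n x hz hn => by simp [hf.2 t z n x hz hn]; ring⟩

/-- The continuous principal series `(Ind_B^G χ)^cts`. -/
def PS (V : WeightRep b ι) (χ : (I → ℚ_[p]ˣ) →* Cˣ) : Submodule C (Grp V → C) where
  carrier := {f | IsSection V χ f}
  add_mem' := IsSection.add
  zero_mem' := IsSection.zero
  smul_mem' a _ h := IsSection.smul a h

/-- `U` is stable under right translations by `G`. -/
def IsStable (V : WeightRep b ι) (U : Submodule C (Grp V → C)) : Prop :=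
  ∀ f ∈ U, ∀ g : Grp V, (fun x => f (x * g)) ∈ U

/-- `f` is a limit of elements of `U`, uniformly on compact sets. On the principal series this is
the topology of the sup norm (over a compact subgroup `K` with `G = B K`). -/
def IsLimit (V : WeightRep b ι) (U : Submodule C (Grp V → C)) (f : Grp V → C) : Prop :=
  ∀ S : Set (Grp V), IsCompact S → ∀ ε : ℝ, 0 < ε → ∃ g ∈ U, ∀ x ∈ S, ‖f x - g x‖ ≤ ε

/-- `U` is a closed `G`-stable subspace of the principal series. -/
def IsSubrep (V : WeightRep b ι) (χ : (I → ℚ_[p]ˣ) →* Cˣ) (U : Submodule C (Grp V → C)) : Prop :=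
  U ≤ PS V χ ∧ IsStable V U ∧ ∀ f ∈ PS V χ, IsLimit V U f → f ∈ U

/-- The principal series is reducible: it has a closed `G`-stable subspace other than `0` and
itself. -/
def Reducible (V : WeightRep b ι) (χ : (I → ℚ_[p]ˣ) →* Cˣ) : Prop :=
  ∃ U : Submodule C (Grp V → C), IsSubrep V χ U ∧ U ≠ ⊥ ∧ U ≠ PS V χ

/-- Extension of scalars of a character along `C → C'`. -/
def baseChange (C' : Type*) [NormedField C'] [NormedAlgebra C C'] (χ : (I → ℚ_[p]ˣ) →* Cˣ) :
    (I → ℚ_[p]ˣ) →* C'ˣ :=
  (Units.map (algebraMap C C' : C →* C')).comp χ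

/-- The principal series is absolutely reducible: it becomes reducible after extending scalars to
some finite extension of `C`. -/
def AbsReducible {C : Type} [NormedField C] (V : WeightRep b ι) (χ : (I → ℚ_[p]ˣ) →* Cˣ) : Prop :=
  ∃ (C' : Type) (_ : NormedField C') (_ : NormedAlgebra C C'), FiniteDimensional C C' ∧
    Reducible V (baseChange C' χ)

/-- The pairs (root, coroot) of the root system with Cartan matrix `A`, `A k l = ⟨α_k, α_l^∨⟩`. A
root is given by its values on the simple coroots, a coroot by its coefficients with respect to the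
simple coroots. They are obtained from the simple ones by the simple reflections. -/
inductive RootPair [DecidableEq I] (A : Matrix I I ℤ) : (I → ℤ) → (I → ℤ) → Prop
  | simple (k : I) : RootPair A (A k) (Pi.single k 1)
  | refl (k : I) (α c : I → ℤ) : RootPair A α c →
      RootPair A (α - α k • A k) (c - (∑ l, A k l * c l) • Pi.single k 1)

/-- Positive roots. -/
def IsPosRoot [DecidableEq I] (A : Matrix I I ℤ) (α : I → ℤ) : Prop :=
  (∃ c, RootPair A α c) ∧ PosWeight A α

/-- `ρ` is the half-sum of the positive roots. -/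
def IsHalfSum [DecidableEq I] (A : Matrix I I ℤ) (ρ : I → ℤ) : Prop :=
  {α | IsPosRoot A α}.Finite ∧ 2 • ρ = ∑ᶠ (α : I → ℤ) (_ : IsPosRoot A α), α

/-- The value at `x` of the cocharacter with coefficients `c`, an element of the torus. -/
def cochar (c : I → ℤ) (x : ℚ_[p]ˣ) : I → ℚ_[p]ˣ := fun k => x ^ c k

/-- The value at `t` of the algebraic character `μ` of the torus. -/
def charVal (μ : I → ℤ) (t : I → ℚ_[p]ˣ) : ℚ_[p]ˣ := ∏ k, t k ^ μ k

end Pool.Agent.SplitGroup
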