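import Mathlib
import Pool.Agent.Helper911_Chev.Stmt
import Pool.Agent.Helper911_Chev.Defs3
import Pool.Agent.Helper911_Chev.CA1

/-! From representations of split semisimple Lie algebras to the matrix data. -/

set_option autoImplicit false
set_option linter.unusedSectionVars false
set_option maxHeartbeats 1000000

noncomputable section

open Matrix Topology

namespace Pool.Agent.SplitGroup

open Pool.Agent.Chev Pool.Agent.Chev.ChevData

variable {p : ℕ} [Fact p.Prime] {I : Type} [Fintype I] [DecidableEq I] {L : Type} [LieRing L]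
  [LieAlgebra ℚ_[p] L] {H : LieSubalgebra ℚ_[p] L} {b : LieAlgebra.Basis I H} {ι : Type}
  [Fintype ι] [DecidableEq ι]

theorem int_smul_L (n : ℤ) (x : L) : n • x = (n : ℚ_[p]) • x := (Int.cast_smul_eq_zsmul _ n x).symm

theorem rho_zsmul (V : WeightRep b ι) (n : ℤ) (x : L) :
    V.ρ (n • x) = (n : ℚ_[p]) • V.ρ x := by
  rw [int_smul_L (p := p), map_smul]

theorem b_diag (b : LieAlgebra.Basis I H) (k : I) : b.A k k = 2 := by
  have h1 : (b.A k k : ℤ) • b.e k = 2 • b.e k := by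
    rw [← b.lie_h_e k k]
    exact (b.sl2 k).lie_h_e_nsmul
  have h2 : ((b.A k k : ℚ_[p]) - 2) • b.e k = 0 := by
    rw [sub_smul, ← int_smul_L, h1, two_smul, two_smul]
    abel
  have h3 := (smul_eq_zero.1 h2).resolve_right (b.sl2 k).e_ne_zero
  have h4 : (b.A k k : ℚ_[p]) = ((2 : ℤ) : ℚ_[p]) := by
    push_cast
    linear_combination h3
  exact_mod_cast h4

theorem rep_E_wt (V : WeightRep b ι) (k : I) (i j : ι) (h : V.ρ (b.e k) i j ≠ 0) :
    V.wt i = V.wt j + b.A k := by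
  funext l
  have h1 : V.ρ ⁅b.h l, b.e k⁆ = (b.A k l : ℚ_[p]) • V.ρ (b.e k) := by
    rw [b.lie_h_e, rho_zsmul]
  rw [V.lie, V.h_eq] at h1
  have h2 := congrFun (congrFun h1 i) j
  rw [Matrix.sub_apply, Matrix.diagonal_mul, Matrix.mul_diagonal, Matrix.smul_apply,
    smul_eq_mul] at h2
  have h3 : ((V.wt i l : ℚ_[p]) - V.wt j l - b.A k l) * V.ρ (b.e k) i j = 0 := by
    linear_combination h2
  have h4 := (mul_eq_zero.1 h3).resolve_right h
  have h5 : ((V.wt i l : ℤ) : ℚ_[p]) = ((V.wt j l + b.A k l : ℤ) : ℚ_[p]) := by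
    push_cast
    linear_combination h4
  exact_mod_cast h5

theorem rep_F_wt (V : WeightRep b ι) (k : I) (i j : ι) (h : V.ρ (b.f k) i j ≠ 0) :
    V.wt i = V.wt j - b.A k := by
  funext l
  have h1 : V.ρ ⁅b.h l, b.f k⁆ = -((b.A k l : ℚ_[p]) • V.ρ (b.f k)) := by
    rw [b.lie_h_f, rho_zsmul]
    push_cast
    rw [neg_smul]
  rw [V.lie, V.h_eq] at h1
  have h2 := congrFun (congrFun h1 i) j
  rw [Matrix.sub_apply, Matrix.diagonal_mul, Matrix.mul_diagonal, Matrix.neg_apply,
    Matrix.smul_apply, smul_eq_mul] at h2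
  have h3 : ((V.wt i l : ℚ_[p]) - V.wt j l + b.A k l) * V.ρ (b.f k) i j = 0 := by
    linear_combination h2
  have h4 := (mul_eq_zero.1 h3).resolve_right h
  have h5 : ((V.wt i l : ℤ) : ℚ_[p]) = ((V.wt j l - b.A k l : ℤ) : ℚ_[p]) := by
    push_cast
    linear_combination h4
  exact_mod_cast h5

/-- The matrix data of a representation. -/
def toChev (V : WeightRep b ι) : ChevData p I ι where
  A := b.A
  wt := V.wt
  E := fun k => V.ρ (b.e k)
  F := fun k => V.ρ (b.f k)
  A_diag := b_diag b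
  A_det := Matrix.nondegenerate_iff_det_ne_zero.1 b.nondegen
  E_wt := rep_E_wt V
  F_wt := rep_F_wt V
  EF_same := by
    intro k
    rw [← V.lie, (b.sl2 k).lie_e_f, V.h_eq]
  EF_ne := by
    intro k l hkl
    have h1 : V.ρ ⁅b.e k, b.f l⁆ = 0 := by rw [b.lie_e_f_ne k l hkl, map_zero]
    rw [V.lie] at h1
    exact sub_eq_zero.1 h1
  span := V.span

theorem grp_eq (V : WeightRep b ι) : Grp V = (toChev V).G := by
  unfold Grp ChevData.G
  congr 1
  ext g
  constructor
  · rintro ⟨k, t, h | h⟩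
    · exact ⟨k, t, Or.inl (Units.ext (h.trans (exU_val (tE_nil (toChev V) k t)).symm))⟩
    · exact ⟨k, t, Or.inr (Units.ext (h.trans (exU_val (tF_nil (toChev V) k t)).symm))⟩
  · rintro ⟨k, t, h | h⟩
    · exact ⟨k, t, Or.inl (by rw [h]; exact exU_val (tE_nil (toChev V) k t))⟩
    · exact ⟨k, t, Or.inr (by rw [h]; exact exU_val (tF_nil (toChev V) k t))⟩

theorem posWeight_iff (V : WeightRep b ι) (μ : I → ℤ) :
    PosWeight b.A μ ↔ (toChev V).Pos μ := by
  constructor
  · rintro ⟨c, h1, h2, h3⟩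
    refine ⟨c, h1, h2, ?_⟩
    rw [h3]
    unfold ChevData.rt
    funext l
    rw [Matrix.vecMul, Finset.sum_apply]
    rfl
  · rintro ⟨c, h1, h2, h3⟩
    refine ⟨c, h1, h2, ?_⟩
    rw [h3]
    unfold ChevData.rt
    funext l
    rw [Matrix.vecMul, Finset.sum_apply]
    rfl

end Pool.Agent.SplitGroup
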