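import Mathlib
import Pool.Agent.Helper911_Chev.Defs3
import Pool.Agent.Helper911_Chev.CA1

set_option autoImplicit false
set_option linter.unusedSectionVars false
set_option maxHeartbeats 1000000

noncomputable section

open Matrix Topology

namespace Pool.Agent.Chev

open ChevData

variable {p : ℕ} [Fact p.Prime] {I ι : Type} [Fintype I] [DecidableEq I] [Fintype ι]
  [DecidableEq ι] (D : ChevData p I ι)

/-! ======= auxiliary lemmas ======= -/

theorem ca2_zero (S : Set (I → ℤ)) : D.Supp S 0 := by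
  intro i j h
  exact absurd rfl h

theorem ca2_smul {S : Set (I → ℤ)} {X : Matrix ι ι ℚ_[p]} (hX : D.Supp S X) (c : ℚ_[p]) :
    D.Supp S (c • X) := by
  intro i j h
  apply hX i j
  intro h0
  apply h
  rw [Matrix.smul_apply, h0, smul_zero]

theorem ca2_neg {S : Set (I → ℤ)} {X : Matrix ι ι ℚ_[p]} (hX : D.Supp S X) :
    D.Supp S (-X) := by
  intro i j h
  apply hX i j
  intro h0
  apply h
  rw [Matrix.neg_apply, h0, neg_zero]

theorem ca2_sum {S : Set (I → ℤ)} (M : ℕ) (f : ℕ → Matrix ι ι ℚ_[p])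
    (h : ∀ m, D.Supp S (f m)) : D.Supp S (∑ m ∈ Finset.range M, f m) := by
  induction M with
  | zero =>
    rw [Finset.range_zero, Finset.sum_empty]
    exact ca2_zero D S
  | succ M ih =>
    rw [Finset.sum_range_succ]
    exact Supp.add D ih (h M)

theorem ca2_pow {S : Set (I → ℤ)} (hS : Conic S) {X : Matrix ι ι ℚ_[p]} (hX : D.Supp S X)
    (m : ℕ) : D.Supp S (X ^ (m + 1)) := by
  induction m with
  | zero => rw [zero_add, pow_one]; exact hX
  | succ m ih =>
    rw [pow_succ]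
    exact Supp.mul D ih hX hS.add

theorem ca2_exU_sub_one {S : Set (I → ℤ)} (hS : Conic S) {X : Matrix ι ι ℚ_[p]}
    (hX : D.Supp S X) : D.Supp S (((exU X : GLm p ι) : Matrix ι ι ℚ_[p]) - 1) := by
  obtain ⟨M, hM⟩ := nil_of_supp D S hS X hX
  have hM1 : X ^ (M + 1) = 0 := by rw [pow_succ, hM, zero_mul]
  rw [exU_sum hM1, Finset.sum_range_succ']
  have h0 : ((Nat.factorial 0 : ℕ) : ℚ_[p])⁻¹ • X ^ 0 = 1 := by
    rw [Nat.factorial_zero, Nat.cast_one, inv_one, pow_zero, one_smul]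
  rw [h0, add_sub_cancel_right]
  exact ca2_sum D M _ fun m => ca2_smul D (ca2_pow D hS hX m) _

theorem ca2_suppE {S : Set (I → ℤ)} (k : I) (hk : D.A k ∈ S) (t : ℚ_[p]) :
    D.Supp S (t • D.E k) := by
  refine ca2_smul D ?_ t
  intro i j h
  rw [D.E_wt k i j h, add_sub_cancel_left]
  exact hk

theorem ca2_suppF {S : Set (I → ℤ)} (k : I) (hk : D.A k ∈ S) (t : ℚ_[p]) :
    D.Supp {μ | -μ ∈ S} (t • D.F k) := by
  refine ca2_smul D ?_ t
  intro i j h
  show -(D.wt i - D.wt j) ∈ S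
  rw [D.F_wt k i j h, neg_sub, sub_sub_cancel]
  exact hk

theorem ca2_cont (X : Matrix ι ι ℚ_[p]) (hX : IsNilpotent X) :
    Continuous fun t : ℚ_[p] => ((exU (t • X) : GLm p ι) : Matrix ι ι ℚ_[p]) := by
  obtain ⟨M, hM⟩ := hX
  have h1 : ∀ t : ℚ_[p], ((exU (t • X) : GLm p ι) : Matrix ι ι ℚ_[p]) =
      ∑ m ∈ Finset.range M, ((m.factorial : ℚ_[p])⁻¹) • (t ^ m • X ^ m) := by
    intro t
    rw [exU_sum (M := M) (by rw [smul_pow, hM, smul_zero])]
    refine Finset.sum_congr rfl fun m _ => ?_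
    rw [smul_pow]
  simp_rw [h1]
  refine continuous_finsetSum _ fun m _ => ?_
  have h2 : Continuous fun t : ℚ_[p] => t ^ m := continuous_id.pow m
  have h3 : Continuous fun t : ℚ_[p] => t ^ m • X ^ m :=
    h2.smul (continuous_const (y := X ^ m))
  exact h3.const_smul ((m.factorial : ℚ_[p])⁻¹)

/-! ======= TARGETS ======= -/

/-- TARGET.
Proof. `X` is nilpotent (`nil_of_supp`). `exU X - 1 = ∑_{m ≥ 1} (m!)⁻¹ X ^ m` and `X ^ m` is supported in `S` for `m ≥ 1` (`Supp.mul`, `Conic.add`). The inverse is `exU (-X)`. -/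
theorem exU_mem_US (S : Set (I → ℤ)) (hS : Conic S) (X : Matrix ι ι ℚ_[p])
    (hX : D.Supp S X) : exU X ∈ D.US S hS := by
  show D.Supp S (((exU X : GLm p ι) : Matrix ι ι ℚ_[p]) - 1) ∧
    D.Supp S ((((exU X)⁻¹ : GLm p ι) : Matrix ι ι ℚ_[p]) - 1)
  refine ⟨ca2_exU_sub_one D hS hX, ?_⟩
  rw [← exU_neg (nil_of_supp D S hS X hX)]
  exact ca2_exU_sub_one D hS (ca2_neg D hX)

/-- TARGET.
See the hints above. -/
theorem x_add (k : I) (s t : ℚ_[p]) : D.x k (s + t) = D.x k s * D.x k t := by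
  unfold ChevData.x
  rw [add_smul]
  exact exU_add (tE_nil D k s) (tE_nil D k t)
    (((Commute.refl (D.E k)).smul_left s).smul_right t)

/-- TARGET.
See the hints above. -/
theorem y_add (k : I) (s t : ℚ_[p]) : D.y k (s + t) = D.y k s * D.y k t := by
  unfold ChevData.y
  rw [add_smul]
  exact exU_add (tF_nil D k s) (tF_nil D k t)
    (((Commute.refl (D.F k)).smul_left s).smul_right t)

/-- TARGET.
See the hints above. -/
theorem x_zero (k : I) : D.x k 0 = 1 := by
  unfold ChevData.x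
  rw [zero_smul]
  exact exU_zero

/-- TARGET.
See the hints above. -/
theorem y_zero (k : I) : D.y k 0 = 1 := by
  unfold ChevData.y
  rw [zero_smul]
  exact exU_zero

/-- TARGET.
See the hints above. -/
theorem x_neg (k : I) (t : ℚ_[p]) : D.x k (-t) = (D.x k t)⁻¹ := by
  unfold ChevData.x
  rw [neg_smul]
  exact exU_neg (tE_nil D k t)

/-- TARGET.
See the hints above. -/
theorem y_neg (k : I) (t : ℚ_[p]) : D.y k (-t) = (D.y k t)⁻¹ := by
  unfold ChevData.y
  rw [neg_smul]
  exact exU_neg (tF_nil D k t)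

/-- TARGET.
Polynomial in `t`, and so is the inverse `x k (-t)`; `Units.continuous_iff`. -/
theorem x_cont (k : I) : Continuous (D.x k) := by
  rw [Units.continuous_iff]
  refine ⟨ca2_cont (D.E k) (E_nil D k), ?_⟩
  have h : (fun t => (((D.x k t)⁻¹ : GLm p ι) : Matrix ι ι ℚ_[p])) =
      fun t => ((D.x k (-t) : GLm p ι) : Matrix ι ι ℚ_[p]) := by
    funext t
    rw [x_neg]
  rw [h]
  exact (ca2_cont (D.E k) (E_nil D k)).comp continuous_neg

/-- TARGET.
See the hints above. -/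
theorem y_cont (k : I) : Continuous (D.y k) := by
  rw [Units.continuous_iff]
  refine ⟨ca2_cont (D.F k) (F_nil D k), ?_⟩
  have h : (fun t => (((D.y k t)⁻¹ : GLm p ι) : Matrix ι ι ℚ_[p])) =
      fun t => ((D.y k (-t) : GLm p ι) : Matrix ι ι ℚ_[p]) := by
    funext t
    rw [y_neg]
  rw [h]
  exact (ca2_cont (D.F k) (F_nil D k)).comp continuous_neg

/-- TARGET.
`EF_ne`. -/
theorem x_comm_y (k l : I) (h : k ≠ l) (s t : ℚ_[p]) : D.x k s * D.y l t = D.y l t * D.x k s := by
  unfold ChevData.x ChevData.y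
  have hc : Commute (D.E k) (D.F l) := D.EF_ne k l h
  exact exU_commute (tE_nil D k s) (tF_nil D l t) ((hc.smul_left s).smul_right t)

/-- TARGET.
See the hints above. -/
theorem pos_A (k : I) : D.Pos (D.A k) := by
  refine ⟨Pi.single k 1, ?_, ?_, (D.rt_single k).symm⟩
  · intro l
    by_cases h : l = k
    · subst h
      rw [Pi.single_eq_same]
      exact zero_le_one
    · rw [Pi.single_eq_of_ne h]
  · intro h
    have h1 := congrFun h k
    rw [Pi.single_eq_same, Pi.zero_apply] at h1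
    exact one_ne_zero h1

/-- TARGET.
See the hints above. -/
theorem pos_smul (k : I) (m : ℕ) (hm : 1 ≤ m) : D.Pos (m • D.A k) := by
  induction m, hm using Nat.le_induction with
  | base => rw [one_smul]; exact pos_A D k
  | succ m _ ih =>
    rw [succ_nsmul]
    exact D.pos_conic.add _ ih _ (pos_A D k)

/-- TARGET.
See the hints above. -/
theorem posOff_A (k l : I) (h : l ≠ k) : D.PosOff k (D.A l) := by
  refine ⟨Pi.single l 1, ?_, ⟨l, h, ?_⟩, (D.rt_single l).symm⟩
  · intro j _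
    by_cases h : j = l
    · subst h
      rw [Pi.single_eq_same]
      exact zero_le_one
    · rw [Pi.single_eq_of_ne h]
  · rw [Pi.single_eq_same]
    exact one_ne_zero

/-- TARGET.
See the hints above. -/
theorem x_mem_UP (k : I) (t : ℚ_[p]) : D.x k t ∈ D.UP :=
  exU_mem_US D _ _ _ (ca2_suppE D k (pos_A D k) t)

/-- TARGET.
See the hints above. -/
theorem y_mem_UM (k : I) (t : ℚ_[p]) : D.y k t ∈ D.UM :=
  exU_mem_US D _ _ _ (ca2_suppF D (S := {μ | D.Pos μ}) k (pos_A D k) t)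

/-- TARGET.
See the hints above. -/
theorem x_mem_UPk (k l : I) (h : l ≠ k) (t : ℚ_[p]) : D.x l t ∈ D.UPk k :=
  exU_mem_US D _ _ _ (ca2_suppE D l (posOff_A D k l h) t)

/-- TARGET.
See the hints above. -/
theorem y_mem_UMk (k l : I) (h : l ≠ k) (t : ℚ_[p]) : D.y l t ∈ D.UMk k :=
  exU_mem_US D _ _ _ (ca2_suppF D (S := {μ | D.PosOff k μ}) l (posOff_A D k l h) t)

end Pool.Agent.Chev
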