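import Mathlib
import Pool.Agent.Helper911_Chev.Defs3
import Pool.Agent.Helper911_Chev.CA1

set_option autoImplicit false
set_option linter.unusedSectionVars false
set_option maxHeartbeats 1000000

noncomputable section

open Matrix Topology

namespace Pool.Agent.Chev

open ChevData

variable {p : ℕ} [Fact p.Prime] {I ι : Type} [Fintype I] [DecidableEq I] [Fintype ι]
  [DecidableEq ι] (D : ChevData p I ι)

/-! ======= auxiliary lemmas ======= -/

theorem ca4_expL {X : Matrix ι ι ℚ_[p]} (hX : IsNilpotent X) (Y : Matrix ι ι ℚ_[p]) :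
    IsNilpotent.exp (LinearMap.mulLeft ℚ_[p] X) Y = IsNilpotent.exp X * Y := by
  obtain ⟨k, hk⟩ := hX
  have h1 : (LinearMap.mulLeft ℚ_[p] X) ^ k = 0 := by
    rw [LinearMap.pow_mulLeft, hk]
    ext1 Z
    simp
  rw [IsNilpotent.exp_eq_sum h1, IsNilpotent.exp_eq_sum hk, Finset.sum_mul, LinearMap.sum_apply]
  refine Finset.sum_congr rfl (fun i _ => ?_)
  rw [LinearMap.smul_apply, LinearMap.pow_mulLeft, LinearMap.mulLeft_apply, smul_mul_assoc]

theorem ca4_expR {X : Matrix ι ι ℚ_[p]} (hX : IsNilpotent X) (Y : Matrix ι ι ℚ_[p]) :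
    IsNilpotent.exp (LinearMap.mulRight ℚ_[p] X) Y = Y * IsNilpotent.exp X := by
  obtain ⟨k, hk⟩ := hX
  have h1 : (LinearMap.mulRight ℚ_[p] X) ^ k = 0 := by
    rw [LinearMap.pow_mulRight, hk]
    ext1 Z
    simp
  rw [IsNilpotent.exp_eq_sum h1, IsNilpotent.exp_eq_sum hk, Finset.mul_sum, LinearMap.sum_apply]
  refine Finset.sum_congr rfl (fun i _ => ?_)
  rw [LinearMap.smul_apply, LinearMap.pow_mulRight, LinearMap.mulRight_apply, mul_smul_comm]

/-! ======= TARGETS ======= -/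

theorem ad_sum {X : Matrix ι ι ℚ_[p]} (hX : IsNilpotent X) (Y : Matrix ι ι ℚ_[p]) :
    ∃ M : ℕ, (∀ m, M ≤ m → (fun Z => X * Z - Z * X)^[m] Y = 0) ∧ ∀ M', M ≤ M' →
      ((exU X : GLm p ι) : Matrix ι ι ℚ_[p]) * Y * (((exU X : GLm p ι)⁻¹ : GLm p ι) : Matrix ι ι ℚ_[p])
        = ∑ m ∈ Finset.range M', ((m.factorial : ℚ_[p])⁻¹) • (fun Z => X * Z - Z * X)^[m] Y := by
  classical
  set L := LinearMap.mulLeft ℚ_[p] X with hL
  set R := LinearMap.mulRight ℚ_[p] (-X) with hR
  have hLn : IsNilpotent L := (LinearMap.isNilpotent_mulLeft_iff ℚ_[p] X).mpr hX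
  have hRn : IsNilpotent R := (LinearMap.isNilpotent_mulRight_iff ℚ_[p] (-X)).mpr hX.neg
  have hc : Commute L R := LinearMap.commute_mulLeft_right (R := ℚ_[p]) X (-X)
  have hit : ∀ (m : ℕ) (Y : Matrix ι ι ℚ_[p]), (fun Z => X * Z - Z * X)^[m] Y = ((L + R) ^ m) Y := by
    intro m
    induction m with
    | zero => intro Y; simp
    | succ m ih =>
      intro Y
      rw [Function.iterate_succ_apply, ih, pow_succ, Module.End.mul_apply]
      congr 1
      simp only [hL, hR, LinearMap.add_apply, LinearMap.mulLeft_apply, LinearMap.mulRight_apply,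
        mul_neg]
      rw [sub_eq_add_neg]
  obtain ⟨M, hM⟩ := hc.isNilpotent_add hLn hRn
  refine ⟨M, ?_, ?_⟩
  · intro m hm
    rw [hit, pow_eq_zero_of_le hm hM]
    rfl
  · intro M' hM'
    have h1 := IsNilpotent.exp_add_of_commute hc hLn hRn
    have h2 := LinearMap.congr_fun h1 Y
    rw [Module.End.mul_apply, hR, ca4_expR hX.neg, hL, ca4_expL hX] at h2
    rw [← exU_neg hX, exU_val hX, exU_val hX.neg, mul_assoc, ← h2, ← hL, ← hR,
      IsNilpotent.exp_eq_sum (pow_eq_zero_of_le hM' hM), LinearMap.sum_apply]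
    refine Finset.sum_congr rfl (fun i _ => ?_)
    rw [hit, LinearMap.smul_apply, ← Rat.cast_smul_eq_qsmul ℚ_[p]]
    simp

/-- TARGET.
From `ad_sum`. -/
theorem ad_three {X : Matrix ι ι ℚ_[p]} (hX : IsNilpotent X) (Y Z U : Matrix ι ι ℚ_[p])
    (h1 : X * Y - Y * X = Z) (h2 : X * Z - Z * X = U) (h3 : X * U - U * X = 0) :
    ((exU X : GLm p ι) : Matrix ι ι ℚ_[p]) * Y * (((exU X : GLm p ι)⁻¹ : GLm p ι) : Matrix ι ι ℚ_[p])
        = Y + Z + (2 : ℚ_[p])⁻¹ • U := by
  obtain ⟨M, -, hM2⟩ := ad_sum hX Y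
  have e1 : (fun Z => X * Z - Z * X)^[1] Y = Z := by simpa using h1
  have e2 : (fun Z => X * Z - Z * X)^[2] Y = U := by
    rw [Function.iterate_succ_apply', e1]; exact h2
  have e3 : ∀ m, (fun Z => X * Z - Z * X)^[3 + m] Y = 0 := by
    intro m
    induction m with
    | zero =>
      rw [Function.iterate_succ_apply', e2]; exact h3
    | succ m ih =>
      rw [← add_assoc, Function.iterate_succ_apply', ih]
      simp
  rw [hM2 (3 + M) (by omega), Finset.sum_range_add]
  have hz : ∑ x ∈ Finset.range M, (((3 + x).factorial : ℚ_[p])⁻¹) •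
      (fun Z => X * Z - Z * X)^[3 + x] Y = 0 :=
    Finset.sum_eq_zero (fun i _ => by rw [e3, smul_zero])
  rw [hz, add_zero, Finset.sum_range_succ, Finset.sum_range_succ, Finset.sum_range_succ,
    Finset.sum_range_zero, e1, e2]
  simp [Nat.factorial]

end Pool.Agent.Chev
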