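import Mathlib
import Pool.Agent.Helper911_Chev.Defs3
import Pool.Agent.Helper911_Chev.CA1
import Pool.Agent.Helper911_Chev.CA4

set_option autoImplicit false
set_option linter.unusedSectionVars false
set_option maxHeartbeats 1000000

noncomputable section

open Matrix Topology

namespace Pool.Agent.Chev

open ChevData

variable {p : ℕ} [Fact p.Prime] {I ι : Type} [Fintype I] [DecidableEq I] [Fintype ι]
  [DecidableEq ι] (D : ChevData p I ι)

/-! ======= TARGETS ======= -/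

/-! Write `x(t) = exp(t E)`, `y(u) = exp(u F)`, `H = Hm D k` for fixed `k`. With `ad_three`: conjugation by `x(t)` fixes `E`, maps `F` to `F + t H - t^2 E` and `H` to `H - 2 t E`; conjugation by `y(u)` fixes `F`, maps `E` to `E - u H - u^2 F` and `H` to `H + 2 u F` (`EF_same`, `HE`, `HF`, `A k k = 2`). Composing the three conjugations of
`nt = x(t) y(-t⁻¹) x(t)` gives `nt_E`, `nt_F` and `nt_H` for `l = k`. For general `l` the matrix `2 • Hm l - A k l • Hm k` commutes with `E k` and `F k`, hence is fixed, and `2 • cj nt (Hm l) = 2 • Hm l - A k l • Hm k + A k l • cj nt (Hm k) = 2 • Hm l - 2 A k l • Hm k`. -/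

/-- TARGET.
Entrywise, from `E_wt`. -/
theorem HE (k l : I) : Hm D l * D.E k - D.E k * Hm D l = (D.A k l : ℚ_[p]) • D.E k := by
  ext i j
  unfold Hm
  rw [Matrix.sub_apply, Matrix.diagonal_mul, Matrix.mul_diagonal, Matrix.smul_apply, smul_eq_mul]
  by_cases h : D.E k i j = 0
  · rw [h]; ring
  · have h1 := congrFun (D.E_wt k i j h) l
    rw [h1, Pi.add_apply]
    push_cast
    ring

/-- TARGET.
See the hints above. -/
theorem HF (k l : I) : Hm D l * D.F k - D.F k * Hm D l = -((D.A k l : ℚ_[p]) • D.F k) := by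
  ext i j
  unfold Hm
  rw [Matrix.sub_apply, Matrix.diagonal_mul, Matrix.mul_diagonal, Matrix.neg_apply,
    Matrix.smul_apply, smul_eq_mul]
  by_cases h : D.F k i j = 0
  · rw [h]; ring
  · have h1 := congrFun (D.F_wt k i j h) l
    rw [h1, Pi.sub_apply]
    push_cast
    ring

theorem cjx_zero (k : I) (t : ℚ_[p]) (Z : Matrix ι ι ℚ_[p]) (h : D.E k * Z = Z * D.E k) :
    cj (D.x k t) Z = Z := by
  have := ad_three (tE_nil D k t) Z 0 0
    (by rw [Matrix.smul_mul, Matrix.mul_smul, h, sub_self]) (by simp) (by simp)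
  unfold cj ChevData.x
  rw [this]
  simp

theorem cjy_zero (k : I) (t : ℚ_[p]) (Z : Matrix ι ι ℚ_[p]) (h : D.F k * Z = Z * D.F k) :
    cj (D.y k t) Z = Z := by
  have := ad_three (tF_nil D k t) Z 0 0
    (by rw [Matrix.smul_mul, Matrix.mul_smul, h, sub_self]) (by simp) (by simp)
  unfold cj ChevData.y
  rw [this]
  simp

theorem EH_k (k : I) : D.E k * Hm D k - Hm D k * D.E k = (-2 : ℚ_[p]) • D.E k := by
  have h := HE D k k
  rw [D.A_diag] at h
  rw [← neg_sub, h, ← neg_smul]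
  norm_num

theorem FH_k (k : I) : D.F k * Hm D k - Hm D k * D.F k = (2 : ℚ_[p]) • D.F k := by
  have h := HF D k k
  rw [D.A_diag] at h
  rw [← neg_sub, h, neg_neg]
  norm_num

theorem EF_k (k : I) : D.E k * D.F k - D.F k * D.E k = Hm D k := D.EF_same k

theorem cjx_F (k : I) (t : ℚ_[p]) :
    cj (D.x k t) (D.F k) = D.F k + t • Hm D k - (t ^ 2) • D.E k := by
  have := ad_three (tE_nil D k t) (D.F k) (t • Hm D k) ((-2 * t ^ 2) • D.E k)
    (by rw [Matrix.smul_mul, Matrix.mul_smul, ← smul_sub, EF_k])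
    (by
      rw [Matrix.smul_mul, Matrix.mul_smul, Matrix.smul_mul, Matrix.mul_smul, smul_smul, smul_smul,
        ← smul_sub, EH_k, smul_smul]
      congr 1
      ring)
    (by
      rw [Matrix.smul_mul, Matrix.mul_smul, Matrix.smul_mul, Matrix.mul_smul, smul_smul, smul_smul,
        mul_comm, sub_self])
  unfold cj ChevData.x
  rw [this, smul_smul]
  have h2 : (2 : ℚ_[p])⁻¹ * (-2 * t ^ 2) = -t ^ 2 := by
    have : (2 : ℚ_[p]) ≠ 0 := two_ne_zero
    field_simp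
  rw [h2, neg_smul, sub_eq_add_neg]

theorem cjx_H (k : I) (t : ℚ_[p]) :
    cj (D.x k t) (Hm D k) = Hm D k - (2 * t) • D.E k := by
  have := ad_three (tE_nil D k t) (Hm D k) ((-2 * t) • D.E k) 0
    (by
      rw [Matrix.smul_mul, Matrix.mul_smul, ← smul_sub, EH_k, smul_smul]
      congr 1
      ring)
    (by
      rw [Matrix.smul_mul, Matrix.mul_smul, Matrix.smul_mul, Matrix.mul_smul, smul_smul, smul_smul,
        mul_comm, sub_self])
    (by simp)
  unfold cj ChevData.x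
  rw [this, smul_zero, add_zero, neg_mul, neg_smul, sub_eq_add_neg]

theorem cjy_E (k : I) (u : ℚ_[p]) :
    cj (D.y k u) (D.E k) = D.E k - u • Hm D k - (u ^ 2) • D.F k := by
  have := ad_three (tF_nil D k u) (D.E k) ((-u) • Hm D k) ((-2 * u ^ 2) • D.F k)
    (by
      rw [Matrix.smul_mul, Matrix.mul_smul, ← smul_sub, ← neg_sub, EF_k, smul_neg, neg_smul])
    (by
      rw [Matrix.smul_mul, Matrix.mul_smul, Matrix.smul_mul, Matrix.mul_smul, smul_smul, smul_smul,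
        mul_comm (-u) u, ← smul_sub, FH_k, smul_smul]
      congr 1
      ring)
    (by
      rw [Matrix.smul_mul, Matrix.mul_smul, Matrix.smul_mul, Matrix.mul_smul, smul_smul, smul_smul,
        mul_comm, sub_self])
  unfold cj ChevData.y
  rw [this, smul_smul]
  have h2 : (2 : ℚ_[p])⁻¹ * (-2 * u ^ 2) = -u ^ 2 := by
    have : (2 : ℚ_[p]) ≠ 0 := two_ne_zero
    field_simp
  rw [h2, neg_smul, neg_smul, sub_eq_add_neg, sub_eq_add_neg]

theorem cjy_H (k : I) (u : ℚ_[p]) :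
    cj (D.y k u) (Hm D k) = Hm D k + (2 * u) • D.F k := by
  have := ad_three (tF_nil D k u) (Hm D k) ((2 * u) • D.F k) 0
    (by
      rw [Matrix.smul_mul, Matrix.mul_smul, ← smul_sub, FH_k, smul_smul]
      congr 1
      ring)
    (by
      rw [Matrix.smul_mul, Matrix.mul_smul, Matrix.smul_mul, Matrix.mul_smul, smul_smul, smul_smul,
        mul_comm, sub_self])
    (by simp)
  unfold cj ChevData.y
  rw [this, smul_zero, add_zero]

theorem cj_sub' (g : GLm p ι) (X Y : Matrix ι ι ℚ_[p]) : cj g (X - Y) = cj g X - cj g Y := by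
  unfold cj; noncomm_ring

/-- TARGET.
See the hints above. -/
theorem nt_E (k : I) (t : ℚ_[p]ˣ) :
    cj (D.nt k t) (D.E k) = (-((((t⁻¹ : ℚ_[p]ˣ)) : ℚ_[p]) ^ 2)) • D.F k := by
  have ht : (t : ℚ_[p]) * ((t⁻¹ : ℚ_[p]ˣ) : ℚ_[p]) = 1 := Units.mul_inv t
  unfold ChevData.nt
  generalize ((t⁻¹ : ℚ_[p]ˣ) : ℚ_[p]) = r at ht ⊢
  generalize (t : ℚ_[p]) = a at ht ⊢
  rw [cj_mul, cj_mul, cjx_zero D k _ _ rfl, cjy_E, cj_sub', cj_sub', cj_smul, cj_smul, cjx_H, cjx_F,
    cjx_zero D k _ _ rfl]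
  have h1 : (1 + r * (2 * a) * (-1) + r ^ 2 * a ^ 2) = 0 := by linear_combination (r * a - 1) * ht
  have h2 : r - r ^ 2 * a = 0 := by linear_combination (-r) * ht
  calc _ = (1 + r * (2 * a) * (-1) + r ^ 2 * a ^ 2) • D.E k + (r - r ^ 2 * a) • Hm D k
      + (-(r ^ 2)) • D.F k := by module
    _ = _ := by rw [h1, h2, zero_smul, zero_smul, zero_add, zero_add]

/-- TARGET.
See the hints above. -/
theorem nt_F (k : I) (t : ℚ_[p]ˣ) : cj (D.nt k t) (D.F k) = (-((t : ℚ_[p]) ^ 2)) • D.E k := by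
  have ht : (t : ℚ_[p]) * ((t⁻¹ : ℚ_[p]ˣ) : ℚ_[p]) = 1 := Units.mul_inv t
  unfold ChevData.nt
  generalize ((t⁻¹ : ℚ_[p]ˣ) : ℚ_[p]) = r at ht ⊢
  generalize (t : ℚ_[p]) = a at ht ⊢
  have h0 : cj (D.y k (-r)) (cj (D.x k a) (D.F k)) = (-(a ^ 2)) • D.E k := by
    rw [cjx_F, cj_sub', cj_add, cj_smul, cj_smul, cjy_H, cjy_E, cjy_zero D k _ _ rfl]
    have h1 : (1 + a * (2 * -r) + a ^ 2 * (-r) ^ 2) = 0 := by linear_combination (r * a - 1) * ht
    have h2 : a + a ^ 2 * (-r) = 0 := by linear_combination (-a) * ht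
    calc _ = (1 + a * (2 * -r) + a ^ 2 * (-r) ^ 2) • D.F k + (a + a ^ 2 * (-r)) • Hm D k
        + (-(a ^ 2)) • D.E k := by module
      _ = _ := by rw [h1, h2, zero_smul, zero_smul, zero_add, zero_add]
  rw [cj_mul, cj_mul, h0, cj_smul, cjx_zero D k _ _ rfl]

theorem nt_Hk (k : I) (t : ℚ_[p]ˣ) : cj (D.nt k t) (Hm D k) = - Hm D k := by
  have ht : (t : ℚ_[p]) * ((t⁻¹ : ℚ_[p]ˣ) : ℚ_[p]) = 1 := Units.mul_inv t
  unfold ChevData.nt
  generalize ((t⁻¹ : ℚ_[p]ˣ) : ℚ_[p]) = r at ht ⊢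
  generalize (t : ℚ_[p]) = a at ht ⊢
  have h0 : cj (D.y k (-r)) (cj (D.x k a) (Hm D k)) = -Hm D k - (2 * a) • D.E k := by
    rw [cjx_H, cj_sub', cj_smul, cjy_H, cjy_E]
    have h1 : (2 * -r + (2 * a) * (-r) ^ 2) = 0 := by linear_combination (2 * r) * ht
    have h2 : 1 + (2 * a) * (-r) = -1 := by linear_combination (-2) * ht
    calc _ = (2 * -r + (2 * a) * (-r) ^ 2) • D.F k + (1 + (2 * a) * (-r)) • Hm D k
        - (2 * a) • D.E k := by module
      _ = _ := by rw [h1, h2, zero_smul, zero_add, neg_smul, one_smul]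
  rw [cj_mul, cj_mul, h0]
  have h3 : -Hm D k - (2 * a) • D.E k = (-1 : ℚ_[p]) • Hm D k - (2 * a) • D.E k := by
    rw [neg_smul, one_smul]
  rw [h3, cj_sub', cj_smul, cj_smul, cjx_zero D k _ _ rfl, cjx_H]
  module

/-- TARGET.
See the hints above. -/
theorem nt_H (k l : I) (t : ℚ_[p]ˣ) :
    cj (D.nt k t) (Hm D l) = Hm D l - (D.A k l : ℚ_[p]) • Hm D k := by
  set Z : Matrix ι ι ℚ_[p] := (2 : ℚ_[p]) • Hm D l - (D.A k l : ℚ_[p]) • Hm D k with hZ
  have hE : D.E k * Z = Z * D.E k := by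
    have h1 := HE D k l
    have h2 := EH_k D k
    rw [hZ, mul_sub, sub_mul, Matrix.mul_smul, Matrix.mul_smul, Matrix.smul_mul, Matrix.smul_mul]
    have h3 : D.E k * Hm D l = Hm D l * D.E k - (D.A k l : ℚ_[p]) • D.E k := by
      rw [← h1]; abel
    have h4 : D.E k * Hm D k = Hm D k * D.E k + (-2 : ℚ_[p]) • D.E k := by
      rw [← h2]; abel
    rw [h3, h4]
    module
  have hF : D.F k * Z = Z * D.F k := by
    have h1 := HF D k l
    have h2 := FH_k D k
    rw [hZ, mul_sub, sub_mul, Matrix.mul_smul, Matrix.mul_smul, Matrix.smul_mul, Matrix.smul_mul]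
    have h3 : D.F k * Hm D l = Hm D l * D.F k + (D.A k l : ℚ_[p]) • D.F k := by
      have h6 : (D.A k l : ℚ_[p]) • D.F k = -(Hm D l * D.F k - D.F k * Hm D l) := by
        rw [h1, neg_neg]
      rw [h6]; abel
    have h4 : D.F k * Hm D k = Hm D k * D.F k + (2 : ℚ_[p]) • D.F k := by
      rw [← h2]; abel
    rw [h3, h4]
    module
  have hfix : cj (D.nt k t) Z = Z := by
    unfold ChevData.nt
    rw [cj_mul, cj_mul, cjx_zero D k _ _ hE, cjy_zero D k _ _ hF, cjx_zero D k _ _ hE]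
  have h2 : (2 : ℚ_[p]) ≠ 0 := two_ne_zero
  have h5 : Hm D l = (2 : ℚ_[p])⁻¹ • (Z + (D.A k l : ℚ_[p]) • Hm D k) := by
    rw [hZ, sub_add_cancel, smul_smul, inv_mul_cancel₀ h2, one_smul]
  calc cj (D.nt k t) (Hm D l)
      = cj (D.nt k t) ((2 : ℚ_[p])⁻¹ • (Z + (D.A k l : ℚ_[p]) • Hm D k)) := by rw [← h5]
    _ = (2 : ℚ_[p])⁻¹ • (Z + (D.A k l : ℚ_[p]) • (-Hm D k)) := by
        rw [cj_smul, cj_add, cj_smul, hfix, nt_Hk]
    _ = (2 : ℚ_[p])⁻¹ • ((2 : ℚ_[p]) • (Hm D l - (D.A k l : ℚ_[p]) • Hm D k)) := by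
        congr 1
        rw [hZ]
        module
    _ = _ := by rw [smul_smul, inv_mul_cancel₀ h2, one_smul]

end Pool.Agent.Chev
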