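import Mathlib
import Pool.Agent.Helper911_Chev.Defs3
import Pool.Agent.Helper911_Chev.CA1
import Pool.Agent.Helper911_Chev.CB1

set_option autoImplicit false
set_option linter.unusedSectionVars false
set_option maxHeartbeats 1000000

noncomputable section

open Matrix Topology

namespace Pool.Agent.Chev

open ChevData

variable {p : ℕ} [Fact p.Prime] {I ι : Type} [Fintype I] [DecidableEq I] [Fintype ι]
  [DecidableEq ι] (D : ChevData p I ι)

/-! ======= TARGETS ======= -/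

theorem nt_rep (k : I) (t : ℚ_[p]ˣ) : D.Rep (D.nt k t) (D.s k) := by
  intro i j hij
  have key : D.wt j = D.s k (D.wt i) := by
    funext l
    have h := nt_H D k l t
    have h2 : ((D.nt k t : GLm p ι) : Matrix ι ι ℚ_[p]) * Hm D l
        = (Hm D l - (D.A k l : ℚ_[p]) • Hm D k) * ((D.nt k t : GLm p ι) : Matrix ι ι ℚ_[p]) := by
      rw [← h]
      unfold cj
      rw [Matrix.mul_assoc _ (((D.nt k t)⁻¹ : GLm p ι) : Matrix ι ι ℚ_[p]), ← Units.val_mul,
        inv_mul_cancel, Units.val_one, Matrix.mul_one]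
    have h3 := congrFun (congrFun h2 i) j
    unfold Hm at h3
    rw [Matrix.mul_diagonal, Matrix.sub_mul, Matrix.smul_mul, Matrix.sub_apply,
      Matrix.smul_apply, Matrix.diagonal_mul, Matrix.diagonal_mul, smul_eq_mul] at h3
    have h4 : ((D.wt j l : ℤ) : ℚ_[p]) = ((D.wt i l - D.wt i k * D.A k l : ℤ) : ℚ_[p]) := by
      apply mul_left_cancel₀ hij
      push_cast
      linear_combination h3
    have h5 : D.wt j l = D.wt i l - D.wt i k * D.A k l := by exact_mod_cast h4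
    rw [D.s_apply]
    simp only [Pi.sub_apply, Pi.smul_apply, smul_eq_mul]
    exact h5
  rw [key]
  exact ((D.s k).left_inv (D.wt i)).symm

theorem nt_one (k : I) : D.nt k 1 = D.n k := by
  unfold ChevData.nt ChevData.n
  rw [inv_one, Units.val_one]

theorem E_pow_wt (k : I) (m : ℕ) : ∀ i j, (D.E k ^ m) i j ≠ 0 →
    D.wt i = D.wt j + (m : ℤ) • D.A k := by
  induction m with
  | zero =>
    intro i j h
    rw [pow_zero, Matrix.one_apply] at h
    have : i = j := by by_contra hne; simp [hne] at h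
    rw [this]; simp
  | succ m ih =>
    intro i j h
    rw [pow_succ, Matrix.mul_apply] at h
    obtain ⟨l, -, hl⟩ := Finset.exists_ne_zero_of_sum_ne_zero h
    rw [ih i l (left_ne_zero_of_mul hl), D.E_wt k l j (right_ne_zero_of_mul hl)]
    push_cast
    rw [add_smul, one_smul]
    abel

theorem F_pow_wt (k : I) (m : ℕ) : ∀ i j, (D.F k ^ m) i j ≠ 0 →
    D.wt i = D.wt j - (m : ℤ) • D.A k := by
  induction m with
  | zero =>
    intro i j h
    rw [pow_zero, Matrix.one_apply] at h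
    have : i = j := by by_contra hne; simp [hne] at h
    rw [this]; simp
  | succ m ih =>
    intro i j h
    rw [pow_succ, Matrix.mul_apply] at h
    obtain ⟨l, -, hl⟩ := Finset.exists_ne_zero_of_sum_ne_zero h
    rw [ih i l (left_ne_zero_of_mul hl), D.F_wt k l j (right_ne_zero_of_mul hl)]
    push_cast
    rw [add_smul, one_smul]
    abel

theorem EFE_wt (k : I) (a b c : ℕ) (i j : ι)
    (h : (D.E k ^ a * D.F k ^ b * D.E k ^ c) i j ≠ 0) :
    D.wt i = D.wt j + ((a : ℤ) - b + c) • D.A k := by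
  rw [Matrix.mul_apply] at h
  obtain ⟨l, -, hl⟩ := Finset.exists_ne_zero_of_sum_ne_zero h
  have h1 := left_ne_zero_of_mul hl
  rw [Matrix.mul_apply] at h1
  obtain ⟨m, -, hm⟩ := Finset.exists_ne_zero_of_sum_ne_zero h1
  rw [E_pow_wt D k a i m (left_ne_zero_of_mul hm), F_pow_wt D k b m l (right_ne_zero_of_mul hm),
    E_pow_wt D k c l j (right_ne_zero_of_mul hl)]
  rw [add_smul, sub_smul]
  abel

theorem nt_expand (k : I) (t : ℚ_[p]ˣ) (M : ℕ) (hE : D.E k ^ M = 0) (hF : D.F k ^ M = 0)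
    (i j : ι) :
    ((D.nt k t : GLm p ι) : Matrix ι ι ℚ_[p]) i j
      = ∑ a ∈ Finset.range M, ∑ b ∈ Finset.range M, ∑ c ∈ Finset.range M,
        ((t : ℚ_[p]) ^ a * (-((t⁻¹ : ℚ_[p]ˣ) : ℚ_[p])) ^ b * (t : ℚ_[p]) ^ c) *
          (((a.factorial : ℚ_[p])⁻¹ * (b.factorial : ℚ_[p])⁻¹ * (c.factorial : ℚ_[p])⁻¹) *
            (D.E k ^ a * D.F k ^ b * D.E k ^ c) i j) := by
  have hx : ((D.x k t : GLm p ι) : Matrix ι ι ℚ_[p])
      = ∑ a ∈ Finset.range M, ((a.factorial : ℚ_[p])⁻¹ * (t : ℚ_[p]) ^ a) • D.E k ^ a := by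
    unfold ChevData.x
    rw [exU_sum (M := M) (by rw [smul_pow, hE, smul_zero])]
    refine Finset.sum_congr rfl fun a _ => ?_
    rw [smul_pow, smul_smul]
  have hy : ((D.y k (-((t⁻¹ : ℚ_[p]ˣ) : ℚ_[p])) : GLm p ι) : Matrix ι ι ℚ_[p])
      = ∑ b ∈ Finset.range M,
        ((b.factorial : ℚ_[p])⁻¹ * (-((t⁻¹ : ℚ_[p]ˣ) : ℚ_[p])) ^ b) • D.F k ^ b := by
    unfold ChevData.y
    rw [exU_sum (M := M) (by rw [smul_pow, hF, smul_zero])]
    refine Finset.sum_congr rfl fun b _ => ?_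
    rw [smul_pow, smul_smul]
  unfold ChevData.nt
  rw [Units.val_mul, Units.val_mul, hx, hy, Finset.sum_mul_sum, Finset.sum_mul, Matrix.sum_apply]
  refine Finset.sum_congr rfl fun a _ => ?_
  rw [Finset.sum_mul, Matrix.sum_apply]
  refine Finset.sum_congr rfl fun b _ => ?_
  rw [Finset.mul_sum, Matrix.sum_apply]
  refine Finset.sum_congr rfl fun c _ => ?_
  simp only [Matrix.smul_mul, Matrix.mul_smul, Matrix.smul_apply, smul_eq_mul]
  ring

theorem nt_eq (k : I) (t : ℚ_[p]ˣ) : D.nt k t = D.hk k t * D.n k := by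
  apply Units.ext
  ext i j
  obtain ⟨M1, hM1⟩ := E_nil D k
  obtain ⟨M2, hM2⟩ := F_nil D k
  have hE : D.E k ^ (M1 + M2) = 0 := by rw [pow_add, hM1, zero_mul]
  have hF : D.F k ^ (M1 + M2) = 0 := by rw [pow_add, hM2, mul_zero]
  have hdiag : ((D.hk k t * D.n k : GLm p ι) : Matrix ι ι ℚ_[p]) i j
      = ((t ^ D.wt i k : ℚ_[p]ˣ) : ℚ_[p]) * ((D.n k : GLm p ι) : Matrix ι ι ℚ_[p]) i j := by
    rw [Units.val_mul]
    show (Matrix.diagonal (fun i => ((∏ l, (t ^ (Pi.single k 1 : I → ℤ) l) ^ D.wt i l : ℚ_[p]ˣ) : ℚ_[p]))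
      * ((D.n k : GLm p ι) : Matrix ι ι ℚ_[p])) i j = _
    rw [Matrix.diagonal_mul]
    congr 2
    rw [Finset.prod_eq_single k]
    · rw [Pi.single_eq_same, zpow_one]
    · intro l _ hl
      rw [Pi.single_eq_of_ne hl, zpow_zero, _root_.one_zpow]
    · intro h; exact absurd (Finset.mem_univ k) h
  rw [hdiag]
  by_cases hw : D.wt i = D.s k (D.wt j)
  · rw [← nt_one, nt_expand D k t _ hE hF, nt_expand D k 1 _ hE hF, Finset.mul_sum]
    refine Finset.sum_congr rfl fun a _ => ?_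
    rw [Finset.mul_sum]
    refine Finset.sum_congr rfl fun b _ => ?_
    rw [Finset.mul_sum]
    refine Finset.sum_congr rfl fun c _ => ?_
    by_cases h0 : (D.E k ^ a * D.F k ^ b * D.E k ^ c) i j = 0
    · rw [h0]; simp
    · have h1 := EFE_wt D k a b c i j h0
      rw [hw, D.s_apply] at h1
      have h2 := congrFun h1 k
      have h3 := congrFun hw k
      rw [D.s_apply] at h3
      simp only [Pi.sub_apply, Pi.add_apply, Pi.smul_apply, smul_eq_mul, D.A_diag] at h2 h3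
      have h4 : D.wt i k = (a : ℤ) - b + c := by linarith
      rw [h4]
      have h5 : ((t ^ ((a : ℤ) - b + c) : ℚ_[p]ˣ) : ℚ_[p])
          = (t : ℚ_[p]) ^ a * (((t⁻¹ : ℚ_[p]ˣ) : ℚ_[p])) ^ b * (t : ℚ_[p]) ^ c := by
        rw [_root_.zpow_add, _root_.zpow_sub, zpow_natCast, zpow_natCast, zpow_natCast]
        push_cast
        rw [← inv_pow]
      rw [h5, Units.val_one, inv_one, Units.val_one, neg_pow]
      ring
  · have h1 : ((D.nt k t : GLm p ι) : Matrix ι ι ℚ_[p]) i j = 0 := by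
      by_contra h; exact hw (nt_rep D k t i j h)
    have h2 : ((D.n k : GLm p ι) : Matrix ι ι ℚ_[p]) i j = 0 := by
      by_contra h; rw [← nt_one] at h; exact hw (nt_rep D k 1 i j h)
    rw [h1, h2, mul_zero]

theorem nt_inv (k : I) (t : ℚ_[p]ˣ) : (D.nt k t)⁻¹ = D.nt k (-t) := by
  have hx : ∀ s : ℚ_[p], (D.x k s)⁻¹ = D.x k (-s) := by
    intro s
    unfold ChevData.x
    rw [neg_smul, exU_neg (tE_nil D k s)]
  have hy : ∀ s : ℚ_[p], (D.y k s)⁻¹ = D.y k (-s) := by
    intro s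
    unfold ChevData.y
    rw [neg_smul, exU_neg (tF_nil D k s)]
  unfold ChevData.nt
  rw [_root_.mul_inv_rev, _root_.mul_inv_rev, hx, hy, ← mul_assoc, inv_neg, Units.val_neg, Units.val_neg]

end Pool.Agent.Chev
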