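import Mathlib
import Pool.Agent.Helper911_Chev.Defs3
import Pool.Agent.Helper911_Chev.CA1
import Pool.Agent.Helper911_Chev.CB1
import Pool.Agent.Helper911_Chev.CA2
import Pool.Agent.Helper911_Chev.CB2

set_option autoImplicit false
set_option linter.unusedSectionVars false
set_option maxHeartbeats 1000000

noncomputable section

open Matrix Topology

namespace Pool.Agent.Chev

open ChevData

variable {p : ℕ} [Fact p.Prime] {I ι : Type} [Fintype I] [DecidableEq I] [Fintype ι]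
  [DecidableEq ι] (D : ChevData p I ι)

/-! ======= TARGETS ======= -/

/-- TARGET.
`exU_conj`, `nt_E`. -/
theorem nt_conj_x (k : I) (t : ℚ_[p]ˣ) (u : ℚ_[p]) :
    D.nt k t * D.x k u * (D.nt k t)⁻¹ = D.y k (-((((t⁻¹ : ℚ_[p]ˣ)) : ℚ_[p]) ^ 2) * u) := by
  have h1 := exU_conj (D.nt k t) (tE_nil D k u)
  have h2 := nt_E D k t
  have h3 : ((D.nt k t : GLm p ι) : Matrix ι ι ℚ_[p]) * (u • D.E k)
      * (((D.nt k t)⁻¹ : GLm p ι) : Matrix ι ι ℚ_[p])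
      = (-((((t⁻¹ : ℚ_[p]ˣ)) : ℚ_[p]) ^ 2) * u) • D.F k := by
    have h4 := cj_smul (D.nt k t) u (D.E k)
    rw [h2] at h4
    unfold cj at h4
    rw [h4, smul_smul, mul_comm]
  rw [h3] at h1
  exact h1

/-- TARGET.
`exU_conj`, `nt_F`. -/
theorem nt_conj_y (k : I) (t : ℚ_[p]ˣ) (u : ℚ_[p]) :
    D.nt k t * D.y k u * (D.nt k t)⁻¹ = D.x k (-((t : ℚ_[p]) ^ 2) * u) := by
  have h1 := exU_conj (D.nt k t) (tF_nil D k u)
  have h2 := nt_F D k t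
  have h3 : ((D.nt k t : GLm p ι) : Matrix ι ι ℚ_[p]) * (u • D.F k)
      * (((D.nt k t)⁻¹ : GLm p ι) : Matrix ι ι ℚ_[p])
      = (-((t : ℚ_[p]) ^ 2) * u) • D.E k := by
    have h4 := cj_smul (D.nt k t) u (D.F k)
    rw [h2] at h4
    unfold cj at h4
    rw [h4, smul_smul, mul_comm]
  rw [h3] at h1
  exact h1

/-- TARGET.
Proof. `nt = x(t) y(-t⁻¹) x(t)` and `nt x(t) nt⁻¹ = y(-t⁻¹)` (`nt_conj_x` with `u = t`). So `nt = y(-t⁻¹) nt x(t)⁻¹ = y(-t⁻¹) x(t) y(-t⁻¹)`. -/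
theorem nt_alt (k : I) (t : ℚ_[p]ˣ) : D.nt k t
    = D.y k (-(((t⁻¹ : ℚ_[p]ˣ)) : ℚ_[p])) * D.x k t * D.y k (-(((t⁻¹ : ℚ_[p]ˣ)) : ℚ_[p])) := by
  have h1 := nt_conj_x D k t (t : ℚ_[p])
  have ht : ((t⁻¹ : ℚ_[p]ˣ) : ℚ_[p]) * (t : ℚ_[p]) = 1 := by
    rw [← Units.val_mul, inv_mul_cancel, Units.val_one]
  have h2 : -((((t⁻¹ : ℚ_[p]ˣ)) : ℚ_[p]) ^ 2) * (t : ℚ_[p]) = -(((t⁻¹ : ℚ_[p]ˣ)) : ℚ_[p]) := by
    rw [neg_mul, pow_two, mul_assoc, ht, mul_one]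
  rw [h2] at h1
  have h3 : D.nt k t = D.y k (-(((t⁻¹ : ℚ_[p]ˣ)) : ℚ_[p])) * D.nt k t * (D.x k t)⁻¹ := by
    rw [← h1]
    group
  rw [h3]
  nth_rewrite 1 [nt]
  group

/-- TARGET.
Definition of `nt` with `t = -u⁻¹`. -/
theorem y_eq (k : I) (u : ℚ_[p]ˣ) : D.y k (u : ℚ_[p])
    = D.x k (((u⁻¹ : ℚ_[p]ˣ)) : ℚ_[p]) * D.nt k (-u⁻¹) * D.x k (((u⁻¹ : ℚ_[p]ˣ)) : ℚ_[p]) := by
  have h1 : D.nt k (-u⁻¹) = D.x k (-(((u⁻¹ : ℚ_[p]ˣ)) : ℚ_[p])) * D.y k (u : ℚ_[p])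
      * D.x k (-(((u⁻¹ : ℚ_[p]ˣ)) : ℚ_[p])) := by
    unfold nt
    have e1 : ((-u⁻¹ : ℚ_[p]ˣ) : ℚ_[p]) = -(((u⁻¹ : ℚ_[p]ˣ)) : ℚ_[p]) := Units.val_neg _
    have e2 : -((((-u⁻¹ : ℚ_[p]ˣ)⁻¹ : ℚ_[p]ˣ)) : ℚ_[p]) = (u : ℚ_[p]) := by
      rw [← Units.val_neg]
      congr 1
      rw [inv_neg, inv_inv, neg_neg]
    rw [e1, e2]
  rw [h1, x_neg]
  group

/-- TARGET.
`nt_alt`. -/
theorem x_eq (k : I) (t : ℚ_[p]ˣ) : D.x k (t : ℚ_[p])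
    = D.y k (((t⁻¹ : ℚ_[p]ˣ)) : ℚ_[p]) * D.nt k t * D.y k (((t⁻¹ : ℚ_[p]ˣ)) : ℚ_[p]) := by
  rw [nt_alt D k t, y_neg]
  group

/-- TARGET.
See the hints above. -/
theorem h_apply (τ : I → ℚ_[p]ˣ) (i j : ι) : (D.h τ : Matrix ι ι ℚ_[p]) i j
    = if i = j then ((∏ k, τ k ^ D.wt i k : ℚ_[p]ˣ) : ℚ_[p]) else 0 := by
  show Matrix.diagonal (fun i => ((∏ k, τ k ^ D.wt i k : ℚ_[p]ˣ) : ℚ_[p])) i j = _
  rw [Matrix.diagonal_apply]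

/-- TARGET.
See the hints above. -/
theorem hk_apply (k : I) (a : ℚ_[p]ˣ) (i j : ι) : (D.hk k a : Matrix ι ι ℚ_[p]) i j
    = if i = j then ((a ^ D.wt i k : ℚ_[p]ˣ) : ℚ_[p]) else 0 := by
  unfold hk hc
  rw [h_apply]
  have h1 : (∏ l, (a ^ (Pi.single k 1 : I → ℤ) l) ^ D.wt i l : ℚ_[p]ˣ) = a ^ D.wt i k := by
    rw [Finset.prod_eq_single k]
    · rw [Pi.single_eq_same, _root_.zpow_one]
    · intro l _ hl
      rw [Pi.single_eq_of_ne hl, _root_.zpow_zero, _root_.one_zpow]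
    · intro hk
      exact absurd (Finset.mem_univ k) hk
  rw [h1]

/-- TARGET.
See the hints above. -/
theorem hc_apply (c : I → ℤ) (a : ℚ_[p]ˣ) (i j : ι) : (D.hc c a : Matrix ι ι ℚ_[p]) i j
    = if i = j then ((a ^ (∑ k, D.wt i k * c k) : ℚ_[p]ˣ) : ℚ_[p]) else 0 := by
  unfold hc
  rw [h_apply]
  have h1 : (∏ l, (a ^ c l) ^ D.wt i l : ℚ_[p]ˣ) = a ^ (∑ k, D.wt i k * c k) := by
    have key : ∀ s : Finset I, (∏ l ∈ s, (a ^ c l) ^ D.wt i l : ℚ_[p]ˣ)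
        = a ^ (∑ k ∈ s, D.wt i k * c k) := by
      intro s
      classical
      induction s using Finset.induction_on with
      | empty => rw [Finset.prod_empty, Finset.sum_empty, _root_.zpow_zero]
      | insert b s hb ih =>
        rw [Finset.prod_insert hb, Finset.sum_insert hb, ih, _root_.zpow_add, ← _root_.zpow_mul,
          mul_comm (c b)]
    exact key Finset.univ
  rw [h1]

/-- TARGET.
See the hints above. -/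
theorem hk_mul (k : I) (a b : ℚ_[p]ˣ) : D.hk k (a * b) = D.hk k a * D.hk k b := by
  unfold hk hc
  rw [← map_mul]
  congr 1
  funext l
  rw [Pi.mul_apply, mul_zpow]

/-- TARGET.
See the hints above. -/
theorem hk_one (k : I) : D.hk k 1 = 1 := by
  unfold hk hc
  rw [← map_one D.h]
  congr 1
  funext l
  rw [Pi.one_apply, _root_.one_zpow]

/-- TARGET.
See the hints above. -/
theorem hc_mul (c : I → ℤ) (a b : ℚ_[p]ˣ) : D.hc c (a * b) = D.hc c a * D.hc c b := by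
  unfold hc
  rw [← map_mul]
  congr 1
  funext l
  rw [Pi.mul_apply, mul_zpow]

/-- TARGET.
See the hints above. -/
theorem hc_add (c d : I → ℤ) (a : ℚ_[p]ˣ) : D.hc (c + d) a = D.hc c a * D.hc d a := by
  unfold hc
  rw [← map_mul]
  congr 1
  funext l
  rw [Pi.mul_apply, Pi.add_apply, _root_.zpow_add]

/-- TARGET.
See the hints above. -/
theorem h_comm (σ τ : I → ℚ_[p]ˣ) : D.h σ * D.h τ = D.h τ * D.h σ := by
  rw [← map_mul, ← map_mul, mul_comm]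

/-- TARGET.
Proof. `(n k)⁻¹ = nt k (-1)` (`nt_one`, `nt_inv`) `= hk k (-1) * n k` (`nt_eq`), and `hk k (-1)` is its own inverse. -/
theorem n_sq (k : I) : D.n k * D.n k = D.hk k (-1) := by
  have h1 : (D.n k)⁻¹ = D.hk k (-1) * D.n k := by
    rw [← nt_one, nt_inv, nt_eq, nt_one]
  have h2 : D.hk k (-1) * D.hk k (-1) = 1 := by
    rw [← hk_mul, neg_one_mul, neg_neg, hk_one]
  have h3 : D.hk k (-1) * D.n k * D.n k = 1 := by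
    rw [← h1, inv_mul_cancel]
  calc D.n k * D.n k = (D.hk k (-1) * D.hk k (-1)) * (D.n k * D.n k) := by rw [h2, one_mul]
    _ = D.hk k (-1) * (D.hk k (-1) * D.n k * D.n k) := by group
    _ = D.hk k (-1) := by rw [h3, mul_one]

theorem n_hk_aux (k : I) (a : ℚ_[p]ˣ) : D.n k * D.hk k a = D.hk k a⁻¹ * D.n k := by
  apply Units.ext
  rw [Units.val_mul, Units.val_mul]
  ext i j
  rw [Matrix.mul_apply, Matrix.mul_apply]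
  have h1 : ∀ l, (D.n k : Matrix ι ι ℚ_[p]) i l * (D.hk k a : Matrix ι ι ℚ_[p]) l j
      = if l = j then (D.n k : Matrix ι ι ℚ_[p]) i l * ((a ^ D.wt l k : ℚ_[p]ˣ) : ℚ_[p]) else 0 := by
    intro l
    rw [hk_apply]
    split_ifs <;> simp
  have h2 : ∀ l, (D.hk k a⁻¹ : Matrix ι ι ℚ_[p]) i l * (D.n k : Matrix ι ι ℚ_[p]) l j
      = if i = l then ((a⁻¹ ^ D.wt i k : ℚ_[p]ˣ) : ℚ_[p]) * (D.n k : Matrix ι ι ℚ_[p]) l j else 0 := by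
    intro l
    rw [hk_apply]
    split_ifs <;> simp
  rw [Finset.sum_congr rfl fun l _ => h1 l, Finset.sum_congr rfl fun l _ => h2 l,
    Finset.sum_ite_eq' , Finset.sum_ite_eq]
  rw [if_pos (Finset.mem_univ _), if_pos (Finset.mem_univ _)]
  by_cases h0 : (D.n k : Matrix ι ι ℚ_[p]) i j = 0
  · rw [h0, zero_mul, mul_zero]
  · have h3 := nt_rep D k 1
    rw [nt_one] at h3
    have h4 := h3 i j h0
    have h5 : D.wt i k = - D.wt j k := by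
      have := congrFun h4 k
      rw [s_apply, Pi.sub_apply, Pi.smul_apply, smul_eq_mul, D.A_diag] at this
      rw [this]; ring
    rw [h5, mul_comm]
    congr 2
    rw [_root_.zpow_neg, _root_.inv_zpow, inv_inv]

/-- TARGET.
Proof. If `u = 0` or `t = 0` this is trivial (`w = 1`). Otherwise (all as in SL_2): `y(u) = x(u⁻¹) nt(-u⁻¹) x(u⁻¹)`, so `y(u) x(t) = x(u⁻¹) nt(-u⁻¹) x(s)` with `s = u⁻¹ + t = w / u ≠ 0`, and `x(s) = y(s⁻¹) nt(s) y(s⁻¹)` (`x_eq`). `nt(-u⁻¹) y(s⁻¹) = x(-u⁻² s⁻¹) nt(-u⁻¹)` (`nt_conj_y`), so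
`y(u) x(t) = x(u⁻¹ - u⁻² s⁻¹) nt(-u⁻¹) nt(s) y(s⁻¹)`. Here `u⁻¹ - u⁻² s⁻¹ = t / w`, `s⁻¹ = u / w`. `nt(-u⁻¹) nt(s) = hk(-u⁻¹) n hk(s) n = hk(-u⁻¹) hk(s⁻¹) n n = hk(-u⁻¹ s⁻¹) hk(-1) = hk(w⁻¹)`; `n hk(s) = hk(s⁻¹) n` because of the entries: an entry `(i, j)` of `n` which is not zero has `wt i k = - wt j k` (`nt_rep`). -/
theorem yx (k : I) (t u : ℚ_[p]) (w : ℚ_[p]ˣ) (hw : (w : ℚ_[p]) = 1 + t * u) :
    D.y k u * D.x k t = D.x k (t / w) * D.hk k w⁻¹ * D.y k (u / w) := by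
  by_cases hu : u = 0
  · subst hu
    have hw1 : w = 1 := Units.ext (by rw [hw, mul_zero, add_zero, Units.val_one])
    subst hw1
    rw [y_zero, inv_one, hk_one, Units.val_one, div_one, div_one, y_zero]
    group
  by_cases ht : t = 0
  · subst ht
    have hw1 : w = 1 := Units.ext (by rw [hw, zero_mul, add_zero, Units.val_one])
    subst hw1
    rw [x_zero, inv_one, hk_one, Units.val_one, div_one, div_one, x_zero]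
    group
  obtain ⟨U, hU⟩ : ∃ U : ℚ_[p]ˣ, (U : ℚ_[p]) = u := ⟨Units.mk0 u hu, rfl⟩
  have hwne : (w : ℚ_[p]) ≠ 0 := w.ne_zero
  obtain ⟨S, hS⟩ : ∃ S : ℚ_[p]ˣ, S = w * U⁻¹ := ⟨_, rfl⟩
  have hSv : (S : ℚ_[p]) = u⁻¹ + t := by
    rw [hS, Units.val_mul, Units.val_inv_eq_inv_val, hU, hw]
    field_simp
  have e1 : D.y k u * D.x k t = D.x k u⁻¹ * D.nt k (-U⁻¹) * D.x k (S : ℚ_[p]) := by
    have h1 := y_eq D k U
    rw [hU, Units.val_inv_eq_inv_val, hU] at h1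
    rw [h1, hSv, x_add]
    group
  have e2 := x_eq D k S
  have e3 := nt_conj_y D k (-U⁻¹) (((S⁻¹ : ℚ_[p]ˣ)) : ℚ_[p])
  have e4 : D.nt k (-U⁻¹) * D.y k (((S⁻¹ : ℚ_[p]ˣ)) : ℚ_[p])
      = D.x k (-(((-U⁻¹ : ℚ_[p]ˣ) : ℚ_[p]) ^ 2) * (((S⁻¹ : ℚ_[p]ˣ)) : ℚ_[p])) * D.nt k (-U⁻¹) := by
    rw [← e3]
    group
  have e5 : D.nt k (-U⁻¹) * D.nt k S = D.hk k w⁻¹ := by
    rw [nt_eq D k (-U⁻¹), nt_eq D k S]
    have : D.hk k (-U⁻¹) * D.n k * (D.hk k S * D.n k)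
        = D.hk k (-U⁻¹) * (D.n k * D.hk k S) * D.n k := by group
    rw [this, n_hk_aux]
    have : D.hk k (-U⁻¹) * (D.hk k S⁻¹ * D.n k) * D.n k
        = D.hk k (-U⁻¹) * D.hk k S⁻¹ * (D.n k * D.n k) := by group
    rw [this, n_sq, ← hk_mul, ← hk_mul]
    congr 1
    rw [hS, _root_.mul_inv_rev, inv_inv, mul_neg_one, neg_mul, neg_neg, ← mul_assoc, inv_mul_cancel,
      one_mul]
  have e6 : u⁻¹ + -(((-U⁻¹ : ℚ_[p]ˣ) : ℚ_[p]) ^ 2) * (((S⁻¹ : ℚ_[p]ˣ)) : ℚ_[p]) = t / w := by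
    rw [Units.val_neg, Units.val_inv_eq_inv_val, Units.val_inv_eq_inv_val, hU, hS, Units.val_mul,
      Units.val_inv_eq_inv_val, hU]
    field_simp
    rw [hw]
    ring
  have e7 : (((S⁻¹ : ℚ_[p]ˣ)) : ℚ_[p]) = u / w := by
    rw [Units.val_inv_eq_inv_val, hS, Units.val_mul, Units.val_inv_eq_inv_val, hU]
    field_simp
  calc D.y k u * D.x k t = D.x k u⁻¹ * D.nt k (-U⁻¹) * D.x k (S : ℚ_[p]) := e1
    _ = D.x k u⁻¹ * D.nt k (-U⁻¹) * (D.y k (((S⁻¹ : ℚ_[p]ˣ)) : ℚ_[p]) * D.nt k S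
        * D.y k (((S⁻¹ : ℚ_[p]ˣ)) : ℚ_[p])) := by rw [← e2]
    _ = D.x k u⁻¹ * (D.nt k (-U⁻¹) * D.y k (((S⁻¹ : ℚ_[p]ˣ)) : ℚ_[p])) * D.nt k S
        * D.y k (((S⁻¹ : ℚ_[p]ˣ)) : ℚ_[p]) := by group
    _ = D.x k u⁻¹ * (D.x k (-(((-U⁻¹ : ℚ_[p]ˣ) : ℚ_[p]) ^ 2) * (((S⁻¹ : ℚ_[p]ˣ)) : ℚ_[p]))
        * D.nt k (-U⁻¹)) * D.nt k S * D.y k (((S⁻¹ : ℚ_[p]ˣ)) : ℚ_[p]) := by rw [e4]
    _ = (D.x k u⁻¹ * D.x k (-(((-U⁻¹ : ℚ_[p]ˣ) : ℚ_[p]) ^ 2) * (((S⁻¹ : ℚ_[p]ˣ)) : ℚ_[p])))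
        * (D.nt k (-U⁻¹) * D.nt k S) * D.y k (((S⁻¹ : ℚ_[p]ˣ)) : ℚ_[p]) := by group
    _ = D.x k (t / w) * D.hk k w⁻¹ * D.y k (u / w) := by rw [← x_add, e6, e5, e7]

/-- TARGET.
Take inverses in `yx` for `-t`, `-u`. -/
theorem xy (k : I) (t u : ℚ_[p]) (w : ℚ_[p]ˣ) (hw : (w : ℚ_[p]) = 1 + t * u) :
    D.x k t * D.y k u = D.y k (u / w) * D.hk k w * D.x k (t / w) := by
  have h1 := yx D k (-t) (-u) w (by rw [hw]; ring)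
  have h2 := congrArg (fun g => g⁻¹) h1
  simp only [_root_.mul_inv_rev] at h2
  have a1 : (D.x k (-t))⁻¹ = D.x k t := by rw [x_neg, inv_inv]
  have a2 : (D.y k (-u))⁻¹ = D.y k u := by rw [y_neg, inv_inv]
  have a3 : (D.x k (-t / w))⁻¹ = D.x k (t / w) := by rw [neg_div, x_neg, inv_inv]
  have a4 : (D.y k (-u / w))⁻¹ = D.y k (u / w) := by rw [neg_div, y_neg, inv_inv]
  have a5 : (D.hk k w⁻¹)⁻¹ = D.hk k w := by
    rw [inv_eq_iff_mul_eq_one, ← hk_mul, inv_mul_cancel, hk_one]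
  rw [a1, a2, a3, a4, a5] at h2
  rw [h2]
  group

end Pool.Agent.Chev
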