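import Mathlib
import Pool.Agent.Helper911_Chev.Defs3
import Pool.Agent.Helper911_Chev.CA1

set_option autoImplicit false
set_option linter.unusedSectionVars false
set_option maxHeartbeats 1000000

noncomputable section

open Matrix Topology

namespace Pool.Agent.Chev

open ChevData

variable {p : ℕ} [Fact p.Prime] {I ι : Type} [Fintype I] [DecidableEq I] [Fintype ι]
  [DecidableEq ι] (D : ChevData p I ι)

/-! ======= auxiliary lemmas ======= -/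

/-- The character with weight `μ`. -/
def cb4ch (τ : I → ℚ_[p]ˣ) (μ : I → ℤ) : ℚ_[p]ˣ := ∏ l, τ l ^ μ l

theorem cb4ch_add (τ : I → ℚ_[p]ˣ) (μ ν : I → ℤ) :
    cb4ch τ (μ + ν) = cb4ch τ μ * cb4ch τ ν := by
  unfold cb4ch
  rw [← Finset.prod_mul_distrib]
  refine Finset.prod_congr rfl fun l _ => ?_
  rw [Pi.add_apply, _root_.zpow_add]

theorem cb4ch_zero (τ : I → ℚ_[p]ˣ) : cb4ch τ 0 = 1 := by
  unfold cb4ch
  simp

/-- The character as a homomorphism. -/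
def cb4hom (τ : I → ℚ_[p]ˣ) : Multiplicative (I → ℤ) →* ℚ_[p]ˣ where
  toFun μ := cb4ch τ μ.toAdd
  map_one' := cb4ch_zero τ
  map_mul' μ ν := cb4ch_add τ _ _

theorem cb4ch_zsmul (τ : I → ℚ_[p]ˣ) (n : ℤ) (μ : I → ℤ) :
    cb4ch τ (n • μ) = cb4ch τ μ ^ n := by
  unfold cb4ch
  rw [← Finset.prod_zpow]
  refine Finset.prod_congr rfl fun l _ => ?_
  rw [Pi.smul_apply, smul_eq_mul, mul_comm, _root_.zpow_mul]

theorem cb4ch_sum (τ : I → ℚ_[p]ˣ) (f : I → I → ℤ) :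
    cb4ch τ (∑ l, f l) = ∏ l, cb4ch τ (f l) := by
  have h := map_prod (cb4hom τ) (fun l => Multiplicative.ofAdd (f l)) Finset.univ
  exact h

theorem cb4ch_act (w : (I → ℤ) ≃ₗ[ℤ] (I → ℤ)) (τ : I → ℚ_[p]ˣ) (μ : I → ℤ) :
    cb4ch (act w τ) μ = cb4ch τ (w⁻¹ μ) := by
  have h1 : μ = ∑ l, μ l • (Pi.single l 1 : I → ℤ) := by
    funext m
    rw [Finset.sum_apply]
    simp only [Pi.smul_apply, smul_eq_mul, Pi.single_apply, mul_ite, mul_one, mul_zero]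
    rw [Finset.sum_ite_eq Finset.univ m (fun l => μ l)]
    simp
  have h2 : w⁻¹ μ = ∑ l, μ l • w⁻¹ (Pi.single l 1 : I → ℤ) := by
    conv_lhs => rw [h1]
    rw [map_sum]
    refine Finset.sum_congr rfl fun l _ => ?_
    rw [map_smul]
  rw [h2, cb4ch_sum]
  unfold cb4ch
  refine Finset.prod_congr rfl fun l _ => ?_
  have := cb4ch_zsmul τ (μ l) (w⁻¹ (Pi.single l 1 : I → ℤ))
  unfold cb4ch at this
  rw [this]
  rfl

theorem cb4h_val (τ : I → ℚ_[p]ˣ) : ((D.h τ : GLm p ι) : Matrix ι ι ℚ_[p]) =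
    Matrix.diagonal (fun i => ((cb4ch τ (D.wt i) : ℚ_[p]ˣ) : ℚ_[p])) := rfl

theorem cb4h_inv_val (τ : I → ℚ_[p]ˣ) :
    (((D.h τ)⁻¹ : GLm p ι) : Matrix ι ι ℚ_[p]) =
    Matrix.diagonal (fun i => (((cb4ch τ (D.wt i))⁻¹ : ℚ_[p]ˣ) : ℚ_[p])) := rfl

theorem cb4h_conj_apply (τ : I → ℚ_[p]ˣ) (X : Matrix ι ι ℚ_[p]) (i j : ι) :
    (((D.h τ : GLm p ι) : Matrix ι ι ℚ_[p]) * X *
      (((D.h τ)⁻¹ : GLm p ι) : Matrix ι ι ℚ_[p])) i j =
      ((cb4ch τ (D.wt i) : ℚ_[p]ˣ) : ℚ_[p]) * X i j *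
        (((cb4ch τ (D.wt j))⁻¹ : ℚ_[p]ˣ) : ℚ_[p]) := by
  rw [cb4h_val, cb4h_inv_val, Matrix.mul_diagonal, Matrix.diagonal_mul]

/-! ======= TARGETS ======= -/

/-- TARGET.
`exU_conj`; the entry `(i, j)` of `E k` is multiplied by `∏ τ_l ^ (wt i l - wt j l)`. -/
theorem h_conj_x (k : I) (τ : I → ℚ_[p]ˣ) (t : ℚ_[p]) :
    D.h τ * D.x k t * (D.h τ)⁻¹ = D.x k ((al D k τ : ℚ_[p]ˣ) * t) := by
  unfold ChevData.x
  rw [exU_conj (D.h τ) (tE_nil D k t)]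
  congr 1
  ext i j
  rw [cb4h_conj_apply, Matrix.smul_apply, Matrix.smul_apply, smul_eq_mul, smul_eq_mul]
  by_cases h : D.E k i j = 0
  · rw [h]; simp
  · rw [D.E_wt k i j h, cb4ch_add]
    have e : al D k τ = cb4ch τ (D.A k) := rfl
    rw [e, Units.val_mul]
    have h1 : ((cb4ch τ (D.wt j) : ℚ_[p]ˣ) : ℚ_[p]) *
        (((cb4ch τ (D.wt j))⁻¹ : ℚ_[p]ˣ) : ℚ_[p]) = 1 := Units.mul_inv _
    linear_combination ((cb4ch τ (D.A k) : ℚ_[p]ˣ) : ℚ_[p]) * t * D.E k i j * h1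

/-- TARGET.
See the hints above. -/
theorem h_conj_y (k : I) (τ : I → ℚ_[p]ˣ) (t : ℚ_[p]) :
    D.h τ * D.y k t * (D.h τ)⁻¹ = D.y k ((((al D k τ)⁻¹ : ℚ_[p]ˣ) : ℚ_[p]) * t) := by
  unfold ChevData.y
  rw [exU_conj (D.h τ) (tF_nil D k t)]
  congr 1
  ext i j
  rw [cb4h_conj_apply, Matrix.smul_apply, Matrix.smul_apply, smul_eq_mul, smul_eq_mul]
  by_cases h : D.F k i j = 0
  · rw [h]; simp
  · have hw : D.wt j = D.wt i + D.A k := by
      rw [D.F_wt k i j h]; abel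
    rw [hw, cb4ch_add]
    have e : al D k τ = cb4ch τ (D.A k) := rfl
    rw [e, _root_.mul_inv_rev, Units.val_mul]
    have h1 : ((cb4ch τ (D.wt i) : ℚ_[p]ˣ) : ℚ_[p]) *
        (((cb4ch τ (D.wt i))⁻¹ : ℚ_[p]ˣ) : ℚ_[p]) = 1 := Units.mul_inv _
    linear_combination (((cb4ch τ (D.A k))⁻¹ : ℚ_[p]ˣ) : ℚ_[p]) * t * D.F k i j * h1

/-- TARGET.
See the hints above. -/
theorem rep_one : D.Rep (1 : GLm p ι) 1 := by
  intro i j h
  rw [Units.val_one, Matrix.one_apply] at h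
  have : i = j := by by_contra hne; simp [hne] at h
  rw [this]
  rfl

/-- TARGET.
See the hints above. -/
theorem rep_mul {g g' : GLm p ι} {w w' : (I → ℤ) ≃ₗ[ℤ] (I → ℤ)} (h : D.Rep g w)
    (h' : D.Rep g' w') : D.Rep (g * g') (w * w') := by
  intro i j hij
  rw [Units.val_mul, Matrix.mul_apply] at hij
  obtain ⟨k, -, hk⟩ := Finset.exists_ne_zero_of_sum_ne_zero hij
  rw [h i k (left_ne_zero_of_mul hk), h' k j (right_ne_zero_of_mul hk)]
  rfl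

/-- TARGET.
Proof. Let `δ k` be the diagonal matrix with entries `(w (wt j)) k` and `Hm k` the one with entries `wt i k`. `Rep g w` means `g * δ k = Hm k * g` for all `k`. So `δ k * g⁻¹ = g⁻¹ * Hm k`: an entry `(i, j)` of `g⁻¹` which is not zero has `w (wt i) = wt j`. -/
theorem rep_inv {g : GLm p ι} {w : (I → ℤ) ≃ₗ[ℤ] (I → ℤ)} (h : D.Rep g w) :
    D.Rep g⁻¹ w⁻¹ := by
  intro i j hij
  have key : w (D.wt i) = D.wt j := by
    funext k
    have h1 : (g : Matrix ι ι ℚ_[p]) *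
        Matrix.diagonal (fun j => ((w (D.wt j) k : ℤ) : ℚ_[p])) =
        Matrix.diagonal (fun i => ((D.wt i k : ℤ) : ℚ_[p])) * (g : Matrix ι ι ℚ_[p]) := by
      ext a b
      rw [Matrix.mul_diagonal, Matrix.diagonal_mul]
      by_cases hab : (g : Matrix ι ι ℚ_[p]) a b = 0
      · rw [hab]; simp
      · rw [h a b hab]; ring
    have h2 : Matrix.diagonal (fun j => ((w (D.wt j) k : ℤ) : ℚ_[p])) *
        ((g⁻¹ : GLm p ι) : Matrix ι ι ℚ_[p]) =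
        ((g⁻¹ : GLm p ι) : Matrix ι ι ℚ_[p]) *
          Matrix.diagonal (fun i => ((D.wt i k : ℤ) : ℚ_[p])) := by
      calc _ = ((g⁻¹ : GLm p ι) : Matrix ι ι ℚ_[p]) * ((g : Matrix ι ι ℚ_[p]) *
            Matrix.diagonal (fun j => ((w (D.wt j) k : ℤ) : ℚ_[p]))) *
            ((g⁻¹ : GLm p ι) : Matrix ι ι ℚ_[p]) := by
              rw [← mul_assoc, Units.inv_mul, one_mul]
        _ = _ := by
          rw [h1, mul_assoc, mul_assoc, Units.mul_inv, mul_one]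
    have h3 := congrFun (congrFun h2 i) j
    rw [Matrix.mul_diagonal, Matrix.diagonal_mul, mul_comm] at h3
    have h4 := mul_left_cancel₀ hij h3
    exact_mod_cast h4
  rw [← key]
  have e : w⁻¹ (w (D.wt i)) = (w⁻¹ * w) (D.wt i) := rfl
  rw [e, inv_mul_cancel]
  rfl

/-- TARGET.
Proof. For every `j` some entry `g i j` is not zero (`g` is invertible), so `w (wt j) = wt i = w' (wt j)`. The `wt j` generate `I → ℤ` (`D.span`). -/
theorem rep_unique {g : GLm p ι} {w w' : (I → ℤ) ≃ₗ[ℤ] (I → ℤ)} (h : D.Rep g w)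
    (h' : D.Rep g w') : w = w' := by
  have h1 : ∀ j, w (D.wt j) = w' (D.wt j) := by
    intro j
    have h2 : (((g⁻¹ : GLm p ι) : Matrix ι ι ℚ_[p]) * (g : Matrix ι ι ℚ_[p])) j j ≠ 0 := by
      rw [Units.inv_mul, Matrix.one_apply_eq]
      exact one_ne_zero
    rw [Matrix.mul_apply] at h2
    obtain ⟨i, -, hi⟩ := Finset.exists_ne_zero_of_sum_ne_zero h2
    rw [← h i j (right_ne_zero_of_mul hi), ← h' i j (right_ne_zero_of_mul hi)]
  apply LinearEquiv.ext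
  intro μ
  have hμ : μ ∈ AddSubgroup.closure (Set.range D.wt) := by rw [D.span]; trivial
  refine AddSubgroup.closure_induction (p := fun μ _ => w μ = w' μ) ?_ ?_ ?_ ?_ hμ
  · rintro _ ⟨j, rfl⟩
    exact h1 j
  · rw [map_zero, map_zero]
  · intro a b _ _ ha hb
    rw [map_add, map_add, ha, hb]
  · intro a _ ha
    rw [map_neg, map_neg, ha]

/-- TARGET.
See the hints above. -/
theorem rep_h (τ : I → ℚ_[p]ˣ) : D.Rep (D.h τ) 1 := by
  intro i j h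
  rw [cb4h_val, Matrix.diagonal_apply] at h
  have : i = j := by by_contra hne; simp [hne] at h
  rw [this]
  rfl

/-- TARGET.
Proof. `g * h τ = h (act w τ) * g`: at an entry `(i, j)` of `g` which is not zero, `wt j = w⁻¹ (wt i)`, and `∏_m τ_m ^ (w⁻¹ μ)_m = ∏_l (∏_m τ_m ^ (w⁻¹ (single l 1))_m) ^ μ_l` by linearity (`μ = ∑ μ_l • single l 1`). -/
theorem rep_conj {g : GLm p ι} {w : (I → ℤ) ≃ₗ[ℤ] (I → ℤ)} (h : D.Rep g w)
    (τ : I → ℚ_[p]ˣ) : g * D.h τ * g⁻¹ = D.h (act w τ) := by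
  rw [mul_inv_eq_iff_eq_mul]
  apply Units.ext
  rw [Units.val_mul, Units.val_mul, cb4h_val, cb4h_val]
  ext i j
  rw [Matrix.mul_diagonal, Matrix.diagonal_mul]
  by_cases hij : (g : Matrix ι ι ℚ_[p]) i j = 0
  · rw [hij]; simp
  · rw [h i j hij, cb4ch_act]
    have e : w⁻¹ (w (D.wt j)) = (w⁻¹ * w) (D.wt j) := rfl
    rw [e, inv_mul_cancel, mul_comm]
    rfl

/-- TARGET.
Use `rep_inv`. -/
theorem supp_cj {g : GLm p ι} {w : (I → ℤ) ≃ₗ[ℤ] (I → ℤ)} (h : D.Rep g w)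
    {S : Set (I → ℤ)} {X : Matrix ι ι ℚ_[p]} (hX : D.Supp S X) : D.Supp (w '' S) (cj g X) := by
  intro i j hij
  unfold cj at hij
  rw [Matrix.mul_apply] at hij
  obtain ⟨l, -, hl⟩ := Finset.exists_ne_zero_of_sum_ne_zero hij
  have h1 := left_ne_zero_of_mul hl
  have h2 := right_ne_zero_of_mul hl
  rw [Matrix.mul_apply] at h1
  obtain ⟨k, -, hk⟩ := Finset.exists_ne_zero_of_sum_ne_zero h1
  have h3 := h i k (left_ne_zero_of_mul hk)
  have h4 := hX k l (right_ne_zero_of_mul hk)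
  have h5 := rep_inv D h l j h2
  refine ⟨D.wt k - D.wt l, h4, ?_⟩
  rw [map_sub, ← h3, h5]
  have e : w (w⁻¹ (D.wt j)) = (w * w⁻¹) (D.wt j) := rfl
  rw [e, mul_inv_cancel]
  rfl

end Pool.Agent.Chev
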