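import Mathlib
import Pool.Agent.Helper911_Chev.Defs3
import Pool.Agent.Helper911_Chev.CA1
import Pool.Agent.Helper911_Chev.CA2
import Pool.Agent.Helper911_Chev.CB1
import Pool.Agent.Helper911_Chev.CB2
import Pool.Agent.Helper911_Chev.CB3
import Pool.Agent.Helper911_Chev.CB4

set_option autoImplicit false
set_option linter.unusedSectionVars false
set_option maxHeartbeats 1000000

noncomputable section

open Matrix Topology

namespace Pool.Agent.Chev

open ChevData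

variable {p : ℕ} [Fact p.Prime] {I ι : Type} [Fintype I] [DecidableEq I] [Fintype ι]
  [DecidableEq ι] (D : ChevData p I ι)

/-! ======= TARGETS ======= -/

/-- TARGET.
`nt_rep`, `nt_one`, `rep_h`, `rep_mul`, `rep_inv`. -/
theorem NN_rep {g : GLm p ι} (hg : g ∈ D.NN) : ∃ w ∈ D.W, D.Rep g w := by
  unfold NN at hg
  induction hg using Subgroup.closure_induction with
  | mem x hx =>
    rcases hx with hx | hx
    · obtain ⟨τ, rfl⟩ := hx
      exact ⟨1, one_mem _, rep_h D τ⟩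
    · obtain ⟨k, rfl⟩ := hx
      refine ⟨D.s k, Subgroup.subset_closure ⟨k, rfl⟩, ?_⟩
      rw [← nt_one D k]
      exact nt_rep D k 1
  | one => exact ⟨1, one_mem _, rep_one D⟩
  | mul x y _ _ hx hy =>
    obtain ⟨w, hw, h1⟩ := hx
    obtain ⟨w', hw', h2⟩ := hy
    exact ⟨w * w', mul_mem hw hw', rep_mul D h1 h2⟩
  | inv x _ hx =>
    obtain ⟨w, hw, h1⟩ := hx
    exact ⟨w⁻¹, inv_mem hw, rep_inv D h1⟩

/-- TARGET.
See the hints above. -/
theorem NN_rep_mem {g : GLm p ι} (hg : g ∈ D.NN) {w : (I → ℤ) ≃ₗ[ℤ] (I → ℤ)}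
    (h : D.Rep g w) : w ∈ D.W := by
  obtain ⟨w', hw', h'⟩ := NN_rep D hg
  rw [rep_unique D h h']
  exact hw'

/-- TARGET.
See the hints above. -/
theorem W_rep {w : (I → ℤ) ≃ₗ[ℤ] (I → ℤ)} (hw : w ∈ D.W) :
    ∃ g ∈ Subgroup.closure (Set.range D.n), D.Rep g w := by
  unfold W at hw
  induction hw using Subgroup.closure_induction with
  | mem x hx =>
    obtain ⟨k, rfl⟩ := hx
    refine ⟨D.n k, Subgroup.subset_closure ⟨k, rfl⟩, ?_⟩
    rw [← nt_one D k]
    exact nt_rep D k 1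
  | one => exact ⟨1, one_mem _, rep_one D⟩
  | mul x y _ _ hx hy =>
    obtain ⟨w, hw, h1⟩ := hx
    obtain ⟨w', hw', h2⟩ := hy
    exact ⟨w * w', mul_mem hw hw', rep_mul D h1 h2⟩
  | inv x _ hx =>
    obtain ⟨w, hw, h1⟩ := hx
    exact ⟨w⁻¹, inv_mem hw, rep_inv D h1⟩

/-- TARGET.
See the hints above. -/
theorem n_mem_NN (k : I) : D.n k ∈ D.NN := Subgroup.subset_closure (Or.inr ⟨k, rfl⟩)

/-- TARGET.
See the hints above. -/
theorem nt_mem_NN (k : I) (t : ℚ_[p]ˣ) : D.nt k t ∈ D.NN := by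
  rw [nt_eq]
  exact mul_mem (Subgroup.subset_closure (Or.inl ⟨_, rfl⟩)) (n_mem_NN D k)

/-- TARGET.
See the hints above. -/
theorem h_mem_NN (τ : I → ℚ_[p]ˣ) : D.h τ ∈ D.NN := Subgroup.subset_closure (Or.inl ⟨τ, rfl⟩)

/-- TARGET.
`rep_conj`. -/
theorem NN_norm_T {g : GLm p ι} (hg : g ∈ D.NN) {t : GLm p ι} (ht : t ∈ D.T) :
    g * t * g⁻¹ ∈ D.T := by
  obtain ⟨τ, rfl⟩ := ht
  obtain ⟨w, -, hw⟩ := NN_rep D hg
  rw [rep_conj D hw τ]
  exact ⟨_, rfl⟩

/-- TARGET.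
If `E k = 0` then `EF_same` gives `wt i k = 0` for all `i`, contradicting `D.span`. -/
theorem E_ne (k : I) : D.E k ≠ 0 := by
  intro h
  have h1 := D.EF_same k
  rw [h, zero_mul, mul_zero, sub_zero] at h1
  have h2 : ∀ i, D.wt i k = 0 := by
    intro i
    have h3 := congrFun (congrFun h1 i) i
    rw [Matrix.diagonal_apply_eq, Matrix.zero_apply] at h3
    exact_mod_cast h3.symm
  have h3 : AddSubgroup.closure (Set.range D.wt) ≤ (Pi.evalAddMonoidHom (fun _ : I => ℤ) k).ker := by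
    rw [AddSubgroup.closure_le]
    rintro _ ⟨i, rfl⟩
    exact h2 i
  rw [D.span] at h3
  have h4 : (Pi.single k 1 : I → ℤ) ∈ (Pi.evalAddMonoidHom (fun _ : I => ℤ) k).ker :=
    h3 (AddSubgroup.mem_top _)
  rw [AddMonoidHom.mem_ker, Pi.evalAddMonoidHom_apply, Pi.single_eq_same] at h4
  exact one_ne_zero h4

end Pool.Agent.Chev
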