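import Mathlib
import Pool.Agent.Helper911_Chev.Defs3
import Pool.Agent.Helper911_Chev.CA1
import Pool.Agent.Helper911_Chev.CA4
import Pool.Agent.Helper911_Chev.CB1

set_option autoImplicit false
set_option linter.unusedSectionVars false
set_option maxHeartbeats 1000000

noncomputable section

open Matrix Topology

namespace Pool.Agent.Chev

open ChevData

variable {p : ℕ} [Fact p.Prime] {I ι : Type} [Fintype I] [DecidableEq I] [Fintype ι]
  [DecidableEq ι] (D : ChevData p I ι)

/-! ======= TARGETS ======= -/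

/-- the commutator as a linear map -/
def tdad (X : Matrix ι ι ℚ_[p]) : Matrix ι ι ℚ_[p] →ₗ[ℚ_[p]] Matrix ι ι ℚ_[p] :=
  LinearMap.mulLeft ℚ_[p] X - LinearMap.mulRight ℚ_[p] X

theorem tdad_apply (X Y : Matrix ι ι ℚ_[p]) : tdad X Y = X * Y - Y * X := rfl

/-- the monomials in the `E k` with their weights -/
inductive tdE (D : ChevData p I ι) : (I → ℤ) → Matrix ι ι ℚ_[p] → Prop
  | base (k : I) : tdE D (Pi.single k 1) (D.E k)
  | step (k : I) (c : I → ℤ) (Z : Matrix ι ι ℚ_[p]) : tdE D c Z →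
      tdE D (Pi.single k 1 + c) (D.E k * Z - Z * D.E k)

theorem td_supp_sub {D : ChevData p I ι} {S : Set (I → ℤ)} {X Y : Matrix ι ι ℚ_[p]}
    (hX : D.Supp S X) (hY : D.Supp S Y) : D.Supp S (X - Y) := by
  intro i j hij
  by_cases h : X i j = 0
  · apply hY i j
    intro h'
    apply hij
    rw [Matrix.sub_apply, h, h', sub_zero]
  · exact hX i j h

theorem tdE_facts {D : ChevData p I ι} {c : I → ℤ} {Z : Matrix ι ι ℚ_[p]} (h : tdE D c Z) :
    (∀ k, 0 ≤ c k) ∧ (1 ≤ ∑ k, c k) ∧ D.Supp {D.rt c} Z := by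
  induction h with
  | base k =>
    refine ⟨fun l => ?_, ?_, ?_⟩
    · by_cases h : l = k
      · subst h; simp
      · simp [Pi.single_apply, h]
    · simp
    · intro i j hij
      rw [Set.mem_singleton_iff, D.rt_single, D.E_wt k i j hij]
      abel
  | step k c Z _ ih =>
    obtain ⟨h1, h2, h3⟩ := ih
    have hk : D.Supp {D.rt (Pi.single k 1)} (D.E k) := by
      intro i j hij
      rw [Set.mem_singleton_iff, D.rt_single, D.E_wt k i j hij]
      abel
    refine ⟨fun l => ?_, ?_, ?_⟩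
    · have : (0 : ℤ) ≤ (Pi.single k 1 : I → ℤ) l := by
        by_cases h : l = k
        · subst h; simp
        · simp [Pi.single_apply, h]
      rw [Pi.add_apply]
      exact add_nonneg this (h1 l)
    · simp only [Pi.add_apply, Finset.sum_add_distrib]
      have : ∑ l, (Pi.single k 1 : I → ℤ) l = 1 := by simp
      rw [this]
      omega
    · refine td_supp_sub ?_ ?_
      · refine Supp.mul D hk h3 ?_
        rintro a rfl b rfl
        rw [Set.mem_singleton_iff, D.rt_add]
      · refine Supp.mul D h3 hk ?_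
        rintro a rfl b rfl
        rw [Set.mem_singleton_iff, D.rt_add, add_comm]

theorem tdE_ne {D : ChevData p I ι} {c : I → ℤ} {Z : Matrix ι ι ℚ_[p]} (h : tdE D c Z) :
    c ≠ 0 := by
  rintro rfl
  have := (tdE_facts h).2.1
  simp at this

/-- a monomial whose weight is a multiple of one simple root -/
theorem tdE_single {D : ChevData p I ι} {c : I → ℤ} {Z : Matrix ι ι ℚ_[p]} (h : tdE D c Z) (k : I)
    (hc : ∀ l, l ≠ k → c l = 0) : (c = Pi.single k 1 ∧ Z = D.E k) ∨ (2 ≤ c k ∧ Z = 0) := by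
  induction h with
  | base l =>
    by_cases hlk : l = k
    · subst hlk
      exact Or.inl ⟨rfl, rfl⟩
    · have := hc l hlk
      simp at this
  | step l c Z hZ ih =>
    obtain ⟨h1, h2, -⟩ := tdE_facts hZ
    have hnn : ∀ m, (0 : ℤ) ≤ (Pi.single l 1 : I → ℤ) m := by
      intro m
      by_cases h : m = l
      · subst h; simp
      · simp [Pi.single_apply, h]
    have hlk : l = k := by
      by_contra hne
      have h3 := hc l hne
      rw [Pi.add_apply, Pi.single_eq_same] at h3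
      have := h1 l
      omega
    subst hlk
    have hc' : ∀ m, m ≠ l → c m = 0 := by
      intro m hm
      have h3 := hc m hm
      rw [Pi.add_apply] at h3
      have h4 := h1 m
      have h5 := hnn m
      omega
    right
    rcases ih hc' with ⟨h3, h4⟩ | ⟨h3, h4⟩
    · refine ⟨?_, by rw [h4, sub_self]⟩
      rw [Pi.add_apply, h3, Pi.single_eq_same]
      norm_num
    · refine ⟨?_, by rw [h4, mul_zero, zero_mul, sub_zero]⟩
      rw [Pi.add_apply, Pi.single_eq_same]
      omega

/-- the upper triangular part -/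
def tdB (D : ChevData p I ι) : Submodule ℚ_[p] (Matrix ι ι ℚ_[p]) :=
  Submodule.span ℚ_[p] {Z | ∃ c, tdE D c Z} ⊔ Submodule.span ℚ_[p] (Set.range (Hm D))

theorem tdB_mon {D : ChevData p I ι} {c : I → ℤ} {Z : Matrix ι ι ℚ_[p]} (h : tdE D c Z) :
    Z ∈ tdB D := Submodule.mem_sup_left (Submodule.subset_span ⟨c, h⟩)

theorem tdB_Hm (D : ChevData p I ι) (l : I) : Hm D l ∈ tdB D :=
  Submodule.mem_sup_right (Submodule.subset_span ⟨l, rfl⟩)

theorem tdB_le {D : ChevData p I ι} {T : Submodule ℚ_[p] (Matrix ι ι ℚ_[p])}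
    (h1 : ∀ c Z, tdE D c Z → Z ∈ T) (h2 : ∀ l, Hm D l ∈ T) : tdB D ≤ T := by
  refine sup_le (Submodule.span_le.2 ?_) (Submodule.span_le.2 ?_)
  · rintro Z ⟨c, hZ⟩
    exact h1 c Z hZ
  · rintro _ ⟨l, rfl⟩
    exact h2 l

theorem tdB_adE (D : ChevData p I ι) (k : I) : tdB D ≤ (tdB D).comap (tdad (D.E k)) := by
  refine tdB_le (fun c Z hZ => ?_) fun l => ?_
  · exact tdB_mon (tdE.step k c Z hZ)
  · rw [Submodule.mem_comap, tdad_apply]
    have h1 : D.E k * Hm D l - Hm D l * D.E k = -((D.A k l : ℚ_[p]) • D.E k) := by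
      rw [← HE D k l]
      abel
    rw [h1]
    exact neg_mem (Submodule.smul_mem _ _ (tdB_mon (tdE.base k)))

theorem td_Hm_ad (D : ChevData p I ι) {ν : I → ℤ} {Z : Matrix ι ι ℚ_[p]} (h : D.Supp {ν} Z)
    (l : I) : Hm D l * Z - Z * Hm D l = (ν l : ℚ_[p]) • Z := by
  ext i j
  rw [Hm, Matrix.sub_apply, Matrix.diagonal_mul, Matrix.mul_diagonal, Matrix.smul_apply, smul_eq_mul]
  by_cases h0 : Z i j = 0
  · rw [h0]; ring
  · have h1 : D.wt i - D.wt j = ν := h i j h0
    rw [← h1, Pi.sub_apply]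
    push_cast
    ring

theorem tdB_adF (D : ChevData p I ι) (k : I) {c : I → ℤ} {Z : Matrix ι ι ℚ_[p]}
    (h : tdE D c Z) : tdad (D.F k) Z ∈ tdB D := by
  have hFE : ∀ l, tdad (D.F k) (D.E l) = 0 ∨ tdad (D.F k) (D.E l) = -Hm D k := by
    intro l
    rw [tdad_apply]
    by_cases hkl : k = l
    · subst hkl
      right
      have h1 : D.E k * D.F k - D.F k * D.E k = Hm D k := D.EF_same k
      rw [← h1]
      abel
    · left
      rw [D.EF_ne l k (Ne.symm hkl), sub_self]
  induction h with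
  | base l =>
    rcases hFE l with h1 | h1
    · rw [h1]; exact zero_mem _
    · rw [h1]; exact neg_mem (tdB_Hm D k)
  | step l c Z hZ ih =>
    have h2 : tdad (D.F k) (D.E l * Z - Z * D.E l) =
        tdad (tdad (D.F k) (D.E l)) Z + tdad (D.E l) (tdad (D.F k) Z) := by
      simp only [tdad_apply]
      noncomm_ring
    rw [h2]
    refine add_mem ?_ (tdB_adE D l ih)
    rcases hFE l with h1 | h1
    · rw [h1, tdad_apply, zero_mul, mul_zero, sub_zero]
      exact zero_mem _
    · have h3 : tdad (-Hm D k) Z = -(Hm D k * Z - Z * Hm D k) := by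
        rw [tdad_apply]
        noncomm_ring
      rw [h1, h3, td_Hm_ad D (tdE_facts hZ).2.2 k]
      exact neg_mem (Submodule.smul_mem _ _ (tdB_mon hZ))

/-- the whole algebra -/
def tdL (D : ChevData p I ι) : Submodule ℚ_[p] (Matrix ι ι ℚ_[p]) := tdB D ⊔ tdB D.dual

theorem td_Hm_dual (D : ChevData p I ι) (l : I) : Hm D.dual l = -Hm D l := by
  have h : ∀ i, ((D.dual.wt i l : ℤ) : ℚ_[p]) = -((D.wt i l : ℤ) : ℚ_[p]) := by
    intro i
    have h1 : D.dual.wt i l = -D.wt i l := rfl
    rw [h1, Int.cast_neg]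
  unfold Hm
  rw [Matrix.diagonal_neg, funext h]

theorem tdL_adE (D : ChevData p I ι) (k : I) : tdL D ≤ (tdL D).comap (tdad (D.E k)) := by
  refine sup_le ?_ (tdB_le (fun c Z hZ => ?_) fun l => ?_)
  · exact (tdB_adE D k).trans (Submodule.comap_mono le_sup_left)
  · exact Submodule.mem_sup_right (tdB_adF D.dual k hZ)
  · rw [Submodule.mem_comap, tdad_apply, td_Hm_dual]
    have h1 : D.E k * -Hm D l - -Hm D l * D.E k = (D.A k l : ℚ_[p]) • D.E k := by
      rw [← HE D k l]
      noncomm_ring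
    rw [h1]
    exact Submodule.smul_mem _ _ (Submodule.mem_sup_left (tdB_mon (tdE.base k)))

theorem tdL_adF (D : ChevData p I ι) (k : I) : tdL D ≤ (tdL D).comap (tdad (D.F k)) := by
  refine sup_le (tdB_le (fun c Z hZ => ?_) fun l => ?_) ?_
  · exact Submodule.mem_sup_left (tdB_adF D k hZ)
  · rw [Submodule.mem_comap, tdad_apply]
    have h1 : D.F k * Hm D l - Hm D l * D.F k = (D.A k l : ℚ_[p]) • D.F k := by
      have h2 := HF D k l
      have h3 : D.F k * Hm D l - Hm D l * D.F k = -(Hm D l * D.F k - D.F k * Hm D l) := by abel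
      rw [h3, h2, neg_neg]
    rw [h1]
    exact Submodule.smul_mem _ _ (Submodule.mem_sup_right (tdB_mon (tdE.base (D := D.dual) k)))
  · exact (tdB_adE D.dual k).trans (Submodule.comap_mono le_sup_right)

theorem Lg_le_tdL (D : ChevData p I ι) : Lg D ≤ tdL D := by
  set Fam : Set (Submodule ℚ_[p] (Matrix ι ι ℚ_[p])) := {L | (∀ k, D.E k ∈ L) ∧ (∀ k, D.F k ∈ L) ∧
    (∀ k, L ≤ L.comap (tdad (D.E k))) ∧ (∀ k, L ≤ L.comap (tdad (D.F k)))} with hFam
  set L' := sInf Fam with hL'
  have hmem : ∀ X, X ∈ L' ↔ ∀ L ∈ Fam, X ∈ L := fun X => Submodule.mem_sInf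
  have hE : ∀ k, D.E k ∈ L' := fun k => (hmem _).2 fun L hL => hL.1 k
  have hF : ∀ k, D.F k ∈ L' := fun k => (hmem _).2 fun L hL => hL.2.1 k
  have hsE : ∀ k, ∀ X ∈ L', tdad (D.E k) X ∈ L' := fun k X hX =>
    (hmem _).2 fun L hL => hL.2.2.1 k ((hmem _).1 hX L hL)
  have hsF : ∀ k, ∀ X ∈ L', tdad (D.F k) X ∈ L' := fun k X hX =>
    (hmem _).2 fun L hL => hL.2.2.2 k ((hmem _).1 hX L hL)
  -- the set of matrices that preserve `L'`
  let K : Submodule ℚ_[p] (Matrix ι ι ℚ_[p]) :=
    { carrier := {X | ∀ Y ∈ L', tdad X Y ∈ L'}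
      add_mem' := by
        intro X X' hX hX' Y hY
        have h1 : tdad (X + X') Y = tdad X Y + tdad X' Y := by
          simp only [tdad_apply]
          noncomm_ring
        rw [h1]
        exact add_mem (hX Y hY) (hX' Y hY)
      zero_mem' := by
        intro Y _
        have h1 : tdad (0 : Matrix ι ι ℚ_[p]) Y = 0 := by
          rw [tdad_apply, zero_mul, mul_zero, sub_zero]
        rw [h1]
        exact zero_mem _
      smul_mem' := by
        intro a X hX Y hY
        have h1 : tdad (a • X) Y = a • tdad X Y := by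
          simp only [tdad_apply, Matrix.smul_mul, Matrix.mul_smul, smul_sub]
        rw [h1]
        exact Submodule.smul_mem _ _ (hX Y hY) }
  have hjac : ∀ A X Y : Matrix ι ι ℚ_[p],
      tdad (tdad A X) Y = tdad A (tdad X Y) - tdad X (tdad A Y) := by
    intro A X Y
    simp only [tdad_apply]
    noncomm_ring
  have hK : K ∈ Fam := by
    refine ⟨fun k Y hY => hsE k Y hY, fun k Y hY => hsF k Y hY, fun k X hX Y hY => ?_,
      fun k X hX Y hY => ?_⟩
    · rw [hjac]
      exact sub_mem (hsE k _ (hX Y hY)) (hX _ (hsE k Y hY))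
    · rw [hjac]
      exact sub_mem (hsF k _ (hX Y hY)) (hX _ (hsF k Y hY))
  have hL'1 : Lg D ≤ L' := by
    refine sInf_le ⟨hE, hF, fun X hX Y hY => ?_⟩
    exact (hmem X).1 hX K hK Y hY
  refine hL'1.trans (sInf_le ⟨fun k => ?_, fun k => ?_, tdL_adE D, tdL_adF D⟩)
  · exact Submodule.mem_sup_left (tdB_mon (tdE.base k))
  · exact Submodule.mem_sup_right (tdB_mon (tdE.base (D := D.dual) k))

open Classical in
/-- the part of weight `μ` -/
def tdpr (D : ChevData p I ι) (μ : I → ℤ) : Matrix ι ι ℚ_[p] →ₗ[ℚ_[p]] Matrix ι ι ℚ_[p] where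
  toFun X := Matrix.of fun i j => if D.wt i - D.wt j = μ then X i j else 0
  map_add' X Y := by
    ext i j
    simp only [Matrix.of_apply, Matrix.add_apply]
    split_ifs
    · rfl
    · rw [add_zero]
  map_smul' a X := by
    ext i j
    simp only [Matrix.of_apply, Matrix.smul_apply, RingHom.id_apply, smul_eq_mul]
    split_ifs
    · rfl
    · rw [mul_zero]

theorem tdpr_self {D : ChevData p I ι} {μ : I → ℤ} {X : Matrix ι ι ℚ_[p]} (h : D.Supp {μ} X) :
    tdpr D μ X = X := by
  ext i j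
  change (if D.wt i - D.wt j = μ then X i j else 0) = X i j
  split_ifs with h1
  · rfl
  · by_contra h2
    exact h1 (h i j (Ne.symm h2))

theorem tdpr_ne {D : ChevData p I ι} {μ ν : I → ℤ} {X : Matrix ι ι ℚ_[p]} (h : D.Supp {ν} X)
    (hne : ν ≠ μ) : tdpr D μ X = 0 := by
  ext i j
  change (if D.wt i - D.wt j = μ then X i j else 0) = 0
  split_ifs with h1
  · by_contra h2
    exact hne ((h i j h2 : D.wt i - D.wt j = ν).symm.trans h1)
  · rfl

theorem td_supp_dual {D : ChevData p I ι} {ν : I → ℤ} {X : Matrix ι ι ℚ_[p]}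
    (h : D.dual.Supp {ν} X) : D.Supp {-ν} X := by
  intro i j hij
  have h1 : -D.wt i - -D.wt j = ν := h i j hij
  rw [Set.mem_singleton_iff, ← h1]
  abel

theorem tdpr_main (D : ChevData p I ι) (T : Submodule ℚ_[p] (Matrix ι ι ℚ_[p])) (μ : I → ℤ)
    (hE : ∀ c Z, tdE D c Z → D.rt c = μ → Z ∈ T)
    (hF : ∀ c Z, tdE D.dual c Z → -D.rt c = μ → Z ∈ T)
    (hH : μ = 0 → ∀ l, Hm D l ∈ T) {X : Matrix ι ι ℚ_[p]} (hX : X ∈ Lg D)
    (hμ : D.Supp {μ} X) : X ∈ T := by
  have hHs : ∀ l, D.Supp {0} (Hm D l) := by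
    intro l i j hij
    rw [Hm] at hij
    have h1 : i = j := by
      by_contra hne
      exact hij (Matrix.diagonal_apply_ne _ hne)
    rw [h1, Set.mem_singleton_iff, sub_self]
  have hle : tdL D ≤ T.comap (tdpr D μ) := by
    refine sup_le (tdB_le (fun c Z hZ => ?_) fun l => ?_) (tdB_le (fun c Z hZ => ?_) fun l => ?_)
    · rw [Submodule.mem_comap]
      have h1 := (tdE_facts hZ).2.2
      by_cases h2 : D.rt c = μ
      · rw [tdpr_self (h2 ▸ h1)]
        exact hE c Z hZ h2
      · rw [tdpr_ne h1 h2]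
        exact zero_mem _
    · rw [Submodule.mem_comap]
      by_cases h2 : (0 : I → ℤ) = μ
      · rw [tdpr_self (h2 ▸ hHs l)]
        exact hH h2.symm l
      · rw [tdpr_ne (hHs l) h2]
        exact zero_mem _
    · rw [Submodule.mem_comap]
      have h1 : D.Supp {-D.rt c} Z := td_supp_dual (tdE_facts hZ).2.2
      by_cases h2 : -D.rt c = μ
      · rw [tdpr_self (h2 ▸ h1)]
        exact hF c Z hZ h2
      · rw [tdpr_ne h1 h2]
        exact zero_mem _
    · rw [Submodule.mem_comap, td_Hm_dual, map_neg]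
      refine neg_mem ?_
      by_cases h2 : (0 : I → ℤ) = μ
      · rw [tdpr_self (h2 ▸ hHs l)]
        exact hH h2.symm l
      · rw [tdpr_ne (hHs l) h2]
        exact zero_mem _
  have h3 := hle (Lg_le_tdL D hX)
  rwa [Submodule.mem_comap, tdpr_self hμ] at h3

/-- TARGET.
See the hints above. -/
theorem Lg_E (k : I) : D.E k ∈ Lg D := Submodule.mem_sInf.2 fun _ hL => hL.1 k

/-- TARGET.
See the hints above. -/
theorem Lg_F (k : I) : D.F k ∈ Lg D := Submodule.mem_sInf.2 fun _ hL => hL.2.1 k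

/-- TARGET.
See the hints above. -/
theorem Lg_br {X Y : Matrix ι ι ℚ_[p]} (hX : X ∈ Lg D) (hY : Y ∈ Lg D) :
    X * Y - Y * X ∈ Lg D := Submodule.mem_sInf.2 fun L hL =>
  hL.2.2 X (Submodule.mem_sInf.1 hX L hL) Y (Submodule.mem_sInf.1 hY L hL)

/-- TARGET.
See the hints above. -/
theorem Lg_weights {X : Matrix ι ι ℚ_[p]} (hX : X ∈ Lg D) (μ : I → ℤ) (hμ : D.Supp {μ} X)
    (h0 : X ≠ 0) : μ = 0 ∨ D.Pos μ ∨ D.Pos (-μ) := by
  by_contra hcon
  push Not at hcon
  obtain ⟨h1, h2, h3⟩ := hcon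
  apply h0
  have h4 : X ∈ (⊥ : Submodule ℚ_[p] (Matrix ι ι ℚ_[p])) := by
    refine tdpr_main D ⊥ μ (fun c Z hZ h => ?_) (fun c Z hZ h => ?_) (fun h => absurd h h1) hX hμ
    · exact absurd ⟨c, (tdE_facts hZ).1, tdE_ne hZ, h.symm⟩ h2
    · refine absurd ⟨c, (tdE_facts hZ).1, tdE_ne hZ, ?_⟩ h3
      rw [← h, neg_neg]
  exact (Submodule.mem_bot _).1 h4

/-- TARGET.
See the hints above. -/
theorem Lg_simple {X : Matrix ι ι ℚ_[p]} (hX : X ∈ Lg D) (k : I) (hμ : D.Supp {D.A k} X) :
    ∃ c : ℚ_[p], X = c • D.E k := by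
  have h4 : X ∈ Submodule.span ℚ_[p] {D.E k} := by
    refine tdpr_main D _ (D.A k) (fun c Z hZ h => ?_) (fun c Z hZ h => ?_) (fun h => ?_) hX hμ
    · have h1 : c = Pi.single k 1 := by
        rw [← D.rt_single k] at h
        have h2 : D.rt (c + -Pi.single k 1) = 0 := by
          rw [D.rt_add, D.rt_neg, h, add_neg_cancel]
        have h3 := D.rt_inj h2
        rwa [add_neg_eq_zero] at h3
      rcases tdE_single hZ k (fun l hl => by rw [h1]; simp [Pi.single_apply, hl]) with h2 | h2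
      · rw [h2.2]
        exact Submodule.mem_span_singleton_self _
      · rw [h2.2]
        exact zero_mem _
    · exfalso
      rw [← D.rt_single k, neg_eq_iff_add_eq_zero, ← D.rt_add] at h
      have h2 := congrFun (D.rt_inj h) k
      rw [Pi.add_apply, Pi.single_eq_same, Pi.zero_apply] at h2
      have := (tdE_facts hZ).1 k
      omega
    · exfalso
      rw [← D.rt_single k] at h
      have h2 := congrFun (D.rt_inj h) k
      simp at h2
  obtain ⟨c, hc⟩ := Submodule.mem_span_singleton.1 h4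
  exact ⟨c, hc.symm⟩

/-- TARGET.
See the hints above. -/
theorem Lg_multiple {X : Matrix ι ι ℚ_[p]} (hX : X ∈ Lg D) (k : I) (m : ℕ) (hm : 2 ≤ m)
    (hμ : D.Supp {m • D.A k} X) : X = 0 := by
  have hrt : ∀ m : ℕ, m • D.A k = D.rt (m • Pi.single k 1) := by
    intro m
    induction m with
    | zero => rw [zero_smul, zero_smul, D.rt_zero]
    | succ m ih => rw [succ_nsmul, succ_nsmul, D.rt_add, ih, D.rt_single]
  have h4 : X ∈ (⊥ : Submodule ℚ_[p] (Matrix ι ι ℚ_[p])) := by
    refine tdpr_main D _ (m • D.A k) (fun c Z hZ h => ?_) (fun c Z hZ h => ?_) (fun h => ?_) hX hμ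
    · have h1 : c = m • Pi.single k 1 := by
        rw [hrt] at h
        have h2 : D.rt (c + -(m • Pi.single k 1)) = 0 := by
          rw [D.rt_add, D.rt_neg, h, add_neg_cancel]
        have h3 := D.rt_inj h2
        rwa [add_neg_eq_zero] at h3
      rcases tdE_single hZ k (fun l hl => by rw [h1]; simp [Pi.single_apply, hl]) with h2 | h2
      · exfalso
        have h3 := congrFun (h1.symm.trans h2.1) k
        simp at h3
        omega
      · rw [h2.2]
        exact zero_mem _
    · exfalso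
      rw [hrt, neg_eq_iff_add_eq_zero, ← D.rt_add] at h
      have h2 := congrFun (D.rt_inj h) k
      simp at h2
      have := (tdE_facts hZ).1 k
      omega
    · exfalso
      rw [hrt] at h
      have h2 := congrFun (D.rt_inj h) k
      simp at h2
      omega
  exact (Submodule.mem_bot _).1 h4

end Pool.Agent.Chev
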