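import Mathlib
import Pool.Agent.Helper911_Chev.Defs3
import Pool.Agent.Helper911_Chev.CA1
import Pool.Agent.Helper911_Chev.CA2
import Pool.Agent.Helper911_Chev.CA4
import Pool.Agent.Helper911_Chev.CB1
import Pool.Agent.Helper911_Chev.CB2
import Pool.Agent.Helper911_Chev.CB3
import Pool.Agent.Helper911_Chev.CB4
import Pool.Agent.Helper911_Chev.CC1

set_option autoImplicit false
set_option linter.unusedSectionVars false
set_option maxHeartbeats 1000000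

noncomputable section

open Matrix Topology

namespace Pool.Agent.Chev

open ChevData

variable {p : ℕ} [Fact p.Prime] {I ι : Type} [Fintype I] [DecidableEq I] [Fintype ι]
  [DecidableEq ι] (D : ChevData p I ι)

/-! ======= TARGETS ======= -/

theorem Lg_iter {Z : Matrix ι ι ℚ_[p]} (hZ : Z ∈ Lg D) {X : Matrix ι ι ℚ_[p]} (hX : X ∈ Lg D) (m : ℕ) :
    (fun Y => Z * Y - Y * Z)^[m] X ∈ Lg D := by
  induction m with
  | zero => exact hX
  | succ m ih =>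
    rw [Function.iterate_succ_apply']
    exact Lg_br D hZ ih

theorem Lg_cj_exU {Z : Matrix ι ι ℚ_[p]} (hZ : Z ∈ Lg D) (hn : IsNilpotent Z)
    {X : Matrix ι ι ℚ_[p]} (hX : X ∈ Lg D) : cj (exU Z : GLm p ι) X ∈ Lg D := by
  obtain ⟨M, -, h2⟩ := ad_sum hn X
  have h3 := h2 M le_rfl
  unfold cj
  rw [h3]
  exact Submodule.sum_mem _ fun m _ => Submodule.smul_mem _ _ (Lg_iter D hZ hX m)

/-- TARGET.
`ad_sum` for `t • E k`. -/
theorem Lg_cj_x {X : Matrix ι ι ℚ_[p]} (hX : X ∈ Lg D) (k : I) (t : ℚ_[p]) :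
    cj (D.x k t) X ∈ Lg D :=
  Lg_cj_exU D (Submodule.smul_mem _ _ (Lg_E D k)) (tE_nil D k t) hX

/-- TARGET.
See the hints above. -/
theorem Lg_cj_y {X : Matrix ι ι ℚ_[p]} (hX : X ∈ Lg D) (k : I) (t : ℚ_[p]) :
    cj (D.y k t) X ∈ Lg D :=
  Lg_cj_exU D (Submodule.smul_mem _ _ (Lg_F D k)) (tF_nil D k t) hX

theorem cj_br (g : GLm p ι) (X Y : Matrix ι ι ℚ_[p]) :
    cj g (X * Y - Y * X) = cj g X * cj g Y - cj g Y * cj g X := by
  unfold cj
  have h : ((g⁻¹ : GLm p ι) : Matrix ι ι ℚ_[p]) * (g : Matrix ι ι ℚ_[p]) = 1 := Units.inv_mul g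
  have e : ∀ A B : Matrix ι ι ℚ_[p], (g : Matrix ι ι ℚ_[p]) * A * ((g⁻¹ : GLm p ι) : Matrix ι ι ℚ_[p]) *
      ((g : Matrix ι ι ℚ_[p]) * B * ((g⁻¹ : GLm p ι) : Matrix ι ι ℚ_[p])) =
      (g : Matrix ι ι ℚ_[p]) * (A * B) * ((g⁻¹ : GLm p ι) : Matrix ι ι ℚ_[p]) := by
    intro A B
    calc _ = (g : Matrix ι ι ℚ_[p]) * A * (((g⁻¹ : GLm p ι) : Matrix ι ι ℚ_[p]) *
        (g : Matrix ι ι ℚ_[p])) * B * ((g⁻¹ : GLm p ι) : Matrix ι ι ℚ_[p]) := by noncomm_ring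
      _ = _ := by rw [h]; noncomm_ring
  rw [e, e]
  noncomm_ring

/-- the value of the torus element on the basis vector `i` -/
def dg (τ : I → ℚ_[p]ˣ) (i : ι) : ℚ_[p]ˣ := ∏ k, τ k ^ D.wt i k

theorem cj_h_apply (τ : I → ℚ_[p]ˣ) (X : Matrix ι ι ℚ_[p]) (i j : ι) :
    cj (D.h τ) X i j = ((dg D τ i : ℚ_[p]ˣ) : ℚ_[p]) * X i j * (((dg D τ j)⁻¹ : ℚ_[p]ˣ) : ℚ_[p]) := by
  have h1 : ((D.h τ : GLm p ι) : Matrix ι ι ℚ_[p]) = Matrix.diagonal (fun i => ((dg D τ i : ℚ_[p]ˣ) : ℚ_[p])) := rfl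
  have h2 : (((D.h τ)⁻¹ : GLm p ι) : Matrix ι ι ℚ_[p]) =
      Matrix.diagonal (fun i => (((dg D τ i)⁻¹ : ℚ_[p]ˣ) : ℚ_[p])) := rfl
  unfold cj
  rw [h1, h2, Matrix.mul_diagonal, Matrix.diagonal_mul]

theorem cj_h_smul (τ : I → ℚ_[p]ˣ) (X : Matrix ι ι ℚ_[p]) (c : ℚ_[p]ˣ)
    (h : ∀ i j, X i j ≠ 0 → dg D τ i = c * dg D τ j) : cj (D.h τ) X = ((c : ℚ_[p]ˣ) : ℚ_[p]) • X := by
  ext i j
  rw [cj_h_apply, Matrix.smul_apply, smul_eq_mul]
  by_cases hx : X i j = 0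
  · rw [hx]; ring
  · rw [h i j hx, Units.val_mul]
    have : ((dg D τ j : ℚ_[p]ˣ) : ℚ_[p]) * (((dg D τ j)⁻¹ : ℚ_[p]ˣ) : ℚ_[p]) = 1 := Units.mul_inv _
    linear_combination ((c : ℚ_[p]ˣ) : ℚ_[p]) * X i j * this

theorem cj_h_E (τ : I → ℚ_[p]ˣ) (k : I) : cj (D.h τ) (D.E k) = ((al D k τ : ℚ_[p]ˣ) : ℚ_[p]) • D.E k := by
  apply cj_h_smul
  intro i j hij
  unfold dg al
  rw [← Finset.prod_mul_distrib]
  refine Finset.prod_congr rfl fun l _ => ?_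
  rw [D.E_wt k i j hij, Pi.add_apply, _root_.zpow_add, mul_comm]

theorem cj_h_F (τ : I → ℚ_[p]ˣ) (k : I) : cj (D.h τ) (D.F k) = (((al D k τ)⁻¹ : ℚ_[p]ˣ) : ℚ_[p]) • D.F k := by
  apply cj_h_smul
  intro i j hij
  unfold dg al
  rw [← Finset.prod_inv_distrib, ← Finset.prod_mul_distrib]
  refine Finset.prod_congr rfl fun l _ => ?_
  rw [D.F_wt k i j hij, Pi.sub_apply, _root_.zpow_sub, mul_comm]

/-- TARGET.
The subspace `{Y | cj (h τ) Y ∈ Lg D}` contains the `E k`, `F k` (which are multiplied by scalars) and is closed under commutators. -/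
theorem Lg_cj_h {X : Matrix ι ι ℚ_[p]} (hX : X ∈ Lg D) (τ : I → ℚ_[p]ˣ) :
    cj (D.h τ) X ∈ Lg D := by
  let L : Submodule ℚ_[p] (Matrix ι ι ℚ_[p]) :=
    { carrier := {Y | cj (D.h τ) Y ∈ Lg D}
      add_mem' := by
        intro a b ha hb
        show cj (D.h τ) (a + b) ∈ Lg D
        rw [cj_add]
        exact Submodule.add_mem _ ha hb
      zero_mem' := by
        show cj (D.h τ) 0 ∈ Lg D
        unfold cj
        rw [Matrix.mul_zero, Matrix.zero_mul]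
        exact Submodule.zero_mem _
      smul_mem' := by
        intro c a ha
        show cj (D.h τ) (c • a) ∈ Lg D
        rw [cj_smul]
        exact Submodule.smul_mem _ _ ha }
  have hL : Lg D ≤ L := by
    unfold Lg
    apply sInf_le
    refine ⟨fun k => ?_, fun k => ?_, fun Y hY Z hZ => ?_⟩
    · show cj (D.h τ) (D.E k) ∈ Lg D
      rw [cj_h_E]
      exact Submodule.smul_mem _ _ (Lg_E D k)
    · show cj (D.h τ) (D.F k) ∈ Lg D
      rw [cj_h_F]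
      exact Submodule.smul_mem _ _ (Lg_F D k)
    · show cj (D.h τ) (Y * Z - Z * Y) ∈ Lg D
      rw [cj_br]
      exact Lg_br D hY hZ
  exact hL hX

/-- TARGET.
Induction over the closure; `n k` is a product of `x`, `y`. (For inverses: `(n k)⁻¹` is also such a product.) -/
theorem Lg_cj_NN {X : Matrix ι ι ℚ_[p]} (hX : X ∈ Lg D) {g : GLm p ι} (hg : g ∈ D.NN) :
    cj g X ∈ Lg D := by
  have key : ∀ g ∈ D.NN, (∀ Y ∈ Lg D, cj g Y ∈ Lg D) ∧ (∀ Y ∈ Lg D, cj g⁻¹ Y ∈ Lg D) := by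
    intro g hg
    unfold ChevData.NN at hg
    induction hg using Subgroup.closure_induction with
    | mem g hg =>
      rcases hg with ⟨τ, rfl⟩ | ⟨k, rfl⟩
      · refine ⟨fun Y hY => Lg_cj_h D hY τ, fun Y hY => ?_⟩
        rw [← map_inv]
        exact Lg_cj_h D hY τ⁻¹
      · refine ⟨fun Y hY => ?_, fun Y hY => ?_⟩
        · unfold ChevData.n
          rw [cj_mul, cj_mul]
          exact Lg_cj_x D (Lg_cj_y D (Lg_cj_x D hY k 1) k (-1)) k 1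
        · have e : (D.n k)⁻¹ = D.x k (-1) * (D.y k 1 * D.x k (-1)) := by
            unfold ChevData.n
            rw [_root_.mul_inv_rev, _root_.mul_inv_rev, ← x_neg, ← y_neg, neg_neg]
          rw [e, cj_mul, cj_mul]
          exact Lg_cj_x D (Lg_cj_y D (Lg_cj_x D hY k (-1)) k 1) k (-1)
    | one =>
      refine ⟨fun Y hY => by rw [cj_one]; exact hY, fun Y hY => by rw [inv_one, cj_one]; exact hY⟩
    | mul a b _ _ ha hb =>
      refine ⟨fun Y hY => ?_, fun Y hY => ?_⟩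
      · rw [cj_mul]; exact ha.1 _ (hb.1 _ hY)
      · rw [_root_.mul_inv_rev, cj_mul]; exact hb.2 _ (ha.2 _ hY)
    | inv a _ ha => exact ⟨ha.2, by rw [inv_inv]; exact ha.1⟩
  exact (key g hg).1 X hX

end Pool.Agent.Chev
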