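import Mathlib
import Pool.Agent.Helper911_Chev.Defs3
import Pool.Agent.Helper911_Chev.CA1
import Pool.Agent.Helper911_Chev.CA2
import Pool.Agent.Helper911_Chev.CB1
import Pool.Agent.Helper911_Chev.CB2
import Pool.Agent.Helper911_Chev.CB3
import Pool.Agent.Helper911_Chev.CB4
import Pool.Agent.Helper911_Chev.CC1
import Pool.Agent.Helper911_Chev.CC2
import Pool.Agent.Helper911_Chev.CW1

set_option autoImplicit false
set_option linter.unusedSectionVars false
set_option maxHeartbeats 1000000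

noncomputable section

open Matrix Topology

namespace Pool.Agent.Chev

open ChevData

variable {p : ℕ} [Fact p.Prime] {I ι : Type} [Fintype I] [DecidableEq I] [Fintype ι]
  [DecidableEq ι] (D : ChevData p I ι)

/-! ======= TARGETS ======= -/

theorem A_ne_CW2 (k : I) : D.A k ≠ 0 := by
  intro h
  have := congrFun h k
  rw [D.A_diag] at this
  simp at this

theorem cj_ne {g : GLm p ι} {X : Matrix ι ι ℚ_[p]} (hX : X ≠ 0) : cj g X ≠ 0 := by
  intro h
  apply hX
  have h1 : cj g⁻¹ (cj g X) = X := by rw [← cj_mul, inv_mul_cancel, cj_one]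
  rw [← h1, h]
  unfold cj
  simp

theorem E_supp (k : I) : D.Supp {D.A k} (D.E k) := by
  intro i j hij
  rw [D.E_wt k i j hij, add_sub_cancel_left]
  rfl

theorem closure_n_le : Subgroup.closure (Set.range D.n) ≤ D.NN :=
  Subgroup.closure_mono Set.subset_union_right

theorem weyl_sign {w : (I → ℤ) ≃ₗ[ℤ] (I → ℤ)} (hw : w ∈ D.W) (k : I) :
    D.Pos (w (D.A k)) ∨ D.Pos (-(w (D.A k))) := by
  obtain ⟨g, hg, hr⟩ := W_rep D hw
  have h1 : cj g (D.E k) ∈ Lg D := Lg_cj_NN D (Lg_E D k) (closure_n_le D hg)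
  have h2 := supp_cj D hr (E_supp D k)
  rw [Set.image_singleton] at h2
  rcases Lg_weights D h1 _ h2 (cj_ne (E_ne D k)) with h | h | h
  · exfalso
    apply A_ne_CW2 D k
    exact (LinearEquiv.map_eq_zero_iff w).1 h
  · exact Or.inl h
  · exact Or.inr h

theorem weyl_mult_aux {w : (I → ℤ) ≃ₗ[ℤ] (I → ℤ)} (hw : w ∈ D.W) (k l : I) (m : ℕ)
    (h : w (D.A l) = m • D.A k) : ¬ 2 ≤ m := by
  intro hm
  obtain ⟨g, hg, hr⟩ := W_rep D hw
  have h1 : cj g (D.E l) ∈ Lg D := Lg_cj_NN D (Lg_E D l) (closure_n_le D hg)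
  have h2 := supp_cj D hr (E_supp D l)
  rw [Set.image_singleton, h] at h2
  exact cj_ne (E_ne D l) (Lg_multiple D h1 k m hm h2)

theorem s_mem_W (k : I) : D.s k ∈ D.W := Subgroup.subset_closure ⟨k, rfl⟩

theorem s_A (k : I) : D.s k (D.A k) = - D.A k := by
  rw [D.s_apply, D.A_diag, two_smul]
  abel

theorem weyl_mult {w : (I → ℤ) ≃ₗ[ℤ] (I → ℤ)} (hw : w ∈ D.W) (k l : I) (m : ℤ)
    (h : w (D.A l) = m • D.A k) : m = 1 ∨ m = -1 := by
  have h0 : m ≠ 0 := by
    rintro rfl
    rw [zero_smul] at h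
    exact A_ne_CW2 D l ((LinearEquiv.map_eq_zero_iff w).1 h)
  have h1 : ¬ 2 ≤ m := by
    intro h2
    apply weyl_mult_aux D hw k l m.toNat
    · rw [h, ← natCast_zsmul, Int.toNat_of_nonneg (by omega)]
    · omega
  have h2 : ¬ m ≤ -2 := by
    intro h2
    apply weyl_mult_aux D (D.W.mul_mem hw (s_mem_W D l)) k l (-m).toNat
    · rw [LinearEquiv.mul_apply, s_A, map_neg, h, ← natCast_zsmul,
        Int.toNat_of_nonneg (by omega), neg_smul]
    · omega
  omega

theorem weyl_refl_pos {w : (I → ℤ) ≃ₗ[ℤ] (I → ℤ)} (hw : w ∈ D.W) (k l : I)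
    (hpos : D.Pos (w (D.A l))) (hne : w (D.A l) ≠ D.A k) : D.Pos (D.s k (w (D.A l))) := by
  have h1 := weyl_sign D (D.W.mul_mem (s_mem_W D k) hw) l
  rw [LinearEquiv.mul_apply] at h1
  rcases h1 with h1 | h1
  · exact h1
  · exfalso
    obtain ⟨c, hc, hc0, hcw⟩ := hpos
    obtain ⟨d, hd, hd0, hdw⟩ := h1
    have h2 : D.rt (d + (c - (w (D.A l)) k • Pi.single k 1)) = 0 := by
      rw [D.rt_add, ← hdw, D.s_apply, sub_eq_add_neg c, D.rt_add, D.rt_neg, ← hcw]
      have : D.rt ((w (D.A l)) k • Pi.single k 1) = (w (D.A l)) k • D.A k := by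
        rw [← D.rt_single k]
        unfold ChevData.rt
        rw [Matrix.smul_vecMul]
      rw [this]
      abel
    have h3 := D.rt_inj h2
    have h4 : ∀ j, j ≠ k → c j = 0 := by
      intro j hj
      have h5 := congrFun h3 j
      have h6 := hc j
      have h7 := hd j
      simp only [Pi.add_apply, Pi.sub_apply, Pi.smul_apply, Pi.single_eq_of_ne hj, smul_eq_mul,
        mul_zero, Pi.zero_apply, sub_zero] at h5
      omega
    have h5 : c = c k • Pi.single k 1 := by
      funext j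
      by_cases hj : j = k
      · subst hj; simp
      · rw [h4 j hj]; simp [Pi.single_eq_of_ne hj]
    have h6 : w (D.A l) = c k • D.A k := by
      rw [hcw, ← D.rt_single k]
      conv_lhs => rw [h5]
      unfold ChevData.rt
      rw [Matrix.smul_vecMul]
    have h7 := hc k
    rcases weyl_mult D hw k l (c k) h6 with h8 | h8
    · apply hne
      rw [h6, h8, one_smul]
    · omega

theorem weyl_off {w : (I → ℤ) ≃ₗ[ℤ] (I → ℤ)} (hw : w ∈ D.W) (k l : I)
    (hpos : D.Pos (w (D.A l))) (hne : w (D.A l) ≠ D.A k) (m : ℕ) (hm : 1 ≤ m) :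
    D.PosOff k (m • w (D.A l)) := by
  obtain ⟨c, hc, hc0, hcw⟩ := hpos
  have h1 : ∃ j, j ≠ k ∧ c j ≠ 0 := by
    by_contra hcon
    push Not at hcon
    have h5 : c = c k • Pi.single k 1 := by
      funext j
      by_cases hj : j = k
      · subst hj; simp
      · rw [hcon j hj]; simp [Pi.single_eq_of_ne hj]
    have h6 : w (D.A l) = c k • D.A k := by
      rw [hcw, ← D.rt_single k]
      conv_lhs => rw [h5]
      unfold ChevData.rt
      rw [Matrix.smul_vecMul]
    have h7 := hc k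
    rcases weyl_mult D hw k l (c k) h6 with h8 | h8
    · apply hne
      rw [h6, h8, one_smul]
    · omega
  obtain ⟨j, hj, hj0⟩ := h1
  refine ⟨m • c, ?_, ⟨j, hj, ?_⟩, ?_⟩
  · intro l hl
    rw [Pi.smul_apply, nsmul_eq_mul]
    exact mul_nonneg (by positivity) (hc l)
  · rw [Pi.smul_apply, nsmul_eq_mul]
    exact mul_ne_zero (by exact_mod_cast (by omega : m ≠ 0)) hj0
  · rw [hcw]
    unfold ChevData.rt
    rw [Matrix.smul_vecMul]

theorem W_wt {w : (I → ℤ) ≃ₗ[ℤ] (I → ℤ)} (hw : w ∈ D.W) (j : ι) : ∃ i, D.wt i = w (D.wt j) := by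
  obtain ⟨g, hg, hr⟩ := W_rep D hw
  by_contra hcon
  push Not at hcon
  have h1 : ∀ i, (g : Matrix ι ι ℚ_[p]) i j = 0 := by
    intro i
    by_contra h
    exact hcon i (hr i j h)
  have h2 : (((g⁻¹ : GLm p ι) : Matrix ι ι ℚ_[p]) * (g : Matrix ι ι ℚ_[p])) j j = 1 := by
    rw [← Units.val_mul, inv_mul_cancel, Units.val_one, Matrix.one_apply_eq]
  rw [Matrix.mul_apply] at h2
  rw [Finset.sum_eq_zero (fun i _ => by rw [h1 i, mul_zero])] at h2
  exact zero_ne_one h2

theorem W_finite : Finite D.W := by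
  classical
  have hf : Finite (Set.range D.wt) := Set.finite_range D.wt
  let Φ : D.W → (ι → Set.range D.wt) := fun w j => ⟨w.1 (D.wt j), W_wt D w.2 j⟩
  apply Finite.of_injective Φ
  intro w1 w2 h
  apply Subtype.ext
  apply LinearEquiv.ext
  intro μ
  have hμ : μ ∈ AddSubgroup.closure (Set.range D.wt) := by rw [D.span]; trivial
  induction hμ using AddSubgroup.closure_induction with
  | mem x hx =>
    obtain ⟨j, rfl⟩ := hx
    exact congrArg Subtype.val (congrFun h j)
  | zero => rw [map_zero, map_zero]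
  | add x y _ _ hx hy => rw [map_add, map_add, hx, hy]
  | neg x _ hx => rw [map_neg, map_neg, hx]

end Pool.Agent.Chev
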