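import Mathlib
import Pool.Agent.Helper911_Chev.Defs3
import Pool.Agent.Helper911_Chev.CW1
import Pool.Agent.Helper911_Chev.CW2

set_option autoImplicit false
set_option linter.unusedSectionVars false
set_option maxHeartbeats 1000000

noncomputable section

open Matrix Topology

namespace Pool.Agent.Chev

open ChevData

variable {p : ℕ} [Fact p.Prime] {I ι : Type} [Fintype I] [DecidableEq I] [Fintype ι]
  [DecidableEq ι] (D : ChevData p I ι)

/-! ======= auxiliary ======= -/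

namespace DP3

/-- The real vector of the functional `Lf ν w`. -/
def RR (ν : I → ℝ) (w : (I → ℤ) ≃ₗ[ℤ] (I → ℤ)) (j : I) : ℝ :=
  ∑ m, ν m * (((w⁻¹ (Pi.single m 1)) j : ℤ) : ℝ)

theorem Lf_eq (ν : I → ℝ) (w : (I → ℤ) ≃ₗ[ℤ] (I → ℤ)) (l : I → ℤ) :
    Lf ν w l = ∑ j, RR ν w j * (l j : ℝ) := by
  unfold Lf RR
  simp only [Int.cast_sum, Int.cast_mul, Finset.mul_sum, Finset.sum_mul]
  rw [Finset.sum_comm]
  refine Finset.sum_congr rfl fun j _ => Finset.sum_congr rfl fun m _ => ?_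
  ring

theorem RR_s (ν : I → ℝ) (u : (I → ℤ) ≃ₗ[ℤ] (I → ℤ)) (k j : I) :
    RR ν (u * D.s k) j = RR ν u j - RR ν u k * (D.A k j : ℝ) := by
  unfold RR
  rw [Finset.sum_mul, ← Finset.sum_sub_distrib]
  refine Finset.sum_congr rfl fun m _ => ?_
  have h : (u * D.s k)⁻¹ (Pi.single m 1) =
      u⁻¹ (Pi.single m 1) - (u⁻¹ (Pi.single m 1)) k • D.A k := by
    rw [_root_.mul_inv_rev]; rfl
  rw [h, Pi.sub_apply, Pi.smul_apply, smul_eq_mul, Int.cast_sub, Int.cast_mul]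
  ring

/-- The real matrix of a linear automorphism. -/
def Mr (v : (I → ℤ) ≃ₗ[ℤ] (I → ℤ)) (x : I → ℝ) (j : I) : ℝ :=
  ∑ m, x m * (((v (Pi.single m 1)) j : ℤ) : ℝ)

theorem v_apply (v : (I → ℤ) ≃ₗ[ℤ] (I → ℤ)) (y : I → ℤ) (j : I) :
    v y j = ∑ m, y m * v (Pi.single m 1) j := by
  have h : y = ∑ m, y m • (Pi.single m 1 : I → ℤ) := by
    funext i
    rw [Finset.sum_apply, Finset.sum_eq_single i]
    · simp
    · intro b _ hb
      simp [Pi.single_eq_of_ne (Ne.symm hb)]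
    · intro h; exact absurd (Finset.mem_univ _) h
  conv_lhs => rw [h]
  rw [map_sum, Finset.sum_apply]
  refine Finset.sum_congr rfl fun m _ => ?_
  rw [map_smul, Pi.smul_apply, smul_eq_mul]

theorem Mr_mul (v w : (I → ℤ) ≃ₗ[ℤ] (I → ℤ)) (x : I → ℝ) : Mr (v * w) x = Mr v (Mr w x) := by
  funext j
  unfold Mr
  simp only [Finset.sum_mul]
  rw [Finset.sum_comm]
  refine Finset.sum_congr rfl fun m _ => ?_
  have h : (v * w) (Pi.single m 1) j = v (w (Pi.single m 1)) j := rfl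
  rw [h, v_apply v (w (Pi.single m 1)) j, Int.cast_sum, Finset.mul_sum]
  refine Finset.sum_congr rfl fun i _ => ?_
  rw [Int.cast_mul]
  ring

theorem Mr_one (x : I → ℝ) : Mr (1 : (I → ℤ) ≃ₗ[ℤ] (I → ℤ)) x = x := by
  funext j
  unfold Mr
  rw [Finset.sum_eq_single j]
  · simp
  · intro b _ hb
    have : ((1 : (I → ℤ) ≃ₗ[ℤ] (I → ℤ)) (Pi.single b 1)) j = 0 := by
      show (Pi.single b (1 : ℤ) : I → ℤ) j = 0
      exact Pi.single_eq_of_ne (Ne.symm hb) _
    rw [this]; simp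
  · intro h; exact absurd (Finset.mem_univ _) h

theorem Mr_add (v : (I → ℤ) ≃ₗ[ℤ] (I → ℤ)) (x y : I → ℝ) (j : I) :
    Mr v (fun i => x i + y i) j = Mr v x j + Mr v y j := by
  unfold Mr
  rw [← Finset.sum_add_distrib]
  refine Finset.sum_congr rfl fun i _ => ?_
  ring

theorem Mr_smul (v : (I → ℤ) ≃ₗ[ℤ] (I → ℤ)) (c : ℝ) (x : I → ℝ) (j : I) :
    Mr v (fun i => c * x i) j = c * Mr v x j := by
  unfold Mr
  rw [Finset.mul_sum]
  refine Finset.sum_congr rfl fun i _ => ?_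
  ring

theorem Mr_s (k : I) (x : I → ℝ) : Mr (D.s k) x = fun j => x j + (-(x k)) * (D.A k j : ℝ) := by
  have h : ∀ m j, ((D.s k (Pi.single m 1)) j : ℤ) =
      (Pi.single m 1 : I → ℤ) j - (Pi.single m 1 : I → ℤ) k * D.A k j := fun m j => rfl
  funext j
  have h1 := congrFun (Mr_one x) j
  have h2 := congrFun (Mr_one x) k
  have e1 : ∀ j, Mr (1 : (I → ℤ) ≃ₗ[ℤ] (I → ℤ)) x j =
      ∑ m, x m * (((Pi.single m 1 : I → ℤ) j : ℤ) : ℝ) := fun j => rfl
  rw [e1] at h1 h2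
  unfold Mr
  simp only [h, Int.cast_sub, Int.cast_mul, mul_sub, Finset.sum_sub_distrib]
  rw [h1]
  have h3 : ∑ m, x m * ((((Pi.single m 1 : I → ℤ) k : ℤ) : ℝ) * (D.A k j : ℝ)) =
      (∑ m, x m * (((Pi.single m 1 : I → ℤ) k : ℤ) : ℝ)) * (D.A k j : ℝ) := by
    rw [Finset.sum_mul]
    refine Finset.sum_congr rfl fun m _ => ?_
    ring
  rw [h3, h2]
  ring

section form

variable [Fintype D.W]

/-- The invariant form. -/
def Q (x y : I → ℝ) : ℝ := ∑ v : D.W, ∑ j, Mr v.1 x j * Mr v.1 y j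

theorem Q_comm (x y : I → ℝ) : Q D x y = Q D y x := by
  unfold Q
  refine Finset.sum_congr rfl fun v _ => Finset.sum_congr rfl fun j _ => mul_comm _ _

theorem Q_lin (x y z : I → ℝ) (c : ℝ) :
    Q D (fun i => x i + c * y i) z = Q D x z + c * Q D y z := by
  unfold Q
  rw [Finset.mul_sum, ← Finset.sum_add_distrib]
  refine Finset.sum_congr rfl fun v _ => ?_
  rw [Finset.mul_sum, ← Finset.sum_add_distrib]
  refine Finset.sum_congr rfl fun j _ => ?_
  rw [Mr_add v.1 x (fun i => c * y i) j, Mr_smul]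
  ring

theorem Q_lin' (x y z : I → ℝ) (c : ℝ) :
    Q D z (fun i => x i + c * y i) = Q D z x + c * Q D z y := by
  rw [Q_comm, Q_lin, Q_comm D x z, Q_comm D y z]

theorem Q_inv {w : (I → ℤ) ≃ₗ[ℤ] (I → ℤ)} (hw : w ∈ D.W) (x y : I → ℝ) :
    Q D (Mr w x) (Mr w y) = Q D x y := by
  unfold Q
  refine Fintype.sum_equiv (Equiv.mulRight (⟨w, hw⟩ : D.W)) _ _ fun v => ?_
  refine Finset.sum_congr rfl fun j _ => ?_
  show Mr v.1 (Mr w x) j * Mr v.1 (Mr w y) j = Mr (v.1 * w) x j * Mr (v.1 * w) y j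
  rw [Mr_mul, Mr_mul]

theorem Q_pos {x : I → ℝ} (hx : x ≠ 0) : 0 < Q D x x := by
  obtain ⟨i, hi⟩ := Function.ne_iff.1 hx
  unfold Q
  have h0 : ∀ v : D.W, 0 ≤ ∑ j, Mr v.1 x j * Mr v.1 x j := fun v =>
    Finset.sum_nonneg fun j _ => mul_self_nonneg _
  refine lt_of_lt_of_le ?_ (Finset.single_le_sum (fun v _ => h0 v) (Finset.mem_univ (1 : D.W)))
  have h1 : (∑ j, Mr (1 : D.W).1 x j * Mr (1 : D.W).1 x j) = ∑ j, x j * x j := by
    refine Finset.sum_congr rfl fun j _ => ?_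
    show Mr (1 : (I → ℤ) ≃ₗ[ℤ] (I → ℤ)) x j * Mr (1 : (I → ℤ) ≃ₗ[ℤ] (I → ℤ)) x j = _
    rw [Mr_one]
  rw [h1]
  exact Finset.sum_pos' (fun j _ => mul_self_nonneg _)
    ⟨i, Finset.mem_univ _, mul_self_pos.2 hi⟩

end form

/-- Step (4). -/
theorem step4 (ν : I → ℝ) {u w : (I → ℤ) ≃ₗ[ℤ] (I → ℤ)} (hu : u ∈ D.W) (hw : w ∈ D.W) (k : I)
    (d : ℝ) (hd : d ≠ 0) (h : ∀ j, RR ν w j = RR ν u j + d * (D.A k j : ℝ)) :
    RR ν u k = -d := by
  classical
  have := W_finite D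
  have : Fintype D.W := Fintype.ofFinite _
  set a : I → ℝ := fun j => (D.A k j : ℝ) with ha
  have ha0 : a ≠ 0 := by
    intro h0
    have := congrFun h0 k
    rw [ha] at this
    simp [D.A_diag] at this
  have hQ := Q_pos D ha0
  have hsk : D.s k ∈ D.W := Subgroup.subset_closure ⟨k, rfl⟩
  have key : ∀ x : I → ℝ, 2 * Q D x a = x k * Q D a a := by
    intro x
    have h1 := Q_inv D hsk x a
    rw [Mr_s, Mr_s] at h1
    have h2 : (fun j => a j + -(a k) * (D.A k j : ℝ)) = fun j => (-1 : ℝ) * a j := by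
      funext j
      have : a k = 2 := by rw [ha]; simp [D.A_diag]
      rw [this]
      show a j + -2 * a j = -1 * a j
      ring
    rw [h2] at h1
    have h3 : (fun j => (-1 : ℝ) * a j) = fun j => (0 : I → ℝ) j + (-1 : ℝ) * a j := by
      funext j; simp
    have h4 := Q_lin D x a (fun j => (-1 : ℝ) * a j) (-(x k))
    have h5 : Q D (fun j => x j + -(x k) * (D.A k j : ℝ)) (fun j => (-1 : ℝ) * a j) =
      Q D x (fun j => (-1 : ℝ) * a j) + -(x k) * Q D a (fun j => (-1 : ℝ) * a j) := h4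
    rw [h5, h3, Q_lin', Q_lin'] at h1
    have h6 : ∀ z, Q D z (0 : I → ℝ) = 0 := by
      intro z
      have := Q_lin' D (0 : I → ℝ) (0 : I → ℝ) z 1
      have e : (fun i => (0 : I → ℝ) i + 1 * (0 : I → ℝ) i) = (0 : I → ℝ) := by
        funext i; simp
      rw [e] at this
      linarith
    rw [h6, h6] at h1
    linarith
  have hRu : RR ν u = Mr u⁻¹ ν := rfl
  have hRw : RR ν w = Mr w⁻¹ ν := rfl
  have hnorm : Q D (RR ν w) (RR ν w) = Q D (RR ν u) (RR ν u) := by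
    rw [hRu, hRw, Q_inv D (inv_mem hu), Q_inv D (inv_mem hw)]
  have hw' : RR ν w = fun j => RR ν u j + d * a j := funext h
  rw [hw', Q_lin, Q_lin', Q_lin', Q_comm D a (RR ν u)] at hnorm
  have hk := key (RR ν u)
  have h1 : d * (2 * Q D (RR ν u) a + d * Q D a a) = 0 := by linarith
  have h2 : 2 * Q D (RR ν u) a + d * Q D a a = 0 := by
    rcases mul_eq_zero.1 h1 with h | h
    · exact absurd h hd
    · exact h
  rw [hk] at h2
  have h3 : (RR ν u k + d) * Q D a a = 0 := by linarith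
  rcases mul_eq_zero.1 h3 with h | h
  · linarith
  · exact absurd h hQ.ne'

/-- The integral vectors. -/
def lv (n : I → ℤ) : I → ℤ := fun i => -(D.A.det * ∑ j, D.A.adjugate i j * n j)

theorem lv_A (n : I → ℤ) (j : I) : ∑ m, D.A j m * lv D n m = -(D.A.det ^ 2 * n j) := by
  have h := D.A.mul_adjugate
  have h1 : ∀ i, ∑ m, D.A j m * D.A.adjugate m i = if j = i then D.A.det else 0 := by
    intro i
    have := congrFun (congrFun h j) i
    rw [Matrix.mul_apply, Matrix.smul_apply, Matrix.one_apply] at this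
    rw [this]
    split_ifs <;> simp
  have h2 : ∑ m, D.A j m * lv D n m =
      -(D.A.det * ∑ i, (∑ m, D.A j m * D.A.adjugate m i) * n i) := by
    unfold lv
    simp only [Finset.mul_sum, Finset.sum_mul, mul_neg, Finset.sum_neg_distrib]
    rw [Finset.sum_comm]
    congr 1
    refine Finset.sum_congr rfl fun i _ => Finset.sum_congr rfl fun m _ => ?_
    ring
  rw [h2]
  simp only [h1, ite_mul, zero_mul, Finset.sum_ite_eq, Finset.mem_univ, if_true]
  ring

/-- The coefficients. -/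
def dd (v : I → ℝ) (j : I) : ℝ := -((D.A.det : ℝ)⁻¹ * ∑ i, v i * (D.A.adjugate i j : ℝ))

theorem dd_lv (v : I → ℝ) (n : I → ℤ) :
    ∑ i, v i * (lv D n i : ℝ) = (D.A.det : ℝ) ^ 2 * ∑ j, dd D v j * (n j : ℝ) := by
  have hdet : (D.A.det : ℝ) ≠ 0 := by exact_mod_cast D.A_det
  have h1 : ∀ i, (lv D n i : ℝ) = -((D.A.det : ℝ) * ∑ j, (D.A.adjugate i j : ℝ) * (n j : ℝ)) := by
    intro i
    unfold lv
    push_cast
    ring
  have h2 : ∀ j, dd D v j * (n j : ℝ) =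
      -((D.A.det : ℝ)⁻¹ * ((∑ i, v i * (D.A.adjugate i j : ℝ)) * (n j : ℝ))) := by
    intro j
    unfold dd
    ring
  simp only [h1, h2, Finset.sum_neg_distrib, mul_neg, ← Finset.mul_sum]
  have h3 : (D.A.det : ℝ) ^ 2 * ((D.A.det : ℝ)⁻¹ *
      ∑ j, (∑ i, v i * (D.A.adjugate i j : ℝ)) * (n j : ℝ)) =
      (D.A.det : ℝ) * ∑ j, (∑ i, v i * (D.A.adjugate i j : ℝ)) * (n j : ℝ) := by
    field_simp
  rw [h3]
  congr 1
  simp only [Finset.mul_sum, Finset.sum_mul]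
  rw [Finset.sum_comm]
  refine Finset.sum_congr rfl fun i _ => Finset.sum_congr rfl fun m _ => ?_
  ring

theorem dd_A (v : I → ℝ) (i : I) : ∑ j, dd D v j * (D.A j i : ℝ) = -(v i) := by
  have hdet : (D.A.det : ℝ) ≠ 0 := by exact_mod_cast D.A_det
  have h := D.A.adjugate_mul
  have h1 : ∀ i', ∑ j, (D.A.adjugate i' j : ℝ) * (D.A j i : ℝ) =
      if i' = i then (D.A.det : ℝ) else 0 := by
    intro i'
    have := congrFun (congrFun h i') i
    rw [Matrix.mul_apply, Matrix.smul_apply, Matrix.one_apply] at this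
    have h2 : ((∑ j, D.A.adjugate i' j * D.A j i : ℤ) : ℝ) =
        ((D.A.det • (if i' = i then (1 : ℤ) else 0) : ℤ) : ℝ) := by rw [this]
    push_cast at h2
    rw [h2]
    split_ifs <;> simp
  have h2 : ∑ j, dd D v j * (D.A j i : ℝ) =
      -((D.A.det : ℝ)⁻¹ * ∑ i', v i' * ∑ j, (D.A.adjugate i' j : ℝ) * (D.A j i : ℝ)) := by
    unfold dd
    simp only [Finset.mul_sum, Finset.sum_mul, neg_mul, Finset.sum_neg_distrib]
    rw [Finset.sum_comm]
    congr 1
    refine Finset.sum_congr rfl fun i' _ => Finset.sum_congr rfl fun j _ => ?_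
    ring
  rw [h2]
  simp only [h1, mul_ite, mul_zero, Finset.sum_ite_eq', Finset.mem_univ, if_true]
  field_simp

theorem main (ν : I → ℝ) {u : (I → ℤ) ≃ₗ[ℤ] (I → ℤ)} (hu : u ∈ D.W) (k : I)
    (Om : Finset ((I → ℤ) ≃ₗ[ℤ] (I → ℤ))) (hOm : ∀ w ∈ Om, w ∈ D.W)
    (h : ∀ l : I → ℤ, (∀ j, ∑ m, D.A j m * l m ≤ -1) → ∀ w ∈ Om, Lf ν w l < Lf ν u l) :
    ∃ l : I → ℤ, (∀ j, ∑ m, D.A j m * l m ≤ -1) ∧ ∀ w ∈ Om, Lf ν w l ≤ Lf ν (u * D.s k) l := by
  classical
  have hdet : (0 : ℝ) < (D.A.det : ℝ) ^ 2 := by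
    have : (D.A.det : ℝ) ≠ 0 := by exact_mod_cast D.A_det
    positivity
  have hdet1 : 1 ≤ D.A.det ^ 2 := by
    have : 0 < D.A.det ^ 2 := by
      have := D.A_det
      positivity
    omega
  have hcond : ∀ n : I → ℤ, (∀ j, 1 ≤ n j) → ∀ j, ∑ m, D.A j m * lv D n m ≤ -1 := by
    intro n hn j
    rw [lv_A]
    have := hn j
    nlinarith
  set v : ((I → ℤ) ≃ₗ[ℤ] (I → ℤ)) → I → ℝ := fun w i => RR ν u i - RR ν w i with hv
  have hdiff : ∀ w (n : I → ℤ), Lf ν u (lv D n) - Lf ν w (lv D n) =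
      (D.A.det : ℝ) ^ 2 * ∑ j, dd D (v w) j * (n j : ℝ) := by
    intro w n
    rw [Lf_eq, Lf_eq, ← Finset.sum_sub_distrib, ← dd_lv]
    refine Finset.sum_congr rfl fun i _ => ?_
    rw [hv]
    ring
  have hpos : ∀ w ∈ Om, ∀ n : I → ℤ, (∀ j, 1 ≤ n j) → 0 < ∑ j, dd D (v w) j * (n j : ℝ) := by
    intro w hw n hn
    have h1 := h (lv D n) (hcond n hn) w hw
    have h2 := hdiff w n
    have h3 : 0 < (D.A.det : ℝ) ^ 2 * ∑ j, dd D (v w) j * (n j : ℝ) := by
      rw [← h2]; linarith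
    exact (mul_pos_iff_of_pos_left hdet).1 h3
  have hnonneg : ∀ w ∈ Om, ∀ j, 0 ≤ dd D (v w) j := by
    intro w hw j
    by_contra hneg
    push Not at hneg
    obtain ⟨N, hN⟩ := exists_nat_gt ((∑ i, dd D (v w) i) / (-(dd D (v w) j)))
    have h1 := hpos w hw (fun i => 1 + if i = j then (N : ℤ) else 0) (by
      intro i
      split_ifs <;> simp)
    have h2 : ∑ i, dd D (v w) i * (((1 + if i = j then (N : ℤ) else 0 : ℤ)) : ℝ) =
        ∑ i, dd D (v w) i + dd D (v w) j * N := by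
      have : ∀ i, dd D (v w) i * (((1 + if i = j then (N : ℤ) else 0 : ℤ)) : ℝ) =
          dd D (v w) i + if i = j then dd D (v w) i * N else 0 := by
        intro i
        split_ifs <;> push_cast <;> ring
      simp only [this, Finset.sum_add_distrib, Finset.sum_ite_eq', Finset.mem_univ, if_true]
    rw [h2] at h1
    rw [div_lt_iff₀ (by linarith)] at hN
    linarith
  -- the choice of `N`
  set c : ℝ := RR ν u k with hc
  have hex : ∀ w ∈ Om, ∃ N : ℕ, ∀ M : ℕ, N ≤ M →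
      0 ≤ dd D (v w) k + c + M * ∑ j ∈ Finset.univ.erase k, dd D (v w) j := by
    intro w hw
    have hS0 : 0 ≤ ∑ j ∈ Finset.univ.erase k, dd D (v w) j :=
      Finset.sum_nonneg fun j _ => hnonneg w hw j
    rcases hS0.eq_or_lt with hS | hS
    · refine ⟨0, fun M _ => ?_⟩
      have hz : ∀ j, j ≠ k → dd D (v w) j = 0 := by
        intro j hj
        exact (Finset.sum_eq_zero_iff_of_nonneg (fun j _ => hnonneg w hw j)).1 hS.symm j
          (Finset.mem_erase.2 ⟨hj, Finset.mem_univ _⟩)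
      have hdk : dd D (v w) k ≠ 0 := by
        intro h0
        have h1 := hpos w hw (fun _ => 1) (fun _ => le_rfl)
        have h2 : ∑ j, dd D (v w) j * (((fun _ => 1 : I → ℤ) j : ℤ) : ℝ) = 0 := by
          refine Finset.sum_eq_zero fun j _ => ?_
          by_cases hj : j = k
          · rw [hj, h0, zero_mul]
          · rw [hz j hj, zero_mul]
        rw [h2] at h1
        exact lt_irrefl _ h1
      have h4 := step4 D ν hu (hOm w hw) k (dd D (v w) k) hdk (by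
        intro i
        have h5 := dd_A D (v w) i
        rw [Finset.sum_eq_single k (fun j _ hj => by rw [hz j hj, zero_mul])
          (fun h => absurd (Finset.mem_univ _) h)] at h5
        have h6 : v w i = RR ν u i - RR ν w i := rfl
        linarith)
      rw [hc, h4, ← hS]
      simp
    · obtain ⟨N, hN⟩ := exists_nat_gt (-(dd D (v w) k + c) /
        ∑ j ∈ Finset.univ.erase k, dd D (v w) j)
      refine ⟨N, fun M hM => ?_⟩
      rw [div_lt_iff₀ hS] at hN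
      have : (N : ℝ) * ∑ j ∈ Finset.univ.erase k, dd D (v w) j ≤
          M * ∑ j ∈ Finset.univ.erase k, dd D (v w) j :=
        mul_le_mul_of_nonneg_right (by exact_mod_cast hM) hS.le
      linarith
  choose! f hf using hex
  set N := Om.sup f + 1 with hN
  refine ⟨lv D (fun j => if j = k then 1 else (N : ℤ)), hcond _ (fun j => ?_), fun w hw => ?_⟩
  · split_ifs
    · exact le_rfl
    · rw [hN]; push_cast; omega
  · have h1 := hf w hw N ((Finset.le_sup hw).trans (Nat.le_succ _))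
    have h2 := hdiff w (fun j => if j = k then 1 else (N : ℤ))
    set l := lv D (fun j => if j = k then 1 else (N : ℤ)) with hl
    have h3 : ∑ j, dd D (v w) j * (((if j = k then 1 else (N : ℤ) : ℤ)) : ℝ) =
        dd D (v w) k + N * ∑ j ∈ Finset.univ.erase k, dd D (v w) j := by
      rw [← Finset.add_sum_erase _ _ (Finset.mem_univ k), if_pos rfl, Int.cast_one, mul_one,
        Finset.mul_sum]
      congr 1
      refine Finset.sum_congr rfl fun j hj => ?_
      rw [if_neg (Finset.ne_of_mem_erase hj)]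
      push_cast
      ring
    rw [h3] at h2
    have h4 : Lf ν u l - Lf ν (u * D.s k) l = c * ((∑ m, D.A k m * l m : ℤ) : ℝ) := by
      rw [Lf_eq, Lf_eq, ← Finset.sum_sub_distrib, Int.cast_sum, Finset.mul_sum]
      refine Finset.sum_congr rfl fun i _ => ?_
      rw [RR_s, hc, Int.cast_mul]
      ring
    rw [hl, lv_A, if_pos rfl] at h4
    rw [Int.cast_neg, Int.cast_mul, Int.cast_pow, Int.cast_one, ← hl] at h4
    have h5 : 0 ≤ (D.A.det : ℝ) ^ 2 *
        (dd D (v w) k + c + N * ∑ j ∈ Finset.univ.erase k, dd D (v w) j) :=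
      mul_nonneg hdet.le h1
    linarith

end DP3

/-! ======= TARGETS ======= -/

/-- TARGET.
Proof. Notation: for `l : I → ℝ` write `a_j(l) = ∑_m A j m * l m` (real). For `w ∈ W` let `R_w ∈ ℝ^I`, `R_w j = ∑_m ν m * (w⁻¹ (single m 1)) j`, so `Lf ν w l = ∑_j R_w j * l j` (extend it to real `l`).
(1) Since `det A ≠ 0` the functionals `a_j` form a basis of the dual of `ℝ^I`: for `w ∈ Om` write `Lf ν u l - Lf ν w l = - ∑_j d_j(w) a_j(l)` with real `d_j(w)`. Claim `d_j(w) ≥ 0`: let `l0 = - lam`, where `lam = adjugate A *ᵥ (fun _ => det A)`, so `a_i(l0) = - (det A)^2` for all `i`; let `f_j = - det A • adjugate A *ᵥ (single j 1)`, so `a_i(f_j) = - (det A)^2 δ_ij`. For all naturals `N`, `l = l0 + N f_j` satisfies the condition `a_i(l) ≤ -1`, so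
`0 < Lf ν u l - Lf ν w l = (det A)^2 (∑_i d_i + N d_j)` for all `N`, so `d_j ≥ 0`.
(2) `Lf ν u l - Lf ν (u * s k) l = a_k(l) * (∑_m ν m * (u⁻¹ (single m 1)) k)`, because `(u * s k)⁻¹ = s k * u⁻¹` and `s k μ = μ - μ k • A k`. Put `c_k = ∑_m ν m * (u⁻¹ (single m 1)) k`.
(3) Take `l = l0 + N ∑_{j ≠ k} f_j`, so `a_k(l) = -(det A)^2` and `a_j(l) = - (N+1)(det A)^2` for `j ≠ k`. For `w ∈ Om`: if `d_j(w) > 0` for some `j ≠ k` then for all large `N`, `Lf ν u l - Lf ν w l ≥ (det A)^2 (N+1) d_j(w) ≥ - (det A)^2 c_k = Lf ν u l - Lf ν (u * s k) l`. As `Om` is finite choose `N` for all these `w`.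
(4) If `d_j(w) = 0` for all `j ≠ k`: then `R_u - R_w = - d_k(w) • A k` (as vectors, since `Lf ν u - Lf ν w = - d_k a_k` as functionals), with `d_k(w) ≠ 0` (as the difference is positive at `l0`). `W` is finite (`W_finite`). For `v ∈ W` and `x ∈ ℝ^I` let `v x = ∑_m x m • (v (single m 1))` (real extension of `v`), a linear action of `W`, and `Q(x, y) = ∑_{v ∈ W} ∑_l (v x)_l (v y)_l`, a `W`-invariant
symmetric bilinear form, positive definite (the term `v = 1`). `R_w = w⁻¹ ν`, so `Q(R_w, R_w) = Q(ν, ν) = Q(R_u, R_u)`. `R_w = R_u + d_k • A k`, so `2 d_k Q(R_u, A k) + d_k^2 Q(A k, A k) = 0`, `Q(R_u, A k) = - d_k Q(A k, A k) / 2`. Invariance under `s k` gives `2 Q(x, A k) = x k * Q(A k, A k)` for all `x` (`Q(s_k x, s_k A_k) = Q(x, A_k)`, `s_k x = x - x k • A k`, `s_k A_k = - A_k`). So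
`c_k = R_u k = - d_k`. Hence `Lf ν u l - Lf ν w l = - d_k a_k(l) = c_k a_k(l) = Lf ν u l - Lf ν (u * s k) l` for all `l`. -/
theorem near_wall_G (ν : I → ℝ) {u : (I → ℤ) ≃ₗ[ℤ] (I → ℤ)} (hu : u ∈ D.W) (k : I)
    (Om : Finset ((I → ℤ) ≃ₗ[ℤ] (I → ℤ))) (hOm : ∀ w ∈ Om, w ∈ D.W)
    (h : ∀ l : I → ℤ, (∀ j, ∑ m, D.A j m * l m ≤ -1) → ∀ w ∈ Om, Lf ν w l < Lf ν u l) :
    ∃ l : I → ℤ, (∀ j, ∑ m, D.A j m * l m ≤ -1) ∧ ∀ w ∈ Om, Lf ν w l ≤ Lf ν (u * D.s k) l :=
  DP3.main D ν hu k Om hOm h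

end Pool.Agent.Chev
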