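import Mathlib
import Pool.Agent.Helper911_Chev.Defs3
import Pool.Agent.Helper911_Chev.CA1

set_option autoImplicit false
set_option linter.unusedSectionVars false
set_option maxHeartbeats 1000000

noncomputable section

open Matrix Topology

namespace Pool.Agent.Chev

open ChevData

variable {p : ℕ} [Fact p.Prime] {I ι : Type} [Fintype I] [DecidableEq I] [Fintype ι]
  [DecidableEq ι] (D : ChevData p I ι)

/-! ======= TARGETS ======= -/

theorem supp_closed_aux (S : Set (I → ℤ)) : IsClosed {X : Matrix ι ι ℚ_[p] | D.Supp S X} := by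
  have h : {X : Matrix ι ι ℚ_[p] | D.Supp S X} =
      ⋂ (i : ι) (j : ι) (_ : D.wt i - D.wt j ∉ S), {X : Matrix ι ι ℚ_[p] | X i j = 0} := by
    ext X
    simp only [Set.mem_iInter]
    constructor
    · intro hX i j hij
      by_contra hc
      exact hij (hX i j hc)
    · intro hX i j hij
      by_contra hc
      exact hij (hX i j hc)
  rw [h]
  refine isClosed_iInter fun i => isClosed_iInter fun j => isClosed_iInter fun _ => ?_
  exact isClosed_eq (continuous_id.matrix_elem i j) continuous_const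

theorem supp_sum_aux (S : Set (I → ℤ)) (M : ℕ) (f : ℕ → Matrix ι ι ℚ_[p])
    (hf : ∀ m, D.Supp S (f m)) : D.Supp S (∑ m ∈ Finset.range M, f m) := by
  induction M with
  | zero =>
    intro i j hij
    simp at hij
  | succ M ih =>
    rw [Finset.sum_range_succ]
    exact Supp.add D ih (hf M)

/-- TARGET.
The conditions are `(g - 1) i j = 0` and `(g⁻¹ - 1) i j = 0` for certain `i, j`. -/
theorem US_closed (S : Set (I → ℤ)) (hS : Conic S) :
    IsClosed (D.US S hS : Set (GLm p ι)) := by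
  have c1 : Continuous fun g : GLm p ι => (g : Matrix ι ι ℚ_[p]) - 1 :=
    Units.continuous_val.sub continuous_const
  have c2 : Continuous fun g : GLm p ι => ((g⁻¹ : GLm p ι) : Matrix ι ι ℚ_[p]) - 1 :=
    Units.continuous_coe_inv.sub continuous_const
  exact ((supp_closed_aux D S).preimage c1).inter ((supp_closed_aux D S).preimage c2)

/-- TARGET.
See the hints above. -/
theorem Diag_closed : IsClosed (D.Diag : Set (GLm p ι)) :=
  ((supp_closed_aux D {0}).preimage Units.continuous_val).inter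
    ((supp_closed_aux D {0}).preimage Units.continuous_coe_inv)

/-- TARGET.
Proof. `X = g - 1` is nilpotent (`nil_of_supp`), `g⁻¹ = ∑_{m < M} (-X) ^ m` if `X ^ M = 0`, so `g⁻¹ - 1` is supported in `S`. -/
theorem US_of_val (S : Set (I → ℤ)) (hS : Conic S) (g : GLm p ι)
    (hg : D.Supp S ((g : Matrix ι ι ℚ_[p]) - 1)) : g ∈ D.US S hS := by
  refine ⟨hg, ?_⟩
  set Y : Matrix ι ι ℚ_[p] := 1 - (g : Matrix ι ι ℚ_[p]) with hY
  have hYs : D.Supp S Y := by
    intro i j hij
    apply hg i j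
    intro hc
    apply hij
    rw [hY, ← neg_sub, Matrix.neg_apply, hc, neg_zero]
  obtain ⟨M, hM⟩ := nil_of_supp D S hS Y hYs
  have hM1 : Y ^ (M + 1) = 0 := by rw [pow_succ, hM, zero_mul]
  have hg1 : (g : Matrix ι ι ℚ_[p]) = 1 - Y := by rw [hY]; abel
  have h1 : (g : Matrix ι ι ℚ_[p]) * ∑ m ∈ Finset.range (M + 1), Y ^ m = 1 := by
    rw [hg1, mul_neg_geom_sum, hM1, sub_zero]
  have h2 : ((g⁻¹ : GLm p ι) : Matrix ι ι ℚ_[p]) = ∑ m ∈ Finset.range (M + 1), Y ^ m := by
    have h3 : ((g⁻¹ : GLm p ι) : Matrix ι ι ℚ_[p]) *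
        ((g : Matrix ι ι ℚ_[p]) * ∑ m ∈ Finset.range (M + 1), Y ^ m) =
        ∑ m ∈ Finset.range (M + 1), Y ^ m := by
      rw [← mul_assoc, Units.inv_mul, one_mul]
    rw [h1, mul_one] at h3
    exact h3
  rw [h2, Finset.sum_range_succ', pow_zero, add_sub_cancel_right]
  refine supp_sum_aux D S M _ fun m => ?_
  induction m with
  | zero => rw [zero_add, pow_one]; exact hYs
  | succ m ih =>
    rw [pow_succ]
    exact Supp.mul D ih hYs hS.add

/-- TARGET.
Proof. `g` is supported in `{0}` iff it commutes with all the diagonal matrices `diagonal (fun i => (wt i k : ℚ_[p]))`, `k ∈ I`; then so does `g⁻¹`. (`wt i = wt j` iff `wt i k = wt j k` for all `k`, and `ℤ → ℚ_[p]` is injective.) -/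
theorem Diag_of_val (g : GLm p ι) (hg : D.Supp {0} (g : Matrix ι ι ℚ_[p])) : g ∈ D.Diag := by
  refine ⟨hg, ?_⟩
  have hcomm : ∀ k : I, ((g⁻¹ : GLm p ι) : Matrix ι ι ℚ_[p]) *
      Matrix.diagonal (fun i => (D.wt i k : ℚ_[p])) =
      Matrix.diagonal (fun i => (D.wt i k : ℚ_[p])) * ((g⁻¹ : GLm p ι) : Matrix ι ι ℚ_[p]) := by
    intro k
    have h1 : (g : Matrix ι ι ℚ_[p]) * Matrix.diagonal (fun i => (D.wt i k : ℚ_[p])) =
        Matrix.diagonal (fun i => (D.wt i k : ℚ_[p])) * (g : Matrix ι ι ℚ_[p]) := by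
      ext i j
      rw [Matrix.mul_diagonal, Matrix.diagonal_mul]
      by_cases h0 : (g : Matrix ι ι ℚ_[p]) i j = 0
      · rw [h0, zero_mul, mul_zero]
      · have h2 : D.wt i - D.wt j = 0 := hg i j h0
        rw [sub_eq_zero.1 h2, mul_comm]
    calc ((g⁻¹ : GLm p ι) : Matrix ι ι ℚ_[p]) * Matrix.diagonal (fun i => (D.wt i k : ℚ_[p]))
        = ((g⁻¹ : GLm p ι) : Matrix ι ι ℚ_[p]) * (Matrix.diagonal (fun i => (D.wt i k : ℚ_[p])) *
          ((g : Matrix ι ι ℚ_[p]) * ((g⁻¹ : GLm p ι) : Matrix ι ι ℚ_[p]))) := by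
          rw [Units.mul_inv, mul_one]
      _ = ((g⁻¹ : GLm p ι) : Matrix ι ι ℚ_[p]) * ((Matrix.diagonal (fun i => (D.wt i k : ℚ_[p])) *
          (g : Matrix ι ι ℚ_[p])) * ((g⁻¹ : GLm p ι) : Matrix ι ι ℚ_[p])) := by
          rw [mul_assoc (Matrix.diagonal _)]
      _ = ((g⁻¹ : GLm p ι) : Matrix ι ι ℚ_[p]) * (((g : Matrix ι ι ℚ_[p]) *
          Matrix.diagonal (fun i => (D.wt i k : ℚ_[p]))) *
          ((g⁻¹ : GLm p ι) : Matrix ι ι ℚ_[p])) := by rw [h1]
      _ = (((g⁻¹ : GLm p ι) : Matrix ι ι ℚ_[p]) * (g : Matrix ι ι ℚ_[p])) *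
          (Matrix.diagonal (fun i => (D.wt i k : ℚ_[p])) *
          ((g⁻¹ : GLm p ι) : Matrix ι ι ℚ_[p])) := by
          rw [mul_assoc (g : Matrix ι ι ℚ_[p]), ← mul_assoc]
      _ = _ := by rw [Units.inv_mul, one_mul]
  intro i j hij
  have h3 : ∀ k, D.wt i k = D.wt j k := by
    intro k
    have h4 := congrFun (congrFun (hcomm k) i) j
    rw [Matrix.mul_diagonal, Matrix.diagonal_mul, mul_comm] at h4
    have h5 := mul_right_cancel₀ hij h4
    exact_mod_cast h5.symm
  show D.wt i - D.wt j = 0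
  rw [sub_eq_zero]
  exact funext h3

end Pool.Agent.Chev
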