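import Mathlib
import Pool.Agent.Helper911_Chev.Defs3
import Pool.Agent.Helper911_Chev.CA1
import Pool.Agent.Helper911_Chev.CA2
import Pool.Agent.Helper911_Chev.CB1
import Pool.Agent.Helper911_Chev.CB2
import Pool.Agent.Helper911_Chev.CB3
import Pool.Agent.Helper911_Chev.CB4

set_option autoImplicit false
set_option linter.unusedSectionVars false
set_option maxHeartbeats 1000000

noncomputable section

open Matrix Topology

namespace Pool.Agent.Chev

open ChevData

variable {p : ℕ} [Fact p.Prime] {I ι : Type} [Fintype I] [DecidableEq I] [Fintype ι]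
  [DecidableEq ι] (D : ChevData p I ι)

/-! ======= TARGETS ======= -/

/-- TARGET.
See the hints above. -/
theorem dual_x (k : I) (t : ℚ_[p]) : D.dual.x k t = D.y k t := rfl

/-- TARGET.
See the hints above. -/
theorem dual_y (k : I) (t : ℚ_[p]) : D.dual.y k t = D.x k t := rfl

/-- TARGET.
See the hints above. -/
theorem dual_pos (μ : I → ℤ) : D.dual.Pos μ ↔ D.Pos μ := Iff.rfl

/-- TARGET.
See the hints above. -/
theorem dual_posOff (k : I) (μ : I → ℤ) : D.dual.PosOff k μ ↔ D.PosOff k μ := Iff.rfl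

/-- TARGET.
See the hints above. -/
theorem dual_supp (S : Set (I → ℤ)) (X : Matrix ι ι ℚ_[p]) :
    D.dual.Supp S X ↔ D.Supp {μ | -μ ∈ S} X := by
  have key : ∀ i j, D.dual.wt i - D.dual.wt j = -(D.wt i - D.wt j) := by
    intro i j
    show -D.wt i - -D.wt j = -(D.wt i - D.wt j)
    abel
  constructor
  · intro h i j hij
    have h1 := h i j hij
    rw [key] at h1
    exact h1
  · intro h i j hij
    rw [key]
    exact h i j hij

/-- TARGET.
See the hints above. -/
theorem dual_UP : D.dual.UP = D.UM :=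
  Subgroup.ext fun _ => and_congr (dual_supp D _ _) (dual_supp D _ _)

/-- TARGET.
See the hints above. -/
theorem dual_UM : D.dual.UM = D.UP := by
  have hS : ({μ | -μ ∈ ({μ | -μ ∈ {μ | D.dual.Pos μ}} : Set (I → ℤ))} : Set (I → ℤ)) =
      {μ | D.Pos μ} := by
    ext μ
    show D.dual.Pos (- -μ) ↔ D.Pos μ
    rw [neg_neg]
    exact Iff.rfl
  refine Subgroup.ext fun g => and_congr ((dual_supp D _ _).trans ?_) ((dual_supp D _ _).trans ?_)
  · rw [hS]
  · rw [hS]

/-- TARGET.
See the hints above. -/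
theorem dual_UPk (k : I) : D.dual.UPk k = D.UMk k :=
  Subgroup.ext fun _ => and_congr (dual_supp D _ _) (dual_supp D _ _)

/-- TARGET.
See the hints above. -/
theorem dual_UMk (k : I) : D.dual.UMk k = D.UPk k := by
  have hS : ({μ | -μ ∈ ({μ | -μ ∈ {μ | D.dual.PosOff k μ}} : Set (I → ℤ))} : Set (I → ℤ)) =
      {μ | D.PosOff k μ} := by
    ext μ
    show D.dual.PosOff k (- -μ) ↔ D.PosOff k μ
    rw [neg_neg]
    exact Iff.rfl
  refine Subgroup.ext fun g => and_congr ((dual_supp D _ _).trans ?_) ((dual_supp D _ _).trans ?_)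
  · rw [hS]
  · rw [hS]

/-- TARGET.
See the hints above. -/
theorem dual_Diag : D.dual.Diag = D.Diag := by
  have hS : ({μ | -μ ∈ ({0} : Set (I → ℤ))} : Set (I → ℤ)) = {0} := by
    ext μ
    simp
  refine Subgroup.ext fun g => and_congr ((dual_supp D _ _).trans ?_) ((dual_supp D _ _).trans ?_)
  · rw [hS]
  · rw [hS]

/-- TARGET.
See the hints above. -/
theorem dual_h (τ : I → ℚ_[p]ˣ) : D.dual.h τ = D.h τ⁻¹ := by
  apply Units.ext
  show Matrix.diagonal (fun i => ((∏ k, τ k ^ (-D.wt i) k : ℚ_[p]ˣ) : ℚ_[p])) =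
    Matrix.diagonal (fun i => ((∏ k, τ⁻¹ k ^ D.wt i k : ℚ_[p]ˣ) : ℚ_[p]))
  congr 1
  funext i
  congr 1
  refine Finset.prod_congr rfl fun k _ => ?_
  rw [Pi.neg_apply, Pi.inv_apply, _root_.zpow_neg, _root_.inv_zpow]

/-- TARGET.
See the hints above. -/
theorem dual_hk (k : I) (a : ℚ_[p]ˣ) : D.dual.hk k a = (D.hk k a)⁻¹ := by
  have h1 : D.dual.hk k a = D.dual.h (fun l => a ^ (Pi.single k 1 : I → ℤ) l) := rfl
  have h2 : D.hk k a = D.h (fun l => a ^ (Pi.single k 1 : I → ℤ) l) := rfl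
  rw [h1, h2, dual_h, map_inv]

/-- TARGET.
See the hints above. -/
theorem dual_T : D.dual.T = D.T := by
  ext g
  constructor
  · rintro ⟨τ, rfl⟩
    exact ⟨τ⁻¹, (dual_h D τ).symm⟩
  · rintro ⟨τ, rfl⟩
    refine ⟨τ⁻¹, ?_⟩
    rw [dual_h, inv_inv]

/-- TARGET.
`nt_one`, `nt_inv`, `nt_alt`. -/
theorem dual_n (k : I) : D.dual.n k = (D.n k)⁻¹ := by
  rw [← nt_one D k, nt_inv, nt_alt]
  have h1 : (-(((((-1 : ℚ_[p]ˣ))⁻¹ : ℚ_[p]ˣ)) : ℚ_[p])) = 1 := by simp
  have h2 : (((-1 : ℚ_[p]ˣ)) : ℚ_[p]) = -1 := by simp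
  rw [h1, h2]
  rfl

/-- TARGET.
See the hints above. -/
theorem dual_NN : D.dual.NN = D.NN := by
  apply le_antisymm
  · show Subgroup.closure _ ≤ _
    rw [Subgroup.closure_le]
    rintro g (hg | ⟨k, rfl⟩)
    · have hg' : g ∈ D.T := by
        rw [← dual_T]
        exact hg
      exact Subgroup.subset_closure (Or.inl hg')
    · show D.dual.n k ∈ D.NN
      rw [dual_n]
      exact inv_mem (Subgroup.subset_closure (Or.inr ⟨k, rfl⟩))
  · show Subgroup.closure _ ≤ _
    rw [Subgroup.closure_le]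
    rintro g (hg | ⟨k, rfl⟩)
    · have hg' : g ∈ D.dual.T := by
        rw [dual_T]
        exact hg
      exact Subgroup.subset_closure (Or.inl hg')
    · show D.n k ∈ D.dual.NN
      rw [← inv_inv (D.n k), ← dual_n]
      exact inv_mem (Subgroup.subset_closure (Or.inr ⟨k, rfl⟩))

/-- TARGET.
See the hints above. -/
theorem dual_N : D.dual.N = D.Nb := rfl

/-- TARGET.
See the hints above. -/
theorem dual_Nb : D.dual.Nb = D.N := rfl

/-- TARGET.
See the hints above. -/
theorem dual_G : D.dual.G = D.G := by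
  unfold G
  congr 1
  ext g
  constructor
  · rintro ⟨k, t, h⟩
    exact ⟨k, t, h.symm⟩
  · rintro ⟨k, t, h⟩
    exact ⟨k, t, h.symm⟩

/-- TARGET.
See the hints above. -/
theorem dual_Hk (k : I) : D.dual.Hk k = D.Hk k := by
  unfold Hk
  congr 1
  ext g
  constructor
  · rintro ⟨t, h⟩
    exact ⟨t, h.symm⟩
  · rintro ⟨t, h⟩
    exact ⟨t, h.symm⟩

/-- TARGET.
See the hints above. -/
theorem dual_s (k : I) : D.dual.s k = D.s k := rfl

/-- TARGET.
See the hints above. -/
theorem dual_W : D.dual.W = D.W := rfl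

/-- TARGET.
See the hints above. -/
theorem dual_rep (g : GLm p ι) (w : (I → ℤ) ≃ₗ[ℤ] (I → ℤ)) : D.dual.Rep g w ↔ D.Rep g w := by
  have key : ∀ i j, D.dual.wt i = w (D.dual.wt j) ↔ D.wt i = w (D.wt j) := by
    intro i j
    show -D.wt i = w (-D.wt j) ↔ D.wt i = w (D.wt j)
    rw [map_neg, neg_inj]
  constructor
  · intro h i j hij
    exact (key i j).1 (h i j hij)
  · intro h i j hij
    exact (key i j).2 (h i j hij)

/-- TARGET.
See the hints above. -/
theorem dual_Lg : Lg D.dual = Lg D := by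
  unfold Lg
  congr 1
  ext L
  constructor
  · rintro ⟨h1, h2, h3⟩
    exact ⟨h2, h1, h3⟩
  · rintro ⟨h1, h2, h3⟩
    exact ⟨h2, h1, h3⟩

/-- TARGET.
See the hints above. -/
theorem dual_al (k : I) (τ : I → ℚ_[p]ˣ) : al D.dual k τ = al D k τ := rfl

/-- TARGET.
See the hints above. -/
theorem dual_integral (h : D.Integral) : D.dual.Integral := ⟨h.F_int, h.E_int⟩

end Pool.Agent.Chev
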