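import Mathlib
import Pool.Agent.Helper911_Chev.Defs3
import Pool.Agent.Helper911_Chev.CA1
import Pool.Agent.Helper911_Chev.CA2
import Pool.Agent.Helper911_Chev.CA3
import Pool.Agent.Helper911_Chev.CB4
import Pool.Agent.Helper911_Chev.CB2
import Pool.Agent.Helper911_Chev.CB3

set_option autoImplicit false
set_option linter.unusedSectionVars false
set_option maxHeartbeats 1000000

noncomputable section

open Matrix Topology

namespace Pool.Agent.Chev

open ChevData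

variable {p : ℕ} [Fact p.Prime] {I ι : Type} [Fintype I] [DecidableEq I] [Fintype ι]
  [DecidableEq ι] (D : ChevData p I ι)

/-! ======= TARGETS ======= -/

/-- Multiples of `A k`. -/
def Zk (k : I) : Set (I → ℤ) := {μ | ∃ m : ℤ, μ = m • D.A k}

theorem rt_sing (k : I) (m : ℤ) : D.rt (Pi.single k m) = m • D.A k := by
  have h : (Pi.single k m : I → ℤ) = m • (Pi.single k 1 : I → ℤ) := by
    funext l
    by_cases hl : l = k
    · subst hl; simp
    · simp [hl]
  rw [h]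
  unfold ChevData.rt
  rw [Matrix.smul_vecMul]
  congr 1
  exact D.rt_single k

theorem supp_one (k : I) : D.Supp (Zk D k) (1 : Matrix ι ι ℚ_[p]) := by
  intro i j h
  rw [Matrix.one_apply] at h
  have : i = j := by by_contra hne; simp [hne] at h
  rw [this]
  exact ⟨0, by simp⟩

theorem supp_pow (k : I) {X : Matrix ι ι ℚ_[p]} (hX : D.Supp (Zk D k) X) (m : ℕ) :
    D.Supp (Zk D k) (X ^ m) := by
  induction m with
  | zero => rw [pow_zero]; exact supp_one D k
  | succ m ih =>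
    rw [pow_succ]
    refine Supp.mul D ih hX ?_
    rintro _ ⟨a, rfl⟩ _ ⟨b, rfl⟩
    exact ⟨a + b, by rw [add_smul]⟩

theorem supp_sum {S : Set (I → ℤ)} (s : Finset ℕ) (f : ℕ → Matrix ι ι ℚ_[p])
    (h : ∀ m, D.Supp S (f m)) : D.Supp S (∑ m ∈ s, f m) := by
  intro i j hij
  rw [Matrix.sum_apply] at hij
  obtain ⟨m, -, hm⟩ := Finset.exists_ne_zero_of_sum_ne_zero hij
  exact h m i j hm

theorem supp_smul {S : Set (I → ℤ)} (a : ℚ_[p]) {X : Matrix ι ι ℚ_[p]} (h : D.Supp S X) :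
    D.Supp S (a • X) := by
  intro i j hij
  rw [Matrix.smul_apply, smul_eq_mul] at hij
  exact h i j (right_ne_zero_of_mul hij)

theorem supp_exU (k : I) {X : Matrix ι ι ℚ_[p]} (hX : D.Supp (Zk D k) X) (hn : IsNilpotent X) :
    D.Supp (Zk D k) ((exU X : GLm p ι) : Matrix ι ι ℚ_[p]) := by
  obtain ⟨M, hM⟩ := hn
  rw [exU_sum hM]
  exact supp_sum D _ _ fun m => supp_smul D _ (supp_pow D k hX m)

theorem supp_E (k : I) (t : ℚ_[p]) : D.Supp (Zk D k) (t • D.E k) := by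
  refine supp_smul D t ?_
  intro i j h
  refine ⟨1, ?_⟩
  rw [D.E_wt k i j h]
  simp

theorem supp_F (k : I) (t : ℚ_[p]) : D.Supp (Zk D k) (t • D.F k) := by
  refine supp_smul D t ?_
  intro i j h
  refine ⟨-1, ?_⟩
  rw [D.F_wt k i j h]
  simp

theorem supp_x (k : I) (t : ℚ_[p]) : D.Supp (Zk D k) (D.x k t : Matrix ι ι ℚ_[p]) :=
  supp_exU D k (supp_E D k t) (tE_nil D k t)

theorem supp_y (k : I) (t : ℚ_[p]) : D.Supp (Zk D k) (D.y k t : Matrix ι ι ℚ_[p]) :=
  supp_exU D k (supp_F D k t) (tF_nil D k t)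

theorem conj_US (k : I) (S : Set (I → ℤ)) (hS : Conic S) (hT : ∀ a ∈ Zk D k, ∀ b ∈ S, a + b ∈ S)
    {h : GLm p ι} (h1 : D.Supp (Zk D k) (h : Matrix ι ι ℚ_[p]))
    (h2 : D.Supp (Zk D k) ((h⁻¹ : GLm p ι) : Matrix ι ι ℚ_[p])) {g : GLm p ι}
    (hg : g ∈ D.US S hS) : h * g * h⁻¹ ∈ D.US S hS := by
  apply US_of_val
  have e : ((h * g * h⁻¹ : GLm p ι) : Matrix ι ι ℚ_[p]) - 1
      = (h : Matrix ι ι ℚ_[p]) * ((g : Matrix ι ι ℚ_[p]) - 1)
        * ((h⁻¹ : GLm p ι) : Matrix ι ι ℚ_[p]) := by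
    rw [Units.val_mul, Units.val_mul, mul_sub, sub_mul, mul_one, Units.mul_inv]
  rw [e]
  refine Supp.mul D (Supp.mul D h1 hg.1 hT) h2 ?_
  intro a ha b hb
  rw [add_comm]
  exact hT b hb a ha

theorem Hk_norm_US (k : I) (S : Set (I → ℤ)) (hS : Conic S)
    (hT : ∀ a ∈ Zk D k, ∀ b ∈ S, a + b ∈ S) {h : GLm p ι} (hh : h ∈ D.Hk k) :
    ∀ g ∈ D.US S hS, h * g * h⁻¹ ∈ D.US S hS ∧ h⁻¹ * g * h ∈ D.US S hS := by
  unfold ChevData.Hk at hh
  induction hh using Subgroup.closure_induction with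
  | mem u hu =>
    obtain ⟨t, rfl | rfl⟩ := hu
    · have hi : (D.x k t)⁻¹ = D.x k (-t) := (x_neg D k t).symm
      have hj : (D.x k (-t))⁻¹ = D.x k t := by rw [← hi, inv_inv]
      intro g hg
      refine ⟨conj_US D k S hS hT (supp_x D k t) (by rw [hi]; exact supp_x D k _) hg, ?_⟩
      have := conj_US D k S hS hT (supp_x D k (-t)) (by rw [hj]; exact supp_x D k _) hg
      rwa [hj, ← hi] at this
    · have hi : (D.y k t)⁻¹ = D.y k (-t) := (y_neg D k t).symm
      have hj : (D.y k (-t))⁻¹ = D.y k t := by rw [← hi, inv_inv]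
      intro g hg
      refine ⟨conj_US D k S hS hT (supp_y D k t) (by rw [hi]; exact supp_y D k _) hg, ?_⟩
      have := conj_US D k S hS hT (supp_y D k (-t)) (by rw [hj]; exact supp_y D k _) hg
      rwa [hj, ← hi] at this
  | one =>
    intro g hg
    simpa using hg
  | mul a b _ _ iha ihb =>
    intro g hg
    refine ⟨?_, ?_⟩
    · have := (iha _ (ihb g hg).1).1
      have e : a * b * g * (a * b)⁻¹ = a * (b * g * b⁻¹) * a⁻¹ := by group
      rw [e]; exact this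
    · have := (ihb _ (iha g hg).2).2
      have e : (a * b)⁻¹ * g * (a * b) = b⁻¹ * (a⁻¹ * g * a) * b := by group
      rw [e]; exact this
  | inv a _ ih =>
    intro g hg
    refine ⟨?_, ?_⟩
    · rw [inv_inv]; exact (ih g hg).2
    · rw [inv_inv]; exact (ih g hg).1

/-- TARGET.
See the hints above. -/
theorem N_closed : IsClosed (D.N : Set (GLm p ι)) :=
  Subgroup.isClosed_topologicalClosure _

/-- TARGET.
See the hints above. -/
theorem Nb_closed : IsClosed (D.Nb : Set (GLm p ι)) :=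
  Subgroup.isClosed_topologicalClosure _

/-- TARGET.
See the hints above. -/
theorem x_mem_N (k : I) (t : ℚ_[p]) : D.x k t ∈ D.N :=
  Subgroup.le_topologicalClosure _ (Subgroup.subset_closure ⟨k, t, rfl⟩)

/-- TARGET.
See the hints above. -/
theorem y_mem_Nb (k : I) (t : ℚ_[p]) : D.y k t ∈ D.Nb :=
  Subgroup.le_topologicalClosure _ (Subgroup.subset_closure ⟨k, t, rfl⟩)

/-- TARGET.
See the hints above. -/
theorem N_le_UP : D.N ≤ D.UP := by
  refine Subgroup.topologicalClosure_minimal _ ?_ (US_closed D _ _)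
  rw [Subgroup.closure_le]
  rintro _ ⟨k, t, rfl⟩
  exact x_mem_UP D k t

/-- TARGET.
See the hints above. -/
theorem Nb_le_UM : D.Nb ≤ D.UM := by
  refine Subgroup.topologicalClosure_minimal _ ?_ (US_closed D _ _)
  rw [Subgroup.closure_le]
  rintro _ ⟨k, t, rfl⟩
  exact y_mem_UM D k t

/-- TARGET.
Conjugation is a homeomorphism that maps the generators to generators (`h_conj_x`). -/
theorem h_conj_N (τ : I → ℚ_[p]ˣ) {g : GLm p ι} (hg : g ∈ D.N) : D.h τ * g * (D.h τ)⁻¹ ∈ D.N := by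
  have key : D.N ≤ D.N.comap (MulAut.conj (D.h τ)).toMonoidHom := by
    refine Subgroup.topologicalClosure_minimal _ ?_ ?_
    · rw [Subgroup.closure_le]
      rintro _ ⟨k, t, rfl⟩
      show D.h τ * D.x k t * (D.h τ)⁻¹ ∈ D.N
      rw [h_conj_x]
      exact x_mem_N D k _
    · exact (N_closed D).preimage
        ((continuous_const.mul continuous_id).mul continuous_const)
  exact key hg

/-- TARGET.
See the hints above. -/
theorem h_conj_Nb (τ : I → ℚ_[p]ˣ) {g : GLm p ι} (hg : g ∈ D.Nb) :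
    D.h τ * g * (D.h τ)⁻¹ ∈ D.Nb := by
  have key : D.Nb ≤ D.Nb.comap (MulAut.conj (D.h τ)).toMonoidHom := by
    refine Subgroup.topologicalClosure_minimal _ ?_ ?_
    · rw [Subgroup.closure_le]
      rintro _ ⟨k, t, rfl⟩
      show D.h τ * D.y k t * (D.h τ)⁻¹ ∈ D.Nb
      rw [h_conj_y]
      exact y_mem_Nb D k _
    · exact (Nb_closed D).preimage
        ((continuous_const.mul continuous_id).mul continuous_const)
  exact key hg

/-- TARGET.
See the hints above. -/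
theorem x_mem_Hk (k : I) (t : ℚ_[p]) : D.x k t ∈ D.Hk k :=
  Subgroup.subset_closure ⟨t, Or.inl rfl⟩

/-- TARGET.
See the hints above. -/
theorem y_mem_Hk (k : I) (t : ℚ_[p]) : D.y k t ∈ D.Hk k :=
  Subgroup.subset_closure ⟨t, Or.inr rfl⟩

/-- TARGET.
See the hints above. -/
theorem nt_mem_Hk (k : I) (t : ℚ_[p]ˣ) : D.nt k t ∈ D.Hk k :=
  mul_mem (mul_mem (x_mem_Hk D k _) (y_mem_Hk D k _)) (x_mem_Hk D k _)

/-- TARGET.
`nt_eq`. -/
theorem hk_mem_Hk (k : I) (t : ℚ_[p]ˣ) : D.hk k t ∈ D.Hk k := by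
  have h : D.hk k t = D.nt k t * (D.nt k 1)⁻¹ := by
    rw [nt_one, nt_eq]; group
  rw [h]
  exact mul_mem (nt_mem_Hk D k _) (inv_mem (nt_mem_Hk D k _))

/-- TARGET.
Proof. For the generators `h = x k t` or `y k t`: `h` and `h⁻¹` are supported in the multiples of `A k`, and `h g h⁻¹ - 1 = h (g - 1) h⁻¹` is supported in `PosOff k + ℤ A k ⊆ PosOff k`. Similarly for `g⁻¹`. Then induction over the closure (the inverse of `x k t` is `x k (-t)`). -/
theorem Hk_norm_UPk (k : I) {h g : GLm p ι} (hh : h ∈ D.Hk k) (hg : g ∈ D.UPk k) :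
    h * g * h⁻¹ ∈ D.UPk k := by
  refine (Hk_norm_US D k _ _ ?_ hh g hg).1
  rintro _ ⟨m, rfl⟩ _ ⟨c, hc, ⟨l, hl, hl0⟩, rfl⟩
  refine ⟨Pi.single k m + c, ?_, ⟨l, hl, ?_⟩, ?_⟩
  · intro l hl
    simpa [Pi.single_eq_of_ne hl] using hc l hl
  · simpa [Pi.single_eq_of_ne hl] using hl0
  · rw [D.rt_add, rt_sing]

/-- TARGET.
See the hints above. -/
theorem Hk_norm_UMk (k : I) {h g : GLm p ι} (hh : h ∈ D.Hk k) (hg : g ∈ D.UMk k) :
    h * g * h⁻¹ ∈ D.UMk k := by
  refine (Hk_norm_US D k _ _ ?_ hh g hg).1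
  rintro _ ⟨m, rfl⟩ b ⟨c, hc, ⟨l, hl, hl0⟩, hb⟩
  refine ⟨Pi.single k (-m) + c, ?_, ⟨l, hl, ?_⟩, ?_⟩
  · intro l hl
    simpa [Pi.single_eq_of_ne hl] using hc l hl
  · simpa [Pi.single_eq_of_ne hl] using hl0
  · rw [D.rt_add, rt_sing, ← hb, neg_smul]
    abel

end Pool.Agent.Chev
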