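import Mathlib
import Pool.Agent.Helper911_Chev.Defs3

set_option autoImplicit false
set_option linter.unusedSectionVars false
set_option maxHeartbeats 1000000

noncomputable section

open Matrix Topology

namespace Pool.Agent.Chev

open ChevData

variable {p : ℕ} [Fact p.Prime] {I ι : Type} [Fintype I] [DecidableEq I] [Fintype ι]
  [DecidableEq ι] (D : ChevData p I ι)

/-! ======= TARGETS ======= -/

/-- TARGET. -/
theorem ht_A (k : I) : ht D (D.A k) = D.A.det ^ 2 := by
  have h : ht D (D.A k) = D.A.mulVec (lam D) k := by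
    unfold ht Matrix.mulVec dotProduct
    rfl
  rw [h]
  unfold lam
  rw [Matrix.mulVec_mulVec, Matrix.mul_adjugate, Matrix.smul_mulVec, Matrix.one_mulVec]
  simp [sq]

/-- TARGET. -/
theorem ht_A_pos (k : I) : 0 < ht D (D.A k) := by
  rw [ht_A]
  have := D.A_det
  positivity

/-- TARGET. -/
theorem ht_add (μ ν : I → ℤ) : ht D (μ + ν) = ht D μ + ht D ν := by
  unfold ht
  rw [← Finset.sum_add_distrib]
  refine Finset.sum_congr rfl fun k _ => ?_
  rw [Pi.add_apply]
  ring

/-- TARGET. -/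
theorem ht_neg (μ : I → ℤ) : ht D (-μ) = - ht D μ := by
  unfold ht
  rw [← Finset.sum_neg_distrib]
  refine Finset.sum_congr rfl fun k _ => ?_
  rw [Pi.neg_apply]
  ring

/-- TARGET. -/
theorem ht_sub (μ ν : I → ℤ) : ht D (μ - ν) = ht D μ - ht D ν := by
  rw [sub_eq_add_neg, ht_add, ht_neg, sub_eq_add_neg]

/-- TARGET. -/
theorem ht_pos {μ : I → ℤ} (h : D.Pos μ) : 0 < ht D μ := by
  obtain ⟨c, hc, hc0, rfl⟩ := h
  have h1 : ht D (D.rt c) = ∑ k, c k * D.A.det ^ 2 := by
    have h2 : ht D (D.rt c) = dotProduct (Matrix.vecMul c D.A) (lam D) := rfl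
    rw [h2, ← Matrix.dotProduct_mulVec]
    unfold dotProduct
    refine Finset.sum_congr rfl fun k _ => ?_
    rw [← ht_A D k]
    rfl
  rw [h1]
  have hd : 0 < D.A.det ^ 2 := by
    have := D.A_det
    positivity
  obtain ⟨k, hk⟩ : ∃ k, c k ≠ 0 := by
    by_contra hcon
    push Not at hcon
    exact hc0 (funext hcon)
  apply Finset.sum_pos'
  · intro l _
    exact mul_nonneg (hc l) hd.le
  · exact ⟨k, Finset.mem_univ _, mul_pos (lt_of_le_of_ne (hc k) (Ne.symm hk)) hd⟩

/-- TARGET. -/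
theorem exists_ord : ∃ ord : ι → ℕ, GoodOrd D ord := by
  classical
  let e := Fintype.equivFin ι
  let f : Fin (Fintype.card ι) → ℤ := fun a => - ht D (D.wt (e.symm a))
  let σ := Tuple.sort f
  have hσ : Monotone (f ∘ σ) := Tuple.monotone_sort f
  refine ⟨fun i => ((σ⁻¹ (e i) : Fin (Fintype.card ι)) : ℕ), ?_, ?_⟩
  · intro i j hij
    have h1 : σ⁻¹ (e i) = σ⁻¹ (e j) := Fin.ext hij
    exact e.injective (σ⁻¹.injective h1)
  · intro i j hij
    have h1 : (f ∘ σ) (σ⁻¹ (e i)) < (f ∘ σ) (σ⁻¹ (e j)) := by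
      have h2 : ∀ a, (f ∘ σ) (σ⁻¹ a) = f a := by
        intro a
        simp
      rw [h2, h2]
      show - ht D (D.wt (e.symm (e i))) < - ht D (D.wt (e.symm (e j)))
      rw [e.symm_apply_apply, e.symm_apply_apply]
      linarith
    exact hσ.reflect_lt h1

/-- TARGET. -/
theorem up_mul {ord : ι → ℕ} {X Y : Matrix ι ι ℚ_[p]} (hX : IsUp ord X) (hY : IsUp ord Y) :
    IsUp ord (X * Y) := by
  intro i j hij
  rw [Matrix.mul_apply] at hij
  obtain ⟨k, -, hk⟩ := Finset.exists_ne_zero_of_sum_ne_zero hij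
  exact (hX i k (left_ne_zero_of_mul hk)).trans (hY k j (right_ne_zero_of_mul hk))

/-- TARGET. -/
theorem up_inv {ord : ι → ℕ} (ho : Function.Injective ord) {g : GLm p ι}
    (hg : IsUp ord (g : Matrix ι ι ℚ_[p])) : IsUp ord ((g⁻¹ : GLm p ι) : Matrix ι ι ℚ_[p]) := by
  have h1 : Matrix.BlockTriangular (g : Matrix ι ι ℚ_[p]) ord := by
    intro i j hij
    by_contra hne
    exact absurd (hg i j hne) (not_le.2 hij)
  haveI : Invertible (g : Matrix ι ι ℚ_[p]) := g.invertible
  have h2 := Matrix.blockTriangular_inv_of_blockTriangular h1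
  rw [← Matrix.coe_units_inv] at h2
  intro i j hij
  by_contra hlt
  exact hij (h2 (not_le.1 hlt))

/-- TARGET. -/
theorem lo_mul {ord : ι → ℕ} {X Y : Matrix ι ι ℚ_[p]} (hX : IsLo ord X) (hY : IsLo ord Y) :
    IsLo ord (X * Y) := by
  intro i j hij
  have h : X * Y - 1 = (X - 1) * (Y - 1) + ((X - 1) + (Y - 1)) := by noncomm_ring
  rw [h, Matrix.add_apply, Matrix.add_apply] at hij
  by_cases h1 : (X - 1) i j = 0
  · by_cases h2 : (Y - 1) i j = 0
    · rw [h1, h2, add_zero, add_zero, Matrix.mul_apply] at hij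
      obtain ⟨k, -, hk⟩ := Finset.exists_ne_zero_of_sum_ne_zero hij
      exact (hY k j (right_ne_zero_of_mul hk)).trans (hX i k (left_ne_zero_of_mul hk))
    · exact hY i j h2
  · exact hX i j h1

/-- TARGET. -/
theorem lo_inv {ord : ι → ℕ} (ho : Function.Injective ord) {g : GLm p ι}
    (hg : IsLo ord (g : Matrix ι ι ℚ_[p])) : IsLo ord ((g⁻¹ : GLm p ι) : Matrix ι ι ℚ_[p]) := by
  have hle : ∀ i j, (g : Matrix ι ι ℚ_[p]) i j ≠ 0 → ord j ≤ ord i := by
    intro i j hne
    by_cases hij : i = j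
    · rw [hij]
    · apply (hg i j _).le
      rw [Matrix.sub_apply, Matrix.one_apply_ne hij, sub_zero]
      exact hne
  have h1 : Matrix.BlockTriangular (g : Matrix ι ι ℚ_[p]) (fun i => OrderDual.toDual (ord i)) := by
    intro i j hij
    by_contra hne
    have h3 : ord i < ord j := hij
    exact absurd (hle i j hne) (not_le.2 h3)
  haveI : Invertible (g : Matrix ι ι ℚ_[p]) := g.invertible
  have h2 := Matrix.blockTriangular_inv_of_blockTriangular h1
  rw [← Matrix.coe_units_inv] at h2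
  have hle' : ∀ i j, ((g⁻¹ : GLm p ι) : Matrix ι ι ℚ_[p]) i j ≠ 0 → ord j ≤ ord i := by
    intro i j hne
    by_contra hlt
    have h3 : (OrderDual.toDual (ord j)) < (OrderDual.toDual (ord i)) := not_le.1 hlt
    exact hne (h2 h3)
  have hd : ∀ i, (g : Matrix ι ι ℚ_[p]) i i = 1 := by
    intro i
    by_contra hne
    have h3 : ((g : Matrix ι ι ℚ_[p]) - 1) i i ≠ 0 := by
      rw [Matrix.sub_apply, Matrix.one_apply_eq]
      exact sub_ne_zero.2 hne
    exact absurd (hg i i h3) (lt_irrefl _)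
  have hd' : ∀ i, ((g⁻¹ : GLm p ι) : Matrix ι ι ℚ_[p]) i i = 1 := by
    intro i
    have h3 : ((g : Matrix ι ι ℚ_[p]) * ((g⁻¹ : GLm p ι) : Matrix ι ι ℚ_[p])) i i = 1 := by
      rw [← Units.val_mul, mul_inv_cancel, Units.val_one, Matrix.one_apply_eq]
    rw [Matrix.mul_apply, Finset.sum_eq_single i, hd i, one_mul] at h3
    · exact h3
    · intro k _ hki
      by_contra hne
      have h4 := hle i k (left_ne_zero_of_mul hne)
      have h5 := hle' k i (right_ne_zero_of_mul hne)
      exact hki (ho (le_antisymm h4 h5))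
    · intro h; exact absurd (Finset.mem_univ i) h
  intro i j hij
  by_cases h3 : i = j
  · exfalso
    subst h3
    apply hij
    rw [Matrix.sub_apply, Matrix.one_apply_eq, hd' i, sub_self]
  · rw [Matrix.sub_apply, Matrix.one_apply_ne h3, sub_zero] at hij
    exact lt_of_le_of_ne (hle' i j hij) (fun h => h3 (ho h.symm))

/-- TARGET. -/
theorem up_lo {ord : ι → ℕ} {g : GLm p ι} (h1 : IsUp ord (g : Matrix ι ι ℚ_[p]))
    (h2 : IsLo ord (g : Matrix ι ι ℚ_[p])) : g = 1 := by
  apply Units.ext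
  rw [Units.val_one, ← sub_eq_zero]
  ext i j
  by_contra hne
  have h3 := h2 i j hne
  have h4 : i ≠ j := by
    rintro rfl
    exact lt_irrefl _ h3
  rw [Matrix.sub_apply, Matrix.one_apply_ne h4, sub_zero] at hne
  exact absurd (h1 i j hne) (not_le.2 h3)

end Pool.Agent.Chev
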