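import Mathlib
import Pool.Agent.Helper911_Chev.Defs3
import Pool.Agent.Helper911_Chev.CA1
import Pool.Agent.Helper911_Chev.CA2
import Pool.Agent.Helper911_Chev.CA3
import Pool.Agent.Helper911_Chev.CB1
import Pool.Agent.Helper911_Chev.CB2
import Pool.Agent.Helper911_Chev.CB3
import Pool.Agent.Helper911_Chev.CB4
import Pool.Agent.Helper911_Chev.CD1
import Pool.Agent.Helper911_Chev.CC1
import Pool.Agent.Helper911_Chev.CC2
import Pool.Agent.Helper911_Chev.CW1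
import Pool.Agent.Helper911_Chev.CW2

set_option autoImplicit false
set_option linter.unusedSectionVars false
set_option maxHeartbeats 1000000

noncomputable section

open Matrix Topology

namespace Pool.Agent.Chev

open ChevData

variable {p : ℕ} [Fact p.Prime] {I ι : Type} [Fintype I] [DecidableEq I] [Fintype ι]
  [DecidableEq ι] (D : ChevData p I ι)

/-! ======= TARGETS ======= -/

theorem cj_mulM (g : GLm p ι) (X Y : Matrix ι ι ℚ_[p]) : cj g (X * Y) = cj g X * cj g Y := by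
  unfold cj
  have h : ((g⁻¹ : GLm p ι) : Matrix ι ι ℚ_[p]) * (g : Matrix ι ι ℚ_[p]) = 1 := by
    rw [← Units.val_mul, inv_mul_cancel, Units.val_one]
  calc (g : Matrix ι ι ℚ_[p]) * (X * Y) * ((g⁻¹ : GLm p ι) : Matrix ι ι ℚ_[p])
      = (g : Matrix ι ι ℚ_[p]) * X * 1 * Y * ((g⁻¹ : GLm p ι) : Matrix ι ι ℚ_[p]) := by noncomm_ring
    _ = (g : Matrix ι ι ℚ_[p]) * X * (((g⁻¹ : GLm p ι) : Matrix ι ι ℚ_[p]) * (g : Matrix ι ι ℚ_[p])) * Y *
        ((g⁻¹ : GLm p ι) : Matrix ι ι ℚ_[p]) := by rw [h]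
    _ = _ := by noncomm_ring

theorem cj_subM (g : GLm p ι) (X Y : Matrix ι ι ℚ_[p]) : cj g (X - Y) = cj g X - cj g Y := by
  unfold cj; noncomm_ring

theorem cj_inj0 (g : GLm p ι) {X : Matrix ι ι ℚ_[p]} (h : cj g X = 0) : X = 0 := by
  have h1 : cj (g⁻¹) (cj g X) = X := by rw [← cj_mul, inv_mul_cancel, cj_one]
  rw [← h1, h]
  unfold cj
  simp

theorem nn_E {g : GLm p ι} (hg : g ∈ D.NN) {w : (I → ℤ) ≃ₗ[ℤ] (I → ℤ)}
    (h : D.Rep g w) (k l : I) (hkl : w (D.A k) = D.A l) :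
    ∃ c : ℚ_[p], c ≠ 0 ∧ cj g (D.E k) = c • D.E l := by
  have h1 : D.Supp {D.A k} (D.E k) := by
    intro i j hij
    rw [Set.mem_singleton_iff, D.E_wt k i j hij]
    abel
  have h2 := supp_cj D h h1
  rw [Set.image_singleton, hkl] at h2
  obtain ⟨c, hc⟩ := Lg_simple D (Lg_cj_NN D (Lg_E D k) hg) l h2
  refine ⟨c, ?_, hc⟩
  intro h0
  rw [h0, zero_smul] at hc
  exact E_ne D k (cj_inj0 g hc)

theorem nn_EF {g : GLm p ι} (hg : g ∈ D.NN) {w : (I → ℤ) ≃ₗ[ℤ] (I → ℤ)}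
    (h : D.Rep g w) (k l : I) (hkl : w (D.A k) = D.A l) :
    ∃ c : ℚ_[p]ˣ, cj g (D.E k) = (c : ℚ_[p]) • D.E l ∧
      cj g (D.F k) = (((c⁻¹ : ℚ_[p]ˣ)) : ℚ_[p]) • D.F l := by
  obtain ⟨c, hc0, hc⟩ := nn_E D hg h k l hkl
  have hg' : g ∈ D.dual.NN := by rw [dual_NN]; exact hg
  have h' : D.dual.Rep g w := (dual_rep D g w).2 h
  obtain ⟨c', hc0', hc'⟩ := nn_E D.dual hg' h' k l hkl
  have hc'' : cj g (D.F k) = c' • D.F l := hc'
  -- the images of the coroots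
  have eH : ∀ m : I, Hm D m = D.E m * D.F m - D.F m * D.E m := fun m => (D.EF_same m).symm
  have hH : cj g (Hm D k) = (c * c') • Hm D l := by
    rw [eH k, eH l, cj_subM, cj_mulM, cj_mulM, hc, hc'']
    rw [smul_sub, smul_mul_smul_comm, smul_mul_smul_comm, mul_comm c' c]
  have h2 := HE D k k
  have h3 := HE D l l
  rw [D.A_diag] at h2 h3
  have h4 := congrArg (cj g) h2
  rw [cj_subM, cj_mulM, cj_mulM, cj_smul, hH, hc, smul_mul_smul_comm, smul_mul_smul_comm,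
    mul_comm c (c * c'), ← smul_sub, h3, smul_smul, smul_smul] at h4
  have h5 : (c * c' * c * ((2 : ℤ) : ℚ_[p]) - ((2 : ℤ) : ℚ_[p]) * c) • D.E l = 0 := by
    rw [sub_smul, h4, sub_self]
  have h6 := (smul_eq_zero.1 h5).resolve_right (E_ne D l)
  have h7 : c * c' = 1 := by
    have h8 : (2 * c) * (c * c' - 1) = 0 := by
      push_cast at h6
      linear_combination h6
    have h9 : (2 : ℚ_[p]) * c ≠ 0 := mul_ne_zero two_ne_zero hc0
    exact sub_eq_zero.1 ((mul_eq_zero.1 h8).resolve_left h9)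
  refine ⟨Units.mk0 c hc0, hc, ?_⟩
  have h8 : (((Units.mk0 c hc0)⁻¹ : ℚ_[p]ˣ) : ℚ_[p]) = c' := by
    rw [Units.val_inv_eq_inv_val, Units.val_mk0]
    exact (eq_inv_of_mul_eq_one_right h7).symm
  rw [h8]
  exact hc''

/-- TARGET.
Proof. `cj g (E k) ∈ Lg` is supported in `{A l}`, so it is `c • E l` (`Lg_simple`), `c ≠ 0` (`E_ne`). Similarly `cj g (F k) = c' • F l` (`Lg_simple` for `D.dual`). `cj g (E k F k - F k E k) = c c' • Hm l` (`EF_same`), and it is `cj g (Hm k)`, the diagonal matrix with entries `(w⁻¹ (wt i)) k`. So `(w⁻¹ (wt i)) k = c c' * wt i l` for all `i`; as the `wt i` generate the lattice, `(w⁻¹ μ) k = c c' * μ l` for all `μ`;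
`μ = A l = w (A k)` gives `2 = 2 c c'`. Then `exU_conj`. -/
theorem NN_conj_simple {g : GLm p ι} (hg : g ∈ D.NN) {w : (I → ℤ) ≃ₗ[ℤ] (I → ℤ)}
    (h : D.Rep g w) (k l : I) (hkl : w (D.A k) = D.A l) :
    ∃ c : ℚ_[p]ˣ, (∀ t, g * D.x k t * g⁻¹ = D.x l (c * t)) ∧
      (∀ t, g * D.y k t * g⁻¹ = D.y l (((c⁻¹ : ℚ_[p]ˣ) : ℚ_[p]) * t)) := by
  obtain ⟨c, hE, hF⟩ := nn_EF D hg h k l hkl
  refine ⟨c, ?_, ?_⟩
  · intro t
    have h1 := exU_conj g (tE_nil D k t)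
    have h2 : (g : Matrix ι ι ℚ_[p]) * (t • D.E k) * ((g⁻¹ : GLm p ι) : Matrix ι ι ℚ_[p]) =
        ((c : ℚ_[p]) * t) • D.E l := by
      show cj g (t • D.E k) = _
      rw [cj_smul, hE, smul_smul, mul_comm t]
    rw [h2] at h1
    exact h1
  · intro t
    have h1 := exU_conj g (tF_nil D k t)
    have h2 : (g : Matrix ι ι ℚ_[p]) * (t • D.F k) * ((g⁻¹ : GLm p ι) : Matrix ι ι ℚ_[p]) =
        ((((c⁻¹ : ℚ_[p]ˣ)) : ℚ_[p]) * t) • D.F l := by
      show cj g (t • D.F k) = _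
      rw [cj_smul, hF, smul_smul, mul_comm t]
    rw [h2] at h1
    exact h1

/-- TARGET.
`NN_conj_simple`: `g n_k g⁻¹ = x_l(c) y_l(-c⁻¹) x_l(c) = nt l c = hk l c * n l`. -/
theorem NN_conj_n {g : GLm p ι} (hg : g ∈ D.NN) {w : (I → ℤ) ≃ₗ[ℤ] (I → ℤ)}
    (h : D.Rep g w) (k l : I) (hkl : w (D.A k) = D.A l) :
    ∃ τ : I → ℚ_[p]ˣ, g * D.n k * g⁻¹ = D.h τ * D.n l := by
  obtain ⟨c, hx, hy⟩ := NN_conj_simple D hg h k l hkl
  refine ⟨fun m => c ^ (Pi.single l 1 : I → ℤ) m, ?_⟩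
  have h1 : g * D.n k * g⁻¹ =
      (g * D.x k 1 * g⁻¹) * (g * D.y k (-1) * g⁻¹) * (g * D.x k 1 * g⁻¹) := by
    unfold ChevData.n
    group
  have h2 : D.nt l c = D.hk l c * D.n l := nt_eq D l c
  rw [h1, hx, hy, mul_one, mul_neg, mul_one]
  exact h2

end Pool.Agent.Chev
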