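import Mathlib
import Pool.Agent.Helper911_Chev.Defs3
import Pool.Agent.Helper911_Chev.CA1
import Pool.Agent.Helper911_Chev.CA2
import Pool.Agent.Helper911_Chev.CA3
import Pool.Agent.Helper911_Chev.CH0
import Pool.Agent.Helper911_Chev.CB4
import Pool.Agent.Helper911_Chev.CB3
import Pool.Agent.Helper911_Chev.CE1

set_option autoImplicit false
set_option linter.unusedSectionVars false
set_option maxHeartbeats 1000000

noncomputable section

open Matrix Topology

namespace Pool.Agent.Chev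

open ChevData

variable {p : ℕ} [Fact p.Prime] {I ι : Type} [Fintype I] [DecidableEq I] [Fintype ι]
  [DecidableEq ι] (D : ChevData p I ι)

/-! ======= TARGETS ======= -/

/-- TARGET.
See the hints above. -/
theorem UP_up {ord : ι → ℕ} (ho : GoodOrd D ord) {g : GLm p ι} (hg : g ∈ D.UP) :
    IsUp ord (g : Matrix ι ι ℚ_[p]) := by
  intro i j hij
  by_cases h : i = j
  · rw [h]
  · have h1 : ((g : Matrix ι ι ℚ_[p]) - 1) i j ≠ 0 := by
      rw [Matrix.sub_apply, Matrix.one_apply_ne h, sub_zero]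
      exact hij
    have h2 : D.Pos (D.wt i - D.wt j) := hg.1 i j h1
    have h3 := ht_pos D h2
    rw [ht_sub] at h3
    exact (ho.mono i j (by linarith)).le

/-- TARGET.
See the hints above. -/
theorem UM_lo {ord : ι → ℕ} (ho : GoodOrd D ord) {g : GLm p ι} (hg : g ∈ D.UM) :
    IsLo ord (g : Matrix ι ι ℚ_[p]) := by
  intro i j hij
  have h2 : D.Pos (-(D.wt i - D.wt j)) := hg.1 i j hij
  have h3 := ht_pos D h2
  rw [ht_neg, ht_sub] at h3
  exact ho.mono j i (by linarith)

/-- TARGET.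
See the hints above. -/
theorem h_up {ord : ι → ℕ} (τ : I → ℚ_[p]ˣ) : IsUp ord (D.h τ : Matrix ι ι ℚ_[p]) := by
  intro i j hij
  rw [h_apply] at hij
  by_cases h : i = j
  · rw [h]
  · rw [if_neg h] at hij
    exact absurd rfl hij

/-- TARGET.
`T` normalises `N` (`h_conj_N`). -/
theorem mem_B (b : GLm p ι) : b ∈ D.B ↔ ∃ τ : I → ℚ_[p]ˣ, ∃ n ∈ D.N, b = D.h τ * n := by
  constructor
  · intro hb
    let K : Subgroup (GLm p ι) :=
      { carrier := {b | ∃ τ : I → ℚ_[p]ˣ, ∃ n ∈ D.N, b = D.h τ * n}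
        mul_mem' := by
          rintro _ _ ⟨τ, n, hn, rfl⟩ ⟨τ', n', hn', rfl⟩
          refine ⟨τ * τ', (D.h τ'⁻¹ * n * (D.h τ'⁻¹)⁻¹) * n',
            mul_mem (h_conj_N D _ hn) hn', ?_⟩
          rw [map_mul, map_inv]
          group
        one_mem' := ⟨1, 1, one_mem _, by simp⟩
        inv_mem' := by
          rintro _ ⟨τ, n, hn, rfl⟩
          refine ⟨τ⁻¹, D.h τ * n⁻¹ * (D.h τ)⁻¹, h_conj_N D _ (inv_mem hn), ?_⟩
          rw [map_inv]
          group }
    have hT : D.T ≤ K := by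
      rintro _ ⟨τ, rfl⟩
      exact ⟨τ, 1, one_mem _, by simp⟩
    have hN : D.N ≤ K := by
      intro n hn
      exact ⟨1, n, hn, by simp⟩
    have hle : D.B ≤ K := sup_le hT hN
    exact hle hb
  · rintro ⟨τ, n, hn, rfl⟩
    exact mul_mem ((le_sup_left : D.T ≤ D.T ⊔ D.N) ⟨τ, rfl⟩)
      ((le_sup_right : D.N ≤ D.T ⊔ D.N) hn)

/-- TARGET.
See the hints above. -/
theorem B_up {ord : ι → ℕ} (ho : GoodOrd D ord) {g : GLm p ι} (hg : g ∈ D.B) :
    IsUp ord (g : Matrix ι ι ℚ_[p]) := by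
  obtain ⟨τ, n, hn, rfl⟩ := (mem_B D g).1 hg
  rw [Units.val_mul]
  exact up_mul (h_up D τ) (UP_up D ho (N_le_UP D hn))

/-- TARGET.
See the hints above. -/
theorem B_inter_Nb {g : GLm p ι} (h1 : g ∈ D.B) (h2 : g ∈ D.Nb) : g = 1 := by
  obtain ⟨ord, ho⟩ := exists_ord D
  exact up_lo (B_up D ho h1) (UM_lo D ho (Nb_le_UM D h2))

/-- TARGET.
See the hints above. -/
theorem N_inter_Nb {g : GLm p ι} (h1 : g ∈ D.N) (h2 : g ∈ D.Nb) : g = 1 :=
  B_inter_Nb D ((le_sup_right : D.N ≤ D.T ⊔ D.N) h1) h2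

/-- TARGET.
Proof. If `h τ = 1` then `∏ τ_k ^ wt i k = 1` for all `i`; the set of `μ` with `∏ τ_k ^ μ k = 1` is a subgroup containing the `wt i`, hence everything (`D.span`); take `μ = single k 1`. -/
theorem h_inj : Function.Injective D.h := by
  rw [injective_iff_map_eq_one]
  intro τ hτ
  let K : AddSubgroup (I → ℤ) :=
    { carrier := {μ | ∏ k, τ k ^ μ k = 1}
      add_mem' := by
        intro a b ha hb
        simp only [Set.mem_ofPred_eq] at ha hb ⊢
        simp only [Pi.add_apply, _root_.zpow_add, Finset.prod_mul_distrib, ha, hb, mul_one]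
      zero_mem' := by simp
      neg_mem' := by
        intro a ha
        simp only [Set.mem_ofPred_eq] at ha ⊢
        simp only [Pi.neg_apply, _root_.zpow_neg, Finset.prod_inv_distrib, ha, inv_one] }
  have hK : AddSubgroup.closure (Set.range D.wt) ≤ K := by
    rw [AddSubgroup.closure_le]
    rintro _ ⟨i, rfl⟩
    show ∏ k, τ k ^ D.wt i k = 1
    have h1 := h_apply D τ i i
    rw [hτ, if_pos rfl, Units.val_one, Matrix.one_apply_eq] at h1
    exact (Units.val_eq_one.1 h1.symm)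
  rw [D.span] at hK
  funext k
  have h2 : ∏ l, τ l ^ (Pi.single k (1 : ℤ) : I → ℤ) l = 1 := hK (AddSubgroup.mem_top _)
  rw [Finset.prod_eq_single k] at h2
  · simpa using h2
  · intro l _ hl
    rw [Pi.single_eq_of_ne hl, zpow_zero]
  · intro h
    exact absurd (Finset.mem_univ k) h

end Pool.Agent.Chev
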