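import Mathlib
import Pool.Agent.Helper911_Chev.Defs3
import Pool.Agent.Helper911_Chev.CA1
import Pool.Agent.Helper911_Chev.CA2
import Pool.Agent.Helper911_Chev.CA3
import Pool.Agent.Helper911_Chev.CB4
import Pool.Agent.Helper911_Chev.CB2
import Pool.Agent.Helper911_Chev.CB3
import Pool.Agent.Helper911_Chev.CE1

set_option autoImplicit false
set_option linter.unusedSectionVars false
set_option maxHeartbeats 1000000

noncomputable section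

open Matrix Topology

namespace Pool.Agent.Chev

open ChevData

variable {p : ℕ} [Fact p.Prime] {I ι : Type} [Fintype I] [DecidableEq I] [Fintype ι]
  [DecidableEq ι] (D : ChevData p I ι)

/-! ======= TARGETS ======= -/

/-! helper lemmas -/

theorem ce2_al_hk (k j : I) (a : ℚ_[p]ˣ) :
    al D j (fun l => a ^ (Pi.single k 1 : I → ℤ) l) = a ^ D.A j k := by
  unfold al
  rw [Finset.prod_eq_single k]
  · show (a ^ (Pi.single k 1 : I → ℤ) k) ^ D.A j k = _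
    rw [Pi.single_eq_same, _root_.zpow_one]
  · intro l _ hl
    show (a ^ (Pi.single k 1 : I → ℤ) l) ^ D.A j l = 1
    rw [Pi.single_eq_of_ne hl, _root_.zpow_zero, _root_.one_zpow]
  · intro h
    exact absurd (Finset.mem_univ _) h

theorem ce2_hk_x (k : I) (c : ℚ_[p]ˣ) (t : ℚ_[p]) :
    D.hk k c * D.x k t = D.x k ((c : ℚ_[p]) ^ 2 * t) * D.hk k c := by
  have h := h_conj_x D k (fun l => c ^ (Pi.single k 1 : I → ℤ) l) t
  rw [ce2_al_hk, D.A_diag] at h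
  have e : D.hk k c = D.h (fun l => c ^ (Pi.single k 1 : I → ℤ) l) := rfl
  have e2 : ((c ^ (2 : ℤ) : ℚ_[p]ˣ) : ℚ_[p]) = (c : ℚ_[p]) ^ 2 := by
    rw [← Units.val_pow_eq_pow_val]
    rfl
  rw [e2] at h
  rw [e, ← h, inv_mul_cancel_right]

theorem ce2_n_y (k : I) (t : ℚ_[p]) : D.n k * D.y k t = D.x k (-t) * D.n k := by
  have h := nt_conj_y D k 1 t
  rw [nt_one, Units.val_one, one_pow, neg_one_mul] at h
  rw [← h, inv_mul_cancel_right]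

/-- TARGET.
Entries: if `(n k) i j ≠ 0` then `wt i k = - wt j k`. -/
theorem n_hk (k : I) (t : ℚ_[p]ˣ) : D.n k * D.hk k t = D.hk k t⁻¹ * D.n k := by
  have hrep : D.Rep (D.n k) (D.s k) := by
    rw [← nt_one]
    exact nt_rep D k 1
  apply Units.ext
  rw [Units.val_mul, Units.val_mul]
  ext i j
  rw [Matrix.mul_apply, Matrix.mul_apply]
  have e1 : ∑ l, (D.n k : Matrix ι ι ℚ_[p]) i l * (D.hk k t : Matrix ι ι ℚ_[p]) l j =
      (D.n k : Matrix ι ι ℚ_[p]) i j * ((t ^ D.wt j k : ℚ_[p]ˣ) : ℚ_[p]) := by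
    rw [Finset.sum_eq_single j]
    · rw [hk_apply, if_pos rfl]
    · intro l _ hl
      rw [hk_apply, if_neg hl, mul_zero]
    · intro h
      exact absurd (Finset.mem_univ _) h
  have e2 : ∑ l, (D.hk k t⁻¹ : Matrix ι ι ℚ_[p]) i l * (D.n k : Matrix ι ι ℚ_[p]) l j =
      ((t⁻¹ ^ D.wt i k : ℚ_[p]ˣ) : ℚ_[p]) * (D.n k : Matrix ι ι ℚ_[p]) i j := by
    rw [Finset.sum_eq_single i]
    · rw [hk_apply, if_pos rfl]
    · intro l _ hl
      rw [hk_apply, if_neg (Ne.symm hl), zero_mul]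
    · intro h
      exact absurd (Finset.mem_univ _) h
  rw [e1, e2]
  by_cases hij : (D.n k : Matrix ι ι ℚ_[p]) i j = 0
  · rw [hij, zero_mul, mul_zero]
  · have h1 := congrFun (hrep i j hij) k
    rw [D.s_apply, Pi.sub_apply, Pi.smul_apply, D.A_diag, smul_eq_mul] at h1
    have h2 : D.wt i k = - D.wt j k := by omega
    rw [h2, _root_.inv_zpow, _root_.zpow_neg, inv_inv, mul_comm]

theorem ce2_n_x (k : I) (t : ℚ_[p]ˣ) : D.n k * D.x k (t : ℚ_[p]) =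
    D.x k (-((t⁻¹ : ℚ_[p]ˣ) : ℚ_[p])) * D.hk k (-t⁻¹) * D.y k ((t⁻¹ : ℚ_[p]ˣ) : ℚ_[p]) := by
  rw [x_eq, ← mul_assoc, ← mul_assoc, ce2_n_y, nt_eq]
  have h1 : D.x k (-((t⁻¹ : ℚ_[p]ˣ) : ℚ_[p])) * D.n k * (D.hk k t * D.n k) =
      D.x k (-((t⁻¹ : ℚ_[p]ˣ) : ℚ_[p])) * (D.n k * D.hk k t) * D.n k := by
    simp only [mul_assoc]
  rw [h1, n_hk]
  have h2 : D.x k (-((t⁻¹ : ℚ_[p]ˣ) : ℚ_[p])) * (D.hk k t⁻¹ * D.n k) * D.n k =
      D.x k (-((t⁻¹ : ℚ_[p]ˣ) : ℚ_[p])) * (D.hk k t⁻¹ * (D.n k * D.n k)) := by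
    simp only [mul_assoc]
  rw [h2, n_sq, ← hk_mul, mul_neg_one]

/-- the two kinds of elements -/
def ce2Q (k : I) (h : GLm p ι) : Prop :=
    (∃ (a b : ℚ_[p]) (c : ℚ_[p]ˣ), h = D.x k a * D.hk k c * D.y k b) ∨
    (∃ (a : ℚ_[p]) (c : ℚ_[p]ˣ), h = D.x k a * D.hk k c * D.n k)

theorem ce2_mul_y (k : I) {h : GLm p ι} (hh : ce2Q D k h) (t : ℚ_[p]) :
    ce2Q D k (h * D.y k t) := by
  rcases hh with ⟨a, b, c, rfl⟩ | ⟨a, c, rfl⟩
  · refine Or.inl ⟨a, b + t, c, ?_⟩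
    rw [y_add, mul_assoc]
  · refine Or.inr ⟨a + (c : ℚ_[p]) ^ 2 * (-t), c, ?_⟩
    rw [mul_assoc, ce2_n_y, x_add]
    calc D.x k a * D.hk k c * (D.x k (-t) * D.n k) =
        D.x k a * (D.hk k c * D.x k (-t)) * D.n k := by simp only [mul_assoc]
      _ = _ := by rw [ce2_hk_x]; simp only [mul_assoc]

theorem ce2_mul_x (k : I) {h : GLm p ι} (hh : ce2Q D k h) (t : ℚ_[p]) :
    ce2Q D k (h * D.x k t) := by
  rcases hh with ⟨a, b, c, rfl⟩ | ⟨a, c, rfl⟩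
  · by_cases hw : 1 + t * b = 0
    · have ht : t ≠ 0 := by
        rintro rfl
        rw [zero_mul, add_zero] at hw
        exact one_ne_zero hw
      obtain ⟨u, rfl⟩ : ∃ u : ℚ_[p]ˣ, (u : ℚ_[p]) = t := ⟨Units.mk0 t ht, rfl⟩
      have hb : b = -((u⁻¹ : ℚ_[p]ˣ) : ℚ_[p]) := by
        rw [Units.val_inv_eq_inv_val]
        field_simp
        linear_combination hw
      refine Or.inr ⟨a + (c : ℚ_[p]) ^ 2 * (-(u : ℚ_[p])), c * u, ?_⟩
      have h1 : D.y k b * D.x k (u : ℚ_[p]) = D.x k (-(u : ℚ_[p])) * (D.hk k u * D.n k) := by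
        rw [← nt_eq, nt, ← hb, x_neg]
        simp only [mul_assoc]
        rw [inv_mul_cancel_left]
      rw [mul_assoc, h1, x_add, hk_mul]
      calc D.x k a * D.hk k c * (D.x k (-(u : ℚ_[p])) * (D.hk k u * D.n k)) =
          D.x k a * (D.hk k c * D.x k (-(u : ℚ_[p]))) * (D.hk k u * D.n k) := by
            simp only [mul_assoc]
        _ = _ := by rw [ce2_hk_x]; simp only [mul_assoc]
    · obtain ⟨w, hw'⟩ : ∃ w : ℚ_[p]ˣ, (w : ℚ_[p]) = 1 + t * b := ⟨Units.mk0 _ hw, rfl⟩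
      refine Or.inl ⟨a + (c : ℚ_[p]) ^ 2 * (t / w), b / w, c * w⁻¹, ?_⟩
      rw [mul_assoc, yx D k t b w hw', x_add, hk_mul]
      calc D.x k a * D.hk k c * (D.x k (t / w) * D.hk k w⁻¹ * D.y k (b / w)) =
          D.x k a * (D.hk k c * D.x k (t / w)) * (D.hk k w⁻¹ * D.y k (b / w)) := by
            simp only [mul_assoc]
        _ = _ := by rw [ce2_hk_x]; simp only [mul_assoc]
  · by_cases ht : t = 0
    · rw [ht, x_zero, mul_one]
      exact Or.inr ⟨a, c, rfl⟩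
    · obtain ⟨u, rfl⟩ : ∃ u : ℚ_[p]ˣ, (u : ℚ_[p]) = t := ⟨Units.mk0 t ht, rfl⟩
      refine Or.inl ⟨a + (c : ℚ_[p]) ^ 2 * (-((u⁻¹ : ℚ_[p]ˣ) : ℚ_[p])),
        ((u⁻¹ : ℚ_[p]ˣ) : ℚ_[p]), c * (-u⁻¹), ?_⟩
      rw [mul_assoc, ce2_n_x, x_add, hk_mul]
      calc D.x k a * D.hk k c * (D.x k (-((u⁻¹ : ℚ_[p]ˣ) : ℚ_[p])) * D.hk k (-u⁻¹) *
            D.y k ((u⁻¹ : ℚ_[p]ˣ) : ℚ_[p])) =
          D.x k a * (D.hk k c * D.x k (-((u⁻¹ : ℚ_[p]ˣ) : ℚ_[p]))) * (D.hk k (-u⁻¹) *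
            D.y k ((u⁻¹ : ℚ_[p]ˣ) : ℚ_[p])) := by
            simp only [mul_assoc]
        _ = _ := by rw [ce2_hk_x]; simp only [mul_assoc]

/-- TARGET.
Proof. The set of these elements contains `1` and is stable under right multiplication by `x k t` and `y k t` (then use `Subgroup.closure_induction_right`, the inverses of the generators being generators). Write `x, y, n, hk`. `hk(c) x(t) = x(c^2 t) hk(c)` (`h_conj_x`, `A k k = 2`). (i) `x(a) hk(c) y(b) y(t)`: clear. (ii) `x(a) hk(c) y(b) x(t)`: if `w = 1 + t b ≠ 0` use `yx`; if `1 + t b = 0`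
then `t ≠ 0`, `b = -t⁻¹` and `y(-t⁻¹) x(t) = x(-t) nt(t) = x(-t) hk(t) n`. (iii) `x(a) hk(c) n x(t)`: for `t = 0` clear; otherwise `x(t) = y(t⁻¹) nt(t) y(t⁻¹)` (`x_eq`), so `n x(t) = (n y(t⁻¹) n⁻¹) n hk(t) n y(t⁻¹) = x(-t⁻¹) hk(t⁻¹) n n y(t⁻¹)` and `n n = hk(-1)`. (`n hk(t) = hk(t⁻¹) n`: `rep_conj`, or compare
entries.) (iv) `x(a) hk(c) n y(t) = x(a) hk(c) x(-t) n` (`nt_conj_y` with `t = 1`). -/
theorem Hk_cells (k : I) {h : GLm p ι} (hh : h ∈ D.Hk k) :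
    (∃ (a b : ℚ_[p]) (c : ℚ_[p]ˣ), h = D.x k a * D.hk k c * D.y k b) ∨
    (∃ (a : ℚ_[p]) (c : ℚ_[p]ˣ), h = D.x k a * D.hk k c * D.n k) := by
  show ce2Q D k h
  induction hh using Subgroup.closure_induction_right with
  | one =>
    refine Or.inl ⟨0, 0, 1, ?_⟩
    rw [x_zero, y_zero, hk_one, mul_one, mul_one]
  | mul_right z _ w hw ih =>
    obtain ⟨t, rfl | rfl⟩ := hw
    · exact ce2_mul_x D k ih t
    · exact ce2_mul_y D k ih t
  | mul_inv_cancel z _ w hw ih =>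
    obtain ⟨t, rfl | rfl⟩ := hw
    · rw [← x_neg]
      exact ce2_mul_x D k ih _
    · rw [← y_neg]
      exact ce2_mul_y D k ih _

theorem ce2_conj_xh (k : I) (a : ℚ_[p]) (c : ℚ_[p]ˣ) {g : GLm p ι} (hg : g ∈ D.N) :
    (D.x k a * D.hk k c) * g * (D.x k a * D.hk k c)⁻¹ ∈ D.N := by
  have h1 : D.hk k c * g * (D.hk k c)⁻¹ ∈ D.N :=
    h_conj_N D (fun l => c ^ (Pi.single k 1 : I → ℤ) l) hg
  have h2 := mul_mem (mul_mem (x_mem_N D k a) h1) (inv_mem (x_mem_N D k a))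
  have e : (D.x k a * D.hk k c) * g * (D.x k a * D.hk k c)⁻¹ =
      D.x k a * (D.hk k c * g * (D.hk k c)⁻¹) * (D.x k a)⁻¹ := by group
  rw [e]
  exact h2

theorem ce2_conj_big (k j : I) (hjk : j ≠ k) (a b : ℚ_[p]) (c : ℚ_[p]ˣ) (t : ℚ_[p]) :
    (D.x k a * D.hk k c * D.y k b) * D.x j t * (D.x k a * D.hk k c * D.y k b)⁻¹ ∈ D.N := by
  have h1 := x_comm_y D j k hjk t b
  have h2 : D.y k b * D.x j t * (D.y k b)⁻¹ = D.x j t := by
    rw [← h1, mul_inv_cancel_right]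
  have e : (D.x k a * D.hk k c * D.y k b) * D.x j t * (D.x k a * D.hk k c * D.y k b)⁻¹ =
      (D.x k a * D.hk k c) * (D.y k b * D.x j t * (D.y k b)⁻¹) * (D.x k a * D.hk k c)⁻¹ := by
    group
  rw [e, h2]
  exact ce2_conj_xh D k a c (x_mem_N D j t)

theorem ce2_conj_n (k j : I) (hjk : j ≠ k) (t : ℚ_[p]) :
    D.n k * D.x j t * (D.n k)⁻¹ ∈ D.N := by
  obtain ⟨Fn, hFn⟩ : ∃ Fn : ℚ_[p] → GLm p ι, Fn = fun e =>
    (D.n k * D.x k e) * D.x j t * (D.n k * D.x k e)⁻¹ := ⟨_, rfl⟩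
  have hcont : Continuous Fn := by
    have h1 : Continuous fun e : ℚ_[p] => D.n k * D.x k e := continuous_const.mul (x_cont D k)
    rw [hFn]
    exact (h1.mul continuous_const).mul h1.inv
  have hclosed : IsClosed (Fn ⁻¹' (D.N : Set (GLm p ι))) := (N_closed D).preimage hcont
  have hsub : ({0}ᶜ : Set ℚ_[p]) ⊆ Fn ⁻¹' (D.N : Set (GLm p ι)) := by
    intro e he
    have he' : e ≠ 0 := he
    obtain ⟨u, rfl⟩ : ∃ u : ℚ_[p]ˣ, (u : ℚ_[p]) = e := ⟨Units.mk0 e he', rfl⟩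
    show Fn (u : ℚ_[p]) ∈ D.N
    rw [hFn]
    show (D.n k * D.x k (u : ℚ_[p])) * D.x j t * (D.n k * D.x k (u : ℚ_[p]))⁻¹ ∈ D.N
    rw [ce2_n_x]
    exact ce2_conj_big D k j hjk _ _ _ t
  have h0 : (0 : ℚ_[p]) ∈ Fn ⁻¹' (D.N : Set (GLm p ι)) := by
    have h1 : closure ({0}ᶜ : Set ℚ_[p]) ⊆ Fn ⁻¹' (D.N : Set (GLm p ι)) :=
      closure_minimal hsub hclosed
    apply h1
    rw [(dense_compl_singleton (0 : ℚ_[p])).closure_eq]
    exact Set.mem_univ _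
  have h1 : Fn 0 ∈ D.N := h0
  rw [hFn] at h1
  simpa only [x_zero, mul_one] using h1

/-- TARGET.
Proof. If `h = x k a * hk k c * y k b` then, since `y k b` commutes with `x j t` (`x_comm_y`), `h x_j(t) h⁻¹ = x_k(a) (hk(c) x_j(t) hk(c)⁻¹) x_k(a)⁻¹ ∈ N` (`h_conj_N`, `hk` is an `h`). For the other elements of `Hk` (`Hk_cells`) it suffices to treat `h = n k`. For `ε ≠ 0`, `n x_k(ε) = x_k(-ε⁻¹) hk(ε⁻¹) hk(-1) y_k(ε⁻¹)` (from `x_eq`, `nt_conj_y`, `n_hk`, `n_sq`), so by the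
first case `(n x_k(ε)) x_j(t) (n x_k(ε))⁻¹ ∈ N`. Let `ε → 0` (`x_cont`, `N_closed`; the point `0` is in the closure of the set of `ε ≠ 0`). -/
theorem conj_x_mem (k j : I) (hjk : j ≠ k) {h : GLm p ι} (hh : h ∈ D.Hk k) (t : ℚ_[p]) :
    h * D.x j t * h⁻¹ ∈ D.N := by
  rcases Hk_cells D k hh with ⟨a, b, c, rfl⟩ | ⟨a, c, rfl⟩
  · exact ce2_conj_big D k j hjk a b c t
  · have h1 := ce2_conj_xh D k a c (ce2_conj_n D k j hjk t)
    have e : D.x k a * D.hk k c * D.n k * D.x j t * (D.x k a * D.hk k c * D.n k)⁻¹ =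
        D.x k a * D.hk k c * (D.n k * D.x j t * (D.n k)⁻¹) * (D.x k a * D.hk k c)⁻¹ := by group
    rw [e]
    exact h1

end Pool.Agent.Chev
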