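import Mathlib
import Pool.Agent.Helper911_Chev.Defs3
import Pool.Agent.Helper911_Chev.CA1
import Pool.Agent.Helper911_Chev.CA2
import Pool.Agent.Helper911_Chev.CA3
import Pool.Agent.Helper911_Chev.CB4
import Pool.Agent.Helper911_Chev.CB2
import Pool.Agent.Helper911_Chev.CB3
import Pool.Agent.Helper911_Chev.CE1
import Pool.Agent.Helper911_Chev.CE2
import Pool.Agent.Helper911_Chev.CW1

set_option autoImplicit false
set_option linter.unusedSectionVars false
set_option maxHeartbeats 1000000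

noncomputable section

open Matrix Topology

namespace Pool.Agent.Chev

open ChevData

variable {p : ℕ} [Fact p.Prime] {I ι : Type} [Fintype I] [DecidableEq I] [Fintype ι]
  [DecidableEq ι] (D : ChevData p I ι)

/-! helper lemmas for the targets -/

/-- generators of `Mk791`. -/
def Mgen791 (k : I) : Set (GLm p ι) := {g | ∃ h ∈ D.Hk k, ∃ j, j ≠ k ∧ ∃ t, g = h * D.x j t * h⁻¹}

def Mk791 (k : I) : Subgroup (GLm p ι) := (Subgroup.closure (Mgen791 D k)).topologicalClosure

theorem Mk_closed791 (k : I) : IsClosed (Mk791 D k : Set (GLm p ι)) :=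
  Subgroup.isClosed_topologicalClosure _

theorem Mk_le_of791 (k : I) (H : Subgroup (GLm p ι)) (hH : IsClosed (H : Set (GLm p ι)))
    (h : ∀ g ∈ Mgen791 D k, g ∈ H) : Mk791 D k ≤ H := by
  apply Subgroup.topologicalClosure_minimal _ _ hH
  rw [Subgroup.closure_le]
  exact h

theorem gen_mem_Mk791 (k : I) {g : GLm p ι} (hg : g ∈ Mgen791 D k) : g ∈ Mk791 D k :=
  Subgroup.le_topologicalClosure _ (Subgroup.subset_closure hg)

theorem Mk_le_UPk791 (k : I) : Mk791 D k ≤ D.UPk k := by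
  apply Mk_le_of791 D k _ (US_closed D _ _)
  rintro g ⟨h, hh, j, hj, t, rfl⟩
  exact Hk_norm_UPk D k hh (x_mem_UPk D k j hj t)

theorem Mk_le_N791 (k : I) : Mk791 D k ≤ D.N := by
  apply Mk_le_of791 D k _ (N_closed D)
  rintro g ⟨h, hh, j, hj, t, rfl⟩
  exact conj_x_mem D k j hj hh t

theorem Mk_norm791 (k : I) {h : GLm p ι} (hh : h ∈ D.Hk k) {m : GLm p ι} (hm : m ∈ Mk791 D k) :
    h * m * h⁻¹ ∈ Mk791 D k := by
  have key : Mk791 D k ≤ (Mk791 D k).comap (MulAut.conj h).toMonoidHom := by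
    apply Mk_le_of791
    · have hc : Continuous (fun g : GLm p ι => h * g * h⁻¹) := by fun_prop
      exact (Mk_closed791 D k).preimage hc
    · rintro g ⟨h', hh', j, hj, t, rfl⟩
      rw [Subgroup.mem_comap]
      apply gen_mem_Mk791
      refine ⟨h * h', mul_mem hh hh', j, hj, t, ?_⟩
      simp [MulAut.conj_apply, mul_assoc]
  exact key hm

/-- The group `Mk791 * X_k`. -/
def MXk791 (k : I) : Subgroup (GLm p ι) where
  carrier := {g | ∃ t, g * (D.x k t)⁻¹ ∈ Mk791 D k}
  mul_mem' := by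
    rintro a b ⟨s, hs⟩ ⟨t, ht⟩
    refine ⟨s + t, ?_⟩
    have h1 := Mk_norm791 D k (x_mem_Hk D k s) ht
    have h2 := mul_mem hs h1
    have : a * b * (D.x k (s + t))⁻¹
        = a * (D.x k s)⁻¹ * (D.x k s * (b * (D.x k t)⁻¹) * (D.x k s)⁻¹) := by
      rw [x_add]
      group
    rw [this]; exact h2
  one_mem' := ⟨0, by rw [x_zero]; simpa using one_mem (Mk791 D k)⟩
  inv_mem' := by
    rintro a ⟨s, hs⟩
    refine ⟨-s, ?_⟩
    have h1 := Mk_norm791 D k (inv_mem (x_mem_Hk D k s)) (inv_mem hs)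
    have : a⁻¹ * (D.x k (-s))⁻¹
        = (D.x k s)⁻¹ * (a * (D.x k s)⁻¹)⁻¹ * (D.x k s)⁻¹⁻¹ := by
      rw [x_neg]
      group
    rw [this]; exact h1

theorem not_posOff_A791 (k : I) : ¬ D.PosOff k (D.A k) := by
  rintro ⟨c, -, ⟨l, hl, hcl⟩, h⟩
  rw [← D.rt_single] at h
  have h1 : D.rt (c - Pi.single k 1) = 0 := by
    rw [sub_eq_add_neg, D.rt_add, D.rt_neg, ← h, add_neg_cancel]
  have h2 := congrFun (D.rt_inj h1) l
  rw [Pi.sub_apply, Pi.single_apply, if_neg hl] at h2
  simp at h2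
  exact hcl h2

theorem E_pow_supp791 (k : I) (r : ℕ) (i j : ι) (h : (D.E k ^ r) i j ≠ 0) :
    D.wt i - D.wt j = r • D.A k := by
  induction r generalizing i j with
  | zero =>
    rw [pow_zero, Matrix.one_apply] at h
    have : i = j := by by_contra hne; simp [hne] at h
    rw [this]; simp
  | succ r ih =>
    rw [pow_succ, Matrix.mul_apply] at h
    obtain ⟨l, -, hl⟩ := Finset.exists_ne_zero_of_sum_ne_zero h
    have h1 := ih i l (left_ne_zero_of_mul hl)
    have h2 := D.E_wt k l j (right_ne_zero_of_mul hl)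
    rw [h2] at h1
    rw [succ_nsmul, ← h1]
    abel

theorem x_supp791 (k : I) (t : ℚ_[p]) (i j : ι) (h : (D.x k t : Matrix ι ι ℚ_[p]) i j ≠ 0) :
    ∃ r : ℕ, D.wt i - D.wt j = r • D.A k := by
  obtain ⟨M, hM⟩ := tE_nil D k t
  unfold ChevData.x at h
  rw [exU_sum hM, Matrix.sum_apply] at h
  obtain ⟨r, -, hr⟩ := Finset.exists_ne_zero_of_sum_ne_zero h
  refine ⟨r, E_pow_supp791 D k r i j ?_⟩
  intro h0
  apply hr
  rw [smul_pow, Matrix.smul_apply, Matrix.smul_apply, h0]
  simp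

theorem x_entry791 (k : I) (t : ℚ_[p]) (i j : ι) (h : D.wt i - D.wt j = D.A k) :
    (D.x k t : Matrix ι ι ℚ_[p]) i j = t * D.E k i j := by
  obtain ⟨M, hM⟩ := tE_nil D k t
  have hM2 : (t • D.E k) ^ (M + 2) = 0 := by rw [pow_add, hM, zero_mul]
  unfold ChevData.x
  rw [exU_sum hM2, Matrix.sum_apply]
  rw [Finset.sum_eq_single 1]
  · simp
  · intro r _ hr1
    have h0 : (D.E k ^ r) i j = 0 := by
      by_contra hne
      have h1 := E_pow_supp791 D k r i j hne
      rw [h] at h1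
      have h2 := congrFun h1 k
      rw [Pi.smul_apply, D.A_diag] at h2
      simp at h2
      exact hr1 (by exact_mod_cast h2)
    rw [smul_pow, Matrix.smul_apply, Matrix.smul_apply, h0]
    simp
  · intro h1
    simp at h1

theorem mx_entry791 (k : I) (t : ℚ_[p]) {m : GLm p ι} (hm : m ∈ D.UPk k) (i j : ι)
    (h : D.wt i - D.wt j = D.A k) :
    ((m * D.x k t : GLm p ι) : Matrix ι ι ℚ_[p]) i j = t * D.E k i j := by
  have h1 : ((m * D.x k t : GLm p ι) : Matrix ι ι ℚ_[p])
      = ((m : Matrix ι ι ℚ_[p]) - 1) * (D.x k t : Matrix ι ι ℚ_[p])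
        + (D.x k t : Matrix ι ι ℚ_[p]) := by
    rw [Units.val_mul]; noncomm_ring
  rw [h1, Matrix.add_apply, x_entry791 D k t i j h]
  have h2 : (((m : Matrix ι ι ℚ_[p]) - 1) * (D.x k t : Matrix ι ι ℚ_[p])) i j = 0 := by
    by_contra hne
    rw [Matrix.mul_apply] at hne
    obtain ⟨l, -, hl⟩ := Finset.exists_ne_zero_of_sum_ne_zero hne
    have h3 := hm.1 i l (left_ne_zero_of_mul hl)
    obtain ⟨r, hr⟩ := x_supp791 D k t l j (right_ne_zero_of_mul hl)
    obtain ⟨c, hc, ⟨l', hl', hcl'⟩, hce⟩ := h3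
    apply not_posOff_A791 D k
    refine ⟨c + Pi.single k (r : ℤ), ?_, ⟨l', hl', ?_⟩, ?_⟩
    · intro l'' hl''
      rw [Pi.add_apply, Pi.single_apply, if_neg hl'', add_zero]
      exact hc l'' hl''
    · rw [Pi.add_apply, Pi.single_apply, if_neg hl', add_zero]
      exact hcl'
    · have h4 : (Pi.single k (r : ℤ) : I → ℤ) = r • Pi.single k 1 := by
        rw [← Pi.single_smul]; simp
      have h5 : D.rt (r • Pi.single k 1) = r • D.A k := by
        rw [← D.rt_single]
        unfold ChevData.rt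
        rw [Matrix.smul_vecMul]
      rw [D.rt_add, ← hce, h4, h5, ← hr, ← h]
      abel
  rw [h2, zero_add]

theorem exists_entry791 (k : I) : ∃ i j, D.E k i j ≠ 0 := by
  by_contra h
  push Not at h
  apply E_ne D k
  ext i j
  simpa using h i j

theorem MXk_closed791 (k : I) : IsClosed (MXk791 D k : Set (GLm p ι)) := by
  obtain ⟨i, j, hE⟩ := exists_entry791 D k
  have hw : D.wt i - D.wt j = D.A k := by rw [D.E_wt k i j hE]; abel
  have heq : (MXk791 D k : Set (GLm p ι))
      = {g : GLm p ι | g * (D.x k ((g : Matrix ι ι ℚ_[p]) i j / D.E k i j))⁻¹ ∈ (Mk791 D k : Set (GLm p ι))} := by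
    ext g
    constructor
    · rintro ⟨t, ht⟩
      have h1 := mx_entry791 D k t (Mk_le_UPk791 D k ht) i j hw
      rw [inv_mul_cancel_right] at h1
      show g * (D.x k ((g : Matrix ι ι ℚ_[p]) i j / D.E k i j))⁻¹ ∈ Mk791 D k
      rw [h1, mul_div_assoc, div_self hE, mul_one]
      exact ht
    · intro hg
      exact ⟨_, hg⟩
  rw [heq]
  have hc : Continuous (fun g : GLm p ι => g * (D.x k ((g : Matrix ι ι ℚ_[p]) i j / D.E k i j))⁻¹) := by
    refine continuous_id.mul (Continuous.inv ((x_cont D k).comp ?_))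
    refine Continuous.div_const ?_ _
    have hv : Continuous (fun g : GLm p ι => (g : Matrix ι ι ℚ_[p])) := Units.continuous_val
    exact hv.matrix_elem i j
  exact (Mk_closed791 D k).preimage hc

theorem N_le_MXk791 (k : I) : D.N ≤ MXk791 D k := by
  apply Subgroup.topologicalClosure_minimal _ _ (MXk_closed791 D k)
  rw [Subgroup.closure_le]
  rintro g ⟨j, t, rfl⟩
  by_cases hj : j = k
  · subst hj
    exact ⟨t, by rw [mul_inv_cancel]; exact one_mem _⟩
  · refine ⟨0, ?_⟩
    rw [x_zero, inv_one, mul_one]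
    apply gen_mem_Mk791
    exact ⟨1, one_mem _, j, hj, t, by simp⟩

/-! ======= TARGETS ======= -/

/-! Hints for both targets. Let `M` be the topological closure of the subgroup generated by all `h * x j t * h⁻¹`, `h ∈ Hk k`, `j ≠ k`, `t`. `M ≤ UPk k` (`x_mem_UPk`, `Hk_norm_UPk`, `US_closed`), `M ≤ N` (`conj_x_mem`, `N_closed`), and `M` is normalised by `Hk k` (conjugation by `h ∈ Hk k` is a homeomorphism permuting the generators). Let `MX = {m * x k t}`, a subgroup because `M` is normalised by `x k t`.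
`MX` is closed: choose `i0, j0` with `E k i0 j0 ≠ 0` (`E_ne`); `wt i0 - wt j0 = A k`. For `g = m * x k t` the entry `g i0 j0` equals `t * E k i0 j0` (`m - 1` is supported in `PosOff k` and `x k t - 1 - t • E k` in the `r • A k`, `r ≥ 2`; a weight in `PosOff k + ℕ • A k` is never `A k`, by `rt_inj`). So with `τ g = g i0 j0 / E k i0 j0` (continuous), `MX = {g | g * x k (- τ g) ∈ M}` is closed. It contains all
`x j t`, hence `N ≤ MX`. So `g ∈ N` is `m * x k s` and `g * x k (-s) ∈ UPk k`. If moreover `g ∈ UPk k` then `x k s ∈ UPk k`, so its entry at `(i0, j0)`, `s * E k i0 j0`, is zero, `s = 0`, `g = m ∈ M`, and `h g h⁻¹ ∈ M ≤ N`. -/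

/-- TARGET.
See the hints above. -/
theorem N_split (k : I) {g : GLm p ι} (hg : g ∈ D.N) : ∃ t : ℚ_[p], g * D.x k t ∈ D.UPk k := by
  obtain ⟨t, ht⟩ := N_le_MXk791 D k hg
  exact ⟨-t, by rw [x_neg]; exact Mk_le_UPk791 D k ht⟩

/-- TARGET.
See the hints above. -/
theorem Nk_stable (k : I) {g h : GLm p ι} (hg : g ∈ D.N) (hg' : g ∈ D.UPk k)
    (hh : h ∈ D.Hk k) : h * g * h⁻¹ ∈ D.N := by
  obtain ⟨t, ht⟩ := N_le_MXk791 D k hg
  obtain ⟨i, j, hE⟩ := exists_entry791 D k
  have hw : D.wt i - D.wt j = D.A k := by rw [D.E_wt k i j hE]; abel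
  have h1 := mx_entry791 D k t (Mk_le_UPk791 D k ht) i j hw
  rw [inv_mul_cancel_right] at h1
  have h2 := mx_entry791 D k 0 hg' i j hw
  rw [x_zero, mul_one, zero_mul] at h2
  have ht0 : t = 0 := by
    rw [h2] at h1
    rcases mul_eq_zero.mp h1.symm with h3 | h3
    · exact h3
    · exact absurd h3 hE
  rw [ht0, x_zero, inv_one, mul_one] at ht
  exact Mk_le_N791 D k (Mk_norm791 D k hh ht)

end Pool.Agent.Chev
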