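import Mathlib
import Pool.Agent.Helper911_Chev.Defs3
import Pool.Agent.Helper911_Chev.CA1
import Pool.Agent.Helper911_Chev.CB1
import Pool.Agent.Helper911_Chev.CB2
import Pool.Agent.Helper911_Chev.CB3
import Pool.Agent.Helper911_Chev.CB4

set_option autoImplicit false
set_option linter.unusedSectionVars false
set_option maxHeartbeats 1000000

noncomputable section

open Matrix Topology

namespace Pool.Agent.Chev

open ChevData

variable {p : ℕ} [Fact p.Prime] {I ι : Type} [Fintype I] [DecidableEq I] [Fintype ι]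
  [DecidableEq ι] (D : ChevData p I ι)

theorem tr_cj (g : GLm p ι) (X Y : Matrix ι ι ℚ_[p]) :
    Matrix.trace (cj g X * cj g Y) = Matrix.trace (X * Y) := by
  have h1 : cj g X * cj g Y
      = (g : Matrix ι ι ℚ_[p]) * (X * Y) * ((g⁻¹ : GLm p ι) : Matrix ι ι ℚ_[p]) := by
    unfold cj
    have h2 : ((g⁻¹ : GLm p ι) : Matrix ι ι ℚ_[p]) * (g : Matrix ι ι ℚ_[p]) = 1 := by
      rw [← Units.val_mul, inv_mul_cancel, Units.val_one]
    calc (g : Matrix ι ι ℚ_[p]) * X * ((g⁻¹ : GLm p ι) : Matrix ι ι ℚ_[p])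
          * ((g : Matrix ι ι ℚ_[p]) * Y * ((g⁻¹ : GLm p ι) : Matrix ι ι ℚ_[p]))
        = (g : Matrix ι ι ℚ_[p]) * X * (((g⁻¹ : GLm p ι) : Matrix ι ι ℚ_[p])
          * (g : Matrix ι ι ℚ_[p])) * Y * ((g⁻¹ : GLm p ι) : Matrix ι ι ℚ_[p]) := by
          simp only [Matrix.mul_assoc]
      _ = _ := by rw [h2, Matrix.mul_one]; simp only [Matrix.mul_assoc]
  rw [h1, Matrix.trace_mul_comm, ← Matrix.mul_assoc]
  have h2 : ((g⁻¹ : GLm p ι) : Matrix ι ι ℚ_[p]) * (g : Matrix ι ι ℚ_[p]) = 1 := by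
    rw [← Units.val_mul, inv_mul_cancel, Units.val_one]
  rw [h2, Matrix.one_mul]

theorem tr_Hm (k l : I) : Matrix.trace (Hm D k * Hm D l)
    = ((∑ i, D.wt i k * D.wt i l : ℤ) : ℚ_[p]) := by
  unfold Hm
  rw [Matrix.diagonal_mul_diagonal, Matrix.trace_diagonal]
  push_cast
  rfl

theorem sym_B (k l : I) :
    D.A k l * ∑ i, D.wt i k ^ 2 = 2 * ∑ i, D.wt i k * D.wt i l := by
  have h1 := tr_cj (D.nt k 1) (Hm D k) (Hm D l)
  rw [nt_H, nt_H, D.A_diag] at h1
  have h2 : (Hm D k - (((2 : ℤ) : ℚ_[p])) • Hm D k) * (Hm D l - (D.A k l : ℚ_[p]) • Hm D k)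
      = -(Hm D k * Hm D l) + (D.A k l : ℚ_[p]) • (Hm D k * Hm D k) := by
    have h3 : Hm D k - (((2 : ℤ) : ℚ_[p])) • Hm D k = - Hm D k := by
      push_cast
      rw [two_smul]; abel
    rw [h3, neg_mul, mul_sub, neg_sub, Matrix.mul_smul]
    abel
  rw [h2, Matrix.trace_add, Matrix.trace_neg, Matrix.trace_smul, tr_Hm, tr_Hm, smul_eq_mul] at h1
  have h4 : ((D.A k l * ∑ i, D.wt i k ^ 2 : ℤ) : ℚ_[p])
      = ((2 * ∑ i, D.wt i k * D.wt i l : ℤ) : ℚ_[p]) := by
    have h5 : (∑ i, D.wt i k ^ 2 : ℤ) = ∑ i, D.wt i k * D.wt i k := by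
      refine Finset.sum_congr rfl fun i _ => by ring
    rw [h5, Int.cast_mul, Int.cast_mul, Int.cast_ofNat]
    linear_combination h1
  exact_mod_cast h4

theorem B_pos (k : I) : 0 < ∑ i, D.wt i k ^ 2 := by
  have hnn : 0 ≤ ∑ i, D.wt i k ^ 2 := Finset.sum_nonneg fun i _ => sq_nonneg _
  rcases hnn.lt_or_eq with h | h
  · exact h
  exfalso
  have h0 : ∀ i, D.wt i k = 0 := by
    intro i
    have := (Finset.sum_eq_zero_iff_of_nonneg (fun i _ => sq_nonneg (D.wt i k))).1 h.symm i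
      (Finset.mem_univ i)
    exact pow_eq_zero_iff (two_ne_zero) |>.1 this
  have hle : AddSubgroup.closure (Set.range D.wt)
      ≤ (Pi.evalAddMonoidHom (fun _ : I => ℤ) k).ker := by
    rw [AddSubgroup.closure_le]
    rintro _ ⟨i, rfl⟩
    exact h0 i
  rw [D.span] at hle
  have := hle (AddSubgroup.mem_top (Pi.single k (1 : ℤ)))
  rw [AddMonoidHom.mem_ker] at this
  simp at this

theorem exists_k {b : I → ℤ} (hb : ∀ k, 0 ≤ b k) (h0 : b ≠ 0) : ∃ k, 0 < b k ∧ 0 < D.rt b k := by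
  classical
  set N : I → ℚ := fun k => ((∑ i, D.wt i k ^ 2 : ℤ) : ℚ) with hN
  have hNpos : ∀ k, 0 < N k := fun k => by
    simp only [hN]; exact_mod_cast B_pos D k
  set c : I → ℚ := fun k => (b k : ℚ) / N k with hc
  have hcnn : ∀ k, 0 ≤ c k := fun k => div_nonneg (by exact_mod_cast hb k) (hNpos k).le
  -- the quadratic form
  have hA : ∀ k l, (D.A k l : ℚ) * N k = 2 * ∑ i, (D.wt i k : ℚ) * (D.wt i l : ℚ) := by
    intro k l
    have := sym_B D k l
    simp only [hN]
    exact_mod_cast this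
  have hrt : ∀ l, (D.rt b l : ℚ) = 2 * ∑ i, (∑ k, c k * (D.wt i k : ℚ)) * (D.wt i l : ℚ) := by
    intro l
    have h1 : D.rt b l = ∑ k, b k * D.A k l := by
      unfold rt
      rfl
    rw [h1]
    push_cast
    have h2 : ∀ k, (b k : ℚ) * (D.A k l : ℚ)
        = 2 * ∑ i, c k * (D.wt i k : ℚ) * (D.wt i l : ℚ) := by
      intro k
      have h3 : (b k : ℚ) = c k * N k := by
        simp only [hc]; rw [div_mul_cancel₀ _ (hNpos k).ne']
      rw [h3, mul_assoc, mul_comm (N k), hA k l]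
      rw [Finset.mul_sum, Finset.mul_sum, Finset.mul_sum]
      refine Finset.sum_congr rfl fun i _ => by ring
    rw [Finset.sum_congr rfl fun k _ => h2 k, ← Finset.mul_sum, Finset.sum_comm]
    congr 1
    refine Finset.sum_congr rfl fun i _ => ?_
    rw [Finset.sum_mul]
  have hquad : ∑ l, c l * (D.rt b l : ℚ) = 2 * ∑ i, (∑ k, c k * (D.wt i k : ℚ)) ^ 2 := by
    rw [Finset.sum_congr rfl fun l _ => by rw [hrt l]]
    have : ∀ l, c l * (2 * ∑ i, (∑ k, c k * (D.wt i k : ℚ)) * (D.wt i l : ℚ))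
        = 2 * ∑ i, (∑ k, c k * (D.wt i k : ℚ)) * (c l * (D.wt i l : ℚ)) := by
      intro l
      rw [Finset.mul_sum, Finset.mul_sum, Finset.mul_sum]
      refine Finset.sum_congr rfl fun i _ => by ring
    rw [Finset.sum_congr rfl fun l _ => this l, ← Finset.mul_sum, Finset.sum_comm]
    congr 1
    refine Finset.sum_congr rfl fun i _ => ?_
    rw [← Finset.mul_sum, sq]
  -- positivity
  have hpos : 0 < ∑ l, c l * (D.rt b l : ℚ) := by
    rw [hquad]
    have hnn : 0 ≤ ∑ i, (∑ k, c k * (D.wt i k : ℚ)) ^ 2 :=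
      Finset.sum_nonneg fun i _ => sq_nonneg _
    rcases hnn.lt_or_eq with h | h
    · linarith
    exfalso
    have hz : ∀ i, ∑ k, c k * (D.wt i k : ℚ) = 0 := by
      intro i
      have := (Finset.sum_eq_zero_iff_of_nonneg
        (fun i _ => sq_nonneg (∑ k, c k * (D.wt i k : ℚ)))).1 h.symm i (Finset.mem_univ i)
      exact pow_eq_zero_iff (two_ne_zero) |>.1 this
    let φ : (I → ℤ) →+ ℚ :=
      { toFun := fun μ => ∑ k, c k * (μ k : ℚ)
        map_zero' := by simp
        map_add' := by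
          intro x y
          rw [← Finset.sum_add_distrib]
          refine Finset.sum_congr rfl fun k _ => ?_
          simp only [Pi.add_apply]; push_cast; ring }
    have hle : AddSubgroup.closure (Set.range D.wt) ≤ φ.ker := by
      rw [AddSubgroup.closure_le]
      rintro _ ⟨i, rfl⟩
      exact hz i
    rw [D.span] at hle
    apply h0
    funext k
    have h5 := hle (AddSubgroup.mem_top (Pi.single k (1 : ℤ)))
    rw [AddMonoidHom.mem_ker] at h5
    have h6 : φ (Pi.single k (1 : ℤ)) = c k := by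
      show ∑ m, c m * ((Pi.single k (1 : ℤ) : I → ℤ) m : ℚ) = c k
      rw [Finset.sum_eq_single k]
      · simp
      · intro m _ hm
        simp [Pi.single_eq_of_ne hm]
      · intro hk; exact absurd (Finset.mem_univ k) hk
    rw [h6] at h5
    have h7 : (b k : ℚ) = 0 := by
      simp only [hc] at h5
      rcases div_eq_zero_iff.1 h5 with h | h
      · exact h
      · exact absurd h (hNpos k).ne'
    exact_mod_cast h7
  obtain ⟨l, -, hl⟩ := Finset.exists_lt_of_sum_lt (s := Finset.univ)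
    (f := fun _ : I => (0 : ℚ)) (g := fun l => c l * (D.rt b l : ℚ)) (by simpa using hpos)
  have hcl : 0 < c l := by
    rcases (hcnn l).lt_or_eq with h | h
    · exact h
    · rw [← h] at hl; simp at hl
  have hr : 0 < (D.rt b l : ℚ) := by
    by_contra hneg
    push Not at hneg
    have := mul_nonpos_of_nonneg_of_nonpos hcl.le hneg

    linarith
  refine ⟨l, ?_, by exact_mod_cast hr⟩
  rcases (hb l).lt_or_eq with h | h
  · exact h
  · exfalso
    have : c l = 0 := by simp only [hc]; rw [← h]; simp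
    exact hcl.ne' this

end Pool.Agent.Chev
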