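import Mathlib
import Pool.Agent.Helper911_Chev.Defs3
import Pool.Agent.Helper911_Chev.CA1
import Pool.Agent.Helper911_Chev.CA2
import Pool.Agent.Helper911_Chev.CA3
import Pool.Agent.Helper911_Chev.CH0
import Pool.Agent.Helper911_Chev.CB4
import Pool.Agent.Helper911_Chev.CB2
import Pool.Agent.Helper911_Chev.CB3
import Pool.Agent.Helper911_Chev.CW1
import Pool.Agent.Helper911_Chev.CW2
import Pool.Agent.Helper911_Chev.CE1
import Pool.Agent.Helper911_Chev.CE3
import Pool.Agent.Helper911_Chev.CE4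
import Pool.Agent.Helper911_Chev.DP1

set_option autoImplicit false
set_option linter.unusedSectionVars false
set_option maxHeartbeats 1000000

noncomputable section

open Matrix Topology

namespace Pool.Agent.Chev

open ChevData

variable {p : ℕ} [Fact p.Prime] {I ι : Type} [Fintype I] [DecidableEq I] [Fintype ι]
  [DecidableEq ι] (D : ChevData p I ι)

/-! ======= TARGETS ======= -/

theorem supp_smul' {S : Set (I → ℤ)} {X : Matrix ι ι ℚ_[p]} (hX : D.Supp S X) (a : ℚ_[p]) :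
    D.Supp S (a • X) := by
  intro i j hij
  apply hX i j
  intro h
  apply hij
  rw [Matrix.smul_apply, h, smul_zero]

theorem supp_sum' {S : Set (I → ℤ)} {α : Type} (s : Finset α) (f : α → Matrix ι ι ℚ_[p])
    (hf : ∀ a ∈ s, D.Supp S (f a)) : D.Supp S (∑ a ∈ s, f a) := by
  intro i j hij
  rw [Matrix.sum_apply] at hij
  obtain ⟨a, ha, hne⟩ := Finset.exists_ne_zero_of_sum_ne_zero hij
  exact hf a ha i j hne

theorem supp_one' {S : Set (I → ℤ)} (h0 : (0 : I → ℤ) ∈ S) :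
    D.Supp S (1 : Matrix ι ι ℚ_[p]) := by
  intro i j h
  rw [Matrix.one_apply] at h
  have : i = j := by by_contra hne; simp [hne] at h
  rw [this, sub_self]
  exact h0

theorem supp_pow' {S : Set (I → ℤ)} (h0 : (0 : I → ℤ) ∈ S) (hS : ∀ a ∈ S, ∀ b ∈ S, a + b ∈ S)
    {X : Matrix ι ι ℚ_[p]} (hX : D.Supp S X) (m : ℕ) : D.Supp S (X ^ m) := by
  induction m with
  | zero => rw [pow_zero]; exact supp_one' D h0
  | succ m ih => rw [pow_succ]; exact Supp.mul D ih hX hS

theorem ht_smul' (a : ℤ) (μ : I → ℤ) : ht D (a • μ) = a * ht D μ := by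
  unfold ht
  rw [Finset.mul_sum]
  refine Finset.sum_congr rfl fun k _ => ?_
  rw [Pi.smul_apply, smul_eq_mul, mul_assoc]

theorem rt_smul' (a : ℤ) (c : I → ℤ) : D.rt (a • c) = a • D.rt c := by
  unfold rt
  rw [Matrix.smul_vecMul]

theorem rt_inj' {c d : I → ℤ} (h : D.rt c = D.rt d) : c = d := by
  have h1 : D.rt (c + -d) = 0 := by rw [D.rt_add, D.rt_neg, h, add_neg_cancel]
  have h2 := D.rt_inj h1
  rwa [add_neg_eq_zero] at h2

theorem ray_aux : ∀ (n : ℕ) (r : GLm p ι) (ν : I → ℤ), (ht D ν).toNat = n → r ∈ D.Nb →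
    D.Pos ν → Ray D r ν →
    ∃ m ∈ D.NN, ∃ (k : I) (c : ℚ_[p]), c ≠ 0 ∧ r = m * D.y k c * m⁻¹ := by
  intro n
  induction n using Nat.strong_induction_on with
  | _ n ih =>
  intro r ν hn hr hν hray
  have hνpos := hν
  obtain ⟨b, hb, hb0, rfl⟩ := hν
  obtain ⟨k, hbk, hνk⟩ := exists_k D hb hb0
  obtain ⟨⟨i₀, j₀, hne₀, hw₀⟩, hall⟩ := hray
  by_cases hcase : ∀ l, l ≠ k → b l = 0
  · -- one simple root
    obtain ⟨t, htt⟩ := Nb_split D k hr
    have hbs : D.rt b = b k • D.A k := by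
      have h1 : b = b k • (Pi.single k 1 : I → ℤ) := by
        funext l
        by_cases hl : l = k
        · subst hl; simp
        · rw [hcase l hl]; simp [hl]
      conv_lhs => rw [h1]
      rw [rt_smul', D.rt_single]
    set S : Set (I → ℤ) := {μ | ∃ a : ℕ, 0 < a ∧ ∃ q : ℤ, a • μ = q • D.A k} with hSdef
    have h0S : (0 : I → ℤ) ∈ S := ⟨1, one_pos, 0, by simp⟩
    have haddS : ∀ a ∈ S, ∀ b ∈ S, a + b ∈ S := by
      rintro μ ⟨a, ha, q, hq⟩ μ' ⟨a', ha', q', hq'⟩
      refine ⟨a * a', Nat.mul_pos ha ha', a' * q + a * q', ?_⟩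
      rw [smul_add, add_smul]
      congr 1
      · rw [mul_comm a a', mul_smul, hq, mul_smul, natCast_zsmul]
      · rw [mul_smul, hq', mul_smul, natCast_zsmul]
    have hrS : D.Supp S (r : Matrix ι ι ℚ_[p]) := by
      have h1 : (r : Matrix ι ι ℚ_[p]) = ((r : Matrix ι ι ℚ_[p]) - 1) + 1 := by abel
      rw [h1]
      refine Supp.add D ?_ (supp_one' D h0S)
      intro i j hij
      obtain ⟨a, c, ha, hc, hac⟩ := hall i j hij
      refine ⟨a, ha, -(c * b k), ?_⟩
      rw [hbs] at hac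
      rw [← neg_sub, smul_neg, hac, neg_smul, mul_smul, natCast_zsmul]
    have hyS : D.Supp S (D.y k t : Matrix ι ι ℚ_[p]) := by
      obtain ⟨M, hM⟩ := tF_nil D k t
      unfold ChevData.y
      rw [exU_sum hM]
      refine supp_sum' D _ _ fun m _ => ?_
      refine supp_smul' D (supp_pow' D h0S haddS (supp_smul' D ?_ t) m) _
      intro i j hij
      refine ⟨1, one_pos, -1, ?_⟩
      rw [D.F_wt k i j hij]
      simp
    have hmul : D.Supp S ((r * D.y k t : GLm p ι) : Matrix ι ι ℚ_[p]) := by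
      rw [Units.val_mul]
      exact Supp.mul D hrS hyS haddS
    have hone : r * D.y k t = 1 := by
      apply Units.ext
      rw [Units.val_one]
      ext i j
      by_contra hne
      have h1 : (((r * D.y k t : GLm p ι) : Matrix ι ι ℚ_[p]) - 1) i j ≠ 0 := by
        rw [Matrix.sub_apply]
        exact sub_ne_zero.2 hne
      have h2 : D.Supp S (((r * D.y k t : GLm p ι) : Matrix ι ι ℚ_[p]) - 1) := by
        rw [sub_eq_add_neg]
        refine Supp.add D hmul ?_
        have : (-1 : Matrix ι ι ℚ_[p]) = (-1 : ℚ_[p]) • (1 : Matrix ι ι ℚ_[p]) := by simp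
        rw [this]
        exact supp_smul' D (supp_one' D h0S) _
      obtain ⟨a, ha, q, hq⟩ := h2 i j h1
      obtain ⟨c, hc, ⟨l, hl, hcl⟩, hμ⟩ := htt.1 i j h1
      have h3 : D.rt ((a : ℤ) • c) = D.rt ((-q) • (Pi.single k 1 : I → ℤ)) := by
        rw [rt_smul', rt_smul', D.rt_single, ← hμ, smul_neg, neg_smul, natCast_zsmul, hq]
      have h4 := congrFun (rt_inj' D h3) l
      simp only [Pi.smul_apply, smul_eq_mul, Pi.single_apply, if_neg hl, mul_zero] at h4
      rcases mul_eq_zero.1 h4 with h5 | h5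
      · have : a = 0 := by exact_mod_cast h5
        omega
      · exact hcl h5
    have hrt : r = D.y k (-t) := by
      rw [y_neg, ← mul_eq_one_iff_eq_inv]
      exact hone
    refine ⟨1, Subgroup.one_mem _, k, -t, ?_, by rw [one_mul, inv_one, mul_one, hrt]⟩
    intro ht0
    rw [ht0, y_zero] at hrt
    apply hne₀
    rw [hrt, Units.val_one, sub_self, Matrix.zero_apply]
  · -- reflect
    push Not at hcase
    obtain ⟨l, hl, hbl⟩ := hcase
    have hrUM := Nb_le_UM D hr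
    have hrUMk : r ∈ D.UMk k := by
      refine US_of_val D _ _ r ?_
      intro i j hij
      obtain ⟨a, c, ha, hc, hac⟩ := hall i j hij
      obtain ⟨d, hd, hd0, hdμ⟩ := hrUM.1 i j hij
      refine ⟨d, fun l _ => hd l, ⟨l, hl, ?_⟩, hdμ⟩
      rw [neg_sub] at hdμ
      rw [hdμ] at hac
      have h3 : D.rt ((a : ℤ) • d) = D.rt ((c : ℤ) • b) := by
        rw [rt_smul', rt_smul', natCast_zsmul, natCast_zsmul]; exact hac
      have h4 := congrFun (rt_inj' D h3) l
      simp only [Pi.smul_apply, smul_eq_mul] at h4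
      intro hdl
      rw [hdl, mul_zero] at h4
      rcases mul_eq_zero.1 h4.symm with h5 | h5
      · have : c = 0 := by exact_mod_cast h5
        omega
      · exact hbl h5
    have hnH : D.n k ∈ D.Hk k := by
      rw [← nt_one]; exact nt_mem_Hk D k 1
    have hrep : D.Rep (D.n k) (D.s k) := by
      rw [← nt_one]; exact nt_rep D k 1
    have hr'Nb : D.n k * r * (D.n k)⁻¹ ∈ D.Nb := Nbk_stable D k hr hrUMk hnH
    have hcj : ((D.n k * r * (D.n k)⁻¹ : GLm p ι) : Matrix ι ι ℚ_[p]) - 1 =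
        cj (D.n k) ((r : Matrix ι ι ℚ_[p]) - 1) := by
      unfold cj
      rw [Units.val_mul, Units.val_mul, Matrix.mul_sub, Matrix.sub_mul, Matrix.mul_one,
        ← Units.val_mul (D.n k) ((D.n k)⁻¹), mul_inv_cancel, Units.val_one]
    have hcj' : (r : Matrix ι ι ℚ_[p]) - 1 =
        cj (D.n k)⁻¹ (((D.n k * r * (D.n k)⁻¹ : GLm p ι) : Matrix ι ι ℚ_[p]) - 1) := by
      rw [hcj, ← cj_mul, inv_mul_cancel, cj_one]
    have hsup : ∀ i j, (((D.n k * r * (D.n k)⁻¹ : GLm p ι) : Matrix ι ι ℚ_[p]) - 1) i j ≠ 0 →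
        ∃ a c : ℕ, 0 < a ∧ 0 < c ∧ a • (D.wt j - D.wt i) = c • D.s k (D.rt b) := by
      have h1 : D.Supp {μ | ∃ a c : ℕ, 0 < a ∧ 0 < c ∧ a • (-μ) = c • D.rt b}
          ((r : Matrix ι ι ℚ_[p]) - 1) := by
        intro i j hij
        obtain ⟨a, c, ha, hc, hac⟩ := hall i j hij
        exact ⟨a, c, ha, hc, by rw [neg_sub]; exact hac⟩
      have h2 := supp_cj D hrep h1
      rw [← hcj] at h2
      intro i j hij
      obtain ⟨μ, ⟨a, c, ha, hc, hac⟩, hμ⟩ := h2 i j hij
      refine ⟨a, c, ha, hc, ?_⟩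
      rw [← neg_sub, ← hμ, ← map_neg, ← map_nsmul, hac, map_nsmul]
    have hocc : ∃ i j, (((D.n k * r * (D.n k)⁻¹ : GLm p ι) : Matrix ι ι ℚ_[p]) - 1) i j ≠ 0 ∧
        D.wt j - D.wt i = D.s k (D.rt b) := by
      by_contra hcon
      push Not at hcon
      have h1 : D.Supp {μ | -μ ≠ D.s k (D.rt b)}
          (((D.n k * r * (D.n k)⁻¹ : GLm p ι) : Matrix ι ι ℚ_[p]) - 1) := by
        intro i j hij
        show -(D.wt i - D.wt j) ≠ _
        rw [neg_sub]
        exact hcon i j hij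
      have h2 := supp_cj D (rep_inv D hrep) h1
      rw [← hcj'] at h2
      obtain ⟨μ, hμ, hμ2⟩ := h2 i₀ j₀ hne₀
      apply hμ
      have h3 : D.s k ((D.s k)⁻¹ μ) = μ := by
        have : (D.s k * (D.s k)⁻¹) μ = μ := by rw [mul_inv_cancel]; rfl
        exact this
      rw [← hw₀, ← neg_sub, ← hμ2, map_neg, h3]
    have hPos' : D.Pos (D.s k (D.rt b)) := by
      obtain ⟨i, j, hij, hw⟩ := hocc
      have h1 := (Nb_le_UM D hr'Nb).1 i j hij
      have h2 : -(D.wt i - D.wt j) ∈ {μ | D.Pos μ} := h1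
      rw [neg_sub, hw] at h2
      exact h2
    have hht : ht D (D.s k (D.rt b)) < ht D (D.rt b) := by
      rw [D.s_apply, ht_sub, ht_smul']
      have := mul_pos hνk (ht_A_pos D k)
      omega
    have hp1 := ht_pos D hPos'
    have hp2 := ht_pos D hνpos
    obtain ⟨m', hm', k', c', hc', hr'⟩ := ih (ht D (D.s k (D.rt b))).toNat (by omega)
      (D.n k * r * (D.n k)⁻¹) (D.s k (D.rt b)) rfl hr'Nb hPos' ⟨hocc, hsup⟩
    refine ⟨(D.n k)⁻¹ * m', Subgroup.mul_mem _ (Subgroup.inv_mem _ (n_mem_NN D k)) hm', k', c',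
      hc', ?_⟩
    have h5 : r = (D.n k)⁻¹ * (D.n k * r * (D.n k)⁻¹) * D.n k := by group
    rw [h5, hr']
    group

/-- TARGET. -/
theorem ray_lemma {r : GLm p ι} (hr : r ∈ D.Nb) {ν : I → ℤ} (hν : D.Pos ν) (h : Ray D r ν) :
    ∃ m ∈ D.NN, ∃ (k : I) (c : ℚ_[p]), c ≠ 0 ∧ r = m * D.y k c * m⁻¹ :=
  ray_aux D _ r ν rfl hr hν h

end Pool.Agent.Chev
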