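import Mathlib
import Pool.Agent.Helper911_Chev.Defs3
import Pool.Agent.Helper911_Chev.CA1
import Pool.Agent.Helper911_Chev.CA2
import Pool.Agent.Helper911_Chev.CA3
import Pool.Agent.Helper911_Chev.CH0
import Pool.Agent.Helper911_Chev.CB4
import Pool.Agent.Helper911_Chev.CB2
import Pool.Agent.Helper911_Chev.CB3
import Pool.Agent.Helper911_Chev.CW1
import Pool.Agent.Helper911_Chev.CW2
import Pool.Agent.Helper911_Chev.CE1
import Pool.Agent.Helper911_Chev.CC1
import Pool.Agent.Helper911_Chev.CC2
import Pool.Agent.Helper911_Chev.CF1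
import Pool.Agent.Helper911_Chev.CF2
import Pool.Agent.Helper911_Chev.CH3
import Pool.Agent.Helper911_Chev.DR1

set_option autoImplicit false
set_option linter.unusedSectionVars false
set_option maxHeartbeats 1000000

noncomputable section

open Matrix Topology

namespace Pool.Agent.Chev

open ChevData

variable {p : ℕ} [Fact p.Prime] {I ι : Type} [Fintype I] [DecidableEq I] [Fintype ι]
  [DecidableEq ι] (D : ChevData p I ι)

/-! ======= TARGETS ======= -/

/-- TARGET.
Proof. `F k ≠ 0` (otherwise `EF_same`, `D.span` give a contradiction, as in `E_ne`). Choose `F k i j ≠ 0`: then `wt i = wt j - A k`, and the entry `(i, j)` of `y k c - 1 = ∑_{m ≥ 1} c^m/m! F^m` is `c * F k i j` because `(F k ^ m) i j ≠ 0` implies `wt i = wt j - m • A k`. -/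
theorem y_inj (k : I) {c : ℚ_[p]} (h : D.y k c = 1) : c = 0 := by
  classical
  -- `F k ≠ 0`
  have hF : D.F k ≠ 0 := by
    intro h0
    have h1 := D.EF_same k
    rw [h0, mul_zero, zero_mul, sub_zero] at h1
    have h2 : ∀ i, D.wt i k = 0 := by
      intro i
      have h3 := congrFun (congrFun h1 i) i
      rw [Matrix.diagonal_apply_eq] at h3
      simpa using h3.symm
    have h3 : (Pi.single k 1 : I → ℤ) ∈ AddSubgroup.closure (Set.range D.wt) := by
      rw [D.span]; exact AddSubgroup.mem_top _
    have h4 : ∀ x ∈ AddSubgroup.closure (Set.range D.wt), x k = 0 := by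
      intro x hx
      induction hx using AddSubgroup.closure_induction with
      | mem x hx => obtain ⟨i, rfl⟩ := hx; exact h2 i
      | zero => rfl
      | add x y _ _ hx hy => simp [hx, hy]
      | neg x _ hx => simp [hx]
    have h5 := h4 _ h3
    simp at h5
  have hA : D.A k ≠ 0 := by
    intro h0
    have h1 := D.A_diag k
    rw [h0] at h1
    simp at h1
  have hex : ∃ i j, D.F k i j ≠ 0 := by
    by_contra hne
    push Not at hne
    exact hF (by ext i j; exact hne i j)
  obtain ⟨i, j, hij⟩ := hex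
  have hwt := D.F_wt k i j hij
  have hpow : ∀ m : ℕ, ∀ i j, (D.F k ^ m) i j ≠ 0 → D.wt i = D.wt j - m • D.A k := by
    intro m
    induction m with
    | zero =>
      intro i j h0
      rw [pow_zero, Matrix.one_apply] at h0
      have : i = j := by by_contra hne; simp [hne] at h0
      rw [this]; simp
    | succ m ih =>
      intro i j h0
      rw [pow_succ, Matrix.mul_apply] at h0
      obtain ⟨l, -, hl⟩ := Finset.exists_ne_zero_of_sum_ne_zero h0
      have h1 := ih i l (left_ne_zero_of_mul hl)
      have h2 := D.F_wt k l j (right_ne_zero_of_mul hl)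
      rw [h1, h2, succ_nsmul]
      abel
  obtain ⟨M, hM⟩ := tF_nil D k c
  have hM' : (c • D.F k) ^ (M + 2) = 0 := by rw [pow_add, hM, zero_mul]
  have h6 := exU_sum (p := p) hM'
  have h7 : ((exU (c • D.F k) : GLm p ι) : Matrix ι ι ℚ_[p]) = 1 := by
    have : (exU (c • D.F k) : GLm p ι) = 1 := h
    rw [this, Units.val_one]
  rw [h7] at h6
  have h8 := congrFun (congrFun h6 i) j
  have hne : i ≠ j := by
    rintro rfl
    apply hA
    have := hwt
    rw [eq_comm, sub_eq_self] at this
    exact this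
  rw [Matrix.one_apply_ne hne, Matrix.sum_apply, Finset.sum_eq_single 1] at h8
  · simp only [Nat.factorial_one, Nat.cast_one, inv_one, pow_one, Matrix.smul_apply,
      smul_eq_mul, one_mul] at h8
    rcases mul_eq_zero.1 h8.symm with h9 | h9
    · exact h9
    · exact absurd h9 hij
  · intro m _ hm
    rw [smul_pow, Matrix.smul_apply, Matrix.smul_apply]
    have : (D.F k ^ m) i j = 0 := by
      by_contra hcon
      have h9 := hpow m i j hcon
      rw [hwt] at h9
      have h10 : D.A k = m • D.A k := by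
        have := sub_right_injective h9
        exact this
      have h11 := congrFun h10 k
      rw [Pi.smul_apply, D.A_diag, nsmul_eq_mul] at h11
      apply hm
      have : (m : ℤ) = 1 := by linarith
      exact_mod_cast this
    rw [this, smul_zero, smul_zero]
  · intro hcon
    exact absurd (Finset.mem_range.2 (by omega)) hcon

/-- TARGET.
Proof. `ray_lemma` gives `r = m y_k(c) m⁻¹`, `NN_rep` gives `w ∈ W`, `Rep m w`. `Z = cj m (c • F k)`, `γ = w (A k)`: `r = exU Z` (`exU_conj`, `tF_nil`), `Z ∈ Lg` (`Lg_cj_NN`, `Lg_F`), `Supp {w (-A k)} Z` (`supp_cj`, `F_wt`), `Z ≠ 0`: otherwise `r = exU 0 = 1`, contradicting `Ray`. `Pos γ`: otherwise (`weyl_sign`) `Pos (-γ)` and `r ∈ N` (`NN_conj`), `r ∈ N ∩ Nb`, `r = 1` (`N_inter_Nb`). -/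
theorem ray_root {r : GLm p ι} (hr : r ∈ D.Nb) {ν : I → ℤ} (hν : D.Pos ν) (h : Ray D r ν) :
    ∃ γ : I → ℤ, D.Pos γ ∧ ∃ Z ∈ Lg D, Z ≠ 0 ∧ D.Supp {-γ} Z ∧ r = exU Z := by
  obtain ⟨m, hm, k, c, hc, hrm⟩ := ray_lemma D hr hν h
  obtain ⟨w, hw, hrep⟩ := NN_rep D hm
  have hr1 : r ≠ 1 := by
    intro h1
    obtain ⟨⟨i, j, hij, -⟩, -⟩ := h
    apply hij
    rw [h1, Units.val_one, sub_self, Matrix.zero_apply]
  have hexp : r = exU (cj m (c • D.F k)) := by
    rw [hrm]
    exact exU_conj m (tF_nil D k c)
  refine ⟨w (D.A k), ?_, cj m (c • D.F k), Lg_cj_NN D ((Lg D).smul_mem c (Lg_F D k)) hm, ?_, ?_,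
    hexp⟩
  · rcases weyl_sign D hw k with h1 | h1
    · exact h1
    · exfalso
      apply hr1
      refine N_inter_Nb D ?_ hr
      rw [hrm]
      have h2 : D.Pos (-(w (D.A k))) → m * D.x k c * m⁻¹ ∈ D.Nb := (NN_conj D hm hrep k c).2.1
      exact (NN_conj D hm hrep k c).2.2.2 h1
  · intro h0
    rw [h0, exU_zero] at hexp
    exact hr1 hexp
  · have h1 : D.Supp {-(D.A k)} (c • D.F k) := by
      intro i j hij
      have h2 : D.F k i j ≠ 0 := by
        intro h3
        apply hij
        rw [Matrix.smul_apply, h3, smul_zero]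
      rw [Set.mem_singleton_iff, D.F_wt k i j h2]
      abel
    have h2 := supp_cj D hrep h1
    rw [Set.image_singleton, map_neg] at h2
    exact h2

end Pool.Agent.Chev
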