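import Mathlib
import Pool.Agent.Helper911_Chev.Defs3
import Pool.Agent.Helper911_Chev.CA1
import Pool.Agent.Helper911_Chev.CA2
import Pool.Agent.Helper911_Chev.CA3
import Pool.Agent.Helper911_Chev.CH0
import Pool.Agent.Helper911_Chev.CB4
import Pool.Agent.Helper911_Chev.CB3
import Pool.Agent.Helper911_Chev.CE1
import Pool.Agent.Helper911_Chev.CH3

set_option autoImplicit false
set_option linter.unusedSectionVars false
set_option maxHeartbeats 1000000

noncomputable section

open Matrix Topology

namespace Pool.Agent.Chev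

open ChevData

variable {p : ℕ} [Fact p.Prime] {I ι : Type} [Fintype I] [DecidableEq I] [Fintype ι]
  [DecidableEq ι] (D : ChevData p I ι)

/-! ======= TARGETS ======= -/

theorem zpow_sum_aux {Q κ : Type} [CommGroup Q] (a : Q) (s : Finset κ) (f : κ → ℤ) :
    a ^ (∑ j ∈ s, f j) = ∏ j ∈ s, a ^ f j := by
  classical
  induction s using Finset.induction_on with
  | empty => simp
  | insert b s hb ih =>
    rw [Finset.sum_insert hb, Finset.prod_insert hb, _root_.zpow_add, ih]

/-- every weight is an integral combination of the weights of the basis -/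
theorem exists_comb (μ : I → ℤ) : ∃ m : ι → ℤ, ∀ k, μ k = ∑ i, m i * D.wt i k := by
  have h : μ ∈ AddSubgroup.closure (Set.range D.wt) := by rw [D.span]; exact AddSubgroup.mem_top _
  induction h using AddSubgroup.closure_induction with
  | mem x hx =>
    obtain ⟨j, rfl⟩ := hx
    refine ⟨Pi.single j 1, fun k => ?_⟩
    rw [Finset.sum_eq_single j]
    · simp
    · intro l _ hl
      rw [Pi.single_eq_of_ne hl, zero_mul]
    · intro hj
      exact absurd (Finset.mem_univ j) hj
  | zero => exact ⟨0, fun k => by simp⟩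
  | add x y _ _ hx hy =>
    obtain ⟨a, ha⟩ := hx
    obtain ⟨b, hb⟩ := hy
    refine ⟨a + b, fun k => ?_⟩
    rw [Pi.add_apply, ha k, hb k, ← Finset.sum_add_distrib]
    refine Finset.sum_congr rfl fun i _ => ?_
    rw [Pi.add_apply]; ring
  | neg x _ hx =>
    obtain ⟨a, ha⟩ := hx
    refine ⟨-a, fun k => ?_⟩
    rw [Pi.neg_apply, ha k, ← Finset.sum_neg_distrib]
    refine Finset.sum_congr rfl fun i _ => ?_
    rw [Pi.neg_apply]; ring

/-- the parameters of the diagonal entries -/
def Psi (τ : I → ℚ_[p]ˣ) : ι → ℚ_[p]ˣ := fun i => ∏ k, τ k ^ D.wt i k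

theorem Psi_cont : Continuous (Psi D) := by
  refine continuous_pi fun i => ?_
  refine continuous_finsetProd _ fun k _ => ?_
  exact (continuous_apply k).zpow _

theorem Psi_range_closed : IsClosed (Set.range (Psi D)) := by
  choose m hm using fun k : I => exists_comb D (Pi.single k 1)
  let Lam : (ι → ℚ_[p]ˣ) → (I → ℚ_[p]ˣ) := fun v k => ∏ j, v j ^ m k j
  have hLam : Continuous Lam := by
    refine continuous_pi fun k => ?_
    refine continuous_finsetProd _ fun j _ => ?_
    exact (continuous_apply j).zpow _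
  have hleft : ∀ τ, Lam (Psi D τ) = τ := by
    intro τ
    funext k
    show ∏ j, (∏ l, τ l ^ D.wt j l) ^ m k j = τ k
    calc ∏ j, (∏ l, τ l ^ D.wt j l) ^ m k j = ∏ j, ∏ l, τ l ^ (m k j * D.wt j l) := by
          refine Finset.prod_congr rfl fun j _ => ?_
          rw [← Finset.prod_zpow]
          refine Finset.prod_congr rfl fun l _ => ?_
          rw [← _root_.zpow_mul, mul_comm]
      _ = ∏ l, ∏ j, τ l ^ (m k j * D.wt j l) := Finset.prod_comm
      _ = ∏ l, τ l ^ (Pi.single k (1 : ℤ) : I → ℤ) l := by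
          refine Finset.prod_congr rfl fun l _ => ?_
          rw [hm k l]
          exact (zpow_sum_aux (τ l) Finset.univ _).symm
      _ = τ k := by
          rw [Finset.prod_eq_single k]
          · simp
          · intro l _ hl
            rw [Pi.single_eq_of_ne hl, zpow_zero]
          · intro h
            exact absurd (Finset.mem_univ k) h
  have : Set.range (Psi D) = {v | Psi D (Lam v) = v} := by
    ext v
    constructor
    · rintro ⟨τ, rfl⟩
      show Psi D (Lam (Psi D τ)) = Psi D τ
      rw [hleft]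
    · intro h
      exact ⟨Lam v, h⟩
  rw [this]
  exact isClosed_eq ((Psi_cont D).comp hLam) continuous_id

theorem entry_cont (i j : ι) : Continuous (fun g : GLm p ι => (g : Matrix ι ι ℚ_[p]) i j) :=
  Units.continuous_val.matrix_elem i j

theorem entry_inv_cont (i j : ι) :
    Continuous (fun g : GLm p ι => ((g⁻¹ : GLm p ι) : Matrix ι ι ℚ_[p]) i j) :=
  (entry_cont i j).comp continuous_inv

/-- TARGET.
Proof. By `D.span` choose integers `m k i` with `single k 1 = ∑_i m k i • wt i`. A matrix `g` is in `T` iff it is diagonal and `g i i = ∏_k (∏_j (g j j)^(m k j)) ^ (wt i k)` for all `i` (then `g = h τ` with `τ_k = ∏_j (g j j)^(m k j)`); these are closed conditions on invertible matrices (`g j j` is a unit for a diagonal invertible matrix; the inverse of `g j j` is `(g⁻¹) j j`). -/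
theorem T_closed : IsClosed (D.T : Set (GLm p ι)) := by
  let C : Set (GLm p ι) := {g | (∀ i j, i ≠ j → (g : Matrix ι ι ℚ_[p]) i j = 0) ∧
    ∀ i, (g : Matrix ι ι ℚ_[p]) i i * ((g⁻¹ : GLm p ι) : Matrix ι ι ℚ_[p]) i i = 1}
  have hC : IsClosed C := by
    have e : C = (⋂ i, ⋂ j, {g : GLm p ι | i ≠ j → (g : Matrix ι ι ℚ_[p]) i j = 0}) ∩
        ⋂ i, {g : GLm p ι | (g : Matrix ι ι ℚ_[p]) i i *
          ((g⁻¹ : GLm p ι) : Matrix ι ι ℚ_[p]) i i = 1} := by
      ext g
      simp only [C, Set.mem_ofPred_eq, Set.mem_inter_iff, Set.mem_iInter]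
    rw [e]
    refine IsClosed.inter (isClosed_iInter fun i => isClosed_iInter fun j => ?_)
      (isClosed_iInter fun i => ?_)
    · by_cases h : i = j
      · have : {g : GLm p ι | i ≠ j → (g : Matrix ι ι ℚ_[p]) i j = 0} = Set.univ := by
          ext g
          simp [h]
        rw [this]; exact isClosed_univ
      · have : {g : GLm p ι | i ≠ j → (g : Matrix ι ι ℚ_[p]) i j = 0} =
            {g : GLm p ι | (g : Matrix ι ι ℚ_[p]) i j = 0} := by
          ext g
          simp [h]
        rw [this]
        exact isClosed_eq (entry_cont i j) continuous_const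
    · exact isClosed_eq ((entry_cont i i).mul (entry_inv_cont i i)) continuous_const
  let v : C → (ι → ℚ_[p]ˣ) := fun g i =>
    ⟨(g.1 : Matrix ι ι ℚ_[p]) i i, ((g.1⁻¹ : GLm p ι) : Matrix ι ι ℚ_[p]) i i, g.2.2 i,
      by rw [mul_comm]; exact g.2.2 i⟩
  have hv : Continuous v := by
    refine continuous_pi fun i => ?_
    rw [Units.continuous_iff]
    exact ⟨(entry_cont i i).comp continuous_subtype_val,
      (entry_inv_cont i i).comp continuous_subtype_val⟩
  have hT : (D.T : Set (GLm p ι)) = Subtype.val '' (v ⁻¹' Set.range (Psi D)) := by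
    ext g
    constructor
    · rintro ⟨τ, rfl⟩
      have hinv : ((D.h τ)⁻¹ : GLm p ι) = D.h τ⁻¹ := (map_inv D.h τ).symm
      have hg : D.h τ ∈ C := by
        refine ⟨fun i j hij => ?_, fun i => ?_⟩
        · rw [h_apply, if_neg hij]
        · rw [hinv, h_apply, h_apply, if_pos rfl, if_pos rfl, ← Units.val_mul,
            ← Finset.prod_mul_distrib]
          simp
      refine ⟨⟨D.h τ, hg⟩, ⟨τ, ?_⟩, rfl⟩
      funext i
      apply Units.ext
      show ((∏ k, τ k ^ D.wt i k : ℚ_[p]ˣ) : ℚ_[p]) = (D.h τ : Matrix ι ι ℚ_[p]) i i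
      rw [h_apply, if_pos rfl]
    · rintro ⟨⟨g, hg⟩, ⟨τ, hτ⟩, rfl⟩
      refine ⟨τ, ?_⟩
      apply Units.ext
      ext i j
      by_cases h : i = j
      · subst h
        have h1 := congrFun hτ i
        have h2 := congrArg (fun u : ℚ_[p]ˣ => (u : ℚ_[p])) h1
        rw [h_apply, if_pos rfl]
        exact h2
      · rw [h_apply, if_neg h]
        exact (hg.1 i j h).symm
  rw [hT]
  exact hC.isClosedEmbedding_subtypeVal.isClosedMap _ ((Psi_range_closed D).preimage hv)

theorem UP_diag {n : GLm p ι} (hn : n ∈ D.UP) (i : ι) : (n : Matrix ι ι ℚ_[p]) i i = 1 := by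
  by_contra hne
  have h1 : ((n : Matrix ι ι ℚ_[p]) - 1) i i ≠ 0 := by
    rw [Matrix.sub_apply, Matrix.one_apply_eq]
    exact sub_ne_zero.2 hne
  have h2 : D.Pos (D.wt i - D.wt i) := hn.1 i i h1
  rw [sub_self] at h2
  exact D.pos_conic.zero h2

/-- TARGET.
Proof. For `b = h τ * n` in `B` the diagonal part (`Matrix.diagonal (fun i => b i i)`) is `h τ`. `b ∈ B` iff all `b i i ≠ 0`.. more precisely: `b ∈ B` iff the diagonal matrix `δ(b)` with entries `b i i` is invertible with inverse the diagonal matrix with entries `(b⁻¹) i i`, `δ(b) ∈ T` and `δ(b)⁻¹ b ∈ N`. The set of `b` such that `b i i * (b⁻¹) i i = 1` for all `i` is closed, on it `b ↦ δ(b)` is continuous into `GLm`, and `T`, `N` are closed. -/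
theorem B_closed : IsClosed (D.B : Set (GLm p ι)) := by
  let C : Set (GLm p ι) := {g | ∀ i, (g : Matrix ι ι ℚ_[p]) i i *
    ((g⁻¹ : GLm p ι) : Matrix ι ι ℚ_[p]) i i = 1}
  have hC : IsClosed C := by
    have e : C = ⋂ i, {g : GLm p ι | (g : Matrix ι ι ℚ_[p]) i i *
          ((g⁻¹ : GLm p ι) : Matrix ι ι ℚ_[p]) i i = 1} := by
      ext g
      simp only [C, Set.mem_ofPred_eq, Set.mem_iInter]
    rw [e]
    exact isClosed_iInter fun i =>
      isClosed_eq ((entry_cont i i).mul (entry_inv_cont i i)) continuous_const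
  let δ : C → GLm p ι := fun g =>
    ⟨Matrix.diagonal (fun i => (g.1 : Matrix ι ι ℚ_[p]) i i),
      Matrix.diagonal (fun i => ((g.1⁻¹ : GLm p ι) : Matrix ι ι ℚ_[p]) i i), by
        rw [Matrix.diagonal_mul_diagonal, ← Matrix.diagonal_one]
        congr 1; funext i; exact g.2 i, by
        rw [Matrix.diagonal_mul_diagonal, ← Matrix.diagonal_one]
        congr 1; funext i; rw [mul_comm]; exact g.2 i⟩
  have hδ : Continuous δ := by
    rw [Units.continuous_iff]
    constructor
    · exact Continuous.matrix_diagonal (continuous_pi fun i =>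
        (entry_cont i i).comp continuous_subtype_val)
    · exact Continuous.matrix_diagonal (continuous_pi fun i =>
        (entry_inv_cont i i).comp continuous_subtype_val)
  have hB : (D.B : Set (GLm p ι)) = Subtype.val '' (δ ⁻¹' (D.T : Set (GLm p ι)) ∩
      (fun g : C => (δ g)⁻¹ * g.1) ⁻¹' (D.N : Set (GLm p ι))) := by
    ext b
    constructor
    · intro hb
      have hb' : b ∈ D.B := hb
      obtain ⟨ord, ho⟩ := exists_ord D
      have u1 := B_up D ho hb'
      have u2 := B_up D ho (inv_mem hb')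
      have hbC : b ∈ C := by
        intro i
        have h1 : ((b : Matrix ι ι ℚ_[p]) * ((b⁻¹ : GLm p ι) : Matrix ι ι ℚ_[p])) i i = 1 := by
          rw [← Units.val_mul, mul_inv_cancel, Units.val_one, Matrix.one_apply_eq]
        rw [Matrix.mul_apply, Finset.sum_eq_single i] at h1
        · exact h1
        · intro j _ hj
          by_contra hne
          have h2 := u1 i j (left_ne_zero_of_mul hne)
          have h3 := u2 j i (right_ne_zero_of_mul hne)
          exact hj (ho.inj (le_antisymm h3 h2))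
        · intro h
          exact absurd (Finset.mem_univ i) h
      obtain ⟨τ, n, hn, rfl⟩ := (mem_B D b).1 hb'
      have hd : δ ⟨D.h τ * n, hbC⟩ = D.h τ := by
        apply Units.ext
        ext i j
        show Matrix.diagonal (fun i => ((D.h τ * n : GLm p ι) : Matrix ι ι ℚ_[p]) i i) i j = _
        rw [h_apply]
        by_cases h : i = j
        · subst h
          rw [Matrix.diagonal_apply_eq, if_pos rfl, Units.val_mul, Matrix.mul_apply,
            Finset.sum_eq_single i]
          · rw [h_apply, if_pos rfl, UP_diag D (N_le_UP D hn) i, mul_one]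
          · intro l _ hl
            rw [h_apply, if_neg (Ne.symm hl), zero_mul]
          · intro h
            exact absurd (Finset.mem_univ i) h
        · rw [Matrix.diagonal_apply_ne _ h, if_neg h]
      refine ⟨⟨D.h τ * n, hbC⟩, ⟨?_, ?_⟩, rfl⟩
      · show δ ⟨D.h τ * n, hbC⟩ ∈ D.T
        rw [hd]
        exact ⟨τ, rfl⟩
      · show (δ ⟨D.h τ * n, hbC⟩)⁻¹ * (D.h τ * n) ∈ D.N
        rw [hd, inv_mul_cancel_left]
        exact hn
    · rintro ⟨⟨g, hg⟩, ⟨h1, h2⟩, rfl⟩
      have h1' : δ ⟨g, hg⟩ ∈ D.T := h1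
      have h2' : (δ ⟨g, hg⟩)⁻¹ * g ∈ D.N := h2
      have h3 : g = δ ⟨g, hg⟩ * ((δ ⟨g, hg⟩)⁻¹ * g) := by group
      show g ∈ D.B
      rw [h3]
      exact mul_mem ((le_sup_left : D.T ≤ D.T ⊔ D.N) h1') ((le_sup_right : D.N ≤ D.T ⊔ D.N) h2')
  rw [hB]
  refine hC.isClosedEmbedding_subtypeVal.isClosedMap _ (IsClosed.inter ?_ ?_)
  · exact (T_closed D).preimage hδ
  · exact (N_closed D).preimage (hδ.inv.mul continuous_subtype_val)

end Pool.Agent.Chev
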