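import Mathlib
import Pool.Agent.Helper911_Chev.Defs3
import Pool.Agent.Helper911_Chev.CA1
import Pool.Agent.Helper911_Chev.CA2
import Pool.Agent.Helper911_Chev.CA3
import Pool.Agent.Helper911_Chev.CD1
import Pool.Agent.Helper911_Chev.CE3

set_option autoImplicit false
set_option linter.unusedSectionVars false
set_option maxHeartbeats 1000000

noncomputable section

open Matrix Topology

namespace Pool.Agent.Chev

open ChevData

variable {p : ℕ} [Fact p.Prime] {I ι : Type} [Fintype I] [DecidableEq I] [Fintype ι]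
  [DecidableEq ι] (D : ChevData p I ι)

/-! ======= TARGETS ======= -/

/-- TARGET.
`N_split` for `D.dual`. -/
theorem Nb_split (k : I) {g : GLm p ι} (hg : g ∈ D.Nb) : ∃ t : ℚ_[p], g * D.y k t ∈ D.UMk k := by
  obtain ⟨t, ht⟩ := N_split D.dual k (g := g) (by rw [dual_N]; exact hg)
  refine ⟨t, ?_⟩
  rw [dual_x, dual_UPk] at ht
  exact ht

/-- TARGET.
`Nk_stable` for `D.dual`. -/
theorem Nbk_stable (k : I) {g h : GLm p ι} (hg : g ∈ D.Nb) (hg' : g ∈ D.UMk k)
    (hh : h ∈ D.Hk k) : h * g * h⁻¹ ∈ D.Nb := by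
  rw [← dual_N]
  refine Nk_stable D.dual k ?_ ?_ ?_
  · rw [dual_N]; exact hg
  · rw [dual_UPk]; exact hg'
  · rw [dual_Hk]; exact hh

end Pool.Agent.Chev
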