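import Mathlib
import Pool.Agent.Helper911_Chev.Defs3
import Pool.Agent.Helper911_Chev.CA1
import Pool.Agent.Helper911_Chev.CA2
import Pool.Agent.Helper911_Chev.CA3
import Pool.Agent.Helper911_Chev.CB1
import Pool.Agent.Helper911_Chev.CB2
import Pool.Agent.Helper911_Chev.CB3
import Pool.Agent.Helper911_Chev.CB4
import Pool.Agent.Helper911_Chev.CD1
import Pool.Agent.Helper911_Chev.CC1
import Pool.Agent.Helper911_Chev.CC2
import Pool.Agent.Helper911_Chev.CW1
import Pool.Agent.Helper911_Chev.CW2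
import Pool.Agent.Helper911_Chev.CE1
import Pool.Agent.Helper911_Chev.CE3
import Pool.Agent.Helper911_Chev.CE4

set_option autoImplicit false
set_option linter.unusedSectionVars false
set_option maxHeartbeats 1000000

noncomputable section

open Matrix Topology

namespace Pool.Agent.Chev

open ChevData

variable {p : ℕ} [Fact p.Prime] {I ι : Type} [Fintype I] [DecidableEq I] [Fintype ι]
  [DecidableEq ι] (D : ChevData p I ι)

/-! ======= helper lemmas ======= -/

theorem NNc_supp_E (k : I) : D.Supp {D.A k} (D.E k) := by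
  intro i j hij
  have h := D.E_wt k i j hij
  rw [Set.mem_singleton_iff, h]
  abel

theorem NNc_x_conj (g : GLm p ι) (k : I) (t : ℚ_[p]) :
    g * D.x k t * g⁻¹ = exU (t • cj g (D.E k)) := by
  have h := exU_conj g (tE_nil D k t)
  unfold ChevData.x
  rw [h]
  congr 1
  exact cj_smul g t (D.E k)

theorem NNc_supp {g : GLm p ι} {w : (I → ℤ) ≃ₗ[ℤ] (I → ℤ)} (h : D.Rep g w) (k : I) :
    D.Supp {w (D.A k)} (cj g (D.E k)) := by
  have h1 := supp_cj D h (NNc_supp_E D k)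
  rwa [Set.image_singleton] at h1

theorem NNc_supp_smul {S : Set (I → ℤ)} {X : Matrix ι ι ℚ_[p]} (hX : D.Supp S X) (t : ℚ_[p]) :
    D.Supp S (t • X) := by
  intro i j hij
  apply hX i j
  intro h0
  apply hij
  rw [Matrix.smul_apply, h0, smul_zero]

theorem NNc_supp_mono {S T : Set (I → ℤ)} {X : Matrix ι ι ℚ_[p]} (hX : D.Supp S X) (h : S ⊆ T) :
    D.Supp T X := fun i j hij => h (hX i j hij)

theorem NNc_pos_neg {μ : I → ℤ} (h : D.Pos μ) (h' : D.Pos (-μ)) : False := by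
  have h1 := D.pos_conic.add _ h _ h'
  rw [add_neg_cancel] at h1
  exact D.pos_conic.zero h1

theorem NNc_s_self (k : I) : D.s k (D.A k) = - D.A k := by
  rw [D.s_apply, D.A_diag]
  funext l
  simp only [Pi.sub_apply, Pi.smul_apply, smul_eq_mul, Pi.neg_apply]
  ring

theorem NNc_s_mem (k : I) : D.s k ∈ D.W := Subgroup.subset_closure ⟨k, rfl⟩

theorem NNc_n_mem_Hk (k : I) : D.n k ∈ D.Hk k := by
  rw [← nt_one D k]; exact nt_mem_Hk D k 1

theorem NNc_rep_n (k : I) : D.Rep (D.n k) (D.s k) := by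
  rw [← nt_one D k]; exact nt_rep D k 1

/-- The statement to be proved for one `g`. -/
def NNcP (g : GLm p ι) : Prop :=
  ∀ w : (I → ℤ) ≃ₗ[ℤ] (I → ℤ), D.Rep g w → ∀ (k : I) (t : ℚ_[p]),
    (D.Pos (w (D.A k)) → g * D.x k t * g⁻¹ ∈ D.N) ∧
    (D.Pos (-(w (D.A k))) → g * D.x k t * g⁻¹ ∈ D.Nb)

theorem NNc_T {g : GLm p ι} (hg : g ∈ D.NN) (h : NNcP D g) (τ : I → ℚ_[p]ˣ) :
    NNcP D (D.h τ * g) := by
  intro w hw k t
  obtain ⟨w', -, hw'⟩ := NN_rep D hg
  have h1 := rep_mul D (rep_h D τ) hw'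
  have h2 : w = w' := by
    rw [rep_unique D hw h1, one_mul]
  subst h2
  have h3 : D.h τ * g * D.x k t * (D.h τ * g)⁻¹ = D.h τ * (g * D.x k t * g⁻¹) * (D.h τ)⁻¹ := by
    group
  rw [h3]
  exact ⟨fun hp => h_conj_N D τ ((h w hw' k t).1 hp), fun hp => h_conj_Nb D τ ((h w hw' k t).2 hp)⟩

theorem NNc_n {g : GLm p ι} (hg : g ∈ D.NN) (h : NNcP D g) (i : I) :
    NNcP D (D.n i * g) := by
  intro w hw k t
  obtain ⟨w', hW, hw'⟩ := NN_rep D hg
  have h1 := rep_mul D (NNc_rep_n D i) hw'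
  have h2 : w = D.s i * w' := rep_unique D hw h1
  have hwA : w (D.A k) = D.s i (w' (D.A k)) := by rw [h2]; rfl
  have h3 : D.n i * g * D.x k t * (D.n i * g)⁻¹ = D.n i * (g * D.x k t * g⁻¹) * (D.n i)⁻¹ := by
    group
  rw [h3, hwA]
  have hIH := h w' hw' k t
  have hsupp := NNc_supp_smul D (NNc_supp D hw' k) t
  have hLg : cj g (D.E k) ∈ Lg D := Lg_cj_NN D (Lg_E D k) hg
  rcases weyl_sign D hW k with hpos | hneg
  · by_cases hb : w' (D.A k) = D.A i
    · rw [hb, NNc_s_self]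
      refine ⟨fun hp => (NNc_pos_neg D (pos_A D i) hp).elim, fun _ => ?_⟩
      have hs : D.Supp {D.A i} (cj g (D.E k)) := by
        have := NNc_supp D hw' k
        rwa [hb] at this
      obtain ⟨c, hc⟩ := Lg_simple D hLg i hs
      have h4 : g * D.x k t * g⁻¹ = D.x i (t * c) := by
        rw [NNc_x_conj D g k t, hc]
        unfold ChevData.x
        rw [smul_smul]
      have h5 := nt_conj_x D i 1 (t * c)
      rw [nt_one D i] at h5
      rw [h4, h5]
      exact y_mem_Nb D i _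
    · have hs := weyl_refl_pos D hW i k hpos hb
      refine ⟨fun _ => ?_, fun hp => (NNc_pos_neg D hs hp).elim⟩
      have hoff := weyl_off D hW i k hpos hb 1 le_rfl
      rw [one_smul] at hoff
      refine Nk_stable D i (hIH.1 hpos) ?_ (NNc_n_mem_Hk D i)
      rw [NNc_x_conj D g k t]
      refine exU_mem_US D _ _ _ (NNc_supp_mono D hsupp ?_)
      rintro _ rfl
      exact hoff
  · have hγ : (w' * D.s k) (D.A k) = -(w' (D.A k)) := by
      show w' (D.s k (D.A k)) = _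
      rw [NNc_s_self, map_neg]
    have hW2 : w' * D.s k ∈ D.W := D.W.mul_mem hW (NNc_s_mem D k)
    have hpos2 : D.Pos ((w' * D.s k) (D.A k)) := by rw [hγ]; exact hneg
    by_cases hb : (w' * D.s k) (D.A k) = D.A i
    · have hb' : w' (D.A k) = - D.A i := by
        rw [hγ] at hb; rw [← hb, neg_neg]
      rw [hb', map_neg, NNc_s_self, neg_neg]
      refine ⟨fun _ => ?_, fun hp => (NNc_pos_neg D (pos_A D i) hp).elim⟩
      have hs : D.Supp {μ | -μ ∈ ({D.A i} : Set (I → ℤ))} (cj g (D.E k)) := by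
        refine NNc_supp_mono D (NNc_supp D hw' k) ?_
        rintro _ rfl
        show -(w' (D.A k)) ∈ ({D.A i} : Set (I → ℤ))
        rw [hb', neg_neg]; rfl
      have hs' := (dual_supp D {D.A i} (cj g (D.E k))).2 hs
      have hLg' : cj g (D.E k) ∈ Lg D.dual := by rw [dual_Lg]; exact hLg
      obtain ⟨c, hc⟩ := Lg_simple D.dual hLg' i hs'
      have h4 : g * D.x k t * g⁻¹ = D.y i (t * c) := by
        rw [NNc_x_conj D g k t, hc]
        unfold ChevData.y
        rw [smul_smul]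
        rfl
      have h5 := nt_conj_y D i 1 (t * c)
      rw [nt_one D i] at h5
      rw [h4, h5]
      exact x_mem_N D i _
    · have hs := weyl_refl_pos D hW2 i k hpos2 hb
      have hs2 : D.Pos (-(D.s i (w' (D.A k)))) := by
        rw [hγ, map_neg] at hs; exact hs
      refine ⟨fun hp => (NNc_pos_neg D hp hs2).elim, fun _ => ?_⟩
      have hoff := weyl_off D hW2 i k hpos2 hb 1 le_rfl
      rw [one_smul, hγ] at hoff
      refine Nbk_stable D i (hIH.2 hneg) ?_ (NNc_n_mem_Hk D i)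
      rw [NNc_x_conj D g k t]
      refine exU_mem_US D _ _ _ (NNc_supp_mono D hsupp ?_)
      rintro _ rfl
      exact hoff

theorem NNc_all {g : GLm p ι} (hg : g ∈ D.NN) : NNcP D g := by
  have hg' : g ∈ Subgroup.closure ((D.T : Set (GLm p ι)) ∪ Set.range D.n) := hg
  induction hg' using Subgroup.closure_induction_left with
  | one =>
    intro w hw k t
    have h1 : w = 1 := rep_unique D hw (rep_one D)
    subst h1
    have h2 : (1 : GLm p ι) * D.x k t * (1 : GLm p ι)⁻¹ = D.x k t := by group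
    rw [h2]
    refine ⟨fun _ => x_mem_N D k t, fun hp => (NNc_pos_neg D (pos_A D k) hp).elim⟩
  | mul_left x hx y hy ih =>
    have hy' : y ∈ D.NN := hy
    rcases hx with ⟨τ, rfl⟩ | ⟨i, rfl⟩
    · exact NNc_T D hy' (ih hy') τ
    · exact NNc_n D hy' (ih hy') i
  | inv_mul_cancel x hx y hy ih =>
    have hy' : y ∈ D.NN := hy
    rcases hx with ⟨τ, rfl⟩ | ⟨i, rfl⟩
    · rw [← map_inv]
      exact NNc_T D hy' (ih hy') τ⁻¹
    · have h1 : (D.n i)⁻¹ * y = D.h (fun l => (-1 : ℚ_[p]ˣ) ^ (Pi.single i (1 : ℤ) : I → ℤ) l)⁻¹ * (D.n i * y) := by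
        have h2 : D.n i * D.n i = D.h (fun l => (-1 : ℚ_[p]ˣ) ^ (Pi.single i (1 : ℤ) : I → ℤ) l) := n_sq D i
        rw [map_inv, ← h2]
        group
      rw [h1]
      exact NNc_T D (D.NN.mul_mem (n_mem_NN D i) hy') (NNc_n D hy' (ih hy') i) _

theorem NN_conj {g : GLm p ι} (hg : g ∈ D.NN) {w : (I → ℤ) ≃ₗ[ℤ] (I → ℤ)} (h : D.Rep g w)
    (k : I) (t : ℚ_[p]) :
    (D.Pos (w (D.A k)) → g * D.x k t * g⁻¹ ∈ D.N) ∧
    (D.Pos (-(w (D.A k))) → g * D.x k t * g⁻¹ ∈ D.Nb) ∧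
    (D.Pos (w (D.A k)) → g * D.y k t * g⁻¹ ∈ D.Nb) ∧
    (D.Pos (-(w (D.A k))) → g * D.y k t * g⁻¹ ∈ D.N) := by
  have h1 := NNc_all D hg w h k t
  have hg' : g ∈ D.dual.NN := by rw [dual_NN]; exact hg
  have h2 := NNc_all D.dual hg' w ((dual_rep D g w).2 h) k t
  rw [dual_x, dual_N, dual_Nb] at h2
  refine ⟨h1.1, h1.2, fun hp => h2.1 ((dual_pos D _).2 hp), fun hp => h2.2 ((dual_pos D _).2 hp)⟩

end Pool.Agent.Chev
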