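import Mathlib
import Pool.Agent.Helper911_Chev.Defs3
import Pool.Agent.Helper911_Chev.CA1
import Pool.Agent.Helper911_Chev.CA2
import Pool.Agent.Helper911_Chev.CA3
import Pool.Agent.Helper911_Chev.CB2
import Pool.Agent.Helper911_Chev.CB3
import Pool.Agent.Helper911_Chev.CB4
import Pool.Agent.Helper911_Chev.CW1
import Pool.Agent.Helper911_Chev.CW2
import Pool.Agent.Helper911_Chev.CF2

set_option autoImplicit false
set_option linter.unusedSectionVars false
set_option maxHeartbeats 1000000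

noncomputable section

open Matrix Topology

namespace Pool.Agent.Chev

open ChevData

variable {p : ℕ} [Fact p.Prime] {I ι : Type} [Fintype I] [DecidableEq I] [Fintype ι]
  [DecidableEq ι] (D : ChevData p I ι)

/-! ======= TARGETS ======= -/

/-- TARGET.
See the hints above. -/
theorem nL_rep (L : List I) : D.Rep (nL D L) (sL D L) := by
  induction L with
  | nil => exact rep_one D
  | cons i L ih =>
    have h1 : D.Rep (D.n i) (D.s i) := by
      rw [← nt_one]; exact nt_rep D i 1
    have h2 : nL D (i :: L) = D.n i * nL D L := by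
      unfold nL; rw [List.map_cons, List.prod_cons]
    have h3 : sL D (i :: L) = D.s i * sL D L := by
      unfold sL; rw [List.map_cons, List.prod_cons]
    rw [h2, h3]
    exact rep_mul D h1 ih

/-- TARGET.
See the hints above. -/
theorem nL_mem (L : List I) : nL D L ∈ D.NN := by
  unfold nL
  apply Subgroup.list_prod_mem
  intro x hx
  rw [List.mem_map] at hx
  obtain ⟨i, -, rfl⟩ := hx
  exact n_mem_NN D i

theorem nL_cons (i : I) (L : List I) : nL D (i :: L) = D.n i * nL D L := by
  unfold nL; rw [List.map_cons, List.prod_cons]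

theorem sL_cons (i : I) (L : List I) : sL D (i :: L) = D.s i * sL D L := by
  unfold sL; rw [List.map_cons, List.prod_cons]

theorem nL_append (L L' : List I) : nL D (L ++ L') = nL D L * nL D L' := by
  unfold nL; rw [List.map_append, List.prod_append]

theorem sL_mem (L : List I) : sL D L ∈ D.W := NN_rep_mem D (nL_mem D L) (nL_rep D L)

/-- Moving a torus element across a word. -/
theorem word_h (L : List I) (τ : I → ℚ_[p]ˣ) :
    nL D L * D.h τ = D.h (act (sL D L) τ) * nL D L := by
  rw [← rep_conj D (nL_rep D L) τ]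
  group

theorem n_h (i : I) (τ : I → ℚ_[p]ˣ) : ∃ τ' : I → ℚ_[p]ˣ, D.n i * D.h τ = D.h τ' * D.n i := by
  have := word_h D [i] τ
  have h2 : nL D [i] = D.n i := by unfold nL; simp
  rw [h2] at this
  exact ⟨_, this⟩

theorem hk_is_h (k : I) (a : ℚ_[p]ˣ) : ∃ τ : I → ℚ_[p]ˣ, D.hk k a = D.h τ := ⟨_, rfl⟩

/-- TARGET.
`T` is normalised by the `n i` (`NN_norm_T`), `(n i)⁻¹` is `n i` up to `T` (`n_sq`). -/
theorem NN_words {g : GLm p ι} (hg : g ∈ D.NN) :
    ∃ (τ : I → ℚ_[p]ˣ) (L : List I), g = D.h τ * nL D L := by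
  have hmul : ∀ a b : GLm p ι, (∃ (τ : I → ℚ_[p]ˣ) (L : List I), a = D.h τ * nL D L) →
      (∃ (τ : I → ℚ_[p]ˣ) (L : List I), b = D.h τ * nL D L) →
      (∃ (τ : I → ℚ_[p]ˣ) (L : List I), a * b = D.h τ * nL D L) := by
    rintro _ _ ⟨σ, L, rfl⟩ ⟨τ, L', rfl⟩
    refine ⟨σ * act (sL D L) τ, L ++ L', ?_⟩
    rw [map_mul, nL_append]
    calc D.h σ * nL D L * (D.h τ * nL D L') = D.h σ * (nL D L * D.h τ) * nL D L' := by group
      _ = D.h σ * (D.h (act (sL D L) τ) * nL D L) * nL D L' := by rw [word_h]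
      _ = _ := by group
  have hn : ∀ i : I, ∃ (τ : I → ℚ_[p]ˣ) (L : List I), (D.n i)⁻¹ = D.h τ * nL D L := by
    intro i
    obtain ⟨τ, hτ⟩ := hk_is_h D i (-1)
    refine ⟨τ⁻¹, [i], ?_⟩
    have h2 : nL D [i] = D.n i := by unfold nL; simp
    rw [h2, map_inv, ← hτ, ← n_sq]
    group
  unfold NN at hg
  induction hg using Subgroup.closure_induction_left with
  | one => exact ⟨1, [], by unfold nL; simp⟩
  | mul_left x hx y hy ih =>
    apply hmul x y _ ih
    rcases hx with hx | ⟨i, rfl⟩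
    · obtain ⟨τ, rfl⟩ := hx
      exact ⟨τ, [], by unfold nL; simp⟩
    · exact ⟨1, [i], by unfold nL; simp⟩
  | inv_mul_cancel x hx y hy ih =>
    apply hmul x⁻¹ y _ ih
    rcases hx with hx | ⟨i, rfl⟩
    · obtain ⟨τ, rfl⟩ := hx
      exact ⟨τ⁻¹, [], by unfold nL; simp⟩
    · exact hn i

/-- TARGET.
Proof. Induction on `L`. `L = []` is impossible (`Pos (A k)` and `Pos (-(A k))` contradict `pos_conic`). `L = i :: L1`, `g = nL L1`, `w = sL L1 ∈ W`, `β = w (A k)`. If `Pos (-β)`: by induction `g n_k = h(τ) nL L1'` with `L1'` shorter by one, and `n_i h(τ) = h(τ') n_i`. Otherwise `Pos β` (`weyl_sign`) and `s i β = sL L (A k)` is negative, so `β = A i` (`weyl_refl_pos`, `pos_conic`), and `g n_k g⁻¹ = h(τ) n_i` (`NN_conj_n`),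
`n_i g n_k = n_i h(τ) n_i g = h(τ') n_i n_i g` and `n_i n_i = hk i (-1) ∈ T`: take `L' = L1`. -/
theorem exchange (L : List I) (k : I) (h : D.Pos (-((sL D L) (D.A k)))) :
    ∃ (L' : List I) (τ : I → ℚ_[p]ˣ), L'.length + 1 = L.length ∧ nL D L * D.n k = D.h τ * nL D L' := by
  have hcon : ∀ μ : I → ℤ, D.Pos μ → D.Pos (-μ) → False := by
    intro μ h1 h2
    have h3 := D.pos_conic.add μ h1 (-μ) h2
    rw [add_neg_cancel] at h3
    exact D.pos_conic.zero h3
  induction L with
  | nil =>
    exfalso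
    apply hcon (D.A k) (pos_A D k)
    simpa [sL] using h
  | cons i L ih =>
    rw [sL_cons] at h
    by_cases hneg : D.Pos (-((sL D L) (D.A k)))
    · obtain ⟨L', τ, hlen, heq⟩ := ih hneg
      obtain ⟨τ', hτ'⟩ := n_h D i τ
      refine ⟨i :: L', τ', ?_, ?_⟩
      · simp only [List.length_cons]; omega
      · rw [nL_cons, nL_cons, mul_assoc, heq, ← mul_assoc, hτ', mul_assoc]
    · have hpos : D.Pos ((sL D L) (D.A k)) := by
        rcases weyl_sign D (sL_mem D L) k with h1 | h1
        · exact h1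
        · exact absurd h1 hneg
      have hβ : (sL D L) (D.A k) = D.A i := by
        by_contra hne
        have h1 := weyl_refl_pos D (sL_mem D L) i k hpos hne
        exact hcon _ h1 h
      obtain ⟨τ, hτ⟩ := NN_conj_n D (nL_mem D L) (nL_rep D L) k i hβ
      have h1 : nL D L * D.n k = D.h τ * D.n i * nL D L := by
        rw [← hτ]; group
      obtain ⟨τ', hτ'⟩ := n_h D i τ
      obtain ⟨τ2, hτ2⟩ := hk_is_h D i (-1)
      refine ⟨L, τ' * τ2, ?_, ?_⟩
      · simp only [List.length_cons]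
      · rw [nL_cons, mul_assoc, h1, map_mul, ← hτ2, ← n_sq]
        calc D.n i * (D.h τ * D.n i * nL D L) = (D.n i * D.h τ) * D.n i * nL D L := by group
          _ = D.h τ' * D.n i * D.n i * nL D L := by rw [hτ']
          _ = _ := by group

end Pool.Agent.Chev
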