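import Mathlib
import Pool.Agent.Helper911_Chev.Defs3
import Pool.Agent.Helper911_Chev.CA1
import Pool.Agent.Helper911_Chev.CA2
import Pool.Agent.Helper911_Chev.CA3
import Pool.Agent.Helper911_Chev.CB2
import Pool.Agent.Helper911_Chev.CB3
import Pool.Agent.Helper911_Chev.CB4
import Pool.Agent.Helper911_Chev.CW1
import Pool.Agent.Helper911_Chev.CW2
import Pool.Agent.Helper911_Chev.CG1

set_option autoImplicit false
set_option linter.unusedSectionVars false
set_option maxHeartbeats 1000000

noncomputable section

open Matrix Topology

namespace Pool.Agent.Chev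

open ChevData

variable {p : ℕ} [Fact p.Prime] {I ι : Type} [Fintype I] [DecidableEq I] [Fintype ι]
  [DecidableEq ι] (D : ChevData p I ι)

/-! ======= TARGETS ======= -/

/-- TARGET.
Proof. Write `g = h(τ) nL L` (`NN_words`) with `L` of minimal length among all such expressions of `g` (all `τ`); strong induction on this length. `L = []`: `hT`. Otherwise `L = L0 ++ [k]`, `g0 = h(τ) nL L0`; if `Pos (-(sL L0 (A k)))` then by `exchange` `nL L0 * n k = h(σ) nL L'` with `L'` shorter than `L0`, contradicting the minimality; so `Pos (sL L0 (A k))` (`weyl_sign`), and the minimal length of `g0` is smaller, so `P g0` and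
`P (g0 * n k)`. -/
theorem NN_induction (P : GLm p ι → Prop) (hT : ∀ τ : I → ℚ_[p]ˣ, P (D.h τ))
    (hstep : ∀ g ∈ D.NN, ∀ w, D.Rep g w → ∀ k, D.Pos (w (D.A k)) → P g → P (g * D.n k)) :
    ∀ g ∈ D.NN, P g := by
  -- strong induction on a bound for the length
  have key : ∀ (m : ℕ) (g : GLm p ι) (τ : I → ℚ_[p]ˣ) (L : List I), L.length ≤ m →
      g = D.h τ * nL D L → P g := by
    intro m
    induction m with
    | zero =>
      intro g τ L hL hg
      have : L = [] := List.length_eq_zero_iff.mp (Nat.le_zero.mp hL)
      subst this
      rw [hg]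
      simpa [nL] using hT τ
    | succ m ih =>
      intro g τ L hL hg
      rcases List.eq_nil_or_concat L with rfl | ⟨L0, k, rfl⟩
      · rw [hg]
        simpa [nL] using hT τ
      · have hlen : L0.length ≤ m := by
          simp only [List.concat_eq_append, List.length_append, List.length_cons,
            List.length_nil] at hL
          omega
        have hnL : nL D (L0.concat k) = nL D L0 * D.n k := by
          simp [nL]
        have hW : sL D L0 ∈ D.W := NN_rep_mem D (nL_mem D L0) (nL_rep D L0)
        rcases weyl_sign D hW k with hp | hn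
        · have h1 : P (D.h τ * nL D L0) := ih _ τ L0 hlen rfl
          have hmem : D.h τ * nL D L0 ∈ D.NN := mul_mem (h_mem_NN D τ) (nL_mem D L0)
          have hrep : D.Rep (D.h τ * nL D L0) (sL D L0) := by
            have := rep_mul D (rep_h D τ) (nL_rep D L0)
            rwa [one_mul] at this
          have := hstep _ hmem _ hrep k hp h1
          rw [hg, hnL, ← mul_assoc]
          exact this
        · obtain ⟨L', σ, hL', he⟩ := exchange D L0 k hn
          refine ih g (τ * σ) L' (by omega) ?_
          rw [hg, hnL, he, map_mul, mul_assoc]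
  intro g hg
  obtain ⟨τ, L, h⟩ := NN_words D hg
  exact key L.length g τ L le_rfl h

/-- TARGET.
Proof. `g = h(τ) nL L` with `L` of minimal length. If `L = L0 ++ [k]`: `w (A k) = sL L0 (s k (A k)) = - sL L0 (A k)`, so `Pos (-(sL L0 (A k)))` and `exchange` gives a shorter expression, a contradiction. So `L = []`. -/
theorem T_of_pos {g : GLm p ι} (hg : g ∈ D.NN) {w : (I → ℤ) ≃ₗ[ℤ] (I → ℤ)} (h : D.Rep g w)
    (hpos : ∀ k, D.Pos (w (D.A k))) : g ∈ D.T := by
  have key : ∀ (m : ℕ) (τ : I → ℚ_[p]ˣ) (L : List I), L.length ≤ m →
      g = D.h τ * nL D L → g ∈ D.T := by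
    intro m
    induction m with
    | zero =>
      intro τ L hL hg
      have : L = [] := List.length_eq_zero_iff.mp (Nat.le_zero.mp hL)
      subst this
      exact ⟨τ, by rw [hg]; simp [nL]⟩
    | succ m ih =>
      intro τ L hL hg
      rcases List.eq_nil_or_concat L with rfl | ⟨L0, k, rfl⟩
      · exact ⟨τ, by rw [hg]; simp [nL]⟩
      · have hlen : L0.length ≤ m := by
          simp only [List.concat_eq_append, List.length_append, List.length_cons,
            List.length_nil] at hL
          omega
        have hnL : nL D (L0.concat k) = nL D L0 * D.n k := by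
          simp [nL]
        have hsL : sL D (L0.concat k) = sL D L0 * D.s k := by
          simp [sL]
        have hrep : D.Rep g (sL D (L0.concat k)) := by
          have := rep_mul D (rep_h D τ) (nL_rep D (L0.concat k))
          rw [one_mul] at this
          rw [hg]; exact this
        have hw : w = sL D L0 * D.s k := by
          rw [← hsL]; exact rep_unique D h hrep
        have hs : D.s k (D.A k) = - D.A k := by
          rw [s_apply, D.A_diag]
          funext l
          simp only [Pi.sub_apply, Pi.smul_apply, smul_eq_mul, Pi.neg_apply]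
          ring
        have hn : D.Pos (-((sL D L0) (D.A k))) := by
          have h1 := hpos k
          rw [hw] at h1
          have h2 : (sL D L0 * D.s k) (D.A k) = -((sL D L0) (D.A k)) := by
            show (sL D L0) (D.s k (D.A k)) = _
            rw [hs, map_neg]
          rwa [h2] at h1
        obtain ⟨L', σ, hL', he⟩ := exchange D L0 k hn
        refine ih (τ * σ) L' (by omega) ?_
        rw [hg, hnL, he, map_mul, mul_assoc]
  obtain ⟨τ, L, h⟩ := NN_words D hg
  exact key L.length τ L le_rfl h

/-- TARGET.
See the hints above. -/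
theorem T_of_one {g : GLm p ι} (hg : g ∈ D.NN) (h : D.Rep g 1) : g ∈ D.T :=
  T_of_pos D hg h (fun k => pos_A D k)

/-- TARGET.
See the hints above. -/
theorem W_one_of_pos {w : (I → ℤ) ≃ₗ[ℤ] (I → ℤ)} (hw : w ∈ D.W)
    (hpos : ∀ k, D.Pos (w (D.A k))) : w = 1 := by
  obtain ⟨g, hg, hrep⟩ := W_rep D hw
  have hle : Subgroup.closure (Set.range D.n) ≤ D.NN :=
    Subgroup.closure_mono Set.subset_union_right
  obtain ⟨τ, rfl⟩ := T_of_pos D (hle hg) hrep hpos
  exact rep_unique D hrep (rep_h D τ)

end Pool.Agent.Chev
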