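import Mathlib
import Pool.Agent.Helper911_Chev.Defs3
import Pool.Agent.Helper911_Chev.CA1
import Pool.Agent.Helper911_Chev.CA2
import Pool.Agent.Helper911_Chev.CA3
import Pool.Agent.Helper911_Chev.CH0
import Pool.Agent.Helper911_Chev.CB4
import Pool.Agent.Helper911_Chev.CB2
import Pool.Agent.Helper911_Chev.CB3
import Pool.Agent.Helper911_Chev.CW1
import Pool.Agent.Helper911_Chev.CW2
import Pool.Agent.Helper911_Chev.CE1

set_option autoImplicit false
set_option linter.unusedSectionVars false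
set_option maxHeartbeats 1000000

noncomputable section

open Matrix Topology

namespace Pool.Agent.Chev

open ChevData

variable {p : ℕ} [Fact p.Prime] {I ι : Type} [Fintype I] [DecidableEq I] [Fintype ι]
  [DecidableEq ι] (D : ChevData p I ι)

/-! ======= TARGETS ======= -/

/-- TARGET.
Proof. Let `ρ k = 1` for all `k`, so `s k ρ = ρ - A k`. Choose `w ∈ W` (finite) with `ht (w ρ)` minimal. `ht (w (s k ρ)) ≥ ht (w ρ)` gives `ht (w (A k)) ≤ 0`, so `w (A k)` is not `Pos` and `weyl_sign` applies. -/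
theorem longest : ∃ w ∈ D.W, ∀ k, D.Pos (-(w (D.A k))) := by
  classical
  haveI : Finite D.W := W_finite D
  obtain ⟨⟨w, hw⟩, hmin⟩ := Finite.exists_min
    (fun w : D.W => ht D ((w : (I → ℤ) ≃ₗ[ℤ] (I → ℤ)) (fun _ => (1 : ℤ))))
  refine ⟨w, hw, fun k => ?_⟩
  have hs : D.s k ∈ D.W := Subgroup.subset_closure ⟨k, rfl⟩
  have h1 := hmin ⟨w * D.s k, D.W.mul_mem hw hs⟩
  simp only at h1
  have h2 : (w * D.s k) (fun _ => (1 : ℤ)) = w (fun _ => (1 : ℤ)) - w (D.A k) := by
    show w (D.s k (fun _ => (1 : ℤ))) = _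
    rw [D.s_apply]
    rw [← map_sub]
    congr 1
    simp
  rw [h2, ht_sub] at h1
  rcases weyl_sign D hw k with h | h
  · have := ht_pos D h
    omega
  · exact h

/-- TARGET.
See the hints above. -/
theorem x_mem_G (k : I) (t : ℚ_[p]) : D.x k t ∈ D.G :=
  Subgroup.subset_closure ⟨k, t, Or.inl rfl⟩

/-- TARGET.
See the hints above. -/
theorem y_mem_G (k : I) (t : ℚ_[p]) : D.y k t ∈ D.G :=
  Subgroup.subset_closure ⟨k, t, Or.inr rfl⟩

/-- TARGET.
See the hints above. -/
theorem n_mem_G (k : I) : D.n k ∈ D.G :=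
  D.G.mul_mem (D.G.mul_mem (x_mem_G D k 1) (y_mem_G D k (-1))) (x_mem_G D k 1)

/-- TARGET.
`hk k a = nt k a * (n k)⁻¹` (`nt_eq`), and `h τ` is the product of the `hk k (τ k)`. -/
theorem T_le_G : D.T ≤ D.G := by
  classical
  have hkG : ∀ (k : I) (a : ℚ_[p]ˣ), D.hk k a ∈ D.G := by
    intro k a
    have h1 : D.hk k a = D.nt k a * (D.n k)⁻¹ := by
      rw [nt_eq, mul_assoc, mul_inv_cancel, mul_one]
    rw [h1]
    exact D.G.mul_mem (D.G.mul_mem (D.G.mul_mem (x_mem_G D k _) (y_mem_G D k _)) (x_mem_G D k _))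
      (D.G.inv_mem (n_mem_G D k))
  rintro _ ⟨τ, rfl⟩
  have h2 : ∀ s : Finset I, D.h (fun k => if k ∈ s then τ k else 1) ∈ D.G := by
    intro s
    induction s using Finset.induction_on with
    | empty =>
      have : (fun k : I => if k ∈ (∅ : Finset I) then τ k else 1) = 1 := by
        funext k; simp
      rw [this, map_one]
      exact D.G.one_mem
    | insert a s ha ih =>
      have : (fun k : I => if k ∈ insert a s then τ k else 1)
          = (fun k => (τ a) ^ (Pi.single a (1 : ℤ) : I → ℤ) k) * (fun k => if k ∈ s then τ k else 1) := by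
        funext k
        by_cases hka : k = a
        · subst hka
          simp [ha]
        · simp [hka]
      rw [this, map_mul]
      exact D.G.mul_mem (hkG a (τ a)) ih
  have h3 := h2 Finset.univ
  simpa using h3

/-- TARGET.
See the hints above. -/
theorem NN_le_G : D.NN ≤ D.G := by
  refine (Subgroup.closure_le _).mpr ?_
  rintro g (hg | ⟨k, rfl⟩)
  · exact T_le_G D hg
  · exact n_mem_G D k

end Pool.Agent.Chev
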