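import Mathlib
import Pool.Agent.Helper911_Chev.Defs3
import Pool.Agent.Helper911_Chev.CA1
import Pool.Agent.Helper911_Chev.CA2
import Pool.Agent.Helper911_Chev.CA3
import Pool.Agent.Helper911_Chev.CH0
import Pool.Agent.Helper911_Chev.CB4
import Pool.Agent.Helper911_Chev.CB2
import Pool.Agent.Helper911_Chev.CB3
import Pool.Agent.Helper911_Chev.CW1
import Pool.Agent.Helper911_Chev.CW2
import Pool.Agent.Helper911_Chev.CE1
import Pool.Agent.Helper911_Chev.CE2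
import Pool.Agent.Helper911_Chev.CE3
import Pool.Agent.Helper911_Chev.CE4
import Pool.Agent.Helper911_Chev.CF1
import Pool.Agent.Helper911_Chev.CF2
import Pool.Agent.Helper911_Chev.CG1
import Pool.Agent.Helper911_Chev.CG2
import Pool.Agent.Helper911_Chev.CH3
import Pool.Agent.Helper911_Chev.CH8

set_option autoImplicit false
set_option linter.unusedSectionVars false
set_option maxHeartbeats 1000000

noncomputable section

open Matrix Topology

namespace Pool.Agent.Chev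

open ChevData

variable {p : ℕ} [Fact p.Prime] {I ι : Type} [Fintype I] [DecidableEq I] [Fintype ι]
  [DecidableEq ι] (D : ChevData p I ι)

/-! ======= TARGETS ======= -/

/-- TARGET.
Proof. `NN_induction`. For `g = h τ`: `h τ * s * (h τ)⁻¹ ∈ N ∩ Nb = 1`. Step (`g' = g * n k`, `Pos (w (A k))`): `s = s1 y_k(t)`, `s1 ∈ Nb ∩ UMk k` (`Nb_split`); `g' y_k(t) g'⁻¹ ∈ N` (`NN_conj`), so `g' s1 g'⁻¹ ∈ N`. `s2 = n_k s1 n_k⁻¹ ∈ Nb` (`Nbk_stable`) and `g s2 g⁻¹ = g' s1 g'⁻¹ ∈ N`, so `s2 ∈ G` by induction, and `n_k, y_k(t) ∈ G`. -/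
theorem S_in_G {g : GLm p ι} (hg : g ∈ D.NN) : ∀ s ∈ D.Nb, g * s * g⁻¹ ∈ D.N → s ∈ D.G := by
  refine NN_induction D (fun g => ∀ s ∈ D.Nb, g * s * g⁻¹ ∈ D.N → s ∈ D.G) ?_ ?_ g hg
  · intro τ s hs h1
    have h2 := N_inter_Nb D h1 (h_conj_Nb D τ hs)
    have h3 : s = 1 := by
      have h4 : s = (D.h τ)⁻¹ * (D.h τ * s * (D.h τ)⁻¹) * D.h τ := by group
      rw [h4, h2, mul_one, inv_mul_cancel]
    rw [h3]
    exact one_mem _
  · intro g hg w hw k hpos ih s hs h1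
    obtain ⟨t, ht⟩ := Nb_split D k hs
    have hn : D.n k ∈ D.Hk k := by
      have h2 := nt_mem_Hk D k 1
      rwa [nt_one] at h2
    have hy : D.n k * D.y k t * (D.n k)⁻¹ = D.x k (-((1 : ℚ_[p]ˣ) : ℚ_[p]) ^ 2 * t) := by
      have h2 := nt_conj_y D k 1 t
      rw [nt_one] at h2
      rw [h2]
    have hs1 : s * D.y k t ∈ D.Nb := mul_mem hs (y_mem_Nb D k t)
    have hs2 : D.n k * (s * D.y k t) * (D.n k)⁻¹ ∈ D.Nb := Nbk_stable D k hs1 ht hn
    have h3 : g * (D.n k * D.y k t * (D.n k)⁻¹) * g⁻¹ ∈ D.N := by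
      rw [hy]
      exact (NN_conj D hg hw k _).1 hpos
    have h4 : g * (D.n k * (s * D.y k t) * (D.n k)⁻¹) * g⁻¹ ∈ D.N := by
      have h5 : g * (D.n k * (s * D.y k t) * (D.n k)⁻¹) * g⁻¹ =
          (g * D.n k * s * (g * D.n k)⁻¹) * (g * (D.n k * D.y k t * (D.n k)⁻¹) * g⁻¹) := by
        group
      rw [h5]
      exact mul_mem h1 h3
    have h5 := ih _ hs2 h4
    have h6 : s = (D.n k)⁻¹ * (D.n k * (s * D.y k t) * (D.n k)⁻¹) * D.n k * (D.y k t)⁻¹ := by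
      group
    rw [h6]
    exact mul_mem (mul_mem (mul_mem (inv_mem (n_mem_G D k)) h5) (n_mem_G D k))
      (inv_mem (y_mem_G D k t))

end Pool.Agent.Chev
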