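import Mathlib
import Pool.Agent.Helper911_Chev.Defs3
import Pool.Agent.Helper911_Chev.CA1
import Pool.Agent.Helper911_Chev.CA2
import Pool.Agent.Helper911_Chev.CA3
import Pool.Agent.Helper911_Chev.CH0
import Pool.Agent.Helper911_Chev.CB4
import Pool.Agent.Helper911_Chev.CB2
import Pool.Agent.Helper911_Chev.CB3
import Pool.Agent.Helper911_Chev.CD1
import Pool.Agent.Helper911_Chev.CW1
import Pool.Agent.Helper911_Chev.CW2
import Pool.Agent.Helper911_Chev.CE1
import Pool.Agent.Helper911_Chev.CH6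
import Pool.Agent.Helper911_Chev.CH7
import Pool.Agent.Helper911_Chev.CH8

set_option autoImplicit false
set_option linter.unusedSectionVars false
set_option maxHeartbeats 1000000

noncomputable section

open Matrix Topology

namespace Pool.Agent.Chev

open ChevData

variable {p : ℕ} [Fact p.Prime] {I ι : Type} [Fintype I] [DecidableEq I] [Fintype ι]
  [DecidableEq ι] (D : ChevData p I ι)

/-! ======= TARGETS ======= -/

/-- TARGET.
Proof. `w` from `longest`, `g ∈ NN` with `Rep g w` (`W_rep`). Let `y = s q` by `Nb_decomp`. `s ∈ G` by `S_in_G`. `q = 1`: `q - 1` is supported in the `μ` with `Pos (-μ)`, and so is `g q g⁻¹ - 1`, hence `q - 1` is also supported in the `μ` with `Pos (-(w μ))`; but `Pos (-μ)` implies `Pos (w μ)` because `-μ = rt c`, `c ≥ 0`, `c ≠ 0` and `w μ = ∑ c_k (-(w (A k)))`. -/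
theorem Nb_le_G : D.Nb ≤ D.G := by
  intro y hy
  obtain ⟨w, hw, hwneg⟩ := longest D
  obtain ⟨g, hgc, hrep⟩ := W_rep D hw
  have hg : g ∈ D.NN := Subgroup.closure_mono Set.subset_union_right hgc
  obtain ⟨s, hs, hsN, q, hq, hqN, rfl⟩ := Nb_decomp D hg y hy
  have hsG : s ∈ D.G := S_in_G D hg s hs hsN
  suffices hq1 : q = 1 by
    rw [hq1, mul_one]; exact hsG
  have h1 : D.Supp {μ | -μ ∈ {μ | D.Pos μ}} ((q : Matrix ι ι ℚ_[p]) - 1) := (Nb_le_UM D hq).1
  have h2 : D.Supp {μ | -μ ∈ {μ | D.Pos μ}}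
      (((g * q * g⁻¹ : GLm p ι) : Matrix ι ι ℚ_[p]) - 1) := (Nb_le_UM D hqN).1
  have h3 : ((q : Matrix ι ι ℚ_[p]) - 1)
      = cj g⁻¹ (((g * q * g⁻¹ : GLm p ι) : Matrix ι ι ℚ_[p]) - 1) := by
    have e1 : (((g * q * g⁻¹ : GLm p ι) : Matrix ι ι ℚ_[p]) - 1)
        = cj g ((q : Matrix ι ι ℚ_[p]) - 1) := by
      unfold cj
      rw [Units.val_mul, Units.val_mul, mul_sub, sub_mul, mul_one, Units.mul_inv]
    rw [e1, ← cj_mul, inv_mul_cancel, cj_one]
  have h4 := supp_cj D (rep_inv D hrep) h2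
  rw [← h3] at h4
  apply Units.ext
  rw [Units.val_one, ← sub_eq_zero]
  ext i j
  rw [Matrix.zero_apply]
  by_contra hij
  obtain ⟨c, hc, -, hcμ⟩ := h1 i j hij
  obtain ⟨ν, hν, hνμ⟩ := h4 i j hij
  have h5 : 0 < ht D (-ν) := ht_pos D hν
  have h6 : ν = w (D.wt i - D.wt j) := by
    rw [← hνμ]
    exact (LinearEquiv.apply_symm_apply w ν).symm
  have h7 : -ν = w (D.rt c) := by
    rw [h6, ← map_neg, hcμ]
  let φ : (I → ℤ) →+ ℤ := AddMonoidHom.mk' (ht D) (ht_add D)
  have h8 : D.rt c = ∑ k, c k • D.A k := by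
    funext l
    simp [ChevData.rt, Matrix.vecMul, dotProduct, Finset.sum_apply]
  have h9 : φ (w (D.rt c)) = ∑ k, c k * φ (w (D.A k)) := by
    rw [h8, map_sum, map_sum]
    refine Finset.sum_congr rfl fun k _ => ?_
    rw [map_smul, map_zsmul, smul_eq_mul]
  have h10 : ∑ k, c k * φ (w (D.A k)) ≤ 0 := by
    refine Finset.sum_nonpos fun k _ => ?_
    have h11 : 0 < ht D (-(w (D.A k))) := ht_pos D (hwneg k)
    rw [ht_neg] at h11
    have h12 : φ (w (D.A k)) = ht D (w (D.A k)) := rfl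
    rw [h12]
    exact mul_nonpos_of_nonneg_of_nonpos (hc k) (by omega)
  have h13 : φ (w (D.rt c)) = ht D (w (D.rt c)) := rfl
  rw [h7] at h5
  omega

/-- TARGET.
`Nb_le_G` for `D.dual`. -/
theorem N_le_G : D.N ≤ D.G := by
  have h := Nb_le_G D.dual
  rw [dual_Nb, dual_G] at h
  exact h

/-- TARGET.
See the hints above. -/
theorem B_le_G : D.B ≤ D.G := by
  unfold ChevData.B
  exact sup_le (T_le_G D) (N_le_G D)

end Pool.Agent.Chev
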