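import Mathlib
import Pool.Agent.Helper911_Chev.Defs3
import Pool.Agent.Helper911_Chev.CA1
import Pool.Agent.Helper911_Chev.CA2
import Pool.Agent.Helper911_Chev.CA3
import Pool.Agent.Helper911_Chev.CH0
import Pool.Agent.Helper911_Chev.CB4
import Pool.Agent.Helper911_Chev.CB2
import Pool.Agent.Helper911_Chev.CB3
import Pool.Agent.Helper911_Chev.CW1
import Pool.Agent.Helper911_Chev.CW2
import Pool.Agent.Helper911_Chev.CE1
import Pool.Agent.Helper911_Chev.CE2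
import Pool.Agent.Helper911_Chev.CE3
import Pool.Agent.Helper911_Chev.CE4
import Pool.Agent.Helper911_Chev.CF1
import Pool.Agent.Helper911_Chev.CF2
import Pool.Agent.Helper911_Chev.CG1
import Pool.Agent.Helper911_Chev.CG2
import Pool.Agent.Helper911_Chev.CH3

set_option autoImplicit false
set_option linter.unusedSectionVars false
set_option maxHeartbeats 1000000

noncomputable section

open Matrix Topology

namespace Pool.Agent.Chev

open ChevData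

variable {p : ℕ} [Fact p.Prime] {I ι : Type} [Fintype I] [DecidableEq I] [Fintype ι]
  [DecidableEq ι] (D : ChevData p I ι)

/-! ======= auxiliary ======= -/

namespace CH6

theorem A_ne (k : I) : D.A k ≠ 0 := by
  intro h
  have h1 := congrFun h k
  rw [D.A_diag] at h1
  simp at h1

theorem F_ne (k : I) : D.F k ≠ 0 := E_ne D.dual k

theorem not_posOff (k : I) : ¬ D.PosOff k (D.A k) := by
  rintro ⟨c, -, ⟨l, hl, hcl⟩, h⟩
  have h1 : D.rt (Pi.single k 1 + -c) = 0 := by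
    rw [D.rt_add, D.rt_neg, D.rt_single, ← h, add_neg_cancel]
  have h2 := congrFun (D.rt_inj h1) l
  rw [Pi.add_apply, Pi.single_eq_of_ne hl, Pi.neg_apply, zero_add, Pi.zero_apply] at h2
  exact hcl (neg_eq_zero.1 h2)

theorem pow_supp (k : I) (t : ℚ_[p]) (m : ℕ) :
    D.Supp {μ | μ = -(m • D.A k)} ((t • D.F k) ^ m) := by
  induction m with
  | zero =>
    intro i j h
    rw [pow_zero, Matrix.one_apply] at h
    have hij : i = j := by by_contra hne; simp [hne] at h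
    rw [hij]; simp
  | succ m ih =>
    rw [pow_succ]
    have h1 : D.Supp {μ | μ = -(D.A k)} (t • D.F k) := by
      intro i j h
      rw [Matrix.smul_apply, smul_eq_mul] at h
      have := D.F_wt k i j (right_ne_zero_of_mul h)
      show D.wt i - D.wt j = -(D.A k)
      rw [this]; abel
    refine Supp.mul D ih h1 ?_
    rintro a rfl b rfl
    show -(m • D.A k) + -(D.A k) = -((m + 1) • D.A k)
    rw [add_smul, one_smul]; abel

theorem y_val (k : I) (t : ℚ_[p]) : ∃ M : ℕ, 2 ≤ M ∧ ((D.y k t : GLm p ι) : Matrix ι ι ℚ_[p])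
      = ∑ m ∈ Finset.range M, ((m.factorial : ℚ_[p])⁻¹) • (t • D.F k) ^ m := by
  obtain ⟨M, hM⟩ := tF_nil D k t
  refine ⟨M + 2, by omega, ?_⟩
  exact exU_sum (M := M + 2) (by rw [pow_add, hM, zero_mul])

theorem y_supp (k : I) (t : ℚ_[p]) :
    D.Supp {μ | ∃ m : ℕ, μ = -(m • D.A k)} ((D.y k t : GLm p ι) : Matrix ι ι ℚ_[p]) := by
  obtain ⟨M, -, hM⟩ := y_val D k t
  intro i j h
  rw [hM, Matrix.sum_apply] at h
  obtain ⟨m, -, hm⟩ := Finset.exists_ne_zero_of_sum_ne_zero h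
  rw [Matrix.smul_apply, smul_eq_mul] at hm
  exact ⟨m, pow_supp D k t m i j (right_ne_zero_of_mul hm)⟩

theorem y_entry (k : I) (t : ℚ_[p]) (i j : ι) (h : D.wt i = D.wt j - D.A k) :
    ((D.y k t : GLm p ι) : Matrix ι ι ℚ_[p]) i j = t * D.F k i j := by
  obtain ⟨M, hM2, hM⟩ := y_val D k t
  rw [hM, Matrix.sum_apply, Finset.sum_eq_single 1]
  · simp
  · intro m _ hm
    rw [Matrix.smul_apply, smul_eq_mul]
    by_contra hne
    have h1 := pow_supp D k t m i j (right_ne_zero_of_mul hne)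
    have h2 : D.wt i - D.wt j = -(m • D.A k) := h1
    rw [h] at h2
    have h3 : D.wt j k - D.A k k - D.wt j k = -(m • D.A k k) := congrFun h2 k
    rw [D.A_diag, nsmul_eq_mul] at h3
    omega
  · intro h1
    exact absurd (Finset.mem_range.2 (by omega)) h1

theorem mul_entry (k : I) (t : ℚ_[p]) {M : GLm p ι} (hM : M ∈ D.UMk k) (i j : ι)
    (h : D.wt i = D.wt j - D.A k) :
    ((M * D.y k t : GLm p ι) : Matrix ι ι ℚ_[p]) i j = t * D.F k i j := by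
  have e : ((M * D.y k t : GLm p ι) : Matrix ι ι ℚ_[p]) =
      ((M : Matrix ι ι ℚ_[p]) - 1) * (D.y k t : GLm p ι) + (D.y k t : GLm p ι) := by
    rw [Units.val_mul]; noncomm_ring
  have hs : D.Supp {μ | -μ ∈ {μ | D.PosOff k μ}}
      (((M : Matrix ι ι ℚ_[p]) - 1) * ((D.y k t : GLm p ι) : Matrix ι ι ℚ_[p])) := by
    refine Supp.mul D hM.1 (y_supp D k t) ?_
    rintro a ⟨c, hc, ⟨l, hl, hcl⟩, hac⟩ b ⟨m, rfl⟩
    refine ⟨c + m • Pi.single k 1, ?_, ⟨l, hl, ?_⟩, ?_⟩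
    · intro l' hl'
      have := hc l' hl'
      simpa [Pi.single_eq_of_ne hl'] using this
    · simpa [Pi.single_eq_of_ne hl] using hcl
    · have h1 : D.rt (m • Pi.single k 1) = m • D.A k := by
        induction m with
        | zero => simp [D.rt_zero]
        | succ m ih => rw [add_smul, one_smul, D.rt_add, ih, D.rt_single, add_smul, one_smul]
      rw [D.rt_add, h1, ← hac]; abel
  rw [e, Matrix.add_apply, y_entry D k t i j h]
  have h0 : (((M : Matrix ι ι ℚ_[p]) - 1) * ((D.y k t : GLm p ι) : Matrix ι ι ℚ_[p])) i j = 0 := by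
    by_contra hne
    have h1 := hs i j hne
    have h2 : D.PosOff k (-(D.wt i - D.wt j)) := h1
    rw [h] at h2
    apply not_posOff D k
    have h3 : -(D.wt j - D.A k - D.wt j) = D.A k := by abel
    rwa [h3] at h2
  rw [h0, zero_add]

theorem n_mem_Hk (k : I) : D.n k ∈ D.Hk k := by
  rw [← nt_one]; exact nt_mem_Hk D k 1

theorem n_rep (k : I) : D.Rep (D.n k) (D.s k) := by
  rw [← nt_one]; exact nt_rep D k 1

theorem pos_absurd {μ : I → ℤ} (h : D.Pos μ) (h' : D.Pos (-μ)) : False := by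
  have h1 := D.pos_conic.add μ h (-μ) h'
  rw [add_neg_cancel] at h1
  exact D.pos_conic.zero h1

/-- The first factor is in the radical. -/
theorem mem_UMk {g : GLm p ι} {w : (I → ℤ) ≃ₗ[ℤ] (I → ℤ)} (hw : D.Rep g w) {k : I}
    (hpos : D.Pos (w (D.A k))) {s : GLm p ι} (hs : s ∈ D.Nb) (hsN : g * s * g⁻¹ ∈ D.N) :
    s ∈ D.UMk k := by
  obtain ⟨t, ht⟩ := Nb_split D k hs
  by_cases ht0 : t = 0
  · rw [ht0, y_zero, mul_one] at ht
    exact ht
  exfalso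
  obtain ⟨i, j, hij⟩ : ∃ i j, D.F k i j ≠ 0 := by
    by_contra hall
    push Not at hall
    exact F_ne D k (by ext i j; simpa using hall i j)
  have hwt := D.F_wt k i j hij
  have e1 : s = (s * D.y k t) * D.y k (-t) := by
    rw [y_neg, mul_assoc, mul_inv_cancel, mul_one]
  have e2 : ((s : GLm p ι) : Matrix ι ι ℚ_[p]) i j = (-t) * D.F k i j := by
    rw [e1]
    exact mul_entry D k (-t) ht i j hwt
  have hijne : i ≠ j := by
    rintro rfl
    exact A_ne D k (sub_eq_self.1 hwt.symm)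
  have e3 : ((s : Matrix ι ι ℚ_[p]) - 1) i j ≠ 0 := by
    rw [Matrix.sub_apply, Matrix.one_apply_ne hijne, sub_zero, e2]
    exact mul_ne_zero (neg_ne_zero.2 ht0) hij
  have h1 : D.Supp {μ | D.Pos μ} (((g * s * g⁻¹ : GLm p ι) : Matrix ι ι ℚ_[p]) - 1) :=
    (N_le_UP D hsN).1
  have h2 := supp_cj D (rep_inv D hw) h1
  have e4 : cj g⁻¹ (((g * s * g⁻¹ : GLm p ι) : Matrix ι ι ℚ_[p]) - 1) =
      (s : Matrix ι ι ℚ_[p]) - 1 := by
    have hA : ((g⁻¹ : GLm p ι) : Matrix ι ι ℚ_[p]) * (g : Matrix ι ι ℚ_[p]) = 1 := by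
      rw [← Units.val_mul, inv_mul_cancel, Units.val_one]
    unfold cj
    rw [inv_inv, Units.val_mul, Units.val_mul]
    calc ((g⁻¹ : GLm p ι) : Matrix ι ι ℚ_[p]) *
          ((g : Matrix ι ι ℚ_[p]) * (s : Matrix ι ι ℚ_[p]) *
            ((g⁻¹ : GLm p ι) : Matrix ι ι ℚ_[p]) - 1) * (g : Matrix ι ι ℚ_[p])
        = (((g⁻¹ : GLm p ι) : Matrix ι ι ℚ_[p]) * (g : Matrix ι ι ℚ_[p])) *
            (s : Matrix ι ι ℚ_[p]) *
            (((g⁻¹ : GLm p ι) : Matrix ι ι ℚ_[p]) * (g : Matrix ι ι ℚ_[p])) -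
            ((g⁻¹ : GLm p ι) : Matrix ι ι ℚ_[p]) * (g : Matrix ι ι ℚ_[p]) := by noncomm_ring
      _ = _ := by rw [hA, one_mul, mul_one]
  rw [e4] at h2
  obtain ⟨μ, hμ, hμ'⟩ := h2 i j e3
  rw [hwt] at hμ'
  have h3 : D.wt j - D.A k - D.wt j = -D.A k := by abel
  rw [h3] at hμ'
  have h4 : μ = -(w (D.A k)) := by
    have h5 := congrArg w hμ'
    rw [map_neg] at h5
    rw [← h5]
    exact (LinearEquiv.apply_symm_apply w μ).symm
  rw [h4] at hμ
  exact pos_absurd D hpos hμ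

/-- (*) -/
theorem star {g : GLm p ι} {w : (I → ℤ) ≃ₗ[ℤ] (I → ℤ)} (hw : D.Rep g w) {k : I}
    (hpos : D.Pos (w (D.A k)))
    (hP : ∀ y ∈ D.Nb, ∃ s ∈ D.Nb, g * s * g⁻¹ ∈ D.N ∧
      ∃ q ∈ D.Nb, g * q * g⁻¹ ∈ D.Nb ∧ y = s * q) {z : GLm p ι} (hz : z ∈ D.Nb)
    (hzU : z ∈ D.UMk k) :
    ∃ s ∈ D.Nb, (g * D.n k) * s * (g * D.n k)⁻¹ ∈ D.N ∧
      ∃ q ∈ D.Nb, q ∈ D.UMk k ∧ (g * D.n k) * q * (g * D.n k)⁻¹ ∈ D.Nb ∧ z = s * q := by
  have hn := n_mem_Hk D k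
  have hn' : (D.n k)⁻¹ ∈ D.Hk k := inv_mem hn
  obtain ⟨s0, hs0, hs0N, q0, hq0, hq0N, hsq⟩ := hP _ (Nbk_stable D k hz hzU hn)
  have hs0U := mem_UMk D hw hpos hs0 hs0N
  have hzU' := Hk_norm_UMk D k hn hzU
  have hq0U : q0 ∈ D.UMk k := by
    have : q0 = s0⁻¹ * (D.n k * z * (D.n k)⁻¹) := by rw [hsq]; group
    rw [this]
    exact mul_mem (inv_mem hs0U) hzU'
  refine ⟨(D.n k)⁻¹ * s0 * D.n k, ?_, ?_, (D.n k)⁻¹ * q0 * D.n k, ?_, ?_, ?_, ?_⟩
  · have := Nbk_stable D k hs0 hs0U hn'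
    rwa [inv_inv] at this
  · have : (g * D.n k) * ((D.n k)⁻¹ * s0 * D.n k) * (g * D.n k)⁻¹ = g * s0 * g⁻¹ := by group
    rw [this]; exact hs0N
  · have := Nbk_stable D k hq0 hq0U hn'
    rwa [inv_inv] at this
  · have := Hk_norm_UMk D k hn' hq0U
    rwa [inv_inv] at this
  · have : (g * D.n k) * ((D.n k)⁻¹ * q0 * D.n k) * (g * D.n k)⁻¹ = g * q0 * g⁻¹ := by group
    rw [this]; exact hq0N
  · have : (D.n k)⁻¹ * s0 * D.n k * ((D.n k)⁻¹ * q0 * D.n k) = (D.n k)⁻¹ * (s0 * q0) * D.n k := by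
      group
    rw [this, ← hsq]; group

end CH6

/-! ======= TARGETS ======= -/

/-- TARGET.
Proof. `NN_induction`. For `g = h τ`: `s = 1`, `q = y`. Step: assume it for `g`, `Rep g w`, `Pos (w (A k))`; let `g' = g * n k`, `w' = w * s k`, so `w' (A k) = - w (A k)`.
(*) Every `z ∈ Nb ∩ UMk k` is `s * q` with `s, q ∈ Nb`, `g' s g'⁻¹ ∈ N`, `q ∈ UMk k`, `g' q g'⁻¹ ∈ Nb`: `z' = n_k z n_k⁻¹` is in `Nb ∩ UMk k` (`Nbk_stable`, `Hk_norm_UMk`, `nt_mem_Hk`), by induction `z' = s0 q0`. `s0 ∈ UMk k`: by `Nb_split` `s0 y_k(t) ∈ UMk k`; if `t ≠ 0` then (`F k ≠ 0`) `s0` has a nonzero entry at some `i, j` with `wt i - wt j = - A k` (look at the entries of weight `- A k` of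
`s0 = (s0 y_k(t)) y_k(-t)`), but `s0 - 1 = g⁻¹ (g s0 g⁻¹ - 1) g` is supported in `w⁻¹ (Pos)`, and `- A k ∈ w⁻¹ (Pos)` contradicts `Pos (w (A k))`. So `q0 ∈ UMk k` too. Take `s = n_k⁻¹ s0 n_k`, `q = n_k⁻¹ q0 n_k`.
For `y ∈ Nb` write `y = y1 y_k(t)`, `y1 ∈ Nb ∩ UMk k` (`Nb_split`), `y1 = s_a q_a` by (*), and `y_k(-t) q_a y_k(t) ∈ Nb ∩ UMk k` is `s_b q_b` by (*). So `y = (s_a y_k(t) s_b) q_b`, and `g' y_k(t) g'⁻¹ ∈ N` by `NN_conj` (`Pos (-(w' (A k)))`). -/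
theorem Nb_decomp {g : GLm p ι} (hg : g ∈ D.NN) : ∀ y ∈ D.Nb, ∃ s ∈ D.Nb, g * s * g⁻¹ ∈ D.N ∧
    ∃ q ∈ D.Nb, g * q * g⁻¹ ∈ D.Nb ∧ y = s * q := by
  refine NN_induction D (fun g => ∀ y ∈ D.Nb, ∃ s ∈ D.Nb, g * s * g⁻¹ ∈ D.N ∧
    ∃ q ∈ D.Nb, g * q * g⁻¹ ∈ D.Nb ∧ y = s * q) ?_ ?_ g hg
  · intro τ y hy
    refine ⟨1, one_mem _, ?_, y, hy, h_conj_Nb D τ hy, (one_mul y).symm⟩
    rw [mul_one, mul_inv_cancel]
    exact one_mem _
  · intro g hg w hw k hpos hP y hy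
    have hw' := rep_mul D hw (CH6.n_rep D k)
    have hg' : g * D.n k ∈ D.NN := mul_mem hg (n_mem_NN D k)
    have hneg : D.Pos (-((w * D.s k) (D.A k))) := by
      have h1 : (w * D.s k) (D.A k) = -(w (D.A k)) := by
        show w (D.s k (D.A k)) = -(w (D.A k))
        rw [D.s_apply, D.A_diag, ← map_neg]
        congr 1
        rw [two_smul]; abel
      rw [h1, neg_neg]
      exact hpos
    obtain ⟨t, ht⟩ := Nb_split D k hy
    have hyk : ∀ t, D.y k t ∈ D.Nb := fun t => y_mem_Nb D k t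
    obtain ⟨sa, hsa, hsaN, qa, hqa, hqaU, hqaN, hya⟩ :=
      CH6.star D hw hpos hP (mul_mem hy (hyk t)) ht
    obtain ⟨sb, hsb, hsbN, qb, hqb, -, hqbN, hyb⟩ :=
      CH6.star D hw hpos hP (Nbk_stable D k hqa hqaU (y_mem_Hk D k t))
        (Hk_norm_UMk D k (y_mem_Hk D k t) hqaU)
    have hyN := (NN_conj D hg' hw' k (-t)).2.2.2 hneg
    refine ⟨sa * D.y k (-t) * sb, mul_mem (mul_mem hsa (hyk _)) hsb, ?_, qb, hqb, hqbN, ?_⟩
    · have e : (g * D.n k) * (sa * D.y k (-t) * sb) * (g * D.n k)⁻¹ =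
          ((g * D.n k) * sa * (g * D.n k)⁻¹) * ((g * D.n k) * D.y k (-t) * (g * D.n k)⁻¹) *
            ((g * D.n k) * sb * (g * D.n k)⁻¹) := by group
      rw [e]
      exact mul_mem (mul_mem hsaN hyN) hsbN
    · have e1 : y = sa * qa * D.y k (-t) := by
        rw [← hya, y_neg, mul_assoc, mul_inv_cancel, mul_one]
      have e2 : sa * D.y k (-t) * sb * qb = sa * D.y k (-t) * (sb * qb) := by group
      rw [e2, ← hyb, e1, y_neg]
      group

end Pool.Agent.Chev
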