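import Mathlib
import Pool.Agent.Helper911_Chev.Defs3
import Pool.Agent.Helper911_Chev.CA1
import Pool.Agent.Helper911_Chev.CA2
import Pool.Agent.Helper911_Chev.CA3
import Pool.Agent.Helper911_Chev.CB4
import Pool.Agent.Helper911_Chev.CW1
import Pool.Agent.Helper911_Chev.CW2
import Pool.Agent.Helper911_Chev.CE1
import Pool.Agent.Helper911_Chev.CH3
import Pool.Agent.Helper911_Chev.CH6

set_option autoImplicit false
set_option linter.unusedSectionVars false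
set_option maxHeartbeats 1000000

noncomputable section

open Matrix Topology

namespace Pool.Agent.Chev

open ChevData

variable {p : ℕ} [Fact p.Prime] {I ι : Type} [Fintype I] [DecidableEq I] [Fintype ι]
  [DecidableEq ι] (D : ChevData p I ι)

/-! ======= TARGETS ======= -/

/-- TARGET.
`e⁻¹ g e ∈ N ∩ Nb` (`N_inter_Nb`). -/
theorem Pm_Qm {e g : GLm p ι} (h1 : g ∈ Pm D e) (h2 : g ∈ Qm D e) : g = 1 := by
  have h3 : e⁻¹ * g * e ∈ D.N := h1.2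
  have h4 : e⁻¹ * g * e ∈ D.Nb := h2.2
  have h5 : e⁻¹ * g * e = 1 := N_inter_Nb D h3 h4
  have h6 : g = e * (e⁻¹ * g * e) * e⁻¹ := by group
  rw [h6, h5]
  group

/-- TARGET.
See the hints above. -/
theorem Pm_closed (e : GLm p ι) : IsClosed (Pm D e : Set (GLm p ι)) := by
  have h1 : Continuous fun g : GLm p ι => e⁻¹ * g * e :=
    (continuous_const.mul continuous_id).mul continuous_const
  exact (Nb_closed D).inter ((N_closed D).preimage h1)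

/-- TARGET.
See the hints above. -/
theorem Qm_closed (e : GLm p ι) : IsClosed (Qm D e : Set (GLm p ι)) := by
  have h1 : Continuous fun g : GLm p ι => e⁻¹ * g * e :=
    (continuous_const.mul continuous_id).mul continuous_const
  exact (Nb_closed D).inter ((Nb_closed D).preimage h1)

/-- TARGET.
`Nb_decomp` for `e⁻¹`. -/
theorem PQ_decomp {e : GLm p ι} (he : e ∈ D.NN) : ∀ y ∈ D.Nb, ∃ a ∈ Pm D e, ∃ q ∈ Qm D e,
    y = a * q := by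
  intro y hy
  obtain ⟨s, hs, hs', q, hq, hq', hyq⟩ := Nb_decomp D (inv_mem he) y hy
  rw [inv_inv] at hs' hq'
  exact ⟨s, ⟨hs, hs'⟩, q, ⟨hq, hq'⟩, hyq⟩

/-- `e⁻¹ h(τ) e` is again an element of the torus. -/
theorem pq_torus {e : GLm p ι} (he : e ∈ D.NN) (τ : I → ℚ_[p]ˣ) :
    ∃ σ : I → ℚ_[p]ˣ, D.h σ = e⁻¹ * D.h τ * e := by
  have h1 : e⁻¹ * D.h τ * e⁻¹⁻¹ ∈ D.T := NN_norm_T D (inv_mem he) ⟨τ, rfl⟩
  rw [inv_inv] at h1
  exact h1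

theorem pq_cs {e : GLm p ι} (he : e ∈ D.NN) (τ : I → ℚ_[p]ˣ) (H : Subgroup (GLm p ι))
    (hH : ∀ (σ : I → ℚ_[p]ˣ), ∀ g ∈ H, D.h σ * g * (D.h σ)⁻¹ ∈ H) {g : GLm p ι}
    (hg : g ∈ cs e H) : D.h τ * g * (D.h τ)⁻¹ ∈ cs e H := by
  obtain ⟨σ, hσ⟩ := pq_torus D he τ
  have h1 : e⁻¹ * g * e ∈ H := hg
  have h2 := hH σ _ h1
  show e⁻¹ * (D.h τ * g * (D.h τ)⁻¹) * e ∈ H
  have h3 : e⁻¹ * (D.h τ * g * (D.h τ)⁻¹) * e = D.h σ * (e⁻¹ * g * e) * (D.h σ)⁻¹ := by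
    rw [hσ]; group
  rw [h3]; exact h2

/-- TARGET.
`e⁻¹ h(τ) e ∈ T` (`NN_norm_T`), `h_conj_N`, `h_conj_Nb`. -/
theorem Pm_conj {e : GLm p ι} (he : e ∈ D.NN) (τ : I → ℚ_[p]ˣ) {g : GLm p ι} (hg : g ∈ Pm D e) :
    D.h τ * g * (D.h τ)⁻¹ ∈ Pm D e :=
  ⟨h_conj_Nb D τ hg.1, pq_cs D he τ D.N (fun σ _ h => h_conj_N D σ h) hg.2⟩

/-- TARGET.
See the hints above. -/
theorem Qm_conj {e : GLm p ι} (he : e ∈ D.NN) (τ : I → ℚ_[p]ˣ) {g : GLm p ι} (hg : g ∈ Qm D e) :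
    D.h τ * g * (D.h τ)⁻¹ ∈ Qm D e :=
  ⟨h_conj_Nb D τ hg.1, pq_cs D he τ D.Nb (fun σ _ h => h_conj_Nb D σ h) hg.2⟩

/-- TARGET.
See the hints above. -/
theorem Sp_conj {e : GLm p ι} (he : e ∈ D.NN) (τ : I → ℚ_[p]ˣ) {g : GLm p ι} (hg : g ∈ Sp D e) :
    D.h τ * g * (D.h τ)⁻¹ ∈ Sp D e :=
  ⟨h_conj_N D τ hg.1, pq_cs D he τ D.Nb (fun σ _ h => h_conj_Nb D σ h) hg.2⟩

end Pool.Agent.Chev
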