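import Mathlib
import Pool.Agent.Helper911_Chev.Defs3
import Pool.Agent.Helper911_Chev.CH0

set_option autoImplicit false
set_option linter.unusedSectionVars false
set_option maxHeartbeats 1000000

noncomputable section

open Matrix Topology

namespace Pool.Agent.Chev

open ChevData

variable {p : ℕ} [Fact p.Prime] {I ι : Type} [Fintype I] [DecidableEq I] [Fintype ι]
  [DecidableEq ι] (D : ChevData p I ι)

/-! ======= TARGETS ======= -/

namespace CH1

theorem mul_norm_le {X Y : Matrix ι ι ℚ_[p]} {a b : ℝ} (ha : 0 ≤ a) (hb : 0 ≤ b)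
    (hX : ∀ i j, ‖X i j‖ ≤ a) (hY : ∀ i j, ‖Y i j‖ ≤ b) (i j : ι) : ‖(X * Y) i j‖ ≤ a * b := by
  rw [Matrix.mul_apply]
  refine IsUltrametricDist.norm_sum_le_of_forall_le_of_nonneg (mul_nonneg ha hb) fun k _ => ?_
  rw [norm_mul]
  exact mul_le_mul (hX i k) (hY k j) (norm_nonneg _) ha

theorem one_norm_le (i j : ι) : ‖(1 : Matrix ι ι ℚ_[p]) i j‖ ≤ 1 := by
  rw [Matrix.one_apply]
  split_ifs <;> simp

theorem norm_le_one {m : ℕ} {X : Matrix ι ι ℚ_[p]}
    (h : ∀ i j, ‖(X - 1) i j‖ ≤ (p : ℝ) ^ (-(m : ℤ))) (i j : ι) : ‖X i j‖ ≤ 1 := by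
  have h1 : X i j = (X - 1) i j + (1 : Matrix ι ι ℚ_[p]) i j := by
    rw [Matrix.sub_apply, sub_add_cancel]
  rw [h1]
  exact (IsUltrametricDist.norm_add_le_max _ _).trans
    (max_le ((h i j).trans (pw_le_one p m)) (one_norm_le i j))

/-- small matrices -/
def Bm (p : ℕ) [Fact p.Prime] (ι : Type) [Fintype ι] [DecidableEq ι] (m : ℕ) :
    Set (Matrix ι ι ℚ_[p]) := {X | ∀ i j, ‖(X - 1) i j‖ ≤ (p : ℝ) ^ (-(m : ℤ))}

theorem Bm_eq (m : ℕ) : Bm p ι m = Set.univ.pi fun i => Set.univ.pi fun j =>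
    Metric.closedBall ((1 : Matrix ι ι ℚ_[p]) i j) ((p : ℝ) ^ (-(m : ℤ))) := by
  ext X
  constructor
  · intro h i _ j _
    exact mem_closedBall_iff_norm.2 (h i j)
  · intro h i j
    exact mem_closedBall_iff_norm.1 (h i trivial j trivial)

theorem Bm_compact (m : ℕ) : IsCompact (Bm p ι m) := by
  rw [Bm_eq]
  exact isCompact_univ_pi fun i => isCompact_univ_pi fun j => isCompact_closedBall _ _

theorem Bm_open (m : ℕ) : IsOpen (Bm p ι m) := by
  rw [Bm_eq]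
  exact isOpen_set_pi Set.finite_univ fun i _ => isOpen_set_pi Set.finite_univ fun j _ =>
    IsUltrametricDist.isOpen_closedBall _ (pw_pos p _).ne'

theorem Cg_eq (m : ℕ) : (Cg p ι m : Set (GLm p ι)) =
    Units.embedProduct (Matrix ι ι ℚ_[p]) ⁻¹' (Bm p ι m ×ˢ (MulOpposite.unop ⁻¹' Bm p ι m)) := by
  ext g
  rfl

theorem closed_range : IsClosed (Set.range (Units.embedProduct (Matrix ι ι ℚ_[p]))) := by
  have h : Set.range (Units.embedProduct (Matrix ι ι ℚ_[p])) =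
      {q | q.1 * MulOpposite.unop q.2 = 1} ∩ {q | MulOpposite.unop q.2 * q.1 = 1} := by
    ext q
    constructor
    · rintro ⟨g, rfl⟩
      exact ⟨g.mul_inv, g.inv_mul⟩
    · rintro ⟨h1, h2⟩
      exact ⟨⟨q.1, MulOpposite.unop q.2, h1, h2⟩, rfl⟩
  rw [h]
  have c1 : Continuous fun q : Matrix ι ι ℚ_[p] × (Matrix ι ι ℚ_[p])ᵐᵒᵖ => q.1 := continuous_fst
  have c2 : Continuous fun q : Matrix ι ι ℚ_[p] × (Matrix ι ι ℚ_[p])ᵐᵒᵖ =>
    MulOpposite.unop q.2 := MulOpposite.continuous_unop.comp continuous_snd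
  exact (isClosed_eq (c1.mul c2) continuous_const).inter (isClosed_eq (c2.mul c1) continuous_const)

end CH1

open CH1

/-- TARGET.
See the hints above. -/
theorem Cg_open (m : ℕ) : IsOpen (Cg p ι m : Set (GLm p ι)) := by
  rw [Cg_eq]
  exact ((Bm_open m).prod ((Bm_open m).preimage MulOpposite.continuous_unop)).preimage
    Units.continuous_embedProduct

/-- TARGET.
Proof. The units `(Matrix ι ι ℚ_[p])ˣ` embed as a closed subset of pairs of matrices (`Units.embedProduct`), and the entries of `g`, `g⁻¹` are bounded. -/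
theorem Cg_compact (m : ℕ) : IsCompact (Cg p ι m : Set (GLm p ι)) := by
  rw [Cg_eq]
  have h1 : IsCompact (MulOpposite.unop ⁻¹' Bm p ι m : Set (Matrix ι ι ℚ_[p])ᵐᵒᵖ) := by
    have h2 := (Bm_compact (p := p) (ι := ι) m).image MulOpposite.continuous_op
    convert h2 using 1
    ext q
    constructor
    · intro hq
      exact ⟨_, hq, rfl⟩
    · rintro ⟨X, hX, rfl⟩
      exact hX
  have hcl : Topology.IsClosedEmbedding (Units.embedProduct (Matrix ι ι ℚ_[p])) :=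
    ⟨Units.isEmbedding_embedProduct, closed_range⟩
  exact hcl.isCompact_preimage ((Bm_compact m).prod h1)

/-- TARGET.
See the hints above. -/
theorem Cg_mono {m m' : ℕ} (h : m ≤ m') : Cg p ι m' ≤ Cg p ι m := by
  have h1 : (p : ℝ) ^ (-(m' : ℤ)) ≤ (p : ℝ) ^ (-(m : ℤ)) := by
    have hp : (1 : ℝ) ≤ p := by exact_mod_cast (Fact.out : p.Prime).one_lt.le
    exact zpow_le_zpow_right₀ hp (by omega)
  rintro g ⟨h2, h3⟩
  exact ⟨fun i j => (h2 i j).trans h1, fun i j => (h3 i j).trans h1⟩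

/-- TARGET.
See the hints above. -/
theorem Cg_small : ∀ U ∈ 𝓝 (1 : GLm p ι), ∃ m : ℕ, 1 ≤ m ∧ (Cg p ι m : Set (GLm p ι)) ⊆ U := by
  intro U hU
  obtain ⟨n, hn⟩ := exists_subset_nhds_of_isCompact (V := fun m : ℕ =>
    (Cg p ι (m + 1) : Set (GLm p ι))) (U := U)
    (directed_of_isDirected_le fun m m' h => Cg_mono (Nat.add_le_add_right h 1))
    (fun m => Cg_compact (m + 1)) (by
      intro g hg
      have h1 : g = 1 := by
        apply Units.ext
        ext i j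
        have h2 : ∀ m : ℕ, ‖((g : Matrix ι ι ℚ_[p]) - 1) i j‖ ≤ (p : ℝ) ^ (-((m + 1 : ℕ) : ℤ)) := by
          intro m
          exact (Set.mem_iInter.1 hg m).1 i j
        have h3 : ‖((g : Matrix ι ι ℚ_[p]) - 1) i j‖ ≤ 0 := by
          have hp : (1 : ℝ) < p := by exact_mod_cast (Fact.out : p.Prime).one_lt
          have h4 : Filter.Tendsto (fun m : ℕ => ((p : ℝ)⁻¹) ^ (m + 1)) Filter.atTop (𝓝 0) :=
            (tendsto_pow_atTop_nhds_zero_of_lt_one (by positivity)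
              (inv_lt_one_of_one_lt₀ hp)).comp (Filter.tendsto_add_atTop_nat 1)
          refine ge_of_tendsto' h4 fun m => ?_
          have h5 := h2 m
          rwa [_root_.zpow_neg, zpow_natCast, ← inv_pow] at h5
        have h6 := norm_le_zero_iff.1 h3
        rw [Matrix.sub_apply, sub_eq_zero] at h6
        rw [h6]
        rfl
      rw [h1]
      exact hU)
  exact ⟨n + 1, by omega, hn⟩

/-- TARGET.
See the hints above. -/
theorem Cg_conj {m : ℕ} {g x : GLm p ι} (hg : g ∈ Cg p ι 0) (hx : x ∈ Cg p ι m) :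
    g * x * g⁻¹ ∈ Cg p ι m := by
  have key : ∀ y : GLm p ι, (∀ i j, ‖((y : Matrix ι ι ℚ_[p]) - 1) i j‖ ≤ (p : ℝ) ^ (-(m : ℤ))) →
      ∀ i j, ‖(((g * y * g⁻¹ : GLm p ι) : Matrix ι ι ℚ_[p]) - 1) i j‖ ≤ (p : ℝ) ^ (-(m : ℤ)) := by
    intro y hy i j
    have h1 : ((g * y * g⁻¹ : GLm p ι) : Matrix ι ι ℚ_[p]) - 1 =
        (g : Matrix ι ι ℚ_[p]) * ((y : Matrix ι ι ℚ_[p]) - 1) * ((g⁻¹ : GLm p ι) : Matrix ι ι ℚ_[p]) := by
      rw [mul_sub, sub_mul, mul_one, Units.mul_inv, Units.val_mul, Units.val_mul]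
    rw [h1]
    have h2 := mul_norm_le (mul_nonneg zero_le_one (pw_pos p (-(m : ℤ))).le) zero_le_one
      (mul_norm_le zero_le_one (pw_pos p (-(m : ℤ))).le (norm_le_one hg.1) hy)
      (norm_le_one hg.2) i j
    simpa using h2
  refine ⟨key x hx.1, ?_⟩
  have h3 : (g * x * g⁻¹)⁻¹ = g * x⁻¹ * g⁻¹ := by group
  rw [h3]
  exact key x⁻¹ hx.2

/-- TARGET.
Proof. The determinant of `g` is `≡ 1` so has norm one, and the inverse is the adjugate divided by the determinant, so it is integral; `g⁻¹ - 1 = -(g⁻¹ (g - 1))`. -/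
theorem Cg_of_val {m : ℕ} (hm : 1 ≤ m) {g : GLm p ι}
    (h : ∀ i j, ‖((g : Matrix ι ι ℚ_[p]) - 1) i j‖ ≤ (p : ℝ) ^ (-(m : ℤ))) : g ∈ Cg p ι m := by
  have hp : (1 : ℝ) < p := by exact_mod_cast (Fact.out : p.Prime).one_lt
  have hlt : (p : ℝ) ^ (-(m : ℤ)) < 1 := zpow_lt_one_of_neg₀ hp (by omega)
  set Y : Matrix ι ι ℚ_[p] := ((g⁻¹ : GLm p ι) : Matrix ι ι ℚ_[p]) with hY
  have e1 : Y - 1 = -(((g : Matrix ι ι ℚ_[p]) - 1) * Y) := by
    rw [sub_mul, hY, Units.mul_inv, one_mul]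
    abel
  have e2 : ∀ i j, ‖Y i j‖ ≤ 1 := by
    intro i j
    have : Nonempty (ι × ι) := ⟨(i, j)⟩
    obtain ⟨q, hq⟩ := Finite.exists_max (fun q : ι × ι => ‖Y q.1 q.2‖)
    refine (hq (i, j)).trans ?_
    by_contra hlt1
    push Not at hlt1
    have h1 : ‖Y q.1 q.2‖ ≤ max 1 ((p : ℝ) ^ (-(m : ℤ)) * ‖Y q.1 q.2‖) := by
      have h2 : Y q.1 q.2 = (1 : Matrix ι ι ℚ_[p]) q.1 q.2 -
          (((g : Matrix ι ι ℚ_[p]) - 1) * Y) q.1 q.2 := by
        rw [sub_mul, hY, Units.mul_inv, one_mul, Matrix.sub_apply]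
        ring
      have h3 : ‖Y q.1 q.2‖ ≤ max ‖(1 : Matrix ι ι ℚ_[p]) q.1 q.2‖
          ‖(((g : Matrix ι ι ℚ_[p]) - 1) * Y) q.1 q.2‖ := by
        conv_lhs => rw [h2]
        rw [sub_eq_add_neg]
        exact (IsUltrametricDist.norm_add_le_max _ _).trans (by rw [norm_neg])
      refine h3.trans (max_le_max (one_norm_le _ _) ?_)
      exact mul_norm_le (pw_pos p _).le (norm_nonneg _) h (fun i' j' => hq (i', j')) _ _
    rcases le_max_iff.1 h1 with h2 | h2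
    · exact absurd h2 (not_le.2 hlt1)
    · have h3 : (p : ℝ) ^ (-(m : ℤ)) * ‖Y q.1 q.2‖ < 1 * ‖Y q.1 q.2‖ :=
        mul_lt_mul_of_pos_right hlt (by linarith)
      linarith
  refine ⟨h, fun i j => ?_⟩
  rw [← hY, e1, Matrix.neg_apply, norm_neg]
  have h1 := mul_norm_le (pw_pos p (-(m : ℤ))).le zero_le_one h e2 i j
  rwa [mul_one] at h1

end Pool.Agent.Chev
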