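import Mathlib
import Pool.Agent.Helper911_Chev.Defs3
import Pool.Agent.Helper911_Chev.CA1
import Pool.Agent.Helper911_Chev.CA2
import Pool.Agent.Helper911_Chev.CA3
import Pool.Agent.Helper911_Chev.CB4
import Pool.Agent.Helper911_Chev.CB2
import Pool.Agent.Helper911_Chev.CB3
import Pool.Agent.Helper911_Chev.CW1
import Pool.Agent.Helper911_Chev.CW2
import Pool.Agent.Helper911_Chev.CE1
import Pool.Agent.Helper911_Chev.CE2
import Pool.Agent.Helper911_Chev.CE3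
import Pool.Agent.Helper911_Chev.CE4
import Pool.Agent.Helper911_Chev.CF1
import Pool.Agent.Helper911_Chev.CF2
import Pool.Agent.Helper911_Chev.CH3

set_option autoImplicit false
set_option linter.unusedSectionVars false
set_option maxHeartbeats 1000000

noncomputable section

open Matrix Topology

namespace Pool.Agent.Chev

open ChevData

variable {p : ℕ} [Fact p.Prime] {I ι : Type} [Fintype I] [DecidableEq I] [Fintype ι]
  [DecidableEq ι] (D : ChevData p I ι)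

/-! ======= TARGETS ======= -/

/-- TARGET.
Proof. The set of these elements contains `1` and is stable under right multiplication by `y k t` (clear) and by `x k t`: let `g = b m y`, `Rep m w`. `y = y1 y_k(u)` with `y1 ∈ Nb ∩ UMk k` (`Nb_split`), so `g x_k(t) = b m h y1'` with `h = y_k(u) x_k(t) ∈ Hk k`, `y1' = h⁻¹ y1 h ∈ Nb` (`Nbk_stable`). If `Pos (w (A k))`: by `Hk_cells` `h = x_k(a) hk(c) y_k(b')` or `h = x_k(a) hk(c) n_k`, and
`m x_k(a) m⁻¹ ∈ N` (`NN_conj`), `m hk(c) m⁻¹ ∈ T` (`NN_norm_T`), so `g x_k(t) ∈ B m Nb` or `B (m n_k) Nb`. If `Pos (-(w (A k)))`: for `t = 0` clear; for `t ≠ 0` `h = y_k(u + t⁻¹) nt(t) y_k(t⁻¹)` (`x_eq`) and `m y_k(..) m⁻¹ ∈ N` (`NN_conj`), so `g x_k(t) ∈ B (m nt(t)) Nb`, `nt(t) ∈ NN`. Then `Subgroup.closure_induction_right` (inverses of generators are generators). -/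
theorem G_cells {g : GLm p ι} (hg : g ∈ D.G) : ∃ b ∈ D.B, ∃ m ∈ D.NN, ∃ y ∈ D.Nb, g = b * m * y := by
  have hT : ∀ {a : GLm p ι}, a ∈ D.T → a ∈ D.B := fun h => (le_sup_left : D.T ≤ D.T ⊔ D.N) h
  have hN : ∀ {a : GLm p ι}, a ∈ D.N → a ∈ D.B := fun h => (le_sup_right : D.N ≤ D.T ⊔ D.N) h
  have hyst : ∀ (g : GLm p ι) (k : I) (t : ℚ_[p]),
      (∃ b ∈ D.B, ∃ m ∈ D.NN, ∃ y ∈ D.Nb, g = b * m * y) →
      ∃ b ∈ D.B, ∃ m ∈ D.NN, ∃ y ∈ D.Nb, g * D.y k t = b * m * y := by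
    rintro g k t ⟨b, hb, m, hm, y, hy, rfl⟩
    exact ⟨b, hb, m, hm, y * D.y k t, D.Nb.mul_mem hy (y_mem_Nb D k t), by group⟩
  have hxst : ∀ (g : GLm p ι) (k : I) (t : ℚ_[p]),
      (∃ b ∈ D.B, ∃ m ∈ D.NN, ∃ y ∈ D.Nb, g = b * m * y) →
      ∃ b ∈ D.B, ∃ m ∈ D.NN, ∃ y ∈ D.Nb, g * D.x k t = b * m * y := by
    rintro g k t ⟨b, hb, m, hm, y, hy, rfl⟩
    obtain ⟨u, hu⟩ := Nb_split D k hy
    obtain ⟨w, hw, hrep⟩ := NN_rep D hm
    have hy1 : y * D.y k u ∈ D.Nb := D.Nb.mul_mem hy (y_mem_Nb D k u)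
    have hh : D.y k (-u) * D.x k t ∈ D.Hk k :=
      (D.Hk k).mul_mem (y_mem_Hk D k _) (x_mem_Hk D k _)
    have hy2 : (D.y k (-u) * D.x k t)⁻¹ * (y * D.y k u) * (D.y k (-u) * D.x k t) ∈ D.Nb := by
      have := Nbk_stable D k hy1 hu ((D.Hk k).inv_mem hh)
      rwa [inv_inv] at this
    have hyx : y * D.x k t = (D.y k (-u) * D.x k t) *
        ((D.y k (-u) * D.x k t)⁻¹ * (y * D.y k u) * (D.y k (-u) * D.x k t)) := by
      rw [y_neg]; group
    have hcong := NN_conj D hm hrep k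
    rcases weyl_sign D hw k with hpos | hneg
    · have hx : ∀ a, m * D.x k a * m⁻¹ ∈ D.N := fun a => (hcong a).1 hpos
      have hkT : ∀ c, D.hk k c ∈ D.T := fun c => ⟨_, rfl⟩
      rcases Hk_cells D k hh with ⟨a, b', c, he⟩ | ⟨a, c, he⟩
      · rw [he] at hyx hy2
        refine ⟨b * (m * D.x k a * m⁻¹) * (m * D.hk k c * m⁻¹), ?_, m, hm, D.y k b' *
          ((D.x k a * D.hk k c * D.y k b')⁻¹ * (y * D.y k u) * (D.x k a * D.hk k c * D.y k b')), ?_, ?_⟩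
        · exact D.B.mul_mem (D.B.mul_mem hb (hN (hx a))) (hT (NN_norm_T D hm (hkT c)))
        · exact D.Nb.mul_mem (y_mem_Nb D k b') hy2
        · rw [mul_assoc (b * m) y, hyx]; group
      · rw [he] at hyx hy2
        refine ⟨b * (m * D.x k a * m⁻¹) * (m * D.hk k c * m⁻¹), ?_, m * D.n k, ?_,
          ((D.x k a * D.hk k c * D.n k)⁻¹ * (y * D.y k u) * (D.x k a * D.hk k c * D.n k)), hy2, ?_⟩
        · exact D.B.mul_mem (D.B.mul_mem hb (hN (hx a))) (hT (NN_norm_T D hm (hkT c)))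
        · exact D.NN.mul_mem hm (n_mem_NN D k)
        · rw [mul_assoc (b * m) y, hyx]; group
    · by_cases ht : t = 0
      · subst ht
        rw [x_zero, mul_one]
        exact ⟨b, hb, m, hm, y, hy, rfl⟩
      · obtain ⟨t, rfl⟩ : ∃ t' : ℚ_[p]ˣ, t = (t' : ℚ_[p]) := ⟨Units.mk0 t ht, rfl⟩
        have hyy : ∀ a, m * D.y k a * m⁻¹ ∈ D.N := fun a => (hcong a).2.2.2 hneg
        have he : D.y k (-u) * D.x k (t : ℚ_[p]) =
            D.y k (-u + ((t⁻¹ : ℚ_[p]ˣ) : ℚ_[p])) * D.nt k t * D.y k (((t⁻¹ : ℚ_[p]ˣ) : ℚ_[p])) := by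
          rw [x_eq, y_add]; group
        rw [he] at hyx hy2
        generalize (D.y k (-u + ((t⁻¹ : ℚ_[p]ˣ) : ℚ_[p])) * D.nt k t *
          D.y k (((t⁻¹ : ℚ_[p]ˣ) : ℚ_[p])))⁻¹ * (y * D.y k u) *
          (D.y k (-u + ((t⁻¹ : ℚ_[p]ˣ) : ℚ_[p])) * D.nt k t * D.y k (((t⁻¹ : ℚ_[p]ˣ) : ℚ_[p])))
          = z at hyx hy2
        refine ⟨b * (m * D.y k (-u + ((t⁻¹ : ℚ_[p]ˣ) : ℚ_[p])) * m⁻¹), ?_, m * D.nt k t, ?_,
          D.y k (((t⁻¹ : ℚ_[p]ˣ) : ℚ_[p])) * z, ?_, ?_⟩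
        · exact D.B.mul_mem hb (hN (hyy _))
        · exact D.NN.mul_mem hm (nt_mem_NN D k t)
        · exact D.Nb.mul_mem (y_mem_Nb D k _) hy2
        · rw [mul_assoc (b * m) y, hyx]; group
  unfold ChevData.G at hg
  induction hg using Subgroup.closure_induction_right with
  | one => exact ⟨1, D.B.one_mem, 1, D.NN.one_mem, 1, D.Nb.one_mem, by simp⟩
  | mul_right g hg' s hs ih =>
    obtain ⟨k, t, rfl | rfl⟩ := hs
    · exact hxst g k t ih
    · exact hyst g k t ih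
  | mul_inv_cancel g hg' s hs ih =>
    obtain ⟨k, t, rfl | rfl⟩ := hs
    · rw [← x_neg]; exact hxst g k _ ih
    · rw [← y_neg]; exact hyst g k _ ih

end Pool.Agent.Chev
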