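import Mathlib
import Pool.Agent.Helper911_Chev.Defs3
import Pool.Agent.Helper911_Chev.CH1
import Pool.Agent.Helper911_Chev.CH0

set_option autoImplicit false
set_option linter.unusedSectionVars false
set_option maxHeartbeats 1000000

noncomputable section

open Matrix Topology

namespace Pool.Agent.Chev

open ChevData

variable {p : ℕ} [Fact p.Prime] {I ι : Type} [Fintype I] [DecidableEq I] [Fintype ι]
  [DecidableEq ι] (D : ChevData p I ι)

/-! ======= TARGETS ======= -/

theorem lu_elem {ord : ι → ℕ} (i0 : ι) (c : ι → ℚ_[p]) (hc : ∀ j, c j ≠ 0 → ord j < ord i0) :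
    ∃ e : GLm p ι, (e : Matrix ι ι ℚ_[p]) =
      1 - Matrix.of (fun i j => if i = i0 then c j else 0) := by
  set R : Matrix ι ι ℚ_[p] := Matrix.of (fun i j => if i = i0 then c j else 0) with hR
  have hRR : R * R = 0 := by
    ext i j
    rw [Matrix.mul_apply, Matrix.zero_apply]
    refine Finset.sum_eq_zero fun k _ => ?_
    simp only [hR, Matrix.of_apply]
    by_cases hk : k = i0
    · have : c k = 0 := by
        by_contra hne
        have := hc k hne
        rw [hk] at this
        exact lt_irrefl _ this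
      rw [this]
      simp
    · simp [hk]
  refine ⟨⟨1 - R, 1 + R, ?_, ?_⟩, rfl⟩
  · rw [sub_mul, one_mul, mul_add, mul_one, hRR, add_zero, add_sub_cancel_right]
  · rw [mul_sub, mul_one, add_mul, one_mul, hRR, add_zero, add_sub_cancel_right]

theorem lu_step {ord : ι → ℕ} (ho : Function.Injective ord) (m : ℕ) (hm : 1 ≤ m)
    {g : GLm p ι} (hg : g ∈ Cg p ι m) (t : ℕ)
    (h : ∃ w ∈ Cg p ι m, IsLo ord (w : Matrix ι ι ℚ_[p]) ∧
      ∀ i j, ord j < ord i → t + 1 ≤ ord i → ((g * w : GLm p ι) : Matrix ι ι ℚ_[p]) i j = 0) :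
    ∃ w ∈ Cg p ι m, IsLo ord (w : Matrix ι ι ℚ_[p]) ∧
      ∀ i j, ord j < ord i → t ≤ ord i → ((g * w : GLm p ι) : Matrix ι ι ℚ_[p]) i j = 0 := by
  classical
  obtain ⟨w, hw, hlo, hz⟩ := h
  by_cases hex : ∃ i0, ord i0 = t
  swap
  · refine ⟨w, hw, hlo, fun i j hij hti => hz i j hij ?_⟩
    rcases Nat.lt_or_ge t (ord i) with h1 | h1
    · exact h1
    · exact absurd ⟨i, by omega⟩ hex
  obtain ⟨i0, hi0⟩ := hex
  have hH : g * w ∈ Cg p ι m := mul_mem hg hw
  set H : Matrix ι ι ℚ_[p] := ((g * w : GLm p ι) : Matrix ι ι ℚ_[p]) with hHdef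
  have hq1 : (p : ℝ) ^ (-(m : ℤ)) < 1 := by
    have h1 : (1 : ℝ) < p := by exact_mod_cast (Fact.out : p.Prime).one_lt
    exact zpow_lt_one_of_neg₀ h1 (by omega)
  have hnb : ∀ i j, ‖(H - 1) i j‖ ≤ (p : ℝ) ^ (-(m : ℤ)) := hH.1
  have hdiag : 1 ≤ ‖H i0 i0‖ := by
    have h1 : ‖(H - 1) i0 i0‖ ≤ (p : ℝ) ^ (-(m : ℤ)) := hnb i0 i0
    rw [Matrix.sub_apply, Matrix.one_apply_eq] at h1
    by_contra hlt
    push Not at hlt
    have h2 : ‖(1 : ℚ_[p])‖ ≤ max ‖H i0 i0‖ ‖-(H i0 i0 - 1)‖ := by
      have h3 := IsUltrametricDist.norm_add_le_max (H i0 i0) (-(H i0 i0 - 1))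
      have e : H i0 i0 + -(H i0 i0 - 1) = 1 := by ring
      rwa [e] at h3
    rw [norm_one, norm_neg] at h2
    have h4 := max_lt hlt (lt_of_le_of_lt h1 hq1)
    exact absurd h2 (not_le.2 h4)
  have hd0 : H i0 i0 ≠ 0 := by
    intro h0
    rw [h0, norm_zero] at hdiag
    linarith
  let c : ι → ℚ_[p] := fun j => if ord j < ord i0 then H i0 j / H i0 i0 else 0
  have hcz : ∀ j, c j ≠ 0 → ord j < ord i0 := by
    intro j hj
    by_contra hlt
    exact hj (if_neg hlt)
  have hcn : ∀ j, ‖c j‖ ≤ (p : ℝ) ^ (-(m : ℤ)) := by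
    intro j
    by_cases hj : ord j < ord i0
    · have hne : i0 ≠ j := by
        rintro rfl
        exact lt_irrefl _ hj
      have h1 := hnb i0 j
      rw [Matrix.sub_apply, Matrix.one_apply_ne hne, sub_zero] at h1
      show ‖(if ord j < ord i0 then H i0 j / H i0 i0 else 0)‖ ≤ _
      rw [if_pos hj, norm_div]
      exact (div_le_self (norm_nonneg _) hdiag).trans h1
    · show ‖(if ord j < ord i0 then H i0 j / H i0 i0 else 0)‖ ≤ _
      rw [if_neg hj, norm_zero]
      exact (pw_pos p _).le
  obtain ⟨e, he⟩ := lu_elem (p := p) i0 c hcz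
  have he1 : ∀ i j, ((e : Matrix ι ι ℚ_[p]) - 1) i j = if i = i0 then -c j else 0 := by
    intro i j
    rw [he, Matrix.sub_apply, Matrix.sub_apply, Matrix.of_apply]
    by_cases hi : i = i0
    · simp [hi]
    · simp [hi]
  have heC : e ∈ Cg p ι m := by
    refine Cg_of_val hm fun i j => ?_
    rw [he1]
    by_cases hi : i = i0
    · rw [if_pos hi, norm_neg]
      exact hcn j
    · rw [if_neg hi, norm_zero]
      exact (pw_pos p _).le
  have heL : IsLo ord (e : Matrix ι ι ℚ_[p]) := by
    intro i j hij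
    rw [he1] at hij
    by_cases hi : i = i0
    · rw [if_pos hi] at hij
      rw [hi]
      exact hcz j (fun h0 => hij (by rw [h0, neg_zero]))
    · rw [if_neg hi] at hij
      exact absurd rfl hij
  have hprod : ∀ i j, ((g * (w * e) : GLm p ι) : Matrix ι ι ℚ_[p]) i j =
      H i j - H i i0 * c j := by
    intro i j
    rw [← mul_assoc, Units.val_mul, he, ← hHdef, mul_sub, mul_one, Matrix.sub_apply,
      Matrix.mul_apply]
    congr 1
    rw [Finset.sum_eq_single i0]
    · rw [Matrix.of_apply, if_pos rfl]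
    · intro k _ hk
      rw [Matrix.of_apply, if_neg hk, mul_zero]
    · intro h0
      exact absurd (Finset.mem_univ _) h0
  refine ⟨w * e, mul_mem hw heC, ?_, ?_⟩
  · rw [Units.val_mul]
    exact lo_mul hlo heL
  · intro i j hij hti
    rw [hprod]
    rcases Nat.eq_or_lt_of_le hti with h1 | h1
    · have hii : i = i0 := ho (by rw [hi0, h1])
      subst hii
      have hc : c j = H i j / H i i := if_pos hij
      rw [hc]
      field_simp
      ring
    · have e1 : H i i0 = 0 := hz i i0 (by omega) h1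
      have e2 : H i j = 0 := hz i j hij h1
      rw [e1, e2]
      ring

/-- TARGET.
Proof. Gaussian elimination. Let `q = p^(-m) < 1`, `‖g - 1‖ ≤ q`. Induct on the number of elements `i` of `ι` treated, in the order of increasing `ord`-reversed: more precisely prove by induction on a finite set `S`, upper closed or lower closed for `ord`, that there is `v` in `Cg m`, lower unitriangular, such that `g * v⁻¹` has zero entries at `(i, j)` with `ord j < ord i`, `i ∈ S`. In each step clear the row `i` (entries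
to the left of the diagonal) by adding multiples of column `i` to the columns `j`, `ord j < ord i`: the entry `(i, i)` is a unit `≡ 1`, the multipliers have norm `≤ q`, and rows already cleared (those with larger `ord`) stay cleared since column `i` has a zero there. (Treat the rows in decreasing order of `ord`.) For the membership of the inverses in `Cg m` use that a matrix with `‖X - 1‖ ≤ q < 1` has determinant a unit and its
inverse (adjugate divided by the determinant) also satisfies `‖X⁻¹ - 1‖ ≤ q`. You may also transport to `Fin n` and do an induction on `n` with block matrices. -/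
theorem LU_exists {ord : ι → ℕ} (ho : Function.Injective ord) (m : ℕ) (hm : 1 ≤ m)
    {g : GLm p ι} (hg : g ∈ Cg p ι m) : ∃ u ∈ Cg p ι m, IsUp ord (u : Matrix ι ι ℚ_[p]) ∧
      ∃ v ∈ Cg p ι m, IsLo ord (v : Matrix ι ι ℚ_[p]) ∧ g = u * v := by
  have key : ∀ t : ℕ, (∃ w ∈ Cg p ι m, IsLo ord (w : Matrix ι ι ℚ_[p]) ∧
      ∀ i j, ord j < ord i → t ≤ ord i → ((g * w : GLm p ι) : Matrix ι ι ℚ_[p]) i j = 0) →
      ∃ w ∈ Cg p ι m, IsLo ord (w : Matrix ι ι ℚ_[p]) ∧
      ∀ i j, ord j < ord i → 0 ≤ ord i → ((g * w : GLm p ι) : Matrix ι ι ℚ_[p]) i j = 0 := by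
    intro t
    induction t with
    | zero => exact id
    | succ t ih => exact fun h => ih (lu_step ho m hm hg t h)
  obtain ⟨w, hw, hlo, hz⟩ := key (Finset.univ.sup ord + 1) ⟨1, one_mem _, by
      intro i j hij
      simp at hij, fun i j _ hi => by
      have := Finset.le_sup (f := ord) (Finset.mem_univ i)
      omega⟩
  refine ⟨g * w, mul_mem hg hw, ?_, w⁻¹, inv_mem hw, lo_inv ho hlo, by group⟩
  intro i j hij
  by_contra hlt
  exact hij (hz i j (not_le.1 hlt) (Nat.zero_le _))

end Pool.Agent.Chev
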