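import Mathlib
import Pool.Agent.Helper911_Chev.Defs3
import Pool.Agent.Helper911_Chev.CA1
import Pool.Agent.Helper911_Chev.CA2
import Pool.Agent.Helper911_Chev.CA3
import Pool.Agent.Helper911_Chev.CH0
import Pool.Agent.Helper911_Chev.CB4
import Pool.Agent.Helper911_Chev.CW1
import Pool.Agent.Helper911_Chev.CW2
import Pool.Agent.Helper911_Chev.CG2

set_option autoImplicit false
set_option linter.unusedSectionVars false
set_option maxHeartbeats 1000000

noncomputable section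

open Matrix Topology

namespace Pool.Agent.Chev

open ChevData

variable {p : ℕ} [Fact p.Prime] {I ι : Type} [Fintype I] [DecidableEq I] [Fintype ι]
  [DecidableEq ι] (D : ChevData p I ι)

/-! ======= TARGETS ======= -/

theorem LU1_step {ord : ι → ℕ} (ho : GoodOrd D ord) {m : GLm p ι} (b q : GLm p ι)
    (hb : IsUp ord (b : Matrix ι ι ℚ_[p])) (hq : IsLo ord (q : Matrix ι ι ℚ_[p]))
    (h : m = b * q) {v : (I → ℤ) ≃ₗ[ℤ] (I → ℤ)} (hv : D.Rep m v) (j : ι) :
    ∃ i, D.wt i = v (D.wt j) ∧ ht D (D.wt i) ≤ ht D (D.wt j) := by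
  have h1 : ((q : GLm p ι) : Matrix ι ι ℚ_[p]) j j = 1 := by
    by_contra hc
    have h2 : ((q : Matrix ι ι ℚ_[p]) - 1) j j ≠ 0 := by
      rw [Matrix.sub_apply, Matrix.one_apply_eq]
      exact sub_ne_zero.2 hc
    exact lt_irrefl _ (hq j j h2)
  have h3 : (q : Matrix ι ι ℚ_[p]) = ((b⁻¹ : GLm p ι) : Matrix ι ι ℚ_[p]) * (m : Matrix ι ι ℚ_[p]) := by
    rw [h, Units.val_mul, ← mul_assoc, Units.inv_mul, one_mul]
  rw [h3, Matrix.mul_apply] at h1
  obtain ⟨i, -, hi⟩ := Finset.exists_ne_zero_of_sum_ne_zero (by rw [h1]; exact one_ne_zero)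
  have h4 := up_inv ho.inj hb j i (left_ne_zero_of_mul hi)
  refine ⟨i, hv i j (right_ne_zero_of_mul hi), ?_⟩
  by_contra hc
  have h5 := ho.mono i j (not_le.1 hc)
  omega

theorem LU1_iter {v : (I → ℤ) ≃ₗ[ℤ] (I → ℤ)}
    (hs : ∀ j, ∃ i, D.wt i = v (D.wt j) ∧ ht D (D.wt i) ≤ ht D (D.wt j)) (n : ℕ) :
    ∀ j, ∃ i, D.wt i = (v ^ n) (D.wt j) ∧ ht D (D.wt i) ≤ ht D (D.wt j) := by
  induction n with
  | zero =>
    intro j
    exact ⟨j, by rw [pow_zero]; rfl, le_refl _⟩
  | succ n ih =>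
    intro j
    obtain ⟨i, h1, h2⟩ := hs j
    obtain ⟨i', h3, h4⟩ := ih i
    refine ⟨i', ?_, h4.trans h2⟩
    rw [h3, h1, pow_succ]
    rfl

/-- TARGET.
Proof. `v ∈ W` with `Rep m v` (`NN_rep`). `q = b⁻¹ m` has diagonal entries `1`, so for every `j` there is `i` with `(b⁻¹) j i ≠ 0`, `m i j ≠ 0`: `ord j ≤ ord i` (`up_inv`), `wt i = v (wt j)`. So `ht (v (wt j)) ≤ ht (wt j)` for all `j` (else `ord i < ord j`). Applying this repeatedly (`v^n (wt j)` is again some `wt i`), `ht (v^n (wt j))` is decreasing in `n`; `W` is finite (`W_finite`) so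
`v^n = 1` for some `n ≥ 1` and all these heights are equal: `ht (v (wt j)) = ht (wt j)` for all `j`, hence `ht (v μ) = ht μ` for all `μ` (`D.span`). So `ht (v (A k)) > 0`, `Pos (v (A k))` by `weyl_sign` and `ht_pos`, and `m ∈ T` by `T_of_pos`. -/
theorem LU1 {ord : ι → ℕ} (ho : GoodOrd D ord) {m : GLm p ι} (hm : m ∈ D.NN) (b q : GLm p ι)
    (hb : IsUp ord (b : Matrix ι ι ℚ_[p])) (hq : IsLo ord (q : Matrix ι ι ℚ_[p]))
    (h : m = b * q) : m ∈ D.T := by
  obtain ⟨v, hvW, hv⟩ := NN_rep D hm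
  have hs := fun j => LU1_step D ho b q hb hq h hv j
  haveI := W_finite D
  obtain ⟨N, hN, hN1⟩ := (isOfFinOrder_of_finite (⟨v, hvW⟩ : D.W)).exists_pow_eq_one
  have hvN : v ^ N = 1 := by
    have := congrArg Subtype.val hN1
    simpa using this
  have heq : ∀ j, ht D (v (D.wt j)) = ht D (D.wt j) := by
    intro j
    obtain ⟨i, h1, h2⟩ := hs j
    obtain ⟨i', h3, h4⟩ := LU1_iter D hs (N - 1) i
    have h5 : D.wt i' = D.wt j := by
      rw [h3, h1]
      have h6 : (v ^ (N - 1)) (v (D.wt j)) = (v ^ (N - 1 + 1)) (D.wt j) := by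
        rw [pow_succ]; rfl
      rw [h6, Nat.sub_add_cancel hN, hvN]
      rfl
    rw [h5] at h4
    rw [h1] at h4 h2
    exact le_antisymm h2 h4
  have hall : ∀ μ : I → ℤ, ht D (v μ) = ht D μ := by
    intro μ
    have hmem : μ ∈ AddSubgroup.closure (Set.range D.wt) := by
      rw [D.span]; exact AddSubgroup.mem_top μ
    induction hmem using AddSubgroup.closure_induction with
    | mem x hx =>
      obtain ⟨j, rfl⟩ := hx
      exact heq j
    | zero => rw [map_zero]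
    | add x y _ _ hx hy => rw [map_add, ht_add, ht_add, hx, hy]
    | neg x _ hx => rw [map_neg, ht_neg, ht_neg, hx]
  refine T_of_pos D hm hv fun k => ?_
  rcases weyl_sign D hvW k with h1 | h1
  · exact h1
  · exfalso
    have h2 := ht_pos D h1
    have h3 := ht_A_pos D k
    rw [ht_neg, hall] at h2
    omega

end Pool.Agent.Chev
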