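import Mathlib
import Pool.Agent.Helper911_Chev.Defs3
import Pool.Agent.Helper911_Chev.CA1
import Pool.Agent.Helper911_Chev.CA2
import Pool.Agent.Helper911_Chev.CA3
import Pool.Agent.Helper911_Chev.CH0
import Pool.Agent.Helper911_Chev.CH3
import Pool.Agent.Helper911_Chev.CH4
import Pool.Agent.Helper911_Chev.CB4
import Pool.Agent.Helper911_Chev.CB2
import Pool.Agent.Helper911_Chev.CB3
import Pool.Agent.Helper911_Chev.CW1
import Pool.Agent.Helper911_Chev.CW2
import Pool.Agent.Helper911_Chev.CE1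
import Pool.Agent.Helper911_Chev.CH1
import Pool.Agent.Helper911_Chev.CH2
import Pool.Agent.Helper911_Chev.CH5
import Pool.Agent.Helper911_Chev.CH10

set_option autoImplicit false
set_option linter.unusedSectionVars false
set_option maxHeartbeats 1000000

noncomputable section

open Matrix Topology

namespace Pool.Agent.Chev

open ChevData

variable {p : ℕ} [Fact p.Prime] {I ι : Type} [Fintype I] [DecidableEq I] [Fintype ι]
  [DecidableEq ι] (D : ChevData p I ι)

/-! ======= TARGETS ======= -/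

/-- TARGET.
Proof. `g = b m0 y0` (`G_cells`) and `g = u v` (`LU_exists`). `m0 = (b⁻¹ u) (v y0⁻¹)` so `m0 ∈ T` by `LU1`. So `g = b' y0`, `b' = b m0 ∈ B`, and `u⁻¹ b' = v y0⁻¹` is both upper and lower unitriangular, hence `1` (`up_lo`): `b' = u`, `y0 = v` are in `Cg m`. `b' = h τ * n`; the diagonal entries of `b'` are those of `h τ` (`n` has diagonal entries `1`), and those of `b'⁻¹` are the inverses, so `h τ ∈ Cg m` and `n ∈ Cg m`. -/
theorem iwahori_G (m : ℕ) (hm : 1 ≤ m) {g : GLm p ι} (hg : g ∈ D.G) (hgm : g ∈ Cg p ι m) :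
    ∃ τ : I → ℚ_[p]ˣ, D.h τ ∈ Cg p ι m ∧ ∃ n ∈ D.N, n ∈ Cg p ι m ∧ ∃ y ∈ D.Nb, y ∈ Cg p ι m ∧
      g = D.h τ * n * y := by
  obtain ⟨ord, ho⟩ := exists_ord D
  obtain ⟨b, hb, m0, hm0, y0, hy0, hg0⟩ := G_cells D hg
  obtain ⟨u, hu, huu, v, hv, hvl, huv⟩ := LU_exists ho.inj m hm hgm
  have hy0l : IsLo ord (y0 : Matrix ι ι ℚ_[p]) := UM_lo D ho (Nb_le_UM D hy0)
  have hm0T : m0 ∈ D.T := by
    refine LU1 D ho hm0 (b⁻¹ * u) (v * y0⁻¹) ?_ ?_ ?_
    · rw [Units.val_mul]
      exact up_mul (up_inv ho.inj (B_up D ho hb)) huu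
    · rw [Units.val_mul]
      exact lo_mul hvl (lo_inv ho.inj hy0l)
    · have h1 : b * m0 * y0 = u * v := hg0.symm.trans huv
      calc m0 = b⁻¹ * (b * m0 * y0) * y0⁻¹ := by group
        _ = b⁻¹ * (u * v) * y0⁻¹ := by rw [h1]
        _ = _ := by group
  have hbB : b * m0 ∈ D.B := D.B.mul_mem hb ((le_sup_left : D.T ≤ D.B) hm0T)
  have hbu : IsUp ord ((b * m0 : GLm p ι) : Matrix ι ι ℚ_[p]) := B_up D ho hbB
  have hgbv : b * m0 * y0 = u * v := hg0.symm.trans huv
  have hw : u⁻¹ * (b * m0) = v * y0⁻¹ := by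
    calc u⁻¹ * (b * m0) = u⁻¹ * (b * m0 * y0) * y0⁻¹ := by group
      _ = u⁻¹ * (u * v) * y0⁻¹ := by rw [hgbv]
      _ = _ := by group
  have hw1 : u⁻¹ * (b * m0) = 1 := by
    apply up_lo (ord := ord)
    · rw [Units.val_mul]
      exact up_mul (up_inv ho.inj huu) hbu
    · rw [hw, Units.val_mul]
      exact lo_mul hvl (lo_inv ho.inj hy0l)
  have hbu' : b * m0 = u := by
    rw [inv_mul_eq_one] at hw1
    exact hw1.symm
  have hyv : y0 = v := by
    rw [hw1] at hw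
    exact (mul_inv_eq_one.1 hw.symm).symm
  obtain ⟨τ, n, hn, hbn⟩ := (mem_B D (b * m0)).1 hbB
  have hndiag : ∀ i, (n : Matrix ι ι ℚ_[p]) i i = 1 := by
    intro i
    have h1 : D.Supp {μ | D.Pos μ} ((n : Matrix ι ι ℚ_[p]) - 1) := (N_le_UP D hn).1
    by_contra h2
    have h3 := h1 i i (by
      rw [Matrix.sub_apply, Matrix.one_apply_eq]
      exact sub_ne_zero.2 h2)
    rw [sub_self] at h3
    exact D.pos_conic.zero h3
  have hdiag : ∀ i, (u : Matrix ι ι ℚ_[p]) i i = (D.h τ : Matrix ι ι ℚ_[p]) i i := by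
    intro i
    rw [← hbu', hbn, Units.val_mul, Matrix.mul_apply]
    rw [Finset.sum_eq_single i]
    · rw [hndiag, mul_one]
    · intro j _ hj
      rw [h_apply, if_neg (Ne.symm hj), zero_mul]
    · intro h; exact absurd (Finset.mem_univ i) h
  have hτ : D.h τ ∈ Cg p ι m := by
    apply Cg_of_val hm
    intro i j
    by_cases hij : i = j
    · subst hij
      rw [Matrix.sub_apply, ← hdiag, ← Matrix.sub_apply]
      exact hu.1 i i
    · rw [Matrix.sub_apply, h_apply, if_neg hij, Matrix.one_apply_ne hij, sub_zero, norm_zero]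
      exact (pw_pos p _).le
  have hnC : n ∈ Cg p ι m := by
    have h1 : n = (D.h τ)⁻¹ * u := by
      rw [← hbu', hbn]; group
    rw [h1]
    exact (Cg p ι m).mul_mem ((Cg p ι m).inv_mem hτ) hu
  refine ⟨τ, hτ, n, hn, hnC, y0, hy0, ?_, ?_⟩
  · rw [hyv]; exact hv
  · rw [hg0, hbn]

end Pool.Agent.Chev
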