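import Mathlib
import Pool.Agent.Helper911_Chev.Defs3
import Pool.Agent.Helper911_Chev.CA1
import Pool.Agent.Helper911_Chev.CA2
import Pool.Agent.Helper911_Chev.CA3
import Pool.Agent.Helper911_Chev.CB4
import Pool.Agent.Helper911_Chev.CW1
import Pool.Agent.Helper911_Chev.CW2
import Pool.Agent.Helper911_Chev.CE1
import Pool.Agent.Helper911_Chev.DS1
import Pool.Agent.Helper911_Chev.CH3
import Pool.Agent.Helper911_Chev.CH4
import Pool.Agent.Helper911_Chev.CH8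
import Pool.Agent.Helper911_Chev.CH9
import Pool.Agent.Helper911_Chev.CH1
import Pool.Agent.Helper911_Chev.CH12

set_option autoImplicit false
set_option linter.unusedSectionVars false
set_option maxHeartbeats 1000000

noncomputable section

open Matrix Topology

namespace Pool.Agent.Chev

open ChevData

variable {p : ℕ} [Fact p.Prime] {I ι : Type} [Fintype I] [DecidableEq I] [Fintype ι]
  [DecidableEq ι] (D : ChevData p I ι)

/-! ======= TARGETS ======= -/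

/-- TARGET.
Proof. `sub`: `Pm e` is closed. `test`: let `r ∈ closure R`, `r ≠ 1`, `r s = b a q`, `s ∈ Sp e`. Put `y' = a q ∈ Nb`. For `m ≥ 1` choose (`Cg_open`, continuity) `r' ∈ R` so close to `r` that `c = (r s)⁻¹ r' s` satisfies `y' c y'⁻¹ ∈ Cg m`, and also `r'` within a given neighbourhood of `r`. All these elements are in `G` (`Nb_le_G`, `N_le_G`, `B_le_G`). `y' c y'⁻¹ = h(τ) n v` with `h(τ), n, v ∈ Cg m` (`iwahori_G`). So
`r' s = (r s) c = b y' c = (b h(τ) n) (v y')`, and `v y' = a' q'` (`PQ_decomp`). Goodness of `R`: `q' = 1`, `a' = v y' ∈ R`, `b h(τ) n ∈ Xs`. As `m → ∞`, `v → 1` and `h(τ) n → 1` (use `Cg_small`), so `y' ∈ closure R ⊆ Pm e` and `b ∈ Xs` (closed). Then `q = a⁻¹ y' ∈ Pm e ∩ Qm e`, so `q = 1` (`Pm_Qm`), `a = y' ∈ closure R`. Finally `a ≠ 1`: otherwise `r = b s⁻¹ ∈ B ∩ Nb`, `r = 1` (`B_inter_Nb`; `s ∈ N ≤ B`). -/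
theorem good_closure {e : GLm p ι} (he : e ∈ D.NN) {Xs : Subgroup (GLm p ι)} (hX : XsOK D Xs)
    {R : Set (GLm p ι)} (hR : GoodSet D e Xs R) : GoodSet D e Xs (closure R \ {1}) := by
  have hsub : closure R ⊆ (Pm D e : Set (GLm p ι)) :=
    closure_minimal (fun r hr => hR.sub r hr) (Pm_closed D e)
  have hNbPm : ∀ {g : GLm p ι}, g ∈ Pm D e → g ∈ D.Nb := fun hg => hg.1
  have hTB : ∀ τ : I → ℚ_[p]ˣ, D.h τ ∈ D.B := fun τ =>
    (le_sup_left : D.T ≤ D.B) ⟨τ, rfl⟩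
  have hNB : D.N ≤ D.B := le_sup_right
  -- the key approximation
  have key : ∀ r ∈ closure R, ∀ s ∈ Sp D e, ∀ b ∈ D.B, ∀ y' ∈ D.Nb, r * s = b * y' →
      ∀ U ∈ 𝓝 (1 : GLm p ι), ∃ v ∈ U, ∃ u ∈ U, v * y' ∈ R ∧ b * u ∈ Xs := by
    intro r hr s hs b hb y' hy' hrs U hU
    obtain ⟨m, hm, hmU⟩ := Cg_small (p := p) (ι := ι) U hU
    have hcont : Continuous (fun r' : GLm p ι => y' * ((r * s)⁻¹ * (r' * s)) * y'⁻¹) := by
      fun_prop
    have hopen : IsOpen ((fun r' : GLm p ι => y' * ((r * s)⁻¹ * (r' * s)) * y'⁻¹) ⁻¹'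
        (Cg p ι m : Set (GLm p ι))) := (Cg_open m).preimage hcont
    have hmem : r ∈ (fun r' : GLm p ι => y' * ((r * s)⁻¹ * (r' * s)) * y'⁻¹) ⁻¹'
        (Cg p ι m : Set (GLm p ι)) := by
      show y' * ((r * s)⁻¹ * (r * s)) * y'⁻¹ ∈ Cg p ι m
      rw [inv_mul_cancel, mul_one, mul_inv_cancel]
      exact one_mem _
    obtain ⟨r', hr'1, hr'R⟩ := mem_closure_iff.1 hr _ hopen hmem
    have hr'1 : y' * ((r * s)⁻¹ * (r' * s)) * y'⁻¹ ∈ Cg p ι m := hr'1
    have hrG : r ∈ D.G := Nb_le_G D (hNbPm (hsub hr))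
    have hr'G : r' ∈ D.G := Nb_le_G D (hNbPm (hR.sub r' hr'R))
    have hsG : s ∈ D.G := N_le_G D hs.1
    have hyG : y' ∈ D.G := Nb_le_G D hy'
    have hG : y' * ((r * s)⁻¹ * (r' * s)) * y'⁻¹ ∈ D.G :=
      mul_mem (mul_mem hyG (mul_mem (inv_mem (mul_mem hrG hsG)) (mul_mem hr'G hsG))) (inv_mem hyG)
    obtain ⟨τ, hτ, n, hn, hn', v, hv, hv', heq⟩ := iwahori_G D m hm hG hr'1
    have hvy : v * y' ∈ D.Nb := mul_mem hv hy'
    obtain ⟨a', ha', q', hq', haq⟩ := PQ_decomp D he _ hvy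
    have hr's : r' * s = (b * (D.h τ * n)) * a' * q' := by
      calc r' * s = (r * s) * ((r * s)⁻¹ * (r' * s)) := by group
        _ = (b * y') * ((r * s)⁻¹ * (r' * s)) := by rw [hrs]
        _ = b * (y' * ((r * s)⁻¹ * (r' * s)) * y'⁻¹) * y' := by group
        _ = b * (D.h τ * n * v) * y' := by rw [heq]
        _ = (b * (D.h τ * n)) * (v * y') := by group
        _ = (b * (D.h τ * n)) * (a' * q') := by rw [haq]
        _ = (b * (D.h τ * n)) * a' * q' := by group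
    obtain ⟨hq1, haR, hbX⟩ := hR.test r' hr'R s hs (b * (D.h τ * n))
      (mul_mem hb (mul_mem (hTB τ) (hNB hn))) a' ha' q' hq' hr's
    refine ⟨v, hmU hv', D.h τ * n, hmU (mul_mem hτ hn'), ?_, hbX⟩
    rw [haq, hq1, mul_one]
    exact haR
  refine ⟨fun r hr => hsub hr.1, fun h => h.2 rfl, ?_⟩
  rintro r ⟨hr, hr1⟩ s hs b hb a ha q hq hrs
  have hr1 : r ≠ 1 := hr1
  have hy' : a * q ∈ D.Nb := mul_mem ha.1 hq.1
  have hrs' : r * s = b * (a * q) := by rw [hrs, mul_assoc]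
  have hk := key r hr s hs b hb (a * q) hy' hrs'
  have hyR : a * q ∈ closure R := by
    rw [mem_closure_iff_nhds]
    intro V hV
    have hc : Filter.Tendsto (fun v : GLm p ι => v * (a * q)) (𝓝 1) (𝓝 (1 * (a * q))) :=
      (continuous_mul_const (a * q)).tendsto 1
    rw [one_mul] at hc
    obtain ⟨v, hv, -, -, hvR, -⟩ := hk _ (hc hV)
    exact ⟨_, hv, hvR⟩
  have hbX : b ∈ Xs := by
    have : b ∈ closure (Xs : Set (GLm p ι)) := by
      rw [mem_closure_iff_nhds]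
      intro V hV
      have hc : Filter.Tendsto (fun v : GLm p ι => b * v) (𝓝 1) (𝓝 (b * 1)) :=
        (continuous_const_mul b).tendsto 1
      rw [mul_one] at hc
      obtain ⟨-, -, u, hu, -, huX⟩ := hk _ (hc hV)
      exact ⟨_, hu, huX⟩
    rwa [hX.closed.closure_eq] at this
  have hq1 : q = 1 := by
    have hqP : q ∈ Pm D e := by
      have h1 : a⁻¹ * (a * q) ∈ Pm D e := mul_mem (inv_mem ha) (hsub hyR)
      rwa [inv_mul_cancel_left] at h1
    exact Pm_Qm D hqP hq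
  subst hq1
  rw [mul_one] at hyR
  refine ⟨rfl, ⟨hyR, ?_⟩, hbX⟩
  intro ha1
  have ha1 : a = 1 := ha1
  apply hr1
  have h2 : r = b * s⁻¹ := by
    rw [ha1, mul_one, mul_one] at hrs
    rw [← hrs]; group
  apply B_inter_Nb D _ (hNbPm (hsub hr))
  rw [h2]
  exact mul_mem hb (inv_mem (hNB hs.1))

end Pool.Agent.Chev
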