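import Mathlib
import Pool.Agent.Helper911_Chev.Defs3
import Pool.Agent.Helper911_Chev.CA1
import Pool.Agent.Helper911_Chev.CA2
import Pool.Agent.Helper911_Chev.CA3
import Pool.Agent.Helper911_Chev.CB4
import Pool.Agent.Helper911_Chev.CW1
import Pool.Agent.Helper911_Chev.CW2
import Pool.Agent.Helper911_Chev.CE1
import Pool.Agent.Helper911_Chev.DS1
import Pool.Agent.Helper911_Chev.CH3
import Pool.Agent.Helper911_Chev.CH4
import Pool.Agent.Helper911_Chev.CH8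
import Pool.Agent.Helper911_Chev.CH9
import Pool.Agent.Helper911_Chev.DS2

set_option autoImplicit false
set_option linter.unusedSectionVars false
set_option maxHeartbeats 1000000

noncomputable section

open Matrix Topology

namespace Pool.Agent.Chev

open ChevData

variable {p : ℕ} [Fact p.Prime] {I ι : Type} [Fintype I] [DecidableEq I] [Fintype ι]
  [DecidableEq ι] (D : ChevData p I ι)

/-! ======= TARGETS ======= -/

/-- TARGET.
See the hints above. -/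
theorem rmax_good (e : GLm p ι) (Xs : Subgroup (GLm p ι)) : GoodSet D e Xs (Rmax D e Xs) where
  sub := by
    rintro r ⟨R, hR, hr⟩
    exact hR.sub r hr
  one := by
    rintro ⟨R, hR, hr⟩
    exact hR.one hr
  test := by
    rintro r ⟨R, hR, hr⟩ s hs b hb a ha q hq h
    obtain ⟨h1, h2, h3⟩ := hR.test r hr s hs b hb a ha q hq h
    exact ⟨h1, ⟨R, hR, h2⟩, h3⟩

/-- TARGET.
See the hints above. -/
theorem rmax_sub {e : GLm p ι} {Xs : Subgroup (GLm p ι)} {R : Set (GLm p ι)}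
    (hR : GoodSet D e Xs R) : R ⊆ Rmax D e Xs := fun _ hr => ⟨R, hR, hr⟩

/-- Conjugation of an element of `B` by a torus element stays in `B`. -/
theorem h_conj_B_aux (τ : I → ℚ_[p]ˣ) {b : GLm p ι} (hb : b ∈ D.B) :
    D.h τ * b * (D.h τ)⁻¹ ∈ D.B := by
  have hT : D.h τ ∈ D.B := by
    refine (le_sup_left : D.T ≤ D.T ⊔ D.N) ?_
    exact ⟨τ, rfl⟩
  exact mul_mem (mul_mem hT hb) (inv_mem hT)

/-- TARGET.
Proof. If `R` is a good set then so is `h(τ) R h(τ)⁻¹`: conjugate the equation `r s = b a q` by `h(τ)⁻¹` (`Pm_conj`, ..., and `h(τ)⁻¹ b h(τ) ∈ B`, `XsOK.conj`). -/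
theorem rmax_conj {e : GLm p ι} (he : e ∈ D.NN) {Xs : Subgroup (GLm p ι)} (hX : XsOK D Xs)
    (τ : I → ℚ_[p]ˣ) {r : GLm p ι} (hr : r ∈ Rmax D e Xs) :
    D.h τ * r * (D.h τ)⁻¹ ∈ Rmax D e Xs := by
  obtain ⟨R, hR, hrR⟩ := hr
  have hinv : D.h τ⁻¹ = (D.h τ)⁻¹ := map_inv D.h τ
  -- conjugating back
  have back : ∀ g : GLm p ι, D.h τ⁻¹ * g * (D.h τ⁻¹)⁻¹ = (D.h τ)⁻¹ * g * D.h τ := by
    intro g; rw [hinv, inv_inv]
  refine ⟨{g | (D.h τ)⁻¹ * g * D.h τ ∈ R}, ?_, ?_⟩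
  · refine ⟨?_, ?_, ?_⟩
    · intro g hg
      have h1 := Pm_conj D he τ (hR.sub _ hg)
      have h2 : D.h τ * ((D.h τ)⁻¹ * g * D.h τ) * (D.h τ)⁻¹ = g := by group
      rwa [h2] at h1
    · intro h
      apply hR.one
      have h2 : (D.h τ)⁻¹ * 1 * D.h τ = (1 : GLm p ι) := by group
      have h3 : (D.h τ)⁻¹ * 1 * D.h τ ∈ R := h
      rwa [h2] at h3
    · intro g hg s hs b hb a ha q hq h
      have hs' := Sp_conj D he τ⁻¹ hs
      have hb' := h_conj_B_aux D τ⁻¹ hb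
      have ha' := Pm_conj D he τ⁻¹ ha
      have hq' := Qm_conj D he τ⁻¹ hq
      rw [back] at hs' hb' ha' hq'
      have heq : ((D.h τ)⁻¹ * g * D.h τ) * ((D.h τ)⁻¹ * s * D.h τ)
          = ((D.h τ)⁻¹ * b * D.h τ) * ((D.h τ)⁻¹ * a * D.h τ) * ((D.h τ)⁻¹ * q * D.h τ) := by
        calc ((D.h τ)⁻¹ * g * D.h τ) * ((D.h τ)⁻¹ * s * D.h τ)
            = (D.h τ)⁻¹ * (g * s) * D.h τ := by group
          _ = (D.h τ)⁻¹ * (b * a * q) * D.h τ := by rw [h]
          _ = _ := by group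
      obtain ⟨h1, h2, h3⟩ := hR.test _ hg _ hs' _ hb' _ ha' _ hq' heq
      refine ⟨?_, h2, ?_⟩
      · have : q = D.h τ * ((D.h τ)⁻¹ * q * D.h τ) * (D.h τ)⁻¹ := by group
        rw [this, h1]; group
      · have h4 := hX.conj τ _ h3
        have h5 : D.h τ * ((D.h τ)⁻¹ * b * D.h τ) * (D.h τ)⁻¹ = b := by group
        rwa [h5] at h4
  · show (D.h τ)⁻¹ * (D.h τ * r * (D.h τ)⁻¹) * D.h τ ∈ R
    have h5 : (D.h τ)⁻¹ * (D.h τ * r * (D.h τ)⁻¹) * D.h τ = r := by group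
    rw [h5]; exact hrR

/-- TARGET.
`good_closure` for `Rmax`. -/
theorem rmax_closed {e : GLm p ι} (he : e ∈ D.NN) {Xs : Subgroup (GLm p ι)} (hX : XsOK D Xs)
    {r : GLm p ι} (hr : r ∈ closure (Rmax D e Xs)) (h1 : r ≠ 1) : r ∈ Rmax D e Xs :=
  rmax_sub D (good_closure D he hX (rmax_good D e Xs)) ⟨hr, h1⟩

end Pool.Agent.Chev
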