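import Mathlib
import Pool.Agent.Helper911_Chev.Defs3

set_option autoImplicit false
set_option linter.unusedSectionVars false
set_option maxHeartbeats 1000000

noncomputable section

open Matrix Topology

namespace Pool.Agent.Chev

open ChevData

variable {p : ℕ} [Fact p.Prime] {I ι : Type} [Fintype I] [DecidableEq I] [Fintype ι]
  [DecidableEq ι] (D : ChevData p I ι)

/-! ======= TARGETS ======= -/

theorem ray_functional_aux {J : Type} [Fintype J] [DecidableEq J] (M : Finset (J → ℤ))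
    (hM : M.Nonempty) (f : J → ℤ) (hf : ∀ μ ∈ M, 0 < ∑ k, f k * μ k) (s : Finset J) :
    ∃ c : J → ℤ, (∀ μ ∈ M, 0 ≤ ∑ k, c k * μ k) ∧ (∃ μ ∈ M, ∑ k, c k * μ k = 0) ∧
      ∀ μ ∈ M, ∀ μ' ∈ M, ∑ k, c k * μ k = 0 → ∑ k, c k * μ' k = 0 →
        ∀ k ∈ s, (∑ j, f j * μ' j) * μ k = (∑ j, f j * μ j) * μ' k := by
  induction s using Finset.induction_on with
  | empty =>
    refine ⟨0, by simp, ?_, by simp⟩
    obtain ⟨μ, hμ⟩ := hM
    exact ⟨μ, hμ, by simp⟩
  | insert k s hk ih =>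
    obtain ⟨c, h1, ⟨μ1, hμ1, h2⟩, h3⟩ := ih
    set M0 := M.filter (fun μ => ∑ k, c k * μ k = 0) with hM0def
    have hM0 : M0.Nonempty := ⟨μ1, by simp [M0, hμ1, h2]⟩
    obtain ⟨μ0, hμ0, hmin⟩ := Finset.exists_min_image M0
      (fun μ => (μ k : ℚ) / ((∑ j, f j * μ j : ℤ) : ℚ)) hM0
    obtain ⟨hμ0M, hcμ0⟩ := Finset.mem_filter.1 hμ0
    have hf0 := hf μ0 hμ0M
    -- the functional g
    let g : (J → ℤ) → ℤ := fun μ => (∑ j, f j * μ0 j) * μ k - μ0 k * (∑ j, f j * μ j)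
    have hg : ∀ μ ∈ M0, 0 ≤ g μ := by
      intro μ hμ
      have hfμ := hf μ (Finset.mem_filter.1 hμ).1
      have h := hmin μ hμ
      have a1 : (0 : ℚ) < ((∑ j, f j * μ0 j : ℤ) : ℚ) := by exact_mod_cast hf0
      have a2 : (0 : ℚ) < ((∑ j, f j * μ j : ℤ) : ℚ) := by exact_mod_cast hfμ
      rw [div_le_div_iff₀ a1 a2] at h
      have h' : μ0 k * (∑ j, f j * μ j) ≤ μ k * (∑ j, f j * μ0 j) := by exact_mod_cast h
      simp only [g]
      linarith [mul_comm (μ k) (∑ j, f j * μ0 j)]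
    set N : ℤ := 1 + ∑ μ ∈ M, |g μ| with hN
    have hNμ : ∀ μ ∈ M, |g μ| + 1 ≤ N := by
      intro μ hμ
      have h7 : |g μ| ≤ ∑ μ ∈ M, |g μ| :=
        Finset.single_le_sum (f := fun μ => |g μ|) (fun i _ => abs_nonneg (g i)) hμ
      linarith
    let c' : J → ℤ := fun j => N * c j + ((∑ i, f i * μ0 i) * (if j = k then 1 else 0) - μ0 k * f j)
    have hc' : ∀ μ : J → ℤ, ∑ j, c' j * μ j = N * (∑ j, c j * μ j) + g μ := by
      intro μ
      have e1 : ∀ j, c' j * μ j = N * (c j * μ j) +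
          ((∑ i, f i * μ0 i) * (if j = k then μ j else 0) - μ0 k * (f j * μ j)) := by
        intro j
        simp only [c']
        split_ifs <;> ring
      rw [Finset.sum_congr rfl (fun j _ => e1 j), Finset.sum_add_distrib, Finset.sum_sub_distrib,
        ← Finset.mul_sum, ← Finset.mul_sum, ← Finset.mul_sum]
      simp [g]
    have hpos : ∀ μ ∈ M, (∑ j, c j * μ j ≠ 0) → 0 < ∑ j, c' j * μ j := by
      intro μ hμ hne
      have h0 := h1 μ hμ
      have h1' : 1 ≤ ∑ j, c j * μ j := by omega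
      rw [hc']
      have h4 := hNμ μ hμ
      have h5 := neg_abs_le (g μ)
      have h6 := abs_nonneg (g μ)
      nlinarith
    refine ⟨c', ?_, ⟨μ0, hμ0M, ?_⟩, ?_⟩
    · intro μ hμ
      by_cases h0 : ∑ j, c j * μ j = 0
      · rw [hc', h0]
        have := hg μ (by simp [M0, hμ, h0])
        linarith
      · exact (hpos μ hμ h0).le
    · rw [hc', hcμ0]
      simp only [g]; ring
    · intro μ hμ μ' hμ' e e'
      have z : ∑ j, c j * μ j = 0 := by
        by_contra h0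
        exact absurd e (hpos μ hμ h0).ne'
      have z' : ∑ j, c j * μ' j = 0 := by
        by_contra h0
        exact absurd e' (hpos μ' hμ' h0).ne'
      have gz : g μ = 0 := by rw [hc', z] at e; linarith
      have gz' : g μ' = 0 := by rw [hc', z'] at e'; linarith
      intro l hl
      rcases Finset.mem_insert.1 hl with rfl | hl
      · simp only [g] at gz gz'
        have hne : (∑ j, f j * μ0 j) ≠ 0 := hf0.ne'
        apply mul_left_cancel₀ hne
        linear_combination (∑ j, f j * μ' j) * gz - (∑ j, f j * μ j) * gz'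
      · exact h3 μ hμ μ' hμ' z z' l hl

/-- TARGET.
Proof. Show by induction on a finite set `s` of indices: there is `c` with `0 ≤ c·μ` on `M`, with `c·μ = 0` for some `μ ∈ M`, and such that `(f·μ') μ k = (f·μ) μ' k` for all `k ∈ s` and all `μ, μ' ∈ M` with `c·μ = c·μ' = 0`. For `s = ∅` take `c = 0`. Step from `s` to `insert k s`: let `M0 = {μ ∈ M | c·μ = 0}`, nonempty; choose `μ0 ∈ M0` minimising the rational number `μ k / (f·μ)`. Put `g = (f·μ0) e_k - (μ0 k) f` (`e_k = single k 1`), so `g·μ = (f·μ0) μ k - μ0 k (f·μ) ≥ 0` for `μ ∈ M0`,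
with equality iff `μ k / f·μ = μ0 k / f·μ0`. Let `c' = N c + g` with `N` a positive integer so large that `N (c·μ) + g·μ > 0` for `μ ∈ M \ M0` (finite set, `c·μ ≥ 1` there). -/
theorem ray_functional {J : Type} [Fintype J] [DecidableEq J] (M : Finset (J → ℤ))
    (hM : M.Nonempty) (f : J → ℤ) (hf : ∀ μ ∈ M, 0 < ∑ k, f k * μ k) :
    ∃ c : J → ℤ, (∀ μ ∈ M, 0 ≤ ∑ k, c k * μ k) ∧ (∃ μ ∈ M, ∑ k, c k * μ k = 0) ∧
      ∀ μ ∈ M, ∀ μ' ∈ M, ∑ k, c k * μ k = 0 → ∑ k, c k * μ' k = 0 →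
        ∀ k, (∑ j, f j * μ' j) * μ k = (∑ j, f j * μ j) * μ' k := by
  obtain ⟨c, h1, h2, h3⟩ := ray_functional_aux M hM f hf Finset.univ
  exact ⟨c, h1, h2, fun μ hμ μ' hμ' e e' k => h3 μ hμ μ' hμ' e e' k (Finset.mem_univ k)⟩

/-- TARGET.
Proof. For `v : I → ℤ` let `c = D.A.adjugate *ᵥ v`; then `∑_j A l j * c j = det A * v l` for all `l`, and `∑_j rt b j * c j = det A * ∑_l b l * v l` (`rt b = vecMul b A`). Take `l0 ≠ k` with `b l0 ≠ 0`, `v k = - det A * (b l0)^2`, `v l0 = det A * b k * b l0` and `v l = 0` for the other `l`. -/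
theorem exists_cochar (b : I → ℤ) (k : I) (hb : ∃ l, l ≠ k ∧ b l ≠ 0) :
    ∃ c : I → ℤ, ∑ j, D.rt b j * c j = 0 ∧ ∑ j, D.A k j * c j < 0 := by
  obtain ⟨l0, hl0, hbl⟩ := hb
  have key : ∀ v : I → ℤ, D.A *ᵥ (D.A.adjugate *ᵥ v) = D.A.det • v := by
    intro v
    rw [Matrix.mulVec_mulVec, Matrix.mul_adjugate, Matrix.smul_mulVec, Matrix.one_mulVec]
  let v : I → ℤ := Pi.single k (- D.A.det * (b l0)^2) + Pi.single l0 (D.A.det * b k * b l0)
  refine ⟨D.A.adjugate *ᵥ v, ?_, ?_⟩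
  · have h1 : ∑ j, D.rt b j * (D.A.adjugate *ᵥ v) j = D.rt b ⬝ᵥ (D.A.adjugate *ᵥ v) := rfl
    rw [h1]
    unfold rt
    rw [← Matrix.dotProduct_mulVec, key v, dotProduct_smul]
    have h2 : b ⬝ᵥ v = 0 := by
      simp only [v, dotProduct_add, dotProduct_single]
      ring
    rw [h2, smul_zero]
  · have h1 : ∑ j, D.A k j * (D.A.adjugate *ᵥ v) j = (D.A *ᵥ (D.A.adjugate *ᵥ v)) k := rfl
    rw [h1, key v]
    have h2 : (D.A.det • v) k = - (D.A.det * b l0) ^ 2 := by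
      simp only [v, Pi.smul_apply, Pi.add_apply, Pi.single_eq_same, smul_eq_mul]
      rw [Pi.single_eq_of_ne (Ne.symm hl0)]
      ring
    rw [h2]
    have : D.A.det * b l0 ≠ 0 := mul_ne_zero D.A_det hbl
    have := sq_pos_of_ne_zero this
    linarith

end Pool.Agent.Chev
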