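import Mathlib
import Pool.Agent.Helper911_Chev.Defs3
import Pool.Agent.Helper911_Chev.CA1
import Pool.Agent.Helper911_Chev.CA2
import Pool.Agent.Helper911_Chev.CA3
import Pool.Agent.Helper911_Chev.CH0
import Pool.Agent.Helper911_Chev.CB4
import Pool.Agent.Helper911_Chev.CW1
import Pool.Agent.Helper911_Chev.CW2
import Pool.Agent.Helper911_Chev.CE1
import Pool.Agent.Helper911_Chev.DS1
import Pool.Agent.Helper911_Chev.DS3
import Pool.Agent.Helper911_Chev.DQ1
import Pool.Agent.Helper911_Chev.DS4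

set_option autoImplicit false
set_option linter.unusedSectionVars false
set_option maxHeartbeats 1000000

noncomputable section

open Matrix Topology

namespace Pool.Agent.Chev

open ChevData

variable {p : ℕ} [Fact p.Prime] {I ι : Type} [Fintype I] [DecidableEq I] [Fintype ι]
  [DecidableEq ι] (D : ChevData p I ι)

/-! ======= TARGETS ======= -/

/-- TARGET.
Proof. `r ∈ Nb ≤ UM`, `r ≠ 1`. Let `M` be the finite set of weights `wt i - wt j` at the nonzero entries of `r - 1`, nonempty, all with `Pos (-μ)`. Apply `ray_functional` to `M` and `f = - lam` (`∑ f k * μ k = ht (-μ) > 0`, `ht_pos`, up to the order of the factors). With the `c` obtained, `deg_limit` gives `r'`; `hc c (p^N) r hc c (p^N)⁻¹ ∈ Rmax` (`rmax_conj`), so `r' ∈ closure Rmax`, `r' ≠ 1` since some `μ ∈ M` has `c·μ = 0`; so `r' ∈ Rmax` (`rmax_closed`).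
All the weights `μ` at nonzero entries of `r' - 1` have `c·μ = 0`; take one of them, `μ0`, and `ν = -μ0`. By the last clause of `ray_functional`, `(f·μ0) μ = (f·μ) μ0` with positive integers `f·μ0`, `f·μ`. -/
theorem good_ray {e : GLm p ι} (he : e ∈ D.NN) {Xs : Subgroup (GLm p ι)} (hX : XsOK D Xs)
    {r : GLm p ι} (hr : r ∈ Rmax D e Xs) : ∃ r' ∈ Rmax D e Xs, ∃ ν, D.Pos ν ∧ Ray D r' ν := by
  classical
  have hG := rmax_good D e Xs
  have hrUM : r ∈ D.UM := Nb_le_UM D (hG.sub r hr).1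
  have hr1 : r ≠ 1 := fun h => hG.one (h ▸ hr)
  have hpos : ∀ i j, ((r : Matrix ι ι ℚ_[p]) - 1) i j ≠ 0 → D.Pos (-(D.wt i - D.wt j)) :=
    fun i j hij => hrUM.1 i j hij
  set M : Finset (I → ℤ) := ((Finset.univ : Finset (ι × ι)).filter
    (fun q => ((r : Matrix ι ι ℚ_[p]) - 1) q.1 q.2 ≠ 0)).image (fun q => D.wt q.1 - D.wt q.2) with hM
  have hmem : ∀ μ, μ ∈ M ↔ ∃ i j, ((r : Matrix ι ι ℚ_[p]) - 1) i j ≠ 0 ∧ D.wt i - D.wt j = μ := by
    intro μ
    rw [hM, Finset.mem_image]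
    constructor
    · rintro ⟨q, hq, h⟩
      exact ⟨q.1, q.2, (Finset.mem_filter.1 hq).2, h⟩
    · rintro ⟨i, j, h1, h2⟩
      exact ⟨(i, j), Finset.mem_filter.2 ⟨Finset.mem_univ _, h1⟩, h2⟩
  have hne : M.Nonempty := by
    by_contra hcon
    apply hr1
    apply Units.ext
    rw [Units.val_one, ← sub_eq_zero]
    ext i j
    by_contra h
    exact hcon ⟨_, (hmem _).2 ⟨i, j, h, rfl⟩⟩
  have hf : ∀ μ ∈ M, 0 < ∑ k, (fun k => - lam D k) k * μ k := by
    intro μ hμ
    obtain ⟨i, j, h1, h2⟩ := (hmem μ).1 hμ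
    have h3 := ht_pos D (hpos i j h1)
    rw [h2, ht_neg] at h3
    unfold ht at h3
    have h4 : ∑ k, (fun k => - lam D k) k * μ k = - ∑ k, μ k * lam D k := by
      rw [← Finset.sum_neg_distrib]
      refine Finset.sum_congr rfl fun k _ => ?_
      ring
    rw [h4]
    exact h3
  obtain ⟨c, hc1, ⟨μ1, hμ1, hμ10⟩, hc3⟩ := ray_functional M hne (fun k => - lam D k) hf
  obtain ⟨r', hr'1, hr'2⟩ := deg_limit D hrUM c (fun i j hij => hc1 _ ((hmem _).2 ⟨i, j, hij, rfl⟩))
  obtain ⟨i1, j1, h11, h12⟩ := (hmem μ1).1 hμ1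
  have hcl : r' ∈ closure (Rmax D e Xs) := by
    refine mem_closure_of_tendsto hr'2 (Filter.Eventually.of_forall fun N => ?_)
    exact rmax_conj D he hX (fun k => (pu p ^ N) ^ c k) hr
  have h13 : ((r' : Matrix ι ι ℚ_[p]) - 1) i1 j1 ≠ 0 := by
    rw [hr'1, if_pos (by rw [h12]; exact hμ10)]
    exact h11
  have hr'ne : r' ≠ 1 := by
    intro h
    apply h13
    rw [h, Units.val_one, sub_self]
    rfl
  refine ⟨r', rmax_closed D he hX hcl hr'ne, -μ1, ?_, ?_, ?_⟩
  · rw [← h12]; exact hpos i1 j1 h11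
  · exact ⟨i1, j1, h13, by rw [← h12]; abel⟩
  · intro i j hij
    rw [hr'1] at hij
    have h21 : ∑ k, c k * (D.wt i - D.wt j) k = 0 := by
      by_contra h
      rw [if_neg h] at hij
      exact hij rfl
    rw [if_pos h21] at hij
    have hμ2 : D.wt i - D.wt j ∈ M := (hmem _).2 ⟨i, j, hij, rfl⟩
    have h22 := hc3 (D.wt i - D.wt j) hμ2 μ1 hμ1 h21 hμ10
    have h23 := hf μ1 hμ1
    have h24 := hf _ hμ2
    refine ⟨(∑ k, (fun k => - lam D k) k * μ1 k).toNat,
      (∑ k, (fun k => - lam D k) k * (D.wt i - D.wt j) k).toNat, ?_, ?_, ?_⟩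
    · omega
    · omega
    · funext k
      have h25 := h22 k
      have h26 := Int.toNat_of_nonneg h23.le
      have h27 := Int.toNat_of_nonneg h24.le
      simp only [Pi.smul_apply, nsmul_eq_mul, Pi.sub_apply, Pi.neg_apply] at h25 h26 h27 ⊢
      rw [h26, h27]
      linarith

end Pool.Agent.Chev
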