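import Mathlib
import Pool.Agent.Helper911_Chev.Defs3
import Pool.Agent.Helper911_Chev.CA1
import Pool.Agent.Helper911_Chev.CA2
import Pool.Agent.Helper911_Chev.CA3
import Pool.Agent.Helper911_Chev.CB2
import Pool.Agent.Helper911_Chev.CB3
import Pool.Agent.Helper911_Chev.CB4
import Pool.Agent.Helper911_Chev.CW1
import Pool.Agent.Helper911_Chev.CW2
import Pool.Agent.Helper911_Chev.CE1
import Pool.Agent.Helper911_Chev.DS1
import Pool.Agent.Helper911_Chev.DS3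
import Pool.Agent.Helper911_Chev.CH3
import Pool.Agent.Helper911_Chev.DR2
import Pool.Agent.Helper911_Chev.CF1

set_option autoImplicit false
set_option linter.unusedSectionVars false
set_option maxHeartbeats 1000000

noncomputable section

open Matrix Topology

namespace Pool.Agent.Chev

open ChevData

variable {p : ℕ} [Fact p.Prime] {I ι : Type} [Fintype I] [DecidableEq I] [Fintype ι]
  [DecidableEq ι] (D : ChevData p I ι)

/-! ======= TARGETS ======= -/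

/-- TARGET.
Proof. `y k c ∈ Pm e`. Let `Rep e⁻¹ w` (`NN_rep`). If `Pos (w (A k))` then `e⁻¹ y_k(c) e ∈ Nb` (`NN_conj`), and it is in `N`, so it is `1` (`N_inter_Nb`), `y k c = 1`, `c = 0` (`y_inj`). So `Pos (-(w (A k)))` (`weyl_sign`) and `e⁻¹ x_k(t) e ∈ Nb` (`NN_conj`): `x_k(t) ∈ Sp e` for all `t`. For a unit `a` let `t = (a⁻¹ - 1)/c`: `y_k(c) x_k(t) = x_k(t a) hk(a) y_k(c a)` by `yx` (with the unit `w = a⁻¹ = 1 + t c`).
`y_k(c a) ∈ Pm e` as well (same `NN_conj` argument: `Pos (-(w (A k)))` gives `e⁻¹ y_k(..) e ∈ N`). So `x_k(t a) hk(a) ∈ Xs` by goodness (`rmax_good`), and `x_k(t a) ∈ N ≤ Xs`. -/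
theorem good_simple {e : GLm p ι} (he : e ∈ D.NN) {Xs : Subgroup (GLm p ι)}
    (hX : XsOK D Xs) {k : I} {c : ℚ_[p]} (hc : c ≠ 0) (h : D.y k c ∈ Rmax D e Xs) :
    ∀ a : ℚ_[p]ˣ, D.hk k a ∈ Xs := by
  have hg := rmax_good D e Xs
  have hP := hg.sub _ h
  have hPN : e⁻¹ * D.y k c * e ∈ D.N := hP.2
  obtain ⟨w, -, hrep⟩ := NN_rep D (inv_mem he)
  have hneg : D.Pos (-(w (D.A k))) := by
    obtain ⟨w', hw', hrep'⟩ := NN_rep D (inv_mem he)
    have hww : w = w' := rep_unique D hrep hrep'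
    rw [hww]
    rcases weyl_sign D hw' k with h1 | h1
    · exfalso
      apply hc
      have h2 := (NN_conj D (inv_mem he) hrep' k c).2.2.1 h1
      rw [inv_inv] at h2
      have h3 := N_inter_Nb D hPN h2
      apply y_inj D k
      have h4 : D.y k c = e * (e⁻¹ * D.y k c * e) * e⁻¹ := by group
      rw [h4, h3]
      group
    · exact h1
  intro a
  have hS : ∀ t, D.x k t ∈ Sp D e := by
    intro t
    refine ⟨x_mem_N D k t, ?_⟩
    have h2 := (NN_conj D (inv_mem he) hrep k t).2.1 hneg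
    rw [inv_inv] at h2
    exact h2
  have hPm : ∀ t, D.y k t ∈ Pm D e := by
    intro t
    refine ⟨y_mem_Nb D k t, ?_⟩
    have h2 := (NN_conj D (inv_mem he) hrep k t).2.2.2 hneg
    rw [inv_inv] at h2
    exact h2
  obtain ⟨t, ht⟩ : ∃ t : ℚ_[p], t = (((a⁻¹ : ℚ_[p]ˣ) : ℚ_[p]) - 1) / c := ⟨_, rfl⟩
  have hw : ((a⁻¹ : ℚ_[p]ˣ) : ℚ_[p]) = 1 + t * c := by
    rw [ht, div_mul_cancel₀ _ hc]
    ring
  have hyx := yx D k t c a⁻¹ hw
  rw [inv_inv] at hyx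
  have hbB : D.x k (t / ((a⁻¹ : ℚ_[p]ˣ) : ℚ_[p])) * D.hk k a ∈ D.B := by
    apply mul_mem
    · exact (le_sup_right : D.N ≤ D.T ⊔ D.N) (x_mem_N D k _)
    · exact (le_sup_left : D.T ≤ D.T ⊔ D.N) ⟨_, rfl⟩
  have htest := hg.test _ h _ (hS t) _ hbB _ (hPm (c / ((a⁻¹ : ℚ_[p]ˣ) : ℚ_[p]))) 1
    (one_mem _) (by rw [mul_one]; exact hyx)
  have hx : D.x k (t / ((a⁻¹ : ℚ_[p]ˣ) : ℚ_[p])) ∈ Xs := hX.N_le (x_mem_N D k _)
  have h5 : D.hk k a = (D.x k (t / ((a⁻¹ : ℚ_[p]ˣ) : ℚ_[p])))⁻¹ *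
      (D.x k (t / ((a⁻¹ : ℚ_[p]ˣ) : ℚ_[p])) * D.hk k a) := by group
  rw [h5]
  exact mul_mem (inv_mem hx) htest.2.2

end Pool.Agent.Chev
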