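import Mathlib
import Pool.Agent.Helper911_Chev.Defs3
import Pool.Agent.Helper911_Chev.CA1
import Pool.Agent.Helper911_Chev.CA2
import Pool.Agent.Helper911_Chev.CA3
import Pool.Agent.Helper911_Chev.CA4
import Pool.Agent.Helper911_Chev.CB1
import Pool.Agent.Helper911_Chev.CB4
import Pool.Agent.Helper911_Chev.DP1

set_option autoImplicit false
set_option linter.unusedSectionVars false
set_option maxHeartbeats 1000000

noncomputable section

open Matrix Topology

namespace Pool.Agent.Chev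

open ChevData

variable {p : ℕ} [Fact p.Prime] {I ι : Type} [Fintype I] [DecidableEq I] [Fintype ι]
  [DecidableEq ι] (D : ChevData p I ι)

/-! ======= TARGETS ======= -/

theorem sl2_core {V : Type*} [AddCommGroup V] [Module ℚ_[p] V] (e f h : V →ₗ[ℚ_[p]] V)
    (hef : ∀ v, e (f v) - f (e v) = h v) (hhe : ∀ v, h (e v) - e (h v) = (2 : ℚ_[p]) • e v)
    {X : V} (hX : X ≠ 0) (d : ℤ) (hd : 0 < d) (hhX : h X = (d : ℚ_[p]) • X) (h0 : e (f X) = 0) :
    ∀ j : ℕ, e^[j] X ≠ 0 := by
  have hH : ∀ j : ℕ, h (e^[j] X) = ((d : ℚ_[p]) + 2 * j) • e^[j] X := by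
    intro j
    induction j with
    | zero => simp [hhX]
    | succ j ih =>
      rw [Function.iterate_succ_apply']
      have h1 := hhe (e^[j] X)
      rw [ih, map_smul, sub_eq_iff_eq_add] at h1
      rw [h1, ← add_smul]
      congr 1
      push_cast
      ring
  have hF : ∀ j : ℕ, f (e^[j + 1] X) = (-(((j : ℚ_[p]) + 1) * (d + j))) • e^[j] X := by
    intro j
    induction j with
    | zero =>
      have h1 := hef X
      rw [h0, zero_sub, hhX, neg_eq_iff_eq_neg] at h1
      simp only [zero_add, Function.iterate_one, Function.iterate_zero, id_eq, Nat.cast_zero]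
      rw [h1, ← neg_smul]
      congr 1
      ring
    | succ j ih =>
      rw [Function.iterate_succ_apply']
      have h1 := hef (e^[j + 1] X)
      rw [ih, hH (j + 1), map_smul, ← Function.iterate_succ_apply' (f := e)] at h1
      have h2 : f (e (e^[j + 1] X)) = (-(((j : ℚ_[p]) + 1) * (d + j))) • e^[j + 1] X -
          ((d : ℚ_[p]) + 2 * ((j + 1 : ℕ) : ℚ_[p])) • e^[j + 1] X := by
        rw [← h1]; abel
      rw [h2, ← sub_smul]
      congr 1
      push_cast
      ring
  intro j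
  induction j with
  | zero => simpa using hX
  | succ j ih =>
    intro h1
    have h2 := hF j
    rw [h1, map_zero] at h2
    rcases smul_eq_zero.1 h2.symm with h3 | h3
    · rw [neg_eq_zero] at h3
      rcases mul_eq_zero.1 h3 with h4 | h4
      · exact absurd h4 (by exact_mod_cast Nat.succ_ne_zero j)
      · have h5 : ((d + (j : ℤ) : ℤ) : ℚ_[p]) = 0 := by push_cast; exact h4
        have h6 : d + (j : ℤ) = 0 := by exact_mod_cast h5
        omega
    · exact ih h3

/-- The commutator with `Y`. -/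
def adL (Y : Matrix ι ι ℚ_[p]) : Matrix ι ι ℚ_[p] →ₗ[ℚ_[p]] Matrix ι ι ℚ_[p] :=
  LinearMap.mulLeft ℚ_[p] Y - LinearMap.mulRight ℚ_[p] Y

theorem adL_apply (Y Z : Matrix ι ι ℚ_[p]) : adL Y Z = Y * Z - Z * Y := rfl

theorem adL_coe (Y : Matrix ι ι ℚ_[p]) : (adL Y : Matrix ι ι ℚ_[p] → Matrix ι ι ℚ_[p]) =
    fun Z => Y * Z - Z * Y := rfl

theorem adL_wt (k : I) {X : Matrix ι ι ℚ_[p]} (d : ℤ)
    (h : ∀ i j, X i j ≠ 0 → (D.wt i - D.wt j) k = d) : adL (Hm D k) X = (d : ℚ_[p]) • X := by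
  rw [adL_apply]
  ext i j
  unfold Hm
  rw [Matrix.sub_apply, Matrix.diagonal_mul, Matrix.mul_diagonal, Matrix.smul_apply, smul_eq_mul]
  by_cases h0 : X i j = 0
  · rw [h0]; ring
  · have h1 := h i j h0
    rw [← h1, Pi.sub_apply]
    push_cast
    ring

theorem EF_Hm (k : I) : D.E k * D.F k - D.F k * D.E k = Hm D k := D.EF_same k

theorem HE2 (k : I) : Hm D k * D.E k - D.E k * Hm D k = (2 : ℚ_[p]) • D.E k := by
  rw [HE D k k, D.A_diag]; norm_num

theorem HF2 (k : I) : Hm D k * D.F k - D.F k * Hm D k = -((2 : ℚ_[p]) • D.F k) := by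
  rw [HF D k k, D.A_diag]; norm_num

/-- TARGET.
Proof. Let `H = Hm k`. `trace (H * H) = trace ((E F - F E) H) = trace (E F H) - trace (F E H) = trace (E (F H - H F)) = 2 trace (E F)` (`HF`, `A k k = 2`, cyclicity of the trace). And `trace (H * H) = ∑_i (wt i k)^2 ≠ 0` (`B_pos`). -/
theorem tr_EF (k : I) : (D.F k * D.E k).trace ≠ 0 := by
  intro h0
  have h1 : (Hm D k * Hm D k).trace = ((∑ i, D.wt i k ^ 2 : ℤ) : ℚ_[p]) := by
    unfold Hm
    rw [Matrix.diagonal_mul_diagonal, Matrix.trace_diagonal]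
    push_cast
    refine Finset.sum_congr rfl fun i _ => ?_
    ring
  have h2 : (Hm D k * Hm D k).trace = 2 * (D.F k * D.E k).trace := by
    calc (Hm D k * Hm D k).trace = ((D.E k * D.F k - D.F k * D.E k) * Hm D k).trace := by
          rw [EF_Hm]
      _ = (D.E k * (D.F k * Hm D k)).trace - (D.F k * (D.E k * Hm D k)).trace := by
          rw [Matrix.sub_mul, Matrix.trace_sub, Matrix.mul_assoc, Matrix.mul_assoc]
      _ = (D.E k * (D.F k * Hm D k)).trace - (D.E k * (Hm D k * D.F k)).trace := by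
          rw [Matrix.trace_mul_comm (D.F k) (D.E k * Hm D k), Matrix.mul_assoc]
      _ = -(D.E k * (Hm D k * D.F k - D.F k * Hm D k)).trace := by
          rw [Matrix.mul_sub, Matrix.trace_sub]; ring
      _ = 2 * (D.E k * D.F k).trace := by
          rw [HF2, Matrix.mul_neg, Matrix.trace_neg, neg_neg, Matrix.mul_smul, Matrix.trace_smul,
            smul_eq_mul]
      _ = 2 * (D.F k * D.E k).trace := by rw [Matrix.trace_mul_comm]
  rw [h1, h0, mul_zero] at h2
  have h3 : (∑ i, D.wt i k ^ 2 : ℤ) = 0 := by exact_mod_cast h2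
  have h4 := B_pos D k
  omega

/-- TARGET.
Proof. Write `e, f, h` for the operators `Z ↦ E Z - Z E`, `Z ↦ F Z - Z F`, `Z ↦ H Z - Z H` (`E = E k`, `F = F k`, `H = Hm k`, `E F - F E = H`). `e f - f e = h` (Jacobi), `h X = d X` and `h (e^j X) = (d + 2 j) e^j X` (`HE`, `A k k = 2`). Suppose `e f X = 0`. Then `f e X = - h X = - d X`, and by induction `f e^{j+1} X = - (j+1)(d+j) e^j X` for all `j` (`f e e^j X = e f e^j X - h e^j X`, and `e f e^j X = - j (d+j-1) e^j X`). So by induction `e^j X ≠ 0` for all `j` (`d > 0`, characteristic zero), which contradicts `ad_sum` (`e` is nilpotent, since `E` is nilpotent, `E_nil`). -/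
theorem sl2_ne (k : I) {X : Matrix ι ι ℚ_[p]} (hX : X ≠ 0) (d : ℤ) (hd : 0 < d)
    (h : ∀ i j, X i j ≠ 0 → (D.wt i - D.wt j) k = d) :
    D.E k * (D.F k * X - X * D.F k) - (D.F k * X - X * D.F k) * D.E k ≠ 0 := by
  intro h0
  have hef : ∀ v, adL (D.E k) (adL (D.F k) v) - adL (D.F k) (adL (D.E k) v) = adL (Hm D k) v := by
    intro v
    simp only [adL_apply]
    rw [← EF_Hm]
    noncomm_ring
  have hhe : ∀ v, adL (Hm D k) (adL (D.E k) v) - adL (D.E k) (adL (Hm D k) v) =
      (2 : ℚ_[p]) • adL (D.E k) v := by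
    intro v
    have h1 : adL (Hm D k) (adL (D.E k) v) - adL (D.E k) (adL (Hm D k) v) =
        (Hm D k * D.E k - D.E k * Hm D k) * v - v * (Hm D k * D.E k - D.E k * Hm D k) := by
      simp only [adL_apply]
      noncomm_ring
    rw [h1, HE2, adL_apply, Matrix.smul_mul, Matrix.mul_smul, smul_sub]
  obtain ⟨M, hM, -⟩ := ad_sum (E_nil D k) X
  refine sl2_core (adL (D.E k)) (adL (D.F k)) (adL (Hm D k)) hef hhe hX d hd (adL_wt D k d h)
    h0 M ?_
  exact hM M le_rfl

/-- TARGET.
Proof. As in `sl2_ne`: operators `e, f, h` with `e f - f e = h`, `h X = - d X`. Suppose `e X = 0`. Then `e f^{j+1} X = - (j+1)(d+j) f^j X` for all `j` (induction: `e f f^j X = f e f^j X + h f^j X`, `h f^j X = (-d-2j) f^j X`), so all `f^j X ≠ 0`, contradicting the nilpotency of `f` (`ad_sum`, `F_nil`). -/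
theorem sl2_neg (k : I) {X : Matrix ι ι ℚ_[p]} (hX : X ≠ 0) (d : ℤ) (hd : 0 < d)
    (h : ∀ i j, X i j ≠ 0 → (D.wt i - D.wt j) k = -d) :
    D.E k * X - X * D.E k ≠ 0 := by
  intro h0
  have hef : ∀ v, adL (D.F k) (adL (D.E k) v) - adL (D.E k) (adL (D.F k) v) =
      (-adL (Hm D k)) v := by
    intro v
    rw [LinearMap.neg_apply]
    simp only [adL_apply]
    rw [← EF_Hm]
    noncomm_ring
  have hhe : ∀ v, (-adL (Hm D k)) (adL (D.F k) v) - adL (D.F k) ((-adL (Hm D k)) v) =
      (2 : ℚ_[p]) • adL (D.F k) v := by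
    intro v
    have h1 : (-adL (Hm D k)) (adL (D.F k) v) - adL (D.F k) ((-adL (Hm D k)) v) =
        -((Hm D k * D.F k - D.F k * Hm D k) * v - v * (Hm D k * D.F k - D.F k * Hm D k)) := by
      rw [LinearMap.neg_apply, LinearMap.neg_apply, map_neg]
      simp only [adL_apply]
      noncomm_ring
    rw [h1, HF2, adL_apply, Matrix.neg_mul, Matrix.mul_neg, Matrix.smul_mul, Matrix.mul_smul,
      smul_sub]
    abel
  have hX' : (-adL (Hm D k)) X = (d : ℚ_[p]) • X := by
    rw [LinearMap.neg_apply, adL_wt D k (-d) h]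
    push_cast
    rw [neg_smul, neg_neg]
  obtain ⟨M, hM, -⟩ := ad_sum (F_nil D k) X
  refine sl2_core (adL (D.F k)) (adL (D.E k)) (-adL (Hm D k)) hef hhe hX d hd hX' ?_ M ?_
  · rw [adL_apply (D.E k) X, h0, map_zero]
  · exact hM M le_rfl

end Pool.Agent.Chev
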