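import Mathlib
import Pool.Agent.Helper911_Chev.Defs3
import Pool.Agent.Helper911_Chev.CA1
import Pool.Agent.Helper911_Chev.CA2
import Pool.Agent.Helper911_Chev.CA3
import Pool.Agent.Helper911_Chev.CB3

set_option autoImplicit false
set_option linter.unusedSectionVars false
set_option maxHeartbeats 1000000

noncomputable section

open Matrix Topology

namespace Pool.Agent.Chev

open ChevData

variable {p : ℕ} [Fact p.Prime] {I ι : Type} [Fintype I] [DecidableEq I] [Fintype ι]
  [DecidableEq ι] (D : ChevData p I ι)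

/-! ======= TARGETS ======= -/

/-- Convergence in the group of invertible matrices follows from that of the matrices. -/
theorem tendsto_units_aux {f : ℕ → GLm p ι} {r' : GLm p ι}
    (h : Filter.Tendsto (fun N => (f N : Matrix ι ι ℚ_[p])) Filter.atTop
      (𝓝 (r' : Matrix ι ι ℚ_[p]))) : Filter.Tendsto f Filter.atTop (𝓝 r') := by
  rw [Units.isInducing_embedProduct.tendsto_nhds_iff]
  have hval : ∀ g : GLm p ι, ((g⁻¹ : GLm p ι) : Matrix ι ι ℚ_[p])
      = ((g : Matrix ι ι ℚ_[p]).det)⁻¹ • (g : Matrix ι ι ℚ_[p]).adjugate := by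
    intro g
    rw [Matrix.coe_units_inv, Matrix.inv_def, Ring.inverse_eq_inv']
  have hdet : ((r' : Matrix ι ι ℚ_[p]).det) ≠ 0 := by
    have h1 : IsUnit (r' : Matrix ι ι ℚ_[p]) := r'.isUnit
    exact ((Matrix.isUnit_iff_isUnit_det _).mp h1).ne_zero
  have hd : Filter.Tendsto (fun N => (f N : Matrix ι ι ℚ_[p]).det) Filter.atTop
      (𝓝 (r' : Matrix ι ι ℚ_[p]).det) :=
    ((continuous_id.matrix_det).tendsto (r' : Matrix ι ι ℚ_[p])).comp h
  have ha : Filter.Tendsto (fun N => (f N : Matrix ι ι ℚ_[p]).adjugate) Filter.atTop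
      (𝓝 (r' : Matrix ι ι ℚ_[p]).adjugate) :=
    ((continuous_id.matrix_adjugate).tendsto (r' : Matrix ι ι ℚ_[p])).comp h
  have hinv : Filter.Tendsto (fun N => (((f N)⁻¹ : GLm p ι) : Matrix ι ι ℚ_[p])) Filter.atTop
      (𝓝 ((r'⁻¹ : GLm p ι) : Matrix ι ι ℚ_[p])) := by
    simp only [hval]
    exact (hd.inv₀ hdet).smul ha
  exact h.prodMk_nhds ((MulOpposite.continuous_op.tendsto _).comp hinv)

/-- TARGET.
Proof. Let `X' ` be the matrix on the right; it is supported in the weights of `r - 1`, so it is nilpotent (`nil_of_supp`, `r ∈ UM`) and `r' = 1 + X'` is invertible with `r'⁻¹ = ∑_{m < M} (-X')^m`, `M` the cardinality of `ι`. The `(i, j)` entry of `hc * r * hc⁻¹ - 1` is `(p^N)^(∑_k c k * (wt i - wt j) k)` times that of `r - 1` (`hc_apply`); it converges to `X' i j`. Convergence in `GLm`: the matrices converge, and the inverses too, because for every `g ∈ UM` (`US_of_val`), `g⁻¹ = ∑_{m < M} (1 - g)^m` (`(g - 1)^M = 0`), with the fixed `M`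
(for the fixed bound on the nilpotency index: a nilpotent matrix satisfies `X ^ card ι = 0`, e.g. `Matrix.isNilpotent_iff..`/Cayley-Hamilton, or follow the proof of `nil_of_supp`). -/
theorem deg_limit {r : GLm p ι} (hr : r ∈ D.UM) (c : I → ℤ)
    (hc : ∀ i j, ((r : Matrix ι ι ℚ_[p]) - 1) i j ≠ 0 → 0 ≤ ∑ k, c k * (D.wt i - D.wt j) k) :
    ∃ r' : GLm p ι, (∀ i j, ((r' : Matrix ι ι ℚ_[p]) - 1) i j
        = if ∑ k, c k * (D.wt i - D.wt j) k = 0 then ((r : Matrix ι ι ℚ_[p]) - 1) i j else 0) ∧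
      Filter.Tendsto (fun N : ℕ => D.hc c (pu p ^ N) * r * (D.hc c (pu p ^ N))⁻¹) Filter.atTop
        (𝓝 r') := by
  classical
  set X' : Matrix ι ι ℚ_[p] := Matrix.of fun i j =>
    if ∑ k, c k * (D.wt i - D.wt j) k = 0 then ((r : Matrix ι ι ℚ_[p]) - 1) i j else 0 with hX'
  have hX'ap : ∀ i j, X' i j =
    if ∑ k, c k * (D.wt i - D.wt j) k = 0 then ((r : Matrix ι ι ℚ_[p]) - 1) i j else 0 :=
    fun i j => rfl
  have hsupp : D.Supp {μ | -μ ∈ {μ | D.Pos μ}} X' := by
    intro i j hij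
    apply hr.1 i j
    intro h0
    apply hij
    rw [hX'ap, h0, ite_self]
  have hnil : IsNilpotent X' := nil_of_supp D _ (conic_neg D.pos_conic) X' hsupp
  obtain ⟨r', hr'⟩ : IsUnit (1 + X') := hnil.isUnit_one_add
  refine ⟨r', ?_, ?_⟩
  · intro i j
    rw [hr', add_sub_cancel_left, hX'ap]
  · apply tendsto_units_aux
    rw [hr']
    refine tendsto_pi_nhds.mpr fun i => tendsto_pi_nhds.mpr fun j => ?_
    -- the entries
    have hent : ∀ N : ℕ, ((D.hc c (pu p ^ N) * r * (D.hc c (pu p ^ N))⁻¹ : GLm p ι) :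
        Matrix ι ι ℚ_[p]) i j
        = (((pu p ^ N) ^ (∑ k, c k * (D.wt i - D.wt j) k) : ℚ_[p]ˣ) : ℚ_[p])
          * (r : Matrix ι ι ℚ_[p]) i j := by
      intro N
      have h3 : ∀ i : ι, (∏ k, (((pu p ^ N) ^ c k) ^ D.wt i k) : ℚ_[p]ˣ)
          = (pu p ^ N) ^ (∑ k, c k * D.wt i k) := by
        intro i
        have h4 : ∀ s : Finset I, (∏ k ∈ s, (((pu p ^ N) ^ c k) ^ D.wt i k) : ℚ_[p]ˣ)
            = (pu p ^ N) ^ (∑ k ∈ s, c k * D.wt i k) := by
          intro s
          induction s using Finset.induction_on with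
          | empty => simp
          | insert a s ha ih =>
            rw [Finset.prod_insert ha, Finset.sum_insert ha, ih, _root_.zpow_add, _root_.zpow_mul]
        exact h4 Finset.univ
      have h1 : ((D.hc c (pu p ^ N) : GLm p ι) : Matrix ι ι ℚ_[p])
          = Matrix.diagonal (fun i => (((pu p ^ N) ^ (∑ k, c k * D.wt i k) : ℚ_[p]ˣ) : ℚ_[p])) := by
        have h5 : ((D.hc c (pu p ^ N) : GLm p ι) : Matrix ι ι ℚ_[p])
          = Matrix.diagonal
            (fun i => ((∏ k, (((pu p ^ N) ^ c k) ^ D.wt i k) : ℚ_[p]ˣ) : ℚ_[p])) := rfl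
        rw [h5]
        simp only [h3]
      have h2 : (((D.hc c (pu p ^ N))⁻¹ : GLm p ι) : Matrix ι ι ℚ_[p])
          = Matrix.diagonal
            (fun i => ((((pu p ^ N) ^ (∑ k, c k * D.wt i k))⁻¹ : ℚ_[p]ˣ) : ℚ_[p])) := by
        have h5 : (((D.hc c (pu p ^ N))⁻¹ : GLm p ι) : Matrix ι ι ℚ_[p])
          = Matrix.diagonal
            (fun i => (((∏ k, (((pu p ^ N) ^ c k) ^ D.wt i k))⁻¹ : ℚ_[p]ˣ) : ℚ_[p])) := rfl
        rw [h5]
        simp only [h3]
      rw [Units.val_mul, Units.val_mul, h1, h2, Matrix.mul_diagonal, Matrix.diagonal_mul]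
      have h6 : (∑ k, c k * (D.wt i - D.wt j) k)
          = (∑ k, c k * D.wt i k) - ∑ k, c k * D.wt j k := by
        rw [← Finset.sum_sub_distrib]
        refine Finset.sum_congr rfl fun k _ => ?_
        rw [Pi.sub_apply, mul_sub]
      rw [h6, _root_.zpow_sub, Units.val_mul]
      ring
    have hlim : (1 + X') i j = (1 : Matrix ι ι ℚ_[p]) i j + X' i j := rfl
    show Filter.Tendsto (fun N : ℕ => ((D.hc c (pu p ^ N) * r * (D.hc c (pu p ^ N))⁻¹ : GLm p ι) :
        Matrix ι ι ℚ_[p]) i j) Filter.atTop (𝓝 ((1 + X') i j))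
    rw [hlim, hX'ap]
    simp only [hent]
    have hr1 : (r : Matrix ι ι ℚ_[p]) i j
        = (1 : Matrix ι ι ℚ_[p]) i j + ((r : Matrix ι ι ℚ_[p]) - 1) i j := by
      rw [Matrix.sub_apply]; ring
    by_cases he : ∑ k, c k * (D.wt i - D.wt j) k = 0
    · rw [if_pos he, he, ← hr1]
      simp only [zpow_zero, Units.val_one, one_mul]
      exact tendsto_const_nhds
    · have hne : i ≠ j := by
        rintro rfl
        apply he
        simp
      rw [if_neg he, Matrix.one_apply_ne hne, add_zero]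
      by_cases h0 : ((r : Matrix ι ι ℚ_[p]) - 1) i j = 0
      · have h7 : (r : Matrix ι ι ℚ_[p]) i j = 0 := by
          rw [hr1, h0, Matrix.one_apply_ne hne, add_zero]
        rw [h7]
        simp only [mul_zero]
        exact tendsto_const_nhds
      · have hpos := hc i j h0
        have hpos' : 0 < ∑ k, c k * (D.wt i - D.wt j) k := lt_of_le_of_ne hpos (Ne.symm he)
        obtain ⟨m, hm⟩ := Int.eq_ofNat_of_zero_le hpos
        rw [hm] at hpos' ⊢
        have hm0 : m ≠ 0 := by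
          rintro rfl
          simp at hpos'
        have h8 : ∀ N : ℕ, ((((pu p ^ N) ^ ((m : ℕ) : ℤ) : ℚ_[p]ˣ)) : ℚ_[p])
            = ((p : ℚ_[p]) ^ m) ^ N := by
          intro N
          rw [zpow_natCast, Units.val_pow_eq_pow_val, Units.val_pow_eq_pow_val]
          show ((p : ℚ_[p]) ^ N) ^ m = _
          rw [← pow_mul, ← pow_mul, mul_comm]
        simp only [h8]
        have h9 : Filter.Tendsto (fun N : ℕ => ((p : ℚ_[p]) ^ m) ^ N) Filter.atTop (𝓝 0) := by
          apply tendsto_pow_atTop_nhds_zero_of_norm_lt_one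
          rw [norm_pow]
          exact pow_lt_one₀ (norm_nonneg _) Padic.norm_p_lt_one hm0
        simpa using h9.mul_const ((r : Matrix ι ι ℚ_[p]) i j)

end Pool.Agent.Chev
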