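import Mathlib
import Pool.Agent.Helper911_Chev.Defs3
import Pool.Agent.Helper911_Chev.CA1
import Pool.Agent.Helper911_Chev.CA2
import Pool.Agent.Helper911_Chev.CA3
import Pool.Agent.Helper911_Chev.CH0
import Pool.Agent.Helper911_Chev.CA4
import Pool.Agent.Helper911_Chev.CB1
import Pool.Agent.Helper911_Chev.CB2
import Pool.Agent.Helper911_Chev.CB3
import Pool.Agent.Helper911_Chev.CB4
import Pool.Agent.Helper911_Chev.CW1
import Pool.Agent.Helper911_Chev.CW2
import Pool.Agent.Helper911_Chev.CC1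
import Pool.Agent.Helper911_Chev.CC2
import Pool.Agent.Helper911_Chev.CE1
import Pool.Agent.Helper911_Chev.CE3
import Pool.Agent.Helper911_Chev.CE4
import Pool.Agent.Helper911_Chev.DS1
import Pool.Agent.Helper911_Chev.DS3
import Pool.Agent.Helper911_Chev.CF1
import Pool.Agent.Helper911_Chev.DQ1
import Pool.Agent.Helper911_Chev.DS4
import Pool.Agent.Helper911_Chev.DL2

set_option autoImplicit false
set_option linter.unusedSectionVars false
set_option maxHeartbeats 1000000

noncomputable section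

open Matrix Topology

namespace Pool.Agent.Chev

open ChevData

variable {p : ℕ} [Fact p.Prime] {I ι : Type} [Fintype I] [DecidableEq I] [Fintype ι]
  [DecidableEq ι] (D : ChevData p I ι)

/-! ======= auxiliary ======= -/

section gs1

/-- The pairing of a weight with a cocharacter. -/
def gsph (c μ : I → ℤ) : ℤ := ∑ k, c k * μ k

omit [DecidableEq I] in
theorem gsph_add (c μ ν : I → ℤ) : gsph c (μ + ν) = gsph c μ + gsph c ν := by
  unfold gsph
  rw [← Finset.sum_add_distrib]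
  exact Finset.sum_congr rfl fun k _ => by rw [Pi.add_apply, mul_add]

omit [DecidableEq I] in
theorem gsph_sub (c μ ν : I → ℤ) : gsph c (μ - ν) = gsph c μ - gsph c ν := by
  unfold gsph
  rw [← Finset.sum_sub_distrib]
  exact Finset.sum_congr rfl fun k _ => by rw [Pi.sub_apply, mul_sub]

omit [DecidableEq I] in
theorem gsph_neg (c μ : I → ℤ) : gsph c (-μ) = - gsph c μ := by
  unfold gsph
  rw [← Finset.sum_neg_distrib]
  exact Finset.sum_congr rfl fun k _ => by rw [Pi.neg_apply, mul_neg]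

omit [DecidableEq I] in
theorem gsph_nsmul (c μ : I → ℤ) (n : ℕ) : gsph c (n • μ) = n * gsph c μ := by
  unfold gsph
  rw [Finset.mul_sum]
  exact Finset.sum_congr rfl fun k _ => by rw [Pi.smul_apply, nsmul_eq_mul]; ring

omit [DecidableEq I] in
theorem gsph_zero (c : I → ℤ) : gsph c (0 : I → ℤ) = 0 := by
  unfold gsph
  exact Finset.sum_eq_zero fun k _ => by rw [Pi.zero_apply, mul_zero]

theorem gs_mono {S T : Set (I → ℤ)} {X : Matrix ι ι ℚ_[p]} (h : D.Supp S X) (hST : S ⊆ T) :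
    D.Supp T X := fun i j hij => hST (h i j hij)

theorem gs_smul {S : Set (I → ℤ)} {X : Matrix ι ι ℚ_[p]} (a : ℚ_[p]) (h : D.Supp S X) :
    D.Supp S (a • X) := by
  intro i j hij
  apply h i j
  intro h0
  apply hij
  rw [Matrix.smul_apply, h0, smul_zero]

theorem gs_zero (S : Set (I → ℤ)) : D.Supp S (0 : Matrix ι ι ℚ_[p]) := by
  intro i j hij
  exact absurd rfl hij

theorem gs_sum {κ : Type} (S : Set (I → ℤ)) (s : Finset κ) (X : κ → Matrix ι ι ℚ_[p])
    (h : ∀ a ∈ s, D.Supp S (X a)) : D.Supp S (∑ a ∈ s, X a) := by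
  classical
  induction s using Finset.induction_on with
  | empty => rw [Finset.sum_empty]; exact gs_zero D S
  | insert a s ha ih =>
    rw [Finset.sum_insert ha]
    exact ChevData.Supp.add D (h a (Finset.mem_insert_self _ _))
      (ih fun b hb => h b (Finset.mem_insert_of_mem hb))

theorem gs_one {S : Set (I → ℤ)} (h0 : (0 : I → ℤ) ∈ S) : D.Supp S (1 : Matrix ι ι ℚ_[p]) := by
  intro i j hij
  rw [Matrix.one_apply] at hij
  have : i = j := by
    by_contra hne
    rw [if_neg hne] at hij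
    exact hij rfl
  rw [this, sub_self]
  exact h0

theorem gs_E (k : I) : D.Supp {D.A k} (D.E k) := by
  intro i j hij
  rw [D.E_wt k i j hij, add_sub_cancel_left]
  rfl

theorem gs_sub {S : Set (I → ℤ)} {X Y : Matrix ι ι ℚ_[p]} (hX : D.Supp S X)
    (hY : D.Supp S Y) : D.Supp S (X - Y) := by
  have : X - Y = X + (-1 : ℚ_[p]) • Y := by rw [neg_smul, one_smul, sub_eq_add_neg]
  rw [this]
  exact ChevData.Supp.add D hX (gs_smul D _ hY)

/-- powers of a matrix of one weight -/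
theorem gs_pow_single {μ : I → ℤ} {X : Matrix ι ι ℚ_[p]} (h : D.Supp {μ} X) (n : ℕ) :
    D.Supp {n • μ} (X ^ n) := by
  induction n with
  | zero =>
    rw [pow_zero]
    exact gs_one D (by rw [zero_smul]; rfl)
  | succ n ih =>
    rw [pow_succ]
    refine ChevData.Supp.mul D ih h ?_
    rintro a rfl b rfl
    rw [succ_nsmul]
    rfl

/-- degree zero part of the powers of a sum -/
theorem gs_pow_split (c : I → ℤ) {X W : Matrix ι ι ℚ_[p]}
    (hX : D.Supp {μ | gsph c μ = 0} X) (hW : D.Supp {μ | 0 < gsph c μ} W) (n : ℕ) :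
    D.Supp {μ | gsph c μ = 0} (X ^ n) ∧ D.Supp {μ | 0 < gsph c μ} ((X + W) ^ n - X ^ n) := by
  induction n with
  | zero =>
    refine ⟨?_, ?_⟩
    · rw [pow_zero]
      exact gs_one D (gsph_zero c)
    · rw [pow_zero, pow_zero, sub_self]
      exact gs_zero D _
  | succ n ih =>
    obtain ⟨h1, h2⟩ := ih
    refine ⟨?_, ?_⟩
    · rw [pow_succ]
      refine ChevData.Supp.mul D h1 hX ?_
      intro a ha b hb
      simp only [Set.mem_ofPred_eq] at ha hb ⊢
      rw [gsph_add, ha, hb, add_zero]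
    · have e : (X + W) ^ (n + 1) - X ^ (n + 1) =
          ((X + W) ^ n - X ^ n) * X + (X ^ n * W + ((X + W) ^ n - X ^ n) * W) := by
        rw [pow_succ, pow_succ]
        noncomm_ring
      rw [e]
      refine ChevData.Supp.add D (ChevData.Supp.mul D h2 hX ?_)
        (ChevData.Supp.add D (ChevData.Supp.mul D h1 hW ?_) (ChevData.Supp.mul D h2 hW ?_))
      · intro a ha b hb
        simp only [Set.mem_ofPred_eq] at ha hb ⊢
        rw [gsph_add]; omega
      · intro a ha b hb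
        simp only [Set.mem_ofPred_eq] at ha hb ⊢
        rw [gsph_add]; omega
      · intro a ha b hb
        simp only [Set.mem_ofPred_eq] at ha hb ⊢
        rw [gsph_add]; omega

/-- the exponential of a sum -/
theorem gs_exU_split (c : I → ℤ) {X W : Matrix ι ι ℚ_[p]} (hXn : IsNilpotent X)
    (hXWn : IsNilpotent (X + W))
    (hX : D.Supp {μ | gsph c μ = 0} X) (hW : D.Supp {μ | 0 < gsph c μ} W) :
    D.Supp {μ | gsph c μ = 0} (((exU X : GLm p ι) : Matrix ι ι ℚ_[p]) - 1) ∧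
    D.Supp {μ | 0 < gsph c μ} (((exU (X + W) : GLm p ι) : Matrix ι ι ℚ_[p]) -
      ((exU X : GLm p ι) : Matrix ι ι ℚ_[p])) := by
  obtain ⟨n1, h1⟩ := hXn
  obtain ⟨n2, h2⟩ := hXWn
  have h3 : X ^ (n1 + n2) = 0 := by rw [pow_add, h1, zero_mul]
  have h4 : (X + W) ^ (n1 + n2) = 0 := by rw [pow_add, h2, mul_zero]
  rw [exU_sum h3, exU_sum h4]
  refine ⟨?_, ?_⟩
  · apply gs_sub
    · apply gs_sum
      intro m _
      exact gs_smul D _ (gs_pow_split D c hX hW m).1
    · exact gs_one D (gsph_zero c)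
  · rw [← Finset.sum_sub_distrib]
    apply gs_sum
    intro m _
    rw [← smul_sub]
    exact gs_smul D _ (gs_pow_split D c hX hW m).2

/-- the exponential of a nonzero matrix of one nonzero weight is not `1` -/
theorem gs_exU_ne {μ : I → ℤ} {X : Matrix ι ι ℚ_[p]} (h : D.Supp {μ} X) (hμ : μ ≠ 0)
    (hn : IsNilpotent X) (h0 : X ≠ 0) : (exU X : GLm p ι) ≠ 1 := by
  intro h1
  apply h0
  obtain ⟨n, hn⟩ := hn
  have hn2 : X ^ (n + 2) = 0 := by rw [pow_add, hn, zero_mul]
  have h2 := congrArg (fun g : GLm p ι => (g : Matrix ι ι ℚ_[p])) h1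
  simp only [Units.val_one] at h2
  rw [exU_sum hn2] at h2
  ext i j
  rw [Matrix.zero_apply]
  by_contra hij
  have hw := h i j hij
  rw [Set.mem_singleton_iff] at hw
  have hne : i ≠ j := by
    rintro rfl
    rw [sub_self] at hw
    exact hμ hw.symm
  have h3 := congrFun (congrFun h2 i) j
  rw [Matrix.one_apply_ne hne, Matrix.sum_apply, Finset.sum_eq_single 1] at h3
  · rw [Matrix.smul_apply, pow_one, Nat.factorial_one, Nat.cast_one, inv_one, one_smul] at h3
    exact hij h3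
  · intro m _ hm
    rw [Matrix.smul_apply]
    by_cases h4 : (X ^ m) i j = 0
    · rw [h4, smul_zero]
    · exfalso
      have h5 := gs_pow_single D h m i j h4
      rw [Set.mem_singleton_iff, hw] at h5
      apply hμ
      have h6 : ((m : ℤ) - 1) • μ = 0 := by
        rw [sub_smul, one_smul, natCast_zsmul, ← h5, sub_self]
      rcases smul_eq_zero.1 h6 with h7 | h7
      · exfalso; apply hm; omega
      · exact h7
  · intro h4
    exact absurd (Finset.mem_range.2 (by omega)) h4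

end gs1

/-! ======= TARGETS ======= -/

/-- TARGET.
Proof. `Z` is nilpotent (`nil_of_supp`). `e⁻¹ x_k(1) e ∈ Nb` (`NN_conj`) so `x_k(1) ∈ Sp e`. `exU Z ∈ Nb`, and `exU Z ∈ UMk k` (`hoff`, `exU_mem_US`: `Z` is supported in `{-γ}`), so `v = x_k(-1) exU Z x_k(1) ∈ Nb` (`Nbk_stable`); `exU Z x_k(1) = x_k(1) v`, `v = a q` (`PQ_decomp`), and goodness of `Rmax` (`rmax_good`) gives `q = 1`, `v ∈ Rmax`. `v = exU Z1`, `Z1 = cj (x_k(-1)) Z = ∑_j Z_j`, `Z_j = (-1)^j/j! (ad E_k)^j Z` (finite sum, `ad_sum`), `Z_j ∈ Lg`, supported in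
`{-γ + j • A k}`. `Z_1 ≠ 0` (`sl2_neg` with `d = γ k`). Let `q ≥ 1` be the largest index with `Z_q ≠ 0`, `Z' = Z_q`, `γ' = γ - q • A k`. `Pos γ'`: by `Lg_weights` `-γ'` is `0` or `Pos` or `γ'` is `Pos`; `γ = rt b` with `b l > 0` for some `l ≠ k` (`hoff`, `hγ`, `rt_inj`), the coefficient of `γ'` at `l` is `b l`, so it is `γ'`. `ht γ' = ht γ - q * ht (A k) < ht γ`. `exU Z' ≠ 1` (otherwise `Z' = 0`: look at the entries with weight `-γ'`).
Cocharacter `c` from `exists_cochar` for the coefficients of `γ'`: `∑ γ' c = 0`, `∑ A k c < 0`. Conjugation by `hc c (p^N)` multiplies `Z_j` by `p^(N e_j)`, `e_j = ∑ (-γ + j A k) c = -(q - j) ∑ A k c`, so `e_q = 0` and `e_j > 0` for `j < q`. So `hc v hc⁻¹ = exU (∑_j p^(N e_j) Z_j) → exU Z'`: on matrices `X` supported in `{μ | Pos (-μ)}` the map `X ↦ exU X` is continuous (`exU_sum` with the fixed bound `X^(card ι) = 0` and its inverse `exU (-X)`), or use `deg_limit` for `v` and identify the limit.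
So `exU Z' ∈ closure Rmax` (`rmax_conj`) and `rmax_closed` applies. -/
theorem good_step1 {e : GLm p ι} (he : e ∈ D.NN) {Xs : Subgroup (GLm p ι)}
    (hX : XsOK D Xs) {w : (I → ℤ) ≃ₗ[ℤ] (I → ℤ)} (hw : D.Rep e⁻¹ w) {γ : I → ℤ} (hγ : D.Pos γ)
    {Z : Matrix ι ι ℚ_[p]} (hZ : Z ∈ Lg D) (h0 : Z ≠ 0) (hz : D.Supp {-γ} Z)
    (hR : exU Z ∈ Rmax D e Xs) (k : I) (hk : 0 < γ k) (hoff : D.PosOff k γ)
    (hneg : D.Pos (-(w (D.A k)))) :
    ∃ γ' : I → ℤ, D.Pos γ' ∧ ht D γ' < ht D γ ∧ ∃ Z' ∈ Lg D, Z' ≠ 0 ∧ D.Supp {-γ'} Z' ∧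
      exU Z' ∈ Rmax D e Xs := by
  classical
  have heinv : e⁻¹ ∈ D.NN := inv_mem he
  have hs : D.x k 1 ∈ Sp D e := by
    refine ⟨x_mem_N D k 1, ?_⟩
    show e⁻¹ * D.x k 1 * e ∈ D.Nb
    have h1 := (NN_conj D heinv hw k 1).2.1 hneg
    rwa [inv_inv] at h1
  have hgood := rmax_good D e Xs
  have hPm := hgood.sub _ hR
  have hZn : IsNilpotent Z := by
    refine nil_of_supp D _ (conic_neg D.pos_conic) Z (gs_mono D hz ?_)
    rintro μ rfl
    show D.Pos (- -γ)
    rwa [neg_neg]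
  have hUMk : exU Z ∈ D.UMk k := by
    refine exU_mem_US D _ (conic_neg (D.posOff_conic k)) Z (gs_mono D hz ?_)
    rintro μ rfl
    show D.PosOff k (- -γ)
    rwa [neg_neg]
  obtain ⟨v, hv⟩ : ∃ v, v = D.x k (-1) * exU Z * (D.x k (-1))⁻¹ := ⟨_, rfl⟩
  have hvNb : v ∈ D.Nb := by
    rw [hv]
    exact Nbk_stable D k hPm.1 hUMk (x_mem_Hk D k (-1))
  have hxinv : D.x k (-1) = (D.x k 1)⁻¹ := x_neg D k 1
  have hvR : v ∈ Rmax D e Xs := by
    obtain ⟨a, ha, q', hq', hvaq⟩ := PQ_decomp D he v hvNb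
    have hB : D.x k 1 ∈ D.B := (le_sup_right : D.N ≤ D.T ⊔ D.N) (x_mem_N D k 1)
    have htest := hgood.test _ hR _ hs (D.x k 1) hB a ha q' hq' (by
      rw [mul_assoc, ← hvaq, hv, hxinv]; group)
    rw [hvaq, htest.1, mul_one]
    exact htest.2.1
  -- the expansion
  obtain ⟨A', hA'⟩ : ∃ A' : Matrix ι ι ℚ_[p], A' = (-1 : ℚ_[p]) • D.E k := ⟨_, rfl⟩
  obtain ⟨M, hM1, hM2⟩ := ad_sum (tE_nil D k (-1)) Z
  rw [← hA'] at hM1 hM2
  obtain ⟨Y, hY⟩ : ∃ Y : ℕ → Matrix ι ι ℚ_[p], Y = fun m => (fun Z => A' * Z - Z * A')^[m] Z :=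
    ⟨_, rfl⟩
  have hYm : ∀ m, (fun Z => A' * Z - Z * A')^[m] Z = Y m := fun m => by rw [hY]
  have hY0 : Y 0 = Z := by rw [hY]; rfl
  have hYs : ∀ m, Y (m + 1) = A' * Y m - Y m * A' := by
    intro m
    rw [hY]
    exact Function.iterate_succ_apply' _ _ _
  have hYL : ∀ m, Y m ∈ Lg D := by
    intro m
    induction m with
    | zero => rw [hY0]; exact hZ
    | succ m ih =>
      rw [hYs]
      refine Lg_br D ?_ ih
      rw [hA']
      exact Submodule.smul_mem _ _ (Lg_E D k)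
  have hAS : D.Supp {D.A k} A' := by rw [hA']; exact gs_smul D _ (gs_E D k)
  have hYS : ∀ m : ℕ, D.Supp {-γ + m • D.A k} (Y m) := by
    intro m
    induction m with
    | zero =>
      rw [hY0, zero_smul, add_zero]
      exact hz
    | succ m ih =>
      rw [hYs]
      apply gs_sub
      · refine ChevData.Supp.mul D hAS ih ?_
        rintro a rfl b rfl
        rw [succ_nsmul, Set.mem_singleton_iff]
        abel
      · refine ChevData.Supp.mul D ih hAS ?_
        rintro a rfl b rfl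
        rw [succ_nsmul, Set.mem_singleton_iff]
        abel
  have hY1 : Y 1 ≠ 0 := by
    have h1 := sl2_neg D k h0 (γ k) hk (by
      intro i j hij
      have h2 := hz i j hij
      rw [Set.mem_singleton_iff] at h2
      rw [h2, Pi.neg_apply])
    intro h2
    apply h1
    have h3 := hYs 0
    rw [zero_add, h2, hY0, hA', smul_mul_assoc, mul_smul_comm, ← smul_sub] at h3
    rcases smul_eq_zero.1 h3.symm with h4 | h4
    · exfalso
      norm_num at h4
    · exact h4
  have hYM : Y M = 0 := by rw [hY]; exact hM1 M le_rfl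
  obtain ⟨q, hq1, hqne, hqz⟩ : ∃ q, 1 ≤ q ∧ Y q ≠ 0 ∧ ∀ m, q < m → Y m = 0 := by
    have hex : ∃ m, Y m = 0 := ⟨M, hYM⟩
    have h1 := Nat.find_spec hex
    have h2 : ∀ m, m < Nat.find hex → Y m ≠ 0 := fun m hm => Nat.find_min hex hm
    generalize Nat.find hex = m0 at h1 h2
    have h3 : m0 ≠ 0 := by
      rintro rfl
      exact h0 (by rw [← hY0, h1])
    have h4 : m0 ≠ 1 := by
      rintro rfl
      exact hY1 h1
    refine ⟨m0 - 1, by omega, h2 _ (by omega), ?_⟩
    intro m hm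
    obtain ⟨d, rfl⟩ : ∃ d, m = m0 + d := ⟨m - m0, by omega⟩
    clear hm
    induction d with
    | zero => exact h1
    | succ d ih => rw [← add_assoc, hYs, ih, mul_zero, zero_mul, sub_zero]
  obtain ⟨Z', hZ'⟩ : ∃ Z' : Matrix ι ι ℚ_[p], Z' = ((q.factorial : ℚ_[p])⁻¹) • Y q := ⟨_, rfl⟩
  obtain ⟨W, hW⟩ : ∃ W : Matrix ι ι ℚ_[p],
    W = ∑ m ∈ Finset.range q, ((m.factorial : ℚ_[p])⁻¹) • Y m := ⟨_, rfl⟩
  have hv2 : v = exU (Z' + W) := by
    rw [hv, exU_conj _ hZn]
    congr 1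
    have h1 : D.x k (-1) = exU A' := by rw [hA']; rfl
    rw [h1, hM2 (M + (q + 1)) (by omega), add_comm Z' W, hW, hZ', ← Finset.sum_range_succ]
    symm
    apply Finset.sum_subset_zero_on_sdiff
    · intro m hm
      rw [Finset.mem_range] at hm ⊢
      omega
    · intro m hm
      rw [Finset.mem_sdiff, Finset.mem_range, Finset.mem_range] at hm
      have h2 := hqz m (by omega)
      rw [← hYm m] at h2
      rw [h2, smul_zero]
    · intro m _
      rw [hY]
  have hZ'ne : Z' ≠ 0 := by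
    rw [hZ']
    apply smul_ne_zero _ hqne
    rw [Ne, inv_eq_zero, Nat.cast_eq_zero]
    exact Nat.factorial_ne_zero q
  have hZ'L : Z' ∈ Lg D := by rw [hZ']; exact Submodule.smul_mem _ _ (hYL q)
  obtain ⟨γ', hγ'⟩ : ∃ γ' : I → ℤ, γ' = γ - q • D.A k := ⟨_, rfl⟩
  have hγ'n : -γ' = -γ + q • D.A k := by rw [hγ']; abel
  have hZ'S : D.Supp {-γ'} Z' := by
    rw [hγ'n, hZ']
    exact gs_smul D _ (hYS q)
  obtain ⟨b, hb0, ⟨l, hlk, hbl⟩, hγb⟩ := hoff
  have hbl' : 0 < b l := lt_of_le_of_ne (hb0 l hlk) (Ne.symm hbl)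
  obtain ⟨b', hb'⟩ : ∃ b' : I → ℤ, b' = b - q • Pi.single k 1 := ⟨_, rfl⟩
  have hb'l : b' l = b l := by
    rw [hb', Pi.sub_apply, Pi.smul_apply, Pi.single_eq_of_ne hlk, smul_zero, sub_zero]
  have hγ'b : γ' = D.rt b' := by
    have h1 : D.rt b' + D.rt (q • Pi.single k 1) = D.rt b := by
      rw [← D.rt_add, hb', sub_add_cancel]
    have h2 : D.rt (q • (Pi.single k 1 : I → ℤ)) = q • D.A k := by
      rw [← D.rt_single]
      unfold ChevData.rt
      rw [Matrix.smul_vecMul]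
    rw [hγ', hγb, ← h1, h2, add_sub_cancel_right]
  have hPos' : D.Pos γ' := by
    rcases Lg_weights D hZ'L (-γ') hZ'S hZ'ne with h1 | h1 | h1
    · exfalso
      rw [neg_eq_zero, hγ'b] at h1
      have h2 := congrFun (D.rt_inj h1) l
      rw [hb'l, Pi.zero_apply] at h2
      omega
    · exfalso
      obtain ⟨d, hd0, _, hd⟩ := h1
      rw [hγ'b] at hd
      have h2 : D.rt (d + b') = 0 := by rw [D.rt_add, ← hd, neg_add_cancel]
      have h3 := congrFun (D.rt_inj h2) l
      rw [Pi.add_apply, hb'l, Pi.zero_apply] at h3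
      have h4 := hd0 l
      omega
    · rwa [neg_neg] at h1
  have hγ'0 : -γ' ≠ 0 := by
    intro h1
    rw [neg_eq_zero] at h1
    rw [h1] at hPos'
    exact D.pos_conic.zero hPos'
  have hht : ht D γ' < ht D γ := by
    rw [hγ', ht_sub]
    have := ht_pos D (pos_smul D k q hq1)
    omega
  have hZ'n : IsNilpotent Z' := by
    refine nil_of_supp D _ (conic_neg D.pos_conic) Z' (gs_mono D hZ'S ?_)
    rintro μ rfl
    show D.Pos (- -γ')
    rwa [neg_neg]
  refine ⟨γ', hPos', hht, Z', hZ'L, hZ'ne, hZ'S, ?_⟩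
  apply rmax_closed D he hX ?_ (gs_exU_ne D hZ'S hγ'0 hZ'n hZ'ne)
  obtain ⟨c, hc1, hc2⟩ := exists_cochar D b' k ⟨l, hlk, by rw [hb'l]; exact hbl⟩
  have hcγ' : gsph c γ' = 0 := by
    unfold gsph
    rw [← hc1, hγ'b]
    exact Finset.sum_congr rfl fun j _ => mul_comm _ _
  have hcA : gsph c (D.A k) < 0 := by
    unfold gsph
    refine lt_of_eq_of_lt ?_ hc2
    exact Finset.sum_congr rfl fun j _ => mul_comm _ _
  have hZ'0 : D.Supp {μ | gsph c μ = 0} Z' := by
    refine gs_mono D hZ'S ?_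
    rintro μ rfl
    show gsph c (-γ') = 0
    rw [gsph_neg, hcγ', neg_zero]
  have hWp : D.Supp {μ | 0 < gsph c μ} W := by
    rw [hW]
    apply gs_sum
    intro m hm
    rw [Finset.mem_range] at hm
    refine gs_smul D _ (gs_mono D (hYS m) ?_)
    rintro μ rfl
    show 0 < gsph c (-γ + m • D.A k)
    have h1 : -γ + m • D.A k = -γ' + m • D.A k - q • D.A k := by rw [hγ'n]; abel
    rw [h1, gsph_sub, gsph_add, gsph_neg, hcγ', gsph_nsmul, gsph_nsmul, neg_zero, zero_add,
      ← sub_mul]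
    have h2 : (m : ℤ) - q < 0 := by omega
    nlinarith
  have hsumn : IsNilpotent (Z' + W) := by
    have h1 : D.x k (-1) = exU A' := by rw [hA']; rfl
    have h3 : ((exU A' : GLm p ι) : Matrix ι ι ℚ_[p]) * Z *
        (((exU A' : GLm p ι)⁻¹ : GLm p ι) : Matrix ι ι ℚ_[p]) = Z' + W := by
      rw [hM2 (M + (q + 1)) (by omega), add_comm Z' W, hW, hZ', ← Finset.sum_range_succ]
      symm
      apply Finset.sum_subset_zero_on_sdiff
      · intro m hm
        rw [Finset.mem_range] at hm ⊢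
        omega
      · intro m hm
        rw [Finset.mem_sdiff, Finset.mem_range, Finset.mem_range] at hm
        have h2 := hqz m (by omega)
        rw [← hYm m] at h2
        rw [h2, smul_zero]
      · intro m _
        rw [hY]
    obtain ⟨n, hn⟩ := hZn
    refine ⟨n, ?_⟩
    rw [← h3, Units.conj_pow, hn, mul_zero, zero_mul]
  obtain ⟨s1, s2⟩ := gs_exU_split D c hZ'n hsumn hZ'0 hWp
  rw [← hv2] at s2
  have hsub : ((v : GLm p ι) : Matrix ι ι ℚ_[p]) - 1 =
      (((v : GLm p ι) : Matrix ι ι ℚ_[p]) - ((exU Z' : GLm p ι) : Matrix ι ι ℚ_[p])) +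
      (((exU Z' : GLm p ι) : Matrix ι ι ℚ_[p]) - 1) := by abel
  obtain ⟨r', hr1, hr2⟩ := deg_limit D (Nb_le_UM D hvNb) c (by
    intro i j hij
    by_contra hneg2
    apply hij
    rw [hsub, Matrix.add_apply]
    have e1 : (((v : GLm p ι) : Matrix ι ι ℚ_[p]) - ((exU Z' : GLm p ι) : Matrix ι ι ℚ_[p])) i j
        = 0 := by
      by_contra h1
      have h2 := s2 i j h1
      apply hneg2
      exact (show (0 : ℤ) < gsph c (D.wt i - D.wt j) from h2).le
    have e2 : (((exU Z' : GLm p ι) : Matrix ι ι ℚ_[p]) - 1) i j = 0 := by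
      by_contra h1
      have h2 := s1 i j h1
      apply hneg2
      exact (show gsph c (D.wt i - D.wt j) = 0 from h2).ge
    rw [e1, e2, add_zero])
  have hr' : r' = exU Z' := by
    apply Units.ext
    ext i j
    have h1 := hr1 i j
    rw [hsub, Matrix.add_apply] at h1
    have h3 : ((r' : Matrix ι ι ℚ_[p]) - 1) i j =
        (((exU Z' : GLm p ι) : Matrix ι ι ℚ_[p]) - 1) i j := by
      rw [h1]
      split_ifs with h2
      · have e1 : (((v : GLm p ι) : Matrix ι ι ℚ_[p]) -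
            ((exU Z' : GLm p ι) : Matrix ι ι ℚ_[p])) i j = 0 := by
          by_contra h4
          have h5 := s2 i j h4
          have h6 : (0 : ℤ) < gsph c (D.wt i - D.wt j) := h5
          unfold gsph at h6
          omega
        rw [e1, zero_add]
      · symm
        by_contra h4
        exact h2 (s1 i j h4)
    rw [Matrix.sub_apply, Matrix.sub_apply] at h3
    exact sub_left_injective h3
  rw [← hr']
  refine mem_closure_of_tendsto hr2 (Filter.Eventually.of_forall fun N => ?_)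
  exact rmax_conj D he hX _ hvR

end Pool.Agent.Chev
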