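import Mathlib
import Pool.Agent.Helper911_Chev.Defs3
import Pool.Agent.Helper911_Chev.CA1
import Pool.Agent.Helper911_Chev.CA2
import Pool.Agent.Helper911_Chev.CA3
import Pool.Agent.Helper911_Chev.CH0
import Pool.Agent.Helper911_Chev.CD1
import Pool.Agent.Helper911_Chev.CB1
import Pool.Agent.Helper911_Chev.CB4
import Pool.Agent.Helper911_Chev.CB2
import Pool.Agent.Helper911_Chev.CB3
import Pool.Agent.Helper911_Chev.CW1
import Pool.Agent.Helper911_Chev.CW2
import Pool.Agent.Helper911_Chev.CC1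
import Pool.Agent.Helper911_Chev.CC2
import Pool.Agent.Helper911_Chev.DP1

set_option autoImplicit false
set_option linter.unusedSectionVars false
set_option maxHeartbeats 1000000

noncomputable section

open Matrix Topology

namespace Pool.Agent.Chev

open ChevData

variable {p : ℕ} [Fact p.Prime] {I ι : Type} [Fintype I] [DecidableEq I] [Fintype ι]
  [DecidableEq ι] (D : ChevData p I ι)

/-! ======= TARGETS ======= -/

theorem w5_cj_inv (g : GLm p ι) (X : Matrix ι ι ℚ_[p]) : cj g⁻¹ (cj g X) = X := by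
  rw [← cj_mul, inv_mul_cancel, cj_one]

theorem w5_cj_inv' (g : GLm p ι) (X : Matrix ι ι ℚ_[p]) : cj g (cj g⁻¹ X) = X := by
  rw [← cj_mul, mul_inv_cancel, cj_one]

theorem w5_ht_smul (m : ℤ) (μ : I → ℤ) : ht D (m • μ) = m * ht D μ := by
  unfold ht
  rw [Finset.mul_sum]
  refine Finset.sum_congr rfl fun k _ => ?_
  rw [Pi.smul_apply, smul_eq_mul, mul_assoc]

theorem w5_rt_smul (m : ℤ) (c : I → ℤ) : D.rt (m • c) = m • D.rt c := by
  unfold ChevData.rt
  exact Matrix.smul_vecMul m c D.A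

theorem w5_rep_n (k : I) : D.Rep (D.n k) (D.s k) := by
  have := nt_rep D k 1
  rwa [nt_one] at this

theorem w5_root (n : ℕ) : ∀ (S : Matrix ι ι ℚ_[p]), S ∈ Lg D → S ≠ 0 → ∀ β : I → ℤ,
    D.Pos β → D.Supp {β} S → (ht D β).toNat = n →
    ∃ m ∈ D.NN, ∃ w ∈ D.W, D.Rep m w ∧ ∃ k, w (D.A k) = β ∧
      ∀ X ∈ Lg D, D.Supp {β} X → ∃ c : ℚ_[p], X = c • cj m (D.E k) := by
  induction n using Nat.strong_induction_on with
  | _ n ih =>
  intro S hS h0 β hβ hs hn
  obtain ⟨b, hb, hb0, hbe⟩ := hβ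
  obtain ⟨k, hbk, hβk⟩ := exists_k D hb hb0
  rw [← hbe] at hβk
  by_cases hcase : ∀ l, l ≠ k → b l = 0
  · have hbs : b = b k • (Pi.single k 1 : I → ℤ) := by
      funext l
      rw [Pi.smul_apply, smul_eq_mul]
      by_cases hl : l = k
      · rw [hl, Pi.single_eq_same, mul_one]
      · rw [hcase l hl, Pi.single_eq_of_ne hl, mul_zero]
    obtain ⟨m, hm⟩ := Int.eq_ofNat_of_zero_le (hb k)
    have hβ2 : β = m • D.A k := by
      rw [hbe, hbs, w5_rt_smul, D.rt_single, hm]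
      exact natCast_zsmul _ _
    have hm1 : m = 1 := by
      by_contra hne
      have hm2 : 2 ≤ m := by omega
      rw [hβ2] at hs
      exact h0 (Lg_multiple D hS k m hm2 hs)
    rw [hm1, one_smul] at hβ2
    refine ⟨1, one_mem _, 1, one_mem _, rep_one D, k, ?_, ?_⟩
    · rw [hβ2]
      rfl
    · intro X hX hXs
      rw [hβ2] at hXs
      obtain ⟨c, hc⟩ := Lg_simple D hX k hXs
      exact ⟨c, by rw [cj_one]; exact hc⟩
  · push Not at hcase
    obtain ⟨l, hl, hbl⟩ := hcase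
    have hS' : cj (D.n k) S ∈ Lg D := Lg_cj_NN D hS (n_mem_NN D k)
    have h0' : cj (D.n k) S ≠ 0 := by
      intro h
      apply h0
      rw [← w5_cj_inv (D.n k) S, h]
      unfold cj
      simp
    have hsupp : ∀ X : Matrix ι ι ℚ_[p], D.Supp {β} X → D.Supp {D.s k β} (cj (D.n k) X) := by
      intro X hX
      have := supp_cj D (w5_rep_n D k) hX
      rwa [Set.image_singleton] at this
    have hrt : D.s k β = D.rt (b - β k • (Pi.single k 1 : I → ℤ)) := by
      rw [sub_eq_add_neg, D.rt_add, D.rt_neg, w5_rt_smul, D.rt_single, ← hbe,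
        ← sub_eq_add_neg, D.s_apply]
    have hbl' : (b - β k • (Pi.single k 1 : I → ℤ)) l = b l := by
      rw [Pi.sub_apply, Pi.smul_apply, Pi.single_eq_of_ne hl, smul_zero, sub_zero]
    have hpos : D.Pos (D.s k β) := by
      rcases Lg_weights D hS' (D.s k β) (hsupp S hs) h0' with h | h | h
      · exfalso
        rw [hrt] at h
        have h2 := congrFun (D.rt_inj h) l
        rw [hbl'] at h2
        exact hbl h2
      · exact h
      · exfalso
        obtain ⟨c, hc, -, hce⟩ := h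
        rw [hrt] at hce
        have h2 : D.rt ((b - β k • (Pi.single k 1 : I → ℤ)) + c) = 0 := by
          rw [D.rt_add, ← hce, add_neg_cancel]
        have h3 := congrFun (D.rt_inj h2) l
        rw [Pi.add_apply, hbl'] at h3
        have h4 := hc l
        have h5 := hb l
        rw [Pi.zero_apply] at h3
        omega
    have hlt : (ht D (D.s k β)).toNat < n := by
      rw [← hn]
      have h1 := ht_pos D (⟨b, hb, hb0, hbe⟩ : D.Pos β)
      have h2 : ht D (D.s k β) = ht D β - β k * ht D (D.A k) := by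
        rw [D.s_apply, ht_sub, w5_ht_smul]
      have h3 := ht_A_pos D k
      have h4 : 0 < β k * ht D (D.A k) := mul_pos hβk h3
      have h5 := ht_pos D hpos
      omega
    obtain ⟨m', hm', w', hw', hrep', k', hk', hcl⟩ :=
      ih _ hlt (cj (D.n k) S) hS' h0' (D.s k β) hpos (hsupp S hs) rfl
    refine ⟨(D.n k)⁻¹ * m', mul_mem (inv_mem (n_mem_NN D k)) hm', (D.s k)⁻¹ * w',
      mul_mem (inv_mem (Subgroup.subset_closure ⟨k, rfl⟩)) hw',
      rep_mul D (rep_inv D (w5_rep_n D k)) hrep', k', ?_, ?_⟩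
    · rw [LinearEquiv.mul_apply, hk']
      exact (D.s k).symm_apply_apply β
    · intro X hX hXs
      obtain ⟨c, hc⟩ := hcl (cj (D.n k) X) (Lg_cj_NN D hX (n_mem_NN D k)) (hsupp X hXs)
      refine ⟨c, ?_⟩
      rw [cj_mul, ← cj_smul, ← hc, w5_cj_inv]

/-- TARGET.
Proof. Strong induction on `ht β > 0` (`ht_pos`), for all `S`. `β = rt b`, `b ≥ 0`, `b ≠ 0`. `exists_k`: `k` with `0 < b k`, `0 < β k`. Case 1: `b l = 0` for all `l ≠ k`: `β = b k • A k`; `b k = 1` (otherwise `S = 0` by `Lg_multiple`), `β = A k`: take `m = 1`, `w = 1` and use `Lg_simple`. Case 2: `b l ≠ 0` for some `l ≠ k`. Let `S' = cj (n k) S ∈ Lg` (`Lg_cj_NN`, `n_mem_NN`), nonzero, supported in `{s k β}` (`supp_cj`, `nt_rep`, `nt_one`). `s k β = β - β k • A k = rt (b - β k • single k 1)`.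
By `Lg_weights` `s k β` is `0`, `Pos` or its negative is `Pos`; since its coefficient at `l` is `b l > 0` (`rt_inj`), it is `Pos`. `ht (s k β) = ht β - β k * ht (A k) < ht β`. By induction `m', w', k'` for `s k β`; take `m = (n k)⁻¹ * m'`, `w = s k * w'` (`s k` is an involution; `rep_inv`), `k'`; for `X` with `Supp {β} X` apply the last clause to `cj (n k) X` and `cj_mul`. -/
theorem Lg_root {S : Matrix ι ι ℚ_[p]} (hS : S ∈ Lg D) (h0 : S ≠ 0) {β : I → ℤ}
    (hβ : D.Pos β) (hs : D.Supp {β} S) :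
    ∃ m ∈ D.NN, ∃ w ∈ D.W, D.Rep m w ∧ ∃ k, w (D.A k) = β ∧
      ∀ X ∈ Lg D, D.Supp {β} X → ∃ c : ℚ_[p], X = c • cj m (D.E k) := w5_root D _ S hS h0 β hβ hs rfl

/-- TARGET.
Proof. `Lg_root` for `D.dual` (`dual_Lg`, `dual_pos`, `dual_supp`, `dual_NN`, `dual_W`, `dual_rep`; `D.dual.E = D.F`, `D.dual.A = D.A`) gives everything but the last clause; for the last clause: `cj m⁻¹ X ∈ Lg` is supported in `{w⁻¹ β} = {A k}` (`supp_cj`, `rep_inv`), so it is `c • E k` (`Lg_simple`). -/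
theorem Lg_root_neg {S : Matrix ι ι ℚ_[p]} (hS : S ∈ Lg D) (h0 : S ≠ 0) {β : I → ℤ}
    (hβ : D.Pos β) (hs : D.Supp {-β} S) :
    ∃ m ∈ D.NN, ∃ w ∈ D.W, D.Rep m w ∧ ∃ k, w (D.A k) = β ∧
      (∀ X ∈ Lg D, D.Supp {-β} X → ∃ c : ℚ_[p], X = c • cj m (D.F k)) ∧
      (∀ X ∈ Lg D, D.Supp {β} X → ∃ c : ℚ_[p], X = c • cj m (D.E k)) := by
  have hset : ∀ X : Matrix ι ι ℚ_[p], D.dual.Supp {β} X ↔ D.Supp {-β} X := by
    intro X
    rw [dual_supp]
    have : {μ : I → ℤ | -μ ∈ ({β} : Set (I → ℤ))} = {-β} := by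
      ext μ
      rw [Set.mem_setOf_eq, Set.mem_singleton_iff, Set.mem_singleton_iff, neg_eq_iff_eq_neg]
    rw [this]
  obtain ⟨m, hm, w, hw, hrep, k, hk, hcl⟩ := Lg_root D.dual (S := S)
    (by rw [dual_Lg]; exact hS) h0 ((dual_pos D β).2 hβ) ((hset S).2 hs)
  rw [dual_NN] at hm
  rw [dual_W] at hw
  rw [dual_rep] at hrep
  have hk2 : w (D.A k) = β := hk
  refine ⟨m, hm, w, hw, hrep, k, hk2, ?_, ?_⟩
  · intro X hX hXs
    exact hcl X (by rw [dual_Lg]; exact hX) ((hset X).2 hXs)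
  · intro X hX hXs
    have h1 : cj m⁻¹ X ∈ Lg D := Lg_cj_NN D hX (inv_mem hm)
    have h2 : D.Supp {D.A k} (cj m⁻¹ X) := by
      have h3 := supp_cj D (rep_inv D hrep) hXs
      rw [Set.image_singleton] at h3
      have h4 : w⁻¹ β = D.A k := by
        rw [← hk2]
        exact w.symm_apply_apply _
      rwa [h4] at h3
    obtain ⟨c, hc⟩ := Lg_simple D h1 k h2
    refine ⟨c, ?_⟩
    rw [← cj_smul, ← hc, w5_cj_inv']

end Pool.Agent.Chev
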