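import Mathlib
import Pool.Agent.Helper911_Chev.Defs3
import Pool.Agent.Helper911_Chev.CA1
import Pool.Agent.Helper911_Chev.CA2
import Pool.Agent.Helper911_Chev.CA3
import Pool.Agent.Helper911_Chev.CA4
import Pool.Agent.Helper911_Chev.CB1
import Pool.Agent.Helper911_Chev.CB2
import Pool.Agent.Helper911_Chev.CB3
import Pool.Agent.Helper911_Chev.CB4
import Pool.Agent.Helper911_Chev.CW1
import Pool.Agent.Helper911_Chev.CW2
import Pool.Agent.Helper911_Chev.CC1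
import Pool.Agent.Helper911_Chev.CC2
import Pool.Agent.Helper911_Chev.CE1
import Pool.Agent.Helper911_Chev.DS1
import Pool.Agent.Helper911_Chev.DS3
import Pool.Agent.Helper911_Chev.CH1
import Pool.Agent.Helper911_Chev.CH8
import Pool.Agent.Helper911_Chev.CH9
import Pool.Agent.Helper911_Chev.CH3
import Pool.Agent.Helper911_Chev.DR2
import Pool.Agent.Helper911_Chev.CF1
import Pool.Agent.Helper911_Chev.DL1
import Pool.Agent.Helper911_Chev.DL3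
import Pool.Agent.Helper911_Chev.CH12

set_option autoImplicit false
set_option linter.unusedSectionVars false
set_option maxHeartbeats 1000000

noncomputable section

open Matrix Topology

namespace Pool.Agent.Chev

open ChevData

variable {p : ℕ} [Fact p.Prime] {I ι : Type} [Fintype I] [DecidableEq I] [Fintype ι]
  [DecidableEq ι] (D : ChevData p I ι)

/-! ======= TARGETS ======= -/

/-- `β = γ - A k` is positive. -/
theorem good_step2_beta {γ : I → ℤ} {S : Matrix ι ι ℚ_[p]} (hS : S ∈ Lg D) (hS0 : S ≠ 0) (k : I)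
    (hs : D.Supp {γ - D.A k} S) (hoff : D.PosOff k γ) : D.Pos (γ - D.A k) := by
  obtain ⟨c, hc, ⟨l, hl, hcl⟩, hγc⟩ := hoff
  have hcl' : 0 < c l := lt_of_le_of_ne (hc l hl) (Ne.symm hcl)
  have hβ : γ - D.A k = D.rt (c + -(Pi.single k 1)) := by
    rw [D.rt_add, D.rt_neg, D.rt_single, ← hγc, sub_eq_add_neg]
  rcases Lg_weights D hS (γ - D.A k) hs hS0 with h | h | h
  · exfalso
    rw [hβ] at h
    have h1 := congrFun (D.rt_inj h) l
    simp [Pi.single_eq_of_ne hl] at h1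
    omega
  · exact h
  · exfalso
    obtain ⟨d, hd, -, hd2⟩ := h
    have h1 : D.rt (d + (c + -(Pi.single k 1))) = 0 := by
      rw [D.rt_add, ← hd2, ← hβ]; abel
    have h2 := congrFun (D.rt_inj h1) l
    simp [Pi.single_eq_of_ne hl] at h2
    have := hd l
    omega

theorem good_step2_not_pos_neg {μ : I → ℤ} (h1 : D.Pos μ) (h2 : D.Pos (-μ)) : False := by
  have := (D.pos_conic).add μ h1 (-μ) h2
  rw [add_neg_cancel] at this
  exact (D.pos_conic).zero this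

theorem good_step2_ne_zero {μ : I → ℤ} (h1 : D.Pos μ) : μ ≠ 0 := by
  rintro rfl
  exact (D.pos_conic).zero h1

theorem good_step2_nilneg {γ : I → ℤ} (hγ : D.Pos γ)
    {Z : Matrix ι ι ℚ_[p]} (hz : D.Supp {-γ} Z) : IsNilpotent Z := by
  refine nil_of_supp D {μ | -μ ∈ {μ | D.Pos μ}} (conic_neg D.pos_conic) Z ?_
  intro i j hij
  have := hz i j hij
  rw [Set.mem_singleton_iff] at this
  show D.Pos (-(D.wt i - D.wt j))
  rw [this, neg_neg]; exact hγ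

theorem good_step2_nilpos {γ : I → ℤ} (hγ : D.Pos γ)
    {Z : Matrix ι ι ℚ_[p]} (hz : D.Supp {γ} Z) : IsNilpotent Z := by
  refine nil_of_supp D {μ | D.Pos μ} D.pos_conic Z ?_
  intro i j hij
  have := hz i j hij
  rw [Set.mem_singleton_iff] at this
  show D.Pos (D.wt i - D.wt j)
  rw [this]; exact hγ

/-- Step (1). -/
theorem good_step2_one {e : GLm p ι} (he : e ∈ D.NN)
    {w : (I → ℤ) ≃ₗ[ℤ] (I → ℤ)} (hw : D.Rep e⁻¹ w) {γ : I → ℤ} (hγ : D.Pos γ)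
    {Z : Matrix ι ι ℚ_[p]} (hZ : Z ∈ Lg D) (h0 : Z ≠ 0) (hz : D.Supp {-γ} Z)
    (hP : exU Z ∈ Pm D e) : D.Pos (-(w γ)) := by
  obtain ⟨m, hm, v, hv, hmv, l, hl, hF, -⟩ := Lg_root_neg D hZ h0 hγ hz
  obtain ⟨c, hc⟩ := hF Z hZ hz
  have hc0 : c ≠ 0 := by
    rintro rfl
    rw [zero_smul] at hc
    exact h0 hc
  have hn : (exU Z : GLm p ι) = m * D.y l c * m⁻¹ := by
    show _ = m * exU (c • D.F l) * m⁻¹
    rw [exU_conj m (tF_nil D l c)]
    rw [hc]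
    congr 1
    show c • ((m : Matrix ι ι ℚ_[p]) * D.F l * ((m⁻¹ : GLm p ι) : Matrix ι ι ℚ_[p])) = _
    rw [Matrix.mul_smul, Matrix.smul_mul]
  have hwW : w ∈ D.W := NN_rep_mem D (inv_mem he) hw
  have hmem : e⁻¹ * m ∈ D.NN := mul_mem (inv_mem he) hm
  have hrep : D.Rep (e⁻¹ * m) (w * v) := rep_mul D hw hmv
  have hval : (w * v) (D.A l) = w γ := by
    show w (v (D.A l)) = w γ
    rw [hl]
  rcases weyl_sign D (mul_mem hwW hv) l with h | h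
  · exfalso
    have h3 := (NN_conj D hmem hrep l c).2.2.1 h
    have h4 : e⁻¹ * exU Z * e ∈ D.N := hP.2
    have h5 : e⁻¹ * exU Z * e = e⁻¹ * m * D.y l c * (e⁻¹ * m)⁻¹ := by
      rw [hn]; group
    rw [h5] at h4
    have h6 := N_inter_Nb D h4 h3
    have h7 : D.y l c = 1 := by
      have : D.y l c = (e⁻¹ * m)⁻¹ * (e⁻¹ * m * D.y l c * (e⁻¹ * m)⁻¹) * (e⁻¹ * m) := by group
      rw [this, h6]; group
    exact hc0 (y_inj D l h7)
  · rwa [hval] at h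

/-- Step (2). -/
theorem good_step2_two {e : GLm p ι} (he : e ∈ D.NN)
    {w : (I → ℤ) ≃ₗ[ℤ] (I → ℤ)} (hw : D.Rep e⁻¹ w) {γ : I → ℤ}
    (h1 : D.Pos (-(w γ))) (k : I) (hpos : D.Pos (w (D.A k)))
    {S : Matrix ι ι ℚ_[p]} (hS : S ∈ Lg D) (hS0 : S ≠ 0) (hs : D.Supp {γ - D.A k} S)
    (hβ : D.Pos (γ - D.A k)) (t : ℚ_[p]) : exU (t • S) ∈ Sp D e := by
  obtain ⟨m, hm, v, hv, hmv, l, hl, hE⟩ := Lg_root D hS hS0 hβ hs
  obtain ⟨c, hc⟩ := hE S hS hs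
  have hn : (exU (t • S) : GLm p ι) = m * D.x l (t * c) * m⁻¹ := by
    show _ = m * exU ((t * c) • D.E l) * m⁻¹
    rw [exU_conj m (tE_nil D l (t * c))]
    rw [hc, smul_smul]
    congr 1
    show (t * c) • ((m : Matrix ι ι ℚ_[p]) * D.E l * ((m⁻¹ : GLm p ι) : Matrix ι ι ℚ_[p])) = _
    rw [Matrix.mul_smul, Matrix.smul_mul]
  have hmem : e⁻¹ * m ∈ D.NN := mul_mem (inv_mem he) hm
  have hrep : D.Rep (e⁻¹ * m) (w * v) := rep_mul D hw hmv
  have hval : -((w * v) (D.A l)) = -(w γ) + w (D.A k) := by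
    show -(w (v (D.A l))) = _
    rw [hl, map_sub]; abel
  have hpp : D.Pos (-((w * v) (D.A l))) := by
    rw [hval]
    exact (D.pos_conic).add _ h1 _ hpos
  refine ⟨?_, ?_⟩
  · show exU (t • S) ∈ D.N
    rw [hn]
    refine (NN_conj D hm hmv l (t * c)).1 ?_
    rw [hl]; exact hβ
  · show e⁻¹ * exU (t • S) * e ∈ D.Nb
    have h5 : e⁻¹ * exU (t • S) * e = e⁻¹ * m * D.x l (t * c) * (e⁻¹ * m)⁻¹ := by
      rw [hn]; group
    rw [h5]
    exact (NN_conj D hmem hrep l (t * c)).2.1 hpp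

theorem good_step2_supp_br {γ μ : I → ℤ} {Z Y : Matrix ι ι ℚ_[p]} (hz : D.Supp {-γ} Z)
    (hy : D.Supp {μ} Y) : D.Supp {μ - γ} (Z * Y - Y * Z) := by
  intro i j hij
  rw [Matrix.sub_apply] at hij
  by_cases h : (Z * Y) i j = 0
  · have h' : (Y * Z) i j ≠ 0 := by
      intro h'; rw [h, h', sub_zero] at hij; exact hij rfl
    exact Supp.mul D (S := {μ}) (T := {-γ}) (U := {μ - γ}) hy hz
      (by rintro a rfl b rfl; rw [Set.mem_singleton_iff]; abel) i j h'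
  · exact Supp.mul D (S := {-γ}) (T := {μ}) (U := {μ - γ}) hz hy
      (by rintro a rfl b rfl; rw [Set.mem_singleton_iff]; abel) i j h

theorem good_step2_supp_ad {γ μ : I → ℤ} {Z Y : Matrix ι ι ℚ_[p]} (hz : D.Supp {-γ} Z)
    (hy : D.Supp {μ} Y) (m : ℕ) : D.Supp {μ - m • γ} ((fun X => Z * X - X * Z)^[m] Y) := by
  induction m with
  | zero => simpa using hy
  | succ m ih =>
    rw [Function.iterate_succ_apply']
    have := good_step2_supp_br D hz ih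
    have h2 : μ - m • γ - γ = μ - (m + 1) • γ := by
      rw [add_smul, one_smul]; abel
    rwa [h2] at this

/-- Step (3): the entries of `Θ` of weight `-A k`. -/
theorem good_step2_three {γ : I → ℤ} (hγ : D.Pos γ)
    {Z : Matrix ι ι ℚ_[p]} (hz : D.Supp {-γ} Z) (k : I)
    {S : Matrix ι ι ℚ_[p]} (hs : D.Supp {γ - D.A k} S) (i j : ι)
    (hij : D.wt i - D.wt j = - D.A k) : cj (exU Z) S i j = (Z * S - S * Z) i j := by
  have hnil := good_step2_nilneg D hγ hz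
  obtain ⟨M, -, hM⟩ := ad_sum hnil S
  have h1 := hM (max M 2) (le_max_left _ _)
  have h2 : cj (exU Z) S = ((exU Z : GLm p ι) : Matrix ι ι ℚ_[p]) * S *
    (((exU Z : GLm p ι)⁻¹ : GLm p ι) : Matrix ι ι ℚ_[p]) := rfl
  rw [h2, h1, Matrix.sum_apply]
  rw [Finset.sum_eq_single 1]
  · simp
  · intro m _ hm1
    rw [Matrix.smul_apply]
    by_contra hne
    have hne' : ((fun X => Z * X - X * Z)^[m] S) i j ≠ 0 := by
      intro h; apply hne; rw [h, smul_zero]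
    have h3 := good_step2_supp_ad D hz hs m i j hne'
    rw [Set.mem_singleton_iff, hij] at h3
    have h4 : ((1 : ℤ) - m) • γ = 0 := by
      have : ((1 : ℤ) - m) • γ = γ - m • γ := by
        rw [sub_smul, one_smul, natCast_zsmul]
      rw [this]
      have h5 : γ - D.A k - m • γ = (γ - m • γ) - D.A k := by abel
      rw [h5] at h3
      have h6 : γ - m • γ = (γ - m • γ - D.A k) + D.A k := by abel
      rw [h6, ← h3]; abel
    rcases smul_eq_zero.mp h4 with h7 | h7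
    · apply hm1; omega
    · exact good_step2_ne_zero D hγ h7
  · intro h
    exfalso; apply h
    rw [Finset.mem_range]
    have := le_max_right M 2
    omega

theorem good_step2_sum (f : ℕ → ι → ι → ℝ) (hf : ∀ m i j, 0 ≤ f m i j) (N : ℕ) :
    ∃ K : ℝ, 1 ≤ K ∧ ∀ m ∈ Finset.range N, ∀ i j, f m i j ≤ K := by
  refine ⟨1 + ∑ m ∈ Finset.range N, ∑ i, ∑ j, f m i j, ?_, ?_⟩
  · have : 0 ≤ ∑ m ∈ Finset.range N, ∑ i, ∑ j, f m i j :=
      Finset.sum_nonneg fun _ _ => Finset.sum_nonneg fun _ _ => Finset.sum_nonneg fun _ _ => hf _ _ _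
    linarith
  · intro m hm i j
    have h1 : f m i j ≤ ∑ j, f m i j :=
      Finset.single_le_sum (f := fun j => f m i j) (fun _ _ => hf _ _ _) (Finset.mem_univ j)
    have h2 : ∑ j, f m i j ≤ ∑ i, ∑ j, f m i j :=
      Finset.single_le_sum (f := fun i => ∑ j, f m i j)
        (fun _ _ => Finset.sum_nonneg fun _ _ => hf _ _ _) (Finset.mem_univ i)
    have h3 : ∑ i, ∑ j, f m i j ≤ ∑ m ∈ Finset.range N, ∑ i, ∑ j, f m i j :=
      Finset.single_le_sum (f := fun m => ∑ i, ∑ j, f m i j)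
        (fun _ _ => Finset.sum_nonneg fun _ _ => Finset.sum_nonneg fun _ _ => hf _ _ _) hm
    linarith

/-- Bound for `exU (t • Θ) - 1 - t • Θ`. -/
theorem good_step2_bound {Θ : Matrix ι ι ℚ_[p]} (hΘ : IsNilpotent Θ) :
    ∃ K : ℝ, 1 ≤ K ∧ ∀ t : ℚ_[p], ‖t‖ ≤ 1 → ∀ i j,
      ‖t * Θ i j‖ ≤ K * ‖t‖ ∧
      ‖((exU (t • Θ) : GLm p ι) : Matrix ι ι ℚ_[p]) i j - (1 : Matrix ι ι ℚ_[p]) i j - t * Θ i j‖
        ≤ K * ‖t‖ ^ 2 := by
  obtain ⟨M, hM⟩ := hΘ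
  have hM2 : Θ ^ (M + 2) = 0 := by rw [pow_add, hM, zero_mul]
  obtain ⟨K, hK1, hterm⟩ := good_step2_sum
    (fun m i j => ‖((m.factorial : ℚ_[p])⁻¹) * (Θ ^ m) i j‖) (fun _ _ _ => norm_nonneg _) (M + 2)
  refine ⟨K, hK1, fun t ht i j => ⟨?_, ?_⟩⟩
  · have h1 := hterm 1 (by simp) i j
    simp only [Nat.factorial_one, Nat.cast_one, inv_one, one_mul, pow_one] at h1
    rw [norm_mul, mul_comm]
    exact mul_le_mul_of_nonneg_right h1 (norm_nonneg _)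
  · have hp : (t • Θ) ^ (M + 2) = 0 := by rw [smul_pow, hM2, smul_zero]
    have h1 : ((exU (t • Θ) : GLm p ι) : Matrix ι ι ℚ_[p]) i j -
        (1 : Matrix ι ι ℚ_[p]) i j - t * Θ i j
        = ∑ m ∈ Finset.range M, t ^ (m + 2) *
          ((((m + 2).factorial : ℚ_[p])⁻¹) * (Θ ^ (m + 2)) i j) := by
      rw [exU_sum hp, Matrix.sum_apply, Finset.sum_range_succ', Finset.sum_range_succ']
      simp only [Matrix.smul_apply, smul_eq_mul, smul_pow, pow_zero, Nat.factorial_zero,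
        Nat.cast_one, inv_one, one_mul, zero_add, Nat.factorial_one, pow_one]
      have : ∀ m, ((((m + 1 + 1).factorial : ℕ) : ℚ_[p])⁻¹) *
          (t ^ (m + 1 + 1) * (Θ ^ (m + 1 + 1)) i j) = t ^ (m + 2) *
          ((((m + 2).factorial : ℚ_[p])⁻¹) * (Θ ^ (m + 2)) i j) := by
        intro m; ring
      simp only [this]
      ring
    rw [h1]
    refine IsUltrametricDist.norm_sum_le_of_forall_le_of_nonneg (by positivity) fun m hm => ?_
    rw [norm_mul, norm_pow]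
    have h2 := hterm (m + 2) (by rw [Finset.mem_range] at hm ⊢; omega) i j
    have h3 : ‖t‖ ^ (m + 2) ≤ ‖t‖ ^ 2 :=
      pow_le_pow_of_le_one (norm_nonneg _) ht (by omega)
    calc ‖t‖ ^ (m + 2) * ‖(((m + 2).factorial : ℚ_[p])⁻¹) * (Θ ^ (m + 2)) i j‖
        ≤ ‖t‖ ^ 2 * K := mul_le_mul h3 h2 (norm_nonneg _) (by positivity)
      _ = K * ‖t‖ ^ 2 := mul_comm _ _

/-- The entries of `y0` of weight `-A k` vanish. -/
theorem good_step2_y0 {e : GLm p ι} {w : (I → ℤ) ≃ₗ[ℤ] (I → ℤ)} (hw : D.Rep e⁻¹ w) (k : I)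
    (hpos : D.Pos (w (D.A k))) {y0 : GLm p ι} (hy : e⁻¹ * y0 * e ∈ D.N) (i j : ι)
    (hij : D.wt i - D.wt j = - D.A k) : ((y0 : Matrix ι ι ℚ_[p]) - 1) i j = 0 := by
  by_contra hne
  have h1 : D.Supp {μ | D.Pos μ} (((e⁻¹ * y0 * e : GLm p ι) : Matrix ι ι ℚ_[p]) - 1) :=
    (N_le_UP D hy).1
  have h2 : D.Rep e w⁻¹ := by
    have := rep_inv D hw
    rwa [inv_inv] at this
  have h3 := supp_cj D h2 h1
  have h4 : cj e (((e⁻¹ * y0 * e : GLm p ι) : Matrix ι ι ℚ_[p]) - 1)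
      = (y0 : Matrix ι ι ℚ_[p]) - 1 := by
    unfold cj
    rw [mul_sub, sub_mul, mul_one, Units.mul_inv, Units.val_mul, Units.val_mul]
    have : (e : Matrix ι ι ℚ_[p]) * (((e⁻¹ : GLm p ι) : Matrix ι ι ℚ_[p]) * (y0 : Matrix ι ι ℚ_[p])
        * (e : Matrix ι ι ℚ_[p])) * ((e⁻¹ : GLm p ι) : Matrix ι ι ℚ_[p])
        = ((e : Matrix ι ι ℚ_[p]) * ((e⁻¹ : GLm p ι) : Matrix ι ι ℚ_[p])) * (y0 : Matrix ι ι ℚ_[p])
          * ((e : Matrix ι ι ℚ_[p]) * ((e⁻¹ : GLm p ι) : Matrix ι ι ℚ_[p])) := by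
      simp only [mul_assoc]
    rw [this, Units.mul_inv, one_mul, mul_one]
  rw [h4] at h3
  obtain ⟨μ, hμ, hμ2⟩ := h3 i j hne
  rw [hij] at hμ2
  have h5 : μ = w (-(D.A k)) := by
    rw [← hμ2]
    show μ = w (w.symm μ)
    rw [LinearEquiv.apply_symm_apply]
  rw [map_neg] at h5
  refine good_step2_not_pos_neg D hpos ?_
  rw [← h5]; exact hμ

/-- The entries of `b` of weight `-A k` vanish. -/
theorem good_step2_b (k : I) (τ : I → ℚ_[p]ˣ) {n : GLm p ι} (hn : n ∈ D.N) (i j : ι)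
    (hij : D.wt i - D.wt j = - D.A k) :
    (((D.h τ * n : GLm p ι) : Matrix ι ι ℚ_[p]) - 1) i j = 0 := by
  have hne : i ≠ j := by
    rintro rfl
    rw [sub_self] at hij
    apply good_step2_ne_zero D (pos_A D k)
    rw [← neg_eq_zero, ← hij]
  have hn0 : (n : Matrix ι ι ℚ_[p]) i j = 0 := by
    by_contra h
    have h1 : ((n : Matrix ι ι ℚ_[p]) - 1) i j ≠ 0 := by
      rw [Matrix.sub_apply, Matrix.one_apply_ne hne, sub_zero]; exact h
    have h2 := (N_le_UP D hn).1 i j h1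
    rw [hij] at h2
    exact good_step2_not_pos_neg D (pos_A D k) h2
  rw [Matrix.sub_apply, Matrix.one_apply_ne hne, sub_zero, Units.val_mul, Matrix.mul_apply]
  refine Finset.sum_eq_zero fun l _ => ?_
  rw [h_apply]
  by_cases hl : i = l
  · subst hl
    rw [hn0, mul_zero]
  · rw [if_neg hl, zero_mul]

/-- Step (4): the estimate at level `m`. -/
theorem good_step2_four {e : GLm p ι} (he : e ∈ D.NN) {Xs : Subgroup (GLm p ι)}
    {w : (I → ℤ) ≃ₗ[ℤ] (I → ℤ)} (hw : D.Rep e⁻¹ w)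
    {n1 : GLm p ι} (hR : n1 ∈ Rmax D e Xs) (k : I)
    (hpos : D.Pos (w (D.A k))) {S : Matrix ι ι ℚ_[p]} (hSn : IsNilpotent S)
    (hSp : ∀ t : ℚ_[p], exU (t • S) ∈ Sp D e) {K : ℝ} (hK1 : 1 ≤ K)
    (hK : ∀ t : ℚ_[p], ‖t‖ ≤ 1 → ∀ i j, ‖t * cj n1 S i j‖ ≤ K * ‖t‖ ∧
      ‖((exU (t • cj n1 S) : GLm p ι) : Matrix ι ι ℚ_[p]) i j - (1 : Matrix ι ι ℚ_[p]) i j
        - t * cj n1 S i j‖ ≤ K * ‖t‖ ^ 2)
    (i j : ι) (hij : D.wt i - D.wt j = - D.A k) (m : ℕ) (hm : 1 ≤ m)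
    (t : ℚ_[p]) (ht : K * ‖t‖ ≤ (p : ℝ) ^ (-(m : ℤ))) :
    ‖t * cj n1 S i j‖ ≤ max (K * ‖t‖ ^ 2) ((p : ℝ) ^ (-(m : ℤ)) * (p : ℝ) ^ (-(m : ℤ))) := by
  have hK0 : 0 < K := by linarith
  have ht1 : ‖t‖ ≤ 1 := by
    have h1 : ‖t‖ ≤ K * ‖t‖ := by
      nlinarith [norm_nonneg t]
    exact h1.trans (ht.trans (pw_le_one p m))
  have hne : i ≠ j := by
    rintro rfl
    rw [sub_self] at hij
    apply good_step2_ne_zero D (pos_A D k)
    rw [← neg_eq_zero, ← hij]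
  have htS : IsNilpotent (t • S) := hSn.smul t
  have hcjt : cj n1 (t • S) = t • cj n1 S := cj_smul n1 t S
  have hconj : n1 * exU (t • S) * n1⁻¹ = exU (t • cj n1 S) := by
    rw [exU_conj n1 htS, ← hcjt]; rfl
  set g : GLm p ι := exU (t • cj n1 S) with hg
  have hP : n1 ∈ Pm D e := (rmax_good D e Xs).sub n1 hR
  have hnb : n1 ∈ D.Nb := hP.1
  -- `g` is small
  have hgC : g ∈ Cg p ι m := by
    apply Cg_of_val hm
    intro a b
    obtain ⟨h1, h2⟩ := hK t ht1 a b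
    have h3 : ((g : Matrix ι ι ℚ_[p]) - 1) a b
        = ((g : Matrix ι ι ℚ_[p]) a b - (1 : Matrix ι ι ℚ_[p]) a b - t * cj n1 S a b)
          + t * cj n1 S a b := by
      rw [Matrix.sub_apply]; ring
    rw [h3]
    refine (IsUltrametricDist.norm_add_le_max _ _).trans (max_le (h2.trans ?_) (h1.trans ht))
    refine le_trans ?_ ht
    rw [pow_two, ← mul_assoc]
    calc K * ‖t‖ * ‖t‖ ≤ K * ‖t‖ * 1 :=
          mul_le_mul_of_nonneg_left ht1 (by positivity)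
      _ = K * ‖t‖ := mul_one _
  -- `g` is in `G`
  have hgG : g ∈ D.G := by
    rw [← hconj]
    exact mul_mem (mul_mem (Nb_le_G D hnb) (N_le_G D (hSp t).1)) (inv_mem (Nb_le_G D hnb))
  obtain ⟨τ, hτ, n, hn, hnC, y0, hy0, hy0C, hdec⟩ := iwahori_G D m hm hgG hgC
  obtain ⟨a, ha, q, hq, haq⟩ := PQ_decomp D he (y0 * n1) (mul_mem hy0 hnb)
  have hbB : D.h τ * n ∈ D.B := by
    refine mul_mem ?_ ?_
    · exact (le_sup_left : D.T ≤ D.T ⊔ D.N) ⟨τ, rfl⟩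
    · exact (le_sup_right : D.N ≤ D.T ⊔ D.N) hn
  have heq : n1 * exU (t • S) = D.h τ * n * a * q := by
    have h1 : n1 * exU (t • S) = g * n1 := by rw [← hconj]; group
    rw [h1, hdec, mul_assoc (D.h τ * n) a q, ← haq]
    group
  obtain ⟨hq1, -, -⟩ := (rmax_good D e Xs).test n1 hR _ (hSp t) _ hbB a ha q hq heq
  have hy : e⁻¹ * y0 * e ∈ D.N := by
    have h1 : y0 = a * n1⁻¹ := by
      rw [hq1, mul_one] at haq
      rw [← haq]; group
    have h2 : y0 ∈ Pm D e := by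
      rw [h1]; exact mul_mem ha (inv_mem hP)
    exact h2.2
  have hyz := good_step2_y0 D hw k hpos hy i j hij
  have hbz := good_step2_b D k τ hn i j hij
  have hbC : D.h τ * n ∈ Cg p ι m := mul_mem hτ hnC
  -- the entry of `g`
  have hgij : (g : Matrix ι ι ℚ_[p]) i j
      = ((((D.h τ * n : GLm p ι) : Matrix ι ι ℚ_[p]) - 1) * ((y0 : Matrix ι ι ℚ_[p]) - 1)) i j := by
    have h1 : (g : Matrix ι ι ℚ_[p])
        = (((D.h τ * n : GLm p ι) : Matrix ι ι ℚ_[p]) - 1) * ((y0 : Matrix ι ι ℚ_[p]) - 1)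
          + (((D.h τ * n : GLm p ι) : Matrix ι ι ℚ_[p]) - 1) + ((y0 : Matrix ι ι ℚ_[p]) - 1) + 1 := by
      rw [hdec, Units.val_mul]; noncomm_ring
    rw [h1, Matrix.add_apply, Matrix.add_apply, Matrix.add_apply, hyz, hbz,
      Matrix.one_apply_ne hne]
    simp
  have hgn : ‖(g : Matrix ι ι ℚ_[p]) i j‖ ≤ (p : ℝ) ^ (-(m : ℤ)) * (p : ℝ) ^ (-(m : ℤ)) := by
    rw [hgij, Matrix.mul_apply]
    refine IsUltrametricDist.norm_sum_le_of_forall_le_of_nonneg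
      (mul_nonneg (pw_pos p _).le (pw_pos p _).le) fun l _ => ?_
    rw [norm_mul]
    exact mul_le_mul (hbC.1 i l) (hy0C.1 l j) (norm_nonneg _) (pw_pos p _).le
  have hfin : t * cj n1 S i j = (g : Matrix ι ι ℚ_[p]) i j
      - ((g : Matrix ι ι ℚ_[p]) i j - (1 : Matrix ι ι ℚ_[p]) i j - t * cj n1 S i j) := by
    rw [Matrix.one_apply_ne hne]; ring
  rw [hfin, sub_eq_add_neg]
  refine (IsUltrametricDist.norm_add_le_max _ _).trans ?_
  rw [norm_neg]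
  exact max_le (hgn.trans (le_max_right _ _)) (((hK t ht1 i j).2).trans (le_max_left _ _))

theorem good_step2_lim {x : ℝ} {K : ℝ} (hK1 : 1 ≤ K) {K0 : ℕ} (hKK : K ≤ (p : ℝ) ^ K0)
    (h : ∀ m : ℕ, 1 ≤ m → (p : ℝ) ^ (-((m + K0 : ℕ) : ℤ)) * x ≤
      max (K * ((p : ℝ) ^ (-((m + K0 : ℕ) : ℤ))) ^ 2)
        ((p : ℝ) ^ (-(m : ℤ)) * (p : ℝ) ^ (-(m : ℤ)))) : x ≤ 0 := by
  have hp1 : (1 : ℝ) < p := by exact_mod_cast (Fact.out : p.Prime).one_lt
  have hp0 : (0 : ℝ) < p := by linarith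
  have h2 : ∀ m : ℕ, 1 ≤ m → x ≤ (p : ℝ) ^ K0 * ((p : ℝ)⁻¹) ^ m := by
    intro m hm
    have h3 := h m hm
    have e1 : (p : ℝ) ^ (-((m + K0 : ℕ) : ℤ)) = ((p : ℝ) ^ (m + K0))⁻¹ := by
      rw [_root_.zpow_neg, _root_.zpow_natCast]
    have e2 : (p : ℝ) ^ (-(m : ℤ)) = ((p : ℝ) ^ m)⁻¹ := by
      rw [_root_.zpow_neg, _root_.zpow_natCast]
    rw [e1, e2] at h3
    have hpm : 0 < (p : ℝ) ^ m := by positivity
    have hpk : 0 < (p : ℝ) ^ K0 := by positivity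
    have h4 : x ≤ (p : ℝ) ^ (m + K0) *
        max (K * (((p : ℝ) ^ (m + K0))⁻¹) ^ 2) (((p : ℝ) ^ m)⁻¹ * ((p : ℝ) ^ m)⁻¹) := by
      have h5 := mul_le_mul_of_nonneg_left h3 (by positivity : (0 : ℝ) ≤ (p : ℝ) ^ (m + K0))
      rwa [← mul_assoc, mul_inv_cancel₀ (by positivity), one_mul] at h5
    refine h4.trans ?_
    rw [mul_max_of_nonneg _ _ (by positivity)]
    refine max_le ?_ ?_
    · have e3 : (p : ℝ) ^ (m + K0) * (K * (((p : ℝ) ^ (m + K0))⁻¹) ^ 2)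
          = K * (((p : ℝ) ^ m)⁻¹ * ((p : ℝ) ^ K0)⁻¹) := by
        rw [pow_add]; field_simp
      rw [e3, inv_pow, ]
      have h6 : K * (((p : ℝ) ^ m)⁻¹ * ((p : ℝ) ^ K0)⁻¹) ≤
          (p : ℝ) ^ K0 * (((p : ℝ) ^ m)⁻¹ * ((p : ℝ) ^ K0)⁻¹) :=
        mul_le_mul_of_nonneg_right hKK (by positivity)
      have h7 : (1 : ℝ) ≤ (p : ℝ) ^ K0 := hK1.trans hKK
      have h8 : ((p : ℝ) ^ K0)⁻¹ ≤ 1 := inv_le_one_of_one_le₀ h7
      refine h6.trans (mul_le_mul_of_nonneg_left ?_ hpk.le)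
      calc ((p : ℝ) ^ m)⁻¹ * ((p : ℝ) ^ K0)⁻¹ ≤ ((p : ℝ) ^ m)⁻¹ * 1 :=
            mul_le_mul_of_nonneg_left h8 (by positivity)
        _ = _ := mul_one _
    · have e3 : (p : ℝ) ^ (m + K0) * (((p : ℝ) ^ m)⁻¹ * ((p : ℝ) ^ m)⁻¹)
          = (p : ℝ) ^ K0 * ((p : ℝ)⁻¹) ^ m := by
        rw [pow_add, inv_pow]; field_simp
      rw [e3]
  have hlim : Filter.Tendsto (fun m : ℕ => (p : ℝ) ^ K0 * ((p : ℝ)⁻¹) ^ m) Filter.atTop (𝓝 0) := by
    have := (tendsto_pow_atTop_nhds_zero_of_lt_one (inv_nonneg.mpr hp0.le)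
      (inv_lt_one_of_one_lt₀ hp1)).const_mul ((p : ℝ) ^ K0)
    rwa [mul_zero] at this
  refine ge_of_tendsto hlim ?_
  filter_upwards [Filter.eventually_ge_atTop 1] with m hm using h2 m hm

/-- TARGET.
Proof. `n1 = exU Z`. `S` from `Lg_test`: `S ∈ Lg`, supported in `{β}`, `β = γ - A k`, `[Z, S] = Z S - S Z ≠ 0`; `S ≠ 0`. `Pos β`: `γ = rt b` with `b l > 0` for some `l ≠ k`; use `Lg_weights`, `rt_inj`.
(1) `Pos (-(w γ))`: `Lg_root_neg` for `Z`: `Z = c • cj m (F l)`, `Rep m v`, `v (A l) = γ`, so `n1 = m y_l(c) m⁻¹` (`exU_conj`), `c ≠ 0`. `n1 ∈ Pm e`, so `e⁻¹ n1 e = (e⁻¹ m) y_l(c) (e⁻¹ m)⁻¹ ∈ N`, `Rep (e⁻¹ m) (w v)`. If `Pos (w γ)` it would be in `Nb` too (`NN_conj`), hence `1`, `y_l(c) = 1`, `c = 0` (`y_inj`). So `Pos (-(w γ))` (`weyl_sign` for `w * v`).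
(2) `s_t = exU (t • S) ∈ Sp e` for all `t`: `Lg_root` for `S`: `S = c' • cj m' (E l')`, `Rep m' v'`, `v' (A l') = β`, `s_t = m' x_{l'}(t c') m'⁻¹ ∈ N` (`NN_conj`), and `e⁻¹ s_t e ∈ Nb` (`NN_conj`) because `-(w β) = -(w γ) + w (A k)` is `Pos` (`pos_conic`).
(3) `Θ = cj n1 S = ∑_j (1/j!) (ad Z)^j S` (`ad_sum`), the `j`-th term supported in `{γ - A k - j γ}`, so the entries of `Θ` of weight `-A k` are those of `[Z, S]` (`γ ≠ 0`). Choose `(i0, j0)` with `[Z, S] i0 j0 ≠ 0`, so `wt i0 - wt j0 = - A k`, `Θ i0 j0 ≠ 0`. `n1 s_t n1⁻¹ = exU (t • Θ)` (`S` is nilpotent), and there is `K ≥ 1` with `‖t Θ i j‖ ≤ K ‖t‖`, `‖(exU (t • Θ) - 1 - t • Θ) i j‖ ≤ K ‖t‖^2` for all `‖t‖ ≤ 1` (`exU_sum`).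
(4) Let `m ≥ 1` and `t` with `‖t‖ = p^(-m-K0)`, `K ≤ p^(K0)`: `exU (t • Θ) ∈ Cg m` (`Cg_of_val`), it is in `G`, so `= h(τ) n y0`, all three in `Cg m` (`iwahori_G`). `y0 n1 = a q` (`PQ_decomp`), `n1 s_t = exU(t • Θ) n1 = (h(τ) n) a q`; goodness of `Rmax` gives `q = 1`, so `y0 = a n1⁻¹ ∈ Pm e`. Hence `e⁻¹ y0 e ∈ N ≤ UP` and `y0 - 1` is supported in `w⁻¹ {Pos}` (`supp_cj` for `e`, `Rep e w⁻¹`). As `w (-A k)` is the negative of a `Pos` weight, `(y0 - 1) i0 j0 = 0` (`pos_conic`).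
With `b = h(τ) n ∈ B`, also `(b - 1) i0 j0 = 0` (`- A k` is neither `0` nor `Pos`; `b = h(τ) * n`, `n ∈ UP`). So `(exU (t • Θ)) i0 j0 = ((b - 1) (y0 - 1)) i0 j0` has norm `≤ p^(-2m)`, hence `‖t Θ i0 j0‖ ≤ max (K ‖t‖^2) (p^(-2m))`, `‖Θ i0 j0‖ ≤ max (K p^(-m-K0)) (p^(-m+K0))`, for all `m ≥ 1`. This contradicts `Θ i0 j0 ≠ 0`. -/
theorem good_step2 {e : GLm p ι} (he : e ∈ D.NN) {Xs : Subgroup (GLm p ι)}
    (hX : XsOK D Xs) {w : (I → ℤ) ≃ₗ[ℤ] (I → ℤ)} (hw : D.Rep e⁻¹ w) {γ : I → ℤ} (hγ : D.Pos γ)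
    {Z : Matrix ι ι ℚ_[p]} (hZ : Z ∈ Lg D) (h0 : Z ≠ 0) (hz : D.Supp {-γ} Z)
    (hR : exU Z ∈ Rmax D e Xs) (k : I) (hk : 0 < γ k) (hoff : D.PosOff k γ)
    (hpos : D.Pos (w (D.A k))) : False := by
  obtain ⟨S, hS, hs, hZS⟩ := Lg_test D hZ h0 hγ hz k hk
  have hS0 : S ≠ 0 := by
    rintro rfl
    apply hZS
    rw [mul_zero, zero_mul, sub_zero]
  have hβ := good_step2_beta D hS hS0 k hs hoff
  have hP : exU Z ∈ Pm D e := (rmax_good D e Xs).sub _ hR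
  have h1 := good_step2_one D he hw hγ hZ h0 hz hP
  have h2 := good_step2_two D he hw h1 k hpos hS hS0 hs hβ
  have hSn : IsNilpotent S := good_step2_nilpos D hβ hs
  -- the entry
  obtain ⟨i0, j0, hne0⟩ : ∃ i j, (Z * S - S * Z) i j ≠ 0 := by
    by_contra hcon
    push Not at hcon
    apply hZS
    ext i j
    exact hcon i j
  have hij : D.wt i0 - D.wt j0 = - D.A k := by
    have h3 := good_step2_supp_br D hz hs i0 j0 hne0
    rw [Set.mem_singleton_iff] at h3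
    rw [h3]; abel
  have hΘ0 : cj (exU Z) S i0 j0 ≠ 0 := by
    rw [good_step2_three D hγ hz k hs i0 j0 hij]; exact hne0
  -- `Θ` is nilpotent
  have hΘn : IsNilpotent (cj (exU Z : GLm p ι) S) := by
    obtain ⟨M, hM⟩ := hSn
    refine ⟨M, ?_⟩
    have : ∀ M : ℕ, (cj (exU Z : GLm p ι) S) ^ M = cj (exU Z : GLm p ι) (S ^ M) := by
      intro M
      induction M with
      | zero => unfold cj; simp
      | succ M ih =>
        rw [pow_succ, ih, pow_succ]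
        unfold cj
        have : ∀ a b c d : Matrix ι ι ℚ_[p], b * a = 1 → ∀ X Y : Matrix ι ι ℚ_[p],
            a * X * b * (a * Y * b) = a * (X * Y) * b := by
          intro a b _ _ hba X Y
          calc a * X * b * (a * Y * b) = a * X * (b * a) * Y * b := by simp only [mul_assoc]
            _ = a * (X * Y) * b := by rw [hba, mul_one]; simp only [mul_assoc]
        exact this _ _ 0 0 (Units.inv_mul _) _ _
    rw [this, hM]
    unfold cj; simp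
  obtain ⟨K, hK1, hK⟩ := good_step2_bound hΘn
  have hp1 : (1 : ℝ) < p := by exact_mod_cast (Fact.out : p.Prime).one_lt
  obtain ⟨K0, hK0⟩ : ∃ K0 : ℕ, K ≤ (p : ℝ) ^ K0 := by
    obtain ⟨K0, hK0⟩ := pow_unbounded_of_one_lt K hp1
    exact ⟨K0, hK0.le⟩
  have hfin : ‖cj (exU Z : GLm p ι) S i0 j0‖ ≤ 0 := by
    refine good_step2_lim (p := p) hK1 hK0 fun m hm => ?_
    have hnt : ‖(p : ℚ_[p]) ^ (m + K0)‖ = (p : ℝ) ^ (-((m + K0 : ℕ) : ℤ)) := by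
      rw [norm_pow, Padic.norm_p, _root_.zpow_neg, _root_.zpow_natCast, inv_pow]
    have ht : K * ‖(p : ℚ_[p]) ^ (m + K0)‖ ≤ (p : ℝ) ^ (-(m : ℤ)) := by
      rw [hnt, _root_.zpow_neg, _root_.zpow_natCast, _root_.zpow_neg, _root_.zpow_natCast, pow_add, mul_inv]
      have hpk : 0 < (p : ℝ) ^ K0 := by positivity
      calc K * (((p : ℝ) ^ m)⁻¹ * ((p : ℝ) ^ K0)⁻¹)
          ≤ (p : ℝ) ^ K0 * (((p : ℝ) ^ m)⁻¹ * ((p : ℝ) ^ K0)⁻¹) :=
            mul_le_mul_of_nonneg_right hK0 (by positivity)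
        _ = ((p : ℝ) ^ m)⁻¹ := by field_simp
    have h4 := good_step2_four D he hw hR k hpos hSn h2 hK1 hK i0 j0 hij m hm _ ht
    rw [norm_mul, hnt] at h4
    exact h4
  exact hΘ0 (norm_le_zero_iff.mp hfin)

end Pool.Agent.Chev
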