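import Mathlib
import Pool.Agent.Helper911_Chev.Defs3
import Pool.Agent.Helper911_Chev.CA1
import Pool.Agent.Helper911_Chev.CA2
import Pool.Agent.Helper911_Chev.CA3
import Pool.Agent.Helper911_Chev.CH0
import Pool.Agent.Helper911_Chev.CD1
import Pool.Agent.Helper911_Chev.CB4
import Pool.Agent.Helper911_Chev.CW1
import Pool.Agent.Helper911_Chev.CW2
import Pool.Agent.Helper911_Chev.CC1
import Pool.Agent.Helper911_Chev.CC2
import Pool.Agent.Helper911_Chev.CE1
import Pool.Agent.Helper911_Chev.DS3
import Pool.Agent.Helper911_Chev.DP1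
import Pool.Agent.Helper911_Chev.DR2
import Pool.Agent.Helper911_Chev.DS5
import Pool.Agent.Helper911_Chev.DS6
import Pool.Agent.Helper911_Chev.DS7
import Pool.Agent.Helper911_Chev.DS8

set_option autoImplicit false
set_option linter.unusedSectionVars false
set_option maxHeartbeats 1000000

noncomputable section

open Matrix Topology

namespace Pool.Agent.Chev

open ChevData

variable {p : ℕ} [Fact p.Prime] {I ι : Type} [Fintype I] [DecidableEq I] [Fintype ι]
  [DecidableEq ι] (D : ChevData p I ι)

/-! ======= TARGETS ======= -/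

/-- TARGET.
Proof. `R ⊆ Rmax` (`rmax_sub`), `good_ray` and `ray_root` give `γ`, `Z` with `Pos γ`, `Z ∈ Lg`, `Z ≠ 0`, `Supp {-γ} Z`, `exU Z ∈ Rmax`. Take such a pair with `ht γ` minimal (`ht_pos`: positive integers). `γ = rt b`; `exists_k`: `0 < b k`, `0 < γ k`. If `b l = 0` for all `l ≠ k`: `γ = b k • A k`, and by `Lg_multiple`, `Lg_simple` for `D.dual` (`dual_Lg`, `dual_supp`; `D.dual.E = D.F`) `b k = 1` and `Z = c • F k`, `c ≠ 0`, `exU Z = y k c`: `good_simple`. Otherwise `PosOff k γ`. `NN_rep` for `e⁻¹` gives `w`;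
`weyl_sign` for `w`, `k`: `good_step1` contradicts the minimality and `good_step2` is a contradiction. -/
theorem tie_G {e : GLm p ι} (he : e ∈ D.NN) {Xs : Subgroup (GLm p ι)} (hX : XsOK D Xs)
    {R : Set (GLm p ι)} (hR : GoodSet D e Xs R) (hne : R.Nonempty) :
    ∃ k, ∀ a : ℚ_[p]ˣ, D.hk k a ∈ Xs := by
  classical
  obtain ⟨r, hr⟩ := hne
  obtain ⟨r', hr', ν, hν, hray⟩ := good_ray D he hX (rmax_sub D hR hr)
  have hg1 : r' ∈ Pm D e := (rmax_good D e Xs).sub r' hr'
  have hg2 : r' ∈ D.Nb := hg1.1
  obtain ⟨γ, hγ, Z, hZ, hZ0, hZs, hrZ⟩ := ray_root D hg2 hν hray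
  -- the minimality argument, as strong induction on the height
  have main : ∀ n : ℕ, ∀ γ : I → ℤ, ht D γ ≤ n → D.Pos γ → ∀ Z ∈ Lg D, Z ≠ 0 → D.Supp {-γ} Z →
      exU Z ∈ Rmax D e Xs → ∃ k, ∀ a : ℚ_[p]ˣ, D.hk k a ∈ Xs := by
    intro n
    induction n with
    | zero =>
      intro γ h hγ
      have := ht_pos D hγ
      push_cast at h
      omega
    | succ n ih =>
      intro γ hn hγ Z hZ hZ0 hZs hZR
      obtain ⟨b, hb, hb0, rfl⟩ := id hγ
      obtain ⟨k, hk1, hk2⟩ := exists_k D hb hb0
      by_cases hoff : ∃ l, l ≠ k ∧ b l ≠ 0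
      · have hoff' : D.PosOff k (D.rt b) := ⟨b, fun l _ => hb l, hoff, rfl⟩
        have hei : e⁻¹ ∈ D.NN := inv_mem he
        obtain ⟨w, hw, hwr⟩ := NN_rep D hei
        rcases weyl_sign D hw k with hs | hs
        · exact (good_step2 D he hX hwr hγ hZ hZ0 hZs hZR k hk2 hoff' hs).elim
        · obtain ⟨γ', hγ', hlt, Z', hZ', hZ0', hZs', hZR'⟩ :=
            good_step1 D he hX hwr hγ hZ hZ0 hZs hZR k hk2 hoff' hs
          refine ih γ' ?_ hγ' Z' hZ' hZ0' hZs' hZR'
          push_cast at hn
          omega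
      · push Not at hoff
        obtain ⟨m, hm⟩ : ∃ m : ℕ, b k = m := ⟨(b k).toNat, (Int.toNat_of_nonneg (hb k)).symm⟩
        have hbm : b = m • Pi.single k (1 : ℤ) := by
          funext l
          by_cases hl : l = k
          · subst hl; simp [hm]
          · rw [hoff l hl]; simp [hl]
        have hrt : D.rt b = m • D.A k := by
          rw [hbm]
          have h1 : D.rt (m • Pi.single k (1 : ℤ)) = m • D.rt (Pi.single k (1 : ℤ)) := by
            unfold ChevData.rt
            rw [Matrix.smul_vecMul]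
          rw [h1, D.rt_single]
        rw [hrt] at hZs
        have hZd : Z ∈ Lg D.dual := by rw [dual_Lg]; exact hZ
        have hsd : D.dual.Supp {m • D.dual.A k} Z := by
          rw [dual_supp]
          intro i j hij
          have := hZs i j hij
          simp only [Set.mem_singleton_iff, Set.mem_setOf_eq] at this ⊢
          rw [this, neg_neg]
          rfl
        have hm1 : m = 1 := by
          rcases Nat.lt_or_ge m 2 with h2 | h2
          · have : 0 < m := by
              have h3 := hk1
              rw [hm] at h3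
              exact_mod_cast h3
            omega
          · exact (hZ0 (Lg_multiple D.dual hZd k m h2 hsd)).elim
        subst hm1
        rw [one_smul] at hsd
        obtain ⟨c, hc⟩ := Lg_simple D.dual hZd k hsd
        have hcF : Z = c • D.F k := hc
        have hc0 : c ≠ 0 := by
          rintro rfl
          exact hZ0 (by rw [hcF, zero_smul])
        have hy : D.y k c ∈ Rmax D e Xs := by
          unfold ChevData.y
          rw [← hcF]
          exact hZR
        exact ⟨k, good_simple D he hX hc0 hy⟩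
  refine main (ht D γ).toNat γ ?_ hγ Z hZ hZ0 hZs (hrZ ▸ hr')
  exact Int.self_le_toNat _

end Pool.Agent.Chev
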