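import Mathlib
import Pool.Agent.Helper911_Chev.Defs3
import Pool.Agent.Helper911_Chev.CA1
import Pool.Agent.Helper911_Chev.CA2
import Pool.Agent.Helper911_Chev.CA3
import Pool.Agent.Helper911_Chev.CB2
import Pool.Agent.Helper911_Chev.CB3
import Pool.Agent.Helper911_Chev.CB4
import Pool.Agent.Helper911_Chev.CW1
import Pool.Agent.Helper911_Chev.CW2
import Pool.Agent.Helper911_Chev.CE1
import Pool.Agent.Helper911_Chev.CH3
import Pool.Agent.Helper911_Chev.CF1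
import Pool.Agent.Helper911_Chev.CG2

set_option autoImplicit false
set_option linter.unusedSectionVars false
set_option maxHeartbeats 1000000

noncomputable section

open Matrix Topology

namespace Pool.Agent.Chev

open ChevData

variable {p : ℕ} [Fact p.Prime] {I ι : Type} [Fintype I] [DecidableEq I] [Fintype ι]
  [DecidableEq ι] (D : ChevData p I ι)

/-! ======= TARGETS ======= -/

theorem zpow_sum_aux_DV1 {Γ : Type*} [CommGroup Γ] {J : Type*} (s : Finset J) (f : J → ℤ) (a : Γ) :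
    ∏ j ∈ s, a ^ f j = a ^ ∑ j ∈ s, f j := by
  classical
  induction s using Finset.induction_on with
  | empty => simp
  | insert j s hj ih => rw [Finset.prod_insert hj, Finset.sum_insert hj, _root_.zpow_add, ih]

/-- TARGET.
See the hints above. -/
theorem act_hc (u : (I → ℤ) ≃ₗ[ℤ] (I → ℤ)) (c : I → ℤ) (a : ℚ_[p]ˣ) :
    act u (fun l => a ^ c l) = fun m => a ^ (∑ j, (u⁻¹ (Pi.single m 1)) j * c j) := by
  funext m
  unfold act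
  rw [← zpow_sum_aux_DV1]
  refine Finset.prod_congr rfl fun j _ => ?_
  show (a ^ c j) ^ _ = _
  rw [← _root_.zpow_mul, mul_comm]

/-- TARGET.
Proof. `ν m = log ‖χ (Pi.mulSingle m (pu p))‖`; `fun l => pu p ^ c l = ∏_m (Pi.mulSingle m (pu p)) ^ c m`. -/
theorem slope_hc {C : Type*} [NormedField C] (χ : (I → ℚ_[p]ˣ) →* Cˣ) :
    ∃ ν : I → ℝ, ∀ c : I → ℤ, ‖((χ (fun l => pu p ^ c l) : Cˣ) : C)‖ = Real.exp (∑ m, ν m * (c m : ℝ)) := by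
  refine ⟨fun m => Real.log ‖((χ (Pi.mulSingle m (pu p)) : Cˣ) : C)‖, fun c => ?_⟩
  have h1 : (fun l => pu p ^ c l) = ∏ m, (Pi.mulSingle m (pu p) : I → ℚ_[p]ˣ) ^ c m := by
    rw [← Finset.univ_prod_mulSingle (fun l => pu p ^ c l)]
    refine Finset.prod_congr rfl fun m _ => ?_
    rw [Pi.mulSingle_zpow]
  rw [h1, map_prod, Units.coe_prod, norm_prod, Real.exp_sum]
  refine Finset.prod_congr rfl fun m _ => ?_
  have hpos : 0 < ‖((χ (Pi.mulSingle m (pu p)) : Cˣ) : C)‖ := norm_pos_iff.mpr (Units.ne_zero _)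
  rw [map_zpow, Units.val_zpow_eq_zpow_val, norm_zpow]
  show _ = Real.exp (Real.log ‖((χ (Pi.mulSingle m (pu p)) : Cˣ) : C)‖ * (c m : ℝ))
  rw [Real.exp_mul, Real.exp_log hpos, Real.rpow_intCast]

/-- The representative of the simple reflection represents it. -/
theorem n_rep_aux (k : I) : D.Rep (D.n k) (D.s k) := by
  rw [← nt_one]
  exact nt_rep D k 1

theorem h_inv_aux (τ : I → ℚ_[p]ˣ) : D.h τ⁻¹ = (D.h τ)⁻¹ := map_inv _ _

/-- `e1 = h τ0 * e * n_k`. -/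
theorem swap_T_aux {e e1 : GLm p ι} (he : e ∈ D.NN) (he1 : e1 ∈ D.NN)
    {u : (I → ℤ) ≃ₗ[ℤ] (I → ℤ)} (hu : D.Rep e u) (k : I) (hu1 : D.Rep e1 (u * D.s k)) :
    ∃ τ0 : I → ℚ_[p]ˣ, e1 = D.h τ0 * (e * D.n k) := by
  have h1 : D.Rep (e1 * (e * D.n k)⁻¹) 1 := by
    have := rep_mul D hu1 (rep_inv D (rep_mul D hu (n_rep_aux D k)))
    rwa [mul_inv_cancel] at this
  obtain ⟨τ0, hτ0⟩ := T_of_one D (mul_mem he1 (inv_mem (mul_mem he (n_mem_NN D k)))) h1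
  refine ⟨τ0, ?_⟩
  rw [hτ0]; group

theorem n_y_aux (k : I) (v : ℚ_[p]) : D.n k * D.y k v = D.x k (-v) * D.n k := by
  have h := nt_conj_y D k 1 v
  rw [nt_one, Units.val_one, one_pow, neg_one_mul] at h
  rw [← h]; group

theorem hk_neg_one_comm_aux (k : I) (t : ℚ_[p]) :
    D.x k t * D.hk k (-1) = D.hk k (-1) * D.x k t := by
  have h := h_conj_x D k (fun l => (-1 : ℚ_[p]ˣ) ^ (Pi.single k 1 : I → ℤ) l) t
  have h2 : al D k (fun l => (-1 : ℚ_[p]ˣ) ^ (Pi.single k 1 : I → ℤ) l) = 1 := by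
    unfold al
    rw [Finset.prod_eq_single k]
    · show ((-1 : ℚ_[p]ˣ) ^ (Pi.single k 1 : I → ℤ) k) ^ D.A k k = 1
      rw [Pi.single_eq_same, D.A_diag]
      norm_num
    · intro l _ hl
      show ((-1 : ℚ_[p]ˣ) ^ (Pi.single k 1 : I → ℤ) l) ^ D.A k l = 1
      rw [Pi.single_eq_of_ne hl, _root_.zpow_zero, _root_.one_zpow]
    · intro h; exact absurd (Finset.mem_univ _) h
  rw [h2, Units.val_one, one_mul] at h
  have h3 : D.hk k (-1) = D.h (fun l => (-1 : ℚ_[p]ˣ) ^ (Pi.single k 1 : I → ℤ) l) := rfl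
  rw [h3]
  nth_rewrite 1 [← h]
  group

/-- TARGET.
Proof. `e1 (e n_k)⁻¹ ∈ NN` has `Rep .. 1`, so it is `h τ0` (`T_of_one`): `e1 = h(τ0) e n_k`. `n_k y_k(v) n_k⁻¹ = x_k(-v)` (`nt_conj_y` for `t = 1`), so `e1 y_k(v) = h(τ0) e x_k(-v) n_k`. `x_k(-v) = y_k(-v⁻¹) nt(-v) y_k(-v⁻¹)` (`x_eq`), `nt(-v) = hk(-v) n_k`, `n_k y_k(-v⁻¹) n_k⁻¹ = x_k(v⁻¹)`, `n_k n_k = hk(-1)` (`n_sq`), and `hk(-1)` commutes with `x_k` (`h_conj_x`, `A k k = 2`): `x_k(-v) n_k = y_k(-v⁻¹) hk(v) x_k(v⁻¹)`.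
So `e1 y_k(v) = h(τ0) [e y_k(-v⁻¹) e⁻¹] [e hk(v) e⁻¹] e x_k(v⁻¹)`, where `[e y_k(..) e⁻¹] ∈ N` (`NN_conj`), `e hk(v) e⁻¹ = h (act u (fun l => v ^ (single k 1) l))` (`rep_conj`), and `T` normalises `N` (`h_conj_N`). -/
theorem swap_val {e e1 : GLm p ι} (he : e ∈ D.NN) (he1 : e1 ∈ D.NN)
    {u : (I → ℤ) ≃ₗ[ℤ] (I → ℤ)} (hu : D.Rep e u) (k : I) (hu1 : D.Rep e1 (u * D.s k))
    (hneg : D.Pos (-(u (D.A k)))) :
    ∃ τ0 : I → ℚ_[p]ˣ, ∀ v : ℚ_[p]ˣ, ∃ m ∈ D.N, e1 * D.y k (v : ℚ_[p])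
      = D.h τ0 * D.h (act u (fun l => v ^ (Pi.single k 1 : I → ℤ) l)) * m * e *
          D.x k ((v⁻¹ : ℚ_[p]ˣ) : ℚ_[p]) := by
  obtain ⟨τ0, hτ0⟩ := swap_T_aux D he he1 hu k hu1
  refine ⟨τ0, fun v => ?_⟩
  set σ : I → ℚ_[p]ˣ := act u (fun l => v ^ (Pi.single k 1 : I → ℤ) l) with hσ
  set w : ℚ_[p] := ((v⁻¹ : ℚ_[p]ˣ) : ℚ_[p]) with hw
  have hn0 : e * D.y k (-w) * e⁻¹ ∈ D.N := (NN_conj D he hu k (-w)).2.2.2 hneg
  have hcj : e * D.hk k v * e⁻¹ = D.h σ := rep_conj D hu (fun l => v ^ (Pi.single k 1 : I → ℤ) l)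
  refine ⟨(D.h σ)⁻¹ * (e * D.y k (-w) * e⁻¹) * D.h σ, ?_, ?_⟩
  · have h := h_conj_N D σ⁻¹ hn0
    rwa [h_inv_aux, inv_inv] at h
  -- the key identity
  have hx : D.x k (-(v : ℚ_[p])) * D.n k = D.y k (-w) * D.hk k v * D.x k w := by
    have h1 := x_eq D k (-v)
    rw [Units.val_neg, inv_neg, Units.val_neg, ← hw, nt_eq] at h1
    have h2 : D.n k * D.y k (-w) = D.x k w * D.n k := by
      rw [n_y_aux, neg_neg]
    have h3 : D.hk k (-v) * D.hk k (-1) = D.hk k v := by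
      rw [← hk_mul]; congr 1; simp
    calc D.x k (-(v : ℚ_[p])) * D.n k
        = D.y k (-w) * D.hk k (-v) * (D.n k * D.y k (-w)) * D.n k := by rw [h1]; group
      _ = D.y k (-w) * D.hk k (-v) * D.x k w * (D.n k * D.n k) := by rw [h2]; group
      _ = D.y k (-w) * D.hk k (-v) * (D.x k w * D.hk k (-1)) := by rw [n_sq]; group
      _ = D.y k (-w) * (D.hk k (-v) * D.hk k (-1)) * D.x k w := by
          rw [hk_neg_one_comm_aux]; group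
      _ = D.y k (-w) * D.hk k v * D.x k w := by rw [h3]
  calc e1 * D.y k (v : ℚ_[p]) = D.h τ0 * e * (D.n k * D.y k v) := by rw [hτ0]; group
    _ = D.h τ0 * e * (D.x k (-(v : ℚ_[p])) * D.n k) := by rw [n_y_aux]
    _ = D.h τ0 * (e * D.y k (-w) * e⁻¹) * (e * D.hk k v * e⁻¹) * e * D.x k w := by
        rw [hx]; group
    _ = D.h τ0 * (e * D.y k (-w) * e⁻¹) * D.h σ * e * D.x k w := by rw [hcj]
    _ = D.h τ0 * D.h σ * ((D.h σ)⁻¹ * (e * D.y k (-w) * e⁻¹) * D.h σ) * e * D.x k w := by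
        group

/-- TARGET.
Proof. `x_k(1) = y_k(1) nt(1) y_k(1)` (`x_eq`), `e y_k(1) e⁻¹ ∈ N` (`NN_conj`), `e n_k = h(τ) e1` for some `τ` (`T_of_one`). -/
theorem swap_idx_G {e e1 : GLm p ι} (he : e ∈ D.NN) (he1 : e1 ∈ D.NN)
    {u : (I → ℤ) ≃ₗ[ℤ] (I → ℤ)} (hu : D.Rep e u) (k : I) (hu1 : D.Rep e1 (u * D.s k))
    (hneg : D.Pos (-(u (D.A k)))) : ∃ b ∈ D.B, ∃ y ∈ D.Nb, e * D.x k 1 = b * e1 * y := by
  obtain ⟨τ0, hτ0⟩ := swap_T_aux D he he1 hu k hu1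
  have hn0 : e * D.y k 1 * e⁻¹ ∈ D.N := (NN_conj D he hu k 1).2.2.2 hneg
  have h1 := x_eq D k 1
  rw [nt_one, inv_one, Units.val_one] at h1
  refine ⟨(e * D.y k 1 * e⁻¹) * (D.h τ0)⁻¹, ?_, D.y k 1, y_mem_Nb D k 1, ?_⟩
  · exact mul_mem (Subgroup.mem_sup_right hn0) (inv_mem (Subgroup.mem_sup_left ⟨τ0, rfl⟩))
  · rw [h1, hτ0]; group

/-- TARGET.
Proof. Otherwise `Pos (u (A k))` for all `k` (`weyl_sign`), `e ∈ T` (`T_of_pos`), so `e n e⁻¹ ∈ N ∩ Nb` (`h_conj_N`, `N_inter_Nb`). -/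
theorem exists_descent_G {e : GLm p ι} (he : e ∈ D.NN) {u : (I → ℤ) ≃ₗ[ℤ] (I → ℤ)}
    (hu : D.Rep e u) {n : GLm p ι} (hn : n ∈ D.N) (hn' : e * n * e⁻¹ ∈ D.Nb) (h1 : n ≠ 1) :
    ∃ k, D.Pos (-(u (D.A k))) := by
  by_contra hcon
  push Not at hcon
  have hW := NN_rep_mem D he hu
  have hpos : ∀ k, D.Pos (u (D.A k)) := fun k =>
    (weyl_sign D hW k).resolve_right (hcon k)
  obtain ⟨τ, hτ⟩ := T_of_pos D he hu hpos
  have hN : e * n * e⁻¹ ∈ D.N := by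
    rw [← hτ]; exact h_conj_N D τ hn
  have h2 := N_inter_Nb D hN hn'
  apply h1
  have h3 : e * n = e := by
    have := congrArg (· * e) h2
    simpa using this
  exact mul_eq_left.mp h3

end Pool.Agent.Chev
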