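import Mathlib
import Pool.Agent.Helper911_Chev.Defs3
import Pool.Agent.Helper911_Chev.CA1
import Pool.Agent.Helper911_Chev.CA2
import Pool.Agent.Helper911_Chev.CA3
import Pool.Agent.Helper911_Chev.CB4
import Pool.Agent.Helper911_Chev.CW1
import Pool.Agent.Helper911_Chev.CW2
import Pool.Agent.Helper911_Chev.CE1
import Pool.Agent.Helper911_Chev.CB3
import Pool.Agent.Helper911_Chev.CH3
import Pool.Agent.Helper911_Chev.CH4

set_option autoImplicit false
set_option linter.unusedSectionVars false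
set_option maxHeartbeats 1000000

noncomputable section

open Matrix Topology

namespace Pool.Agent.Chev

open ChevData

variable {p : ℕ} [Fact p.Prime] {I ι : Type} [Fintype I] [DecidableEq I] [Fintype ι]
  [DecidableEq ι] (D : ChevData p I ι)

/-! ======= TARGETS ======= -/

theorem N_diag_one {g : GLm p ι} (hg : g ∈ D.N) (i : ι) : (g : Matrix ι ι ℚ_[p]) i i = 1 := by
  have h1 := (N_le_UP D hg).1
  by_contra hne
  have h2 : ((g : Matrix ι ι ℚ_[p]) - 1) i i ≠ 0 := by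
    rw [Matrix.sub_apply, Matrix.one_apply_eq]
    exact sub_ne_zero.2 hne
  have h3 := h1 i i h2
  rw [sub_self] at h3
  exact D.pos_conic.zero h3

/-- TARGET.
Proof. `(h τ')⁻¹ h τ = n' n⁻¹ ∈ UP` is diagonal with diagonal entries `1`, so it is `1`; `h_inj`. -/
theorem hn_unique {τ τ' : I → ℚ_[p]ˣ} {n n' : GLm p ι} (hn : n ∈ D.N) (hn' : n' ∈ D.N)
    (h : D.h τ * n = D.h τ' * n') : τ = τ' ∧ n = n' := by
  have e1 : D.h (τ'⁻¹ * τ) = n' * n⁻¹ := by
    rw [map_mul, map_inv, eq_mul_inv_iff_mul_eq, mul_assoc, h, inv_mul_cancel_left]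
  have hmem : n' * n⁻¹ ∈ D.N := mul_mem hn' (inv_mem hn)
  have e2 : D.h (τ'⁻¹ * τ) = 1 := by
    apply Units.ext
    ext i j
    by_cases hij : i = j
    · subst hij
      rw [e1, N_diag_one D hmem]
      simp
    · rw [h_apply, if_neg hij]
      simp [hij]
  have e3 : τ'⁻¹ * τ = 1 := h_inj D (by rw [e2, map_one])
  have e4 : τ = τ' := (inv_mul_eq_one.1 e3).symm
  refine ⟨e4, ?_⟩
  rw [e4] at h
  exact mul_left_cancel h

/-- TARGET.
See the hints above. -/
theorem hn_diag {τ : I → ℚ_[p]ˣ} {n : GLm p ι} (hn : n ∈ D.N) (i : ι) :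
    (D.h τ * n : GLm p ι).1 i i = ((∏ l, τ l ^ D.wt i l : ℚ_[p]ˣ) : ℚ_[p]) := by
  rw [Units.val_mul, Matrix.mul_apply, Finset.sum_eq_single i]
  · rw [N_diag_one D hn, mul_one, h_apply, if_pos rfl]
  · intro j _ hj
    rw [h_apply, if_neg (Ne.symm hj), zero_mul]
  · intro h
    exact absurd (Finset.mem_univ i) h

/-- TARGET.
Proof. By `D.span`, `Pi.single k 1 = ∑_i m k i • wt i` for some integers. -/
theorem tau_formula : ∃ m : I → ι → ℤ, ∀ (τ : I → ℚ_[p]ˣ) (k : I),
    τ k = ∏ i, (∏ l, τ l ^ D.wt i l) ^ (m k i) := by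
  have h1 : ∀ k : I, ∃ c : ι → ℤ, ∑ i, c i • D.wt i = Pi.single k 1 := by
    intro k
    have h2 : (Pi.single k 1 : I → ℤ) ∈ Submodule.span ℤ (Set.range D.wt) := by
      rw [← Submodule.mem_toAddSubgroup, Submodule.span_int_eq_addSubgroupClosure, D.span]
      trivial
    exact (Submodule.mem_span_range_iff_exists_fun ℤ).1 h2
  choose m hm using h1
  refine ⟨m, fun τ k => ?_⟩
  have e1 : ∀ i, (∏ l, τ l ^ D.wt i l) ^ (m k i) = ∏ l, τ l ^ (m k i * D.wt i l) := by
    intro i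
    rw [← Finset.prod_zpow]
    refine Finset.prod_congr rfl fun l _ => ?_
    rw [← _root_.zpow_mul, mul_comm]
  simp only [e1]
  rw [Finset.prod_comm]
  have e2 : ∀ l, ∏ i, τ l ^ (m k i * D.wt i l) = τ l ^ ((Pi.single k 1 : I → ℤ) l) := by
    intro l
    have hz : ∀ (a : ℚ_[p]ˣ) (f : ι → ℤ), ∏ i, a ^ f i = a ^ (∑ i, f i) := by
      intro a f
      classical
      have : ∀ S : Finset ι, ∏ i ∈ S, a ^ f i = a ^ (∑ i ∈ S, f i) := by
        intro S
        induction S using Finset.induction_on with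
        | empty => simp
        | insert x S hx ih => rw [Finset.prod_insert hx, Finset.sum_insert hx, _root_.zpow_add, ih]
      exact this Finset.univ
    rw [hz, ← hm k]
    simp [Finset.sum_apply]
  simp only [e2]
  rw [Finset.prod_eq_single k]
  · simp
  · intro l _ hl
    simp [hl]
  · intro h
    exact absurd (Finset.mem_univ k) h

/-- TARGET.
See the hints above. -/
theorem tauB_eq (τ : I → ℚ_[p]ˣ) {n : GLm p ι} (hn : n ∈ D.N) : tauB D (D.h τ * n) = τ := by
  unfold tauB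
  have h : ∃ τ' : I → ℚ_[p]ˣ, ∃ n' ∈ D.N, D.h τ * n = D.h τ' * n' := ⟨τ, n, hn, rfl⟩
  rw [dif_pos h]
  obtain ⟨n', hn', he⟩ := h.choose_spec
  exact ((hn_unique D hn hn' he).1).symm

/-- TARGET.
See the hints above. -/
theorem tauB_mul {b b' : GLm p ι} (hb : b ∈ D.B) (hb' : b' ∈ D.B) :
    tauB D (b * b') = tauB D b * tauB D b' := by
  obtain ⟨τ, n, hn, rfl⟩ := (mem_B D b).1 hb
  obtain ⟨τ', n', hn', rfl⟩ := (mem_B D b').1 hb'
  have e1 : D.h τ * n * (D.h τ' * n') =
      D.h (τ * τ') * ((D.h τ'⁻¹ * n * (D.h τ'⁻¹)⁻¹) * n') := by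
    rw [map_mul, map_inv]
    group
  rw [e1, tauB_eq D _ (mul_mem (h_conj_N D _ hn) hn'), tauB_eq D _ hn, tauB_eq D _ hn']

theorem tauB_inv {b : GLm p ι} (hb : b ∈ D.B) : tauB D b⁻¹ = (tauB D b)⁻¹ := by
  have h1 := tauB_mul D hb (inv_mem hb)
  rw [mul_inv_cancel] at h1
  have h2 : tauB D (1 : GLm p ι) = 1 := by
    have := tauB_eq D (1 : I → ℚ_[p]ˣ) (one_mem D.N)
    rwa [map_one, mul_one] at this
  rw [h2] at h1
  exact (inv_eq_of_mul_eq_one_right h1.symm).symm

theorem tauB_diag {b : GLm p ι} (hb : b ∈ D.B) (i : ι) :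
    ((∏ l, tauB D b l ^ D.wt i l : ℚ_[p]ˣ) : ℚ_[p]) = b.1 i i := by
  obtain ⟨τ, n, hn, rfl⟩ := (mem_B D b).1 hb
  rw [tauB_eq D _ hn, ← hn_diag D hn]

/-- TARGET.
Proof. `tau_formula`, `hn_diag`: on `B`, `tauB b k = ∏_i u_i(b) ^ (m k i)` where `u_i(b)` is the unit with value `b i i` (and inverse `b⁻¹ i i`), continuous into `ℚ_[p]ˣ` (`Units.continuous_iff`, or `Continuous.units_mk0`-like). -/
theorem tauB_cont : ContinuousOn (tauB D) (D.B : Set (GLm p ι)) := by
  obtain ⟨m, hm⟩ := tau_formula D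
  rw [continuousOn_iff_continuous_domRestrict]
  have e : (Set.domRestrict (D.B : Set (GLm p ι)) (tauB D)) = fun b : (D.B : Set (GLm p ι)) => fun k =>
      ∏ i, (∏ l, tauB D (b : GLm p ι) l ^ D.wt i l) ^ (m k i) := by
    funext b k
    exact hm _ k
  rw [e]
  refine continuous_pi fun k => continuous_finsetProd _ fun i _ => ?_
  refine Continuous.zpow ?_ _
  rw [Units.continuous_iff]
  have c1 : Continuous (fun b : (D.B : Set (GLm p ι)) => ((b : GLm p ι) : Matrix ι ι ℚ_[p]) i i) :=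
    (Units.continuous_val.comp continuous_subtype_val).matrix_elem i i
  have c2 : Continuous (fun b : (D.B : Set (GLm p ι)) =>
      (((b : GLm p ι)⁻¹ : GLm p ι) : Matrix ι ι ℚ_[p]) i i) :=
    (Units.continuous_val.comp (continuous_inv.comp continuous_subtype_val)).matrix_elem i i
  constructor
  · refine c1.congr fun b => ?_
    exact (tauB_diag D b.2 i).symm
  · refine c2.congr fun b => ?_
    have h1 : (b : GLm p ι)⁻¹ ∈ D.B := inv_mem b.2
    rw [← tauB_diag D h1 i, tauB_inv D b.2, ← Finset.prod_inv_distrib]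
    simp only [Pi.inv_apply, _root_.inv_zpow]

end Pool.Agent.Chev
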