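import Mathlib
import Pool.Agent.Helper911_Chev.Defs3
import Pool.Agent.Helper911_Chev.CA1
import Pool.Agent.Helper911_Chev.CA2
import Pool.Agent.Helper911_Chev.CA3
import Pool.Agent.Helper911_Chev.CH0
import Pool.Agent.Helper911_Chev.CH3
import Pool.Agent.Helper911_Chev.CH4
import Pool.Agent.Helper911_Chev.CB4
import Pool.Agent.Helper911_Chev.CB2
import Pool.Agent.Helper911_Chev.CB3
import Pool.Agent.Helper911_Chev.CW1
import Pool.Agent.Helper911_Chev.CW2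
import Pool.Agent.Helper911_Chev.CE1
import Pool.Agent.Helper911_Chev.CH5
import Pool.Agent.Helper911_Chev.CH6
import Pool.Agent.Helper911_Chev.CG2

set_option autoImplicit false
set_option linter.unusedSectionVars false
set_option maxHeartbeats 1000000

noncomputable section

open Matrix Topology

namespace Pool.Agent.Chev

open ChevData

variable {p : ℕ} [Fact p.Prime] {I ι : Type} [Fintype I] [DecidableEq I] [Fintype ι]
  [DecidableEq ι] (D : ChevData p I ι)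

/-! ======= TARGETS ======= -/

/-- TARGET.
Proof. `y = s q` by `Nb_decomp` for `m'`. `m m'⁻¹ = b (m' s m'⁻¹) (m' q m'⁻¹) ∈ B Nb`, so it is in `T` by `LU1` (`exists_ord`, `B_up`, `UM_lo`), hence `w w'⁻¹ = 1` (`rep_unique`, `rep_h`). -/
theorem bruhat_unique {m m' : GLm p ι} (hm : m ∈ D.NN) (hm' : m' ∈ D.NN)
    {w w' : (I → ℤ) ≃ₗ[ℤ] (I → ℤ)} (h : D.Rep m w) (h' : D.Rep m' w') {b y : GLm p ι}
    (hb : b ∈ D.B) (hy : y ∈ D.Nb) (e : m = b * m' * y) : w = w' := by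
  obtain ⟨ord, ho⟩ := exists_ord D
  obtain ⟨s, hs, hsN, q, hq, hqN, rfl⟩ := Nb_decomp D hm' y hy
  have hmm : m * m'⁻¹ ∈ D.NN := mul_mem hm (inv_mem hm')
  have hN : D.N ≤ D.B := le_sup_right
  have hbB : b * (m' * s * m'⁻¹) ∈ D.B := mul_mem hb (hN hsN)
  have hfac : m * m'⁻¹ = (b * (m' * s * m'⁻¹)) * (m' * q * m'⁻¹) := by
    rw [e]; group
  have hT : m * m'⁻¹ ∈ D.T :=
    LU1 D ho hmm _ _ (B_up D ho hbB) (UM_lo D ho (Nb_le_UM D hqN)) hfac
  obtain ⟨τ, hτ⟩ := hT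
  have h1 : D.Rep (m * m'⁻¹) (w * w'⁻¹) := rep_mul D h (rep_inv D h')
  have h2 : D.Rep (m * m'⁻¹) 1 := by
    rw [← hτ]; exact rep_h D τ
  have h3 : w * w'⁻¹ = 1 := rep_unique D h1 h2
  exact mul_inv_eq_one.mp h3

end Pool.Agent.Chev
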