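import Mathlib
import Pool.Agent.Helper911_Chev.Defs3
import Pool.Agent.Helper911_Chev.CA1
import Pool.Agent.Helper911_Chev.CA2
import Pool.Agent.Helper911_Chev.CA3
import Pool.Agent.Helper911_Chev.CH0
import Pool.Agent.Helper911_Chev.CH3
import Pool.Agent.Helper911_Chev.CH4
import Pool.Agent.Helper911_Chev.CB4
import Pool.Agent.Helper911_Chev.CW1
import Pool.Agent.Helper911_Chev.CW2
import Pool.Agent.Helper911_Chev.CE1
import Pool.Agent.Helper911_Chev.CH1
import Pool.Agent.Helper911_Chev.CH12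
import Pool.Agent.Helper911_Chev.CH8
import Pool.Agent.Helper911_Chev.CH9

set_option autoImplicit false
set_option linter.unusedSectionVars false
set_option maxHeartbeats 1000000

noncomputable section

open Matrix Topology

namespace Pool.Agent.Chev

open ChevData

variable {p : ℕ} [Fact p.Prime] {I ι : Type} [Fintype I] [DecidableEq I] [Fintype ι]
  [DecidableEq ι] (D : ChevData p I ι)

/-! ======= TARGETS ======= -/

/-- TARGET.
Proof. `G ∩ Cg 1` is the image of the compact set `(T ∩ Cg 1) × (N ∩ Cg 1) × (Nb ∩ Cg 1)` under multiplication (`iwahori_G`, `T_closed`, `N_closed`, `Nb_closed`, `Cg_compact`), hence compact and closed. A subgroup whose intersection with an open subgroup is closed is closed (a point `g` of the closure: `g * Cg 1` meets `G` in some `g0`, and `g0⁻¹ g` is in the closure of `G ∩ Cg 1`). -/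
theorem G_closed : IsClosed (D.G : Set (GLm p ι)) := by
  have hTG : (D.T : Set (GLm p ι)) ⊆ D.G := T_le_G D
  have hNG : (D.N : Set (GLm p ι)) ⊆ D.G := N_le_G D
  have hNbG : (D.Nb : Set (GLm p ι)) ⊆ D.G := Nb_le_G D
  -- the intersection with the congruence subgroup is compact
  have hK : (D.G : Set (GLm p ι)) ∩ (Cg p ι 1 : Set (GLm p ι)) =
      (fun q : GLm p ι × GLm p ι × GLm p ι => q.1 * q.2.1 * q.2.2) ''
        (((Cg p ι 1 : Set (GLm p ι)) ∩ (D.T : Set (GLm p ι))) ×ˢ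
          (((Cg p ι 1 : Set (GLm p ι)) ∩ (D.N : Set (GLm p ι))) ×ˢ
            ((Cg p ι 1 : Set (GLm p ι)) ∩ (D.Nb : Set (GLm p ι))))) := by
    ext g
    constructor
    · rintro ⟨hg, hgm⟩
      obtain ⟨τ, hτ, n, hn, hnm, y, hy, hym, rfl⟩ := iwahori_G D 1 le_rfl hg hgm
      exact ⟨(D.h τ, n, y), ⟨⟨hτ, ⟨τ, rfl⟩⟩, ⟨hnm, hn⟩, ⟨hym, hy⟩⟩, rfl⟩
    · rintro ⟨⟨a, b, c⟩, ⟨⟨ha, ha'⟩, ⟨hb, hb'⟩, ⟨hc, hc'⟩⟩, rfl⟩
      exact ⟨mul_mem (mul_mem (hTG ha') (hNG hb')) (hNbG hc'), mul_mem (mul_mem ha hb) hc⟩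
  have hKc : IsCompact ((D.G : Set (GLm p ι)) ∩ (Cg p ι 1 : Set (GLm p ι))) := by
    rw [hK]
    refine IsCompact.image ?_ (by fun_prop)
    exact ((Cg_compact 1).inter_right (T_closed D)).prod
      (((Cg_compact 1).inter_right (N_closed D)).prod ((Cg_compact 1).inter_right (Nb_closed D)))
  have hKcl : IsClosed ((D.G : Set (GLm p ι)) ∩ (Cg p ι 1 : Set (GLm p ι))) := hKc.isClosed
  have hopen : IsOpen (Cg p ι 1 : Set (GLm p ι)) := Cg_open 1
  rw [← closure_subset_iff_isClosed]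
  intro g hg
  -- `g * Cg 1` meets `G`
  have hU : IsOpen ((fun x : GLm p ι => g⁻¹ * x) ⁻¹' (Cg p ι 1 : Set (GLm p ι))) :=
    hopen.preimage (continuous_const_mul _)
  obtain ⟨g0, hg0, hg0G⟩ := mem_closure_iff.1 hg _ hU (by
    show g⁻¹ * g ∈ (Cg p ι 1 : Set (GLm p ι))
    rw [inv_mul_cancel]; exact one_mem (Cg p ι 1))
  have h1 : g⁻¹ * g0 ∈ Cg p ι 1 := hg0
  have h2 : g0⁻¹ * g ∈ Cg p ι 1 := by
    have := inv_mem h1
    rwa [_root_.mul_inv_rev, inv_inv] at this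
  have h3 : g0⁻¹ * g ∈ closure (D.G : Set (GLm p ι)) := by
    have := map_mem_closure (continuous_const_mul g0⁻¹) hg
      (t := (D.G : Set (GLm p ι))) (fun x hx => mul_mem (inv_mem hg0G) hx)
    exact this
  have h4 : g0⁻¹ * g ∈ closure ((D.G : Set (GLm p ι)) ∩ (Cg p ι 1 : Set (GLm p ι))) := by
    have := hopen.inter_closure (t := (D.G : Set (GLm p ι))) ⟨h2, h3⟩
    rwa [Set.inter_comm] at this
  rw [hKcl.closure_eq] at h4
  have h5 : g0 * (g0⁻¹ * g) ∈ D.G := mul_mem hg0G h4.1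
  rwa [mul_inv_cancel_left] at h5

end Pool.Agent.Chev
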