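import Mathlib
import Pool.Agent.Helper911_Chev.Defs3
import Pool.Agent.Helper911_Chev.CA1
import Pool.Agent.Helper911_Chev.CA2
import Pool.Agent.Helper911_Chev.CA3
import Pool.Agent.Helper911_Chev.CH0
import Pool.Agent.Helper911_Chev.CH3
import Pool.Agent.Helper911_Chev.CH4
import Pool.Agent.Helper911_Chev.CB4
import Pool.Agent.Helper911_Chev.CB2
import Pool.Agent.Helper911_Chev.CB3
import Pool.Agent.Helper911_Chev.CD1
import Pool.Agent.Helper911_Chev.CW1
import Pool.Agent.Helper911_Chev.CW2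
import Pool.Agent.Helper911_Chev.CE1
import Pool.Agent.Helper911_Chev.CH5
import Pool.Agent.Helper911_Chev.CH10
import Pool.Agent.Helper911_Chev.CH8
import Pool.Agent.Helper911_Chev.CH9

set_option autoImplicit false
set_option linter.unusedSectionVars false
set_option maxHeartbeats 1000000

noncomputable section

open Matrix Topology

namespace Pool.Agent.Chev

open ChevData

variable {p : ℕ} [Fact p.Prime] {I ι : Type} [Fintype I] [DecidableEq I] [Fintype ι]
  [DecidableEq ι] (D : ChevData p I ι)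

/-! ======= TARGETS ======= -/

theorem G_inter_up_aux {ord : ι → ℕ} (ho : GoodOrd D ord) {g : GLm p ι} (hg : g ∈ D.G)
    (h : IsUp ord (g : Matrix ι ι ℚ_[p])) : g ∈ D.B := by
  obtain ⟨b, hb, m, hm, y, hy, rfl⟩ := G_cells D hg
  have hyl : IsLo ord (y : Matrix ι ι ℚ_[p]) := UM_lo D ho (Nb_le_UM D hy)
  have h1 : IsUp ord ((b⁻¹ * (b * m * y) : GLm p ι) : Matrix ι ι ℚ_[p]) := by
    rw [Units.val_mul]
    exact up_mul (up_inv ho.inj (B_up D ho hb)) h
  have h2 : IsLo ord ((y⁻¹ : GLm p ι) : Matrix ι ι ℚ_[p]) := lo_inv ho.inj hyl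
  have hmT : m ∈ D.T := LU1 D ho hm (b⁻¹ * (b * m * y)) y⁻¹ h1 h2 (by group)
  have hbm : b * m ∈ D.B :=
    mul_mem hb ((le_sup_left : D.T ≤ D.T ⊔ D.N) hmT)
  have hyu : IsUp ord (y : Matrix ι ι ℚ_[p]) := by
    have h3 : y = (b * m)⁻¹ * (b * m * y) := by group
    rw [h3, Units.val_mul]
    exact up_mul (up_inv ho.inj (B_up D ho hbm)) h
  have hy1 : y = 1 := up_lo hyu hyl
  rw [hy1, mul_one]
  exact hbm

/-- TARGET.
Proof. `g = b m y` (`G_cells`). `m = (b⁻¹ g) y⁻¹`, so `m ∈ T` (`LU1`), `g = b' y` with `b' = b m ∈ B`; `y = b'⁻¹ g` is upper and lower unitriangular, so `y = 1` (`up_lo`), `g = b' = h τ * n`, and the diagonal entries of `g` are `1`, so `h τ = 1`. -/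
theorem G_inter_UP {g : GLm p ι} (hg : g ∈ D.G) (h : g ∈ D.UP) : g ∈ D.N := by
  obtain ⟨ord, ho⟩ := exists_ord D
  have hB := G_inter_up_aux D ho hg (UP_up D ho h)
  obtain ⟨τ, n, hn, rfl⟩ := (mem_B D g).1 hB
  have h1 : D.h τ ∈ D.UP := by
    have h2 : D.h τ = D.h τ * n * n⁻¹ := by group
    rw [h2]
    exact mul_mem h (inv_mem (N_le_UP D hn))
  have h3 : D.h τ = 1 := by
    apply Units.ext
    ext i j
    by_cases hij : i = j
    · subst hij
      by_contra hne
      have h4 : ((D.h τ : Matrix ι ι ℚ_[p]) - 1) i i ≠ 0 := by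
        rw [Matrix.sub_apply]
        exact sub_ne_zero.2 hne
      have h5 := h1.1 i i h4
      rw [sub_self] at h5
      exact D.pos_conic.zero h5
    · rw [h_apply, if_neg hij, Units.val_one, Matrix.one_apply_ne hij]
  rw [h3, one_mul]
  exact hn

/-- TARGET.
`G_inter_UP` for `D.dual`. -/
theorem G_inter_UM {g : GLm p ι} (hg : g ∈ D.G) (h : g ∈ D.UM) : g ∈ D.Nb := by
  have h1 := G_inter_UP D.dual (g := g) (by rwa [dual_G]) (by rwa [dual_UP])
  rwa [dual_N] at h1

/-- TARGET.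
As `G_inter_UP`. -/
theorem G_inter_up {ord : ι → ℕ} (ho : GoodOrd D ord) {g : GLm p ι} (hg : g ∈ D.G)
    (h : IsUp ord (g : Matrix ι ι ℚ_[p])) : g ∈ D.B := G_inter_up_aux D ho hg h

end Pool.Agent.Chev
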