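import Mathlib
import Pool.Agent.Helper911_Chev.Defs3
import Pool.Agent.Helper911_Chev.CA1
import Pool.Agent.Helper911_Chev.CA2
import Pool.Agent.Helper911_Chev.CA3
import Pool.Agent.Helper911_Chev.CB1
import Pool.Agent.Helper911_Chev.CB2
import Pool.Agent.Helper911_Chev.CB3
import Pool.Agent.Helper911_Chev.CB4
import Pool.Agent.Helper911_Chev.CW1
import Pool.Agent.Helper911_Chev.CW2
import Pool.Agent.Helper911_Chev.CE1
import Pool.Agent.Helper911_Chev.CH1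

set_option autoImplicit false
set_option linter.unusedSectionVars false
set_option maxHeartbeats 1000000

noncomputable section

open Matrix Topology

namespace Pool.Agent.Chev

open ChevData

variable {p : ℕ} [Fact p.Prime] {I ι : Type} [Fintype I] [DecidableEq I] [Fintype ι]
  [DecidableEq ι] (D : ChevData p I ι)

/-! ======= TARGETS ======= -/

theorem exU_small {X : Matrix ι ι ℚ_[p]} (hX : ∀ t : ℚ_[p], IsNilpotent (t • X))
    (hint : ∀ (n : ℕ) i j, ‖(((n.factorial : ℚ_[p])⁻¹ • X ^ n : Matrix ι ι ℚ_[p]) i j)‖ ≤ 1)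
    (m : ℕ) (t : ℚ_[p]) (ht : ‖t‖ ≤ (p : ℝ) ^ (-(m : ℤ))) (i j : ι) :
    ‖(((exU (t • X) : GLm p ι) : Matrix ι ι ℚ_[p]) - 1) i j‖ ≤ (p : ℝ) ^ (-(m : ℤ)) := by
  obtain ⟨N, hN⟩ := hX t
  have hN' : (t • X) ^ (N + 1) = 0 := by rw [pow_succ, hN, zero_mul]
  have ht1 : ‖t‖ ≤ 1 := ht.trans (pw_le_one p m)
  rw [exU_sum hN', Finset.sum_range_succ']
  have h0 : ((Nat.factorial 0 : ℚ_[p])⁻¹) • (t • X) ^ 0 = 1 := by simp
  rw [h0, add_sub_cancel_right, Matrix.sum_apply]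
  refine IsUltrametricDist.norm_sum_le_of_forall_le_of_nonneg (pw_pos p _).le fun n _ => ?_
  have h1 : ((((n + 1).factorial : ℚ_[p])⁻¹) • (t • X) ^ (n + 1)) i j =
      t ^ (n + 1) * ((((n + 1).factorial : ℚ_[p])⁻¹) • X ^ (n + 1)) i j := by
    rw [smul_pow, smul_comm, Matrix.smul_apply, smul_eq_mul]
  rw [h1, norm_mul, norm_pow]
  calc ‖t‖ ^ (n + 1) * ‖((((n + 1).factorial : ℚ_[p])⁻¹) • X ^ (n + 1)) i j‖
      ≤ ‖t‖ ^ 1 * 1 := by
        apply mul_le_mul _ (hint _ _ _) (norm_nonneg _) (by positivity)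
        exact pow_le_pow_of_le_one (norm_nonneg _) ht1 (by omega)
    _ = ‖t‖ := by rw [pow_one, mul_one]
    _ ≤ _ := ht

/-- TARGET.
`exU_sum` with the divided powers of `E k`; the inverse is `x k (-t)`. -/
theorem x_Cg (hI : D.Integral) (m : ℕ) (k : I) (t : ℚ_[p]) (ht : ‖t‖ ≤ (p : ℝ) ^ (-(m : ℤ))) :
    D.x k t ∈ Cg p ι m := by
  refine ⟨exU_small (tE_nil D k) (hI.E_int k) m t ht, ?_⟩
  rw [← x_neg]
  exact exU_small (tE_nil D k) (hI.E_int k) m (-t) (by rwa [norm_neg])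

/-- TARGET.
See the hints above. -/
theorem y_Cg (hI : D.Integral) (m : ℕ) (k : I) (t : ℚ_[p]) (ht : ‖t‖ ≤ (p : ℝ) ^ (-(m : ℤ))) :
    D.y k t ∈ Cg p ι m := by
  refine ⟨exU_small (tF_nil D k) (hI.F_int k) m t ht, ?_⟩
  rw [← y_neg]
  exact exU_small (tF_nil D k) (hI.F_int k) m (-t) (by rwa [norm_neg])

/-- TARGET.
See the hints above. -/
theorem n_Cg (hI : D.Integral) (k : I) : D.n k ∈ Cg p ι 0 :=
  mul_mem (mul_mem (x_Cg D hI 0 k 1 (by simp)) (y_Cg D hI 0 k (-1) (by simp)))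
    (x_Cg D hI 0 k 1 (by simp))

/-- TARGET.
See the hints above. -/
theorem W_rep_Cg (hI : D.Integral) {w : (I → ℤ) ≃ₗ[ℤ] (I → ℤ)} (hw : w ∈ D.W) :
    ∃ g ∈ D.NN, g ∈ Cg p ι 0 ∧ D.Rep g w := by
  obtain ⟨g, hg, hr⟩ := W_rep D hw
  refine ⟨g, ?_, ?_, hr⟩
  · have h : Subgroup.closure (Set.range D.n) ≤ D.NN := by
      rw [Subgroup.closure_le]
      rintro _ ⟨k, rfl⟩
      exact n_mem_NN D k
    exact h hg
  · have h : Subgroup.closure (Set.range D.n) ≤ Cg p ι 0 := by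
      rw [Subgroup.closure_le]
      rintro _ ⟨k, rfl⟩
      exact n_Cg D hI k
    exact h hg

end Pool.Agent.Chev
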