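import Mathlib
import Pool.Agent.Helper911_Chev.Defs3
import Pool.Agent.Helper911_Chev.CA1
import Pool.Agent.Helper911_Chev.CA2
import Pool.Agent.Helper911_Chev.CA3
import Pool.Agent.Helper911_Chev.CB1
import Pool.Agent.Helper911_Chev.CB2
import Pool.Agent.Helper911_Chev.CB3
import Pool.Agent.Helper911_Chev.CB4
import Pool.Agent.Helper911_Chev.CW1
import Pool.Agent.Helper911_Chev.CW2
import Pool.Agent.Helper911_Chev.CE1
import Pool.Agent.Helper911_Chev.CE2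
import Pool.Agent.Helper911_Chev.CE3
import Pool.Agent.Helper911_Chev.CE4
import Pool.Agent.Helper911_Chev.CH1
import Pool.Agent.Helper911_Chev.CH3
import Pool.Agent.Helper911_Chev.CH8
import Pool.Agent.Helper911_Chev.CK1

set_option autoImplicit false
set_option linter.unusedSectionVars false
set_option maxHeartbeats 1000000

noncomputable section

open Matrix Topology

namespace Pool.Agent.Chev

open ChevData

variable {p : ℕ} [Fact p.Prime] {I ι : Type} [Fintype I] [DecidableEq I] [Fintype ι]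
  [DecidableEq ι] (D : ChevData p I ι)

/-! ======= TARGETS ======= -/

theorem T_le_B' : D.T ≤ D.B := le_sup_left

theorem N_le_B' : D.N ≤ D.B := le_sup_right

theorem hk_mem_B' (k : I) (t : ℚ_[p]ˣ) : D.hk k t ∈ D.B :=
  T_le_B' D (MonoidHom.mem_range.2 ⟨_, rfl⟩)

theorem x_mem_B' (k : I) (t : ℚ_[p]) : D.x k t ∈ D.B := N_le_B' D (x_mem_N D k t)

/-- The decomposition in the rank one subgroups. -/
theorem iwasawa_Hk (hI : D.Integral) (k : I) {h : GLm p ι} (hh : h ∈ D.Hk k) :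
    ∃ b ∈ D.B, ∃ c ∈ D.G, c ∈ Cg p ι 0 ∧ h = b * c := by
  rcases Hk_cells D k hh with ⟨a, b, c, rfl⟩ | ⟨a, c, rfl⟩
  · by_cases hb : ‖b‖ ≤ 1
    · exact ⟨D.x k a * D.hk k c, mul_mem (x_mem_B' D k a) (hk_mem_B' D k c), D.y k b,
        y_mem_G D k b, y_Cg D hI 0 k b (by simpa using hb), rfl⟩
    · push Not at hb
      have hb0 : b ≠ 0 := by
        rintro rfl
        rw [norm_zero] at hb
        linarith
      obtain ⟨u, rfl⟩ : ∃ u : ℚ_[p]ˣ, (u : ℚ_[p]) = b := ⟨Units.mk0 b hb0, rfl⟩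
      have hu : ‖(((u⁻¹ : ℚ_[p]ˣ)) : ℚ_[p])‖ ≤ 1 := by
        rw [Units.val_inv_eq_inv_val, norm_inv]
        exact inv_le_one_of_one_le₀ hb.le
      refine ⟨D.x k a * D.hk k c * (D.x k (((u⁻¹ : ℚ_[p]ˣ)) : ℚ_[p]) * D.hk k (-u⁻¹)),
        mul_mem (mul_mem (x_mem_B' D k a) (hk_mem_B' D k c))
          (mul_mem (x_mem_B' D k _) (hk_mem_B' D k _)),
        D.n k * D.x k (((u⁻¹ : ℚ_[p]ˣ)) : ℚ_[p]), mul_mem (n_mem_G D k) (x_mem_G D k _),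
        mul_mem (n_Cg D hI k) (x_Cg D hI 0 k _ (by simpa using hu)), ?_⟩
      rw [y_eq, nt_eq]
      simp only [mul_assoc]
  · exact ⟨D.x k a * D.hk k c, mul_mem (x_mem_B' D k a) (hk_mem_B' D k c), D.n k,
      n_mem_G D k, n_Cg D hI k, rfl⟩

theorem iwasawa_y (hI : D.Integral) (k : I) (t : ℚ_[p]) {b : GLm p ι} (hb : b ∈ D.B) :
    ∃ b' ∈ D.B, ∃ c ∈ D.G, c ∈ Cg p ι 0 ∧ D.y k t * b = b' * c := by
  obtain ⟨τ, n, hn, rfl⟩ := (mem_B D b).1 hb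
  obtain ⟨s, hs⟩ := N_split D k hn
  have h1 := h_conj_y D k τ⁻¹ t
  set t' : ℚ_[p] := (((al D k τ⁻¹)⁻¹ : ℚ_[p]ˣ) : ℚ_[p]) * t with ht'
  rw [map_inv, inv_inv] at h1
  have h2 : D.y k t * D.h τ = D.h τ * D.y k t' := by
    rw [← h1]
    group
  have hn1 : n * D.x k s ∈ D.N := mul_mem hn (x_mem_N D k s)
  have h3 : D.y k t' * (n * D.x k s) * (D.y k t')⁻¹ ∈ D.N :=
    Nk_stable D k hn1 hs (y_mem_Hk D k t')
  obtain ⟨b1, hb1, c, hc, hc', h4⟩ := iwasawa_Hk D hI k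
    (mul_mem (y_mem_Hk D k t') (x_mem_Hk D k (-s)))
  refine ⟨D.h τ * (D.y k t' * (n * D.x k s) * (D.y k t')⁻¹) * b1,
    mul_mem (mul_mem (T_le_B' D (MonoidHom.mem_range.2 ⟨_, rfl⟩)) (N_le_B' D h3)) hb1,
    c, hc, hc', ?_⟩
  have h5 : D.y k t' * n = D.y k t' * (n * D.x k s) * (D.y k t')⁻¹ * (D.y k t' * D.x k (-s)) := by
    rw [x_neg]
    group
  calc D.y k t * (D.h τ * n) = D.y k t * D.h τ * n := by rw [mul_assoc]
    _ = D.h τ * (D.y k t' * n) := by rw [h2, mul_assoc]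
    _ = _ := by
      rw [h5, h4]
      simp only [mul_assoc]

/-- TARGET.
Proof. The set of these elements contains `1` and is stable under left multiplication by `x k t ∈ B`, and by `y k t`: let `b = h τ * n` (`mem_B`), `n = n1 * x_k(s)` with `n1 ∈ N ∩ UPk k` (`N_split`). `y_k(t) h τ = h τ y_k(t')` (`h_conj_y` for `τ⁻¹`), `y_k(t') n1 y_k(t')⁻¹ ∈ N` (`Nk_stable`), so it suffices that `h = y_k(t') x_k(s) ∈ Hk k` is in `B (G ∩ Cg 0)`.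
By `Hk_cells` (`x_k(a), hk(c) ∈ B`, `n_k ∈ Cg 0`) it suffices to treat `y_k(b)`: if `‖b‖ ≤ 1` it is in `Cg 0`; otherwise `y_k(b) = x_k(b⁻¹) nt(-b⁻¹) x_k(b⁻¹) = x_k(b⁻¹) hk(-b⁻¹) (n_k x_k(b⁻¹))` (`y_eq`, `nt_eq`) with `n_k x_k(b⁻¹) ∈ Cg 0`. -/
theorem iwasawa_G (hI : D.Integral) {g : GLm p ι} (hg : g ∈ D.G) :
    ∃ b ∈ D.B, ∃ c ∈ D.G, c ∈ Cg p ι 0 ∧ g = b * c := by
  have key : ∀ x ∈ {g : GLm p ι | ∃ k t, g = D.x k t ∨ g = D.y k t}, ∀ y : GLm p ι,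
      (∃ b ∈ D.B, ∃ c ∈ D.G, c ∈ Cg p ι 0 ∧ y = b * c) →
      ∃ b ∈ D.B, ∃ c ∈ D.G, c ∈ Cg p ι 0 ∧ x * y = b * c := by
    rintro x ⟨k, t, rfl | rfl⟩ y ⟨b, hb, c, hc, hc', rfl⟩
    · exact ⟨D.x k t * b, mul_mem (x_mem_B' D k t) hb, c, hc, hc', (mul_assoc _ _ _).symm⟩
    · obtain ⟨b', hb', c', hc1, hc2, h⟩ := iwasawa_y D hI k t hb
      refine ⟨b', hb', c' * c, mul_mem hc1 hc, mul_mem hc2 hc', ?_⟩
      rw [← mul_assoc, h, mul_assoc]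
  refine Subgroup.closure_induction_left
    (p := fun g _ => ∃ b ∈ D.B, ∃ c ∈ D.G, c ∈ Cg p ι 0 ∧ g = b * c) ?_ ?_ ?_ hg
  · exact ⟨1, one_mem _, 1, one_mem _, one_mem _, (mul_one 1).symm⟩
  · intro x hx y _ hy
    exact key x hx y hy
  · rintro x ⟨k, t, h⟩ y _ hy
    refine key x⁻¹ ⟨k, -t, ?_⟩ y hy
    rcases h with rfl | rfl
    · left
      rw [x_neg]
    · right
      rw [y_neg]

end Pool.Agent.Chev
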