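import Mathlib
import Pool.Agent.Helper911_Chev.Defs3
import Pool.Agent.Helper911_Chev.CA1
import Pool.Agent.Helper911_Chev.CA2
import Pool.Agent.Helper911_Chev.CA3
import Pool.Agent.Helper911_Chev.CB3
import Pool.Agent.Helper911_Chev.CH1

set_option autoImplicit false
set_option linter.unusedSectionVars false
set_option maxHeartbeats 1000000

noncomputable section

open Matrix Topology

namespace Pool.Agent.Chev

open ChevData

variable {p : ℕ} [Fact p.Prime] {I ι : Type} [Fintype I] [DecidableEq I] [Fintype ι]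
  [DecidableEq ι] (D : ChevData p I ι)

/-! ======= TARGETS ======= -/

theorem hc_one_aux (c : I → ℤ) : D.hc c 1 = 1 := by
  have h := hc_mul D c 1 1
  rw [mul_one] at h
  exact (mul_eq_left.mp h.symm)

theorem hc_inv_aux (c : I → ℤ) (a : ℚ_[p]ˣ) : (D.hc c a)⁻¹ = D.hc c a⁻¹ := by
  rw [inv_eq_iff_mul_eq_one, ← hc_mul, mul_inv_cancel, hc_one_aux]

/-- TARGET.
`hc_apply`; the inverse of `hc c a` is `hc c a⁻¹`. -/
theorem hc_conj_apply (c : I → ℤ) (a : ℚ_[p]ˣ) (g : GLm p ι) (i j : ι) :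
    ((D.hc c a * g * (D.hc c a)⁻¹ : GLm p ι) : Matrix ι ι ℚ_[p]) i j
      = ((a ^ (∑ k, c k * (D.wt i - D.wt j) k) : ℚ_[p]ˣ) : ℚ_[p]) * (g : Matrix ι ι ℚ_[p]) i j := by
  rw [hc_inv_aux, Units.val_mul, Units.val_mul, Matrix.mul_apply]
  rw [Finset.sum_eq_single j]
  · rw [hc_apply, if_pos rfl, Matrix.mul_apply, Finset.sum_eq_single i]
    · rw [hc_apply, if_pos rfl]
      have e : (∑ k, c k * (D.wt i - D.wt j) k)
          = (∑ k, D.wt i k * c k) - ∑ k, D.wt j k * c k := by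
        rw [← Finset.sum_sub_distrib]
        refine Finset.sum_congr rfl fun k _ => ?_
        rw [Pi.sub_apply]; ring
      rw [e, _root_.zpow_sub, _root_.inv_zpow, Units.val_mul]
      ring
    · intro b _ hb
      rw [hc_apply, if_neg (Ne.symm hb), zero_mul]
    · intro h; exact absurd (Finset.mem_univ _) h
  · intro b _ hb
    rw [hc_apply, if_neg hb, mul_zero]
  · intro h; exact absurd (Finset.mem_univ _) h

/-- TARGET.
See the hints above. -/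
theorem hc_pow (c : I → ℤ) (a : ℚ_[p]ˣ) (N : ℕ) : D.hc c a ^ N = D.hc c (a ^ N) := by
  induction N with
  | zero => rw [pow_zero, pow_zero, hc_one_aux]
  | succ N ih => rw [pow_succ, pow_succ, hc_mul, ih]

theorem norm_pu_zpow (e : ℤ) : ‖(((pu p) ^ e : ℚ_[p]ˣ) : ℚ_[p])‖ = (p : ℝ) ^ (-e) := by
  rw [Units.val_zpow_eq_zpow_val]
  show ‖((p : ℚ_[p])) ^ e‖ = _
  rw [Padic.norm_p_zpow]

/-- exponent bound -/
theorem expo_aux (l : I → ℤ) (hl : ∀ k, ∑ j, D.A k j * l j ≤ -1) {μ : I → ℤ} (h : D.Pos μ) :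
    ∑ k, l k * μ k ≤ -1 := by
  obtain ⟨c, hc, hc0, rfl⟩ := h
  have e : ∑ k, l k * D.rt c k = ∑ i, c i * ∑ j, D.A i j * l j := by
    unfold ChevData.rt
    simp only [Matrix.vecMul, dotProduct, Finset.mul_sum]
    rw [Finset.sum_comm]
    refine Finset.sum_congr rfl fun i _ => Finset.sum_congr rfl fun j _ => ?_
    ring
  rw [e]
  have hpos : 1 ≤ ∑ i, c i := by
    have h1 : 0 ≤ ∑ i, c i := Finset.sum_nonneg fun i _ => hc i
    rcases h1.eq_or_lt with h2 | h2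
    · exfalso
      apply hc0
      have h3 := (Finset.sum_eq_zero_iff_of_nonneg (fun i _ => hc i)).mp h2.symm
      funext i
      exact h3 i (Finset.mem_univ i)
    · omega
  have : ∑ i, c i * ∑ j, D.A i j * l j ≤ ∑ i, c i * (-1) :=
    Finset.sum_le_sum fun i _ => mul_le_mul_of_nonneg_left (hl i) (hc i)
  rw [← Finset.sum_mul] at this
  linarith

/-- main estimate -/
theorem conj_aux (l : I → ℤ) (a : ℚ_[p]ˣ) (N : ℕ) {y : GLm p ι}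
    (hy : ∀ i j, ((y : Matrix ι ι ℚ_[p]) - 1) i j ≠ 0 →
      ‖((a ^ (∑ k, l k * (D.wt i - D.wt j) k) : ℚ_[p]ˣ) : ℚ_[p])‖ ≤ (p : ℝ) ^ (-(N : ℤ))) (i j : ι) :
    ‖(((D.hc l a * y * (D.hc l a)⁻¹ : GLm p ι) : Matrix ι ι ℚ_[p]) - 1) i j‖
      ≤ (p : ℝ) ^ (-(N : ℤ)) * ‖((y : Matrix ι ι ℚ_[p]) - 1) i j‖ := by
  have key : (((D.hc l a * y * (D.hc l a)⁻¹ : GLm p ι) : Matrix ι ι ℚ_[p]) - 1) i j
      = ((a ^ (∑ k, l k * (D.wt i - D.wt j) k) : ℚ_[p]ˣ) : ℚ_[p])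
        * ((y : Matrix ι ι ℚ_[p]) - 1) i j := by
    rw [Matrix.sub_apply, hc_conj_apply, Matrix.sub_apply]
    by_cases hij : i = j
    · subst hij
      simp
    · rw [Matrix.one_apply_ne hij]; ring
  rw [key, norm_mul]
  by_cases h0 : ((y : Matrix ι ι ℚ_[p]) - 1) i j = 0
  · rw [h0]; simp
  · exact mul_le_mul_of_nonneg_right (hy i j h0) (norm_nonneg _)

theorem M_aux (l : I → ℤ) (hl : ∀ k, ∑ j, D.A k j * l j ≤ -1) (N : ℕ) {y : GLm p ι}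
    (hy : y ∈ D.UM) (i j : ι) :
    ‖(((D.hc l (pu p) ^ N * y * (D.hc l (pu p) ^ N)⁻¹ : GLm p ι) : Matrix ι ι ℚ_[p]) - 1) i j‖
      ≤ (p : ℝ) ^ (-(N : ℤ)) * ‖((y : Matrix ι ι ℚ_[p]) - 1) i j‖ := by
  rw [hc_pow]
  apply conj_aux
  intro i j hij
  have h1 : D.Pos (-(D.wt i - D.wt j)) := hy.1 i j hij
  have h2 := expo_aux D l hl h1
  have h3 : ∑ k, l k * (-(D.wt i - D.wt j)) k = - ∑ k, l k * (D.wt i - D.wt j) k := by
    rw [← Finset.sum_neg_distrib]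
    refine Finset.sum_congr rfl fun k _ => ?_
    rw [Pi.neg_apply]; ring
  rw [h3] at h2
  have hp1 : (1 : ℝ) ≤ p := by exact_mod_cast (Fact.out : p.Prime).one_lt.le
  rw [← _root_.zpow_natCast, ← _root_.zpow_mul, norm_pu_zpow]
  apply zpow_le_zpow_right₀ hp1
  have hN : (0 : ℤ) ≤ N := by positivity
  nlinarith

theorem P_aux (l : I → ℤ) (hl : ∀ k, ∑ j, D.A k j * l j ≤ -1) (N : ℕ) {y : GLm p ι}
    (hy : y ∈ D.UP) (i j : ι) :
    ‖((((D.hc l (pu p) ^ N)⁻¹ * y * D.hc l (pu p) ^ N : GLm p ι) : Matrix ι ι ℚ_[p]) - 1) i j‖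
      ≤ (p : ℝ) ^ (-(N : ℤ)) * ‖((y : Matrix ι ι ℚ_[p]) - 1) i j‖ := by
  have e : ((D.hc l (pu p) ^ N)⁻¹ * y * D.hc l (pu p) ^ N : GLm p ι)
      = D.hc l ((pu p ^ N)⁻¹) * y * (D.hc l ((pu p ^ N)⁻¹))⁻¹ := by
    rw [hc_pow, hc_inv_aux, hc_inv_aux, inv_inv]
  rw [e]
  apply conj_aux
  intro i j hij
  have h1 : D.Pos (D.wt i - D.wt j) := hy.1 i j hij
  have h2 := expo_aux D l hl h1
  have hp1 : (1 : ℝ) ≤ p := by exact_mod_cast (Fact.out : p.Prime).one_lt.le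
  rw [_root_.inv_zpow, ← _root_.zpow_neg, ← _root_.zpow_natCast, ← _root_.zpow_mul, norm_pu_zpow]
  apply zpow_le_zpow_right₀ hp1
  have hN : (0 : ℤ) ≤ N := by positivity
  nlinarith

theorem conj_inv_aux (h y : GLm p ι) : (h * y * h⁻¹)⁻¹ = h * y⁻¹ * h⁻¹ := by group

theorem conj_inv_aux' (h y : GLm p ι) : (h⁻¹ * y * h)⁻¹ = h⁻¹ * y⁻¹ * h := by group

theorem M_mem (l : I → ℤ) (hl : ∀ k, ∑ j, D.A k j * l j ≤ -1) (N m : ℕ) {y : GLm p ι}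
    (hy : y ∈ D.UM)
    (h1 : ∀ i j, (p : ℝ) ^ (-(N : ℤ)) * ‖((y : Matrix ι ι ℚ_[p]) - 1) i j‖ ≤ (p : ℝ) ^ (-(m : ℤ)))
    (h2 : ∀ i j, (p : ℝ) ^ (-(N : ℤ)) * ‖(((y⁻¹ : GLm p ι) : Matrix ι ι ℚ_[p]) - 1) i j‖
      ≤ (p : ℝ) ^ (-(m : ℤ))) :
    D.hc l (pu p) ^ N * y * (D.hc l (pu p) ^ N)⁻¹ ∈ Cg p ι m := by
  refine ⟨fun i j => (M_aux D l hl N hy i j).trans (h1 i j), fun i j => ?_⟩
  rw [conj_inv_aux]
  exact (M_aux D l hl N (inv_mem hy) i j).trans (h2 i j)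

theorem P_mem (l : I → ℤ) (hl : ∀ k, ∑ j, D.A k j * l j ≤ -1) (N m : ℕ) {y : GLm p ι}
    (hy : y ∈ D.UP)
    (h1 : ∀ i j, (p : ℝ) ^ (-(N : ℤ)) * ‖((y : Matrix ι ι ℚ_[p]) - 1) i j‖ ≤ (p : ℝ) ^ (-(m : ℤ)))
    (h2 : ∀ i j, (p : ℝ) ^ (-(N : ℤ)) * ‖(((y⁻¹ : GLm p ι) : Matrix ι ι ℚ_[p]) - 1) i j‖
      ≤ (p : ℝ) ^ (-(m : ℤ))) :
    (D.hc l (pu p) ^ N)⁻¹ * y * D.hc l (pu p) ^ N ∈ Cg p ι m := by
  refine ⟨fun i j => (P_aux D l hl N hy i j).trans (h1 i j), fun i j => ?_⟩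
  rw [conj_inv_aux']
  exact (P_aux D l hl N (inv_mem hy) i j).trans (h2 i j)

theorem small_aux (m : ℕ) (X Y : Matrix ι ι ℚ_[p]) : ∃ N : ℕ,
    (∀ i j, (p : ℝ) ^ (-(N : ℤ)) * ‖X i j‖ ≤ (p : ℝ) ^ (-(m : ℤ))) ∧
    (∀ i j, (p : ℝ) ^ (-(N : ℤ)) * ‖Y i j‖ ≤ (p : ℝ) ^ (-(m : ℤ))) := by
  have hp1 : (1 : ℝ) < p := by exact_mod_cast (Fact.out : p.Prime).one_lt
  have hT : Filter.Tendsto (fun N : ℕ => (p : ℝ) ^ (-(N : ℤ))) Filter.atTop (𝓝 0) := by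
    have h := tendsto_pow_atTop_nhds_zero_of_lt_one (r := (p : ℝ)⁻¹) (by positivity)
      (inv_lt_one_of_one_lt₀ hp1)
    refine h.congr fun N => ?_
    rw [_root_.zpow_neg, _root_.zpow_natCast, inv_pow]
  have hE : ∀ Z : Matrix ι ι ℚ_[p], ∀ i j, ∀ᶠ N : ℕ in Filter.atTop,
      (p : ℝ) ^ (-(N : ℤ)) * ‖Z i j‖ ≤ (p : ℝ) ^ (-(m : ℤ)) := by
    intro Z i j
    have h2 := hT.mul_const ‖Z i j‖
    rw [zero_mul] at h2
    exact h2.eventually (eventually_le_nhds (pw_pos p _))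
  have hE2 : ∀ Z : Matrix ι ι ℚ_[p], ∀ᶠ N : ℕ in Filter.atTop, ∀ i j,
      (p : ℝ) ^ (-(N : ℤ)) * ‖Z i j‖ ≤ (p : ℝ) ^ (-(m : ℤ)) := by
    intro Z
    rw [Filter.eventually_all]; intro i
    rw [Filter.eventually_all]; intro j
    exact hE Z i j
  exact ((hE2 X).and (hE2 Y)).exists

/-- TARGET.
Proof. At a nonzero entry `(i, j)` of `y - 1` or `y⁻¹ - 1`, `wt i - wt j = - rt c`, `c ≥ 0`, `c ≠ 0`, so the exponent `∑_k l k * (wt i - wt j) k = - ∑_k c k ∑_j A k j l j ≥ ∑_k c k ≥ 1` and the entry is multiplied by `p^(exponent)` (`hc_conj_apply`). -/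
theorem shrink_M (l : I → ℤ) (hl : ∀ k, ∑ j, D.A k j * l j ≤ -1) {y : GLm p ι} (hy : y ∈ D.UM)
    {m : ℕ} (h : y ∈ Cg p ι m) : D.hc l (pu p) * y * (D.hc l (pu p))⁻¹ ∈ Cg p ι m := by
  have := M_mem D l hl 1 m hy
    (fun i j => (mul_le_of_le_one_left (norm_nonneg _) (pw_le_one p 1)).trans (h.1 i j))
    (fun i j => (mul_le_of_le_one_left (norm_nonneg _) (pw_le_one p 1)).trans (h.2 i j))
  rwa [pow_one] at this

/-- TARGET.
See the hints above. -/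
theorem absorb_M (l : I → ℤ) (hl : ∀ k, ∑ j, D.A k j * l j ≤ -1) {y : GLm p ι} (hy : y ∈ D.UM)
    (m : ℕ) : ∃ N : ℕ, D.hc l (pu p) ^ N * y * (D.hc l (pu p) ^ N)⁻¹ ∈ Cg p ι m := by
  obtain ⟨N, h1, h2⟩ := small_aux (p := p) m ((y : Matrix ι ι ℚ_[p]) - 1)
    (((y⁻¹ : GLm p ι) : Matrix ι ι ℚ_[p]) - 1)
  exact ⟨N, M_mem D l hl N m hy h1 h2⟩

/-- TARGET.
See the hints above. -/
theorem unif_M (l : I → ℤ) (hl : ∀ k, ∑ j, D.A k j * l j ≤ -1) (m : ℕ) :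
    ∃ N : ℕ, ∀ y ∈ D.UM, y ∈ Cg p ι 0 → D.hc l (pu p) ^ N * y * (D.hc l (pu p) ^ N)⁻¹ ∈ Cg p ι m := by
  refine ⟨m, fun y hy h => M_mem D l hl m m hy (fun i j => ?_) (fun i j => ?_)⟩
  · have := h.1 i j
    simp only [Nat.cast_zero, neg_zero, zpow_zero] at this
    exact mul_le_of_le_one_right (pw_pos p _).le this
  · have := h.2 i j
    simp only [Nat.cast_zero, neg_zero, zpow_zero] at this
    exact mul_le_of_le_one_right (pw_pos p _).le this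

/-- TARGET.
See the hints above. -/
theorem shrink_P (l : I → ℤ) (hl : ∀ k, ∑ j, D.A k j * l j ≤ -1) {y : GLm p ι} (hy : y ∈ D.UP)
    {m : ℕ} (h : y ∈ Cg p ι m) : (D.hc l (pu p))⁻¹ * y * D.hc l (pu p) ∈ Cg p ι m := by
  have := P_mem D l hl 1 m hy
    (fun i j => (mul_le_of_le_one_left (norm_nonneg _) (pw_le_one p 1)).trans (h.1 i j))
    (fun i j => (mul_le_of_le_one_left (norm_nonneg _) (pw_le_one p 1)).trans (h.2 i j))
  rwa [pow_one] at this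

/-- TARGET.
See the hints above. -/
theorem absorb_P (l : I → ℤ) (hl : ∀ k, ∑ j, D.A k j * l j ≤ -1) {y : GLm p ι} (hy : y ∈ D.UP)
    (m : ℕ) : ∃ N : ℕ, (D.hc l (pu p) ^ N)⁻¹ * y * D.hc l (pu p) ^ N ∈ Cg p ι m := by
  obtain ⟨N, h1, h2⟩ := small_aux (p := p) m ((y : Matrix ι ι ℚ_[p]) - 1)
    (((y⁻¹ : GLm p ι) : Matrix ι ι ℚ_[p]) - 1)
  exact ⟨N, P_mem D l hl N m hy h1 h2⟩

/-- TARGET.
See the hints above. -/
theorem unif_P (l : I → ℤ) (hl : ∀ k, ∑ j, D.A k j * l j ≤ -1) (m : ℕ) :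
    ∃ N : ℕ, ∀ y ∈ D.UP, y ∈ Cg p ι 0 → (D.hc l (pu p) ^ N)⁻¹ * y * D.hc l (pu p) ^ N ∈ Cg p ι m := by
  refine ⟨m, fun y hy h => P_mem D l hl m m hy (fun i j => ?_) (fun i j => ?_)⟩
  · have := h.1 i j
    simp only [Nat.cast_zero, neg_zero, zpow_zero] at this
    exact mul_le_of_le_one_right (pw_pos p _).le this
  · have := h.2 i j
    simp only [Nat.cast_zero, neg_zero, zpow_zero] at this
    exact mul_le_of_le_one_right (pw_pos p _).le this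

/-- TARGET.
Proof. `l = - (D.A.adjugate *ᵥ fun _ => D.A.det)`: then `∑_j A k j l j = - det ^ 2 ≤ -1`. -/
theorem exists_l : ∃ l : I → ℤ, ∀ k, ∑ j, D.A k j * l j ≤ -1 := by
  refine ⟨-(D.A.adjugate *ᵥ fun _ => D.A.det), fun k => ?_⟩
  have h1 : ∑ j, D.A k j * (-(D.A.adjugate *ᵥ fun _ => D.A.det)) j
      = (D.A *ᵥ (-(D.A.adjugate *ᵥ fun _ => D.A.det))) k := rfl
  rw [h1, Matrix.mulVec_neg, Matrix.mulVec_mulVec, Matrix.mul_adjugate, Matrix.smul_mulVec,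
    Matrix.one_mulVec]
  simp only [Pi.neg_apply, Pi.smul_apply, smul_eq_mul]
  have : 0 < D.A.det * D.A.det := mul_self_pos.mpr D.A_det
  linarith

/-- nonarchimedean entrywise bound for products -/
theorem mul_bd {a b : ℝ} (ha : 0 ≤ a) (hb : 0 ≤ b) {X Y : Matrix ι ι ℚ_[p]}
    (hX : ∀ i j, ‖X i j‖ ≤ a) (hY : ∀ i j, ‖Y i j‖ ≤ b) :
    ∀ i j, ‖(X * Y) i j‖ ≤ a * b := by
  intro i j
  rw [Matrix.mul_apply]
  refine IsUltrametricDist.norm_sum_le_of_forall_le_of_nonneg (mul_nonneg ha hb) fun k _ => ?_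
  rw [norm_mul]
  exact mul_le_mul (hX i k) (hY k j) (norm_nonneg _) ha

theorem pow_val_aux {m : ℕ} (hm : 1 ≤ m) {Z : Matrix ι ι ℚ_[p]}
    (hZ : ∀ i j, ‖(Z - 1) i j‖ ≤ (p : ℝ) ^ (-(m : ℤ))) :
    ∀ i j, ‖(Z ^ p - 1) i j‖ ≤ (p : ℝ) ^ (-((m + 1 : ℕ) : ℤ)) := by
  have hp : p.Prime := Fact.out
  have hp0 : (0 : ℝ) < p := by exact_mod_cast hp.pos
  have hp1 : (1 : ℝ) ≤ p := by exact_mod_cast hp.one_lt.le
  obtain ⟨X, hXdef⟩ : ∃ X, X = Z - 1 := ⟨_, rfl⟩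
  have hZX : Z = X + 1 := by rw [hXdef]; abel
  rw [← hXdef] at hZ
  have hle1 : (p : ℝ) ^ (-(m : ℤ)) ≤ 1 := pw_le_one p m
  have hpowle : ∀ n : ℕ, ∀ i j, ‖(X ^ n) i j‖ ≤ 1 := by
    intro n
    induction n with
    | zero =>
      intro i j
      rw [pow_zero, Matrix.one_apply]
      split_ifs <;> simp
    | succ n ih =>
      intro i j
      rw [pow_succ]
      have := mul_bd zero_le_one zero_le_one ih (fun i j => (hZ i j).trans hle1) i j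
      simpa using this
  have hpow1 : ∀ n : ℕ, ∀ i j, ‖(X ^ (n + 1)) i j‖ ≤ (p : ℝ) ^ (-(m : ℤ)) := by
    intro n i j
    rw [pow_succ]
    have := mul_bd zero_le_one (pw_pos p _).le (hpowle n) hZ i j
    simpa using this
  have hpow2 : ∀ n : ℕ, ∀ i j, ‖(X ^ (n + 2)) i j‖ ≤ (p : ℝ) ^ (-((m + 1 : ℕ) : ℤ)) := by
    intro n i j
    rw [pow_succ]
    refine (mul_bd (pw_pos p _).le (pw_pos p _).le (hpow1 n) hZ i j).trans ?_
    rw [← zpow_add₀ hp0.ne']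
    apply zpow_le_zpow_right₀ hp1
    push_cast
    have : (1 : ℤ) ≤ m := by exact_mod_cast hm
    omega
  intro i j
  have hexp : Z ^ p - 1 = ∑ n ∈ Finset.range p, (p.choose (n + 1)) • X ^ (n + 1) := by
    rw [hZX, (Commute.one_right X).add_pow, Finset.sum_range_succ']
    simp only [one_pow, mul_one, pow_zero, Nat.choose_zero_right, Nat.cast_one, one_mul]
    rw [add_sub_cancel_right]
    refine Finset.sum_congr rfl fun n _ => ?_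
    rw [nsmul_eq_mul, Nat.cast_comm]
  rw [hexp, Matrix.sum_apply]
  refine IsUltrametricDist.norm_sum_le_of_forall_le_of_nonneg (pw_pos p _).le fun n hn => ?_
  rw [Matrix.smul_apply, nsmul_eq_mul, norm_mul]
  rcases Nat.eq_zero_or_pos n with h0 | h0
  · subst h0
    rw [zero_add, Nat.choose_one_right, Padic.norm_p, pow_one]
    calc (p : ℝ)⁻¹ * ‖X i j‖ ≤ (p : ℝ)⁻¹ * (p : ℝ) ^ (-(m : ℤ)) :=
          mul_le_mul_of_nonneg_left (hZ i j) (by positivity)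
      _ = (p : ℝ) ^ (-((m + 1 : ℕ) : ℤ)) := by
          rw [← _root_.zpow_neg_one, ← zpow_add₀ hp0.ne']
          congr 1
          push_cast; ring
  · have hc : ‖((p.choose (n + 1) : ℕ) : ℚ_[p])‖ ≤ 1 := by
      have := Padic.norm_int_le_one (p := p) (p.choose (n + 1) : ℤ)
      simpa using this
    obtain ⟨n', rfl⟩ : ∃ n', n = n' + 1 := ⟨n - 1, by omega⟩
    have := hpow2 n' i j
    exact (mul_le_of_le_one_left (norm_nonneg _) hc).trans this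

/-- TARGET.
Proof. If `g ∈ Cg m`, `m ≥ 1` then `g ^ p ∈ Cg (m + 1)`: `g = 1 + X` with `‖X i j‖ ≤ p^(-m)`, `(1 + X)^p - 1 = p X + ∑_{2 ≤ i ≤ p} choose(p,i) X^i`, `‖p X‖ ≤ p^(-m-1)` and `‖X^i‖ ≤ p^(-2m) ≤ p^(-m-1)` for `i ≥ 2` (commuting terms; same for `g⁻¹`). So `g^(p^k) ∈ Cg (1 + k)`, and these groups shrink to `1` (`Cg_small`, `Cg_mono`). -/
theorem prop_Cg {g : GLm p ι} (hg : g ∈ Cg p ι 1) :
    Filter.Tendsto (fun k : ℕ => g ^ (p ^ k)) Filter.atTop (𝓝 1) := by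
  have key : ∀ k : ℕ, g ^ (p ^ k) ∈ Cg p ι (k + 1) := by
    intro k
    induction k with
    | zero => simpa using hg
    | succ k ih =>
      rw [pow_succ, pow_mul]
      refine ⟨?_, ?_⟩
      · rw [Units.val_pow_eq_pow_val]
        exact pow_val_aux (by omega) ih.1
      · rw [← inv_pow, Units.val_pow_eq_pow_val]
        exact pow_val_aux (by omega) ih.2
  rw [Filter.tendsto_def]
  intro U hU
  obtain ⟨m, hm, hmU⟩ := Cg_small U hU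
  rw [Filter.mem_atTop_sets]
  refine ⟨m, fun k hk => ?_⟩
  exact hmU (Cg_mono (by omega) (key k))

end Pool.Agent.Chev
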