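import Mathlib
import Pool.Agent.Helper911_Chev.Defs3
import Pool.Agent.Helper911_Chev.CA1
import Pool.Agent.Helper911_Chev.CA2
import Pool.Agent.Helper911_Chev.CA3
import Pool.Agent.Helper911_Chev.CB4
import Pool.Agent.Helper911_Chev.CW1
import Pool.Agent.Helper911_Chev.CW2
import Pool.Agent.Helper911_Chev.CE1
import Pool.Agent.Helper911_Chev.CH3
import Pool.Agent.Helper911_Chev.CH4
import Pool.Agent.Helper911_Chev.CH8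
import Pool.Agent.Helper911_Chev.CH9
import Pool.Agent.Helper911_Chev.CH1
import Pool.Agent.Helper911_Chev.CH6
import Pool.Agent.Helper911_Chev.CH12

set_option autoImplicit false
set_option linter.unusedSectionVars false
set_option maxHeartbeats 1000000

noncomputable section

open Matrix Topology

namespace Pool.Agent.Chev

open ChevData

variable {p : ℕ} [Fact p.Prime] {I ι : Type} [Fintype I] [DecidableEq I] [Fintype ι]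
  [DecidableEq ι] (D : ChevData p I ι)

/-! ======= TARGETS ======= -/

/-- TARGET.
Proof. `v = h(τ) n0 y0`, all in `Cg m` (`iwahori_G`). `Nb_decomp` for `e⁻¹` and `e v e⁻¹`: `e v e⁻¹ = s q`, `s ∈ Nb`, `e⁻¹ s e ∈ N`, `q ∈ Nb`, `e⁻¹ q e ∈ Nb`. So `v = n y`, `n = e⁻¹ s e`, `y = e⁻¹ q e`. Then `n⁻¹ h(τ) n0 = y y0⁻¹ ∈ B ∩ Nb = 1` (`B_inter_Nb`): `n = h(τ) n0 ∈ Cg m`, `y = y0 ∈ Cg m`. -/
theorem PQ_small {e : GLm p ι} (he : e ∈ D.NN) {m : ℕ} (hm : 1 ≤ m) {v : GLm p ι} (hv : v ∈ D.G)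
    (hvm : v ∈ Cg p ι m) (h : e * v * e⁻¹ ∈ D.Nb) :
    ∃ n ∈ D.N, n ∈ Cg p ι m ∧ e * n * e⁻¹ ∈ D.Nb ∧ ∃ y ∈ D.Nb, y ∈ Cg p ι m ∧ e * y * e⁻¹ ∈ D.Nb ∧
      v = n * y := by
  have he' : e⁻¹ ∈ D.NN := inv_mem he
  obtain ⟨s, hs, hsN, q, hq, hqNb, hsq⟩ := Nb_decomp D he' (e * v * e⁻¹) h
  obtain ⟨τ, hτ, n0, hn0, hn0m, y0, hy0, hy0m, hv0⟩ := iwahori_G D m hm hv hvm
  rw [inv_inv] at hsN hqNb
  have hvny : v = (e⁻¹ * s * e) * (e⁻¹ * q * e) := by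
    have : v = e⁻¹ * (e * v * e⁻¹) * e := by group
    rw [this, hsq]; group
  have hTB : ∀ t ∈ D.T, t ∈ D.B := fun t ht => (le_sup_left : D.T ≤ D.T ⊔ D.N) ht
  have hNB : ∀ t ∈ D.N, t ∈ D.B := fun t ht => (le_sup_right : D.N ≤ D.T ⊔ D.N) ht
  have hkey : (e⁻¹ * s * e)⁻¹ * (D.h τ * n0) = (e⁻¹ * q * e) * y0⁻¹ := by
    have h1 : (e⁻¹ * s * e) * (e⁻¹ * q * e) = D.h τ * n0 * y0 := by rw [← hvny, hv0]
    rw [inv_mul_eq_iff_eq_mul, ← mul_assoc, h1, mul_inv_cancel_right]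
  have hB : (e⁻¹ * s * e)⁻¹ * (D.h τ * n0) ∈ D.B :=
    mul_mem (inv_mem (hNB _ hsN)) (mul_mem (hTB _ ⟨τ, rfl⟩) (hNB _ hn0))
  have hNb : (e⁻¹ * s * e)⁻¹ * (D.h τ * n0) ∈ D.Nb := by
    rw [hkey]; exact mul_mem hqNb (inv_mem hy0)
  have h1 := B_inter_Nb D hB hNb
  have hn : e⁻¹ * s * e = D.h τ * n0 := by
    rw [inv_mul_eq_one] at h1; exact h1
  have hy : e⁻¹ * q * e = y0 := by
    rw [hkey, mul_inv_eq_one] at h1; exact h1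
  refine ⟨e⁻¹ * s * e, hsN, ?_, ?_, e⁻¹ * q * e, hqNb, ?_, ?_, hvny⟩
  · rw [hn]; exact mul_mem hτ hn0m
  · have : e * (e⁻¹ * s * e) * e⁻¹ = s := by group
    rw [this]; exact hs
  · rw [hy]; exact hy0m
  · have : e * (e⁻¹ * q * e) * e⁻¹ = q := by group
    rw [this]; exact hq

/-- TARGET.
Proof. `e g e⁻¹ ∈ G ∩ Cg m` (`Cg_conj`, `NN_le_G`), `= h(τ) n0 y0` (`iwahori_G`). `v = e⁻¹ y0 e ∈ G ∩ Cg m`; `PQ_small`. -/
theorem gamU_G {e : GLm p ι} (he : e ∈ D.NN) (he0 : e ∈ Cg p ι 0) {m : ℕ} (hm : 1 ≤ m)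
    {g : GLm p ι} (hg : g ∈ D.G) (hgm : g ∈ Cg p ι m) :
    ∃ b ∈ D.B, ∃ n ∈ D.N, n ∈ Cg p ι m ∧ e * n * e⁻¹ ∈ D.Nb ∧ ∃ y ∈ D.Nb, y ∈ Cg p ι m ∧
      e * y * e⁻¹ ∈ D.Nb ∧ e * g = b * e * n * y := by
  have heG : e ∈ D.G := NN_le_G D he
  have h1 : e * g * e⁻¹ ∈ D.G := mul_mem (mul_mem heG hg) (inv_mem heG)
  have h2 : e * g * e⁻¹ ∈ Cg p ι m := Cg_conj he0 hgm
  obtain ⟨τ, hτ, n0, hn0, hn0m, y0, hy0, hy0m, hv0⟩ := iwahori_G D m hm h1 h2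
  have hvG : e⁻¹ * y0 * e ∈ D.G := mul_mem (mul_mem (inv_mem heG) (Nb_le_G D hy0)) heG
  have hvm : e⁻¹ * y0 * e ∈ Cg p ι m := by
    have := Cg_conj (inv_mem he0) hy0m
    rwa [inv_inv] at this
  have hvNb : e * (e⁻¹ * y0 * e) * e⁻¹ ∈ D.Nb := by
    have : e * (e⁻¹ * y0 * e) * e⁻¹ = y0 := by group
    rw [this]; exact hy0
  obtain ⟨n, hn, hnm, hnNb, y, hy, hym, hyNb, hny⟩ := PQ_small D he hm hvG hvm hvNb
  refine ⟨D.h τ * n0, ?_, n, hn, hnm, hnNb, y, hy, hym, hyNb, ?_⟩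
  · exact mul_mem ((le_sup_left : D.T ≤ D.T ⊔ D.N) ⟨τ, rfl⟩)
      ((le_sup_right : D.N ≤ D.T ⊔ D.N) hn0)
  · calc e * g = (e * g * e⁻¹) * e := by group
      _ = D.h τ * n0 * y0 * e := by rw [hv0]
      _ = D.h τ * n0 * e * (e⁻¹ * y0 * e) := by group
      _ = D.h τ * n0 * e * (n * y) := by rw [hny]
      _ = D.h τ * n0 * e * n * y := by rw [mul_assoc (D.h τ * n0 * e) n y]

end Pool.Agent.Chev
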