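import Mathlib
import Pool.Agent.Helper911_Chev.Defs3
import Pool.Agent.Helper911_Chev.CA1
import Pool.Agent.Helper911_Chev.CA2
import Pool.Agent.Helper911_Chev.CA3
import Pool.Agent.Helper911_Chev.CB4
import Pool.Agent.Helper911_Chev.CW1
import Pool.Agent.Helper911_Chev.CW2
import Pool.Agent.Helper911_Chev.CE1
import Pool.Agent.Helper911_Chev.CH3
import Pool.Agent.Helper911_Chev.CH4
import Pool.Agent.Helper911_Chev.CH8
import Pool.Agent.Helper911_Chev.CH9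
import Pool.Agent.Helper911_Chev.CH1
import Pool.Agent.Helper911_Chev.CH12
import Pool.Agent.Helper911_Chev.DF2

set_option autoImplicit false
set_option linter.unusedSectionVars false
set_option maxHeartbeats 1000000

noncomputable section

open Matrix Topology

namespace Pool.Agent.Chev

open ChevData

variable {p : ℕ} [Fact p.Prime] {I ι : Type} [Fintype I] [DecidableEq I] [Fintype ι]
  [DecidableEq ι] (D : ChevData p I ι)

/-! ======= TARGETS ======= -/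

/-- TARGET.
Proof. Let `M ≥ 1` be so large that `n v ∈ O1` and `v y ∈ O2` for all `v ∈ Cg M` (`Cg_small`, continuity). Let `g0 = e n`. Choose `m' ≥ 1` with `g0⁻¹ (Cg m') g0 ⊆ Cg M`, then `m ≥ 1` with `g0 y (Cg m) y⁻¹ g0⁻¹ ⊆ Cg m'` (`Cg_open`, `Cg_small`, continuity of conjugation). For `c ∈ G ∩ Cg m`: `c1 = g0 (y c y⁻¹) g0⁻¹ ∈ G ∩ Cg m'` (`g0, y ∈ G`: `NN_le_G`, `N_le_G`, `Nb_le_G`), `c1 = h(τ) n0 y0` (`iwahori_G`), `y0 ∈ Nb ∩ Cg m'`.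
`v = g0⁻¹ y0 g0 ∈ G ∩ Cg M` and `e v e⁻¹ = (e n e⁻¹)⁻¹ y0 (e n e⁻¹) ∈ Nb`. `PQ_small`: `v = n2 y2`. So `b e n y c = b c1 g0 y = b h(τ) n0 y0 g0 y = (b h(τ) n0) g0 v y = (b h(τ) n0) e (n n2) (y2 y)`. -/
theorem chart_open_G {e : GLm p ι} (he : e ∈ D.NN) {O1 O2 : Set (GLm p ι)} (h1 : IsOpen O1)
    (h2 : IsOpen O2) {b n y : GLm p ι} (hb : b ∈ D.B) (hn : n ∈ D.N) (hn' : e * n * e⁻¹ ∈ D.Nb)
    (hy : y ∈ D.Nb) (hy' : e * y * e⁻¹ ∈ D.Nb) (hn1 : n ∈ O1) (hy2 : y ∈ O2) :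
    ∃ m : ℕ, 1 ≤ m ∧ ∀ c ∈ D.G, c ∈ Cg p ι m → ∃ b' ∈ D.B, ∃ n' ∈ D.N, e * n' * e⁻¹ ∈ D.Nb ∧
      ∃ y' ∈ D.Nb, e * y' * e⁻¹ ∈ D.Nb ∧ n' ∈ O1 ∧ y' ∈ O2 ∧ b * e * n * y * c = b' * e * n' * y' := by
  classical
  obtain ⟨M, hM, hMs⟩ := Cg_small (p := p) (ι := ι)
    ((fun v : GLm p ι => n * v) ⁻¹' O1 ∩ (fun v : GLm p ι => v * y) ⁻¹' O2) (by
      apply Filter.inter_mem
      · apply (h1.preimage (continuous_const_mul n)).mem_nhds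
        simpa using hn1
      · apply (h2.preimage (continuous_mul_const y)).mem_nhds
        simpa using hy2)
  have hconj : ∀ (g : GLm p ι) (k : ℕ), ∃ m : ℕ, 1 ≤ m ∧ ∀ c ∈ Cg p ι m, g * c * g⁻¹ ∈ Cg p ι k := by
    intro g k
    obtain ⟨m, hm, hms⟩ := Cg_small (p := p) (ι := ι)
      ((fun v : GLm p ι => g * v * g⁻¹) ⁻¹' (Cg p ι k : Set (GLm p ι))) (by
        apply ((Cg_open k).preimage
          ((continuous_mul_const g⁻¹).comp (continuous_const_mul g))).mem_nhds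
        simp [one_mem])
    exact ⟨m, hm, fun c hc => hms hc⟩
  obtain ⟨m', hm', hm's⟩ := hconj (e * n)⁻¹ M
  obtain ⟨m, hm, hms⟩ := hconj (e * n * y) m'
  refine ⟨m, hm, ?_⟩
  intro c hcG hcm
  have heG : e ∈ D.G := NN_le_G D he
  have hnG : n ∈ D.G := N_le_G D hn
  have hyG : y ∈ D.G := Nb_le_G D hy
  have hg0 : e * n * y ∈ D.G := mul_mem (mul_mem heG hnG) hyG
  obtain ⟨τ, hτ, n0, hn0, hn0m, y0, hy0, hy0m, hc1⟩ := iwahori_G D m' hm'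
    (g := (e * n * y) * c * (e * n * y)⁻¹) (mul_mem (mul_mem hg0 hcG) (inv_mem hg0)) (hms c hcm)
  have hvM : (e * n)⁻¹ * y0 * ((e * n)⁻¹)⁻¹ ∈ Cg p ι M := hm's y0 hy0m
  rw [inv_inv] at hvM
  have hvG : (e * n)⁻¹ * y0 * (e * n) ∈ D.G :=
    mul_mem (mul_mem (inv_mem (mul_mem heG hnG)) (Nb_le_G D hy0)) (mul_mem heG hnG)
  have hvNb : e * ((e * n)⁻¹ * y0 * (e * n)) * e⁻¹ ∈ D.Nb := by
    have : e * ((e * n)⁻¹ * y0 * (e * n)) * e⁻¹ = (e * n * e⁻¹)⁻¹ * y0 * (e * n * e⁻¹) := by group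
    rw [this]
    exact mul_mem (mul_mem (inv_mem hn') hy0) hn'
  obtain ⟨n2, hn2, hn2m, hn2', y2, hy2m', hy2m, hy2', hv⟩ := PQ_small D he hM hvG hvM hvNb
  refine ⟨b * D.h τ * n0, ?_, n * n2, mul_mem hn hn2, ?_, y2 * y, mul_mem hy2m' hy, ?_, ?_, ?_, ?_⟩
  · apply mul_mem (mul_mem hb ?_) ?_
    · exact (le_sup_left : D.T ≤ D.T ⊔ D.N) ⟨τ, rfl⟩
    · exact (le_sup_right : D.N ≤ D.T ⊔ D.N) hn0
  · have : e * (n * n2) * e⁻¹ = (e * n * e⁻¹) * (e * n2 * e⁻¹) := by group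
    rw [this]
    exact mul_mem hn' hn2'
  · have : e * (y2 * y) * e⁻¹ = (e * y2 * e⁻¹) * (e * y * e⁻¹) := by group
    rw [this]
    exact mul_mem hy2' hy'
  · exact (hMs hn2m).1
  · exact (hMs hy2m).2
  · have e1 : b * e * n * y * c = b * ((e * n * y) * c * (e * n * y)⁻¹) * (e * n * y) := by group
    rw [e1, hc1]
    have e2 : b * (D.h τ * n0 * y0) * (e * n * y) =
        (b * D.h τ * n0) * (e * n) * ((e * n)⁻¹ * y0 * (e * n)) * y := by group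
    rw [e2, hv]
    group

end Pool.Agent.Chev
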