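import Mathlib
import Pool.Agent.Helper911_Chev.Defs3
import Pool.Agent.Helper911_Chev.CA1
import Pool.Agent.Helper911_Chev.CA2
import Pool.Agent.Helper911_Chev.CA3
import Pool.Agent.Helper911_Chev.CH0
import Pool.Agent.Helper911_Chev.CB3
import Pool.Agent.Helper911_Chev.DF1
import Pool.Agent.Helper911_Chev.CH1

set_option autoImplicit false
set_option linter.unusedSectionVars false
set_option maxHeartbeats 1000000

noncomputable section

open Matrix Topology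

namespace Pool.Agent.Chev

open ChevData

variable {p : ℕ} [Fact p.Prime] {I ι : Type} [Fintype I] [DecidableEq I] [Fintype ι]
  [DecidableEq ι] (D : ChevData p I ι)

/-- A set meeting every orbit of the powers of `u` exactly once. -/
theorem df5_transversal {G : Type} [Group G] (mul_comm : ∀ a b : G, a * b = b * a) {n : ℕ}
    {u : G} (hn : 0 < n)
    (hu : orderOf u = n) :
    ∃ Z : Set G, ∀ g, ∃! s : Fin n, (u ^ (s : ℕ))⁻¹ * g ∈ Z := by
  classical
  let H := Subgroup.zpowers u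
  let r : G → G := fun g => Quotient.out (QuotientGroup.mk g : G ⧸ H)
  have hr : ∀ g, g⁻¹ * r g ∈ H := by
    intro g
    rw [← QuotientGroup.eq]
    exact (QuotientGroup.out_eq' _).symm
  have hr2 : ∀ g (s : ℕ), r ((u ^ s)⁻¹ * g) = r g := by
    intro g s
    have : (QuotientGroup.mk ((u ^ s)⁻¹ * g) : G ⧸ H) = QuotientGroup.mk g := by
      rw [QuotientGroup.eq]
      have h : ((u ^ s)⁻¹ * g)⁻¹ * g = u ^ s := by
        rw [_root_.mul_inv_rev, inv_inv, mul_assoc, mul_comm (u ^ s) g, ← mul_assoc, inv_mul_cancel,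
          one_mul]
      rw [h]
      exact Subgroup.npow_mem_zpowers u s
    show Quotient.out _ = Quotient.out _
    rw [this]
  refine ⟨{g | r g = g}, fun g => ?_⟩
  have hfin : IsOfFinOrder u := by
    rw [← orderOf_pos_iff, hu]; exact hn
  have hmem : g * (r g)⁻¹ ∈ Subgroup.zpowers u := by
    have h := Subgroup.inv_mem _ (hr g)
    rw [_root_.mul_inv_rev, inv_inv, mul_comm] at h
    exact h
  have key : ∀ s : ℕ, (u ^ s)⁻¹ * g ∈ {g | r g = g} ↔ u ^ s = g * (r g)⁻¹ := by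
    intro s
    rw [show ((u ^ s)⁻¹ * g ∈ {g | r g = g}) = (r ((u ^ s)⁻¹ * g) = (u ^ s)⁻¹ * g) from rfl, hr2,
      eq_mul_inv_iff_mul_eq, eq_inv_mul_iff_mul_eq]
  rw [hfin.mem_zpowers_iff_mem_range_orderOf, Finset.mem_image] at hmem
  obtain ⟨s, hs, hs2⟩ := hmem
  rw [Finset.mem_range, hu] at hs
  refine ⟨⟨s, hs⟩, (key s).2 hs2, ?_⟩
  intro t ht
  have ht' := (key t).1 ht
  apply Fin.ext
  apply pow_injOn_Iio_orderOf (x := u)
  · rw [hu]; exact t.2
  · rw [hu]; exact hs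
  · show u ^ (t : ℕ) = u ^ s
    rw [ht']; exact hs2.symm


theorem df5_norm_one {ε : ℝ} (hε : ε ≤ 1) {v : ℚ_[p]ˣ} (hv : ‖(v : ℚ_[p]) - 1‖ < ε) :
    ‖(v : ℚ_[p])‖ = 1 := by
  have h : ‖(v : ℚ_[p]) - 1‖ < ‖(1 : ℚ_[p])‖ := by
    rw [norm_one]; exact lt_of_lt_of_le hv hε
  have h2 : (v : ℚ_[p]) = ((v : ℚ_[p]) - 1) + 1 := by ring
  rw [h2, IsUltrametricDist.norm_add_eq_max_of_norm_ne_norm (ne_of_lt h), max_eq_right h.le,
    norm_one]

/-- The group of units at distance `< ε` from `1`. -/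
def df5V (p : ℕ) [Fact p.Prime] (ε : ℝ) (h0 : 0 < ε) (hε : ε ≤ 1) : Subgroup ℚ_[p]ˣ where
  carrier := {v | ‖(v : ℚ_[p]) - 1‖ < ε}
  mul_mem' := by
    intro v w hv hw
    have h1 := df5_norm_one hε hv
    show ‖((v * w : ℚ_[p]ˣ) : ℚ_[p]) - 1‖ < ε
    have h2 : ((v * w : ℚ_[p]ˣ) : ℚ_[p]) - 1 = (v : ℚ_[p]) * ((w : ℚ_[p]) - 1) + ((v : ℚ_[p]) - 1) := by
      rw [Units.val_mul]; ring
    rw [h2]
    refine (IsUltrametricDist.norm_add_le_max _ _).trans_lt (max_lt ?_ hv)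
    rw [norm_mul, h1, one_mul]; exact hw
  one_mem' := by
    show ‖((1 : ℚ_[p]ˣ) : ℚ_[p]) - 1‖ < ε
    simpa using h0
  inv_mem' := by
    intro v hv
    have h1 := df5_norm_one hε hv
    show ‖((v⁻¹ : ℚ_[p]ˣ) : ℚ_[p]) - 1‖ < ε
    have h2 : ((v⁻¹ : ℚ_[p]ˣ) : ℚ_[p]) - 1 = ((v⁻¹ : ℚ_[p]ˣ) : ℚ_[p]) * (1 - (v : ℚ_[p])) := by
      rw [mul_sub, mul_one, Units.inv_mul]
    rw [h2, norm_mul, norm_sub_rev, Units.val_inv_eq_inv_val, norm_inv, h1, inv_one, one_mul]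
    exact hv

theorem df5V_open (ε : ℝ) (h0 : 0 < ε) (hε : ε ≤ 1) :
    IsOpen (df5V p ε h0 hε : Set ℚ_[p]ˣ) := by
  have : (df5V p ε h0 hε : Set ℚ_[p]ˣ) = (fun v : ℚ_[p]ˣ => ‖(v : ℚ_[p]) - 1‖) ⁻¹' Set.Iio ε := rfl
  rw [this]
  exact isOpen_Iio.preimage ((Units.continuous_val.sub continuous_const).norm)

/-- An open and closed set of units meeting every orbit of `u` modulo small units once. -/
theorem df5_units {u : ℚ_[p]ˣ} (h1 : u ≠ 1) (h2 : ‖(u : ℚ_[p]) - 1‖ < 1) :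
    ∃ Z : Set ℚ_[p]ˣ, IsOpen Z ∧ IsOpen Zᶜ ∧ ∀ z, ∃! s : Fin p, (u ^ (s : ℕ))⁻¹ * z ∈ Z := by
  have hp : p.Prime := Fact.out
  have hne : (u : ℚ_[p]) - 1 ≠ 0 := by
    intro h
    apply h1
    apply Units.ext
    rw [Units.val_one]
    exact sub_eq_zero.1 h
  have h0 : 0 < ‖(u : ℚ_[p]) - 1‖ := norm_pos_iff.2 hne
  set V := df5V p _ h0 h2.le with hV
  have hVo : IsOpen (V : Set ℚ_[p]ˣ) := df5V_open _ h0 h2.le
  have : DiscreteTopology (ℚ_[p]ˣ ⧸ V) := QuotientGroup.discreteTopology hVo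
  have hord : orderOf (QuotientGroup.mk u : ℚ_[p]ˣ ⧸ V) = p := by
    apply orderOf_eq_prime
    · rw [← QuotientGroup.mk_pow, QuotientGroup.eq_one_iff]
      show ‖((u ^ p : ℚ_[p]ˣ) : ℚ_[p]) - 1‖ < ‖(u : ℚ_[p]) - 1‖
      rw [Units.val_pow_eq_pow_val, ← mul_geom_sum, norm_mul]
      have h3 : ‖∑ i ∈ Finset.range p, (u : ℚ_[p]) ^ i‖ < 1 := by
        have h4 : ∑ i ∈ Finset.range p, (u : ℚ_[p]) ^ i
            = ∑ i ∈ Finset.range p, ((u : ℚ_[p]) ^ i - 1) + (p : ℚ_[p]) := by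
          rw [Finset.sum_sub_distrib]; simp
        rw [h4]
        refine (IsUltrametricDist.norm_add_le_max _ _).trans_lt (max_lt ?_ ?_)
        · refine lt_of_le_of_lt (IsUltrametricDist.norm_sum_le_of_forall_le_of_nonneg h0.le ?_) h2
          intro i _
          rw [← mul_geom_sum, norm_mul]
          refine mul_le_of_le_one_right h0.le ?_
          refine IsUltrametricDist.norm_sum_le_of_forall_le_of_nonneg zero_le_one ?_
          intro k _
          rw [norm_pow, df5_norm_one le_rfl h2, one_pow]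
        · exact Padic.norm_p_lt_one
      exact mul_lt_of_lt_one_right h0 h3
    · intro h
      rw [QuotientGroup.eq_one_iff] at h
      have h' : ‖(u : ℚ_[p]) - 1‖ < ‖(u : ℚ_[p]) - 1‖ := h
      exact lt_irrefl _ h'
  have hcomm : ∀ a b : ℚ_[p]ˣ ⧸ V, a * b = b * a := by
    intro a b
    induction a using QuotientGroup.induction_on with
    | H a =>
      induction b using QuotientGroup.induction_on with
      | H b => rw [← QuotientGroup.mk_mul, ← QuotientGroup.mk_mul, mul_comm]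
  obtain ⟨Z, hZ⟩ := df5_transversal hcomm hp.pos hord
  refine ⟨QuotientGroup.mk ⁻¹' Z, ?_, ?_, ?_⟩
  · exact (isOpen_discrete Z).preimage QuotientGroup.continuous_mk
  · rw [← Set.preimage_compl]
    exact (isOpen_discrete Zᶜ).preimage QuotientGroup.continuous_mk
  · intro z
    have := hZ (QuotientGroup.mk z)
    simpa only [Set.mem_preimage, QuotientGroup.mk_mul, QuotientGroup.mk_inv, QuotientGroup.mk_pow]
      using this


theorem df5_hc_inv (c : I → ℤ) (a : ℚ_[p]ˣ) : D.hc c a⁻¹ = (D.hc c a)⁻¹ := by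
  unfold ChevData.hc
  rw [← map_inv]
  congr 1
  funext k
  rw [Pi.inv_apply, _root_.inv_zpow]

theorem df5_entry (c : I → ℤ) (a : ℚ_[p]ˣ) (x : GLm p ι) (i j : ι) :
    (((D.hc c a)⁻¹ * x * D.hc c a : GLm p ι) : Matrix ι ι ℚ_[p]) i j - (1 : Matrix ι ι ℚ_[p]) i j
      = (((a ^ (∑ k, c k * (D.wt i - D.wt j) k))⁻¹ : ℚ_[p]ˣ) : ℚ_[p])
        * ((x : Matrix ι ι ℚ_[p]) i j - (1 : Matrix ι ι ℚ_[p]) i j) := by
  have h := hc_conj_apply D c a⁻¹ x i j
  rw [df5_hc_inv, inv_inv, _root_.inv_zpow] at h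
  rw [h]
  by_cases hij : i = j
  · subst hij
    simp
  · rw [Matrix.one_apply_ne hij, sub_zero, sub_zero]

theorem df5_zpow_mem {ε : ℝ} {h0 : 0 < ε} {hε : ε ≤ 1} {a : ℚ_[p]ˣ} (ha : a ∈ df5V p ε h0 hε)
    (n : ℤ) : ‖((a ^ n : ℚ_[p]ˣ) : ℚ_[p]) - 1‖ < ε := Subgroup.zpow_mem _ ha n

theorem df5_exists_a (m : ℕ) : ∃ a : ℚ_[p]ˣ, ‖(a : ℚ_[p]) - 1‖ < (p : ℝ) ^ (-(m : ℤ)) ∧
    ∀ n : ℤ, n ≠ 0 → a ^ n ≠ 1 := by
  have hp : p.Prime := Fact.out
  have hne : ((1 + p ^ (m + 1) : ℕ) : ℚ_[p]) ≠ 0 := by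
    rw [Nat.cast_ne_zero]; positivity
  refine ⟨Units.mk0 _ hne, ?_, ?_⟩
  · have h1 : ((Units.mk0 _ hne : ℚ_[p]ˣ) : ℚ_[p]) - 1 = (p : ℚ_[p]) ^ (m + 1) := by
      rw [Units.val_mk0]; push_cast; ring
    rw [h1, Padic.norm_p_pow]
    apply zpow_lt_zpow_right₀
    · exact_mod_cast hp.one_lt
    · push_cast; omega
  · intro n hn h
    have hfin : IsOfFinOrder (Units.mk0 _ hne : ℚ_[p]ˣ) := isOfFinOrder_iff_zpow_eq_one.2 ⟨n, hn, h⟩
    obtain ⟨k, hk, hk2⟩ := isOfFinOrder_iff_pow_eq_one.1 hfin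
    have h2 := congrArg (fun v : ℚ_[p]ˣ => (v : ℚ_[p])) hk2
    simp only [Units.val_pow_eq_pow_val, Units.val_mk0, Units.val_one] at h2
    have h3 : ((1 + p ^ (m + 1)) ^ k : ℕ) = 1 := by
      have : (((1 + p ^ (m + 1)) ^ k : ℕ) : ℚ_[p]) = ((1 : ℕ) : ℚ_[p]) := by
        rw [Nat.cast_pow, h2, Nat.cast_one]
      exact_mod_cast this
    have h4 : 1 < (1 + p ^ (m + 1)) ^ k := by
      apply one_lt_pow₀ _ hk.ne'
      have := pow_pos hp.pos (m + 1)
      omega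
    omega



/-! ======= TARGETS ======= -/

/-- TARGET.
Proof. Use the cocharacter `c = lam`-like `c = - (D.A.adjugate *ᵥ fun _ => D.A.det)`, for which `d_ij = ∑_k c k * (wt i - wt j) k ≥ 1` at all nonzero entries `(i, j)` of `x - 1`, `x ∈ UM`. Conjugation by `hc c a` multiplies the entry `(i, j)` by `a ^ d_ij` (this holds for all `(i, j)` with the integer `d_ij`).
(1) `D0` is compact: there is `R ≥ 1` bounding all entries of all `x ∈ D0`, and `δ > 0` such that every `x ∈ D0` has an entry `(i, j)` with `‖(x - 1) i j‖ ≥ δ`. There is `0 < ρ < δ`, a power of `p`, such that for all `x ∈ D0` the box `B(x, ρ) = {x' ∈ Q | ‖x' i j - x i j‖ ≤ ρ ∀ i j}` is contained in `D0` (compactness; matrices in `UM` close to `x` are close to `x` in `GLm` because the inverse of `g ∈ UM` is the polynomial `∑_{m < card ι} (1 - g)^m` in `g`). The boxes are equivalence classes (ultrametric), each open in `Q` and compact (closed, bounded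 in `UM`), so `D0` is a
finite disjoint union of boxes. By additivity it suffices to treat one box `B = B(x0, ρ)`; let `(i, j)` be an entry with `‖(x0 - 1) i j‖ ≥ δ > ρ`, `d = d_ij ≥ 1`, so all `x ∈ B` have `‖(x-1) i j‖ = ‖(x0-1) i j‖ = κ`.
(2) Let `M' ≥ 2` be large and `a_s = 1 + p^M' * s`, `s = 0, ..., p - 1`. For large `M'`, `hc c a_s ∈ U` (`U ∈ 𝓝 1`), and for `x ∈ B` conjugation by `hc c (a_s)` or its inverse changes the entries by at most `p^(-M') R ≤ ρ`, so it preserves `B` (apply it to `Q` with `hQT`). `(1 + p^M' s)^d = 1 + d p^M' s + (terms of norm < ‖d p^M'‖)`, more precisely `‖(1 + p^M' s)^d - 1 - d p^M' s‖ ≤ ‖d‖ p^(-M'-1)` for `M' ≥ 2`. Let `ρ2 = κ ‖d‖ p^(-M')`, which is `≤ ρ` for large `M'`.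
For `c0` with `‖c0‖ = κ` the disc `‖z - c0‖ ≤ ρ2` is the disjoint union of the `p` discs `‖z - a_s^d c0‖ ≤ ρ2 / p`, `s = 0, ..., p-1` (the numbers `a_s^d c0 ≡ c0 + d p^M' s c0` modulo discs of radius `ρ2/p` represent the `p` residue classes), and `z ↦ a_s^(-d) z` maps the `s`-th one onto `‖z - c0‖ ≤ ρ2 / p`.
(3) `B` is the finite disjoint union of the sets `B_{c0} = {x ∈ B | ‖(x - 1) i j - c0‖ ≤ ρ2}` for finitely many `c0` (the entries of elements of `B`), and `1_{B_{c0}}(x) = ∑_s 1_{D'_{c0}} (h_s⁻¹ x h_s)` with `D'_{c0} = {x ∈ B | ‖(x-1) i j - c0‖ ≤ ρ2 / p}`, `h_s = hc c a_s`. (`hc c a = h (fun k => a ^ c k)` by definition.) -/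
theorem torus_decomp_G {Q : Subgroup (GLm p ι)} (hQ : Q ≤ D.UM) (hQc : IsClosed (Q : Set (GLm p ι)))
    (hQT : ∀ τ : I → ℚ_[p]ˣ, ∀ x ∈ Q, D.h τ * x * (D.h τ)⁻¹ ∈ Q) {U : Set (GLm p ι)} (hU : U ∈ 𝓝 1)
    {D0 : Set (GLm p ι)} (hD : IsCompact D0) (h1 : (1 : GLm p ι) ∉ D0)
    (hO : ∃ O, IsOpen O ∧ D0 = O ∩ Q) :
    ∃ (r : ℕ) (D' : Fin r → Set (GLm p ι)) (t : Fin r → Fin p → I → ℚ_[p]ˣ),
      (∀ j s, D.h (t j s) ∈ U) ∧
      (∀ j, IsCompact (D' j) ∧ ∃ O, IsOpen O ∧ D' j = O ∩ Q) ∧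
      ∀ x ∈ Q, Set.indicator D0 (fun _ => (1 : ℤ)) x
        = ∑ j, ∑ s, Set.indicator (D' j) (fun _ => (1 : ℤ))
            ((D.h (t j s))⁻¹ * x * D.h (t j s)) := by
  classical
  obtain ⟨O, hOo, hOe⟩ := hO
  have hp : p.Prime := Fact.out
  have hcont : ∀ e : ι × ι, Continuous (fun x : GLm p ι => ((x : Matrix ι ι ℚ_[p]) - 1) e.1 e.2) :=
    fun e => (Units.continuous_val.sub continuous_const).matrix_elem e.1 e.2
  -- threshold
  have hδ : ∃ δ : ℝ, 0 < δ ∧ ∀ x ∈ D0, ∃ e : ι × ι,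
      δ ≤ ‖((x : Matrix ι ι ℚ_[p]) - 1) e.1 e.2‖ := by
    have hfc : Continuous (fun x : GLm p ι => ∑ e : ι × ι, ‖((x : Matrix ι ι ℚ_[p]) - 1) e.1 e.2‖) :=
      continuous_finsetSum _ fun e _ => (hcont e).norm
    have hpos : ∀ x ∈ D0, (0 : ℝ) < ∑ e : ι × ι, ‖((x : Matrix ι ι ℚ_[p]) - 1) e.1 e.2‖ := by
      intro x hx
      by_contra hcon
      apply h1
      have hx1 : x = 1 := by
        apply Units.ext
        rw [Units.val_one, ← sub_eq_zero]
        ext i j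
        by_contra hne
        apply hcon
        refine Finset.sum_pos' (fun e _ => norm_nonneg _) ⟨(i, j), Finset.mem_univ _, ?_⟩
        exact norm_pos_iff.2 hne
      rw [← hx1]; exact hx
    obtain ⟨m, hm, hm2⟩ := hD.exists_forall_le' hfc.continuousOn hpos
    refine ⟨m / (Fintype.card (ι × ι) + 1), by positivity, fun x hx => ?_⟩
    by_contra hcon
    push Not at hcon
    have h2 := hm2 x hx
    have h3 : ∑ e : ι × ι, ‖((x : Matrix ι ι ℚ_[p]) - 1) e.1 e.2‖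
        ≤ ∑ e : ι × ι, m / (Fintype.card (ι × ι) + 1) :=
      Finset.sum_le_sum fun e _ => (hcon e).le
    rw [Finset.sum_const, nsmul_eq_mul, Finset.card_univ] at h3
    have h4 : (Fintype.card (ι × ι) : ℝ) * (m / (Fintype.card (ι × ι) + 1)) < m := by
      rw [mul_div_assoc', div_lt_iff₀ (by positivity)]
      nlinarith
    linarith
  obtain ⟨δ, hδ0, hδ⟩ := hδ
  -- indices
  set r := Fintype.card (ι × ι) with hr
  let pr : Fin r → ι × ι := (Fintype.equivFin (ι × ι)).symm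
  let y : Fin r → GLm p ι → ℚ_[p] := fun j x => ((x : Matrix ι ι ℚ_[p]) - 1) (pr j).1 (pr j).2
  have hyc : ∀ j, Continuous (y j) := fun j => hcont (pr j)
  let C : Fin r → Set (GLm p ι) := fun j => {x | ‖y j x‖ < δ}
  have hC : ∀ j, IsClopen (C j) := by
    intro j
    have h : C j = y j ⁻¹' Metric.ball 0 δ := by
      ext x
      show ‖y j x‖ < δ ↔ y j x ∈ Metric.ball 0 δ
      rw [mem_ball_zero_iff]
    rw [h]
    exact (IsUltrametricDist.isClopen_ball 0 δ).preimage (hyc j)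
  let K : Fin r → Set (GLm p ι) := fun j => (C j)ᶜ ∩ ⋂ k : {k : Fin r // k < j}, C k
  have hK : ∀ j, IsClopen (K j) := fun j =>
    (hC j).compl.inter (isClopen_iInter_of_finite fun k => hC k)
  have hKmem : ∀ j x, x ∈ K j ↔ (δ ≤ ‖y j x‖ ∧ ∀ k < j, ‖y k x‖ < δ) := by
    intro j x
    show (x ∈ (C j)ᶜ ∧ x ∈ ⋂ k : {k : Fin r // k < j}, C k) ↔ _
    rw [Set.mem_iInter, Set.mem_compl_iff]
    show ((¬ ‖y j x‖ < δ) ∧ _) ↔ _
    rw [not_lt]
    constructor
    · rintro ⟨h, h'⟩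
      exact ⟨h, fun k hk => h' ⟨k, hk⟩⟩
    · rintro ⟨h, h'⟩
      exact ⟨h, fun k => h' k.1 k.2⟩
  have hKex : ∀ x ∈ D0, ∃! j, x ∈ K j := by
    intro x hx
    obtain ⟨e, he⟩ := hδ x hx
    have hne : ({j : Fin r | δ ≤ ‖y j x‖}).Nonempty := by
      refine ⟨Fintype.equivFin (ι × ι) e, ?_⟩
      show δ ≤ ‖((x : Matrix ι ι ℚ_[p]) - 1) (pr _).1 (pr _).2‖
      have : pr (Fintype.equivFin (ι × ι) e) = e := Equiv.symm_apply_apply _ _
      rw [this]; exact he
    obtain ⟨j, hj, hj2⟩ := WellFounded.has_min (wellFounded_lt (α := Fin r)) _ hne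
    have hjK : x ∈ K j := by
      rw [hKmem]
      refine ⟨hj, fun k hk => ?_⟩
      by_contra hcon
      exact hj2 k (not_lt.1 hcon) hk
    refine ⟨j, hjK, fun k hk => ?_⟩
    have hk' := (hKmem k x).1 hk
    have hj' := (hKmem j x).1 hjK
    rcases lt_trichotomy k j with h | h | h
    · exact absurd (hj'.2 k h) (not_lt.2 hk'.1)
    · exact h
    · exact absurd (hk'.2 j h) (not_lt.2 hj'.1)
  -- torus elements near 1 preserve D0
  have hev : ∀ᶠ h in 𝓝 (1 : GLm p ι), ∀ x ∈ D0, h⁻¹ * x * h ∈ O ∧ h * x * h⁻¹ ∈ O := by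
    apply hD.eventually_forall_of_forall_eventually
    intro x hx
    have hxO : x ∈ O := by rw [hOe] at hx; exact hx.1
    apply Filter.Eventually.and
    · have hc : Continuous (fun z : GLm p ι × GLm p ι => z.1⁻¹ * z.2 * z.1) :=
        ((continuous_fst.inv).mul continuous_snd).mul continuous_fst
      apply hc.continuousAt.eventually_mem
      apply hOo.mem_nhds
      simpa using hxO
    · have hc : Continuous (fun z : GLm p ι × GLm p ι => z.1 * z.2 * z.1⁻¹) :=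
        (continuous_fst.mul continuous_snd).mul (continuous_fst.inv)
      apply hc.continuousAt.eventually_mem
      apply hOo.mem_nhds
      simpa using hxO
  obtain ⟨m, hm1, hm2⟩ := Cg_small _ (Filter.inter_mem hU hev)
  obtain ⟨a, ha, ha2⟩ := df5_exists_a (p := p) m
  have hε0 : 0 < (p : ℝ) ^ (-(m : ℤ)) := pw_pos p _
  have hε1 : (p : ℝ) ^ (-(m : ℤ)) ≤ 1 := pw_le_one p m
  have haV : a ∈ df5V p _ hε0 hε1 := ha
  let c : I → ℤ := fun k => - lam D k
  have hmem : ∀ s : ℕ, D.hc c (a ^ s) ∈ U ∩ {h | ∀ x ∈ D0, h⁻¹ * x * h ∈ O ∧ h * x * h⁻¹ ∈ O} := by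
    intro s
    apply hm2
    apply Cg_of_val hm1
    intro i j
    rw [Matrix.sub_apply, hc_apply]
    by_cases hij : i = j
    · rw [if_pos hij, hij, Matrix.one_apply_eq]
      exact (df5_zpow_mem (Subgroup.pow_mem _ haV s) _).le
    · rw [if_neg hij, Matrix.one_apply_ne hij, sub_zero, norm_zero]
      exact hε0.le
  have hQ1 : ∀ s : ℕ, ∀ x ∈ Q, (D.hc c (a ^ s))⁻¹ * x * D.hc c (a ^ s) ∈ Q := by
    intro s x hx
    have h := hQT (fun k => ((a ^ s)⁻¹) ^ c k) x hx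
    have h' : D.h (fun k => ((a ^ s)⁻¹) ^ c k) = (D.hc c (a ^ s))⁻¹ := df5_hc_inv D c (a ^ s)
    rw [h', inv_inv] at h
    exact h
  have hD1 : ∀ s : ℕ, ∀ x ∈ Q, ((D.hc c (a ^ s))⁻¹ * x * D.hc c (a ^ s) ∈ D0 ↔ x ∈ D0) := by
    intro s x hx
    constructor
    · intro h
      have h2 := ((hmem s).2 _ h).2
      have h3 : D.hc c (a ^ s) * ((D.hc c (a ^ s))⁻¹ * x * D.hc c (a ^ s)) * (D.hc c (a ^ s))⁻¹ = x := by
        group
      rw [h3] at h2
      rw [hOe]; exact ⟨h2, hx⟩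
    · intro h
      have h2 := ((hmem s).2 _ h).1
      rw [hOe]; exact ⟨h2, hQ1 s x hx⟩
  let d : Fin r → ℤ := fun j => ∑ k, c k * (D.wt (pr j).1 - D.wt (pr j).2) k
  have hy1 : ∀ (s : ℕ) x j, y j ((D.hc c (a ^ s))⁻¹ * x * D.hc c (a ^ s))
      = (((((a ^ d j) ^ s)⁻¹ : ℚ_[p]ˣ)) : ℚ_[p]) * y j x := by
    intro s x j
    have h := df5_entry D c (a ^ s) x (pr j).1 (pr j).2
    have h' : (a ^ s) ^ (∑ k, c k * (D.wt (pr j).1 - D.wt (pr j).2) k) = (a ^ d j) ^ s := by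
      show (a ^ s) ^ (d j) = (a ^ d j) ^ s
      rw [← zpow_natCast, ← _root_.zpow_mul, ← zpow_natCast, ← _root_.zpow_mul, mul_comm]
    rw [h'] at h
    exact h
  have hnorm : ∀ (s : ℕ) x j, ‖y j ((D.hc c (a ^ s))⁻¹ * x * D.hc c (a ^ s))‖ = ‖y j x‖ := by
    intro s x j
    rw [hy1, norm_mul]
    have h : ((a ^ d j) ^ s)⁻¹ ∈ df5V p _ hε0 hε1 :=
      Subgroup.inv_mem _ (Subgroup.pow_mem _ (Subgroup.zpow_mem _ haV _) _)
    rw [df5_norm_one hε1 h, one_mul]
  have hK1 : ∀ (s : ℕ) x j, (D.hc c (a ^ s))⁻¹ * x * D.hc c (a ^ s) ∈ K j ↔ x ∈ K j := by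
    intro s x j
    rw [hKmem, hKmem]
    simp only [hnorm]
  -- the sets of units
  have hZ : ∀ j, ∃ Z : Set ℚ_[p]ˣ, IsOpen Z ∧ IsOpen Zᶜ ∧
      (d j ≠ 0 → ∀ z, ∃! s : Fin p, ((a ^ d j) ^ (s : ℕ))⁻¹ * z ∈ Z) := by
    intro j
    by_cases hd : d j = 0
    · exact ⟨∅, isOpen_empty, by simp, fun h => absurd hd h⟩
    · obtain ⟨Z, h1, h2, h3⟩ := df5_units (ha2 _ hd)
        ((df5_zpow_mem haV (d j)).trans_le hε1)
      exact ⟨Z, h1, h2, fun _ => h3⟩
  choose Z hZ1 hZ2 hZ3 using hZ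
  let S : Fin r → Set (GLm p ι) := fun j => {x | ∃ v ∈ Z j, (v : ℚ_[p]) = y j x}
  let S' : Fin r → Set (GLm p ι) := fun j => {x | ∃ v ∈ (Z j)ᶜ, (v : ℚ_[p]) = y j x}
  have hSo : ∀ j, IsOpen (S j) := fun j =>
    (Units.isOpenMap_val _ (hZ1 j)).preimage (hyc j)
  have hSo' : ∀ j, IsOpen (S' j) := fun j =>
    (Units.isOpenMap_val _ (hZ2 j)).preimage (hyc j)
  let L : Fin r → Set (GLm p ι) := fun j => K j ∩ S j
  have hLo : ∀ j, IsOpen (L j) := fun j => (hK j).2.inter (hSo j)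
  have hLc : ∀ j, IsClosed (L j) := by
    intro j
    have h : L j = K j ∩ (S' j)ᶜ := by
      ext x
      constructor
      · rintro ⟨hx, v, hv, hv2⟩
        refine ⟨hx, ?_⟩
        rintro ⟨w, hw, hw2⟩
        have : v = w := Units.ext (hv2.trans hw2.symm)
        exact hw (this ▸ hv)
      · rintro ⟨hx, hx2⟩
        refine ⟨hx, ?_⟩
        have hne : y j x ≠ 0 := by
          intro h0
          have := ((hKmem j x).1 hx).1
          rw [h0, norm_zero] at this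
          exact absurd this (not_le.2 hδ0)
        by_contra hcon
        apply hx2
        refine ⟨Units.mk0 _ hne, ?_, rfl⟩
        intro hv
        exact hcon ⟨_, hv, rfl⟩
    rw [h]
    exact (hK j).1.inter (hSo' j).isClosed_compl
  refine ⟨r, fun j => D0 ∩ L j, fun j s k => (a ^ (s : ℕ)) ^ c k, ?_, ?_, ?_⟩
  · intro j s
    exact (hmem s).1
  · intro j
    refine ⟨hD.inter_right (hLc j), O ∩ L j, hOo.inter (hLo j), ?_⟩
    rw [hOe]
    ext x
    simp only [Set.mem_inter_iff]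
    tauto
  · intro x hx
    have hstep : ∀ j, ∑ s : Fin p, Set.indicator (D0 ∩ L j) (fun _ => (1 : ℤ))
        ((D.hc c (a ^ (s : ℕ)))⁻¹ * x * D.hc c (a ^ (s : ℕ)))
        = Set.indicator (D0 ∩ K j) (fun _ => (1 : ℤ)) x := by
      intro j
      by_cases hxK : x ∈ D0 ∩ K j
      · have hne : y j x ≠ 0 := by
          intro h0
          have := ((hKmem j x).1 hxK.2).1
          rw [h0, norm_zero] at this
          exact absurd this (not_le.2 hδ0)
        have hdj : d j ≠ 0 := by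
          have h2 := (hQ hx).1 (pr j).1 (pr j).2 hne
          have h3 : D.Pos (-(D.wt (pr j).1 - D.wt (pr j).2)) := h2
          have h4 := ht_pos D h3
          have h5 : ht D (-(D.wt (pr j).1 - D.wt (pr j).2)) = d j := by
            show ∑ k, (-(D.wt (pr j).1 - D.wt (pr j).2)) k * lam D k
              = ∑ k, (- lam D k) * (D.wt (pr j).1 - D.wt (pr j).2) k
            refine Finset.sum_congr rfl fun k _ => ?_
            rw [Pi.neg_apply]; ring
          rw [h5] at h4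
          exact h4.ne'
        obtain ⟨s0, hs0, hs0u⟩ := hZ3 j hdj (Units.mk0 _ hne)
        rw [Set.indicator_of_mem hxK, Finset.sum_eq_single s0]
        · rw [Set.indicator_of_mem]
          refine ⟨(hD1 _ x hx).2 hxK.1, (hK1 _ x j).2 hxK.2, _, hs0, ?_⟩
          rw [hy1, Units.val_mul, Units.val_mk0]
        · intro s _ hs
          rw [Set.indicator_of_notMem]
          rintro ⟨-, -, v, hv, hv2⟩
          apply hs
          apply hs0u
          have : v = ((a ^ d j) ^ (s : ℕ))⁻¹ * Units.mk0 _ hne := by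
            apply Units.ext
            rw [hv2, hy1, Units.val_mul, Units.val_mk0]
          rw [← this]; exact hv
        · intro h; exact absurd (Finset.mem_univ _) h
      · rw [Set.indicator_of_notMem hxK]
        apply Finset.sum_eq_zero
        intro s _
        rw [Set.indicator_of_notMem]
        rintro ⟨h2, h3, -⟩
        exact hxK ⟨(hD1 _ x hx).1 h2, (hK1 _ x j).1 h3⟩
    have hstep2 : Set.indicator D0 (fun _ => (1 : ℤ)) x
        = ∑ j, Set.indicator (D0 ∩ K j) (fun _ => (1 : ℤ)) x := by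
      by_cases hxD : x ∈ D0
      · obtain ⟨j0, hj0, hj0u⟩ := hKex x hxD
        rw [Set.indicator_of_mem hxD, Finset.sum_eq_single j0]
        · rw [Set.indicator_of_mem (show x ∈ D0 ∩ K j0 from ⟨hxD, hj0⟩)]
        · intro j _ hj
          rw [Set.indicator_of_notMem]
          rintro ⟨-, h⟩
          exact hj (hj0u j h)
        · intro h; exact absurd (Finset.mem_univ _) h
      · rw [Set.indicator_of_notMem hxD]
        symm
        apply Finset.sum_eq_zero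
        intro j _
        rw [Set.indicator_of_notMem]
        rintro ⟨h, -⟩
        exact hxD h
    rw [hstep2]
    refine Finset.sum_congr rfl fun j _ => ?_
    exact (hstep j).symm

end Pool.Agent.Chev
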