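import Mathlib
import Pool.Agent.Helper911_Abs.Flag
import Pool.Agent.Helper911_Chev.CH10
import Pool.Agent.Helper911_Chev.CH11
import Pool.Agent.Helper911_Chev.CH12
import Pool.Agent.Helper911_Chev.CH13
import Pool.Agent.Helper911_Chev.CH14
import Pool.Agent.Helper911_Chev.CK1
import Pool.Agent.Helper911_Chev.CK2
import Pool.Agent.Helper911_Chev.DF1
import Pool.Agent.Helper911_Chev.DF2
import Pool.Agent.Helper911_Chev.DF3
import Pool.Agent.Helper911_Chev.DF4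
import Pool.Agent.Helper911_Chev.DF5

/-! The structure of the general argument for Chevalley groups. -/

set_option autoImplicit false
set_option linter.unusedSectionVars false
set_option maxHeartbeats 1000000

noncomputable section

open Matrix Topology Filter

namespace Pool.Agent.Chev

open ChevData Pool.Agent.Helper911

variable {p : ℕ} [Fact p.Prime] {I ι : Type} [Fintype I] [DecidableEq I] [Fintype ι]
  [DecidableEq ι] (D : ChevData p I ι)

/-- The intersection of a subgroup with `G`. -/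
def sg (H : Subgroup (GLm p ι)) : Subgroup D.G := H.subgroupOf D.G

theorem mem_sg (H : Subgroup (GLm p ι)) (g : D.G) : g ∈ sg D H ↔ (g : GLm p ι) ∈ H := Iff.rfl

/-- `e⁻¹ H e`. -/
def ci (e : GLm p ι) (H : Subgroup (GLm p ι)) : Subgroup (GLm p ι) :=
  H.comap (MulAut.conj e).toMonoidHom

theorem mem_ci (e : GLm p ι) (H : Subgroup (GLm p ι)) (g : GLm p ι) :
    g ∈ ci e H ↔ e * g * e⁻¹ ∈ H := Iff.rfl

theorem ci_closed (e : GLm p ι) (H : Subgroup (GLm p ι)) (hH : IsClosed (H : Set (GLm p ι))) :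
    IsClosed (ci e H : Set (GLm p ι)) := by
  have h : Continuous fun g : GLm p ι => e * g * e⁻¹ := by fun_prop
  exact hH.preimage h

theorem sg_closed (H : Subgroup (GLm p ι)) (hH : IsClosed (H : Set (GLm p ι))) :
    IsClosed (sg D H : Set D.G) := hH.preimage continuous_subtype_val

theorem sg_open (H : Subgroup (GLm p ι)) (hH : IsOpen (H : Set (GLm p ι))) :
    IsOpen (sg D H : Set D.G) := hH.preimage continuous_subtype_val

theorem T_le_B : D.T ≤ D.B := le_sup_left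
theorem N_le_B : D.N ≤ D.B := le_sup_right

theorem conj_T_N {t : GLm p ι} (ht : t ∈ D.T) {g : GLm p ι} (hg : g ∈ D.N) :
    t * g * t⁻¹ ∈ D.N := by
  obtain ⟨τ, rfl⟩ := ht
  exact h_conj_N D τ hg

theorem conj_T_Nb {t : GLm p ι} (ht : t ∈ D.T) {g : GLm p ι} (hg : g ∈ D.Nb) :
    t * g * t⁻¹ ∈ D.Nb := by
  obtain ⟨τ, rfl⟩ := ht
  exact h_conj_Nb D τ hg

variable (hI : D.Integral)

/-- The representative of `w`. -/
def eW (w : D.W) : D.G :=
  ⟨(W_rep_Cg D hI w.2).choose, NN_le_G D (W_rep_Cg D hI w.2).choose_spec.1⟩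

theorem eW_NN (w : D.W) : (eW D hI w : GLm p ι) ∈ D.NN := (W_rep_Cg D hI w.2).choose_spec.1

theorem eW_Cg (w : D.W) : (eW D hI w : GLm p ι) ∈ Cg p ι 0 :=
  (W_rep_Cg D hI w.2).choose_spec.2.1

theorem eW_rep (w : D.W) : D.Rep (eW D hI w : GLm p ι) (w : (I → ℤ) ≃ₗ[ℤ] (I → ℤ)) :=
  (W_rep_Cg D hI w.2).choose_spec.2.2

theorem cells_e (g : D.G) : ∃ w : D.W, ∃ b ∈ sg D D.B, ∃ y ∈ sg D D.Nb, g = b * eW D hI w * y := by
  obtain ⟨b, hb, m, hm, y, hy, h⟩ := G_cells D g.2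
  obtain ⟨w, hw, hr⟩ := NN_rep D hm
  have h1 : m * (eW D hI ⟨w, hw⟩ : GLm p ι)⁻¹ ∈ D.T := by
    apply T_of_one D (mul_mem hm (inv_mem (eW_NN D hI _)))
    have := rep_mul D hr (rep_inv D (eW_rep D hI ⟨w, hw⟩))
    rwa [mul_inv_cancel] at this
  have h2 : b * (m * (eW D hI ⟨w, hw⟩ : GLm p ι)⁻¹) ∈ D.B := mul_mem hb (T_le_B D h1)
  refine ⟨⟨w, hw⟩, ⟨b * (m * (eW D hI ⟨w, hw⟩ : GLm p ι)⁻¹), B_le_G D h2⟩, h2,
    ⟨y, Nb_le_G D hy⟩, hy, Subtype.ext ?_⟩
  show (g : GLm p ι) = b * (m * (eW D hI ⟨w, hw⟩ : GLm p ι)⁻¹) * (eW D hI ⟨w, hw⟩ : GLm p ι) * y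
  rw [h]; group

/-- The index of the cell. -/
def idxW (g : D.G) : D.W := (cells_e D hI g).choose

theorem idxW_spec (g : D.G) : ∃ b ∈ sg D D.B, ∃ y ∈ sg D D.Nb, g = b * eW D hI (idxW D hI g) * y :=
  (cells_e D hI g).choose_spec

theorem idxW_eq (w : D.W) (g b y : D.G) (hb : b ∈ sg D D.B) (hy : y ∈ sg D D.Nb)
    (h : g = b * eW D hI w * y) : idxW D hI g = w := by
  obtain ⟨b', hb', y', hy', h'⟩ := idxW_spec D hI g
  apply Subtype.ext
  have e1 : b * eW D hI w * y = b' * eW D hI (idxW D hI g) * y' := h.symm.trans h'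
  have e2 : eW D hI w = (b⁻¹ * b') * eW D hI (idxW D hI g) * (y' * y⁻¹) := by
    calc eW D hI w = b⁻¹ * (b * eW D hI w * y) * y⁻¹ := by group
      _ = _ := by rw [e1]; group
  have e3 : (eW D hI w : GLm p ι) = ((b⁻¹ * b' : D.G) : GLm p ι) *
      (eW D hI (idxW D hI g) : GLm p ι) * ((y' * y⁻¹ : D.G) : GLm p ι) := by
    have := congrArg (fun x : D.G => (x : GLm p ι)) e2
    exact this
  exact (bruhat_unique D (eW_NN D hI w) (eW_NN D hI _) (eW_rep D hI w) (eW_rep D hI _)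
    (mul_mem (inv_mem hb) hb') (mul_mem hy' (inv_mem hy)) e3).symm

/-- Exponents of a contracting cocharacter. -/
def l0 : I → ℤ := (exists_l D).choose

theorem l0_spec : ∀ k, ∑ j, D.A k j * l0 D j ≤ -1 := (exists_l D).choose_spec

theorem hc_mem_T (c : I → ℤ) (a : ℚ_[p]ˣ) : D.hc c a ∈ D.T := ⟨_, rfl⟩

/-- Contracting elements. -/
def zG (l : I → ℤ) : D.G := ⟨D.hc l (pu p), T_le_G D (hc_mem_T D l _)⟩

theorem zG_mem (l : I → ℤ) : zG D l ∈ sg D D.T := hc_mem_T D l _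

theorem zG_pow (l : I → ℤ) (m : ℕ) : ((zG D l ^ m : D.G) : GLm p ι) = D.hc l (pu p) ^ m := rfl

theorem Cg_le {m : ℕ} {g : GLm p ι} (h : g ∈ Cg p ι m) : g ∈ Cg p ι 0 := Cg_mono (Nat.zero_le m) h

theorem sg_small {U : Set D.G} (hU : U ∈ 𝓝 (1 : D.G)) :
    ∃ m : ℕ, 1 ≤ m ∧ (sg D (Cg p ι m) : Set D.G) ⊆ U := by
  rw [nhds_subtype_eq_comap, Filter.mem_comap] at hU
  obtain ⟨U', hU', h⟩ := hU
  obtain ⟨m, hm, hmU⟩ := Cg_small U' hU'
  exact ⟨m, hm, fun g hg => h (hmU hg)⟩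

theorem sg_K_compact : IsCompact (sg D (Cg p ι 0) : Set D.G) :=
  (G_closed D).isClosedEmbedding_subtypeVal.isCompact_preimage (Cg_compact 0)

end Pool.Agent.Chev
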