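import Mathlib
import Pool.Agent.Helper911_Chev.Inst

/-! The structure of the general argument for Chevalley groups. -/

set_option autoImplicit false
set_option linter.unusedSectionVars false
set_option maxHeartbeats 1000000

noncomputable section

open Matrix Topology Filter

namespace Pool.Agent.Chev

open ChevData Pool.Agent.Helper911

variable {p : ℕ} [Fact p.Prime] {I ι : Type} [Fintype I] [DecidableEq I] [Fintype ι]
  [DecidableEq ι] (D : ChevData p I ι) (hI : D.Integral)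

/-- The unipotent group `P w`. -/
def PW (w : D.W) : Subgroup D.G := sg D (D.N ⊓ ci (eW D hI w : GLm p ι) D.Nb)

/-- The unipotent group `Q w`. -/
def QW (w : D.W) : Subgroup D.G := sg D (D.Nb ⊓ ci (eW D hI w : GLm p ι) D.Nb)

theorem mem_PW (w : D.W) (g : D.G) : g ∈ PW D hI w ↔ (g : GLm p ι) ∈ D.N ∧
    (eW D hI w : GLm p ι) * g * (eW D hI w : GLm p ι)⁻¹ ∈ D.Nb := Iff.rfl

theorem mem_QW (w : D.W) (g : D.G) : g ∈ QW D hI w ↔ (g : GLm p ι) ∈ D.Nb ∧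
    (eW D hI w : GLm p ι) * g * (eW D hI w : GLm p ι)⁻¹ ∈ D.Nb := Iff.rfl

theorem conj_e_T (w : D.W) {t : GLm p ι} (ht : t ∈ D.T) :
    (eW D hI w : GLm p ι) * t * (eW D hI w : GLm p ι)⁻¹ ∈ D.T :=
  NN_norm_T D (eW_NN D hI w) ht

theorem conj_e_Nb (w : D.W) {t n : GLm p ι} (ht : t ∈ D.T)
    (hn : (eW D hI w : GLm p ι) * n * (eW D hI w : GLm p ι)⁻¹ ∈ D.Nb) :
    (eW D hI w : GLm p ι) * (t * n * t⁻¹) * (eW D hI w : GLm p ι)⁻¹ ∈ D.Nb := by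
  have h := conj_T_Nb D (conj_e_T D hI w ht) hn
  have e : (eW D hI w : GLm p ι) * t * (eW D hI w : GLm p ι)⁻¹ *
      ((eW D hI w : GLm p ι) * n * (eW D hI w : GLm p ι)⁻¹) *
      ((eW D hI w : GLm p ι) * t * (eW D hI w : GLm p ι)⁻¹)⁻¹
      = (eW D hI w : GLm p ι) * (t * n * t⁻¹) * (eW D hI w : GLm p ι)⁻¹ := by group
  rwa [e] at h

theorem PW_closed (w : D.W) : IsClosed (PW D hI w : Set D.G) :=
  sg_closed D _ ((N_closed D).inter (ci_closed _ _ (Nb_closed D)))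

theorem QW_closed (w : D.W) : IsClosed (QW D hI w : Set D.G) :=
  sg_closed D _ ((Nb_closed D).inter (ci_closed _ _ (Nb_closed D)))

theorem chev_chart_open (w : D.W) (O1 O2 : Set D.G) (h1 : IsOpen O1) (h2 : IsOpen O2) :
    IsOpen {g : D.G | ∃ b ∈ sg D D.B, ∃ n ∈ PW D hI w, ∃ y ∈ QW D hI w, n ∈ O1 ∧ y ∈ O2 ∧
      g = b * eW D hI w * n * y} := by
  rw [isOpen_iff_mem_nhds]
  rintro g ⟨b, hb, n, hn, y, hy, hn1, hy2, hg⟩
  obtain ⟨O1', h1', rfl⟩ := isOpen_induced_iff.1 h1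
  obtain ⟨O2', h2', rfl⟩ := isOpen_induced_iff.1 h2
  obtain ⟨m, hm, H⟩ := chart_open_G D (eW_NN D hI w) h1' h2' (b := (b : GLm p ι))
    (n := (n : GLm p ι)) (y := (y : GLm p ι)) hb hn.1 hn.2 hy.1 hy.2 hn1 hy2
  have hopen : IsOpen {x : D.G | g⁻¹ * x ∈ sg D (Cg p ι m)} :=
    (sg_open D _ (Cg_open m)).preimage (continuous_const_mul g⁻¹)
  refine Filter.mem_of_superset (hopen.mem_nhds (by simp [one_mem])) fun x hx => ?_
  obtain ⟨b', hb', n', hn', hn'2, y', hy', hy'2, hO1, hO2, he⟩ := H (g⁻¹ * x : D.G)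
    (g⁻¹ * x : D.G).2 hx
  refine ⟨⟨b', B_le_G D hb'⟩, hb', ⟨n', N_le_G D hn'⟩, ⟨hn', hn'2⟩, ⟨y', Nb_le_G D hy'⟩,
    ⟨hy', hy'2⟩, hO1, hO2, Subtype.ext ?_⟩
  show (x : GLm p ι) = b' * (eW D hI w : GLm p ι) * n' * y'
  rw [← he]
  have e1 : (g : GLm p ι) = b * (eW D hI w : GLm p ι) * n * y := by
    have := congrArg (fun x : D.G => (x : GLm p ι)) hg
    exact this
  show (x : GLm p ι) = b * (eW D hI w : GLm p ι) * n * y * ((g : GLm p ι)⁻¹ * (x : GLm p ι))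
  rw [← e1]; group

theorem chev_chart_inj (w : D.W) (b : D.G) (hb : b ∈ sg D D.B) (n1 : D.G) (hn1 : n1 ∈ PW D hI w)
    (y1 : D.G) (hy1 : y1 ∈ QW D hI w) (n2 : D.G) (hn2 : n2 ∈ PW D hI w) (y2 : D.G)
    (hy2 : y2 ∈ QW D hI w) (h : eW D hI w * n1 * y1 = b * eW D hI w * n2 * y2) :
    n1 = n2 ∧ y1 = y2 := by
  have h3 : (eW D hI w) * (n1 * y1 * (n2 * y2)⁻¹) * (eW D hI w)⁻¹ = b := by
    have : (eW D hI w) * (n1 * y1 * (n2 * y2)⁻¹) * (eW D hI w)⁻¹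
      = (eW D hI w * n1 * y1) * (n2 * y2)⁻¹ * (eW D hI w)⁻¹ := by group
    rw [this, h]; group
  have key : ∀ n y : D.G, n ∈ PW D hI w → y ∈ QW D hI w →
      (eW D hI w : GLm p ι) * (n * y : D.G) * (eW D hI w : GLm p ι)⁻¹ ∈ D.Nb := by
    intro n y hn hy
    have h5 : (eW D hI w : GLm p ι) * (n * y : D.G) * (eW D hI w : GLm p ι)⁻¹
      = ((eW D hI w : GLm p ι) * n * (eW D hI w : GLm p ι)⁻¹) *
        ((eW D hI w : GLm p ι) * y * (eW D hI w : GLm p ι)⁻¹) := by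
      show (eW D hI w : GLm p ι) * ((n : GLm p ι) * (y : GLm p ι)) * (eW D hI w : GLm p ι)⁻¹ = _
      group
    rw [h5]
    exact mul_mem hn.2 hy.2
  have h4 : (b : GLm p ι) ∈ D.Nb := by
    have e1 : (b : GLm p ι) = ((eW D hI w : GLm p ι) * (n1 * y1 : D.G) *
        (eW D hI w : GLm p ι)⁻¹) * ((eW D hI w : GLm p ι) * (n2 * y2 : D.G) *
        (eW D hI w : GLm p ι)⁻¹)⁻¹ := by
      rw [← h3]
      show (eW D hI w : GLm p ι) * ((n1 * y1 : D.G) * ((n2 * y2 : D.G) : GLm p ι)⁻¹) *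
        (eW D hI w : GLm p ι)⁻¹ = _
      group
    rw [e1]
    exact mul_mem (key n1 y1 hn1 hy1) (inv_mem (key n2 y2 hn2 hy2))
  have h5 : b = 1 := Subtype.ext (B_inter_Nb D hb h4)
  rw [h5] at h3
  have h6 : n1 * y1 * (n2 * y2)⁻¹ = 1 := by
    have := congrArg (fun x => (eW D hI w)⁻¹ * x * eW D hI w) h3
    simpa [mul_assoc] using this
  have h7 : n2⁻¹ * n1 = y2 * y1⁻¹ := by
    have h8 : n1 * y1 = n2 * y2 := mul_inv_eq_one.1 h6
    have : n2⁻¹ * (n1 * y1) * y1⁻¹ = n2⁻¹ * (n2 * y2) * y1⁻¹ := by rw [h8]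
    simpa [mul_assoc] using this
  have h9 : ((n2⁻¹ * n1 : D.G) : GLm p ι) ∈ D.N := mul_mem (inv_mem hn2.1) hn1.1
  have h10 : ((n2⁻¹ * n1 : D.G) : GLm p ι) ∈ D.Nb := by
    rw [h7]; exact mul_mem hy2.1 (inv_mem hy1.1)
  have h8 : n2⁻¹ * n1 = 1 := Subtype.ext (N_inter_Nb D h9 h10)
  refine ⟨(inv_mul_eq_one.1 h8).symm, ?_⟩
  rw [h8] at h7
  exact (mul_inv_eq_one.1 h7.symm).symm

theorem chev_iwahori (g : D.G) (hg : g ∈ sg D (Cg p ι 1)) :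
    ∃ y ∈ sg D D.Nb, ∃ t ∈ sg D D.T, ∃ n ∈ sg D D.N, g = y * t * n := by
  obtain ⟨τ, -, n, hn, -, y, hy, -, h⟩ := iwahori_G D 1 le_rfl (g := ((g⁻¹ : D.G) : GLm p ι))
    (g⁻¹ : D.G).2 (inv_mem hg)
  have hn2 : D.h τ * n⁻¹ * (D.h τ)⁻¹ ∈ D.N := h_conj_N D τ (inv_mem hn)
  have hT : (D.h τ)⁻¹ ∈ D.T := inv_mem (show D.h τ ∈ D.T from ⟨τ, rfl⟩)
  refine ⟨⟨y⁻¹, Nb_le_G D (inv_mem hy)⟩, inv_mem hy, ⟨(D.h τ)⁻¹, T_le_G D hT⟩,
    hT, ⟨D.h τ * n⁻¹ * (D.h τ)⁻¹, N_le_G D hn2⟩, hn2, Subtype.ext ?_⟩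
  show (g : GLm p ι) = y⁻¹ * (D.h τ)⁻¹ * (D.h τ * n⁻¹ * (D.h τ)⁻¹)
  have h2 : (g : GLm p ι)⁻¹ = D.h τ * n * y := h
  have h3 : (g : GLm p ι) = (D.h τ * n * y)⁻¹ := by rw [← h2, inv_inv]
  rw [h3]; group

theorem chev_prop (y : D.G) (h : y ∈ sg D (Cg p ι 1)) :
    Tendsto (fun k : ℕ => y ^ (p ^ k)) atTop (𝓝 1) := by
  rw [tendsto_subtype_rng]
  exact prop_Cg h

theorem chev_torus_decomp (w : D.W) (U : Set D.G) (hU : U ∈ 𝓝 (1 : D.G)) (D0 : Set D.G)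
    (hD : IsCompact D0) (h1 : (1 : D.G) ∉ D0) (hO : ∃ O, IsOpen O ∧ D0 = O ∩ QW D hI w) :
    ∃ (r : ℕ) (D' : Fin r → Set D.G) (t : Fin r → Fin p → D.G),
      (∀ j s, t j s ∈ sg D D.T ∧ t j s ∈ U) ∧
      (∀ j, IsCompact (D' j) ∧ ∃ O, IsOpen O ∧ D' j = O ∩ QW D hI w) ∧
      ∀ x ∈ QW D hI w, Set.indicator D0 (fun _ => (1 : ℤ)) x
        = ∑ j, ∑ s, Set.indicator (D' j) (fun _ => (1 : ℤ)) ((t j s)⁻¹ * x * t j s) := by
  rw [nhds_subtype_eq_comap, Filter.mem_comap] at hU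
  obtain ⟨U', hU', hUU⟩ := hU
  obtain ⟨O, hO1, hO2⟩ := hO
  obtain ⟨O', hO', rfl⟩ := isOpen_induced_iff.1 hO1
  set Q : Subgroup (GLm p ι) := D.Nb ⊓ ci (eW D hI w : GLm p ι) D.Nb with hQdef
  have hQG : ∀ x ∈ Q, x ∈ D.G := fun x hx => Nb_le_G D hx.1
  have himg : (Subtype.val '' D0 : Set (GLm p ι)) = O' ∩ Q := by
    ext x
    constructor
    · rintro ⟨y, hy, rfl⟩
      rw [hO2] at hy
      exact ⟨hy.1, hy.2⟩
    · rintro ⟨hx1, hx2⟩
      refine ⟨⟨x, hQG x hx2⟩, ?_, rfl⟩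
      rw [hO2]
      exact ⟨hx1, hx2⟩
  obtain ⟨r, D', t, ht, hD', hsum⟩ := torus_decomp_G D (Q := Q)
    (fun x hx => Nb_le_UM D hx.1) ((Nb_closed D).inter (ci_closed _ _ (Nb_closed D)))
    (fun τ x hx => ⟨h_conj_Nb D τ hx.1, conj_e_Nb D hI w ⟨τ, rfl⟩ hx.2⟩) hU'
    (D0 := Subtype.val '' D0) (hD.image continuous_subtype_val) (by
      rintro ⟨y, hy, hy1⟩
      exact h1 (by rwa [show y = 1 from Subtype.ext hy1] at hy)) ⟨O', hO', himg⟩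
  have hind : ∀ (S : Set (GLm p ι)) (x : D.G), Set.indicator (Subtype.val ⁻¹' S : Set D.G)
      (fun _ => (1 : ℤ)) x = Set.indicator S (fun _ => (1 : ℤ)) (x : GLm p ι) := by
    intro S x
    by_cases h : (x : GLm p ι) ∈ S
    · rw [Set.indicator_of_mem h, Set.indicator_of_mem (show x ∈ Subtype.val ⁻¹' S from h)]
    · rw [Set.indicator_of_notMem h,
        Set.indicator_of_notMem (show x ∉ Subtype.val ⁻¹' S from h)]
  refine ⟨r, fun j => Subtype.val ⁻¹' (D' j), fun j s => ⟨D.h (t j s), T_le_G D ⟨_, rfl⟩⟩,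
    fun j s => ⟨⟨_, rfl⟩, hUU (ht j s)⟩, fun j => ⟨?_, ?_⟩, ?_⟩
  · exact (G_closed D).isClosedEmbedding_subtypeVal.isCompact_preimage (hD' j).1
  · obtain ⟨O, hO, he⟩ := (hD' j).2
    refine ⟨Subtype.val ⁻¹' O, hO.preimage continuous_subtype_val, ?_⟩
    show Subtype.val ⁻¹' (D' j) = _
    rw [he]
    rfl
  · intro x hx
    have h2 := hsum (x : GLm p ι) hx
    have h3 : Set.indicator D0 (fun _ => (1 : ℤ)) x
        = Set.indicator (Subtype.val '' D0) (fun _ => (1 : ℤ)) (x : GLm p ι) := by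
      rw [← hind, Set.preimage_image_eq _ Subtype.val_injective]
    rw [h3, h2]
    refine Finset.sum_congr rfl fun j _ => Finset.sum_congr rfl fun s _ => ?_
    rw [hind]
    rfl

/-- The structure needed for the general argument. -/
def chevFlag : Flag p D.G D.W where
  B := sg D D.B
  N := sg D D.N
  Nb := sg D D.Nb
  Z := sg D D.T
  K := sg D (Cg p ι 0)
  Gam := sg D (Cg p ι 1)
  z := zG D (l0 D)
  e := eW D hI
  idx := idxW D hI
  P := PW D hI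
  Q := QW D hI
  N_le := fun g hg => N_le_B D hg
  Z_le := fun g hg => T_le_B D hg
  P_le _ := fun g hg => hg.1
  Q_le _ := fun g hg => hg.1
  Gam_le := fun g hg => Cg_le hg
  z_mem := zG_mem D _
  e_mem := eW_Cg D hI
  B_closed := sg_closed D _ (B_closed D)
  K_compact := sg_K_compact D
  K_open := sg_open D _ (Cg_open 0)
  Gam_open := sg_open D _ (Cg_open 1)
  P_closed := PW_closed D hI
  Q_closed := QW_closed D hI
  iwasawa := by
    intro g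
    obtain ⟨b, hb, c, hc, hc0, h⟩ := iwasawa_G D hI g.2
    exact ⟨⟨b, B_le_G D hb⟩, hb, ⟨c, hc⟩, hc0, Subtype.ext h⟩
  small := by
    intro U hU
    obtain ⟨m, _, hm⟩ := sg_small D hU
    exact ⟨sg D (Cg p ι m), sg_open D _ (Cg_open m), hm⟩
  conj_Z w t ht := conj_e_T D hI w ht
  conj_N t ht g hg := conj_T_N D ht hg
  conj_Nb t ht g hg := conj_T_Nb D ht hg
  conj_P w t ht g hg := ⟨conj_T_N D ht hg.1, conj_e_Nb D hI w ht hg.2⟩
  conj_Q w t ht g hg := ⟨conj_T_Nb D ht hg.1, conj_e_Nb D hI w ht hg.2⟩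
  decomp := by
    intro w y hy
    obtain ⟨s, hs, hs2, q, hq, hq2, h⟩ := Nb_decomp D (eW_NN D hI w) _ hy
    exact ⟨⟨s, Nb_le_G D hs⟩, hs, hs2, ⟨q, Nb_le_G D hq⟩, ⟨hq, hq2⟩, Subtype.ext h⟩
  idx_left := by
    intro b hb g
    obtain ⟨b', hb', y', hy', h'⟩ := idxW_spec D hI g
    refine idxW_eq D hI _ _ (b * b') y' (mul_mem hb hb') hy' ?_
    conv_lhs => rw [h']
    simp [mul_assoc]
  idx_right_Nb := by
    intro y hy g
    obtain ⟨b', hb', y', hy', h'⟩ := idxW_spec D hI g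
    refine idxW_eq D hI _ _ b' (y' * y) hb' (mul_mem hy' hy) ?_
    conv_lhs => rw [h']
    simp [mul_assoc]
  idx_right_Z := by
    intro t ht g
    obtain ⟨b', hb', y', hy', h'⟩ := idxW_spec D hI g
    refine idxW_eq D hI _ _ (b' * (eW D hI (idxW D hI g) * t * (eW D hI (idxW D hI g))⁻¹))
      (t⁻¹ * y' * t) (mul_mem hb' (T_le_B D (conj_e_T D hI _ ht))) ?_ ?_
    · have := conj_T_Nb D (inv_mem ht) hy'
      rwa [inv_inv] at this
    · conv_lhs => rw [h']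
      group
  idx_e w := idxW_eq D hI w _ 1 1 (one_mem _) (one_mem _) (by simp)
  exists_rep g := idxW_spec D hI g
  chart_open := chev_chart_open D hI
  chart_inj w b hb n hn y hy n' hn' y' hy' h := chev_chart_inj D hI w b hb n hn y hy n' hn' y' hy' h
  shrink_Nb y hy h := shrink_M D (l0 D) (l0_spec D) (Nb_le_UM D hy) h
  absorb_Nb y hy := absorb_M D (l0 D) (l0_spec D) (Nb_le_UM D hy) 1
  unif_Nb := by
    intro U hU
    obtain ⟨M, _, hM⟩ := sg_small D hU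
    obtain ⟨m, hm⟩ := unif_M D (l0 D) (l0_spec D) M
    exact ⟨m, fun y hy h => hM (hm y (Nb_le_UM D hy) (Cg_le h))⟩
  shrink_N y hy h := shrink_P D (l0 D) (l0_spec D) (N_le_UP D hy) h
  absorb_N y hy := absorb_P D (l0 D) (l0_spec D) (N_le_UP D hy) 1
  unif_N := by
    intro U hU
    obtain ⟨M, _, hM⟩ := sg_small D hU
    obtain ⟨m, hm⟩ := unif_P D (l0 D) (l0_spec D) M
    exact ⟨m, fun y hy h => hM (hm y (N_le_UP D hy) (Cg_le h))⟩
  iwahori := chev_iwahori D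
  prop y _ h := chev_prop D y h
  stab_inj := by
    intro w w' h
    refine Subtype.ext (stab_inj_G D (eW_NN D hI w) (eW_NN D hI w') (eW_rep D hI w)
      (eW_rep D hI w') fun s hs => ?_)
    exact h ⟨s, Nb_le_G D hs⟩ hs
  torus_decomp := chev_torus_decomp D hI

end Pool.Agent.Chev
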