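import Mathlib
import Pool.Agent.Helper911_Chev.Inst2
import Pool.Agent.Helper911_Chev.DX1
import Pool.Agent.Helper911_Chev.DS9
import Pool.Agent.Helper911_Chev.DP3
import Pool.Agent.Helper911_Chev.DV1
import Pool.Agent.Helper911_Abs.Multi

/-! Characters of the torus and the tie hypothesis for Chevalley groups. -/

set_option autoImplicit false
set_option linter.unusedSectionVars false
set_option maxHeartbeats 1000000

noncomputable section

open Matrix Topology Filter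

namespace Pool.Agent.Chev

open ChevData Pool.Agent.Helper911

variable {p : ℕ} [Fact p.Prime] {I ι : Type} [Fintype I] [DecidableEq I] [Fintype ι]
  [DecidableEq ι] (D : ChevData p I ι) (hI : D.Integral)

variable {C : Type*} [NormedField C]

/-- The character of the torus as a function on `G` (only its values on `B` matter). -/
def chiG (χ : (I → ℚ_[p]ˣ) →* Cˣ) (g : D.G) : C := ((χ (tauB D (g : GLm p ι)) : Cˣ) : C)

theorem tauB_N {n : GLm p ι} (hn : n ∈ D.N) : tauB D n = 1 := by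
  have h := tauB_eq D 1 hn
  rwa [map_one, one_mul] at h

theorem tauB_h (τ : I → ℚ_[p]ˣ) : tauB D (D.h τ) = τ := by
  have h := tauB_eq D τ (one_mem D.N)
  rwa [mul_one] at h

theorem chiG_mul (χ : (I → ℚ_[p]ˣ) →* Cˣ) {b b' : D.G} (hb : b ∈ sg D D.B) (hb' : b' ∈ sg D D.B) :
    chiG D χ (b * b') = chiG D χ b * chiG D χ b' := by
  unfold chiG
  have h : tauB D ((b * b' : D.G) : GLm p ι) = tauB D (b : GLm p ι) * tauB D (b' : GLm p ι) :=
    tauB_mul D hb hb'
  rw [h, map_mul, Units.val_mul]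

theorem chiG_ne (χ : (I → ℚ_[p]ˣ) →* Cˣ) (b : D.G) : chiG D χ b ≠ 0 := Units.ne_zero _

theorem chiG_N (χ : (I → ℚ_[p]ˣ) →* Cˣ) {n : D.G} (hn : n ∈ sg D D.N) : chiG D χ n = 1 := by
  have h : tauB D (n : GLm p ι) = 1 := tauB_N D hn
  unfold chiG
  rw [h, map_one, Units.val_one]

theorem chiG_cont (χ : (I → ℚ_[p]ˣ) →* Cˣ) (hχ : Continuous χ) :
    ContinuousOn (chiG D χ) (sg D D.B : Set D.G) := by
  have h1 : Continuous fun τ : I → ℚ_[p]ˣ => ((χ τ : Cˣ) : C) := Units.continuous_val.comp hχ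
  have h2 : ContinuousOn (fun g : D.G => tauB D (g : GLm p ι)) (sg D D.B : Set D.G) :=
    (tauB_cont D).comp continuous_subtype_val.continuousOn (fun g hg => hg)
  exact h1.comp_continuousOn h2

theorem chiG_norm (χ : (I → ℚ_[p]ˣ) →* Cˣ) (hχ : Continuous χ) (b : D.G) (hb : b ∈ sg D D.B)
    (hK : b ∈ sg D (Cg p ι 0)) : ‖chiG D χ b‖ = 1 := by
  have hcomp : IsCompact ((sg D (Cg p ι 0) : Set D.G) ∩ (sg D D.B : Set D.G)) :=
    (sg_K_compact D).inter_right (sg_closed D _ (B_closed D))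
  obtain ⟨M, hM⟩ := hcomp.exists_bound_of_continuousOn
    ((chiG_cont D χ hχ).mono Set.inter_subset_right)
  have key : ∀ b : D.G, b ∈ sg D D.B → b ∈ sg D (Cg p ι 0) → ‖chiG D χ b‖ ≤ 1 := by
    intro b hb hK
    by_contra hcon
    push Not at hcon
    have hpow : ∀ k : ℕ, ‖chiG D χ b‖ ^ k ≤ M := by
      intro k
      have h2 : chiG D χ (b ^ k) = chiG D χ b ^ k := by
        induction k with
        | zero =>
          rw [pow_zero, pow_zero]
          exact chiG_N D χ (one_mem _)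
        | succ k ih => rw [pow_succ, chiG_mul D χ (pow_mem hb k) hb, ih, pow_succ]
      rw [← norm_pow, ← h2]
      exact hM _ ⟨pow_mem hK k, pow_mem hb k⟩
    obtain ⟨k, hk⟩ := pow_unbounded_of_one_lt M hcon
    exact absurd (hpow k) (not_le.2 hk)
  refine le_antisymm (key b hb hK) ?_
  have h1 := key b⁻¹ (inv_mem hb) (inv_mem hK)
  have h2 : chiG D χ b * chiG D χ b⁻¹ = 1 := by
    rw [← chiG_mul D χ hb (inv_mem hb), mul_inv_cancel]
    exact chiG_N D χ (one_mem _)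
  have h3 : ‖chiG D χ b‖ * ‖chiG D χ b⁻¹‖ = 1 := by rw [← norm_mul, h2, norm_one]
  nlinarith [norm_nonneg (chiG D χ b), norm_nonneg (chiG D χ b⁻¹)]

/-- The character data of a continuous character of the torus. -/
def chevChar (χ : (I → ℚ_[p]ˣ) →* Cˣ) (hχ : Continuous χ) : CharData (chevFlag D hI) C where
  chi := chiG D χ
  chi_mul _ hb _ hb' := chiG_mul D χ hb hb'
  chi_ne b _ := chiG_ne D χ b
  chi_N _ hb := chiG_N D χ hb
  chi_K b hb hK := chiG_norm D χ hχ b hb hK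
  chi_cont := chiG_cont D χ hχ

/-- The kernel of the character on `B`. -/
def kerB (χ : (I → ℚ_[p]ˣ) →* Cˣ) : Subgroup (GLm p ι) where
  carrier := {b | b ∈ D.B ∧ χ (tauB D b) = 1}
  mul_mem' := by
    rintro a b ⟨ha, ha'⟩ ⟨hb, hb'⟩
    exact ⟨mul_mem ha hb, by rw [tauB_mul D ha hb, map_mul, ha', hb', one_mul]⟩
  one_mem' := ⟨one_mem _, by rw [tauB_N D (one_mem _), map_one]⟩
  inv_mem' := by
    rintro a ⟨ha, ha'⟩
    refine ⟨inv_mem ha, ?_⟩
    have h1 := tauB_mul D ha (inv_mem ha)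
    rw [mul_inv_cancel, tauB_N D (one_mem _)] at h1
    have h2 := congrArg χ h1
    rw [map_one, map_mul, ha', one_mul] at h2
    exact h2.symm

theorem kerB_ok (χ : (I → ℚ_[p]ˣ) →* Cˣ) (hχ : Continuous χ) : XsOK D (kerB D χ) where
  N_le n hn := ⟨N_le_B D hn, by rw [tauB_N D hn, map_one]⟩
  le_B b hb := hb.1
  closed := by
    have h1 : Continuous fun τ : I → ℚ_[p]ˣ => ((χ τ : Cˣ) : C) := Units.continuous_val.comp hχ
    have h2 : ContinuousOn (fun b : GLm p ι => ((χ (tauB D b) : Cˣ) : C))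
        (D.B : Set (GLm p ι)) := h1.comp_continuousOn (tauB_cont D)
    have h3 := h2.preimage_isClosed_of_isClosed (B_closed D) (isClosed_singleton (x := (1 : C)))
    convert h3 using 1
    ext b
    constructor
    · rintro ⟨hb, hb'⟩
      exact ⟨hb, by
        show ((χ (tauB D b) : Cˣ) : C) = 1
        rw [hb', Units.val_one]⟩
    · rintro ⟨hb, hb'⟩
      exact ⟨hb, Units.ext hb'⟩
  conj τ b hb := by
    have hT : D.h τ ∈ D.B := T_le_B D ⟨τ, rfl⟩
    refine ⟨mul_mem (mul_mem hT hb.1) (inv_mem hT), ?_⟩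
    have hinv : (D.h τ)⁻¹ = D.h τ⁻¹ := (map_inv D.h τ).symm
    rw [tauB_mul D (mul_mem hT hb.1) (inv_mem hT), tauB_mul D hT hb.1, hinv, tauB_h, tauB_h,
      map_mul, map_mul, hb.2, mul_one, ← map_mul, mul_inv_cancel, map_one]

/-- The tie hypothesis. -/
theorem chev_tie (χ : (I → ℚ_[p]ˣ) →* Cˣ) (hχ : Continuous χ)
    (hs : ∀ k : I, ∃ a : ℚ_[p]ˣ, χ (fun l => a ^ (Pi.single k 1 : I → ℤ) l) ≠ 1) :
    TieHyp (chevChar D hI χ hχ) := by
  intro u R hR h1 hne H
  set e : GLm p ι := (eW D hI u : GLm p ι) with he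
  have hgood : GoodSet D e (kerB D χ) {g | ∃ r ∈ R, g = e * (r : GLm p ι) * e⁻¹} :=
    { sub := by
        rintro _ ⟨r, hr, rfl⟩
        have hr2 := hR r hr
        refine ⟨hr2.2, ?_⟩
        show e⁻¹ * (e * (r : GLm p ι) * e⁻¹) * e ∈ D.N
        have : e⁻¹ * (e * (r : GLm p ι) * e⁻¹) * e = (r : GLm p ι) := by group
        rw [this]
        exact hr2.1
      one := by
        rintro ⟨r, hr, h⟩
        have : (r : GLm p ι) = e⁻¹ * (e * (r : GLm p ι) * e⁻¹) * e := by group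
        rw [← h] at this
        have h2 : r = 1 := Subtype.ext (by rw [this]; simp)
        exact h1 (h2 ▸ hr)
      test := by
        rintro _ ⟨r, hr, rfl⟩ s hs' b hb a ha q hq h
        have hs1 : e⁻¹ * s * e ∈ D.Nb := hs'.2
        have ha1 : e⁻¹ * a * e ∈ D.N := ha.2
        have hq1 : e⁻¹ * q * e ∈ D.Nb := hq.2
        have hs2 : e * (e⁻¹ * s * e) * e⁻¹ = s := by group
        have ha2 : e * (e⁻¹ * a * e) * e⁻¹ = a := by group
        have hq2 : e * (e⁻¹ * q * e) * e⁻¹ = q := by group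
        obtain ⟨g1, g2, g3⟩ := H r hr ⟨e⁻¹ * s * e, Nb_le_G D hs1⟩
          ⟨hs1, by
            show e * (e⁻¹ * s * e) * e⁻¹ ∈ D.N
            rw [hs2]; exact hs'.1⟩ ⟨b, B_le_G D hb⟩ hb
          ⟨e⁻¹ * a * e, N_le_G D ha1⟩ ⟨ha1, by
            show e * (e⁻¹ * a * e) * e⁻¹ ∈ D.Nb
            rw [ha2]; exact ha.1⟩ ⟨e⁻¹ * q * e, Nb_le_G D hq1⟩ ⟨hq1, by
            show e * (e⁻¹ * q * e) * e⁻¹ ∈ D.Nb
            rw [hq2]; exact hq.1⟩ (Subtype.ext (by
            show e * (r : GLm p ι) * (e⁻¹ * s * e) = b * e * (e⁻¹ * a * e) * (e⁻¹ * q * e)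
            calc e * (r : GLm p ι) * (e⁻¹ * s * e) = (e * (r : GLm p ι) * e⁻¹ * s) * e := by group
              _ = (b * a * q) * e := by rw [h]
              _ = _ := by group))
        refine ⟨?_, ⟨_, g2, ?_⟩, hb, Units.ext g3⟩
        · have g4 : e⁻¹ * q * e = 1 := congrArg (fun x : D.G => (x : GLm p ι)) g1
          rw [← hq2, g4]; group
        · exact ha2.symm }
  obtain ⟨r0, hr0⟩ := hne
  obtain ⟨k, hk⟩ := tie_G D (eW_NN D hI u) (kerB_ok D χ hχ) hgood ⟨_, r0, hr0, rfl⟩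
  obtain ⟨a, ha⟩ := hs k
  apply ha
  have h2 := (hk a).2
  have h3 : D.hk k a = D.h (fun l => a ^ (Pi.single k 1 : I → ℤ) l) := rfl
  rw [h3, tauB_h] at h2
  exact h2

/-- The slope of a contracting element. -/
theorem cwz_chev (χ : (I → ℚ_[p]ˣ) →* Cˣ) (hχ : Continuous χ) : ∃ ν : I → ℝ,
    ∀ (l : I → ℤ) (w : D.W), cwz (chevChar D hI χ hχ) (zG D l) w
      = Real.exp (Lf ν (w : (I → ℤ) ≃ₗ[ℤ] (I → ℤ)) l) := by
  obtain ⟨ν, hν⟩ := slope_hc χ
  refine ⟨ν, fun l w => ?_⟩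
  show ‖chiG D χ (eW D hI w * zG D l * (eW D hI w)⁻¹)‖ = _
  unfold chiG
  have h1 : ((eW D hI w * zG D l * (eW D hI w)⁻¹ : D.G) : GLm p ι)
      = D.h (act (w : (I → ℤ) ≃ₗ[ℤ] (I → ℤ)) (fun k => pu p ^ l k)) :=
    rep_conj D (eW_rep D hI w) _
  rw [h1, tauB_h, act_hc, hν]
  rfl

end Pool.Agent.Chev
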