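import Mathlib
import Pool.Agent.Helper911_Chev.Defs3
import Pool.Agent.Helper911_Chev.CA1
import Pool.Agent.Helper911_Chev.CA2
import Pool.Agent.Helper911_Chev.CA3
import Pool.Agent.Helper911_Chev.CD1
import Pool.Agent.Helper911_Chev.CB4
import Pool.Agent.Helper911_Chev.CW1
import Pool.Agent.Helper911_Chev.CW2
import Pool.Agent.Helper911_Chev.CE1
import Pool.Agent.Helper911_Chev.CH3
import Pool.Agent.Helper911_Chev.CH4
import Pool.Agent.Helper911_Chev.CF1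
import Pool.Agent.Helper911_Chev.CG2
import Pool.Agent.Helper911_Chev.DR2

set_option autoImplicit false
set_option linter.unusedSectionVars false
set_option maxHeartbeats 1000000

noncomputable section

open Matrix Topology

namespace Pool.Agent.Chev

open ChevData

variable {p : ℕ} [Fact p.Prime] {I ι : Type} [Fintype I] [DecidableEq I] [Fintype ι]
  [DecidableEq ι] (D : ChevData p I ι)

/-! ======= TARGETS ======= -/

/-- TARGET.
`y_inj` for `D.dual` (`dual_y`). -/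
theorem x_inj (k : I) {c : ℚ_[p]} (h : D.x k c = 1) : c = 0 :=
  y_inj D.dual k (by rw [dual_y]; exact h)

/-- TARGET.
Proof. Suppose `w ≠ w'`. `v = w' w⁻¹ ∈ W` is not `1`, so by `W_one_of_pos` and `weyl_sign` there is `k` with `Pos (-(v (A k)))`. `f = e' e⁻¹ ∈ NN`, `Rep f v`. If `Pos (-(w⁻¹ (A k)))`: `s = e⁻¹ x_k(1) e ∈ Nb` (`NN_conj`), `e s e⁻¹ = x_k(1) ∈ N`, so `e' s e'⁻¹ = f x_k(1) f⁻¹ ∈ N`; but it is in `Nb` (`NN_conj`), so it is `1` (`N_inter_Nb`), `x_k(1) = 1`. If `Pos (w⁻¹ (A k))`: `s = e⁻¹ y_k(1) e ∈ Nb`, `e' s e'⁻¹ = f y_k(1) f⁻¹ ∈ N` (`NN_conj`), so `e s e⁻¹ = y_k(1) ∈ N`, hence `y_k(1) = 1` (`N_inter_Nb`, `y_mem_Nb`).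
Both contradict `y_inj` (`x_inj`). -/
theorem stab_inj_G {e e' : GLm p ι} (he : e ∈ D.NN) (he' : e' ∈ D.NN)
    {w w' : (I → ℤ) ≃ₗ[ℤ] (I → ℤ)} (h : D.Rep e w) (h' : D.Rep e' w')
    (H : ∀ s ∈ D.Nb, (e * s * e⁻¹ ∈ D.N ↔ e' * s * e'⁻¹ ∈ D.N)) : w = w' := by
  by_contra hne
  have hwW : w ∈ D.W := NN_rep_mem D he h
  have hwW' : w' ∈ D.W := NN_rep_mem D he' h'
  have hvW : w' * w⁻¹ ∈ D.W := mul_mem hwW' (inv_mem hwW)
  have hv1 : w' * w⁻¹ ≠ 1 := by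
    intro h1
    exact hne (mul_inv_eq_one.mp h1).symm
  obtain ⟨k, hk⟩ : ∃ k, D.Pos (-((w' * w⁻¹) (D.A k))) := by
    by_contra hcon
    push Not at hcon
    refine hv1 (W_one_of_pos D hvW fun k => ?_)
    rcases weyl_sign D hvW k with h1 | h1
    · exact h1
    · exact absurd h1 (hcon k)
  have hf : e' * e⁻¹ ∈ D.NN := mul_mem he' (inv_mem he)
  have hfr : D.Rep (e' * e⁻¹) (w' * w⁻¹) := rep_mul D h' (rep_inv D h)
  have hei : e⁻¹ ∈ D.NN := inv_mem he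
  have heir : D.Rep e⁻¹ w⁻¹ := rep_inv D h
  rcases weyl_sign D (inv_mem hwW) k with h1 | h1
  · have hs := (NN_conj D hei heir k 1).2.2.1 h1
    have hs' := (NN_conj D hf hfr k 1).2.2.2 hk
    have e1 : e' * (e⁻¹ * D.y k 1 * e⁻¹⁻¹) * e'⁻¹ = e' * e⁻¹ * D.y k 1 * (e' * e⁻¹)⁻¹ := by group
    have e2 : e * (e⁻¹ * D.y k 1 * e⁻¹⁻¹) * e⁻¹ = D.y k 1 := by group
    have h2 := (H _ hs).2 (by rw [e1]; exact hs')
    rw [e2] at h2
    exact one_ne_zero (y_inj D k (N_inter_Nb D h2 (y_mem_Nb D k 1)))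
  · have hs := (NN_conj D hei heir k 1).2.1 h1
    have hs' := (NN_conj D hf hfr k 1).2.1 hk
    have e1 : e' * (e⁻¹ * D.x k 1 * e⁻¹⁻¹) * e'⁻¹ = e' * e⁻¹ * D.x k 1 * (e' * e⁻¹)⁻¹ := by group
    have e2 : e * (e⁻¹ * D.x k 1 * e⁻¹⁻¹) * e⁻¹ = D.x k 1 := by group
    have h2 := (H _ hs).1 (by rw [e2]; exact x_mem_N D k 1)
    rw [e1] at h2
    have h3 := N_inter_Nb D h2 hs'
    have h4 : D.x k 1 = 1 := by
      have h5 : D.x k 1 = (e' * e⁻¹)⁻¹ * (e' * e⁻¹ * D.x k 1 * (e' * e⁻¹)⁻¹) * (e' * e⁻¹) := by group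
      rw [h5, h3]; group
    exact one_ne_zero (x_inj D k h4)

end Pool.Agent.Chev
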