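import Mathlib
import Pool.Agent.Helper911_Chev.Defs3
import Pool.Agent.Helper911_T3.PC

set_option autoImplicit false
set_option linter.unusedSectionVars false
set_option maxHeartbeats 1000000

noncomputable section

open Matrix Topology

namespace Pool.Agent.Chev

open ChevData
open Pool.Agent.Helper911 (char_taylor moment_bound_conv)

variable {p : ℕ} [Fact p.Prime] {I ι : Type} [Fintype I] [DecidableEq I] [Fintype ι]
  [DecidableEq ι] (D : ChevData p I ι)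

/-! ======= HELPERS ======= -/

/-- `F v` is, on `J`, a polynomial of degree `≤ I` in `t v` up to `A ‖t v‖^(I+1)`. -/
def Expd {p : ℕ} [Fact p.Prime] {C : Type*} [NormedField C] [NormedAlgebra ℚ_[p] C] (I : ℕ)
    (J : Finset ℚ_[p]) (t : ℚ_[p]) (A : ℝ) (F : ℚ_[p] → C) : Prop :=
  ∃ e : ℕ → C, (∀ k, ‖e k‖ ≤ A) ∧ ∀ v ∈ J,
    ‖F v - ∑ k ∈ Finset.range (I + 1), e k * (algebraMap ℚ_[p] C (t * v)) ^ k‖
      ≤ A * ‖t * v‖ ^ (I + 1)

theorem trunc_poly {p : ℕ} [Fact p.Prime] (P : Polynomial ℤ_[p]) (I : ℕ) (T : ℚ_[p])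
    (hT : ‖T‖ ≤ 1) :
    ‖Polynomial.aeval T P - ∑ k ∈ Finset.range (I + 1), ((P.coeff k : ℤ_[p]) : ℚ_[p]) * T ^ k‖
      ≤ ‖T‖ ^ (I + 1) := by
  have h1 : Polynomial.aeval T P =
      ∑ k ∈ Finset.range ((I + 1) + (P.natDegree + 1)), ((P.coeff k : ℤ_[p]) : ℚ_[p]) * T ^ k := by
    rw [Polynomial.aeval_eq_sum_range' (n := (I + 1) + (P.natDegree + 1)) (by omega)]
    rfl
  rw [h1, Finset.sum_range_add, add_sub_cancel_left]
  refine IsUltrametricDist.norm_sum_le_of_forall_le_of_nonneg (by positivity) fun k _ => ?_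
  rw [norm_mul, norm_pow]
  calc ‖((P.coeff (I + 1 + k) : ℤ_[p]) : ℚ_[p])‖ * ‖T‖ ^ (I + 1 + k) ≤ 1 * ‖T‖ ^ (I + 1 + k) := by
        refine mul_le_mul_of_nonneg_right ?_ (by positivity)
        exact PadicInt.norm_le_one _
    _ = ‖T‖ ^ (I + 1 + k) := one_mul _
    _ ≤ ‖T‖ ^ (I + 1) := pow_le_pow_of_le_one (norm_nonneg _) hT (by omega)

theorem expd_mul {p : ℕ} [Fact p.Prime] {C : Type*} [NormedField C] [NormedAlgebra ℚ_[p] C]
    (I : ℕ) (A A' : ℝ) (hA : 0 ≤ A) (hA' : 0 ≤ A') {J : Finset ℚ_[p]} {t : ℚ_[p]}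
    {F G : ℚ_[p] → C} (hJ : ∀ v ∈ J, ‖t * v‖ ≤ 1) (hF : Expd I J t A F) (hG : Expd I J t A' G) :
    Expd I J t (((I + 2 : ℝ) + (I + 1) + (I + 1) ^ 2) * (A * A')) (fun v => F v * G v) := by
  obtain ⟨e, he, hFe⟩ := hF
  obtain ⟨c, hc, hGc⟩ := hG
  have hAA : 0 ≤ A * A' := mul_nonneg hA hA'
  have hI : (0 : ℝ) ≤ I := Nat.cast_nonneg I
  have hK : ∑ j ∈ Finset.range (I + 1), ‖c j‖ ≤ (I + 1) * A' := by
    calc ∑ j ∈ Finset.range (I + 1), ‖c j‖ ≤ ∑ _j ∈ Finset.range (I + 1), A' :=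
          Finset.sum_le_sum fun j _ => hc j
      _ = (I + 1) * A' := by simp
  obtain ⟨g, hg, hgT⟩ := moment_bound_conv I e c A _ hA he hK
  refine ⟨g, fun k => ?_, fun v hv => ?_⟩
  · refine (hg k).trans ?_
    have : ((I : ℝ) + 1) * A * ((I + 1) * A') = (I + 1) ^ 2 * (A * A') := by ring
    rw [this]
    refine mul_le_mul_of_nonneg_right ?_ hAA
    nlinarith
  · set T : C := algebraMap ℚ_[p] C (t * v) with hTdef
    have hTn : ‖T‖ = ‖t * v‖ := norm_algebraMap' C (t * v)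
    have hT1 : ‖T‖ ≤ 1 := by rw [hTn]; exact hJ v hv
    have hFv := hFe v hv
    have hGv := hGc v hv
    have hgv := hgT T hT1
    rw [← hTn] at hFv hGv ⊢
    set PF : C := ∑ k ∈ Finset.range (I + 1), e k * T ^ k with hPF
    set PG : C := ∑ k ∈ Finset.range (I + 1), c k * T ^ k with hPG
    set Pg : C := ∑ k ∈ Finset.range (I + 1), g k * T ^ k with hPg
    have hx : 0 ≤ ‖T‖ ^ (I + 1) := by positivity
    have hx1 : ‖T‖ ^ (I + 1) ≤ 1 := pow_le_one₀ (norm_nonneg _) hT1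
    have bound : ∀ (w : ℕ → C) (B : ℝ), 0 ≤ B → (∀ k, ‖w k‖ ≤ B) →
        ‖∑ k ∈ Finset.range (I + 1), w k * T ^ k‖ ≤ (I + 1) * B := by
      intro w B hB hw
      calc ‖∑ k ∈ Finset.range (I + 1), w k * T ^ k‖ ≤ ∑ _k ∈ Finset.range (I + 1), B := by
            refine norm_sum_le_of_le _ fun k _ => ?_
            rw [norm_mul, norm_pow]
            calc ‖w k‖ * ‖T‖ ^ k ≤ B * 1 :=
                  mul_le_mul (hw k) (pow_le_one₀ (norm_nonneg _) hT1) (by positivity) hB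
              _ = B := mul_one _
        _ = (I + 1) * B := by simp
    have hPFn : ‖PF‖ ≤ (I + 1) * A := bound e A hA he
    have hPGn : ‖PG‖ ≤ (I + 1) * A' := bound c A' hA' hc
    have hGn : ‖G v‖ ≤ (I + 2) * A' := by
      have h1 : G v = (G v - PG) + PG := by ring
      calc ‖G v‖ = ‖(G v - PG) + PG‖ := by rw [← h1]
        _ ≤ ‖G v - PG‖ + ‖PG‖ := norm_add_le _ _
        _ ≤ A' * ‖T‖ ^ (I + 1) + (I + 1) * A' := add_le_add hGv hPGn
        _ ≤ A' * 1 + (I + 1) * A' := by gcongr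
        _ = (I + 2) * A' := by ring
    have key : F v * G v - Pg = (F v - PF) * G v + PF * (G v - PG) + (PF * PG - Pg) := by ring
    show ‖F v * G v - Pg‖ ≤ _
    rw [key]
    calc ‖(F v - PF) * G v + PF * (G v - PG) + (PF * PG - Pg)‖
        ≤ ‖(F v - PF) * G v‖ + ‖PF * (G v - PG)‖ + ‖PF * PG - Pg‖ := norm_add₃_le
      _ ≤ (A * ‖T‖ ^ (I + 1)) * ((I + 2) * A') + ((I + 1) * A) * (A' * ‖T‖ ^ (I + 1)) +
          (I + 1) * A * ((I + 1) * A') * ‖T‖ ^ (I + 1) := by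
          refine add_le_add (add_le_add ?_ ?_) hgv
          · rw [norm_mul]
            exact mul_le_mul hFv hGn (norm_nonneg _) (mul_nonneg hA hx)
          · rw [norm_mul]
            exact mul_le_mul hPFn hGv (norm_nonneg _) (by positivity)
      _ = ((I + 2 : ℝ) + (I + 1) + (I + 1) ^ 2) * (A * A') * ‖T‖ ^ (I + 1) := by ring

theorem expd_one {p : ℕ} [Fact p.Prime] {C : Type*} [NormedField C] [NormedAlgebra ℚ_[p] C]
    (I : ℕ) (J : Finset ℚ_[p]) (t : ℚ_[p]) : Expd I J t 1 (fun _ => (1 : C)) := by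
  refine ⟨fun k => if k = 0 then 1 else 0, fun k => ?_, fun v _ => ?_⟩
  · dsimp only
    split <;> simp
  · have : ∑ k ∈ Finset.range (I + 1), (if k = 0 then (1 : C) else 0) *
        (algebraMap ℚ_[p] C (t * v)) ^ k = 1 := by
      rw [Finset.sum_eq_single 0]
      · simp
      · intro k _ hk; simp [hk]
      · intro h; simp at h
    rw [this, sub_self, norm_zero, one_mul]
    positivity

theorem expd_single {p : ℕ} [Fact p.Prime] {C : Type*} [NormedField C] [NormedAlgebra ℚ_[p] C]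
    [CompleteSpace C] (ξ : ℚ_[p]ˣ →* Cˣ) (hξ : Continuous ξ) (I : ℕ) :
    ∃ (M0 : ℕ) (A : ℝ), 0 ≤ A ∧ ∀ (J : Finset ℚ_[p]), (∀ v ∈ J, ‖v‖ ≤ (p : ℝ) ^ (-(M0 : ℤ))) →
      ∀ (f : Polynomial ℤ_[p]) (t : ℚ_[p]), f.coeff 0 = 1 → ‖t‖ ≤ 1 → ∀ u : ℚ_[p] → ℚ_[p]ˣ,
        (∀ v ∈ J, (u v : ℚ_[p]) = Polynomial.aeval (t * v) f) →
        Expd I J t A (fun v => ((ξ (u v) : Cˣ) : C)) := by
  obtain ⟨M0, c, A, h⟩ := char_taylor (C := C) ξ hξ I
  set K : ℝ := ∑ i ∈ Finset.range (I + 1), ‖c i‖ with hKdef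
  have hK : 0 ≤ K := Finset.sum_nonneg fun i _ => norm_nonneg _
  refine ⟨M0, |A| + K, by positivity, ?_⟩
  intro J hJ f t hf ht u hu
  -- the polynomials `(f - 1)^i`
  refine ⟨fun k => ∑ i ∈ Finset.range (I + 1),
    c i * algebraMap ℚ_[p] C ((((f - 1) ^ i).coeff k : ℤ_[p]) : ℚ_[p]), fun k => ?_, fun v hv => ?_⟩
  · calc ‖∑ i ∈ Finset.range (I + 1),
          c i * algebraMap ℚ_[p] C ((((f - 1) ^ i).coeff k : ℤ_[p]) : ℚ_[p])‖
        ≤ ∑ i ∈ Finset.range (I + 1), ‖c i‖ := by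
          refine norm_sum_le_of_le _ fun i _ => ?_
          rw [norm_mul, norm_algebraMap']
          calc ‖c i‖ * ‖((((f - 1) ^ i).coeff k : ℤ_[p]) : ℚ_[p])‖ ≤ ‖c i‖ * 1 :=
                mul_le_mul_of_nonneg_left (PadicInt.norm_le_one _) (norm_nonneg _)
            _ = ‖c i‖ := mul_one _
      _ ≤ |A| + K := by rw [← hKdef]; linarith [abs_nonneg A]
  · have hv1 : ‖v‖ ≤ (p : ℝ) ^ (-(M0 : ℤ)) := hJ v hv
    have hTv : ‖t * v‖ ≤ (p : ℝ) ^ (-(M0 : ℤ)) := by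
      rw [norm_mul]
      calc ‖t‖ * ‖v‖ ≤ 1 * ‖v‖ := mul_le_mul_of_nonneg_right ht (norm_nonneg _)
        _ = ‖v‖ := one_mul _
        _ ≤ _ := hv1
    have hT1 : ‖t * v‖ ≤ 1 := hTv.trans (pw_le_one p M0)
    set T : ℚ_[p] := t * v with hT
    set y : ℚ_[p] := Polynomial.aeval T (f - 1) with hy
    have hfy : Polynomial.aeval T f = 1 + y := by
      rw [hy, map_sub, map_one]; ring
    have hyn : ‖y‖ ≤ ‖T‖ := by
      have h0 := trunc_poly (f - 1) 0 T hT1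
      have hc0 : (f - 1).coeff 0 = 0 := by
        rw [Polynomial.coeff_sub, hf, Polynomial.coeff_one_zero, sub_self]
      rw [Finset.sum_range_one, hc0] at h0
      rw [hy]
      simpa using h0
    have hyM : ‖y‖ ≤ (p : ℝ) ^ (-(M0 : ℤ)) := hyn.trans hTv
    have h1 := h y hyM (u v) (by rw [hu v hv, hfy])
    have h2 : ∀ i, ‖(algebraMap ℚ_[p] C y) ^ i - ∑ k ∈ Finset.range (I + 1),
        algebraMap ℚ_[p] C ((((f - 1) ^ i).coeff k : ℤ_[p]) : ℚ_[p]) * (algebraMap ℚ_[p] C T) ^ k‖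
        ≤ ‖T‖ ^ (I + 1) := by
      intro i
      have h3 := trunc_poly ((f - 1) ^ i) I T hT1
      rw [map_pow] at h3
      have h4 : (algebraMap ℚ_[p] C y) ^ i - ∑ k ∈ Finset.range (I + 1),
        algebraMap ℚ_[p] C ((((f - 1) ^ i).coeff k : ℤ_[p]) : ℚ_[p]) * (algebraMap ℚ_[p] C T) ^ k =
        algebraMap ℚ_[p] C (y ^ i - ∑ k ∈ Finset.range (I + 1),
          ((((f - 1) ^ i).coeff k : ℤ_[p]) : ℚ_[p]) * T ^ k) := by
        simp only [map_sub, map_pow, map_sum, map_mul]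
      rw [h4, norm_algebraMap']
      exact h3
    have h5 : ∑ k ∈ Finset.range (I + 1), (∑ i ∈ Finset.range (I + 1),
        c i * algebraMap ℚ_[p] C ((((f - 1) ^ i).coeff k : ℤ_[p]) : ℚ_[p])) *
        (algebraMap ℚ_[p] C T) ^ k =
        ∑ i ∈ Finset.range (I + 1), c i * ∑ k ∈ Finset.range (I + 1),
        algebraMap ℚ_[p] C ((((f - 1) ^ i).coeff k : ℤ_[p]) : ℚ_[p]) *
          (algebraMap ℚ_[p] C T) ^ k := by
      simp only [Finset.sum_mul, Finset.mul_sum]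
      rw [Finset.sum_comm]
      refine Finset.sum_congr rfl fun i _ => Finset.sum_congr rfl fun k _ => ?_
      ring
    show ‖((ξ (u v) : Cˣ) : C) - ∑ k ∈ Finset.range (I + 1), (∑ i ∈ Finset.range (I + 1),
        c i * algebraMap ℚ_[p] C ((((f - 1) ^ i).coeff k : ℤ_[p]) : ℚ_[p])) *
        (algebraMap ℚ_[p] C T) ^ k‖ ≤ _
    rw [h5]
    have h6 : ((ξ (u v) : Cˣ) : C) - ∑ i ∈ Finset.range (I + 1), c i * ∑ k ∈ Finset.range (I + 1),
        algebraMap ℚ_[p] C ((((f - 1) ^ i).coeff k : ℤ_[p]) : ℚ_[p]) *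
          (algebraMap ℚ_[p] C T) ^ k =
        (((ξ (u v) : Cˣ) : C) - ∑ i ∈ Finset.range (I + 1), c i * (algebraMap ℚ_[p] C y) ^ i) +
        ∑ i ∈ Finset.range (I + 1), c i * ((algebraMap ℚ_[p] C y) ^ i -
          ∑ k ∈ Finset.range (I + 1),
        algebraMap ℚ_[p] C ((((f - 1) ^ i).coeff k : ℤ_[p]) : ℚ_[p]) *
          (algebraMap ℚ_[p] C T) ^ k) := by
      simp only [mul_sub, Finset.sum_sub_distrib]
      ring
    rw [h6]
    refine (norm_add_le _ _).trans ?_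
    have hTp : 0 ≤ ‖T‖ ^ (I + 1) := by positivity
    have h7 : ‖((ξ (u v) : Cˣ) : C) - ∑ i ∈ Finset.range (I + 1),
        c i * (algebraMap ℚ_[p] C y) ^ i‖ ≤ |A| * ‖T‖ ^ (I + 1) := by
      refine h1.trans ?_
      calc A * ‖y‖ ^ (I + 1) ≤ |A| * ‖y‖ ^ (I + 1) :=
            mul_le_mul_of_nonneg_right (le_abs_self A) (by positivity)
        _ ≤ |A| * ‖T‖ ^ (I + 1) :=
            mul_le_mul_of_nonneg_left (pow_le_pow_left₀ (norm_nonneg _) hyn _) (abs_nonneg A)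
    have h8 : ‖∑ i ∈ Finset.range (I + 1), c i * ((algebraMap ℚ_[p] C y) ^ i -
          ∑ k ∈ Finset.range (I + 1),
        algebraMap ℚ_[p] C ((((f - 1) ^ i).coeff k : ℤ_[p]) : ℚ_[p]) *
          (algebraMap ℚ_[p] C T) ^ k)‖ ≤ K * ‖T‖ ^ (I + 1) := by
      rw [hKdef, Finset.sum_mul]
      refine norm_sum_le_of_le _ fun i _ => ?_
      rw [norm_mul]
      exact mul_le_mul_of_nonneg_left (h2 i) (norm_nonneg _)
    calc _ ≤ |A| * ‖T‖ ^ (I + 1) + K * ‖T‖ ^ (I + 1) := add_le_add h7 h8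
      _ = (|A| + K) * ‖T‖ ^ (I + 1) := by ring

theorem expd_prod {p : ℕ} [Fact p.Prime] {C : Type*} [NormedField C] [NormedAlgebra ℚ_[p] C]
    [CompleteSpace C] {S : Type*} (ξ : S → (ℚ_[p]ˣ →* Cˣ)) (hξ : ∀ s, Continuous (ξ s)) (I : ℕ)
    (S' : Finset S) :
    ∃ (M0 : ℕ) (A : ℝ), 0 ≤ A ∧ ∀ (J : Finset ℚ_[p]), (∀ v ∈ J, ‖v‖ ≤ (p : ℝ) ^ (-(M0 : ℤ))) →
      ∀ (f : S → Polynomial ℤ_[p]) (t : ℚ_[p]), (∀ s, (f s).coeff 0 = 1) → ‖t‖ ≤ 1 →
      ∀ u : S → ℚ_[p] → ℚ_[p]ˣ,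
        (∀ s, ∀ v ∈ J, (u s v : ℚ_[p]) = Polynomial.aeval (t * v) (f s)) →
        Expd I J t A (fun v => ∏ s ∈ S', ((ξ s (u s v) : Cˣ) : C)) := by
  classical
  induction S' using Finset.induction_on with
  | empty =>
    refine ⟨0, 1, zero_le_one, ?_⟩
    intro J _ f t _ _ u _
    simpa using expd_one (C := C) I J t
  | insert s S' hs ih =>
    obtain ⟨M1, A1, hA1, h1⟩ := ih
    obtain ⟨M2, A2, hA2, h2⟩ := expd_single (C := C) (ξ s) (hξ s) I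
    refine ⟨max M1 M2, ((I + 2 : ℝ) + (I + 1) + (I + 1) ^ 2) * (A2 * A1), by positivity, ?_⟩
    intro J hJ f t hf ht u hu
    have hp1 : (1 : ℝ) ≤ p := by exact_mod_cast (Fact.out : p.Prime).one_lt.le
    have hJ1 : ∀ v ∈ J, ‖v‖ ≤ (p : ℝ) ^ (-(M1 : ℤ)) := fun v hv =>
      (hJ v hv).trans (zpow_le_zpow_right₀ hp1 (by
        have := le_max_left M1 M2; omega))
    have hJ2 : ∀ v ∈ J, ‖v‖ ≤ (p : ℝ) ^ (-(M2 : ℤ)) := fun v hv =>
      (hJ v hv).trans (zpow_le_zpow_right₀ hp1 (by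
        have := le_max_right M1 M2; omega))
    have hJt : ∀ v ∈ J, ‖t * v‖ ≤ 1 := by
      intro v hv
      rw [norm_mul]
      exact mul_le_one₀ ht (norm_nonneg _) ((hJ1 v hv).trans (pw_le_one p M1))
    have e1 := h1 J hJ1 f t hf ht u hu
    have e2 := h2 J hJ2 (f s) t (hf s) ht (u s) (hu s)
    have e3 := expd_mul I A2 A1 hA2 hA1 hJt e2 e1
    simpa only [Finset.prod_insert hs] using e3

/-! ======= end helpers ======= -/

/-! ======= TARGETS ======= -/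

/-- TARGET.
Proof. For one `s`: `f_s(T) = 1 + T g_s(T)` with `g_s ∈ ℤ_p[T]`. By `char_taylor`, for `‖T‖` small, `ξ_s(f_s(T)) = ∑_{i ≤ I} c_i (T g_s(T))^i + O(‖T‖^(I+1))`, with `c_i` and the constant independent of `f_s`; expanding and truncating (the coefficients of `g_s^i` have norm `≤ 1`), `= ∑_{k ≤ I} e_k T^k + O(‖T‖^(I+1))` with `‖e_k‖ ≤ A'`, the constants independent of `f_s`. Products over `s ∈ S` of such expressions are again of this form (truncate at order `I`; induction over a finite set, `moment_bound_conv`).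
So `F(T) = ∏_s ξ_s(u_s) = ∑_{k ≤ I} e_k T^k + err`, `‖err‖ ≤ A ‖T‖^(I+1)` for `T = t v`, and `∑_v a_v F(t v) = ∑_k e_k t^k ∑_v a_v v^k + ∑_v a_v err_v`, the first part is `0` and the second is bounded by (ultrametric or the ordinary triangle inequality is NOT enough with a constant independent of `J`; `C` is ultrametric because it is a normed algebra over `ℚ_[p]`, the norm of every natural number is `≤ 1`: `IsUltrametricDist.isUltrametricDist_of_forall_norm_natCast_le_one`) `B A ‖t‖^(I+1)`. -/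
theorem moment_bound_poly {p : ℕ} [Fact p.Prime] {C : Type*} [NormedField C]
    [NormedAlgebra ℚ_[p] C] [CompleteSpace C] {S : Type*} [Fintype S] (ξ : S → (ℚ_[p]ˣ →* Cˣ))
    (hξ : ∀ s, Continuous (ξ s)) (I : ℕ) :
    ∃ (M0 : ℕ) (A : ℝ), 0 ≤ A ∧ ∀ (J : Finset ℚ_[p]) (a : ℚ_[p] → C) (B : ℝ),
      (∀ v ∈ J, ‖v‖ ≤ (p : ℝ) ^ (-(M0 : ℤ))) → (∀ v ∈ J, ‖a v‖ ≤ B) → 0 ≤ B →
      (∀ i ≤ I, ∑ v ∈ J, a v * (algebraMap ℚ_[p] C v) ^ i = 0) →
      ∀ (f : S → Polynomial ℤ_[p]) (t : ℚ_[p]), (∀ s, (f s).coeff 0 = 1) → ‖t‖ ≤ 1 →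
      ∀ u : S → ℚ_[p] → ℚ_[p]ˣ,
        (∀ s, ∀ v ∈ J, (u s v : ℚ_[p]) = Polynomial.aeval (t * v) (f s)) →
        ‖∑ v ∈ J, a v * ∏ s, ((ξ s (u s v) : Cˣ) : C)‖ ≤ B * A * ‖t‖ ^ (I + 1) := by
  obtain ⟨M0, A, hA, h⟩ := expd_prod (C := C) ξ hξ I (Finset.univ : Finset S)
  refine ⟨M0, A, hA, ?_⟩
  intro J a B hJ ha hB hmom f t hf ht u hu
  have hum : IsUltrametricDist C := by
    refine IsUltrametricDist.isUltrametricDist_of_forall_norm_natCast_le_one fun n => ?_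
    have h1 : ((n : ℕ) : C) = algebraMap ℚ_[p] C (n : ℚ_[p]) := by simp
    rw [h1, norm_algebraMap']
    have h2 : ((n : ℕ) : ℚ_[p]) = (((n : ℕ) : ℤ_[p]) : ℚ_[p]) := by simp
    rw [h2]
    exact PadicInt.norm_le_one _
  obtain ⟨e, -, herr⟩ := h J hJ f t hf ht u hu
  have hJ1 : ∀ v ∈ J, ‖t * v‖ ≤ ‖t‖ := by
    intro v hv
    rw [norm_mul]
    calc ‖t‖ * ‖v‖ ≤ ‖t‖ * 1 :=
          mul_le_mul_of_nonneg_left ((hJ v hv).trans (pw_le_one p M0)) (norm_nonneg _)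
      _ = ‖t‖ := mul_one _
  have hzero : ∑ v ∈ J, a v * ∑ k ∈ Finset.range (I + 1),
      e k * (algebraMap ℚ_[p] C (t * v)) ^ k = 0 := by
    have h3 : ∀ v ∈ J, a v * ∑ k ∈ Finset.range (I + 1),
        e k * (algebraMap ℚ_[p] C (t * v)) ^ k =
        ∑ k ∈ Finset.range (I + 1), (e k * (algebraMap ℚ_[p] C t) ^ k) *
          (a v * (algebraMap ℚ_[p] C v) ^ k) := by
      intro v _
      rw [Finset.mul_sum]
      refine Finset.sum_congr rfl fun k _ => ?_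
      rw [map_mul, mul_pow]; ring
    rw [Finset.sum_congr rfl h3, Finset.sum_comm]
    refine Finset.sum_eq_zero fun k hk => ?_
    rw [← Finset.mul_sum, hmom k (by rw [Finset.mem_range] at hk; omega), mul_zero]
  have hsplit : ∑ v ∈ J, a v * ∏ s, ((ξ s (u s v) : Cˣ) : C) =
      ∑ v ∈ J, a v * (∏ s, ((ξ s (u s v) : Cˣ) : C) - ∑ k ∈ Finset.range (I + 1),
        e k * (algebraMap ℚ_[p] C (t * v)) ^ k) := by
    simp only [mul_sub, Finset.sum_sub_distrib]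
    rw [hzero, sub_zero]
  rw [hsplit]
  refine IsUltrametricDist.norm_sum_le_of_forall_le_of_nonneg (by positivity) fun v hv => ?_
  rw [norm_mul]
  calc ‖a v‖ * ‖∏ s, ((ξ s (u s v) : Cˣ) : C) - ∑ k ∈ Finset.range (I + 1),
        e k * (algebraMap ℚ_[p] C (t * v)) ^ k‖ ≤ B * (A * ‖t * v‖ ^ (I + 1)) :=
        mul_le_mul (ha v hv) (herr v hv) (norm_nonneg _) hB
    _ ≤ B * (A * ‖t‖ ^ (I + 1)) := by
        refine mul_le_mul_of_nonneg_left (mul_le_mul_of_nonneg_left ?_ hA) hB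
        exact pow_le_pow_left₀ (norm_nonneg _) (hJ1 v hv) _
    _ = B * A * ‖t‖ ^ (I + 1) := by ring

end Pool.Agent.Chev
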