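import Mathlib
import Pool.Agent.Helper911_Chev.Defs3
import Pool.Agent.Helper911_Chev.CA1
import Pool.Agent.Helper911_Chev.CA2
import Pool.Agent.Helper911_Chev.CA3
import Pool.Agent.Helper911_Chev.CH0
import Pool.Agent.Helper911_Chev.CB3
import Pool.Agent.Helper911_Chev.CE1
import Pool.Agent.Helper911_Chev.CH3
import Pool.Agent.Helper911_Chev.CH4
import Pool.Agent.Helper911_Chev.DX1
import Pool.Agent.Helper911_Chev.CH1

set_option autoImplicit false
set_option linter.unusedSectionVars false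
set_option maxHeartbeats 1000000

noncomputable section

open Matrix Topology

namespace Pool.Agent.Chev

open ChevData

variable {p : ℕ} [Fact p.Prime] {I ι : Type} [Fintype I] [DecidableEq I] [Fintype ι]
  [DecidableEq ι] (D : ChevData p I ι)

/-! ======= TARGETS ======= -/

theorem minor_poly_ord {U : Type*} [Fintype U] [DecidableEq U] {R : Type*} [CommRing R] (o : U → ℕ)
    (ho : Function.Injective o) (M : Matrix U U R) (h : ∀ i j, o j < o i → M i j = 0) :
    M.det = ∏ i, M i i := by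
  let _ := LinearOrder.lift' o ho
  have := Matrix.det_of_isUpperTriangular (M := M) (by
    intro i j hij
    exact h i j hij)
  convert this

theorem minor_poly_lo {R : Type*} [CommRing R] {ord : ι → ℕ} (ho : Function.Injective ord) (r : ℕ)
    (M : Matrix ι ι R) (h : ∀ i j, (M - 1) i j ≠ 0 → ord j < ord i) :
    (M.submatrix (Subtype.val : {i // r ≤ ord i} → ι) Subtype.val).det = 1 := by
  rw [← Matrix.det_transpose, minor_poly_ord (fun u : {i // r ≤ ord i} => ord u.1)
    (fun a b hab => Subtype.ext (ho hab))]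
  · apply Finset.prod_eq_one
    intro u _
    rw [Matrix.transpose_apply, Matrix.submatrix_apply]
    by_contra hne
    have h1 : (M - 1) u.1 u.1 ≠ 0 := by
      rw [Matrix.sub_apply, Matrix.one_apply_eq]
      exact sub_ne_zero.2 hne
    exact lt_irrefl _ (h _ _ h1)
  · intro i j hij
    rw [Matrix.transpose_apply, Matrix.submatrix_apply]
    by_contra hne
    have hne' : j.1 ≠ i.1 := by
      intro hji
      have : ord j.1 < ord i.1 := hij
      rw [hji] at this
      exact lt_irrefl _ this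
    have h1 : (M - 1) j.1 i.1 ≠ 0 := by
      rw [Matrix.sub_apply, Matrix.one_apply_ne hne', sub_zero]
      exact hne
    exact lt_asymm hij (h _ _ h1)

theorem minor_poly_int {x : GLm p ι} (hx : x ∈ Cg p ι 0) (i j : ι) :
    ‖(x : Matrix ι ι ℚ_[p]) i j‖ ≤ 1 := by
  have h1 := hx.1 i j
  have h2 : (x : Matrix ι ι ℚ_[p]) i j = ((x : Matrix ι ι ℚ_[p]) - 1) i j
      + (1 : Matrix ι ι ℚ_[p]) i j := by simp
  rw [h2]
  refine (IsUltrametricDist.norm_add_le_max _ _).trans (max_le ?_ ?_)
  · simpa using h1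
  · rw [Matrix.one_apply]; split_ifs <;> simp

/-- Integral matrices. -/
def minor_poly_lift (x : Matrix ι ι ℚ_[p]) (hx : ∀ i j, ‖x i j‖ ≤ 1) : Matrix ι ι ℤ_[p] :=
  fun i j => ⟨x i j, hx i j⟩

theorem minor_poly_lift_map (x : Matrix ι ι ℚ_[p]) (hx : ∀ i j, ‖x i j‖ ≤ 1) :
    (algebraMap ℤ_[p] ℚ_[p]).mapMatrix (minor_poly_lift x hx) = x := by
  ext i j
  rfl

theorem minor_poly_inj : Function.Injective
    ((algebraMap ℤ_[p] ℚ_[p]).mapMatrix : Matrix ι ι ℤ_[p] →+* Matrix ι ι ℚ_[p]) := by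
  intro x y hxy
  ext i j
  have h : ((x i j : ℤ_[p]) : ℚ_[p]) = (y i j : ℤ_[p]) := congrFun (congrFun hxy i) j
  exact Subtype.ext h

/-- TARGET.
Proof. Let `U = {i | r ≤ ord i}`. `y k s = ∑_{m < M} s^m • (1/m!) F^m` (`exU_sum`) with integral matrices `(1/m!) F^m` (`hI.F_int`). So `X(s) = g e y_k(s) e⁻¹ = ∑_m s^m X_m` with integral matrices `X_m` (entries in `ℤ_[p]`), `X_0 = g`. Let `f` be the determinant of the submatrix (rows and columns in `U`) of the matrix of polynomials `∑_m X_m T^m` over `ℤ_[p]`. `aeval s f` is the determinant of the submatrix of `X(s)` (`RingHom.map_det`), and `f.coeff 0` (= eval at `0`) is that of `g`, which is lower unitriangular for `ord` (`UM_lo`, `Nb_le_UM`), so it is `1`.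
If `X(s) = b m'` with `b = h(τ) n` upper triangular (`B_up`, `mem_B`) and `m'` lower unitriangular: for rows `i ∈ U`, `b i j ≠ 0` implies `ord i ≤ ord j`, `j ∈ U`, so the submatrix of `X(s)` is the product of the submatrices of `b` and `m'`, with determinants `∏_{i ∈ U} b i i` and `1` (triangular matrices: `Matrix.det_of_upperTriangular`, via a linear order on the subtype given by the injective `ord`, or `Matrix.BlockTriangular`), and `b i i = ∏_l τ_l ^ wt i l` (`hn_diag`). -/
theorem minor_poly {ord : ι → ℕ} (ho : GoodOrd D ord) (hI : D.Integral) {e : GLm p ι}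
    (he : e ∈ Cg p ι 0) {g : GLm p ι} (hg : g ∈ D.Nb) (hgi : g ∈ Cg p ι 0) (k : I) (r : ℕ) :
    ∃ f : Polynomial ℤ_[p], f.coeff 0 = 1 ∧ ∀ (s : ℚ_[p]) (τ : I → ℚ_[p]ˣ), ∀ n ∈ D.N, ∀ m' ∈ D.Nb,
      g * (e * D.y k s * e⁻¹) = D.h τ * n * m' →
      ∏ i ∈ Finset.univ.filter (fun i => r ≤ ord i), ((∏ l, τ l ^ D.wt i l : ℚ_[p]ˣ) : ℚ_[p])
        = Polynomial.aeval s f := by
  classical
  obtain ⟨M, hM⟩ := F_nil D k
  set gZ := minor_poly_lift (g : Matrix ι ι ℚ_[p]) (minor_poly_int hgi) with hgZ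
  set eZ := minor_poly_lift (e : Matrix ι ι ℚ_[p]) (minor_poly_int he) with heZ
  set iZ := minor_poly_lift ((e⁻¹ : GLm p ι) : Matrix ι ι ℚ_[p]) (minor_poly_int (inv_mem he)) with hiZ
  set FM : ℕ → Matrix ι ι ℤ_[p] := fun m =>
    minor_poly_lift ((m.factorial : ℚ_[p])⁻¹ • D.F k ^ m) (hI.F_int k m) with hFM
  have hei : eZ * iZ = 1 := by
    apply minor_poly_inj
    rw [map_mul, map_one, heZ, hiZ, minor_poly_lift_map, minor_poly_lift_map, ← Units.val_mul,
      mul_inv_cancel, Units.val_one]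
  have hFM0 : FM 0 = 1 := by
    apply minor_poly_inj
    rw [hFM, minor_poly_lift_map, map_one]
    simp
  set cM : Matrix ι ι ℤ_[p] →+* Matrix ι ι (Polynomial ℤ_[p]) :=
    (Polynomial.C : ℤ_[p] →+* Polynomial ℤ_[p]).mapMatrix with hcM
  set PM : Matrix ι ι (Polynomial ℤ_[p]) := cM gZ * (cM eZ *
    (∑ m ∈ Finset.range (M + 1), (Polynomial.X ^ m : Polynomial ℤ_[p]) • cM (FM m)) * cM iZ) with hPM
  refine ⟨(PM.submatrix (Subtype.val : {i // r ≤ ord i} → ι) Subtype.val).det, ?_, ?_⟩
  · -- the constant coefficient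
    rw [Polynomial.coeff_zero_eq_eval_zero, ← Polynomial.coe_evalRingHom, RingHom.map_det]
    have h1 : (Polynomial.evalRingHom (0 : ℤ_[p])).mapMatrix
        (PM.submatrix (Subtype.val : {i // r ≤ ord i} → ι) Subtype.val)
        = ((Polynomial.evalRingHom (0 : ℤ_[p])).mapMatrix PM).submatrix Subtype.val Subtype.val := rfl
    have hc : ∀ A : Matrix ι ι ℤ_[p], (Polynomial.evalRingHom (0 : ℤ_[p])).mapMatrix (cM A) = A := by
      intro A; ext i j; simp [hcM]
    have hs : (Polynomial.evalRingHom (0 : ℤ_[p])).mapMatrix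
        (∑ m ∈ Finset.range (M + 1), (Polynomial.X ^ m : Polynomial ℤ_[p]) • cM (FM m)) = 1 := by
      rw [map_sum, Finset.sum_range_succ']
      have hz : ∀ m ∈ Finset.range M, (Polynomial.evalRingHom (0 : ℤ_[p])).mapMatrix
          ((Polynomial.X ^ (m + 1) : Polynomial ℤ_[p]) • cM (FM (m + 1))) = 0 := by
        intro m _
        ext i j
        simp
      rw [Finset.sum_eq_zero hz, zero_add, pow_zero, one_smul, hc, hFM0]
    have h2 : (Polynomial.evalRingHom (0 : ℤ_[p])).mapMatrix PM = gZ := by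
      rw [hPM, map_mul, map_mul, map_mul, hs, hc, hc, hc, mul_one, hei, mul_one]
    rw [h1, h2]
    apply minor_poly_lo ho.inj
    intro i j hij
    apply UM_lo D ho (Nb_le_UM D hg) i j
    intro h0
    apply hij
    have h3 : algebraMap ℤ_[p] ℚ_[p] ((gZ - 1) i j) = ((g : Matrix ι ι ℚ_[p]) - 1) i j := by
      rw [Matrix.sub_apply, Matrix.sub_apply, map_sub, Matrix.one_apply, Matrix.one_apply]
      congr 1
      split_ifs <;> simp
    rw [h0] at h3
    exact (map_eq_zero_iff _ (FaithfulSMul.algebraMap_injective ℤ_[p] ℚ_[p])).1 h3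
  · intro s τ n hn m' hm' heq
    have hdet : Polynomial.aeval s
        ((PM.submatrix (Subtype.val : {i // r ≤ ord i} → ι) Subtype.val).det)
        = (((Polynomial.aeval (R := ℤ_[p]) s : Polynomial ℤ_[p] →ₐ[ℤ_[p]] ℚ_[p]) :
            Polynomial ℤ_[p] →+* ℚ_[p]).mapMatrix
          (PM.submatrix (Subtype.val : {i // r ≤ ord i} → ι) Subtype.val)).det :=
      RingHom.map_det _ _
    rw [hdet]
    set φ : Polynomial ℤ_[p] →+* ℚ_[p] :=
      ((Polynomial.aeval (R := ℤ_[p]) s : Polynomial ℤ_[p] →ₐ[ℤ_[p]] ℚ_[p]) :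
            Polynomial ℤ_[p] →+* ℚ_[p]) with hφ
    have h1 : φ.mapMatrix (PM.submatrix (Subtype.val : {i // r ≤ ord i} → ι) Subtype.val)
        = (φ.mapMatrix PM).submatrix Subtype.val Subtype.val := rfl
    have hc : ∀ (x : Matrix ι ι ℚ_[p]) (hx : ∀ i j, ‖x i j‖ ≤ 1),
        φ.mapMatrix (cM (minor_poly_lift x hx)) = x := by
      intro x hx
      ext i j
      simp only [hcM, RingHom.mapMatrix_apply, Matrix.map_apply, hφ, AlgHom.coe_toRingHom,
        Polynomial.aeval_C]
      rfl
    have hy : ((D.y k s : GLm p ι) : Matrix ι ι ℚ_[p])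
        = ∑ m ∈ Finset.range (M + 1), s ^ m • ((m.factorial : ℚ_[p])⁻¹ • D.F k ^ m) := by
      have h0 : (s • D.F k) ^ (M + 1) = 0 := by
        rw [smul_pow, pow_succ (D.F k), hM, zero_mul, smul_zero]
      have h2 := exU_sum (p := p) (ι := ι) h0
      show ((exU (s • D.F k) : GLm p ι) : Matrix ι ι ℚ_[p]) = _
      rw [h2]
      refine Finset.sum_congr rfl fun m _ => ?_
      rw [smul_pow, smul_comm]
    have hs : φ.mapMatrix
        (∑ m ∈ Finset.range (M + 1), (Polynomial.X ^ m : Polynomial ℤ_[p]) • cM (FM m))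
        = ((D.y k s : GLm p ι) : Matrix ι ι ℚ_[p]) := by
      rw [map_sum, hy]
      refine Finset.sum_congr rfl fun m _ => ?_
      have h3 := hc ((m.factorial : ℚ_[p])⁻¹ • D.F k ^ m) (hI.F_int k m)
      rw [← h3]
      ext i j
      simp [hφ, hFM]
    have h2 : φ.mapMatrix PM = (((D.h τ * n : GLm p ι) : Matrix ι ι ℚ_[p]))
        * ((m' : GLm p ι) : Matrix ι ι ℚ_[p]) := by
      rw [← Units.val_mul, ← heq, hPM, map_mul, map_mul, map_mul, hs, hc, hc, hc, Units.val_mul,
        Units.val_mul, Units.val_mul]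
    have hup : IsUp ord ((D.h τ * n : GLm p ι) : Matrix ι ι ℚ_[p]) :=
      B_up D ho ((mem_B D _).2 ⟨τ, n, hn, rfl⟩)
    let vv : {i // r ≤ ord i} → ι := Subtype.val
    have h3 : ((((D.h τ * n : GLm p ι) : Matrix ι ι ℚ_[p])
        * ((m' : GLm p ι) : Matrix ι ι ℚ_[p])).submatrix vv vv)
        = (((D.h τ * n : GLm p ι) : Matrix ι ι ℚ_[p]).submatrix vv vv)
          * (((m' : GLm p ι) : Matrix ι ι ℚ_[p]).submatrix vv vv) := by
      ext i j
      rw [Matrix.submatrix_apply, Matrix.mul_apply, Matrix.mul_apply]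
      simp only [Matrix.submatrix_apply, vv]
      rw [← Finset.sum_subset (Finset.subset_univ (Finset.univ.filter (fun i => r ≤ ord i)))]
      · rw [Finset.sum_subtype (p := fun i => r ≤ ord i) (Finset.univ.filter (fun i => r ≤ ord i))
          (by intro x; simp)]
      · intro l _ hl
        have hl' : ¬ r ≤ ord l := by simpa using hl
        have : ((D.h τ * n : GLm p ι) : Matrix ι ι ℚ_[p]) i.val l = 0 := by
          by_contra hne
          exact hl' (i.2.trans (hup _ _ hne))
        rw [this, zero_mul]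
    rw [h1, h2]
    change _ = ((((D.h τ * n : GLm p ι) : Matrix ι ι ℚ_[p])
        * ((m' : GLm p ι) : Matrix ι ι ℚ_[p])).submatrix vv vv).det
    rw [h3, Matrix.det_mul, minor_poly_lo ho.inj r _ (UM_lo D ho (Nb_le_UM D hm')), mul_one,
      minor_poly_ord (fun u : {i // r ≤ ord i} => ord u.1) (fun a b hab => Subtype.ext (ho.inj hab))]
    · rw [Finset.prod_subtype (p := fun i => r ≤ ord i) (Finset.univ.filter (fun i => r ≤ ord i))
          (by intro x; simp)]
      refine Finset.prod_congr rfl fun u _ => ?_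
      rw [Matrix.submatrix_apply]
      exact (hn_diag D hn u.1).symm
    · intro i j hij
      rw [Matrix.submatrix_apply]
      by_contra hne
      exact absurd (hup _ _ hne) (not_le.2 hij)

end Pool.Agent.Chev
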