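import Mathlib
import Pool.Agent.Helper911_Chev.Defs3
import Pool.Agent.Helper911_Chev.CA1
import Pool.Agent.Helper911_Chev.CA2
import Pool.Agent.Helper911_Chev.CA3
import Pool.Agent.Helper911_Chev.CH0
import Pool.Agent.Helper911_Chev.DX1
import Pool.Agent.Helper911_Chev.DM1
import Pool.Agent.Helper911_Chev.DM2

set_option autoImplicit false
set_option linter.unusedSectionVars false
set_option maxHeartbeats 1000000

noncomputable section

open Matrix Topology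

namespace Pool.Agent.Chev

open ChevData

variable {p : ℕ} [Fact p.Prime] {I ι : Type} [Fintype I] [DecidableEq I] [Fintype ι]
  [DecidableEq ι] (D : ChevData p I ι)

/-! ======= TARGETS ======= -/


/-- The character `θ_i(x) = ∏_k χ(Pi.mulSingle k x)^(m k i)`. -/
def thetaAux {C : Type*} [NormedField C] (χ : (I → ℚ_[p]ˣ) →* Cˣ) (m : I → ℤ) : ℚ_[p]ˣ →* Cˣ where
  toFun x := ∏ k, χ (Pi.mulSingle k x) ^ (m k)
  map_one' := by
    apply Finset.prod_eq_one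
    intro k _
    rw [Pi.mulSingle_one, map_one, _root_.one_zpow]
  map_mul' x y := by
    rw [← Finset.prod_mul_distrib]
    refine Finset.prod_congr rfl fun k _ => ?_
    rw [Pi.mulSingle_mul, map_mul, _root_.mul_zpow]

theorem thetaAux_apply {C : Type*} [NormedField C] (χ : (I → ℚ_[p]ˣ) →* Cˣ) (m : I → ℤ)
    (x : ℚ_[p]ˣ) : thetaAux χ m x = ∏ k, χ (Pi.mulSingle k x) ^ (m k) := rfl

theorem thetaAux_cont {C : Type*} [NormedField C] (χ : (I → ℚ_[p]ˣ) →* Cˣ) (hχ : Continuous χ)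
    (m : I → ℤ) : Continuous (thetaAux χ m) := by
  show Continuous (fun x : ℚ_[p]ˣ => ∏ k, χ (Pi.mulSingle k x) ^ (m k))
  refine continuous_finsetProd _ fun k _ => ?_
  exact (hχ.comp (continuous_mulSingle k)).zpow (m k)

/-- The character is the product of the `θ_i` at the `β_i`. -/
theorem chi_eq_aux {C : Type*} [NormedField C] (χ : (I → ℚ_[p]ˣ) →* Cˣ) (m : I → ι → ℤ)
    (τ : I → ℚ_[p]ˣ) (β : ι → ℚ_[p]ˣ) (h : ∀ k, τ k = ∏ i, β i ^ m k i) :
    χ τ = ∏ i, thetaAux χ (fun k => m k i) (β i) := by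
  have h1 : τ = ∏ k, Pi.mulSingle k (τ k) := (Finset.univ_prod_mulSingle τ).symm
  rw [h1, map_prod]
  have h2 : ∀ k, χ (Pi.mulSingle k (τ k)) = ∏ i, χ (Pi.mulSingle k (β i)) ^ m k i := by
    intro k
    rw [h k]
    have h3 : (Pi.mulSingle k (∏ i, β i ^ m k i) : I → ℚ_[p]ˣ)
        = ∏ i, (Pi.mulSingle k (β i) : I → ℚ_[p]ˣ) ^ m k i := by
      have h4 := map_prod (MonoidHom.mulSingle (fun _ : I => ℚ_[p]ˣ) k) (fun i => β i ^ m k i)
        Finset.univ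
      simp only [MonoidHom.mulSingle_apply] at h4
      rw [h4]
      refine Finset.prod_congr rfl fun i _ => ?_
      rw [Pi.mulSingle_zpow]
    rw [h3, map_prod]
    refine Finset.prod_congr rfl fun i _ => ?_
    rw [map_zpow]
  rw [Finset.prod_congr rfl fun k _ => h2 k, Finset.prod_comm]
  rfl

/-- The partial products. -/
def DrAux (ord : ι → ℕ) (β : ι → ℚ_[p]ˣ) (r : ℕ) : ℚ_[p]ˣ :=
  ∏ j ∈ Finset.univ.filter (fun j => r ≤ ord j), β j

theorem DrAux_step (ord : ι → ℕ) (ho : Function.Injective ord) (β : ι → ℚ_[p]ˣ) (i : ι) :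
    DrAux ord β (ord i) = β i * DrAux ord β (ord i + 1) := by
  unfold DrAux
  have h1 : Finset.univ.filter (fun j => ord i ≤ ord j)
      = insert i (Finset.univ.filter (fun j => ord i + 1 ≤ ord j)) := by
    ext j
    simp only [Finset.mem_filter, Finset.mem_univ, true_and, Finset.mem_insert]
    constructor
    · intro h
      rcases Nat.lt_or_ge (ord i) (ord j) with h' | h'
      · right; exact h'
      · left; exact ho (le_antisymm h' h)
    · rintro (rfl | h)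
      · exact le_rfl
      · omega
  rw [h1, Finset.prod_insert]
  simp

/-- TARGET.
Proof. `ord` from `exists_ord`, `m` from `tau_formula`. For `i : ι` let `θ_i : ℚ_[p]ˣ →* Cˣ`, `θ_i(x) = ∏_k χ(Pi.mulSingle k x)^(m k i)`, continuous, so `χ(τ) = ∏_i θ_i(β_i)` with `β_i = ∏_l τ_l ^ wt i l`. With `D_r = ∏_{r ≤ ord j} β_j` one has `β_i = D_{ord i} / D_{ord i + 1}` (`ord` injective), so `χ(τ) = ∏_i θ_i(D_{ord i}) θ_i(D_{ord i + 1})⁻¹`. Apply `moment_bound_poly` with `S = ι × Bool`, `ξ (i, true) = θ_i`, `ξ (i, false) = θ_i⁻¹`; `M0` is the maximum of its `M0` and `1`.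
Given `J, a`: `B = ∑_{v ∈ J} ‖a v‖`, transport `J`, `a` to `Finset ℚ_[p]` by the injection `ℚ_[p]ˣ → ℚ_[p]`. Given `t, g, τ`: `f (i, true)`, `f (i, false)` are the polynomials of `minor_poly` for `r = ord i`, `r = ord i + 1`, and `u (i, true) v = D_{ord i}` for `τ = τ v` (the unit), etc. -/
theorem chev_est {C : Type*} [NormedField C] [NormedAlgebra ℚ_[p] C] [CompleteSpace C]
    (hI : D.Integral) (χ : (I → ℚ_[p]ˣ) →* Cˣ) (hχ : Continuous χ) {e : GLm p ι}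
    (he : e ∈ Cg p ι 0) (k : I) (N0 : ℕ) :
    ∃ M0 : ℕ, 1 ≤ M0 ∧ ∀ (J : Finset ℚ_[p]ˣ) (a : ℚ_[p]ˣ → C),
      (∀ v ∈ J, ‖(v : ℚ_[p])‖ ≤ (p : ℝ) ^ (-(M0 : ℤ))) →
      (∀ i ≤ N0, ∑ v ∈ J, a v * (algebraMap ℚ_[p] C (v : ℚ_[p])) ^ i = 0) →
      ∃ A : ℝ, ∀ t : ℚ_[p], ‖t‖ ≤ 1 → ∀ g ∈ D.Nb, g ∈ Cg p ι 0 →
        ∀ τ : ℚ_[p]ˣ → I → ℚ_[p]ˣ, (∀ v ∈ J, ∃ n ∈ D.N, ∃ m' ∈ D.Nb,
          g * (e * D.y k (t * v) * e⁻¹) = D.h (τ v) * n * m') →
        ‖∑ v ∈ J, a v * ((χ (τ v) : Cˣ) : C)‖ ≤ A * ‖t‖ ^ (N0 + 1)  := by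
  classical
  obtain ⟨ord, ho⟩ := exists_ord D
  obtain ⟨m, hm⟩ := tau_formula D
  set θ : ι → (ℚ_[p]ˣ →* Cˣ) := fun i => thetaAux χ (fun k' => m k' i) with hθ
  have hθc : ∀ i, Continuous (θ i) := fun i => thetaAux_cont χ hχ _
  obtain ⟨M0, A, hA, H⟩ := moment_bound_poly (S := ι × Bool)
    (fun s => bif s.2 then θ s.1 else (θ s.1)⁻¹) (by
      rintro ⟨i, b⟩
      cases b
      · show Continuous (fun x => (θ i x)⁻¹)
        exact (hθc i).inv
      · exact hθc i) N0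
  refine ⟨max M0 1, le_max_right _ _, ?_⟩
  intro J a hJ ha
  refine ⟨(∑ v ∈ J, ‖a v‖) * A, ?_⟩
  intro t ht g hg hgi τ hτ
  choose F hF0 hF using fun r => minor_poly D ho hI he hg hgi k r
  -- the transported data
  set emb : ℚ_[p]ˣ ↪ ℚ_[p] := ⟨Units.val, fun _ _ h => Units.ext h⟩ with hemb
  set a' : ℚ_[p] → C := fun v => if h : v ≠ 0 then a (Units.mk0 v h) else 0 with ha'
  have ha'v : ∀ v : ℚ_[p]ˣ, a' (v : ℚ_[p]) = a v := by
    intro v
    rw [ha']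
    simp only [ne_eq, Units.ne_zero, not_false_eq_true, dite_true]
    congr 1
    ext; rfl
  set τ' : ℚ_[p] → I → ℚ_[p]ˣ := fun v => if h : v ≠ 0 then τ (Units.mk0 v h) else 1 with hτ'
  have hτ'v : ∀ v : ℚ_[p]ˣ, τ' (v : ℚ_[p]) = τ v := by
    intro v
    rw [hτ']
    simp only [ne_eq, Units.ne_zero, not_false_eq_true, dite_true]
    congr 1
    ext; rfl
  set β : (I → ℚ_[p]ˣ) → ι → ℚ_[p]ˣ := fun σ i => ∏ l, σ l ^ D.wt i l with hβ
  have hchi : ∀ σ : I → ℚ_[p]ˣ, χ σ = ∏ i, (θ i (DrAux ord (β σ) (ord i)) *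
      (θ i (DrAux ord (β σ) (ord i + 1)))⁻¹) := by
    intro σ
    rw [chi_eq_aux χ m σ (β σ) (hm σ)]
    refine Finset.prod_congr rfl fun i _ => ?_
    rw [DrAux_step ord ho.inj (β σ) i, map_mul]
    rw [mul_inv_cancel_right]
  have hM : ∀ v ∈ J.map emb, ‖v‖ ≤ (p : ℝ) ^ (-(M0 : ℤ)) := by
    intro v hv
    obtain ⟨w, hw, rfl⟩ := Finset.mem_map.mp hv
    refine (hJ w hw).trans ?_
    have h1 : (1 : ℝ) ≤ p := by exact_mod_cast (Fact.out : p.Prime).one_lt.le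
    apply zpow_le_zpow_right₀ h1
    have := le_max_left M0 1
    push_cast
    omega
  have hB : ∀ v ∈ J.map emb, ‖a' v‖ ≤ ∑ v ∈ J, ‖a v‖ := by
    intro v hv
    obtain ⟨w, hw, rfl⟩ := Finset.mem_map.mp hv
    show ‖a' (w : ℚ_[p])‖ ≤ _
    rw [ha'v]
    exact Finset.single_le_sum (f := fun v => ‖a v‖) (fun _ _ => norm_nonneg _) hw
  have hmom : ∀ i ≤ N0, ∑ v ∈ J.map emb, a' v * (algebraMap ℚ_[p] C v) ^ i = 0 := by
    intro i hi
    rw [Finset.sum_map, ← ha i hi]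
    refine Finset.sum_congr rfl fun v _ => ?_
    show a' (v : ℚ_[p]) * _ = _
    rw [ha'v]; rfl
  have key := H (J.map emb) a' (∑ v ∈ J, ‖a v‖) hM hB
    (Finset.sum_nonneg fun _ _ => norm_nonneg _) hmom
    (fun s => F (bif s.2 then ord s.1 else ord s.1 + 1)) t (fun s => hF0 _) ht
    (fun s v => DrAux ord (β (τ' v)) (bif s.2 then ord s.1 else ord s.1 + 1)) (by
      intro s v hv
      obtain ⟨w, hw, rfl⟩ := Finset.mem_map.mp hv
      obtain ⟨n, hn, m', hm', heq⟩ := hτ w hw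
      have h1 := hF (bif s.2 then ord s.1 else ord s.1 + 1) (t * w) (τ w) n hn m' hm' heq
      show ((DrAux ord (β (τ' (w : ℚ_[p]))) _ : ℚ_[p]ˣ) : ℚ_[p]) = Polynomial.aeval (t * (w : ℚ_[p])) _
      rw [hτ'v, ← h1]
      unfold DrAux
      rw [Units.coe_prod])
  rw [Finset.sum_map] at key
  refine le_trans (le_of_eq ?_) key
  congr 1
  refine Finset.sum_congr rfl fun v _ => ?_
  show _ = a' (v : ℚ_[p]) * _
  rw [ha'v]
  congr 1
  rw [Fintype.prod_prod_type]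
  rw [hchi (τ v), Units.coe_prod]
  refine Finset.prod_congr rfl fun i _ => ?_
  rw [Fintype.prod_bool]
  show _ = ((θ i (DrAux ord (β (τ' (v : ℚ_[p]))) (ord i)) : Cˣ) : C) *
    (((θ i (DrAux ord (β (τ' (v : ℚ_[p]))) (ord i + 1)))⁻¹ : Cˣ) : C)
  rw [hτ'v, Units.val_mul]

end Pool.Agent.Chev
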