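import Mathlib
import Pool.Agent.Helper911_Chev.Defs3
import Pool.Agent.Helper911_Chev.CA1
import Pool.Agent.Helper911_Chev.CB1
import Pool.Agent.Helper911_Chev.CB2
import Pool.Agent.Helper911_Chev.CB3
import Pool.Agent.Helper911_Chev.CB4
import Pool.Agent.Helper911_Chev.CW1
import Pool.Agent.Helper911_Chev.CW2
import Pool.Agent.Helper911_Chev.DP1

set_option autoImplicit false
set_option linter.unusedSectionVars false
set_option maxHeartbeats 1000000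

noncomputable section

open Matrix Topology

namespace Pool.Agent.Chev

open ChevData

variable {p : ℕ} [Fact p.Prime] {I ι : Type} [Fintype I] [DecidableEq I] [Fintype ι]
  [DecidableEq ι] (D : ChevData p I ι)

/-! ======= TARGETS ======= -/

theorem coroot_sum (μ : I → ℤ) : μ = ∑ l, μ l • (Pi.single l 1 : I → ℤ) := by
  funext m
  rw [Finset.sum_apply, Finset.sum_eq_single m]
  · simp
  · intro b _ hb
    simp [Pi.single_eq_of_ne (Ne.symm hb)]
  · intro h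
    exact absurd (Finset.mem_univ m) h

theorem coroot_cj {g : GLm p ι} {w : (I → ℤ) ≃ₗ[ℤ] (I → ℤ)} (h : D.Rep g w) (k : I) :
    cj g (Hm D k) = Matrix.diagonal (fun i => (((w⁻¹ (D.wt i)) k : ℤ) : ℚ_[p])) := by
  have h1 : (g : Matrix ι ι ℚ_[p]) * Hm D k =
      Matrix.diagonal (fun i => (((w⁻¹ (D.wt i)) k : ℤ) : ℚ_[p])) * (g : Matrix ι ι ℚ_[p]) := by
    ext i j
    unfold Hm
    rw [Matrix.mul_diagonal, Matrix.diagonal_mul]
    by_cases hg : (g : Matrix ι ι ℚ_[p]) i j = 0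
    · rw [hg, zero_mul, mul_zero]
    · have h2 := h i j hg
      have h3 : w⁻¹ (D.wt i) = D.wt j := by
        rw [h2]
        exact w.symm_apply_apply _
      rw [h3, mul_comm]
  unfold cj
  rw [h1, mul_assoc, ← Units.val_mul, mul_inv_cancel, Units.val_one, mul_one]

theorem coroot_key {w : (I → ℤ) ≃ₗ[ℤ] (I → ℤ)} (hw : w ∈ D.W) (k m : I) :
    2 * ∑ i, (w⁻¹ (D.wt i)) k * D.wt i m = (∑ i, D.wt i k ^ 2) * (w (D.A k)) m := by
  obtain ⟨g, -, hg⟩ := W_rep D hw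
  have h1 : Matrix.trace (cj g (Hm D k) * Hm D m) = Matrix.trace (Hm D k * cj g⁻¹ (Hm D m)) := by
    unfold cj
    rw [inv_inv, mul_assoc, mul_assoc, Matrix.trace_mul_comm]
    simp only [mul_assoc]
  rw [coroot_cj D hg, coroot_cj D (rep_inv D hg), inv_inv] at h1
  unfold Hm at h1
  rw [Matrix.diagonal_mul_diagonal, Matrix.diagonal_mul_diagonal, Matrix.trace_diagonal,
    Matrix.trace_diagonal] at h1
  have h2 : ∑ i, (w⁻¹ (D.wt i)) k * D.wt i m = ∑ i, D.wt i k * (w (D.wt i)) m := by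
    exact_mod_cast h1
  have h3 : ∀ μ : I → ℤ, (w μ) m = ∑ l, μ l * (w (Pi.single l 1)) m := by
    intro μ
    conv_lhs => rw [coroot_sum μ]
    rw [map_sum, Finset.sum_apply]
    refine Finset.sum_congr rfl fun l _ => ?_
    rw [map_smul, Pi.smul_apply, smul_eq_mul]
  rw [h2]
  have h4 : ∑ i, D.wt i k * (w (D.wt i)) m =
      ∑ l, (w (Pi.single l 1)) m * ∑ i, D.wt i k * D.wt i l := by
    simp only [Finset.mul_sum]
    rw [Finset.sum_comm]
    refine Finset.sum_congr rfl fun i _ => ?_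
    rw [h3 (D.wt i), Finset.mul_sum]
    refine Finset.sum_congr rfl fun l _ => ?_
    ring
  rw [h4, h3 (D.A k), Finset.mul_sum, Finset.mul_sum]
  refine Finset.sum_congr rfl fun l _ => ?_
  have h5 := sym_B D k l
  linear_combination (-(w (Pi.single l 1)) m) * h5

/-- TARGET.
Proof. Let `g ∈ NN` with `Rep g w` (`W_rep`; closure of the `n k` is in `NN`). `cj g (Hm k)` is the diagonal matrix with entries `(w⁻¹ (wt i)) k` (entries of `g * Hm k = δ * g`; `Rep`), and `cj g⁻¹ (Hm m)` the one with entries `(w (wt i)) m` (`rep_inv`). Trace identity `trace (cj g X * Y) = trace (X * cj g⁻¹ Y)`: for all `m`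
`∑_i (w⁻¹ (wt i)) k * wt i m = ∑_i wt i k * (w (wt i)) m = ∑_l (w (single l 1)) m * ∑_i wt i k * wt i l` (linearity: `wt i = ∑_l wt i l • single l 1`), which by `sym_B` is `(1/2) N k * (w (A k)) m` with `N k = ∑_i wt i k ^2` (`A k = ∑_l A k l • single l 1`).
Now `w (A k) = rt a` with `a ≥ 0`, `(rt a) m = ∑_j a j * A j m`, `A j m = 2 (∑_i wt i j * wt i m) / N j`. So over `ℚ`: for all `m`, `∑_i φ(wt i) * wt i m = 0` where `φ(μ) = (w⁻¹ μ) k - ∑_j (N k * a j / N j) * μ j`. `φ` is additive in `μ`, `φ(μ) = ∑_m φ(single m 1) μ m`, so `∑_i φ(wt i)^2 = 0`, `φ (wt i) = 0` for all `i`, and `φ = 0` as the `wt i` generate (`D.span`).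
For `μ = single l 1`: `(w⁻¹ (single l 1)) k = N k * a l / N l ≥ 0`. -/
theorem coroot_sign {w : (I → ℤ) ≃ₗ[ℤ] (I → ℤ)} (hw : w ∈ D.W) (k : I)
    (h : D.Pos (w (D.A k))) : ∀ l, 0 ≤ (w⁻¹ (Pi.single l 1)) k := by
  obtain ⟨a, ha, -, hwa⟩ := h
  have hN : ∀ j, (0 : ℚ) < ((∑ i, D.wt i j ^ 2 : ℤ) : ℚ) := fun j => by
    exact_mod_cast B_pos D j
  -- the linear functional
  let φ : (I → ℤ) →+ ℚ :=
    { toFun := fun μ => (((w⁻¹ μ) k : ℤ) : ℚ) - ∑ j, (((∑ i, D.wt i k ^ 2 : ℤ) : ℚ) * (a j : ℚ) /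
        ((∑ i, D.wt i j ^ 2 : ℤ) : ℚ)) * (μ j : ℚ)
      map_zero' := by simp
      map_add' := by
        intro μ ν
        simp only [map_add, Pi.add_apply, Int.cast_add, mul_add, Finset.sum_add_distrib]
        ring }
  have hφ : ∀ μ, φ μ = (((w⁻¹ μ) k : ℤ) : ℚ) - ∑ j, (((∑ i, D.wt i k ^ 2 : ℤ) : ℚ) * (a j : ℚ) /
        ((∑ i, D.wt i j ^ 2 : ℤ) : ℚ)) * (μ j : ℚ) := fun μ => rfl
  have hlin : ∀ μ : I → ℤ, φ μ = ∑ l, (μ l : ℚ) * φ (Pi.single l 1) := by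
    intro μ
    conv_lhs => rw [coroot_sum μ]
    rw [map_sum]
    refine Finset.sum_congr rfl fun l _ => ?_
    rw [map_zsmul, zsmul_eq_mul]
  have hort : ∀ m, ∑ i, φ (D.wt i) * (D.wt i m : ℚ) = 0 := by
    intro m
    have h1 := coroot_key D hw k m
    rw [hwa] at h1
    have h2 : D.rt a m = ∑ j, a j * D.A j m := rfl
    rw [h2] at h1
    have h3 : (2 : ℚ) * ∑ i, (((w⁻¹ (D.wt i)) k : ℤ) : ℚ) * (D.wt i m : ℚ) =
        ((∑ i, D.wt i k ^ 2 : ℤ) : ℚ) * ∑ j, (a j : ℚ) * (D.A j m : ℚ) := by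
      exact_mod_cast h1
    have h4 : ∀ j, (D.A j m : ℚ) = 2 * (∑ i, (D.wt i j : ℚ) * (D.wt i m : ℚ)) /
        ((∑ i, D.wt i j ^ 2 : ℤ) : ℚ) := by
      intro j
      rw [eq_div_iff (hN j).ne']
      exact_mod_cast sym_B D j m
    have h5 : ∑ i, φ (D.wt i) * (D.wt i m : ℚ) =
        ∑ i, (((w⁻¹ (D.wt i)) k : ℤ) : ℚ) * (D.wt i m : ℚ) -
        ∑ j, (((∑ i, D.wt i k ^ 2 : ℤ) : ℚ) * (a j : ℚ) /
        ((∑ i, D.wt i j ^ 2 : ℤ) : ℚ)) * ∑ i, (D.wt i j : ℚ) * (D.wt i m : ℚ) := by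
      simp only [hφ, sub_mul, Finset.sum_sub_distrib]
      congr 1
      simp only [Finset.sum_mul, Finset.mul_sum]
      rw [Finset.sum_comm]
      refine Finset.sum_congr rfl fun j _ => Finset.sum_congr rfl fun i _ => ?_
      ring
    have h6 : ((∑ i, D.wt i k ^ 2 : ℤ) : ℚ) * ∑ j, (a j : ℚ) * (D.A j m : ℚ) =
        2 * ∑ j, (((∑ i, D.wt i k ^ 2 : ℤ) : ℚ) * (a j : ℚ) /
        ((∑ i, D.wt i j ^ 2 : ℤ) : ℚ)) * ∑ i, (D.wt i j : ℚ) * (D.wt i m : ℚ) := by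
      rw [Finset.mul_sum, Finset.mul_sum]
      refine Finset.sum_congr rfl fun j _ => ?_
      rw [h4 j]
      ring
    rw [h5]
    rw [h6] at h3
    linarith
  have hsq : ∑ i, φ (D.wt i) ^ 2 = 0 := by
    have h1 : ∀ i, φ (D.wt i) ^ 2 = ∑ l, φ (Pi.single l 1) * (φ (D.wt i) * (D.wt i l : ℚ)) := by
      intro i
      rw [sq]
      conv_lhs => rw [hlin (D.wt i)]
      rw [← hlin (D.wt i), hlin (D.wt i), Finset.sum_mul, ← hlin (D.wt i)]
      refine Finset.sum_congr rfl fun l _ => ?_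
      ring
    simp only [h1]
    rw [Finset.sum_comm]
    refine Finset.sum_eq_zero fun l _ => ?_
    rw [← Finset.mul_sum, hort l, mul_zero]
  have hz : ∀ i, φ (D.wt i) = 0 := by
    intro i
    have h1 := (Finset.sum_eq_zero_iff_of_nonneg (fun i _ => sq_nonneg (φ (D.wt i)))).1 hsq i
      (Finset.mem_univ i)
    exact pow_eq_zero_iff (two_ne_zero) |>.1 h1
  have hker : ∀ μ, φ μ = 0 := by
    intro μ
    have h1 : AddSubgroup.closure (Set.range D.wt) ≤ φ.ker := by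
      rw [AddSubgroup.closure_le]
      rintro _ ⟨i, rfl⟩
      exact hz i
    have h2 : μ ∈ φ.ker := h1 (by rw [D.span]; trivial)
    exact h2
  intro l
  have h1 := hker (Pi.single l 1)
  rw [hφ, Finset.sum_eq_single l] at h1
  · rw [Pi.single_eq_same, Int.cast_one, mul_one] at h1
    have h2 : (0 : ℚ) ≤ ((∑ i, D.wt i k ^ 2 : ℤ) : ℚ) * (a l : ℚ) /
        ((∑ i, D.wt i l ^ 2 : ℤ) : ℚ) :=
      div_nonneg (mul_nonneg (hN k).le (by exact_mod_cast ha l)) (hN l).le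
    have h3 : (0 : ℚ) ≤ (((w⁻¹ (Pi.single l 1)) k : ℤ) : ℚ) := by linarith
    exact_mod_cast h3
  · intro j _ hj
    rw [Pi.single_eq_of_ne hj, Int.cast_zero, mul_zero]
  · intro h
    exact absurd (Finset.mem_univ l) h

/-- TARGET.
Proof. `coroot_sign` for `w * s k`: `(w * s k) (A k) = - w (A k)`, `(w * s k)⁻¹ = s k * w⁻¹` (`s k` is an involution) and `(s k μ) k = - μ k`. -/
theorem coroot_neg {w : (I → ℤ) ≃ₗ[ℤ] (I → ℤ)} (hw : w ∈ D.W) (k : I)
    (h : D.Pos (-(w (D.A k)))) : ∀ l, (w⁻¹ (Pi.single l 1)) k ≤ 0 := by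
  have hs : D.s k ∈ D.W := Subgroup.subset_closure ⟨k, rfl⟩
  have h1 : (w * D.s k) (D.A k) = -(w (D.A k)) := by
    show w (D.s k (D.A k)) = _
    rw [D.s_apply, D.A_diag, ← map_neg]
    congr 1
    rw [two_smul]
    abel
  have h2 := coroot_sign D (mul_mem hw hs) k (by rw [h1]; exact h)
  intro l
  have h3 := h2 l
  have h4 : (w * D.s k)⁻¹ (Pi.single l 1) = D.s k (w⁻¹ (Pi.single l 1)) := by
    rw [_root_.mul_inv_rev]
    rfl
  rw [h4, D.s_apply, Pi.sub_apply, Pi.smul_apply, D.A_diag, smul_eq_mul] at h3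
  linarith

end Pool.Agent.Chev
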