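import Mathlib
import Pool.Agent.Helper911_Chev.Char
import Pool.Agent.Helper911_Chev.DP2
import Pool.Agent.Helper911_Chev.DM3
import Pool.Agent.Helper911_Chev.DR2
import Pool.Agent.Helper911_Chev.DF4
import Pool.Agent.Helper911_T3.PD

/-! The main theorem for continuous characters of the torus of a Chevalley group. -/

set_option autoImplicit false
set_option linter.unusedSectionVars false
set_option maxHeartbeats 1000000

noncomputable section

open Matrix Topology Filter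

namespace Pool.Agent.Chev

open ChevData Pool.Agent.Helper911

variable {p : ℕ} [Fact p.Prime] {I ι : Type} [Fintype I] [DecidableEq I] [Fintype ι]
  [DecidableEq ι] (D : ChevData p I ι) (hI : D.Integral)

instance instDecW : DecidableEq D.W := Classical.decEq _

instance instFinW : Fintype D.W := by
  haveI := W_finite D
  exact Fintype.ofFinite _

theorem zG_ok (l : I → ℤ) (hl : ∀ k, ∑ j, D.A k j * l j ≤ -1) :
    ZOK (chevFlag D hI) (zG D l) where
  mem := zG_mem D l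
  shrink_Nb y hy h := shrink_M D l hl (Nb_le_UM D hy) h
  absorb_Nb y hy := absorb_M D l hl (Nb_le_UM D hy) 1
  unif_Nb := by
    intro U hU
    obtain ⟨M, _, hM⟩ := sg_small D hU
    obtain ⟨m, hm⟩ := unif_M D l hl M
    exact ⟨m, fun y hy h => hM (hm y (Nb_le_UM D hy) (Cg_le h))⟩
  shrink_N y hy h := shrink_P D l hl (N_le_UP D hy) h
  absorb_N y hy := absorb_P D l hl (N_le_UP D hy) 1
  unif_N := by
    intro U hU
    obtain ⟨M, _, hM⟩ := sg_small D hU
    obtain ⟨m, hm⟩ := unif_P D l hl M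
    exact ⟨m, fun y hy h => hM (hm y (N_le_UP D hy) (Cg_le h))⟩

theorem chev_gamU : GamU (chevFlag D hI) := by
  intro w g hg
  obtain ⟨b, hb, n, hn, hn1, hn2, y, hy, hy1, hy2, h⟩ := gamU_G D (eW_NN D hI w) (eW_Cg D hI w)
    (m := 1) le_rfl g.2 hg
  exact ⟨⟨b, B_le_G D hb⟩, hb, ⟨n, N_le_G D hn⟩, ⟨hn, hn2⟩, ⟨y, Nb_le_G D hy⟩, ⟨hy, hy2⟩, hn1, hy1,
    Subtype.ext h⟩

theorem T_comm (s : D.G) (hs : s ∈ sg D D.T) (t : D.G) (ht : t ∈ sg D D.T) : s * t = t * s := by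
  obtain ⟨σ, hσ⟩ := hs
  obtain ⟨τ, hτ⟩ := ht
  apply Subtype.ext
  show (s : GLm p ι) * (t : GLm p ι) = (t : GLm p ι) * (s : GLm p ι)
  have h1 : (s : GLm p ι) = D.h σ := hσ.symm
  have h2 : (t : GLm p ι) = D.h τ := hτ.symm
  rw [h1, h2, h_comm]

/-- The reflected index. -/
def wsk (u : D.W) (k : I) : D.W := ⟨u.1 * D.s k, mul_mem u.2 (Subgroup.subset_closure ⟨k, rfl⟩)⟩

theorem wsk_ne (u : D.W) (k : I) : wsk D u k ≠ u := by
  intro h
  have h1 : (u.1 * D.s k : (I → ℤ) ≃ₗ[ℤ] (I → ℤ)) = u.1 := congrArg Subtype.val h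
  have h2 : D.s k = 1 := by
    have := congrArg (fun x => u.1⁻¹ * x) h1
    simpa [← mul_assoc] using this
  have h3 : D.s k (D.A k) = D.A k := by rw [h2]; rfl
  rw [s_apply] at h3
  have h4 := congrFun h3 k
  simp only [Pi.sub_apply, Pi.smul_apply, D.A_diag, smul_eq_mul] at h4
  omega

theorem xk_mem_P (u : D.W) (k : I) (hneg : D.Pos (-(u.1 (D.A k)))) (t : ℚ_[p]) :
    (⟨D.x k t, x_mem_G D k t⟩ : D.G) ∈ PW D hI u :=
  ⟨x_mem_N D k t, (NN_conj D (eW_NN D hI u) (eW_rep D hI u) k t).2.1 hneg⟩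

theorem chev_swap_wle (u : D.W) (k : I) (hneg : D.Pos (-(u.1 (D.A k)))) :
    wle (chevFlag D hI) (wsk D u k) u := by
  obtain ⟨b, hb, y, hy, h⟩ := swap_idx_G D (eW_NN D hI u) (eW_NN D hI (wsk D u k))
    (eW_rep D hI u) k (eW_rep D hI (wsk D u k)) hneg
  refine wle_of_N (chevFlag D hI) u _ ⟨D.x k 1, x_mem_G D k 1⟩ (x_mem_N D k 1) ?_
  exact idxW_eq D hI _ _ ⟨b, B_le_G D hb⟩ ⟨y, Nb_le_G D hy⟩ hb hy (Subtype.ext h)

/-- A cocharacter as a homomorphism into the torus. -/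
def coch (c : I → ℤ) : ℚ_[p]ˣ →* (I → ℚ_[p]ˣ) where
  toFun x := fun m => x ^ c m
  map_one' := by funext m; simp
  map_mul' x y := by funext m; simp [mul_zpow]

theorem coch_apply (c : I → ℤ) (x : ℚ_[p]ˣ) : coch c x = fun m => x ^ c m := rfl

theorem act_single (u : (I → ℤ) ≃ₗ[ℤ] (I → ℤ)) (k : I) (x : ℚ_[p]ˣ) :
    act u (fun l => x ^ (Pi.single k 1 : I → ℤ) l)
      = coch (fun m => (u⁻¹ (Pi.single m 1)) k) x := by
  rw [act_hc, coch_apply]
  funext m
  congr 1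
  rw [Finset.sum_eq_single k]
  · simp
  · intro j _ hj
    rw [Pi.single_eq_of_ne hj, mul_zero]
  · intro h; exact absurd (Finset.mem_univ _) h

theorem tauB_spec {b : GLm p ι} (hb : b ∈ D.B) : ∃ n ∈ D.N, b = D.h (tauB D b) * n := by
  obtain ⟨τ, n, hn, h⟩ := (mem_B D b).1 hb
  refine ⟨n, hn, ?_⟩
  have : tauB D b = τ := by rw [h]; exact tauB_eq D τ hn
  rw [this]; exact h

/-- The root subgroup element as an element of `G`. -/
def yG (k : I) (t : ℚ_[p]) : D.G := ⟨D.y k t, y_mem_G D k t⟩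

theorem yG_inj (k : I) : Function.Injective (fun v : ℚ_[p]ˣ => yG D k (v : ℚ_[p])) := by
  intro v w h
  have h1 : D.y k (v : ℚ_[p]) = D.y k (w : ℚ_[p]) := congrArg Subtype.val h
  have h2 : D.y k ((v : ℚ_[p]) + -(w : ℚ_[p])) = 1 := by
    rw [y_add, y_neg, h1, mul_inv_cancel]
  have h3 := y_inj D k h2
  exact Units.ext (by linear_combination h3)

theorem z_conj_y (l : I → ℤ) (k : I) (m : ℕ) (v : ℚ_[p]) :
    (D.hc l (pu p) ^ m) * D.y k v * (D.hc l (pu p) ^ m)⁻¹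
      = D.y k (((((pu p) ^ (∑ j, D.A k j * l j)) ^ m)⁻¹ : ℚ_[p]ˣ) * v) := by
  rw [hc_pow]
  have h1 : D.hc l (pu p ^ m) = D.h (fun j => (pu p ^ m) ^ l j) := rfl
  rw [h1, h_conj_y]
  congr 3
  unfold al
  have h2 : ∀ j, (((pu p : ℚ_[p]ˣ) ^ m) ^ l j) ^ D.A k j = (pu p ^ m) ^ (D.A k j * l j) := by
    intro j
    rw [← _root_.zpow_mul, mul_comm]
  simp only [h2]
  rw [← _root_.zpow_natCast (pu p ^ (∑ j, D.A k j * l j)) m, ← _root_.zpow_mul, mul_comm,
    _root_.zpow_mul, _root_.zpow_natCast]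
  have h3 : ∀ s : Finset I, ∏ j ∈ s, ((pu p : ℚ_[p]ˣ) ^ m) ^ (D.A k j * l j)
      = (pu p ^ m) ^ (∑ j ∈ s, D.A k j * l j) := by
    intro s
    induction s using Finset.cons_induction with
    | empty => simp
    | cons a s ha ih => rw [Finset.prod_cons, Finset.sum_cons, ih, _root_.zpow_add]
  rw [h3]

variable {C : Type*} [NormedField C]

variable [NormedAlgebra ℚ_[p] C] [CompleteSpace C] [IsUltrametricDist C]

/-- The key step at a descent. -/
theorem chev_descent {rho : ℝ} (hd : Disc p C rho) (χ : (I → ℚ_[p]ˣ) →* Cˣ) (hχ : Continuous χ)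
    (tie : TieHyp (chevChar D hI χ hχ)) (R : SubRep (chevChar D hI χ hχ)) (u : D.W)
    (Om : Finset D.W) (hm : MinOm R Om) (hOm : ∀ w, w ∈ Om ↔ wle (chevFlag D hI) w u)
    (hslope : ∀ z', ZOK (chevFlag D hI) z' → ∀ w ∈ Om, w ≠ u →
      cwz (chevChar D hI χ hχ) z' w < cwz (chevChar D hI χ hχ) z' u)
    (hop : IsOpen (cell (chevFlag D hI) (Om.erase u))) (Φ : D.G → C) (hΦR : Φ ∈ R.V)
    (hΦ : IsPhi (chevChar D hI χ hχ) u Φ)
    (hS : ∃ S, IsClosed S ∧ LInv (chevFlag D hI) S ∧ S ⊆ cell (chevFlag D hI) Om ∧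
      ∀ x ∉ S, Φ x = 0)
    (k : I) (hneg : D.Pos (-(u.1 (D.A k)))) :
    ∃ j : ℕ, ∀ x : ℚ_[p]ˣ,
      ((χ (coch (fun m => (u.1⁻¹ (Pi.single m 1)) k) x) : Cˣ) : C)
        = (algebraMap ℚ_[p] C (x : ℚ_[p])) ^ j := by
  set w1 := wsk D u k with hw1def
  have hw1u : w1 ≠ u := wsk_ne D u k
  have hw1 : w1 ∈ Om := (hOm w1).2 (chev_swap_wle D hI u k hneg)
  obtain ⟨ν, hν⟩ := cwz_chev D hI χ hχ
  let em : D.W ↪ ((I → ℤ) ≃ₗ[ℤ] (I → ℤ)) := ⟨Subtype.val, Subtype.val_injective⟩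
  obtain ⟨l, hl, hlE⟩ := near_wall_G D ν u.2 k ((Om.erase u).map em) (by
    intro w hw
    obtain ⟨w', _, rfl⟩ := Finset.mem_map.1 hw
    exact w'.2) (by
    intro l hl w hw
    obtain ⟨w', hw', rfl⟩ := Finset.mem_map.1 hw
    rw [Finset.mem_erase] at hw'
    have := hslope _ (zG_ok D hI l hl) w' hw'.2 hw'.1
    rw [hν, hν] at this
    exact Real.exp_lt_exp.1 this)
  have hpR : (1 : ℝ) < p := by exact_mod_cast (Fact.out : p.Prime).one_lt
  set sk : ℤ := ∑ j, D.A k j * l j with hsk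
  have hsk1 : sk ≤ -1 := hl k
  set q : ℝ := (p : ℝ) ^ sk with hq
  have hq0 : 0 < q := by positivity
  have hq1 : q < 1 := by
    rw [hq]
    exact zpow_lt_one_of_neg₀ hpR (by omega)
  have hpos : ∀ w, 0 < cwz (chevChar D hI χ hχ) (zG D l) w := by
    intro w; rw [hν]; exact Real.exp_pos _
  obtain ⟨I0, hI0⟩ : ∃ I0 : ℕ, q ^ (I0 + 1) * cwz (chevChar D hI χ hχ) (zG D l) u
      < cwz (chevChar D hI χ hχ) (zG D l) w1 := by
    have h1 : 0 < cwz (chevChar D hI χ hχ) (zG D l) w1 / cwz (chevChar D hI χ hχ) (zG D l) u :=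
      div_pos (hpos _) (hpos _)
    obtain ⟨I0, hI0⟩ := exists_pow_lt_of_lt_one h1 hq1
    refine ⟨I0, ?_⟩
    rw [lt_div_iff₀ (hpos _)] at hI0
    refine lt_of_le_of_lt ?_ hI0
    apply mul_le_mul_of_nonneg_right _ (hpos _).le
    exact pow_le_pow_of_le_one hq0.le hq1.le (Nat.le_succ I0)
  obtain ⟨M0, hM0, hest⟩ := chev_est D hI χ hχ (eW_Cg D hI u) k I0
  refine moment_exists (χ.comp (coch (fun m => (u.1⁻¹ (Pi.single m 1)) k))) I0 M0 ?_
  intro J a hJ hmom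
  obtain ⟨A, hA⟩ := hest J a hJ hmom
  let emb : ℚ_[p]ˣ ↪ D.G := ⟨fun v => yG D k (v : ℚ_[p]), yG_inj D k⟩
  let a' : D.G → C := Function.extend emb a 0
  have ha' : ∀ v : ℚ_[p]ˣ, a' (emb v) = a v := fun v => emb.injective.extend_apply a 0 v
  have hembN : ∀ v, emb v ∈ (chevFlag D hI).Nb := fun v => y_mem_Nb D k _
  have hfin := level2_any (R := R) hd tie (chev_gamU D hI)
    (fun s hs t ht => T_comm D s hs t ht) hm hOm hop hΦR hΦ hS
    (zG D l) (zG_ok D hI l hl) hw1 hw1u (by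
      intro w hw hwu
      rw [hν, hν]
      exact Real.exp_le_exp.2 (hlE w.1
        (Finset.mem_map.2 ⟨w, Finset.mem_erase.2 ⟨hwu, hw⟩, rfl⟩)))
    (r := q ^ (I0 + 1)) (by positivity) (pow_lt_one₀ hq0.le hq1 (Nat.succ_ne_zero I0)) hI0
    (J.map emb) a' (by
      intro h hh
      obtain ⟨v, hv, rfl⟩ := Finset.mem_map.1 hh
      refine ⟨?_, hembN v⟩
      show D.y k (v : ℚ_[p]) ∈ Cg p ι 1
      refine y_Cg D hI 1 k _ ((hJ v hv).trans (zpow_le_zpow_right₀ hpR.le ?_))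
      have : ((1 : ℕ) : ℤ) ≤ (M0 : ℤ) := by exact_mod_cast hM0
      omega) ⟨A, ?_⟩
  · rw [Finset.sum_map] at hfin
    obtain ⟨τ0, hval⟩ := swap_val D (eW_NN D hI u) (eW_NN D hI w1) (eW_rep D hI u) k
      (eW_rep D hI w1) hneg
    have h1 : ∀ v ∈ J, a' (emb v) * Φ (eW D hI w1 * emb v)
        = ((χ τ0 : Cˣ) : C) * (a v *
          ((χ (coch (fun m => (u.1⁻¹ (Pi.single m 1)) k) v) : Cˣ) : C)) := by
      intro v _
      rw [ha']
      obtain ⟨m, hm', hEq⟩ := hval v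
      rw [act_single] at hEq
      set cv := coch (fun m => (u.1⁻¹ (Pi.single m 1)) k) v with hcv
      have hbB : D.h τ0 * D.h cv * m ∈ D.B :=
        mul_mem (mul_mem (T_le_B D ⟨_, rfl⟩) (T_le_B D ⟨_, rfl⟩)) (N_le_B D hm')
      have h2 : Φ (eW D hI w1 * emb v)
          = (chevChar D hI χ hχ).chi ⟨D.h τ0 * D.h cv * m, B_le_G D hbB⟩ := by
        have h3 := hΦ.1 ⟨D.h τ0 * D.h cv * m, B_le_G D hbB⟩ hbB
          ⟨D.x k ((v⁻¹ : ℚ_[p]ˣ) : ℚ_[p]), x_mem_G D k _⟩ (xk_mem_P D hI u k hneg _) 1 (one_mem _)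
          (one_mem _)
        rw [mul_one] at h3
        refine Eq.trans (congrArg Φ ?_) h3
        exact Subtype.ext hEq
      rw [h2]
      show a v * ((χ (tauB D (D.h τ0 * D.h cv * m)) : Cˣ) : C) = _
      rw [← map_mul, tauB_eq D _ hm', map_mul, Units.val_mul]
      ring
    have h4 : ∑ v ∈ J, a' (emb v) * Φ (eW D hI w1 * emb v)
        = ((χ τ0 : Cˣ) : C) * ∑ v ∈ J, a v *
          ((χ (coch (fun m => (u.1⁻¹ (Pi.single m 1)) k) v) : Cˣ) : C) := by
      rw [Finset.mul_sum]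
      exact Finset.sum_congr rfl h1
    have h5 := h4.symm.trans hfin
    exact (mul_eq_zero.1 h5).resolve_left (Units.ne_zero _)
  · intro m n0 hn0 hn0G y hy hyG b hb
    rw [Finset.sum_map]
    set e : GLm p ι := (eW D hI u : GLm p ι) with he
    set g : GLm p ι := e * (n0 : GLm p ι) * (y : GLm p ι) * e⁻¹ with hg
    have hg1 : g ∈ D.Nb := by
      have : g = (e * (n0 : GLm p ι) * e⁻¹) * (e * (y : GLm p ι) * e⁻¹) := by rw [hg]; group
      rw [this]
      exact mul_mem hn0.2 hy.2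
    have hg2 : g ∈ Cg p ι 0 :=
      mul_mem (mul_mem (mul_mem (eW_Cg D hI u) (Cg_le hn0G)) (Cg_le hyG))
        (inv_mem (eW_Cg D hI u))
    set t : ℚ_[p] := (((((pu p) ^ sk) ^ m)⁻¹ : ℚ_[p]ˣ) : ℚ_[p]) with ht
    have htn : ‖t‖ = q ^ m := by
      rw [ht, Units.val_inv_eq_inv_val, norm_inv, Units.val_pow_eq_pow_val, norm_pow,
        Units.val_zpow_eq_zpow_val, norm_zpow]
      have : ‖((pu p : ℚ_[p]ˣ) : ℚ_[p])‖ = (p : ℝ)⁻¹ := Padic.norm_p
      rw [this, ← inv_pow, hq, _root_.inv_zpow, inv_inv]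
    have h1 := hA t (by rw [htn]; exact pow_le_one₀ hq0.le hq1.le) g hg1 hg2
      (fun v => tauB D (b (emb v) : GLm p ι)) (by
      intro v hv
      obtain ⟨hbB, n', hn', hn'G, y', hy', hy'G, hEq⟩ := hb (emb v) (Finset.mem_map_of_mem _ hv)
      obtain ⟨nb, hnb, hbe⟩ := tauB_spec D (b := (b (emb v) : GLm p ι)) hbB
      refine ⟨nb, hnb, e * (n' : GLm p ι) * (y' : GLm p ι) * e⁻¹, ?_, ?_⟩
      · have : e * (n' : GLm p ι) * (y' : GLm p ι) * e⁻¹
          = (e * (n' : GLm p ι) * e⁻¹) * (e * (y' : GLm p ι) * e⁻¹) := by group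
        rw [this]
        exact mul_mem hn'.2 hy'.2
      · have h2 : e * (n0 : GLm p ι) * (y : GLm p ι) * (D.hc l (pu p) ^ m *
            D.y k (v : ℚ_[p]) * (D.hc l (pu p) ^ m)⁻¹)
              = (b (emb v) : GLm p ι) * e * (n' : GLm p ι) * (y' : GLm p ι) :=
          congrArg Subtype.val hEq
        rw [z_conj_y] at h2
        rw [← hbe]
        calc g * (e * D.y k (t * (v : ℚ_[p])) * e⁻¹)
            = (e * (n0 : GLm p ι) * (y : GLm p ι) * D.y k (t * (v : ℚ_[p]))) * e⁻¹ := by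
              rw [hg]; group
          _ = ((b (emb v) : GLm p ι) * e * (n' : GLm p ι) * (y' : GLm p ι)) * e⁻¹ := by
              rw [← h2]
          _ = _ := by group)
    refine le_trans (le_of_eq ?_) (h1.trans (le_of_eq ?_))
    · congr 1
      refine Finset.sum_congr rfl fun v _ => ?_
      rw [ha']
      rfl
    · rw [htn, ← pow_mul, ← pow_mul, mul_comm m]

/-- If the principal series of a continuous character is reducible, then the character is
`x ↦ x^(-m)` on some positive coroot. -/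
theorem chev_main {rho : ℝ} (hd : Disc p C rho) (χ : (I → ℚ_[p]ˣ) →* Cˣ) (hχ : Continuous χ)
    (R : SubRep (chevChar D hI χ hχ)) (hne : R.V ≠ ⊥)
    (hnt : ∃ f, IsSec (chevChar D hI χ hχ) f ∧ f ∉ R.V) :
    ∃ (w : D.W) (k : I), D.Pos (w.1 (D.A k)) ∧ (∀ l, 0 ≤ (w.1⁻¹ (Pi.single l 1)) k) ∧
      ∃ m : ℕ, ∀ x : ℚ_[p]ˣ,
      ((χ (coch (fun l => (w.1⁻¹ (Pi.single l 1)) k) x) : Cˣ) : C)
        = ((algebraMap ℚ_[p] C (x : ℚ_[p])) ^ m)⁻¹ := by
  by_cases hs : ∀ k : I, ∃ a : ℚ_[p]ˣ, χ (fun l => a ^ (Pi.single k 1 : I → ℤ) l) ≠ 1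
  · have tie := chev_tie D hI χ hχ hs
    obtain ⟨u, Om, hm, hOm, hslope, hop, Φ, hΦR, hΦ, hS⟩ := mainB hd tie R hne
    by_cases hP : ∀ x ∈ (chevFlag D hI).P u, x = 1
    · obtain ⟨f, hf, hfV⟩ := hnt
      exact absurd (all_of_phi R hΦR hΦ hP f hf) hfV
    · push Not at hP
      obtain ⟨x, hx, hx1⟩ := hP
      obtain ⟨k, hneg⟩ := exists_descent_G D (eW_NN D hI u) (eW_rep D hI u) hx.1 hx.2
        (fun h => hx1 (Subtype.ext h))
      obtain ⟨m, hm'⟩ := chev_descent D hI hd χ hχ tie R u Om hm hOm hslope hop Φ hΦR hΦ hS k hneg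
      have hinv : ∀ μ : I → ℤ, ((wsk D u k).1⁻¹ μ) k = -((u.1⁻¹ μ) k) := by
        intro μ
        have h1 : (wsk D u k).1⁻¹ = (D.s k)⁻¹ * u.1⁻¹ := _root_.mul_inv_rev _ _
        have h2 : (D.s k)⁻¹ = D.s k := by
          rw [inv_eq_iff_mul_eq_one]
          apply LinearEquiv.ext
          intro μ
          show D.s k (D.s k μ) = μ
          exact (D.s k).left_inv μ
        rw [h1, h2]
        show (D.s k (u.1⁻¹ μ)) k = _
        rw [s_apply]
        simp only [Pi.sub_apply, Pi.smul_apply, D.A_diag, smul_eq_mul]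
        ring
      refine ⟨wsk D u k, k, ?_, ?_, m, fun x => ?_⟩
      · have h1 : (wsk D u k).1 (D.A k) = -(u.1 (D.A k)) := by
          show u.1 (D.s k (D.A k)) = _
          rw [s_apply, D.A_diag, ← map_neg]
          congr 1
          rw [two_smul]; abel
        rw [h1]; exact hneg
      · intro l
        rw [hinv]
        have := coroot_neg D u.2 k hneg l
        omega
      · have h1 : coch (fun l => ((wsk D u k).1⁻¹ (Pi.single l 1)) k) x
            = (coch (fun m => (u.1⁻¹ (Pi.single m 1)) k) x)⁻¹ := by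
          funext l
          rw [coch_apply, Pi.inv_apply, coch_apply]
          simp only [hinv]
          rw [_root_.zpow_neg]
        rw [h1, map_inv, Units.val_inv_eq_inv_val, hm' x]
  · push Not at hs
    obtain ⟨k, hx⟩ := hs
    refine ⟨1, k, pos_A D k, fun l => ?_, 0, fun x => ?_⟩
    · show 0 ≤ (Pi.single l 1 : I → ℤ) k
      by_cases h : k = l
      · subst h; simp
      · rw [Pi.single_eq_of_ne h]
    · have h1 : coch (fun l => ((1 : D.W).1⁻¹ (Pi.single l 1)) k) x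
          = fun l => x ^ (Pi.single k 1 : I → ℤ) l := by
        funext l
        rw [coch_apply]
        show x ^ (Pi.single l 1 : I → ℤ) k = x ^ (Pi.single k 1 : I → ℤ) l
        by_cases h : k = l
        · subst h; rfl
        · rw [Pi.single_eq_of_ne h, Pi.single_eq_of_ne (Ne.symm h)]
      rw [h1, hx x]
      simp

end Pool.Agent.Chev
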