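import Mathlib
import Pool.Agent.Helper911_Chev.Defs3

/-! Chevalley groups: conjugated data. -/

set_option autoImplicit false
set_option linter.unusedSectionVars false

noncomputable section

open Matrix Topology

namespace Pool.Agent.Chev

open ChevData

variable {p : ℕ} [Fact p.Prime] {I ι : Type} [Fintype I] [DecidableEq I] [Fintype ι]
  [DecidableEq ι] (D : ChevData p I ι)

theorem cjD_aux (P : GLm p ι) (hP : P ∈ D.Diag) (μ : I → ℤ) {X : Matrix ι ι ℚ_[p]}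
    (hX : D.Supp {μ} X) : D.Supp {μ} (cj P⁻¹ X) := by
  unfold cj
  rw [inv_inv]
  have h1 : D.Supp {μ} (((P⁻¹ : GLm p ι) : Matrix ι ι ℚ_[p]) * X) :=
    Supp.mul D hP.2 hX (by rintro a rfl b rfl; simp)
  exact Supp.mul D h1 hP.1 (by rintro a rfl b rfl; simp)

theorem cjD_aux2 (P : GLm p ι) (hP : P ∈ D.Diag) (k : I) :
    cj P⁻¹ (Matrix.diagonal (fun i => (D.wt i k : ℚ_[p])))
      = Matrix.diagonal (fun i => (D.wt i k : ℚ_[p])) := by
  have h1 : Matrix.diagonal (fun i => (D.wt i k : ℚ_[p])) * (P : Matrix ι ι ℚ_[p])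
      = (P : Matrix ι ι ℚ_[p]) * Matrix.diagonal (fun i => (D.wt i k : ℚ_[p])) := by
    ext i j
    rw [Matrix.diagonal_mul, Matrix.mul_diagonal]
    by_cases h : (P : Matrix ι ι ℚ_[p]) i j = 0
    · rw [h]; ring
    · have h2 : D.wt i - D.wt j ∈ ({0} : Set (I → ℤ)) := hP.1 i j h
      have h3 : D.wt i = D.wt j := sub_eq_zero.1 h2
      rw [h3]; ring
  unfold cj
  rw [inv_inv, mul_assoc, h1, ← mul_assoc, ← Units.val_mul, inv_mul_cancel, Units.val_one, one_mul]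

/-- The data conjugated by a block diagonal matrix. -/
def cjD (P : GLm p ι) (hP : P ∈ D.Diag) : ChevData p I ι where
  A := D.A
  wt := D.wt
  E := fun k => cj P⁻¹ (D.E k)
  F := fun k => cj P⁻¹ (D.F k)
  A_diag := D.A_diag
  A_det := D.A_det
  E_wt := by
    intro k i j h
    have h1 : D.Supp {D.A k} (D.E k) := by
      intro a b hab
      show D.wt a - D.wt b = D.A k
      rw [D.E_wt k a b hab]; abel
    have h2 : D.wt i - D.wt j = D.A k := cjD_aux D P hP _ h1 i j h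
    rw [← h2]; abel
  F_wt := by
    intro k i j h
    have h1 : D.Supp {-(D.A k)} (D.F k) := by
      intro a b hab
      show D.wt a - D.wt b = -(D.A k)
      rw [D.F_wt k a b hab]; abel
    have h2 : D.wt i - D.wt j = -(D.A k) := cjD_aux D P hP _ h1 i j h
    have h3 : D.A k = -(D.wt i - D.wt j) := by rw [h2]; abel
    rw [h3]; abel
  EF_same := by
    intro k
    rw [← cjD_aux2 D P hP k, ← D.EF_same k]
    unfold cj
    rw [inv_inv]
    have h : (P : Matrix ι ι ℚ_[p]) * ((P⁻¹ : GLm p ι) : Matrix ι ι ℚ_[p]) = 1 := by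
      rw [← Units.val_mul, mul_inv_cancel, Units.val_one]
    calc ((P⁻¹ : GLm p ι) : Matrix ι ι ℚ_[p]) * D.E k * (P : Matrix ι ι ℚ_[p])
          * (((P⁻¹ : GLm p ι) : Matrix ι ι ℚ_[p]) * D.F k * (P : Matrix ι ι ℚ_[p]))
        - ((P⁻¹ : GLm p ι) : Matrix ι ι ℚ_[p]) * D.F k * (P : Matrix ι ι ℚ_[p])
          * (((P⁻¹ : GLm p ι) : Matrix ι ι ℚ_[p]) * D.E k * (P : Matrix ι ι ℚ_[p]))
        = ((P⁻¹ : GLm p ι) : Matrix ι ι ℚ_[p]) * D.E k * ((P : Matrix ι ι ℚ_[p])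
            * ((P⁻¹ : GLm p ι) : Matrix ι ι ℚ_[p])) * D.F k * (P : Matrix ι ι ℚ_[p])
          - ((P⁻¹ : GLm p ι) : Matrix ι ι ℚ_[p]) * D.F k * ((P : Matrix ι ι ℚ_[p])
            * ((P⁻¹ : GLm p ι) : Matrix ι ι ℚ_[p])) * D.E k * (P : Matrix ι ι ℚ_[p]) := by
          noncomm_ring
      _ = _ := by rw [h]; noncomm_ring
  EF_ne := by
    intro k l hkl
    unfold cj
    rw [inv_inv]
    have h : (P : Matrix ι ι ℚ_[p]) * ((P⁻¹ : GLm p ι) : Matrix ι ι ℚ_[p]) = 1 := by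
      rw [← Units.val_mul, mul_inv_cancel, Units.val_one]
    have h2 := D.EF_ne k l hkl
    calc ((P⁻¹ : GLm p ι) : Matrix ι ι ℚ_[p]) * D.E k * (P : Matrix ι ι ℚ_[p])
          * (((P⁻¹ : GLm p ι) : Matrix ι ι ℚ_[p]) * D.F l * (P : Matrix ι ι ℚ_[p]))
        = ((P⁻¹ : GLm p ι) : Matrix ι ι ℚ_[p]) * (D.E k * ((P : Matrix ι ι ℚ_[p])
            * ((P⁻¹ : GLm p ι) : Matrix ι ι ℚ_[p])) * D.F l) * (P : Matrix ι ι ℚ_[p]) := by
          noncomm_ring
      _ = ((P⁻¹ : GLm p ι) : Matrix ι ι ℚ_[p]) * (D.F l * ((P : Matrix ι ι ℚ_[p])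
            * ((P⁻¹ : GLm p ι) : Matrix ι ι ℚ_[p])) * D.E k) * (P : Matrix ι ι ℚ_[p]) := by
          rw [h, mul_one, mul_one, h2]
      _ = _ := by noncomm_ring
  span := D.span

end Pool.Agent.Chev
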