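import Mathlib
import Pool.Agent.Helper911_Chev.Defs3

set_option autoImplicit false
set_option linter.unusedSectionVars false
set_option maxHeartbeats 1000000

noncomputable section

open Matrix Topology

namespace Pool.Agent.Chev

open ChevData

variable {p : ℕ} [Fact p.Prime] {I ι : Type} [Fintype I] [DecidableEq I] [Fintype ι]
  [DecidableEq ι] (D : ChevData p I ι)

/-! ======= TARGETS ======= -/

/-- The divided power. -/
def sl2dp (X : Matrix ι ι ℚ_[p]) (k : ℕ) : Matrix ι ι ℚ_[p] := (k.factorial : ℚ_[p])⁻¹ • X ^ k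

/-- The divided power of order `b - j`, zero if `b < j`. -/
def sl2kl (X : Matrix ι ι ℚ_[p]) (b j : ℕ) : Matrix ι ι ℚ_[p] :=
  if j ≤ b then sl2dp X (b - j) else 0

theorem sl2dp_zero (X : Matrix ι ι ℚ_[p]) : sl2dp X 0 = 1 := by
  simp [sl2dp]

theorem sl2dp_succ (X : Matrix ι ι ℚ_[p]) (k : ℕ) :
    ((k : ℚ_[p]) + 1) • sl2dp X (k + 1) = sl2dp X k * X := by
  have hk : ((k : ℚ_[p]) + 1) ≠ 0 := by exact_mod_cast Nat.succ_ne_zero k
  unfold sl2dp
  rw [smul_smul, Matrix.smul_mul, ← pow_succ, Nat.factorial_succ]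
  congr 1
  push_cast
  rw [_root_.mul_inv_rev, mul_comm _ ((k : ℚ_[p]) + 1)⁻¹, ← mul_assoc, mul_inv_cancel₀ hk, one_mul]

theorem sl2dp_succ' (X : Matrix ι ι ℚ_[p]) (k : ℕ) :
    ((k : ℚ_[p]) + 1) • sl2dp X (k + 1) = X * sl2dp X k := by
  rw [sl2dp_succ]
  unfold sl2dp
  rw [Matrix.smul_mul, Matrix.mul_smul, ← pow_succ, ← pow_succ']

/-- The weight of `E v`. -/
theorem sl2_wtE {E H : Matrix ι ι ℚ_[p]} (hHE : H * E - E * H = (2 : ℚ_[p]) • E)
    {v : ι → ℚ_[p]} (m : ℚ_[p]) (hv : H *ᵥ v = m • v) :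
    H *ᵥ (E *ᵥ v) = (m + 2) • (E *ᵥ v) := by
  have h1 : H * E = E * H + (2 : ℚ_[p]) • E := by rw [← hHE]; abel
  rw [Matrix.mulVec_mulVec, h1, Matrix.add_mulVec, ← Matrix.mulVec_mulVec, hv, Matrix.mulVec_smul,
    Matrix.smul_mulVec, add_smul]

/-- The weight of `F^k v`. -/
theorem sl2_wtF {F H : Matrix ι ι ℚ_[p]} (hHF : H * F - F * H = -((2 : ℚ_[p]) • F))
    {v : ι → ℚ_[p]} (m : ℚ_[p]) (hv : H *ᵥ v = m • v) (k : ℕ) :
    H *ᵥ (sl2dp F k *ᵥ v) = (m - 2 * k) • (sl2dp F k *ᵥ v) := by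
  have h1 : H * F = F * H - (2 : ℚ_[p]) • F := by
    rw [sub_eq_iff_eq_add] at hHF
    rw [hHF]; abel
  have h2 : ∀ w : ι → ℚ_[p], H *ᵥ (F *ᵥ w) = F *ᵥ (H *ᵥ w) - (2 : ℚ_[p]) • (F *ᵥ w) := by
    intro w
    rw [Matrix.mulVec_mulVec, h1, Matrix.sub_mulVec, ← Matrix.mulVec_mulVec, Matrix.smul_mulVec]
  induction k with
  | zero => simp [sl2dp_zero, hv]
  | succ k ih =>
    have hk : ((k : ℚ_[p]) + 1) ≠ 0 := by exact_mod_cast Nat.succ_ne_zero k
    have h3 : sl2dp F (k + 1) *ᵥ v = ((k : ℚ_[p]) + 1)⁻¹ • (F *ᵥ (sl2dp F k *ᵥ v)) := by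
      rw [Matrix.mulVec_mulVec, ← sl2dp_succ', Matrix.smul_mulVec, smul_smul, inv_mul_cancel₀ hk,
        one_smul]
    rw [h3, Matrix.mulVec_smul, h2, ih, Matrix.mulVec_smul, ← sub_smul, smul_comm]
    congr 1
    push_cast
    ring_nf

/-- The commutation of `E` with a divided power of `F`. -/
theorem sl2_EF {E F H : Matrix ι ι ℚ_[p]} (hEF : E * F - F * E = H)
    (hHF : H * F - F * H = -((2 : ℚ_[p]) • F))
    {v : ι → ℚ_[p]} (m : ℚ_[p]) (hv : H *ᵥ v = m • v) (k : ℕ) :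
    E *ᵥ (sl2dp F (k + 1) *ᵥ v) =
      sl2dp F (k + 1) *ᵥ (E *ᵥ v) + (m - k) • (sl2dp F k *ᵥ v) := by
  have h1 : ∀ w : ι → ℚ_[p], E *ᵥ (F *ᵥ w) = F *ᵥ (E *ᵥ w) + H *ᵥ w := by
    intro w
    have h : E * F = F * E + H := by rw [← hEF]; abel
    rw [Matrix.mulVec_mulVec, h, Matrix.add_mulVec, Matrix.mulVec_mulVec]
  have h3 : ∀ (k : ℕ) (w : ι → ℚ_[p]),
      ((k : ℚ_[p]) + 1) • (sl2dp F (k + 1) *ᵥ w) = F *ᵥ (sl2dp F k *ᵥ w) := by
    intro k w
    rw [Matrix.mulVec_mulVec, ← sl2dp_succ', Matrix.smul_mulVec]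
  induction k with
  | zero =>
    have h4 : ∀ w, sl2dp F (0 + 1) *ᵥ w = F *ᵥ w := by
      intro w
      simp [sl2dp]
    rw [h4, h4, h1, hv, sl2dp_zero, Matrix.one_mulVec, Nat.cast_zero, sub_zero]
  | succ k ih =>
    have hk : (((k + 1 : ℕ) : ℚ_[p]) + 1) ≠ 0 := by exact_mod_cast Nat.succ_ne_zero (k + 1)
    have h5 : (((k + 1 : ℕ) : ℚ_[p]) + 1) • (E *ᵥ (sl2dp F (k + 1 + 1) *ᵥ v)) =
        (((k + 1 : ℕ) : ℚ_[p]) + 1) • (sl2dp F (k + 1 + 1) *ᵥ (E *ᵥ v) +
          (m - ((k + 1 : ℕ) : ℚ_[p])) • (sl2dp F (k + 1) *ᵥ v)) := by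
      rw [← Matrix.mulVec_smul, h3, h1, ih, sl2_wtF hHF m hv, Matrix.mulVec_add, smul_add, h3,
        Matrix.mulVec_smul, ← h3 k v, smul_smul, smul_smul, add_assoc, ← add_smul]
      congr 2
      push_cast
      ring
    exact smul_right_injective _ hk h5

theorem sl2_choose (M : ℤ) (j : ℕ) :
    ((j : ℤ) + 1) * Ring.choose M (j + 1) = (M - j) * Ring.choose M j := by
  have h := Ring.choose_smul_choose M (Nat.le_succ j)
  rw [Nat.choose_succ_self_right, Nat.succ_eq_add_one, Nat.add_sub_cancel_left,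
    Ring.choose_one_right, nsmul_eq_mul] at h
  push_cast at h
  rw [h, mul_comm]

/-- The formula with explicit coefficients. -/
theorem sl2_main {E F H : Matrix ι ι ℚ_[p]} (hEF : E * F - F * E = H)
    (hHE : H * E - E * H = (2 : ℚ_[p]) • E) (hHF : H * F - F * H = -((2 : ℚ_[p]) • F))
    (a : ℕ) : ∀ (b : ℕ) (v : ι → ℚ_[p]) (m : ℤ), H *ᵥ v = (m : ℚ_[p]) • v →
      sl2dp E a *ᵥ (sl2dp F b *ᵥ v) = ∑ j ∈ Finset.range (a + 1),
        ((Ring.choose (m + a - b) j : ℤ) : ℚ_[p]) • (sl2kl F b j *ᵥ (sl2dp E (a - j) *ᵥ v)) := by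
  induction a with
  | zero =>
    intro b v m hv
    rw [Finset.sum_range_one, Ring.choose_zero_right, Int.cast_one, one_smul]
    simp [sl2dp_zero, sl2kl]
  | succ a ih =>
    intro b v m hv
    have ha : ((a : ℚ_[p]) + 1) ≠ 0 := by exact_mod_cast Nat.succ_ne_zero a
    -- the two induction hypotheses
    have hE : H *ᵥ (E *ᵥ v) = ((m + 2 : ℤ) : ℚ_[p]) • (E *ᵥ v) := by
      rw [sl2_wtE hHE _ hv]; push_cast; rfl
    have ih1 := ih b (E *ᵥ v) (m + 2) hE
    have ih2 : sl2dp E a *ᵥ (sl2kl F b 1 *ᵥ v) = ∑ j ∈ Finset.range (a + 1),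
        ((Ring.choose (m + a + 1 - b) j : ℤ) : ℚ_[p]) •
          (sl2kl F b (j + 1) *ᵥ (sl2dp E (a - j) *ᵥ v)) := by
      rcases b with _ | b
      · have h1 : ∀ j, sl2kl F 0 (j + 1) = 0 := by
          intro j
          unfold sl2kl
          rw [if_neg (by omega)]
        rw [show (1 : ℕ) = 0 + 1 from rfl, h1, Matrix.zero_mulVec, Matrix.mulVec_zero]
        symm
        apply Finset.sum_eq_zero
        intro j _
        rw [h1, Matrix.zero_mulVec, smul_zero]
      · have h1 : ∀ j, sl2kl F (b + 1) (j + 1) = sl2kl F b j := by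
          intro j
          unfold sl2kl
          rw [Nat.add_sub_add_right]
          by_cases h : j ≤ b
          · rw [if_pos h, if_pos (by omega)]
          · rw [if_neg h, if_neg (by omega)]
        have h2 : sl2kl F (b + 1) 1 = sl2dp F b := by
          unfold sl2kl
          rw [if_pos (by omega), Nat.add_sub_cancel]
        rw [h2, ih b v m hv]
        refine Finset.sum_congr rfl fun j _ => ?_
        rw [h1]
        congr 3
        push_cast
        ring
    -- the commutation with one `E`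
    have hc : E *ᵥ (sl2dp F b *ᵥ v) = sl2dp F b *ᵥ (E *ᵥ v) +
        ((m : ℚ_[p]) - b + 1) • (sl2kl F b 1 *ᵥ v) := by
      rcases b with _ | b
      · have h1 : sl2kl F 0 1 = 0 := by
          unfold sl2kl
          rw [if_neg (by omega)]
        rw [h1, Matrix.zero_mulVec, smul_zero, add_zero, sl2dp_zero, Matrix.one_mulVec,
          Matrix.one_mulVec]
      · have h2 : sl2kl F (b + 1) 1 = sl2dp F b := by
          unfold sl2kl
          rw [if_pos (by omega), Nat.add_sub_cancel]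
        rw [sl2_EF hEF hHF _ hv, h2]
        congr 2
        push_cast
        ring
    have hmul : ((a : ℚ_[p]) + 1) • (sl2dp E (a + 1) *ᵥ (sl2dp F b *ᵥ v)) =
        ((a : ℚ_[p]) + 1) • ∑ j ∈ Finset.range (a + 1 + 1),
          ((Ring.choose (m + (a + 1 : ℕ) - b) j : ℤ) : ℚ_[p]) •
            (sl2kl F b j *ᵥ (sl2dp E (a + 1 - j) *ᵥ v)) := by
      rw [← Matrix.smul_mulVec, sl2dp_succ, ← Matrix.mulVec_mulVec, hc, Matrix.mulVec_add, ih1,
        Matrix.mulVec_smul, ih2]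
      have hfirst : ∑ j ∈ Finset.range (a + 1),
          ((Ring.choose (m + 2 + a - b) j : ℤ) : ℚ_[p]) •
            (sl2kl F b j *ᵥ (sl2dp E (a - j) *ᵥ (E *ᵥ v))) =
          ∑ j ∈ Finset.range (a + 1 + 1),
            (((Ring.choose (m + 2 + a - b) j : ℤ) : ℚ_[p]) * ((a : ℚ_[p]) + 1 - j)) •
            (sl2kl F b j *ᵥ (sl2dp E (a + 1 - j) *ᵥ v)) := by
        rw [Finset.sum_range_succ _ (a + 1)]
        have h0 : ((a : ℚ_[p]) + 1 - ((a + 1 : ℕ) : ℚ_[p])) = 0 := by push_cast; ring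
        rw [h0, mul_zero, zero_smul, add_zero]
        refine Finset.sum_congr rfl fun j hj => ?_
        rw [Finset.mem_range] at hj
        have h1 : a + 1 - j = (a - j) + 1 := by omega
        have h2 : ((a : ℚ_[p]) + 1 - j) = ((a - j : ℕ) : ℚ_[p]) + 1 := by
          rw [Nat.cast_sub (by omega)]; ring
        rw [h1, h2, Matrix.mulVec_mulVec v (sl2dp E (a - j)) E, ← sl2dp_succ, Matrix.smul_mulVec,
          Matrix.mulVec_smul, smul_smul]
      rw [hfirst, Finset.sum_range_succ' _ (a + 1), Finset.sum_range_succ' _ (a + 1), smul_add,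
        Finset.smul_sum, Finset.smul_sum, add_right_comm, ← Finset.sum_add_distrib]
      congr 1
      · refine Finset.sum_congr rfl fun j hj => ?_
        rw [show a + 1 - (j + 1) = a - j by omega, smul_smul, smul_smul, ← add_smul]
        congr 1
        have hM1 : m + 2 + a - b = (m + (a + 1 : ℕ) - b) + 1 := by push_cast; ring
        have hM2 : m + a + 1 - b = m + (a + 1 : ℕ) - b := by push_cast; ring
        rw [hM1, hM2]
        set M : ℤ := m + (a + 1 : ℕ) - b with hM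
        have hch := sl2_choose M j
        have hch' : ((j : ℚ_[p]) + 1) * ((Ring.choose M (j + 1) : ℤ) : ℚ_[p]) =
            ((M : ℚ_[p]) - j) * ((Ring.choose M j : ℤ) : ℚ_[p]) := by exact_mod_cast hch
        have hMc : (M : ℚ_[p]) = (m : ℚ_[p]) + (a + 1) - b := by rw [hM]; push_cast; ring
        rw [Ring.choose_succ_succ]
        push_cast
        rw [hMc] at hch'
        linear_combination (-1 : ℚ_[p]) * hch'
      · rw [Ring.choose_zero_right, Ring.choose_zero_right]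
        simp
    exact smul_right_injective _ ha hmul

/-- TARGET.
Proof. The classical formula with `c j = Ring.choose (m + a - b) j` (generalised binomial coefficient of an integer): in the enveloping algebra `E^(a) F^(b) = ∑_j F^(b-j) * binom(H - a - b + 2j, j) * E^(a-j)`, and `E^(a-j) v` has `H`-weight `m + 2(a-j)`. Induction on `a` (or `b`), using `E F^(b) w = F^(b) E w + (μ - b + 1) F^(b-1) w` for a vector `w` of `H`-weight `μ`, and identities of binomial coefficients. You may choose any proof. -/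
theorem sl2_comm {E F H : Matrix ι ι ℚ_[p]} (hEF : E * F - F * E = H)
    (hHE : H * E - E * H = (2 : ℚ_[p]) • E) (hHF : H * F - F * H = -((2 : ℚ_[p]) • F))
    {v : ι → ℚ_[p]} (m : ℤ) (hv : H *ᵥ v = (m : ℚ_[p]) • v) (a b : ℕ) :
    ∃ c : ℕ → ℤ, (((a.factorial : ℚ_[p])⁻¹ • E ^ a) * ((b.factorial : ℚ_[p])⁻¹ • F ^ b)) *ᵥ v
      = ∑ j ∈ Finset.range (min a b + 1), (c j : ℚ_[p]) •
          (((((b - j).factorial : ℚ_[p])⁻¹ • F ^ (b - j)) *
            (((a - j).factorial : ℚ_[p])⁻¹ • E ^ (a - j))) *ᵥ v) := by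
  refine ⟨fun j => Ring.choose (m + a - b) j, ?_⟩
  have h := sl2_main hEF hHE hHF a b v m hv
  rw [← Matrix.mulVec_mulVec]
  change sl2dp E a *ᵥ (sl2dp F b *ᵥ v) = _
  rw [h]
  symm
  have hsub : Finset.range (min a b + 1) ⊆ Finset.range (a + 1) := by
    intro j hj
    rw [Finset.mem_range] at hj ⊢
    omega
  rw [← Finset.sum_subset hsub]
  · refine Finset.sum_congr rfl fun j hj => ?_
    rw [Finset.mem_range] at hj
    have h1 : sl2kl F b j = sl2dp F (b - j) := by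
      unfold sl2kl
      rw [if_pos (by omega)]
    rw [h1, Matrix.mulVec_mulVec]
    rfl
  · intro j hj hj'
    rw [Finset.mem_range] at hj hj'
    have h1 : sl2kl F b j = 0 := by
      unfold sl2kl
      rw [if_neg (by omega)]
    rw [h1, Matrix.zero_mulVec, smul_zero]

end Pool.Agent.Chev
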