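import Mathlib
import Pool.Agent.Helper911_Chev.Defs3
import Pool.Agent.Helper911_Chev.CH0
import Pool.Agent.Helper911_Chev.CB1
import Pool.Agent.Helper911_Chev.KL1

set_option autoImplicit false
set_option linter.unusedSectionVars false
set_option maxHeartbeats 1000000

noncomputable section

open Matrix Topology

namespace Pool.Agent.Chev

open ChevData

variable {p : ℕ} [Fact p.Prime] {I ι : Type} [Fintype I] [DecidableEq I] [Fintype ι]
  [DecidableEq ι] (D : ChevData p I ι)

/-- `v` is supported on the weight `μ`. -/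
def KAt (μ : I → ℤ) (v : ι → ℚ_[p]) : Prop := ∀ i, v i ≠ 0 → D.wt i = μ

/-- Divided power of `E`. -/
def KEd (k : I) (a : ℕ) : Matrix ι ι ℚ_[p] := (a.factorial : ℚ_[p])⁻¹ • D.E k ^ a

/-- Divided power of `F`. -/
def KFd (k : I) (a : ℕ) : Matrix ι ι ℚ_[p] := (a.factorial : ℚ_[p])⁻¹ • D.F k ^ a

theorem kAt_single (i : ι) : KAt D (D.wt i) (Pi.single i 1 : ι → ℚ_[p]) := by
  intro j hj
  by_contra h
  apply hj
  have : j ≠ i := by
    rintro rfl; exact h rfl
  simp [this]

theorem kAt_smul {μ : I → ℤ} {v : ι → ℚ_[p]} (c : ℚ_[p]) (h : KAt D μ v) : KAt D μ (c • v) := by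
  intro i hi
  apply h i
  intro h0
  apply hi
  simp [h0]

theorem kAt_E {μ : I → ℤ} {v : ι → ℚ_[p]} (k : I) (h : KAt D μ v) :
    KAt D (μ + D.A k) (D.E k *ᵥ v) := by
  intro i hi
  rw [Matrix.mulVec, dotProduct] at hi
  obtain ⟨j, -, hj⟩ := Finset.exists_ne_zero_of_sum_ne_zero hi
  rw [D.E_wt k i j (left_ne_zero_of_mul hj), h j (right_ne_zero_of_mul hj)]

theorem kAt_F {μ : I → ℤ} {v : ι → ℚ_[p]} (k : I) (h : KAt D μ v) :
    KAt D (μ - D.A k) (D.F k *ᵥ v) := by
  intro i hi
  rw [Matrix.mulVec, dotProduct] at hi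
  obtain ⟨j, -, hj⟩ := Finset.exists_ne_zero_of_sum_ne_zero hi
  rw [D.F_wt k i j (left_ne_zero_of_mul hj), h j (right_ne_zero_of_mul hj)]

theorem kAt_Epow {μ : I → ℤ} {v : ι → ℚ_[p]} (k : I) (a : ℕ) (h : KAt D μ v) :
    KAt D (μ + a • D.A k) ((D.E k ^ a) *ᵥ v) := by
  induction a with
  | zero => simpa using h
  | succ a ih =>
    have := kAt_E D k ih
    rw [Matrix.mulVec_mulVec, ← pow_succ'] at this
    rw [succ_nsmul, ← add_assoc]
    exact this

theorem kAt_Fpow {μ : I → ℤ} {v : ι → ℚ_[p]} (k : I) (a : ℕ) (h : KAt D μ v) :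
    KAt D (μ - a • D.A k) ((D.F k ^ a) *ᵥ v) := by
  induction a with
  | zero => simpa using h
  | succ a ih =>
    have := kAt_F D k ih
    rw [Matrix.mulVec_mulVec, ← pow_succ'] at this
    rw [succ_nsmul, ← sub_sub]
    exact this

theorem kAt_Ed {μ : I → ℤ} {v : ι → ℚ_[p]} (k : I) (a : ℕ) (h : KAt D μ v) :
    KAt D (μ + a • D.A k) (KEd D k a *ᵥ v) := by
  unfold KEd
  rw [Matrix.smul_mulVec]
  exact kAt_smul D _ (kAt_Epow D k a h)

theorem kAt_Fd {μ : I → ℤ} {v : ι → ℚ_[p]} (k : I) (a : ℕ) (h : KAt D μ v) :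
    KAt D (μ - a • D.A k) (KFd D k a *ᵥ v) := by
  unfold KFd
  rw [Matrix.smul_mulVec]
  exact kAt_smul D _ (kAt_Fpow D k a h)

theorem kEd_zero (k : I) : KEd D k 0 = 1 := by
  unfold KEd; simp

theorem kFd_zero (k : I) : KFd D k 0 = 1 := by
  unfold KFd; simp

/-- `E`-words applied to basis vectors, with total degree. -/
inductive KEW : ℕ → (ι → ℚ_[p]) → Prop
  | base (i : ι) : KEW 0 (Pi.single i 1)
  | step (k : I) (a n : ℕ) (v : ι → ℚ_[p]) (ha : 1 ≤ a) (h : KEW n v) : KEW (n + a) (KEd D k a *ᵥ v)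

/-- `F`-words applied to `E`-words applied to basis vectors, with both degrees. -/
inductive KFW : ℕ → ℕ → (ι → ℚ_[p]) → Prop
  | base (n : ℕ) (v : ι → ℚ_[p]) (h : KEW D n v) : KFW n 0 v
  | step (k : I) (b n m : ℕ) (v : ι → ℚ_[p]) (hb : 1 ≤ b) (h : KFW n m v) :
      KFW n (m + b) (KFd D k b *ᵥ v)

theorem kEW_fin (n : ℕ) : {v | KEW D n v}.Finite := by
  induction n using Nat.strong_induction_on with
  | _ n ih =>
    have hsub : {v | KEW D n v} ⊆ (Set.range fun i : ι => (Pi.single i 1 : ι → ℚ_[p])) ∪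
        ⋃ a ∈ Set.Icc 1 n, ⋃ k : I, (fun v => KEd D k a *ᵥ v) '' {v | KEW D (n - a) v} := by
      intro v hv
      cases hv with
      | base i => exact Or.inl ⟨i, rfl⟩
      | step k a n' v ha h =>
        right
        simp only [Set.mem_iUnion]
        refine ⟨a, ⟨ha, by omega⟩, k, v, ?_, rfl⟩
        show KEW D _ v
        rwa [Nat.add_sub_cancel]
    refine Set.Finite.subset ?_ hsub
    refine (Set.finite_range _).union ?_
    refine (Set.finite_Icc 1 n).biUnion fun a ha => ?_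
    refine Set.finite_iUnion fun k => ?_
    exact (ih (n - a) (by have := ha.1; have := ha.2; omega)).image _

theorem kFW_fin (n m : ℕ) : {v | KFW D n m v}.Finite := by
  induction m using Nat.strong_induction_on with
  | _ m ih =>
    have hsub : {v | KFW D n m v} ⊆ {v | KEW D n v} ∪
        ⋃ a ∈ Set.Icc 1 m, ⋃ k : I, (fun v => KFd D k a *ᵥ v) '' {v | KFW D n (m - a) v} := by
      intro v hv
      cases hv with
      | base _ _ h => exact Or.inl h
      | step k b n' m' v hb h =>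
        right
        simp only [Set.mem_iUnion]
        refine ⟨b, ⟨hb, by omega⟩, k, v, ?_, rfl⟩
        show KFW D _ _ v
        rwa [Nat.add_sub_cancel]
    refine Set.Finite.subset ?_ hsub
    refine (kEW_fin D n).union ?_
    refine (Set.finite_Icc 1 m).biUnion fun a ha => ?_
    refine Set.finite_iUnion fun k => ?_
    exact (ih (m - a) (by have := ha.1; have := ha.2; omega)).image _

theorem k_ht_nsmul (a : ℕ) (k : I) : ht D (a • D.A k) = a * D.A.det ^ 2 := by
  induction a with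
  | zero => simp [ht]
  | succ a ih => rw [succ_nsmul, ht_add, ih, ht_A]; push_cast; ring

theorem kEW_at {n : ℕ} {v : ι → ℚ_[p]} (h : KEW D n v) :
    ∃ (i : ι) (μ : I → ℤ), KAt D μ v ∧ ht D μ = ht D (D.wt i) + n * D.A.det ^ 2 := by
  induction h with
  | base i => exact ⟨i, D.wt i, kAt_single D i, by simp⟩
  | step k a n v ha _ ih =>
    obtain ⟨i, μ, h1, h2⟩ := ih
    refine ⟨i, μ + a • D.A k, kAt_Ed D k a h1, ?_⟩
    rw [ht_add, k_ht_nsmul, h2]; push_cast; ring

theorem kFW_at {n m : ℕ} {v : ι → ℚ_[p]} (h : KFW D n m v) :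
    ∃ (i : ι) (μ : I → ℤ), KAt D μ v ∧
      ht D μ = ht D (D.wt i) + n * D.A.det ^ 2 - m * D.A.det ^ 2 := by
  induction h with
  | base n v h =>
    obtain ⟨i, μ, h1, h2⟩ := kEW_at D h
    exact ⟨i, μ, h1, by rw [h2]; simp⟩
  | step k b n m v hb _ ih =>
    obtain ⟨i, μ, h1, h2⟩ := ih
    refine ⟨i, μ - b • D.A k, kAt_Fd D k b h1, ?_⟩
    rw [ht_sub, k_ht_nsmul, h2]; push_cast; ring

theorem k_bound : ∃ B : ℕ, ∀ i, |ht D (D.wt i)| ≤ B := by
  refine ⟨∑ i, (ht D (D.wt i)).natAbs, fun i => ?_⟩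
  rw [← Int.natCast_natAbs]
  exact_mod_cast Finset.single_le_sum (f := fun i => (ht D (D.wt i)).natAbs)
    (fun _ _ => Nat.zero_le _) (Finset.mem_univ i)

theorem k_det_sq : 1 ≤ D.A.det ^ 2 := by
  have := D.A_det
  have h : 0 < D.A.det ^ 2 := by positivity
  omega

theorem kEW_bound {B : ℕ} (hB : ∀ i, |ht D (D.wt i)| ≤ B) {n : ℕ} {v : ι → ℚ_[p]}
    (h : KEW D n v) (hv : v ≠ 0) : n ≤ 2 * B := by
  obtain ⟨i, μ, h1, h2⟩ := kEW_at D h
  obtain ⟨j, hj⟩ := Function.ne_iff.mp hv
  rw [← h1 j hj] at h2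
  have hi := abs_le.mp (hB i)
  have hj := abs_le.mp (hB j)
  have hd := k_det_sq D
  have : (n : ℤ) * 1 ≤ n * D.A.det ^ 2 := mul_le_mul_of_nonneg_left hd (by positivity)
  have : (n : ℤ) ≤ 2 * B := by linarith [hi.1, hi.2, hj.1, hj.2]
  exact_mod_cast this

theorem kFW_bound1 {B : ℕ} (hB : ∀ i, |ht D (D.wt i)| ≤ B) {n m : ℕ} {v : ι → ℚ_[p]}
    (h : KFW D n m v) (hv : v ≠ 0) : n ≤ 2 * B := by
  induction h with
  | base n v h => exact kEW_bound D hB h hv
  | step k b n m v hb _ ih =>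
    apply ih
    rintro rfl
    exact hv (Matrix.mulVec_zero _)

theorem kFW_bound2 {B : ℕ} (hB : ∀ i, |ht D (D.wt i)| ≤ B) {n m : ℕ} {v : ι → ℚ_[p]}
    (h : KFW D n m v) (hv : v ≠ 0) : m ≤ 2 * B + n := by
  obtain ⟨i, μ, h1, h2⟩ := kFW_at D h
  obtain ⟨j, hj⟩ := Function.ne_iff.mp hv
  rw [← h1 j hj] at h2
  have hi := abs_le.mp (hB i)
  have hj := abs_le.mp (hB j)
  have hd := k_det_sq D
  have h3 : ((m : ℤ) - n) * D.A.det ^ 2 ≤ 2 * B := by linarith [hi.1, hi.2, hj.1, hj.2]
  have : (m : ℤ) ≤ 2 * B + n := by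
    by_contra hc
    push Not at hc
    have h4 : (0 : ℤ) ≤ m - n := by linarith [Int.natCast_nonneg B]
    have : ((m : ℤ) - n) * 1 ≤ (m - n) * D.A.det ^ 2 := mul_le_mul_of_nonneg_left hd h4
    linarith
  exact_mod_cast this

/-- The generating set. -/
def KS : Set (ι → ℚ_[p]) := {v | ∃ n m, KFW D n m v}

theorem kS_fin : (KS D).Finite := by
  obtain ⟨B, hB⟩ := k_bound D
  have hsub : KS D ⊆ {0} ∪ ⋃ n ∈ Set.Iic (2 * B), ⋃ m ∈ Set.Iic (4 * B), {v | KFW D n m v} := by
    rintro v ⟨n, m, h⟩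
    by_cases hv : v = 0
    · exact Or.inl hv
    · right
      have h1 := kFW_bound1 D hB h hv
      have h2 := kFW_bound2 D hB h hv
      simp only [Set.mem_iUnion]
      exact ⟨n, h1, m, by show m ≤ 4 * B; omega, h⟩
  refine Set.Finite.subset ?_ hsub
  refine (Set.finite_singleton _).union ?_
  refine (Set.finite_Iic _).biUnion fun n _ => ?_
  exact (Set.finite_Iic _).biUnion fun m _ => kFW_fin D n m

/-- The lattice. -/
def KM : Submodule ℤ_[p] (ι → ℚ_[p]) := Submodule.span ℤ_[p] (KS D)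

theorem kM_mulVec {X : Matrix ι ι ℚ_[p]} (h : ∀ v ∈ KS D, X *ᵥ v ∈ KM D) :
    ∀ v ∈ KM D, X *ᵥ v ∈ KM D := by
  intro v hv
  induction hv using Submodule.span_induction with
  | mem v hv => exact h v hv
  | zero => rw [Matrix.mulVec_zero]; exact zero_mem _
  | add x y _ _ hx hy => rw [Matrix.mulVec_add]; exact add_mem hx hy
  | smul c x _ hx => rw [Matrix.mulVec_smul]; exact Submodule.smul_mem _ c hx

theorem kM_F (l : I) (b : ℕ) : ∀ v ∈ KM D, KFd D l b *ᵥ v ∈ KM D := by
  apply kM_mulVec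
  rintro v ⟨n, m, h⟩
  rcases Nat.eq_zero_or_pos b with rfl | hb
  · rw [kFd_zero, Matrix.one_mulVec]; exact Submodule.subset_span ⟨n, m, h⟩
  · exact Submodule.subset_span ⟨n, m + b, KFW.step l b n m v hb h⟩

theorem k_comm {k l : I} (h : k ≠ l) (a b : ℕ) : KEd D k a * KFd D l b = KFd D l b * KEd D k a := by
  have hc : Commute (D.E k) (D.F l) := D.EF_ne k l h
  have := (hc.pow_pow a b)
  unfold KEd KFd
  rw [smul_mul_smul_comm, smul_mul_smul_comm, this.eq, mul_comm]

theorem k_Hm {μ : I → ℤ} {v : ι → ℚ_[p]} (k : I) (h : KAt D μ v) :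
    Hm D k *ᵥ v = ((μ k : ℤ) : ℚ_[p]) • v := by
  funext i
  rw [Hm, Matrix.mulVec_diagonal, Pi.smul_apply, smul_eq_mul]
  by_cases hi : v i = 0
  · rw [hi, mul_zero, mul_zero]
  · rw [h i hi]

theorem k_padic_int_smul (c : ℤ) {v : ι → ℚ_[p]} (hv : v ∈ KM D) : (c : ℚ_[p]) • v ∈ KM D := by
  rw [Int.cast_smul_eq_zsmul]
  exact zsmul_mem hv c

theorem kM_E (k : I) : ∀ {n m : ℕ} {v : ι → ℚ_[p]}, KFW D n m v → ∀ a, KEd D k a *ᵥ v ∈ KM D := by
  intro n m v h
  induction h with
  | base n v h =>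
    intro a
    rcases Nat.eq_zero_or_pos a with rfl | ha
    · rw [kEd_zero, Matrix.one_mulVec]; exact Submodule.subset_span ⟨n, 0, KFW.base n v h⟩
    · exact Submodule.subset_span ⟨n + a, 0, KFW.base _ _ (KEW.step k a n v ha h)⟩
  | step l b n m v hb hv ih =>
    intro a
    by_cases hkl : k = l
    · subst hkl
      obtain ⟨i, μ, h1, -⟩ := kFW_at D hv
      have h2 : (2 : ℚ_[p]) = (D.A k k : ℚ_[p]) := by rw [D.A_diag]; norm_num
      obtain ⟨c, hc⟩ := sl2_comm (D.EF_same k) (by rw [h2]; exact HE D k k)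
        (by rw [h2]; exact HF D k k) (μ k) (k_Hm D k h1) a b
      rw [Matrix.mulVec_mulVec]
      unfold KEd KFd
      rw [hc]
      refine sum_mem fun j _ => k_padic_int_smul D _ ?_
      rw [← Matrix.mulVec_mulVec]
      exact kM_F D k (b - j) _ (ih (a - j))
    · rw [Matrix.mulVec_mulVec, k_comm D hkl, ← Matrix.mulVec_mulVec]
      exact kM_F D l b _ (ih a)

/-! ======= TARGETS ======= -/

/-- TARGET.
Proof. Write `E_k^(a) = (1/a!) E_k^a` etc. An `E`-word is a product `E_{k_1}^(a_1) ... E_{k_r}^(a_r)` with all `a_j ≥ 1`, similarly `F`-words. Let `M` be the `ℤ_p`-span of all vectors `(F-word) (E-word) e_i`, `e_i = Pi.single i 1`.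
(1) Only finitely many of these vectors are nonzero: `(E-word) e_i` is supported on the indices `j` with `wt j = wt i + ∑ a_j • A k_j` (`E_wt`), and `ht (wt j) = ht (wt i) + (∑ a_j) (det A)^2` (`ht_A`) takes finitely many values, so `∑ a_j` is bounded; similarly for `F`-words. Hence `M` is finitely generated. (2) `M` contains the `e_i` (empty words). (3) The vectors `(F-word)(E-word) e_i` are supported on a single weight, so the projection to a weight maps each of them to itself or `0`.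
(4) `M` is stable under `F_k^(b)` (for `b = 0` it is the identity, for `b ≥ 1` it makes a longer `F`-word). (5) `M` is stable under `E_k^(a)`: show `E_k^(a) X ∈ M` for all `k, a` and all `X = (F-word)(E-word) e_i`, by induction on the length of the `F`-word. Length `0` is clear. For `X = F_l^(b) X'`: if `l ≠ k` then `E_k^(a) F_l^(b) X' = F_l^(b) E_k^(a) X'` (`EF_ne`), in `M` by induction and (4). If `l = k`: by `sl2_comm` (`X'` is supported on a single weight, so it is an eigenvector of `Hm k = diagonal (wt i k)`;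
`EF_same`, `HE`, `HF`, `A k k = 2`) it is an integral combination of the `F_k^(b-j) E_k^(a-j) X'`, in `M` by induction and (4). -/
theorem kostant_lattice : ∃ M : Submodule ℤ_[p] (ι → ℚ_[p]), M.FG ∧
    (∀ i, (Pi.single i 1 : ι → ℚ_[p]) ∈ M) ∧
    (∀ v ∈ M, ∀ μ : I → ℤ, (fun i => if D.wt i = μ then v i else 0) ∈ M) ∧
    (∀ (k : I) (m : ℕ), ∀ v ∈ M, ((m.factorial : ℚ_[p])⁻¹ • D.E k ^ m) *ᵥ v ∈ M) ∧
    (∀ (k : I) (m : ℕ), ∀ v ∈ M, ((m.factorial : ℚ_[p])⁻¹ • D.F k ^ m) *ᵥ v ∈ M) := by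
  refine ⟨KM D, Submodule.fg_span (kS_fin D), fun i => ?_, ?_, ?_, ?_⟩
  · exact Submodule.subset_span ⟨0, 0, KFW.base _ _ (KEW.base i)⟩
  · intro v hv μ
    induction hv using Submodule.span_induction with
    | mem v hv =>
      obtain ⟨n, m, h⟩ := hv
      obtain ⟨i, ν, h1, -⟩ := kFW_at D h
      by_cases hμ : ν = μ
      · subst hμ
        have : (fun i => if D.wt i = ν then v i else 0) = v := by
          funext j
          by_cases hj : D.wt j = ν
          · rw [if_pos hj]
          · rw [if_neg hj]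
            by_contra h0
            exact hj (h1 j (Ne.symm h0))
        rw [this]
        exact Submodule.subset_span ⟨n, m, h⟩
      · have : (fun i => if D.wt i = μ then v i else 0) = 0 := by
          funext j
          by_cases hj : D.wt j = μ
          · rw [if_pos hj]
            by_contra h0
            exact hμ ((h1 j h0).symm.trans hj)
          · rw [if_neg hj]; rfl
        rw [this]
        exact zero_mem _
    | zero =>
      have : (fun i => if D.wt i = μ then (0 : ι → ℚ_[p]) i else 0) = 0 := by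
        funext j; simp
      rw [this]
      exact zero_mem _
    | add x y _ _ hx hy =>
      have : (fun i => if D.wt i = μ then (x + y) i else 0)
          = (fun i => if D.wt i = μ then x i else 0) + (fun i => if D.wt i = μ then y i else 0) := by
        funext j
        by_cases hj : D.wt j = μ <;> simp [hj]
      rw [this]
      exact add_mem hx hy
    | smul c x _ hx =>
      have : (fun i => if D.wt i = μ then (c • x) i else 0)
          = c • (fun i => if D.wt i = μ then x i else 0) := by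
        funext j
        by_cases hj : D.wt j = μ <;> simp [hj]
      rw [this]
      exact Submodule.smul_mem _ c hx
  · intro k m
    apply kM_mulVec
    rintro v ⟨n, m', h⟩
    exact kM_E D k h m
  · intro k m
    exact kM_F D k m

end Pool.Agent.Chev
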