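import Mathlib
import Pool.Agent.Helper911_Chev.Defs3
import Pool.Agent.Helper911_Chev.CA3

set_option autoImplicit false
set_option linter.unusedSectionVars false
set_option maxHeartbeats 1000000

noncomputable section

open Matrix Topology

namespace Pool.Agent.Chev

open ChevData

variable {p : ℕ} [Fact p.Prime] {I ι : Type} [Fintype I] [DecidableEq I] [Fintype ι]
  [DecidableEq ι] (D : ChevData p I ι)

/-! ======= TARGETS ======= -/

/-- A lattice is the span of a basis. -/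
theorem lbA {κ : Type} [Fintype κ] [DecidableEq κ] (M : Submodule ℤ_[p] (κ → ℚ_[p]))
    (hfg : M.FG) (h1 : ∀ i, (Pi.single i 1 : κ → ℚ_[p]) ∈ M) :
    ∃ Q Q' : Matrix κ κ ℚ_[p], Q * Q' = 1 ∧ Q' * Q = 1 ∧
      ∀ v : κ → ℚ_[p], v ∈ M ↔ ∀ i, ‖(Q' *ᵥ v) i‖ ≤ 1 := by
  have hsp : Submodule.span ℚ_[p] (M : Set (κ → ℚ_[p])) = ⊤ := by
    rw [eq_top_iff, ← (Pi.basisFun ℚ_[p] κ).span_eq]
    refine Submodule.span_mono ?_
    rintro _ ⟨i, rfl⟩
    rw [Pi.basisFun_apply]
    exact h1 i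
  have : Submodule.IsLattice ℚ_[p] M := ⟨hfg, hsp⟩
  have hfin : Module.finrank ℤ_[p] M = Fintype.card κ :=
    Submodule.IsLattice.finrank_of_pi ℚ_[p] M
  let b0 : Module.Basis κ ℤ_[p] M :=
    (Module.finBasisOfFinrankEq ℤ_[p] M hfin).reindex (Fintype.equivFin κ).symm
  let b := b0.extendOfIsLattice ℚ_[p]
  have hb : ∀ k, b k = (b0 k : κ → ℚ_[p]) := fun k => b0.extendOfIsLattice_apply ℚ_[p] k
  refine ⟨(Pi.basisFun ℚ_[p] κ).toMatrix b, b.toMatrix (Pi.basisFun ℚ_[p] κ),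
    Module.Basis.toMatrix_mul_toMatrix_flip _ _, Module.Basis.toMatrix_mul_toMatrix_flip _ _, ?_⟩
  intro v
  have hrep : (b.toMatrix (Pi.basisFun ℚ_[p] κ)) *ᵥ v = b.repr v := by
    have := Module.Basis.toMatrix_mulVec_repr (Pi.basisFun ℚ_[p] κ) b v
    rw [← this]
    rfl
  rw [hrep]
  constructor
  · intro hv i
    have h4 : v = ∑ k, (algebraMap ℤ_[p] ℚ_[p] (b0.repr ⟨v, hv⟩ k)) • b k := by
      calc v = ((∑ k, b0.repr ⟨v, hv⟩ k • b0 k : M) : κ → ℚ_[p]) := by rw [b0.sum_repr]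
        _ = _ := by
          rw [Submodule.coe_sum]
          refine Finset.sum_congr rfl fun k _ => ?_
          rw [hb, Submodule.coe_smul_of_tower, algebraMap_smul]
    have h3 : b.repr v i = algebraMap ℤ_[p] ℚ_[p] (b0.repr ⟨v, hv⟩ i) :=
      (congrArg (fun w => (b.repr w) i) h4).trans (congrFun (b.repr_sum_self _) i)
    rw [h3]
    exact PadicInt.norm_le_one _
  · intro hv
    rw [← b.sum_repr v]
    refine Submodule.sum_mem _ fun k _ => ?_
    let z : ℤ_[p] := ⟨b.repr v k, hv k⟩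
    have h3 : b.repr v k • b k = z • (b0 k : κ → ℚ_[p]) := by
      rw [hb, ← algebraMap_smul ℚ_[p] z]
      rfl
    rw [h3]
    exact M.smul_mem _ (b0 k).2

theorem lb_sum {f : ι → ℚ_[p]} {w : ι → I → ℤ} {μ : I → ℤ} (hf : ∀ j, w j ≠ μ → f j = 0) :
    ∑ j, f j = ∑ j : {j // w j = μ}, f j := by
  rw [← Finset.sum_subtype (Finset.univ.filter (fun j => w j = μ)) (by simp) f]
  symm
  refine Finset.sum_subset (Finset.filter_subset _ _) fun j _ hj => hf j fun h => hj ?_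
  exact Finset.mem_filter.2 ⟨Finset.mem_univ _, h⟩

/-- The block diagonal matrix with given blocks. -/
def lbGl (w : ι → I → ℤ) (R : ∀ μ : I → ℤ, Matrix {i // w i = μ} {i // w i = μ} ℚ_[p]) :
    Matrix ι ι ℚ_[p] :=
  fun i j => if h : w i = w j then R (w j) ⟨i, h⟩ ⟨j, rfl⟩ else 0

theorem lbGl_apply {w : ι → I → ℤ}
    {R : ∀ μ : I → ℤ, Matrix {i // w i = μ} {i // w i = μ} ℚ_[p]} {μ : I → ℤ} {i j : ι}
    (hi : w i = μ) (hj : w j = μ) : lbGl w R i j = R μ ⟨i, hi⟩ ⟨j, hj⟩ := by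
  subst hj
  unfold lbGl
  rw [dif_pos hi]

theorem lbGl_ne {w : ι → I → ℤ}
    {R : ∀ μ : I → ℤ, Matrix {i // w i = μ} {i // w i = μ} ℚ_[p]} {i j : ι}
    (h : w i ≠ w j) : lbGl w R i j = 0 := by
  unfold lbGl
  rw [dif_neg h]

theorem lbGl_mulVec {w : ι → I → ℤ}
    {R : ∀ μ : I → ℤ, Matrix {i // w i = μ} {i // w i = μ} ℚ_[p]} {μ : I → ℤ} {i : ι}
    (hi : w i = μ) (v : ι → ℚ_[p]) :
    (lbGl w R *ᵥ v) i = (R μ *ᵥ (fun j : {j // w j = μ} => v j)) ⟨i, hi⟩ := by
  rw [Matrix.mulVec, Matrix.mulVec, dotProduct, dotProduct, lb_sum (w := w) (μ := μ)]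
  · refine Finset.sum_congr rfl fun j _ => ?_
    rw [lbGl_apply hi j.2]
  · intro j hj
    rw [lbGl_ne (fun h => hj (h.symm.trans hi)), zero_mul]

theorem lbGl_mul {w : ι → I → ℤ}
    {R R' : ∀ μ : I → ℤ, Matrix {i // w i = μ} {i // w i = μ} ℚ_[p]}
    (h : ∀ μ, R μ * R' μ = 1) : lbGl w R * lbGl w R' = 1 := by
  ext i k
  rw [Matrix.mul_apply, lb_sum (w := w) (μ := w i)]
  · by_cases hk : w k = w i
    · have h2 := congrFun (congrFun (h (w i)) ⟨i, rfl⟩) ⟨k, hk⟩
      rw [Matrix.mul_apply] at h2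
      have h3 : ∑ j : {j // w j = w i}, lbGl w R i j * lbGl w R' j k =
          (1 : Matrix {j // w j = w i} {j // w j = w i} ℚ_[p]) ⟨i, rfl⟩ ⟨k, hk⟩ := by
        rw [← h2]
        refine Finset.sum_congr rfl fun j _ => ?_
        rw [lbGl_apply rfl j.2, lbGl_apply j.2 hk]
      rw [h3, Matrix.one_apply, Matrix.one_apply]
      simp
    · rw [Finset.sum_eq_zero, Matrix.one_apply_ne (fun h' => hk (by rw [h']))]
      intro j _
      rw [lbGl_ne (i := (j : ι)) (j := k) (fun h' => hk (h'.symm.trans j.2)), mul_zero]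
  · intro j hj
    rw [lbGl_ne (fun h' => hj h'.symm), zero_mul]

/-- TARGET.
Proof. For a weight `μ` let `M_μ` be the submodule of the `v ∈ M` supported on `{i | wt i = μ}`. `M` is the direct sum of the `M_μ`, `μ ∈ range wt` (finitely many), by `hgr`. `M_μ` is finitely generated (`ℤ_[p]` is a noetherian principal ideal domain) and torsion free, hence free, it spans the space `V_μ` of vectors supported on `{i | wt i = μ}` over `ℚ_[p]` (`h1`), so its rank is the number of such `i`. Choose a basis of `M_μ` indexed by `{i | wt i = μ}`, for all `μ`; together they form a `ℤ_p`-basis `(v_i)` of `M`, with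
`v_i` supported on the weight `wt i`, which is also a `ℚ_p`-basis of the whole space. `P` is the matrix with columns `v_i`; `(P⁻¹ v) i` are the coordinates of `v`, and `v ∈ M` iff they are in `ℤ_p` (norm `≤ 1`). `P ∈ Diag`: `Diag_of_val`. -/
theorem lattice_basis (M : Submodule ℤ_[p] (ι → ℚ_[p])) (hfg : M.FG)
    (h1 : ∀ i, (Pi.single i 1 : ι → ℚ_[p]) ∈ M)
    (hgr : ∀ v ∈ M, ∀ μ : I → ℤ, (fun i => if D.wt i = μ then v i else 0) ∈ M) :
    ∃ P : GLm p ι, P ∈ D.Diag ∧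
      ∀ v : ι → ℚ_[p], v ∈ M ↔ ∀ i, ‖(((P⁻¹ : GLm p ι) : Matrix ι ι ℚ_[p]) *ᵥ v) i‖ ≤ 1 := by
  have h2 : ∀ μ : I → ℤ, ∃ Q Q' : Matrix {i // D.wt i = μ} {i // D.wt i = μ} ℚ_[p],
      Q * Q' = 1 ∧ Q' * Q = 1 ∧ ∀ v : {i // D.wt i = μ} → ℚ_[p],
        v ∈ M.map (LinearMap.funLeft ℤ_[p] ℚ_[p] (Subtype.val : {i // D.wt i = μ} → ι)) ↔
          ∀ i, ‖(Q' *ᵥ v) i‖ ≤ 1 := by
    intro μ
    refine lbA _ (hfg.map _) fun i => ?_
    refine ⟨Pi.single (i : ι) 1, h1 i, ?_⟩
    funext j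
    rw [LinearMap.funLeft_apply, Pi.single_apply, Pi.single_apply]
    simp only [Subtype.ext_iff]
  choose Q Q' hQ hQ' hM using h2
  let P : GLm p ι := ⟨lbGl D.wt Q, lbGl D.wt Q', lbGl_mul hQ, lbGl_mul hQ'⟩
  refine ⟨P, ?_, ?_⟩
  · apply Diag_of_val
    intro i j hij
    by_contra h
    apply hij
    refine lbGl_ne fun h' => h ?_
    rw [Set.mem_singleton_iff, h', sub_self]
  · intro v
    show v ∈ M ↔ ∀ i, ‖(lbGl D.wt Q' *ᵥ v) i‖ ≤ 1
    have h3 : v ∈ M ↔ ∀ μ : I → ℤ, (fun j : {j // D.wt j = μ} => v j) ∈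
        M.map (LinearMap.funLeft ℤ_[p] ℚ_[p] (Subtype.val : {i // D.wt i = μ} → ι)) := by
      constructor
      · intro hv μ
        exact ⟨v, hv, rfl⟩
      · intro hv
        have h4 : ∀ μ : I → ℤ, (fun i => if D.wt i = μ then v i else 0) ∈ M := by
          intro μ
          obtain ⟨u, hu, huv⟩ := hv μ
          have h5 : (fun i => if D.wt i = μ then v i else 0) =
              fun i => if D.wt i = μ then u i else 0 := by
            funext i
            by_cases hi : D.wt i = μ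
            · rw [if_pos hi, if_pos hi]
              exact (congrFun huv ⟨i, hi⟩).symm
            · rw [if_neg hi, if_neg hi]
          rw [h5]
          exact hgr u hu μ
        have h5 : v = ∑ μ ∈ Finset.univ.image D.wt, fun i => if D.wt i = μ then v i else 0 := by
          funext i
          rw [Finset.sum_apply, Finset.sum_ite_eq, if_pos (Finset.mem_image_of_mem _
            (Finset.mem_univ _))]
        rw [h5]
        exact Submodule.sum_mem _ fun μ _ => h4 μ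
    rw [h3]
    constructor
    · intro hv i
      rw [lbGl_mulVec (μ := D.wt i) rfl]
      exact (hM (D.wt i) _).1 (hv (D.wt i)) ⟨i, rfl⟩
    · intro hv μ
      refine (hM μ _).2 fun i => ?_
      have := hv i
      rwa [lbGl_mulVec (μ := μ) i.2] at this

end Pool.Agent.Chev
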