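import Mathlib
import Pool.Agent.Helper911_Chev.Defs4
import Pool.Agent.Helper911_Chev.KL2
import Pool.Agent.Helper911_Chev.KL3

set_option autoImplicit false
set_option linter.unusedSectionVars false
set_option maxHeartbeats 1000000

noncomputable section

open Matrix Topology

namespace Pool.Agent.Chev

open ChevData

variable {p : ℕ} [Fact p.Prime] {I ι : Type} [Fintype I] [DecidableEq I] [Fintype ι]
  [DecidableEq ι] (D : ChevData p I ι)

/-! ======= TARGETS ======= -/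

/-- TARGET.
Proof. `M` from `kostant_lattice`, `P` from `lattice_basis`. `((cjD D P hP).E k) ^ m = P⁻¹ (E k)^m P`. The column `j` of `P` is `P *ᵥ single j 1 ∈ M` (as `P⁻¹ *ᵥ` it is `single j 1`, with entries of norm `≤ 1`), so `((1/m!) E_k^m) *ᵥ (P *ᵥ single j 1) ∈ M` and `P⁻¹ *ᵥ` it has entries of norm `≤ 1`: these are the entries of the column `j` of `(1/m!) • (cjD.E k)^m`. -/
theorem exists_integral : ∃ (P : GLm p ι) (hP : P ∈ D.Diag), (cjD D P hP).Integral := by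
  obtain ⟨M, hfg, h1, hgr, hE, hF⟩ := kostant_lattice D
  obtain ⟨P, hP, hM⟩ := lattice_basis D M hfg h1 hgr
  have hPP : ((P⁻¹ : GLm p ι) : Matrix ι ι ℚ_[p]) * (P : Matrix ι ι ℚ_[p]) = 1 := by
    rw [← Units.val_mul, inv_mul_cancel, Units.val_one]
  have hPP' : (P : Matrix ι ι ℚ_[p]) * ((P⁻¹ : GLm p ι) : Matrix ι ι ℚ_[p]) = 1 := by
    rw [← Units.val_mul, mul_inv_cancel, Units.val_one]
  have hcol : ∀ j, (P : Matrix ι ι ℚ_[p]) *ᵥ (Pi.single j 1 : ι → ℚ_[p]) ∈ M := by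
    intro j
    rw [hM]
    intro i
    rw [Matrix.mulVec_mulVec, hPP, Matrix.one_mulVec]
    by_cases h : i = j
    · subst h
      rw [Pi.single_eq_same, norm_one]
    · rw [Pi.single_eq_of_ne h, norm_zero]
      exact zero_le_one
  have hpow : ∀ (X : Matrix ι ι ℚ_[p]) (m : ℕ), (cj P⁻¹ X) ^ m =
      ((P⁻¹ : GLm p ι) : Matrix ι ι ℚ_[p]) * X ^ m * (P : Matrix ι ι ℚ_[p]) := by
    intro X m
    have h0 : cj P⁻¹ X = ((P⁻¹ : GLm p ι) : Matrix ι ι ℚ_[p]) * X * (P : Matrix ι ι ℚ_[p]) := by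
      unfold cj
      rw [inv_inv]
    rw [h0]
    induction m with
    | zero => rw [pow_zero, pow_zero, mul_one, hPP]
    | succ m ih =>
      rw [pow_succ, ih, pow_succ]
      calc ((P⁻¹ : GLm p ι) : Matrix ι ι ℚ_[p]) * X ^ m * (P : Matrix ι ι ℚ_[p])
            * (((P⁻¹ : GLm p ι) : Matrix ι ι ℚ_[p]) * X * (P : Matrix ι ι ℚ_[p]))
          = ((P⁻¹ : GLm p ι) : Matrix ι ι ℚ_[p]) * X ^ m * ((P : Matrix ι ι ℚ_[p])
            * ((P⁻¹ : GLm p ι) : Matrix ι ι ℚ_[p])) * X * (P : Matrix ι ι ℚ_[p]) := by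
            noncomm_ring
        _ = _ := by rw [hPP']; noncomm_ring
  have key : ∀ (X : Matrix ι ι ℚ_[p]) (m : ℕ),
      (∀ v ∈ M, ((m.factorial : ℚ_[p])⁻¹ • X ^ m) *ᵥ v ∈ M) → ∀ i j,
        ‖(((m.factorial : ℚ_[p])⁻¹ • (cj P⁻¹ X) ^ m : Matrix ι ι ℚ_[p]) i j)‖ ≤ 1 := by
    intro X m hX i j
    have h2 := (hM _).1 (hX _ (hcol j)) i
    have h3 : (((P⁻¹ : GLm p ι) : Matrix ι ι ℚ_[p]) *ᵥ (((m.factorial : ℚ_[p])⁻¹ • X ^ m) *ᵥ
        ((P : Matrix ι ι ℚ_[p]) *ᵥ (Pi.single j 1 : ι → ℚ_[p])))) i =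
        ((m.factorial : ℚ_[p])⁻¹ • (cj P⁻¹ X) ^ m : Matrix ι ι ℚ_[p]) i j := by
      rw [Matrix.mulVec_mulVec, Matrix.mulVec_mulVec, hpow]
      have h4 : ∀ (A : Matrix ι ι ℚ_[p]), (A *ᵥ (Pi.single j 1 : ι → ℚ_[p])) i = A i j := by
        intro A
        rw [Matrix.mulVec_single_one]
        rfl
      rw [h4, Matrix.mul_smul, Matrix.smul_mul]
    rwa [h3] at h2
  refine ⟨P, hP, ?_, ?_⟩
  · intro k m i j
    exact key (D.E k) m (hE k m) i j
  · intro k m i j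
    exact key (D.F k) m (hF k m) i j

end Pool.Agent.Chev
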