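import Mathlib
import Pool.Agent.Helper911_Chev.Defs4
import Pool.Agent.Helper911_Chev.CA1
import Pool.Agent.Helper911_Chev.CA3
import Pool.Agent.Helper911_Chev.CB3

set_option autoImplicit false
set_option linter.unusedSectionVars false
set_option maxHeartbeats 1000000

noncomputable section

open Matrix Topology

namespace Pool.Agent.Chev

open ChevData

variable {p : ℕ} [Fact p.Prime] {I ι : Type} [Fintype I] [DecidableEq I] [Fintype ι]
  [DecidableEq ι] (D : ChevData p I ι)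

/-! ======= TARGETS ======= -/

/-- TARGET.
`exU_conj`, `tE_nil`. -/
theorem cjD_x (P : GLm p ι) (hP : P ∈ D.Diag) (k : I) (t : ℚ_[p]) :
    (cjD D P hP).x k t = P⁻¹ * D.x k t * P := by
  have h1 := exU_conj P⁻¹ (tE_nil D k t)
  rw [inv_inv] at h1
  show exU (t • cj P⁻¹ (D.E k)) = P⁻¹ * exU (t • D.E k) * P
  rw [h1, ← cj_smul]
  unfold cj
  rw [inv_inv]

/-- TARGET.
See the hints above. -/
theorem cjD_y (P : GLm p ι) (hP : P ∈ D.Diag) (k : I) (t : ℚ_[p]) :
    (cjD D P hP).y k t = P⁻¹ * D.y k t * P := by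
  have h1 := exU_conj P⁻¹ (tF_nil D k t)
  rw [inv_inv] at h1
  show exU (t • cj P⁻¹ (D.F k)) = P⁻¹ * exU (t • D.F k) * P
  rw [h1, ← cj_smul]
  unfold cj
  rw [inv_inv]

/-- TARGET.
See the hints above. -/
theorem cjD_h (P : GLm p ι) (hP : P ∈ D.Diag) : (cjD D P hP).h = D.h := rfl

/-- TARGET.
Entries (`h_apply`): `P i j ≠ 0` implies `wt i = wt j`. -/
theorem cjD_comm (P : GLm p ι) (hP : P ∈ D.Diag) (τ : I → ℚ_[p]ˣ) : P * D.h τ = D.h τ * P := by
  have e : (D.h τ : Matrix ι ι ℚ_[p]) =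
      Matrix.diagonal (fun i => ((∏ k, τ k ^ D.wt i k : ℚ_[p]ˣ) : ℚ_[p])) := by
    ext i j
    rw [h_apply, Matrix.diagonal_apply]
  apply Units.ext
  rw [Units.val_mul, Units.val_mul, e]
  ext i j
  rw [Matrix.diagonal_mul, Matrix.mul_diagonal]
  by_cases h : (P : Matrix ι ι ℚ_[p]) i j = 0
  · rw [h]; ring
  · have h2 : D.wt i - D.wt j ∈ ({0} : Set (I → ℤ)) := hP.1 i j h
    have h3 : D.wt i = D.wt j := sub_eq_zero.1 h2
    rw [h3]; ring

/-- TARGET.
See the hints above. -/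
theorem cjD_G (P : GLm p ι) (hP : P ∈ D.Diag) (g : GLm p ι) :
    g ∈ (cjD D P hP).G ↔ P * g * P⁻¹ ∈ D.G := by
  constructor
  · intro hg
    unfold ChevData.G at hg
    induction hg using Subgroup.closure_induction with
    | mem u hu =>
      obtain ⟨k, t, hu | hu⟩ := hu
      · rw [hu, cjD_x]
        have e : P * (P⁻¹ * D.x k t * P) * P⁻¹ = D.x k t := by group
        rw [e]
        exact Subgroup.subset_closure ⟨k, t, Or.inl rfl⟩
      · rw [hu, cjD_y]
        have e : P * (P⁻¹ * D.y k t * P) * P⁻¹ = D.y k t := by group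
        rw [e]
        exact Subgroup.subset_closure ⟨k, t, Or.inr rfl⟩
    | one =>
      have e : P * 1 * P⁻¹ = 1 := by group
      rw [e]
      exact one_mem _
    | mul a b _ _ ha hb =>
      have e : P * (a * b) * P⁻¹ = (P * a * P⁻¹) * (P * b * P⁻¹) := by group
      rw [e]
      exact mul_mem ha hb
    | inv a _ ha =>
      have e : P * a⁻¹ * P⁻¹ = (P * a * P⁻¹)⁻¹ := by group
      rw [e]
      exact inv_mem ha
  · intro hg
    have key : ∀ u ∈ D.G, P⁻¹ * u * P ∈ (cjD D P hP).G := by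
      intro u hu
      unfold ChevData.G at hu
      induction hu using Subgroup.closure_induction with
      | mem u hu =>
        obtain ⟨k, t, hu | hu⟩ := hu
        · rw [hu, ← cjD_x D P hP]
          exact Subgroup.subset_closure ⟨k, t, Or.inl rfl⟩
        · rw [hu, ← cjD_y D P hP]
          exact Subgroup.subset_closure ⟨k, t, Or.inr rfl⟩
      | one =>
        have e : P⁻¹ * 1 * P = 1 := by group
        rw [e]
        exact one_mem _
      | mul a b _ _ ha hb =>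
        have e : P⁻¹ * (a * b) * P = (P⁻¹ * a * P) * (P⁻¹ * b * P) := by group
        rw [e]
        exact mul_mem ha hb
      | inv a _ ha =>
        have e : P⁻¹ * a⁻¹ * P = (P⁻¹ * a * P)⁻¹ := by group
        rw [e]
        exact inv_mem ha
    have h1 := key _ hg
    have e : P⁻¹ * (P * g * P⁻¹) * P = g := by group
    rwa [e] at h1

theorem cjD_UP_aux (P : GLm p ι) (hP : P ∈ D.Diag) (S : Set (I → ℤ)) (hS : Conic S) (g : GLm p ι)
    (hg : g ∈ D.US S hS) : P * g * P⁻¹ ∈ D.US S hS := by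
  have key : ∀ u : GLm p ι, D.Supp S ((u : Matrix ι ι ℚ_[p]) - 1) →
      D.Supp S (((P * u * P⁻¹ : GLm p ι) : Matrix ι ι ℚ_[p]) - 1) := by
    intro u hu
    have e : ((P * u * P⁻¹ : GLm p ι) : Matrix ι ι ℚ_[p]) - 1 =
        (P : Matrix ι ι ℚ_[p]) * ((u : Matrix ι ι ℚ_[p]) - 1) *
          ((P⁻¹ : GLm p ι) : Matrix ι ι ℚ_[p]) := by
      rw [Units.val_mul, Units.val_mul, mul_sub, sub_mul, mul_one, ← Units.val_mul P P⁻¹,
        mul_inv_cancel, Units.val_one]
    rw [e]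
    have h1 : D.Supp S ((P : Matrix ι ι ℚ_[p]) * ((u : Matrix ι ι ℚ_[p]) - 1)) :=
      Supp.mul D hP.1 hu (by rintro a rfl b hb; simpa using hb)
    exact Supp.mul D h1 hP.2 (by rintro a ha b rfl; simpa using ha)
  refine ⟨key g hg.1, ?_⟩
  have e : (P * g * P⁻¹)⁻¹ = P * g⁻¹ * P⁻¹ := by group
  rw [e]
  exact key g⁻¹ hg.2

/-- TARGET.
See the hints above. -/
theorem cjD_UP (P : GLm p ι) (hP : P ∈ D.Diag) (g : GLm p ι) :
    g ∈ (cjD D P hP).UP ↔ P * g * P⁻¹ ∈ D.UP := by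
  show g ∈ D.UP ↔ P * g * P⁻¹ ∈ D.UP
  constructor
  · intro hg
    exact cjD_UP_aux D P hP _ _ g hg
  · intro hg
    have h1 := cjD_UP_aux D P⁻¹ (inv_mem hP) _ _ _ hg
    have e : P⁻¹ * (P * g * P⁻¹) * P⁻¹⁻¹ = g := by group
    rwa [e] at h1

end Pool.Agent.Chev
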