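import Mathlib
import Pool.Agent.Helper911_Chev.Final
import Pool.Agent.Helper911_Chev.KL4
import Pool.Agent.Helper911_Chev.KL5

/-! Removing the integrality condition. -/

set_option autoImplicit false
set_option linter.unusedSectionVars false
set_option maxHeartbeats 1000000

noncomputable section

open Matrix Topology Filter

namespace Pool.Agent.Chev

open ChevData Pool.Agent.Helper911

variable {p : ℕ} [Fact p.Prime] {I ι : Type} [Fintype I] [DecidableEq I] [Fintype ι]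
  [DecidableEq ι]

variable {C : Type*} [NormedField C]

/-- Sections of the principal series. -/
def SecD (D : ChevData p I ι) (χ : (I → ℚ_[p]ˣ) →* Cˣ) (f : D.G → C) : Prop :=
  Continuous f ∧ ∀ (τ : I → ℚ_[p]ˣ) (z n g : D.G), (z : GLm p ι) = D.h τ →
    (n : GLm p ι) ∈ D.UP → f (z * n * g) = ((χ τ : Cˣ) : C) * f g

/-- Closed subrepresentations. -/
structure SubD (D : ChevData p I ι) (χ : (I → ℚ_[p]ˣ) →* Cˣ) where
  V : Submodule C (D.G → C)
  sec : ∀ f ∈ V, SecD D χ f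
  stab : ∀ f ∈ V, ∀ g, (fun x => f (x * g)) ∈ V
  closed : ∀ f, SecD D χ f → (∀ S : Set D.G, IsCompact S → ∀ ε : ℝ, 0 < ε →
    ∃ g ∈ V, ∀ x ∈ S, ‖f x - g x‖ ≤ ε) → f ∈ V

theorem secD_iff (D : ChevData p I ι) (hI : D.Integral) (χ : (I → ℚ_[p]ˣ) →* Cˣ)
    (hχ : Continuous χ) (f : D.G → C) : SecD D χ f ↔ IsSec (chevChar D hI χ hχ) f := by
  constructor
  · rintro ⟨h1, h2⟩
    refine ⟨h1, fun b hb g => ?_⟩
    obtain ⟨τ, n, hn, h⟩ := (mem_B D (b : GLm p ι)).1 hb
    have hb2 : b = ⟨D.h τ, T_le_G D ⟨τ, rfl⟩⟩ * ⟨n, N_le_G D hn⟩ := Subtype.ext h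
    have h3 : (chevChar D hI χ hχ).chi b = ((χ τ : Cˣ) : C) := by
      show ((χ (tauB D (b : GLm p ι)) : Cˣ) : C) = _
      rw [h, tauB_eq D τ hn]
    rw [h3]
    conv_lhs => rw [hb2]
    exact h2 τ _ _ g rfl (N_le_UP D hn)
  · rintro ⟨h1, h2⟩
    refine ⟨h1, fun τ z n g hz hn => ?_⟩
    have hn' : (n : GLm p ι) ∈ D.N := G_inter_UP D n.2 hn
    have hz' : (z : GLm p ι) ∈ D.T := ⟨τ, hz.symm⟩
    have hB : z * n ∈ sg D D.B := mul_mem (T_le_B D hz') (N_le_B D hn')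
    have h3 : (chevChar D hI χ hχ).chi (z * n) = ((χ τ : Cˣ) : C) := by
      show ((χ (tauB D ((z : GLm p ι) * (n : GLm p ι))) : Cˣ) : C) = _
      rw [hz, tauB_eq D τ hn']
    have h4 := h2 (z * n) hB g
    rw [h3] at h4
    exact h4

/-- The abstract closed subrepresentation. -/
def toSubRep (D : ChevData p I ι) (hI : D.Integral) (χ : (I → ℚ_[p]ˣ) →* Cˣ)
    (hχ : Continuous χ) (U : SubD D χ) : SubRep (chevChar D hI χ hχ) where
  V := U.V
  sec f hf := (secD_iff D hI χ hχ f).1 (U.sec f hf)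
  stab f hf g := U.stab f hf g
  closed := by
    intro f hf hlim
    refine U.closed f ((secD_iff D hI χ hχ f).2 hf) fun S hS ε hε => ?_
    obtain ⟨M, hM⟩ := hS.exists_bound_of_continuousOn
      (ht_continuous (X := chevChar D hI χ hχ)).continuousOn
    have hM1 : 0 < |M| + 1 := by positivity
    obtain ⟨g, hg, hb⟩ := hlim (ε / (|M| + 1)) (div_pos hε hM1)
    refine ⟨g, hg, fun x hx => ?_⟩
    have h1 := hb x
    have h2 : Helper911.ht (chevChar D hI χ hχ) x ≤ |M| + 1 := by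
      have := hM x hx
      rw [Real.norm_eq_abs, abs_of_pos (Helper911.ht_pos (chevChar D hI χ hχ) x)] at this
      linarith [le_abs_self M]
    calc ‖f x - g x‖ ≤ ε / (|M| + 1) * Helper911.ht (chevChar D hI χ hχ) x := h1
      _ ≤ ε / (|M| + 1) * (|M| + 1) := mul_le_mul_of_nonneg_left h2 (div_pos hε hM1).le
      _ = ε := div_mul_cancel₀ _ hM1.ne'

/-- Pull back of a space of functions. -/
def pullSub {G1 G2 : Type*} (j : G1 → G2) (U : Submodule C (G1 → C)) : Submodule C (G2 → C) where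
  carrier := {f | (fun g => f (j g)) ∈ U}
  add_mem' := fun {f g} hf hg => U.add_mem (x := fun x => f (j x)) (y := fun x => g (j x)) hf hg
  zero_mem' := U.zero_mem
  smul_mem' := fun a f hf => U.smul_mem a (x := fun x => f (j x)) hf

theorem mem_pullSub {G1 G2 : Type*} (j : G1 → G2) (U : Submodule C (G1 → C)) (f : G2 → C) :
    f ∈ pullSub j U ↔ (fun g => f (j g)) ∈ U := Iff.rfl

section transport

variable (D : ChevData p I ι) (P : GLm p ι) (hP : P ∈ D.Diag)

/-- Conjugation, forwards. -/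
def toC (g : D.G) : (cjD D P hP).G := ⟨P⁻¹ * (g : GLm p ι) * P, by
  rw [cjD_G]
  have : P * (P⁻¹ * (g : GLm p ι) * P) * P⁻¹ = (g : GLm p ι) := by group
  rw [this]; exact g.2⟩

/-- Conjugation, backwards. -/
def fromC (g : (cjD D P hP).G) : D.G := ⟨P * (g : GLm p ι) * P⁻¹, (cjD_G D P hP _).1 g.2⟩

theorem toC_val (g : D.G) : (toC D P hP g).1 = P⁻¹ * g.1 * P := rfl

theorem fromC_val (g : (cjD D P hP).G) : (fromC D P hP g).1 = P * g.1 * P⁻¹ := rfl

theorem conj_aux1 (P g : GLm p ι) : P * (P⁻¹ * g * P) * P⁻¹ = g := by group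

theorem conj_aux2 (P g : GLm p ι) : P⁻¹ * (P * g * P⁻¹) * P = g := by group

theorem conj_aux3 (P g h : GLm p ι) : P⁻¹ * (g * h) * P = (P⁻¹ * g * P) * (P⁻¹ * h * P) := by group

theorem conj_aux4 (P g h : GLm p ι) : P * (g * h) * P⁻¹ = (P * g * P⁻¹) * (P * h * P⁻¹) := by group

theorem from_to (g : D.G) : fromC D P hP (toC D P hP g) = g := by
  apply Subtype.ext
  rw [fromC_val, toC_val, conj_aux1]

theorem to_from (g : (cjD D P hP).G) : toC D P hP (fromC D P hP g) = g := by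
  apply Subtype.ext
  rw [toC_val, fromC_val, conj_aux2]

theorem toC_mul (g g' : D.G) : toC D P hP (g * g') = toC D P hP g * toC D P hP g' := by
  apply Subtype.ext
  rw [toC_val, Subgroup.coe_mul, Subgroup.coe_mul, conj_aux3]
  rfl

theorem fromC_mul (g g' : (cjD D P hP).G) :
    fromC D P hP (g * g') = fromC D P hP g * fromC D P hP g' := by
  apply Subtype.ext
  rw [fromC_val, Subgroup.coe_mul, Subgroup.coe_mul, conj_aux4]
  rfl

theorem toC_cont : Continuous (toC D P hP) := by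
  refine Continuous.subtype_mk ?_ _
  fun_prop

theorem fromC_cont : Continuous (fromC D P hP) := by
  refine Continuous.subtype_mk ?_ _
  fun_prop

theorem fromC_h {τ : I → ℚ_[p]ˣ} {z : (cjD D P hP).G} (hz : (z : GLm p ι) = (cjD D P hP).h τ) :
    (fromC D P hP z : GLm p ι) = D.h τ := by
  show P * (z : GLm p ι) * P⁻¹ = _
  rw [hz, cjD_h, cjD_comm D P hP τ]
  group

theorem toC_h {τ : I → ℚ_[p]ˣ} {z : D.G} (hz : (z : GLm p ι) = D.h τ) :
    (toC D P hP z : GLm p ι) = (cjD D P hP).h τ := by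
  show P⁻¹ * (z : GLm p ι) * P = _
  rw [hz, cjD_h, mul_assoc, ← cjD_comm D P hP τ]
  group

theorem fromC_UP {n : (cjD D P hP).G} (hn : (n : GLm p ι) ∈ (cjD D P hP).UP) :
    (fromC D P hP n : GLm p ι) ∈ D.UP := (cjD_UP D P hP _).1 hn

theorem toC_UP {n : D.G} (hn : (n : GLm p ι) ∈ D.UP) :
    (toC D P hP n : GLm p ι) ∈ (cjD D P hP).UP := by
  rw [cjD_UP]
  have : P * (toC D P hP n : GLm p ι) * P⁻¹ = (n : GLm p ι) := by
    show P * (P⁻¹ * (n : GLm p ι) * P) * P⁻¹ = _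
    group
  rw [this]; exact hn

theorem secD_comp_to (χ : (I → ℚ_[p]ˣ) →* Cˣ) {f' : (cjD D P hP).G → C}
    (h : SecD (cjD D P hP) χ f') : SecD D χ (fun g => f' (toC D P hP g)) := by
  refine ⟨h.1.comp (toC_cont D P hP), fun τ z n g hz hn => ?_⟩
  show f' (toC D P hP (z * n * g)) = _
  rw [toC_mul, toC_mul]
  exact h.2 τ _ _ _ (toC_h D P hP hz) (toC_UP D P hP hn)

theorem secD_comp_from (χ : (I → ℚ_[p]ˣ) →* Cˣ) {f : D.G → C}
    (h : SecD D χ f) : SecD (cjD D P hP) χ (fun g => f (fromC D P hP g)) := by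
  refine ⟨h.1.comp (fromC_cont D P hP), fun τ z n g hz hn => ?_⟩
  show f (fromC D P hP (z * n * g)) = _
  rw [fromC_mul, fromC_mul]
  exact h.2 τ _ _ _ (fromC_h D P hP hz) (fromC_UP D P hP hn)

theorem t_sec (χ : (I → ℚ_[p]ˣ) →* Cˣ) (U : SubD D χ) :
    ∀ f' ∈ pullSub (toC D P hP) U.V, SecD (cjD D P hP) χ f' := by
  intro f' hf'
  have h1 : SecD D χ (fun g => f' (toC D P hP g)) := U.sec _ ((mem_pullSub _ _ _).1 hf')
  have h2 := secD_comp_from D P hP χ h1
  simp only [to_from] at h2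
  exact h2

theorem t_stab (χ : (I → ℚ_[p]ˣ) →* Cˣ) (U : SubD D χ) :
    ∀ f' ∈ pullSub (toC D P hP) U.V, ∀ g, (fun x => f' (x * g)) ∈ pullSub (toC D P hP) U.V := by
  intro f' hf' g
  have h1 := U.stab _ ((mem_pullSub _ _ _).1 hf') (fromC D P hP g)
  have h2 : (fun x => f' (toC D P hP (x * fromC D P hP g)))
      = (fun x => f' (toC D P hP x * g)) := by
    funext x
    rw [toC_mul, to_from]
  have h3 : (fun x => f' (toC D P hP x * g)) ∈ U.V := h2 ▸ h1
  exact (mem_pullSub _ _ _).2 h3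

theorem t_closed (χ : (I → ℚ_[p]ˣ) →* Cˣ) (U : SubD D χ) :
    ∀ f, SecD (cjD D P hP) χ f → (∀ S : Set (cjD D P hP).G, IsCompact S → ∀ ε : ℝ, 0 < ε →
    ∃ g ∈ pullSub (toC D P hP) U.V, ∀ x ∈ S, ‖f x - g x‖ ≤ ε) → f ∈ pullSub (toC D P hP) U.V := by
  intro f' hf' hlim
  refine (mem_pullSub _ _ _).2 (U.closed _ (secD_comp_to D P hP χ hf') fun S hS ε hε => ?_)
  have hS' : IsCompact (toC D P hP '' S) := hS.image (toC_cont D P hP)
  obtain ⟨g', hg', hb⟩ := hlim _ hS' ε hε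
  exact ⟨fun g => g' (toC D P hP g), (mem_pullSub _ _ _).1 hg', fun x hx => hb _ (Set.mem_image_of_mem _ hx)⟩

/-- The transported subrepresentation. -/
def transSub (χ : (I → ℚ_[p]ˣ) →* Cˣ) (U : SubD D χ) : SubD (cjD D P hP) χ where
  V := pullSub (toC D P hP) U.V
  sec := t_sec D P hP χ U
  stab := t_stab D P hP χ U
  closed := t_closed D P hP χ U

end transport

variable [NormedAlgebra ℚ_[p] C] [CompleteSpace C] [IsUltrametricDist C]

/-- The main theorem without the integrality condition. -/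
theorem main_D {rho : ℝ} (hd : Disc p C rho) (D : ChevData p I ι) (χ : (I → ℚ_[p]ˣ) →* Cˣ)
    (hχ : Continuous χ) (U : SubD D χ) (hne : U.V ≠ ⊥) (hnt : ∃ f, SecD D χ f ∧ f ∉ U.V) :
    ∃ w ∈ D.W, ∃ k : I, D.Pos (w (D.A k)) ∧ (∀ l, 0 ≤ (w⁻¹ (Pi.single l 1)) k) ∧
      ∃ m : ℕ, ∀ x : ℚ_[p]ˣ,
      ((χ (coch (fun l => (w⁻¹ (Pi.single l 1)) k) x) : Cˣ) : C)
        = ((algebraMap ℚ_[p] C (x : ℚ_[p])) ^ m)⁻¹ := by
  obtain ⟨P, hP, hI⟩ := exists_integral D
  set U' := transSub D P hP χ U with hU'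
  have hne' : U'.V ≠ ⊥ := by
    intro h
    apply hne
    rw [Submodule.eq_bot_iff] at h ⊢
    intro f hf
    have h1 : (fun g => f (fromC D P hP g)) ∈ U'.V := by
      have h0 : (fun g => f (fromC D P hP (toC D P hP g))) ∈ U.V := by
        simp only [from_to]
        exact hf
      exact (mem_pullSub _ _ _).2 h0
    have h2 := h _ h1
    funext g
    have h3 := congrFun h2 (toC D P hP g)
    simp only [from_to] at h3
    exact h3
  obtain ⟨f, hf, hfV⟩ := hnt
  obtain ⟨w, k, h1, h2, m, h3⟩ := chev_main (cjD D P hP) hI hd χ hχ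
    (toSubRep (cjD D P hP) hI χ hχ U') hne' ⟨fun g => f (fromC D P hP g),
      (secD_iff _ hI χ hχ _).1 (secD_comp_from D P hP χ hf), by
      intro hcon
      apply hfV
      have h1 : (fun g => f (fromC D P hP (toC D P hP g))) ∈ U.V := (mem_pullSub _ _ _).1 hcon
      simp only [from_to] at h1
      exact h1⟩
  exact ⟨w.1, w.2, k, h1, h2, m, h3⟩

end Pool.Agent.Chev
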