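import Mathlib
import Pool.Agent.Helper911_Chev.Defs3
import Pool.Agent.Helper911_Chev.Stmt
import Pool.Agent.Helper911_Chev.CW1
import Pool.Agent.Helper911_Chev.CW2

set_option autoImplicit false
set_option linter.unusedSectionVars false
set_option maxHeartbeats 1000000

noncomputable section

open Matrix Topology

namespace Pool.Agent.Chev

open ChevData
open Pool.Agent.SplitGroup (PosWeight RootPair IsPosRoot IsHalfSum)

variable {p : ℕ} [Fact p.Prime] {I ι : Type} [Fintype I] [DecidableEq I] [Fintype ι]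
  [DecidableEq ι] (D : ChevData p I ι)

/-! ======= TARGETS ======= -/

theorem ZT1_s_inv (j : I) : (D.s j)⁻¹ = D.s j := by
  rw [inv_eq_iff_mul_eq_one]
  ext μ l
  show (D.s j (D.s j μ)) l = μ l
  exact congrFun ((D.s j).left_inv μ) l

theorem ZT1_lin (u : (I → ℤ) ≃ₗ[ℤ] (I → ℤ)) (μ : I → ℤ) (k : I) :
    (u μ) k = ∑ m, μ m * (u (Pi.single m 1)) k := by
  have h : μ = ∑ m, μ m • (Pi.single m 1 : I → ℤ) := by
    funext l
    simp [Finset.sum_apply, Pi.single_apply]
  conv_lhs => rw [h]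
  rw [map_sum, Finset.sum_apply]
  refine Finset.sum_congr rfl fun m _ => ?_
  rw [map_smul, Pi.smul_apply, smul_eq_mul]

theorem ZT1_coroot (w : (I → ℤ) ≃ₗ[ℤ] (I → ℤ)) (j k : I) :
    (fun l => ((D.s j * w)⁻¹ (Pi.single l 1)) k) =
      (fun l => (w⁻¹ (Pi.single l 1)) k) -
        (∑ l, D.A j l * (w⁻¹ (Pi.single l 1)) k) • (Pi.single j 1 : I → ℤ) := by
  funext l
  have h1 : ((D.s j * w)⁻¹ (Pi.single l 1)) k =
      (w⁻¹ (Pi.single l 1 - (Pi.single l 1 : I → ℤ) j • D.A j)) k := by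
    rw [_root_.mul_inv_rev, ZT1_s_inv]
    rfl
  rw [h1, map_sub, map_smul, Pi.sub_apply, Pi.smul_apply, Pi.sub_apply, Pi.smul_apply,
    ← ZT1_lin (w⁻¹) (D.A j) k, smul_eq_mul, smul_eq_mul, mul_comm ((w⁻¹ (D.A j)) k)]
  congr 2
  rw [Pi.single_apply, Pi.single_apply]
  by_cases h : j = l
  · rw [if_pos h, if_pos h.symm]
  · rw [if_neg h, if_neg (Ne.symm h)]

/-- TARGET.
`rt c = vecMul c A = ∑ k, c k • A k`. -/
theorem posWeight_iff_Pos (μ : I → ℤ) : PosWeight D.A μ ↔ D.Pos μ := by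
  unfold PosWeight ChevData.Pos ChevData.rt
  simp only [Matrix.vecMul_eq_sum]

/-- TARGET.
Proof. Induction over the closure `W` (`Subgroup.closure_induction_left`; the `s j` are involutions). For `w = 1` it is `RootPair.simple` (`(single l 1) k = (single k 1) l`). For `s j * w`: `(s j * w) (A k) = α - α j • A j` with `α = w (A k)`, and `((s j * w)⁻¹ (single l 1)) k = (w⁻¹ (s j (single l 1))) k = c l - δ_{lj} (w⁻¹ (A j)) k` where `c l = (w⁻¹ (single l 1)) k`, and `(w⁻¹ (A j)) k = ∑_m A j m * c m` by linearity (`A j = ∑_m A j m • single m 1`). -/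
theorem rootPair_W {w : (I → ℤ) ≃ₗ[ℤ] (I → ℤ)} (hw : w ∈ D.W) (k : I) :
    RootPair D.A (w (D.A k)) (fun l => (w⁻¹ (Pi.single l 1)) k) := by
  have step : ∀ (j : I) (w : (I → ℤ) ≃ₗ[ℤ] (I → ℤ)),
      RootPair D.A (w (D.A k)) (fun l => (w⁻¹ (Pi.single l 1)) k) →
      RootPair D.A ((D.s j * w) (D.A k)) (fun l => ((D.s j * w)⁻¹ (Pi.single l 1)) k) := by
    intro j w h
    rw [ZT1_coroot]
    exact RootPair.refl j _ _ h
  unfold ChevData.W at hw
  induction hw using Subgroup.closure_induction_left with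
  | one =>
    have h2 : (fun l => ((1 : (I → ℤ) ≃ₗ[ℤ] (I → ℤ))⁻¹ (Pi.single l 1)) k) =
        (Pi.single k 1 : I → ℤ) := by
      funext l
      rw [inv_one]
      show (Pi.single l 1 : I → ℤ) k = (Pi.single k 1 : I → ℤ) l
      rw [Pi.single_apply, Pi.single_apply]
      by_cases h : k = l
      · rw [if_pos h, if_pos h.symm]
      · rw [if_neg h, if_neg (Ne.symm h)]
    rw [h2]
    exact RootPair.simple k
  | mul_left x hx y hy ih =>
    obtain ⟨j, rfl⟩ := hx
    exact step j y ih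
  | inv_mul_cancel x hx y hy ih =>
    obtain ⟨j, rfl⟩ := hx
    rw [ZT1_s_inv]
    exact step j y ih

/-- TARGET.
Proof. Induction on `RootPair`, same computation as in `rootPair_W`. -/
theorem rootPair_inv {α c : I → ℤ} (h : RootPair D.A α c) :
    ∃ w ∈ D.W, ∃ k, α = w (D.A k) ∧ c = fun l => (w⁻¹ (Pi.single l 1)) k := by
  induction h with
  | simple k =>
    refine ⟨1, one_mem _, k, rfl, ?_⟩
    funext l
    rw [inv_one]
    show (Pi.single k 1 : I → ℤ) l = (Pi.single l 1 : I → ℤ) k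
    rw [Pi.single_apply, Pi.single_apply]
    by_cases h : k = l
    · rw [if_pos h, if_pos h.symm]
    · rw [if_neg h, if_neg (Ne.symm h)]
  | refl j α c _ ih =>
    obtain ⟨w, hw, k, rfl, rfl⟩ := ih
    refine ⟨D.s j * w, mul_mem (Subgroup.subset_closure ⟨j, rfl⟩) hw, k, rfl, ?_⟩
    rw [ZT1_coroot]

/-- TARGET.
Proof. Otherwise all `(w⁻¹ (single l 1)) k = 0`, so `(w⁻¹ μ) k = 0` for all `μ` by linearity; but `μ = w (A k)` gives `A k k = 2`. -/
theorem coroot_sum_pos {w : (I → ℤ) ≃ₗ[ℤ] (I → ℤ)} (hw : w ∈ D.W) (k : I)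
    (h : ∀ l, 0 ≤ (w⁻¹ (Pi.single l 1)) k) : 1 ≤ ∑ l, (w⁻¹ (Pi.single l 1)) k := by
  by_contra hcon
  have h0 : ∑ l, (w⁻¹ (Pi.single l 1)) k = 0 := by
    have := Finset.sum_nonneg (fun l (_ : l ∈ (Finset.univ : Finset I)) => h l)
    omega
  have hz := (Finset.sum_eq_zero_iff_of_nonneg (fun l _ => h l)).1 h0
  have h1 := ZT1_lin (w⁻¹) (w (D.A k)) k
  have h2 : (w⁻¹ (w (D.A k))) k = 2 := by
    have h3 : w⁻¹ (w (D.A k)) = D.A k := w.symm_apply_apply (D.A k)
    rw [h3, D.A_diag]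
  rw [h2, Finset.sum_eq_zero (fun m hm => by rw [hz m hm, mul_zero])] at h1
  norm_num at h1

theorem ZT1_pos_simple (k : I) : D.Pos (D.A k) := by
  refine ⟨Pi.single k 1, ?_, ?_, (D.rt_single k).symm⟩
  · intro l
    rw [Pi.single_apply]
    split_ifs <;> norm_num
  · intro h
    have := congrFun h k
    simp at this

theorem ZT1_refl (k : I) {β : I → ℤ} (hβ : IsPosRoot D.A β) (hne : β ≠ D.A k) :
    IsPosRoot D.A (D.s k β) ∧ D.s k β ≠ D.A k := by
  obtain ⟨⟨c, hc⟩, hpos⟩ := hβ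
  obtain ⟨w, hw, l, rfl, -⟩ := rootPair_inv D hc
  rw [posWeight_iff_Pos] at hpos
  have hsw : D.s k * w ∈ D.W := mul_mem (Subgroup.subset_closure ⟨k, rfl⟩) hw
  refine ⟨⟨⟨_, rootPair_W D hsw l⟩, ?_⟩, ?_⟩
  · rw [posWeight_iff_Pos]
    exact weyl_refl_pos D hw k l hpos hne
  · intro h
    have h1 : w (D.A l) = - D.A k := by
      have h2 := congrArg (D.s k) h
      have h3 : D.s k (D.s k (w (D.A l))) = w (D.A l) := (D.s k).left_inv _
      rw [h3, D.s_apply, D.A_diag] at h2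
      rw [h2, two_smul]
      abel
    rw [h1] at hpos
    apply D.pos_conic.zero
    have := D.pos_conic.add _ hpos _ (ZT1_pos_simple D k)
    rwa [neg_add_cancel] at this

/-- TARGET.
Proof. The positive roots are the `w (A l)`, `w ∈ W`, with `Pos (w (A l))` (`rootPair_W`, `rootPair_inv`, `posWeight_iff_Pos`); they form a finite set `P` since `W` and `I` are finite (`W_finite`). Let `σ` be their sum (`finsum_mem_eq_finite_toFinset_sum` or similar). For each `k`, `s k` maps `P \ {A k}` to itself bijectively (`weyl_refl_pos`; `s k` is an involution, and `s k β ≠ A k` because `s k (A k) = - A k` is not `Pos` (`pos_conic`)), so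
`s k σ = σ - A k + s k (A k) = σ - 2 • A k`. As `s k σ = σ - σ k • A k` and `A k ≠ 0` (`A k k = 2`), `σ k = 2`. -/
theorem halfSum_one : IsHalfSum D.A (fun _ => (1 : ℤ)) := by
  classical
  have hfin : {α | IsPosRoot D.A α}.Finite := by
    have hW : Finite D.W := W_finite D
    refine (Set.finite_range (fun x : D.W × I => x.1.1 (D.A x.2))).subset ?_
    rintro α ⟨⟨c, hc⟩, -⟩
    obtain ⟨w, hw, l, rfl, -⟩ := rootPair_inv D hc
    exact ⟨(⟨w, hw⟩, l), rfl⟩
  refine ⟨hfin, ?_⟩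
  have h1 : (∑ᶠ (α : I → ℤ) (_ : IsPosRoot D.A α), α) = ∑ α ∈ hfin.toFinset, α :=
    finsum_mem_eq_finite_toFinset_sum (fun α : I → ℤ => α) hfin
  rw [h1]
  set P := hfin.toFinset with hP
  have hmem : ∀ α, α ∈ P ↔ IsPosRoot D.A α := by
    intro α
    rw [hP, Set.Finite.mem_toFinset]
    rfl
  have hkey : ∀ k, (∑ α ∈ P, α) k = 2 := by
    intro k
    have hkP : D.A k ∈ P := by
      rw [hmem]
      exact ⟨⟨_, RootPair.simple k⟩, (posWeight_iff_Pos D _).2 (ZT1_pos_simple D k)⟩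
    have hinv : ∀ β, D.s k (D.s k β) = β := fun β => (D.s k).left_inv β
    have hsum : ∑ α ∈ P.erase (D.A k), D.s k α = ∑ α ∈ P.erase (D.A k), α := by
      refine Finset.sum_nbij' (fun α => D.s k α) (fun α => D.s k α) ?_ ?_ ?_ ?_ ?_
      · intro β hβ
        rw [Finset.mem_erase, hmem] at hβ ⊢
        have := ZT1_refl D k hβ.2 hβ.1
        exact ⟨this.2, this.1⟩
      · intro β hβ
        rw [Finset.mem_erase, hmem] at hβ ⊢
        have := ZT1_refl D k hβ.2 hβ.1
        exact ⟨this.2, this.1⟩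
      · intro β _; exact hinv β
      · intro β _; exact hinv β
      · intro β _; rfl
    have h2 : D.s k (∑ α ∈ P, α) = D.s k (D.A k) + ∑ α ∈ P.erase (D.A k), α := by
      rw [map_sum, ← Finset.add_sum_erase P (fun α => D.s k α) hkP, hsum]
    have h3 : ∑ α ∈ P, α = D.A k + ∑ α ∈ P.erase (D.A k), α :=
      (Finset.add_sum_erase P (fun α => α) hkP).symm
    rw [D.s_apply, D.s_apply, D.A_diag] at h2
    have h4 := congrFun h2 k
    have h5 := congrFun h3 k
    simp only [Pi.sub_apply, Pi.add_apply, Pi.smul_apply, smul_eq_mul, D.A_diag] at h4 h5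
    omega
  funext k
  rw [hkey k]
  rfl

end Pool.Agent.Chev
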