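import Mathlib
import Pool.Agent.Helper911_Chev.Bridge
import Pool.Agent.Helper911_Chev.Trans
import Pool.Agent.Helper911_Chev.ZT1

/-! From closed subrepresentations in the statement to the internal ones. -/

set_option autoImplicit false
set_option linter.unusedSectionVars false
set_option maxHeartbeats 1000000

noncomputable section

open Matrix Topology

namespace Pool.Agent.SplitGroup

open Pool.Agent.Chev Pool.Agent.Chev.ChevData

variable {p : ℕ} [Fact p.Prime] {I : Type} [Fintype I] [DecidableEq I] {L : Type} [LieRing L]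
  [LieAlgebra ℚ_[p] L] {H : LieSubalgebra ℚ_[p] L} {b : LieAlgebra.Basis I H} {ι : Type}
  [Fintype ι] [DecidableEq ι]

theorem isTorus_iff (V : WeightRep b ι) (t : I → ℚ_[p]ˣ) (g : (Matrix ι ι ℚ_[p])ˣ) :
    IsTorus V t g ↔ g = (toChev V).h t := by
  have h1 : (((toChev V).h t : (Matrix ι ι ℚ_[p])ˣ) : Matrix ι ι ℚ_[p])
      = Matrix.diagonal fun i => ∏ k, (t k : ℚ_[p]) ^ V.wt i k := by
    show Matrix.diagonal (fun i => ((∏ k, t k ^ V.wt i k : ℚ_[p]ˣ) : ℚ_[p])) = _
    congr 1
    funext i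
    rw [Units.coe_prod]
    simp only [Units.val_zpow_eq_zpow_val]
  constructor
  · intro h
    exact Units.ext (h.trans h1.symm)
  · intro h
    rw [h]
    exact h1

theorem isUnipotent_iff (V : WeightRep b ι) (g : (Matrix ι ι ℚ_[p])ˣ) :
    IsUnipotent V g ↔ g ∈ (toChev V).UP := by
  constructor
  · intro h
    refine US_of_val (toChev V) _ (pos_conic (toChev V)) g fun i j hij => ?_
    exact (posWeight_iff V _).1 (h i j hij)
  · rintro ⟨h, -⟩ i j hij
    exact (posWeight_iff V _).2 (h i j hij)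

/-- The identification of the two groups. -/
def toD (V : WeightRep b ι) (g : Grp V) : (toChev V).G := ⟨g.1, by rw [← grp_eq]; exact g.2⟩

/-- The identification of the two groups. -/
def ofD (V : WeightRep b ι) (g : (toChev V).G) : Grp V := ⟨g.1, by rw [grp_eq]; exact g.2⟩

theorem toD_ofD (V : WeightRep b ι) (g : (toChev V).G) : toD V (ofD V g) = g := rfl

theorem ofD_toD (V : WeightRep b ι) (g : Grp V) : ofD V (toD V g) = g := rfl

theorem toD_cont (V : WeightRep b ι) : Continuous (toD V) :=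
  Continuous.subtype_mk continuous_subtype_val _

theorem ofD_cont (V : WeightRep b ι) : Continuous (ofD V) :=
  Continuous.subtype_mk continuous_subtype_val _

variable {C : Type*} [NormedField C]

theorem sec_toD {V : WeightRep b ι} {χ : (I → ℚ_[p]ˣ) →* Cˣ} {f : Grp V → C}
    (hf : IsSection V χ f) : SecD (toChev V) χ (fun g => f (ofD V g)) := by
  refine ⟨hf.1.comp (ofD_cont V), fun τ z n g hz hn => ?_⟩
  exact hf.2 τ (ofD V z) (ofD V n) (ofD V g) ((isTorus_iff V τ _).2 hz)
    ((isUnipotent_iff V _).2 hn)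

theorem sec_ofD {V : WeightRep b ι} {χ : (I → ℚ_[p]ˣ) →* Cˣ} {f : (toChev V).G → C}
    (hf : SecD (toChev V) χ f) : IsSection V χ (fun g => f (toD V g)) := by
  refine ⟨hf.1.comp (toD_cont V), fun τ z n g hz hn => ?_⟩
  exact hf.2 τ (toD V z) (toD V n) (toD V g) ((isTorus_iff V τ _).1 hz)
    ((isUnipotent_iff V _).1 hn)

/-- The internal closed subrepresentation. -/
def toSub {V : WeightRep b ι} {χ : (I → ℚ_[p]ˣ) →* Cˣ} {U : Submodule C (Grp V → C)}
    (hU : IsSubrep V χ U) : SubD (toChev V) χ where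
  V := pullSub (toD V) U
  sec := fun f hf => sec_toD (hU.1 ((mem_pullSub _ _ _).1 hf))
  stab := fun f hf g => (mem_pullSub _ _ _).2 (hU.2.1 _ ((mem_pullSub _ _ _).1 hf) (ofD V g))
  closed := by
    intro f hf hlim
    refine (mem_pullSub _ _ _).2 (hU.2.2 _ (sec_ofD hf) fun S hS ε hε => ?_)
    have hS' : IsCompact (toD V '' S) := hS.image (toD_cont V)
    obtain ⟨g, hg, hb⟩ := hlim _ hS' ε hε
    exact ⟨fun x => g (toD V x), (mem_pullSub _ _ _).1 hg, fun x hx => hb _ (Set.mem_image_of_mem _ hx)⟩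

variable [NormedAlgebra ℚ_[p] C] [CompleteSpace C] [IsUltrametricDist C]

/-- The main theorem for the data of the statement, before the base change. -/
theorem main_V {rho : ℝ} (hd : Pool.Agent.Helper911.Disc p C rho) (V : WeightRep b ι)
    (χ : (I → ℚ_[p]ˣ) →* Cˣ) (hχ : Continuous χ) (hred : Reducible V χ) :
    ∃ α c : I → ℤ, RootPair b.A α c ∧ PosWeight b.A α ∧ (∀ l, 0 ≤ c l) ∧ 1 ≤ ∑ l, c l ∧
      ∃ m : ℕ, ∀ x : ℚ_[p]ˣ, ((χ (cochar c x) : Cˣ) : C)
        = ((algebraMap ℚ_[p] C (x : ℚ_[p])) ^ m)⁻¹ := by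
  obtain ⟨U, hU, hU0, hU1⟩ := hred
  obtain ⟨w, hw, k, h1, h2, m, h3⟩ := main_D hd (toChev V) χ hχ (toSub hU) (by
    intro h
    apply hU0
    rw [Submodule.eq_bot_iff] at h ⊢
    intro f hf
    have h2 := h (fun g => f (ofD V g)) ((mem_pullSub _ _ _).2 hf)
    funext g
    exact congrFun h2 (toD V g)) (by
    by_contra hcon
    push Not at hcon
    apply hU1
    refine le_antisymm hU.1 fun f hf => ?_
    exact (mem_pullSub _ _ _).1 (hcon (fun g => f (ofD V g)) (sec_toD hf)))
  refine ⟨w (b.A k), fun l => (w⁻¹ (Pi.single l 1)) k, rootPair_W (toChev V) hw k,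
    (posWeight_iff V _).2 h1, h2, coroot_sum_pos (toChev V) hw k h2, m, h3⟩

end Pool.Agent.SplitGroup
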