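import Mathlib
import Pool.Agent.Helper911_Chev.Defs3
import Pool.Agent.Helper911_Chev.CA1
import Pool.Agent.Helper911_Chev.CA2
import Pool.Agent.Helper911_Chev.CA3
import Pool.Agent.Helper911_Chev.CB1
import Pool.Agent.Helper911_Chev.CB4
import Pool.Agent.Helper911_Chev.CW1
import Pool.Agent.Helper911_Chev.CW2
import Pool.Agent.Helper911_Chev.CC1
import Pool.Agent.Helper911_Chev.CC2
import Pool.Agent.Helper911_Chev.DL1
import Pool.Agent.Helper911_Chev.DL2

set_option autoImplicit false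
set_option linter.unusedSectionVars false
set_option maxHeartbeats 1000000

noncomputable section

open Matrix Topology

namespace Pool.Agent.Chev

open ChevData

variable {p : ℕ} [Fact p.Prime] {I ι : Type} [Fintype I] [DecidableEq I] [Fintype ι]
  [DecidableEq ι] (D : ChevData p I ι)

/-! ======= TARGETS ======= -/

/-- TARGET.
Proof. `Lg_root_neg` gives `m, w, l` with `w (A l) = γ` and `Z = c • cj m (F l)`, `c ≠ 0`. Let `X = cj m (E l) ∈ Lg` (`Lg_cj_NN`), supported in `{γ}` (`supp_cj`), nonzero, and `S = F k * X - X * F k ∈ Lg` (`Lg_br`, `Lg_F`), supported in `{γ - A k}`. Suppose `Z S - S Z = 0`. `Y = E k * S - S * E k ∈ Lg` is supported in `{γ}`, so `Y = κ • cj m (E l) = κ • X` (last clause of `Lg_root_neg`). `0 = trace ((Z S - S Z) E_k) = trace (Z (S E_k - E_k S)) = - trace (Z Y) = - κ c trace (cj m (F l) * cj m (E l))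
= - κ c trace (F l * E l)`, so `κ = 0` by `tr_EF`, `Y = 0`. This contradicts `sl2_ne` (`X` has `h`-weight `γ k > 0`). -/
theorem Lg_test {Z : Matrix ι ι ℚ_[p]} (hZ : Z ∈ Lg D) (h0 : Z ≠ 0) {γ : I → ℤ}
    (hγ : D.Pos γ) (hz : D.Supp {-γ} Z) (k : I) (hk : 0 < γ k) :
    ∃ S ∈ Lg D, D.Supp {γ - D.A k} S ∧ Z * S - S * Z ≠ 0 := by
  obtain ⟨m, hm, w, hw, hrep, l, hwl, h1, h2⟩ := Lg_root_neg D hZ h0 hγ hz
  obtain ⟨c, hc⟩ := h1 Z hZ hz
  have hc0 : c ≠ 0 := by
    rintro rfl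
    exact h0 (by rw [hc, zero_smul])
  obtain ⟨X, hXdef⟩ : ∃ X : Matrix ι ι ℚ_[p], X = cj m (D.E l) := ⟨_, rfl⟩
  have hXL : X ∈ Lg D := by rw [hXdef]; exact Lg_cj_NN D (Lg_E D l) hm
  have hEl : D.Supp {D.A l} (D.E l) := by
    intro i j hij
    rw [D.E_wt l i j hij]
    simp
  have hXs : D.Supp {γ} X := by
    have h3 := supp_cj D hrep hEl
    rw [Set.image_singleton, hwl] at h3
    rw [hXdef]
    exact h3
  have hX0 : X ≠ 0 := by
    intro h3
    apply E_ne D l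
    rw [hXdef] at h3
    have h4 : cj m⁻¹ (cj m (D.E l)) = D.E l := by
      rw [← cj_mul, inv_mul_cancel, cj_one]
    rw [← h4, h3]
    unfold cj
    simp
  have hXw : ∀ i j, X i j ≠ 0 → (D.wt i - D.wt j) k = γ k := by
    intro i j hij
    have h3 := hXs i j hij
    rw [Set.mem_singleton_iff] at h3
    rw [h3]
  have hFk : D.Supp {-(D.A k)} (D.F k) := by
    intro i j hij
    rw [D.F_wt k i j hij]
    simp
  have hEk : D.Supp {D.A k} (D.E k) := by
    intro i j hij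
    rw [D.E_wt k i j hij]
    simp
  have hsub : ∀ {T : Set (I → ℤ)} {P Q : Matrix ι ι ℚ_[p]}, D.Supp T P → D.Supp T Q →
      D.Supp T (P - Q) := by
    intro T P Q hP hQ i j hij
    by_cases h : P i j = 0
    · apply hQ i j
      intro h'
      apply hij
      rw [Matrix.sub_apply, h, h', sub_zero]
    · exact hP i j h
  obtain ⟨S, hSdef⟩ : ∃ S : Matrix ι ι ℚ_[p], S = D.F k * X - X * D.F k := ⟨_, rfl⟩
  have hSL : S ∈ Lg D := by rw [hSdef]; exact Lg_br D (Lg_F D k) hXL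
  have hSs : D.Supp {γ - D.A k} S := by
    rw [hSdef]
    refine hsub (Supp.mul D hFk hXs ?_) (Supp.mul D hXs hFk ?_)
    · rintro a rfl b rfl
      rw [Set.mem_singleton_iff]; abel
    · rintro a rfl b rfl
      rw [Set.mem_singleton_iff]; abel
  refine ⟨S, hSL, hSs, fun hcomm => ?_⟩
  obtain ⟨Y, hYdef⟩ : ∃ Y : Matrix ι ι ℚ_[p], Y = D.E k * S - S * D.E k := ⟨_, rfl⟩
  have hYL : Y ∈ Lg D := by rw [hYdef]; exact Lg_br D (Lg_E D k) hSL
  have hYs : D.Supp {γ} Y := by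
    rw [hYdef]
    refine hsub (Supp.mul D hEk hSs ?_) (Supp.mul D hSs hEk ?_)
    · rintro a rfl b rfl
      rw [Set.mem_singleton_iff]; abel
    · rintro a rfl b rfl
      rw [Set.mem_singleton_iff]; abel
  obtain ⟨κ, hκ⟩ := h2 Y hYL hYs
  have hcjm : ∀ P Q : Matrix ι ι ℚ_[p], cj m P * cj m Q = cj m (P * Q) := by
    intro P Q
    unfold cj
    have h3 : ((m⁻¹ : GLm p ι) : Matrix ι ι ℚ_[p]) * (m : Matrix ι ι ℚ_[p]) = 1 := by
      rw [← Units.val_mul, inv_mul_cancel, Units.val_one]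
    calc (m : Matrix ι ι ℚ_[p]) * P * ((m⁻¹ : GLm p ι) : Matrix ι ι ℚ_[p]) *
          ((m : Matrix ι ι ℚ_[p]) * Q * ((m⁻¹ : GLm p ι) : Matrix ι ι ℚ_[p]))
        = (m : Matrix ι ι ℚ_[p]) * P * (((m⁻¹ : GLm p ι) : Matrix ι ι ℚ_[p]) *
          (m : Matrix ι ι ℚ_[p])) * Q * ((m⁻¹ : GLm p ι) : Matrix ι ι ℚ_[p]) := by
          simp only [Matrix.mul_assoc]
      _ = _ := by rw [h3, Matrix.mul_one]; simp only [Matrix.mul_assoc]
  have htr : ∀ P : Matrix ι ι ℚ_[p], (cj m P).trace = P.trace := by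
    intro P
    unfold cj
    rw [Matrix.mul_assoc, Matrix.trace_mul_comm, Matrix.mul_assoc]
    have h3 : ((m⁻¹ : GLm p ι) : Matrix ι ι ℚ_[p]) * (m : Matrix ι ι ℚ_[p]) = 1 := by
      rw [← Units.val_mul, inv_mul_cancel, Units.val_one]
    rw [h3, Matrix.mul_one]
  have ht1 : (Z * Y).trace = 0 := by
    have h3 : ((Z * S - S * Z) * D.E k).trace = 0 := by
      rw [hcomm, Matrix.zero_mul, Matrix.trace_zero]
    have h4 : ((Z * S - S * Z) * D.E k).trace = -(Z * Y).trace := by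
      rw [hYdef, Matrix.sub_mul, Matrix.trace_sub, Matrix.mul_sub, Matrix.trace_sub]
      have h5 : (S * Z * D.E k).trace = (Z * (D.E k * S)).trace := by
        rw [Matrix.mul_assoc, Matrix.trace_mul_comm, Matrix.mul_assoc]
      rw [h5, Matrix.mul_assoc]
      ring
    rw [h4] at h3
    exact neg_eq_zero.1 h3
  have ht2 : (Z * Y).trace = c * κ * (D.F l * D.E l).trace := by
    rw [hc, hκ, smul_mul_assoc, mul_smul_comm, hcjm, Matrix.trace_smul, Matrix.trace_smul, htr,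
      smul_eq_mul, smul_eq_mul]
    ring
  have hκ0 : κ = 0 := by
    rw [ht2] at ht1
    rcases mul_eq_zero.1 ht1 with h3 | h3
    · rcases mul_eq_zero.1 h3 with h4 | h4
      · exact absurd h4 hc0
      · exact h4
    · exact absurd h3 (tr_EF D l)
  have hY0 : Y = 0 := by rw [hκ, hκ0, zero_smul]
  refine sl2_ne D k hX0 (γ k) hk hXw ?_
  rw [← hSdef, ← hYdef]
  exact hY0

end Pool.Agent.Chev
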